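import Pool.Agent.P.MP_5d7cf0_gt.St

/-!
Package Act: the action of the symmetric group.
-/

open Set Filter Topology MeasureTheory ComplexConjugate
open scoped ContDiff ENNReal

noncomputable section

namespace Pool.Agent.P.MP_5d7cf0_gt

namespace ActP

/-- brackets under `Rel` -/
theorem rel_br {v v' : V6} {D : ℂ} {c : Fin 6 → ℂ} (h : Rel v v' D c) (i j : Fin 6) :
    br (v' i) (v' j) = D * c i * c j * br (v i) (v j) := by
  obtain ⟨-, -, α, β, γ, δ, hD, hv⟩ := h
  rw [hv i, hv j, ← hD]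
  unfold br
  ring

theorem rel_gen {v v' : V6} {D : ℂ} {c : Fin 6 → ℂ} (h : Rel v v' D c) (hv : Gen v) : Gen v' :=
  fun i j hij => by
    rw [rel_br h]
    exact mul_ne_zero (mul_ne_zero (mul_ne_zero h.1 (h.2.1 i)) (h.2.1 j)) (hv i j hij)

/-- the cross ratio is invariant -/
theorem rel_cr {v v' : V6} {D : ℂ} {c : Fin 6 → ℂ} (h : Rel v v' D c) (i j k l : Fin 6) :
    cr (v' i) (v' j) (v' k) (v' l) = cr (v i) (v j) (v k) (v l) := by
  unfold cr
  simp only [rel_br h]
  have h0 : D ^ 2 * c i * c j * c k * c l ≠ 0 :=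
    mul_ne_zero (mul_ne_zero (mul_ne_zero (mul_ne_zero (pow_ne_zero _ h.1) (h.2.1 i)) (h.2.1 j))
      (h.2.1 k)) (h.2.1 l)
  rw [← mul_div_mul_left (br (v l) (v i) * br (v j) (v k)) _ h0]
  congr 1 <;> ring

theorem gen_comp {v : V6} (hv : Gen v) (σ : Equiv.Perm (Fin 6)) : Gen (v ∘ σ) :=
  fun _ _ hij => hv _ _ (σ.injective.ne hij)

/-- the normalized point -/
def nrm (v : V6) : E := fun k => cr (v 0) (v 4) (v 5) (v (![1, 2, 3] k))

def DD (v : V6) : ℂ := br (v 4) (v 5) * br (v 4) (v 0) * br (v 0) (v 5)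

def cf (v : V6) (i : Fin 6) : ℂ :=
  if i = 5 then (br (v 5) (v 0) * br (v 4) (v 5))⁻¹ else (br (v i) (v 5) * br (v 4) (v 0))⁻¹

theorem rel_nrm {v : V6} (hv : Gen v) : Rel v (pt (nrm v)) (DD v) (cf v) := by
  have h45 := hv 4 5 (by decide)
  have h40 := hv 4 0 (by decide)
  have h05 := hv 0 5 (by decide)
  have h50 := hv 5 0 (by decide)
  refine ⟨mul_ne_zero (mul_ne_zero h45 h40) h05, fun i => ?_, (v 0).2 * br (v 4) (v 5),
    -(v 0).1 * br (v 4) (v 5), (v 5).2 * br (v 4) (v 0), -(v 5).1 * br (v 4) (v 0), ?_, fun i => ?_⟩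
  · unfold cf
    split_ifs with h
    · exact inv_ne_zero (mul_ne_zero h50 h45)
    · exact inv_ne_zero (mul_ne_zero (hv i 5 h) h40)
  · unfold DD
    rw [show br (v 0) (v 5) = (v 0).1 * (v 5).2 - (v 0).2 * (v 5).1 from rfl]
    ring
  · have e1 : (v 0).2 * br (v 4) (v 5) * (v i).1 + -(v 0).1 * br (v 4) (v 5) * (v i).2 =
        br (v i) (v 0) * br (v 4) (v 5) := by
      rw [show br (v i) (v 0) = (v i).1 * (v 0).2 - (v i).2 * (v 0).1 from rfl]; ring
    have e2 : (v 5).2 * br (v 4) (v 0) * (v i).1 + -(v 5).1 * br (v 4) (v 0) * (v i).2 =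
        br (v i) (v 5) * br (v 4) (v 0) := by
      rw [show br (v i) (v 5) = (v i).1 * (v 5).2 - (v i).2 * (v 5).1 from rfl]; ring
    rw [e1, e2]
    have hs : ∀ u, br u u = 0 := fun u => by unfold br; ring
    have h15 := hv 1 5 (by decide)
    have h25 := hv 2 5 (by decide)
    have h35 := hv 3 5 (by decide)
    fin_cases i <;> simp [pt, nrm, cf, cr, hs] <;> field_simp <;> simp

theorem nrm_pt (x : E) : nrm (pt x) = x := by
  funext k
  fin_cases k <;> simp [nrm, cr, br, pt]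

theorem contDiff_br (i j : Fin 6) : ContDiff ℂ ∞ fun x : E => br (pt x i) (pt x j) := by
  have h1 : ∀ i, ContDiff ℂ ∞ fun x : E => (pt x i).1 := fun i => by
    fin_cases i <;> simp [pt] <;> fun_prop
  have h2 : ∀ i, ContDiff ℂ ∞ fun x : E => (pt x i).2 := fun i => by
    fin_cases i <;> simp [pt] <;> fun_prop
  exact ((h1 i).mul (h2 j)).sub ((h2 i).mul (h1 j))

theorem act_eq (σ : Equiv.Perm (Fin 6)) (x : E) : act σ x = nrm (pt x ∘ σ) := rfl

end ActP

open ActP in
theorem pAct : S_Act := by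
  refine ⟨?_, fun σ => ⟨fun x hx => ?_, fun x => DD (pt x ∘ σ), fun x => cf (pt x ∘ σ),
    fun x hx => ⟨rel_nrm (gen_comp hx σ), ?_⟩⟩⟩
  · have : X = ⋂ i, ⋂ j, {x : E | i ≠ j → br (pt x i) (pt x j) ≠ 0} := by
      ext x; simp [X]
    rw [this]
    refine isOpen_iInter_of_finite fun i => isOpen_iInter_of_finite fun j => ?_
    by_cases h : i = j
    · simp [h]
    · simp only [ne_eq, h, not_false_eq_true, forall_const]
      exact isOpen_ne_fun (contDiff_br i j).continuous continuous_const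
  · have hg : Gen (pt x ∘ σ) := gen_comp hx σ
    have hr := rel_nrm hg
    refine ⟨rel_gen hr hg, ?_, ?_⟩
    · conv_rhs => rw [← nrm_pt x]
      funext k
      change cr _ _ _ _ = cr _ _ _ _
      rw [act_eq σ x, rel_cr hr]
      simp
    · rw [contDiffAt_pi]
      intro k
      unfold act cr
      refine ((contDiff_br _ _).contDiffAt.mul (contDiff_br _ _).contDiffAt).div
        ((contDiff_br _ _).contDiffAt.mul (contDiff_br _ _).contDiffAt)
        (mul_ne_zero (hg _ 5 ?_) (hg 4 0 (by decide)))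
      fin_cases k <;> decide
  · have hg : Gen (pt x ∘ σ) := gen_comp hx σ
    refine ContDiffAt.mul (ContDiffAt.pow ?_ 3) (contDiffAt_prod fun i _ => ?_)
    · exact ((contDiff_br _ _).contDiffAt.mul (contDiff_br _ _).contDiffAt).mul
        (contDiff_br _ _).contDiffAt
    · simp only [cf]
      split_ifs with h
      · exact ((contDiff_br _ _).contDiffAt.mul (contDiff_br _ _).contDiffAt).inv
          (mul_ne_zero (hg 5 0 (by decide)) (hg 4 5 (by decide)))
      · exact ((contDiff_br _ _).contDiffAt.mul (contDiff_br _ _).contDiffAt).inv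
          (mul_ne_zero (hg i 5 h) (hg 4 0 (by decide)))

end Pool.Agent.P.MP_5d7cf0_gt
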