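import Pool.Agent.P.MP_5d7cf0_gt.St

/-!
Package Comp: a proper function with bounded gradient gives completeness.
-/

open Set Filter Topology MeasureTheory
open scoped ContDiff ENNReal

namespace Pool.Agent.P.MP_5d7cf0_gt

namespace CompP

/-- Displacement of a function along a short path. -/
theorem path {g : Met} (hg : ContinuousOn g X) {γ : ℝ → E} (h1 : ContDiffOn ℝ 1 γ (Icc 0 1))
    (h2 : MapsTo γ (Icc 0 1) X) {F : Type} [NormedAddCommGroup F] [NormedSpace ℝ F] {φ : E → F}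
    {C ε b : ℝ} (hC : 0 ≤ C) (hε : 0 ≤ ε) (hb : b ∈ Icc (0 : ℝ) 1)
    (hφ : ∀ t ∈ Icc (0 : ℝ) 1, DifferentiableAt ℝ φ (γ t) ∧
      ∀ u, ‖fderiv ℝ φ (γ t) u‖ ≤ C * √(g (γ t) u u))
    (hl : ∫⁻ t in Icc (0 : ℝ) 1, ENNReal.ofReal √(g (γ t) (deriv γ t) (deriv γ t)) <
      ENNReal.ofReal ε) : ‖φ (γ b) - φ (γ 0)‖ ≤ C * ε := by
  set s : ℝ → ℝ := fun t => √(g (γ t) (derivWithin γ (Icc 0 1) t) (derivWithin γ (Icc 0 1) t))
    with hs
  have hd : ContinuousOn (derivWithin γ (Icc 0 1)) (Icc 0 1) :=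
    h1.continuousOn_derivWithin (uniqueDiffOn_Icc zero_lt_one) le_rfl
  have hsc : ContinuousOn s (Icc 0 1) :=
    (((hg.comp h1.continuousOn h2).clm_apply hd).clm_apply hd).sqrt
  have hsi : IntegrableOn s (Icc 0 1) := hsc.integrableOn_Icc
  have hs0 : ∀ t, 0 ≤ s t := fun t => Real.sqrt_nonneg _
  have e1 : ∫⁻ t in Icc (0 : ℝ) 1, ENNReal.ofReal √(g (γ t) (deriv γ t) (deriv γ t)) =
      ENNReal.ofReal (∫ t in Icc (0 : ℝ) 1, s t) := by
    rw [ofReal_integral_eq_lintegral_ofReal hsi (Eventually.of_forall hs0)]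
    apply lintegral_congr_ae
    rw [← restrict_Ioo_eq_restrict_Icc]
    filter_upwards [self_mem_ae_restrict measurableSet_Ioo] with x hx
    simp only [hs]
    rw [derivWithin_of_mem_nhds (Icc_mem_nhds hx.1 hx.2)]
  rw [e1] at hl
  have e2 : ∫ t in Icc (0 : ℝ) 1, s t ≤ ε := (ENNReal.ofReal_le_ofReal_iff hε).1 hl.le
  have hsub : Icc (0 : ℝ) b ⊆ Icc 0 1 := Icc_subset_Icc_right hb.2
  have hI : ∀ t ∈ Ioo (0 : ℝ) b, t ∈ Ioo (0 : ℝ) 1 := fun t ht => ⟨ht.1, ht.2.trans_le hb.2⟩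
  have hγ : ∀ t ∈ Ioo (0 : ℝ) b, DifferentiableAt ℝ γ t := fun t ht =>
    (h1.contDiffAt (Icc_mem_nhds (hI t ht).1 (hI t ht).2)).differentiableAt one_ne_zero
  have e3 := norm_sub_le_integral_of_norm_deriv_le_of_le (f := fun t => φ (γ t))
    (B := fun t => C * s t) hb.1
    (fun t ht => (hφ t (hsub ht)).1.continuousAt.comp_continuousWithinAt
      ((h1.continuousOn.mono hsub) t ht))
    (fun t ht => ((hφ t (Ioo_subset_Icc_self (hI t ht))).1.comp t
      (hγ t ht)).differentiableWithinAt)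
    (Eventually.of_forall fun t ht => by
      have h3 := hφ t (Ioo_subset_Icc_self (hI t ht))
      have h4 := (h3.1.hasFDerivAt.comp_hasDerivAt t (hγ t ht).hasDerivAt).deriv
      simp only [hs]
      rw [derivWithin_of_mem_nhds (Icc_mem_nhds (hI t ht).1 (hI t ht).2)]
      exact h4 ▸ h3.2 _)
    ((continuousOn_const.mul (hsc.mono hsub)).intervalIntegrable_of_Icc hb.1)
  refine e3.trans ?_
  rw [intervalIntegral.integral_const_mul, intervalIntegral.integral_of_le hb.1]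
  refine mul_le_mul_of_nonneg_left (le_trans ?_ e2) hC
  exact setIntegral_mono_set hsi (Eventually.of_forall hs0)
    (Eventually.of_forall (Ioc_subset_Icc_self.trans hsub))

/-- On a compact set the metric dominates the norm. -/
theorem lower {g : Met} (hg : ContinuousOn g X) (hp : ∀ x ∈ X, ∀ u, u ≠ 0 → 0 < g x u u)
    {T : Set E} (hT : IsCompact T) (hX : T ⊆ X) :
    ∃ C, 0 ≤ C ∧ ∀ x ∈ T, ∀ u, ‖u‖ ≤ C * √(g x u u) := by
  have hK : IsCompact (T ×ˢ Metric.sphere (0 : E) 1) := hT.prod (isCompact_sphere _ _)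
  have hc : ContinuousOn (fun p : E × E => √(g p.1 p.2 p.2)) (T ×ˢ Metric.sphere (0 : E) 1) :=
    (((hg.comp continuousOn_fst fun p hp => hX hp.1).clm_apply continuousOn_snd).clm_apply
      continuousOn_snd).sqrt
  obtain ⟨c, hc0, hc1⟩ := hK.exists_forall_le' hc (a := 0) fun p hp' =>
    Real.sqrt_pos.2 (hp p.1 (hX hp'.1) p.2 (by
      intro h
      have := hp'.2
      rw [h] at this
      simp at this))
  refine ⟨c⁻¹, by positivity, fun x hx u => ?_⟩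
  rcases eq_or_ne u 0 with rfl | hu
  · simp
  have hn : 0 < ‖u‖ := norm_pos_iff.2 hu
  have h1 := hc1 (x, ‖u‖⁻¹ • u) ⟨hx, by
    rw [mem_sphere_zero_iff_norm, norm_smul, norm_inv, norm_norm, inv_mul_cancel₀ hn.ne']⟩
  have h2 : g x (‖u‖⁻¹ • u) (‖u‖⁻¹ • u) = ‖u‖⁻¹ ^ 2 * g x u u := by
    simp only [map_smul, smul_apply, smul_eq_mul]
    ring
  simp only [h2] at h1
  rw [Real.sqrt_mul (by positivity), Real.sqrt_sq (by positivity), ← div_eq_inv_mul,
    le_div_iff₀ hn] at h1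
  rw [← div_eq_inv_mul, le_div_iff₀ hc0]
  linarith

theorem exists_path {g : Met} {x y : E} {ε : ℝ≥0∞} (h : rdist g x y < ε) :
    ∃ γ : ℝ → E, ContDiffOn ℝ 1 γ (Icc 0 1) ∧ MapsTo γ (Icc 0 1) X ∧ γ 0 = x ∧ γ 1 = y ∧
      ∫⁻ t in Icc (0 : ℝ) 1, ENNReal.ofReal √(g (γ t) (deriv γ t) (deriv γ t)) < ε := by
  simp only [rdist, iInf_lt_iff] at h
  obtain ⟨γ, h1, h2, h3, h4, h5⟩ := h
  exact ⟨γ, h1, h2, h3, h4, h5⟩

end CompP

open CompP in
theorem pComp : S_Comp := by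
  intro g f B hg hp hf hT u hu hc
  have hg0 : ∀ x ∈ X, ∀ v, 0 ≤ g x v v := fun x hx v => by
    rcases eq_or_ne v 0 with rfl | hv
    · simp
    · exact (hp x hx v hv).le
  have hf' : ∀ x ∈ X, DifferentiableAt ℝ f x ∧ ∀ v, ‖fderiv ℝ f x v‖ ≤ √|B| * √(g x v v) :=
    fun x hx => ⟨(hf x hx).1, fun v => by
      rw [← Real.sqrt_mul (abs_nonneg B)]
      exact Real.abs_le_sqrt (((hf x hx).2 v).trans
        (mul_le_mul_of_nonneg_right (le_abs_self B) (hg0 x hx v)))⟩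
  have step : ∀ γ : ℝ → E, ContDiffOn ℝ 1 γ (Icc 0 1) → MapsTo γ (Icc 0 1) X →
      ∫⁻ t in Icc (0 : ℝ) 1, ENNReal.ofReal √(g (γ t) (deriv γ t) (deriv γ t)) <
        ENNReal.ofReal 1 → ∀ b ∈ Icc (0 : ℝ) 1, f (γ b) ≤ f (γ 0) + √|B| := by
    intro γ h1 h2 h3 b hb
    have := path hg h1 h2 (Real.sqrt_nonneg |B|) zero_le_one hb (fun t ht => hf' _ (h2 ht)) h3
    rw [mul_one, Real.norm_eq_abs] at this
    linarith [le_abs_self (f (γ b) - f (γ 0))]
  obtain ⟨N₀, hN₀⟩ := hc (ENNReal.ofReal 1) (by simp)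
  have hR : ∀ n ≥ N₀, f (u n) ≤ f (u N₀) + √|B| := fun n hn => by
    obtain ⟨γ, h1, h2, h3, h4, h5⟩ := exists_path (hN₀ N₀ le_rfl n hn)
    have := step γ h1 h2 h5 1 ⟨zero_le_one, le_rfl⟩
    rwa [h3, h4] at this
  obtain ⟨T, hT1, hT2, hT3⟩ := hT (f (u N₀) + √|B| + √|B|)
  obtain ⟨C, hC, hC'⟩ := lower hg hp hT1 hT2
  have hcs : CauchySeq u := by
    rw [Metric.cauchySeq_iff']
    intro ε hε
    set δ := min 1 (ε / (C + 1)) with hδ
    have hδ0 : 0 < δ := by positivity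
    obtain ⟨N, hN⟩ := hc (ENNReal.ofReal δ) (by simpa using hδ0)
    refine ⟨max N N₀, fun n hn => ?_⟩
    obtain ⟨γ, h1, h2, h3, h4, h5⟩ :=
      exists_path (hN (max N N₀) (le_max_left _ _) n ((le_max_left _ _).trans hn))
    have h6 := step γ h1 h2 (h5.trans_le (ENNReal.ofReal_le_ofReal (min_le_left _ _)))
    have h7 := hR _ (le_max_right N N₀)
    have h8 := path hg h1 h2 (φ := fun x => x) hC hδ0.le ⟨zero_le_one, le_rfl⟩ (fun t ht =>
      ⟨differentiableAt_id, fun v => by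
        simpa using hC' _ (hT3 _ (h2 ht) (by have := h6 t ht; rw [h3] at this; linarith)) v⟩) h5
    rw [h3, h4] at h8
    rw [dist_eq_norm]
    have h9 : δ ≤ ε / (C + 1) := min_le_right _ _
    rw [le_div_iff₀ (by positivity)] at h9
    nlinarith
  obtain ⟨x, hx⟩ := cauchySeq_tendsto_of_complete hcs
  refine ⟨x, hT2 (hT1.isClosed.mem_of_tendsto hx ?_), hx⟩
  filter_upwards [eventually_ge_atTop N₀] with n hn
  exact hT3 _ (hu n) (by linarith [hR n hn, Real.sqrt_nonneg |B|])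

end Pool.Agent.P.MP_5d7cf0_gt
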