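import Pool.Agent.P.MP_5d7cf0_gt.Geo

/-!
Definitions for the Deligne-Mostow periods with weights `1/3`.
-/

open Set Filter Topology MeasureTheory ComplexConjugate
open scoped ContDiff ENNReal

noncomputable section

namespace Pool.Agent.P.MP_5d7cf0_gt

abbrev V6 : Type := Fin 6 → ℂ × ℂ

def Gen (v : V6) : Prop := ∀ i j, i ≠ j → br (v i) (v j) ≠ 0

/-- `v'` comes from `v` by a linear map of determinant `D` and scalars `c i` -/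
def Rel (v v' : V6) (D : ℂ) (c : Fin 6 → ℂ) : Prop :=
  D ≠ 0 ∧ (∀ i, c i ≠ 0) ∧ ∃ α β γ δ : ℂ, α * δ - β * γ = D ∧
    ∀ i, v' i = (c i * (α * (v i).1 + β * (v i).2), c i * (γ * (v i).1 + δ * (v i).2))

/-- the factor of automorphy -/
def nf (D : ℂ) (c : Fin 6 → ℂ) : ℝ := ‖D ^ 3 * ∏ i, c i‖ ^ (-(2 / 3) : ℝ)

def Vi (v : V6) (z : ℂ) : ℝ := ∏ i, ‖br (z, 1) (v i)‖ ^ (-(2 / 3) : ℝ)

def Vh (v : V6) : ℝ := 2 * √3 * ∫ z : ℂ, Vi v z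

/-- the principal branch of `z ^ (-1/3)` -/
def cp (z : ℂ) : ℂ := z ^ (-(1 / 3) : ℂ)

/-- the period along a ray -/
def PiS (s : Finset (Fin 6)) (γ : Fin 6 → ℂ) : ℂ :=
  ∫ t in Ioi (0 : ℝ), cp t * ∏ k ∈ s, cp (1 + t * γ k)

def bet (v : V6) (i j k : Fin 6) : ℂ := br (v j) (v k) / br (v i) (v k)

/-- the squared period for the pair `i, j` computed with the direction `κ` -/
def rK (v : V6) (i j : Fin 6) (κ : ℂ) : ℝ :=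
  3 * ‖br (v i) (v j)‖ ^ (2 / 3 : ℝ) * ‖κ‖ ^ (4 / 3 : ℝ) *
    (∏ k ∈ ({i, j} : Finset (Fin 6))ᶜ, ‖br (v i) (v k)‖ ^ (-(2 / 3) : ℝ)) *
    ‖PiS ({i, j} : Finset (Fin 6))ᶜ fun k => κ * bet v i j k‖ ^ 2

def rP (v : V6) (i j : Fin 6) : ℝ := rK v i j (4 / ∑ k ∈ ({i, j} : Finset (Fin 6))ᶜ, bet v i j k)

/-- the period along a circle -/
def Lp (S : Finset (Fin 6)) (α β : Fin 6 → ℂ) (ρ : ℝ) : ℂ :=
  ∮ w in C(0, ρ), w⁻¹ * (∏ k ∈ S, cp (1 + α k / w)) * ∏ l ∈ Sᶜ, cp (1 + β l * w)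

/-- the squared period for the triple `S` computed with `p ∈ S`, `q ∉ S` and the radius `ρ` -/
def rR (v : V6) (S : Finset (Fin 6)) (p q : Fin 6) (ρ : ℝ) : ℝ :=
  ‖br (v p) (v q)‖ ^ 2 * (∏ k ∈ S, ‖br (v q) (v k)‖ ^ (-(2 / 3) : ℝ)) *
    (∏ l ∈ Sᶜ, ‖br (v p) (v l)‖ ^ (-(2 / 3) : ℝ)) * ‖Lp S (bet v q p) (bet v p q) ρ‖ ^ 2

def rT (v : V6) (S : Finset (Fin 6)) (p q : Fin 6) : ℝ :=
  rR v S p q √((∑ k ∈ S, ‖bet v q p k‖) / ∑ l ∈ Sᶜ, ‖bet v p q l‖)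

/-- the sum of the cross ratios that measure how close the points of `S` are -/
def cc (S : Finset (Fin 6)) (v : V6) : ℝ :=
  ∑ a ∈ S, ∑ b ∈ S, ∑ c ∈ Sᶜ, ∑ d ∈ Sᶜ,
    ‖br (v a) (v b) * br (v c) (v d) / (br (v a) (v c) * br (v b) (v d))‖

def del : ℝ := 1 / 10000

def lo (S : Finset (Fin 6)) : Fin 6 := if h : S.Nonempty then S.min' h else 0

def xi (S : Finset (Fin 6)) (v : V6) : ℝ :=
  if S.card = 2 ∧ cc S v < del then rP v (lo S) (lo (S.erase (lo S))) / Vh v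
  else if S.card = 3 ∧ cc S v < del then rT v S (lo S) (lo Sᶜ) / Vh v else 1

/-- five finite points and `∞` -/
def vs (l : Fin 5 → ℂ) : V6 := ![(l 0, 1), (l 1, 1), (l 2, 1), (l 3, 1), (l 4, 1), (1, 0)]

/-- increasing real parts -/
def O : Set (Fin 5 → ℂ) := {l | StrictMono fun k => (l k).re}

/-- the branch of the integrand in the strip with `m` points on the left -/
def fm (l : Fin 5 → ℂ) (m : ℕ) (z : ℂ) : ℂ :=
  ∏ k : Fin 5, cp (if (k : ℕ) < m then z - l k else l k - z)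

/-- the closed strip -/
def Cs (l : Fin 5 → ℂ) (m : ℕ) : Set ℂ :=
  {z | ∀ k : Fin 5, if (k : ℕ) < m then (l k).re ≤ z.re else z.re ≤ (l k).re}

/-- the open strip -/
def Os (l : Fin 5 → ℂ) (m : ℕ) : Set ℂ :=
  {z | ∀ k : Fin 5, if (k : ℕ) < m then (l k).re < z.re else z.re < (l k).re}

def mid (l : Fin 5 → ℂ) : Fin 6 → ℂ :=
  ![l 0 - 1, (l 0 + l 1) / 2, (l 1 + l 2) / 2, (l 2 + l 3) / 2, (l 3 + l 4) / 2, l 4 + 1]

/-- the periods along vertical lines -/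
def LL (l : Fin 5 → ℂ) (m : Fin 6) : ℂ := ∫ y : ℝ, fm l m (mid l m + y * Complex.I)

def Up (l : Fin 5 → ℂ) (m : ℕ) (z : ℂ) : ℂ := ∫ s in Ioi (0 : ℝ), fm l m (z + s * Complex.I)

def Dn (l : Fin 5 → ℂ) (m : ℕ) (z : ℂ) : ℂ := ∫ s in Ioi (0 : ℝ), fm l m (z - s * Complex.I)

/-- `exp (π i / 3)` -/
def ζ : ℂ := ⟨1 / 2, √3 / 2⟩

def YY (l : Fin 5 → ℂ) : C4 := ![LL l 2 + LL l 4, LL l 2 - LL l 1, LL l 2 - LL l 3 + LL l 4, LL l 4]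

/-- the six roots: the sides of the hexagon -/
def rs : Fin 6 → C4 :=
  ![![0, 1, 0, 0], ![-1, -1, -1, 0], ![0, 0, 1, 0], ![-1, 0, -1, -1], ![0, 0, 0, 1],
    ![-1, -1, 0, -1]]

end Pool.Agent.P.MP_5d7cf0_gt
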