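import Pool.Agent.P.MP_5d7cf0_gt.DataA

/-!
Package Data: the Deligne-Mostow data.
-/

open Set Filter Topology MeasureTheory ComplexConjugate
open scoped ContDiff ENNReal

noncomputable section

namespace Pool.Agent.P.MP_5d7cf0_gt.DataP

theorem sp_card (i : Option (Fin 3)) : (sp i).card = 2 ∨ (sp i).card = 3 := by
  revert i; decide

theorem sp_disj : ∀ i j : Fin 3, i ≠ j → Disjoint (sp (some i)) (sp (some j)) := by decide

theorem xi_one {S : Finset (Fin 6)} {v : V6} (h : ¬ cc S v < del) : xi S v = 1 := by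
  simp [xi, h]

theorem cc_small (hA : S_TabA) {x : E} (hx : x ∈ FF) {i : Option (Fin 3)}
    (h : wt i x < 1 / 10 ^ 9) : cc (sp i) (pt x) < del := by
  have := (hA x hx).2 i (by linarith)
  unfold del
  linarith

/-- the bound for the Wronskian -/
theorem wr_bound {C0 a t d P m : ℝ} (ha : 0 ≤ a) (ha' : a ≤ 11) (ht : 1 ≤ t) (ht' : t ≤ 11)
    (hd : 0 ≤ d) (hP : (m / 5 ^ 5) ^ 2 ≤ P) (hC : d ^ 3 * P = C0 * t ^ 3)
    (hC0 : 0 < C0) : (a ^ 4 * t ^ 3 * d) ^ 6 * m ^ 4 ≤ 11 ^ 48 * 5 ^ 20 * C0 ^ 2 := by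
  have h1 : d ^ 3 * (m / 5 ^ 5) ^ 2 ≤ C0 * 11 ^ 3 := by
    calc d ^ 3 * (m / 5 ^ 5) ^ 2 ≤ d ^ 3 * P := by gcongr
      _ = C0 * t ^ 3 := hC
      _ ≤ C0 * 11 ^ 3 := by gcongr
  have h2 : (d ^ 3 * (m / 5 ^ 5) ^ 2) ^ 2 ≤ (C0 * 11 ^ 3) ^ 2 := by gcongr
  have t0 : 0 ≤ t := by linarith
  calc (a ^ 4 * t ^ 3 * d) ^ 6 * m ^ 4
      = a ^ 24 * t ^ 18 * 5 ^ 20 * (d ^ 3 * (m / 5 ^ 5) ^ 2) ^ 2 := by ring
    _ ≤ 11 ^ 24 * 11 ^ 18 * 5 ^ 20 * (C0 * 11 ^ 3) ^ 2 := by gcongr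
    _ = _ := by ring

theorem rep (hNF : S_NF) (hMob : S_Mob) (hXi : S_Xi) (hP : S_IdP) (hT : S_IdT)
    (hA : S_TabA) (hS : S_Sort) (hStrip : S_Strip) (hHol : S_Hol) (hKZ : S_KZ) :
    ∃ C : ℝ, 0 < C ∧ ∀ x0 ∈ FF, ∃ (Z : E → C4) (ρ : Option (Fin 3) → C4), ContDiffAt ℂ ∞ Z x0 ∧
    (∀ᶠ x in 𝓝 x0, Vh (pt x) = -(hL (Z x) (Z x)).re) ∧
    (∀ i, wt i x0 < 1 / 10 ^ 9 →
      ∀ᶠ x in 𝓝 x0, xi (sp i) (pt x) * Vh (pt x) = ‖hL (Z x) (ρ i)‖ ^ 2) ∧
    (∀ i j, i ≠ j → wt i x0 < 1 / 10 ^ 9 → wt j x0 < 1 / 10 ^ 9 → hL (ρ i) (ρ j) = 0) ∧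
    (∀ i, hL (ρ (some i)) (ρ (some i)) = 1) ∧ hL (ρ none) (ρ none) = 0 ∧
    ∀ W, W = (Matrix.of ![Z x0, fderiv ℂ Z x0 (Pi.single 0 1), fderiv ℂ Z x0 (Pi.single 1 1),
      fderiv ℂ Z x0 (Pi.single 2 1)]).det → W ≠ 0 ∧
      ‖W‖ ^ 6 * (‖x0 0‖ ^ 4 * ‖x0 1‖ ^ 8 * ‖x0 2‖ ^ 12 * wt (some 1) x0 ^ 4) ≤ C := by
  obtain ⟨C0, hC0, hKZ⟩ := hKZ
  obtain ⟨hO, P, hYY, -⟩ := hHol
  refine ⟨11 ^ 48 * 5 ^ 20 * C0 ^ 2, by positivity, fun x0 hx0 => ?_⟩
  obtain ⟨θ, π, τ, k, hθ1, hθ2, hl0, h5, hτ, hsome, hnone⟩ := hS x0 hx0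
  have hθp : 0 < ‖θ‖ := by linarith
  have hθ : θ ≠ 0 := norm_pos_iff.mp hθp
  set l : E → Fin 5 → ℂ := fun x n => θ * fp x (π n) with hl
  set a : ℝ := ‖θ‖ ^ (2 / 3 : ℝ) with ha
  have ap : 0 < a := Real.rpow_pos_of_pos hθp _
  have a11 : a ≤ 11 := by
    have : a ≤ ‖θ‖ ^ (1 : ℝ) := Real.rpow_le_rpow_of_exponent_le hθ1 (by norm_num)
    rw [Real.rpow_one] at this
    linarith
  have lc : Continuous l := (l_contDiff θ π).continuous
  have evO : ∀ᶠ x in 𝓝 x0, l x ∈ O := lc.continuousAt.eventually (hO.mem_nhds hl0)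
  have evF : ∀ᶠ x in 𝓝 x0, x ∈ FF := hNF.1.mem_nhds hx0
  have hV : ∀ x, Vh (pt x) = a ^ 2 * Vh (vs (l x)) := by
    intro x
    rw [hMob.1 _ _ _ _ (rel_vs x θ hθ π τ h5 hτ), hMob.2, nf_cs θ hθ, ← ha]
    field_simp
  have hcx : ∀ x ∈ FF, ∀ S : Finset (Fin 6), cc S (vs (l x)) = cc (S.map τ.toEmbedding) (pt x) ∧
      xi S (vs (l x)) = xi (S.map τ.toEmbedding) (pt x) := by
    intro x hx S
    have g : Gen (pt x) := hx.1
    obtain ⟨-, e1, e2⟩ := (hXi _ (gen_comp g τ) S).1 _ _ _ (rel_vs x θ hθ π τ h5 hτ)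
    obtain ⟨e3, e4⟩ := (hXi _ g S).2.1 τ
    exact ⟨e1.trans e3, e2.trans e4⟩
  have hYc : ContDiffAt ℂ ∞ YY (l x0) := hYY.contDiffAt (hO.mem_nhds hl0)
  have nsm : ∀ (y r : C4), ‖hL ((a : ℂ) • y) r‖ ^ 2 = a ^ 2 * ‖hL y r‖ ^ 2 := by
    intro y r
    rw [hL_smul_left, norm_mul, Complex.norm_real, Real.norm_of_nonneg ap.le, mul_pow]
  have s8 : ∀ {w : ℝ}, w < 1 / 10 ^ 9 → w < 1 / 10 ^ 8 := fun h => by linarith
  refine ⟨fun x => (a : ℂ) • YY (l x), fun i => match i with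
    | none => rs (k none) + rs (k none + 1)
    | some j => rs (k (some j)), ?_, ?_, ?_, ?_, ?_, ?_, ?_⟩
  · exact (hYc.comp x0 (l_contDiff θ π).contDiffAt).const_smul _
  · filter_upwards [evO] with x hx
    rw [hV, hStrip _ hx, hL_smul_left, hL_smul_right, Complex.conj_ofReal]
    simp only [Complex.re_ofReal_mul]
    ring
  · intro i hi
    have evw : ∀ᶠ x in 𝓝 x0, wt i x < 1 / 10 ^ 9 :=
      (wt_cont hx0.1 i).eventually (gt_mem_nhds hi)
    rcases i with _ | i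
    · obtain ⟨hk, hsp, hre⟩ := hnone (s8 hi)
      obtain ⟨-, n1, -⟩ := X_ne hx0.1
      have p1 : 0 < ‖x0 1‖ := norm_pos_iff.mpr n1
      have hmem : ∀ n : Fin 5, n.castSucc ∈ ({k none, k none + 1, k none + 2} : Finset (Fin 6)) ↔
          (π n).castSucc ∈ sp none := by
        intro n
        rw [hsp, ← hτ]
        exact (Finset.mem_map' τ.toEmbedding).symm
      have lp : ∀ x, l x (π⁻¹ 0) = 0 := by
        intro x
        simp [hl, fp]
      have evc : ∀ᶠ x in 𝓝 x0, ∀ n : Fin 5,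
          if n.castSucc ∈ ({k none, k none + 1, k none + 2} : Finset (Fin 6)) then
            ‖l x n - l x (π⁻¹ 0)‖ < 25 * ‖x0 1‖
          else 25 * ‖x0 1‖ < |(l x n - l x (π⁻¹ 0)).re| := by
        rw [eventually_all]
        intro n
        have cn : Continuous fun x => l x n := (continuous_apply n).comp lc
        simp only [lp, sub_zero]
        split_ifs with h
        · refine cn.norm.continuousAt.eventually (gt_mem_nhds ?_)
          have h' := (hmem n).1 h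
          have b : ‖fp x0 (π n)‖ ≤ 2 * ‖x0 1‖ := by
            generalize π n = m at h'
            have h01 := hx0.2.1
            fin_cases m
            · simp [fp]
            · exact h01.le
            · show ‖x0 1‖ ≤ _
              linarith
            · exact absurd h' (by decide)
            · exact absurd h' (by decide)
          show ‖θ * fp x0 (π n)‖ < _
          rw [norm_mul]
          nlinarith [norm_nonneg (fp x0 (π n))]
        · refine (Complex.continuous_re.comp cn).abs.continuousAt.eventually (lt_mem_nhds ?_)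
          have h' : ¬ (π n).castSucc ∈ sp none := fun h' => h ((hmem n).2 h')
          have b : 3 ≤ ((π n : Fin 5) : ℕ) := by
            generalize π n = m at h'
            revert m
            decide
          have := hre _ b
          show _ < |(θ * fp x0 (π n)).re|
          linarith
      filter_upwards [evO, evF, evw, evc] with x h1 h2 h3 h4
      have e := hcx x h2 {k none, k none + 1, k none + 2}
      rw [← hsp] at e
      have hc : cc {k none, k none + 1, k none + 2} (vs (l x)) < del := by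
        rw [e.1]; exact cc_small hA h2 h3
      have := hT _ h1 (k none) (π⁻¹ 0) (25 * ‖x0 1‖) hk (by positivity) hc
        ((hmem _).2 (by simp [sp])) h4
      show _ = ‖hL ((a : ℂ) • YY (l x)) (rs (k none) + rs (k none + 1))‖ ^ 2
      rw [nsm, ← this, e.2, hV]
      ring
    · have hsp := hsome i (s8 hi)
      filter_upwards [evO, evF, evw] with x h1 h2 h3
      have e := hcx x h2 {k (some i), k (some i) + 1}
      rw [← hsp] at e
      have hc : cc {k (some i), k (some i) + 1} (vs (l x)) < del := by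
        rw [e.1]; exact cc_small hA h2 h3
      have := hP _ h1 (k (some i)) hc
      show _ = ‖hL ((a : ℂ) • YY (l x)) (rs (k (some i)))‖ ^ 2
      rw [nsm, ← this, e.2, hV]
      ring
  · have tp : ∀ j : Fin 3, wt none x0 < 1 / 10 ^ 9 → wt (some j) x0 < 1 / 10 ^ 9 →
        gr (k none) (k (some j)) + gr (k none + 1) (k (some j)) = 0 ∧
          gr (k (some j)) (k none) + gr (k (some j)) (k none + 1) = 0 := by
      intro j h1 h2
      obtain ⟨-, hsp, -⟩ := hnone (s8 h1)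
      have hsq := hsome j (s8 h2)
      apply gr_tp
      rw [← Finset.map_subset_map (f := τ.toEmbedding), ← Finset.disjoint_map τ.toEmbedding,
        ← hsp, ← hsq]
      fin_cases j
      · left; decide
      · exfalso
        have e1 : ‖x0 1 / x0 2‖ < 1 / 10 ^ 9 := h1
        have e2 : ‖1 - x0 1 / x0 2‖ < 1 / 10 ^ 9 := h2
        have := norm_add_le (x0 1 / x0 2) (1 - x0 1 / x0 2)
        rw [add_sub_cancel, norm_one] at this
        linarith
      · right; decide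
    intro i j hij hi hj
    rcases i with _ | i <;> rcases j with _ | j
    · exact absurd rfl hij
    · show hL (rs _ + rs _) (rs _) = 0
      rw [hL_add_left, hL_rs, hL_rs]
      exact_mod_cast (tp j hi hj).1
    · show hL (rs _) (rs _ + rs _) = 0
      rw [hL_add_right, hL_rs, hL_rs]
      exact_mod_cast (tp i hj hi).2
    · show hL (rs _) (rs _) = 0
      rw [hL_rs, gr_pp]
      · simp
      · rw [← Finset.disjoint_map τ.toEmbedding, ← hsome i (s8 hi), ← hsome j (s8 hj)]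
        exact sp_disj i j fun h => hij (by rw [h])
  · intro i
    show hL (rs _) (rs _) = 1
    rw [hL_rs, gr_self]
    simp
  · show hL (rs _ + rs _) (rs _ + rs _) = 0
    rw [hL_add_left, hL_add_right, hL_add_right, hL_rs, hL_rs, hL_rs, hL_rs]
    exact_mod_cast gr_null (k none)
  · intro W hW
    have hd : HasFDerivAt (fun x => (a : ℂ) • YY (l x))
        ((a : ℂ) • (fderiv ℂ YY (l x0)).comp (fl θ π)) x0 :=
      (((hYc.differentiableAt (by simp)).hasFDerivAt).comp x0 (l_hasFDeriv θ π x0)).const_smul (a : ℂ)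
    rw [hd.fderiv] at hW
    simp only [smul_apply, ContinuousLinearMap.comp_apply, fl_single, map_smul] at hW
    rw [det_smul] at hW
    have K := hKZ (l x0) hl0 π⁻¹
    have e0 : l x0 (π⁻¹ 0) - l x0 (π⁻¹ 4) = -θ := by simp [hl, fp]
    rw [e0, norm_neg] at K
    set d := (Matrix.of ![YY (l x0), fderiv ℂ YY (l x0) (Pi.single (π⁻¹ 1) 1),
      fderiv ℂ YY (l x0) (Pi.single (π⁻¹ 2) 1), fderiv ℂ YY (l x0) (Pi.single (π⁻¹ 3) 1)]).det
      with hdd
    have hW' : W = (a : ℂ) ^ 4 * θ ^ 3 * d := hW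
    have d0 : d ≠ 0 := by
      intro h
      rw [h, norm_zero] at K
      have : 0 < C0 * ‖θ‖ ^ 3 := by positivity
      simp at K
      rcases K with K | K
      · exact hC0.ne' K
      · exact hθ K
    have an : (a : ℂ) ≠ 0 := by exact_mod_cast ap.ne'
    refine ⟨by rw [hW']; positivity, ?_⟩
    have w0 := wt_nonneg x0 (some 1)
    have B := wr_bound ap.le a11 hθ1 hθ2 (norm_nonneg d)
      (disc_lower hx0 θ hθ1 π) K hC0
    rw [hW', norm_mul, norm_mul, norm_pow, norm_pow, Complex.norm_real, Real.norm_of_nonneg ap.le]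
    refine le_trans (le_of_eq ?_) B
    ring

end Pool.Agent.P.MP_5d7cf0_gt.DataP

namespace Pool.Agent.P.MP_5d7cf0_gt

open DataP

theorem pData (hAct : S_Act) (hNF : S_NF) (hMob : S_Mob) (hVint : S_Vint) (hVF : S_VF)
    (hXi : S_Xi) (hP : S_IdP) (hT : S_IdT) (hA : S_TabA) (hB : S_TabB) (hS : S_Sort)
    (hStrip : S_Strip) (hHol : S_Hol) (hKZ : S_KZ) : S_Data := by
  obtain ⟨C1, hC1, hrep⟩ := rep hNF hMob hXi hP hT hA hS hStrip hHol hKZ
  obtain ⟨C2, hC2, hB⟩ := hB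
  obtain ⟨⟨C3, hC3⟩, hv2⟩ := hVF
  have l1 : C1 ≤ max C1 (max C2 C3) := le_max_left _ _
  have l2 : C2 ≤ max C1 (max C2 C3) := (le_max_left _ _).trans (le_max_right _ _)
  have l3 : C3 ≤ max C1 (max C2 C3) := (le_max_right _ _).trans (le_max_right _ _)
  have pV : ∀ x ∈ X, 0 < Vh (pt x) := fun x hx => (hVint _ hx).2
  have pξ : ∀ S, ∀ x ∈ X, 0 < xi S (pt x) := fun S x hx => (hXi _ hx S).2.2.2.1
  refine ⟨max C1 (max C2 C3), 1 / 10 ^ 9, by linarith, by norm_num, pV, pξ, ?_, ?_, ?_, ?_, ?_,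
    ?_, hv2, ?_⟩
  · intro σ S x hx
    obtain ⟨D, c, h⟩ := (hAct.2 σ).2
    have g : Gen (pt x) := hx
    exact ((hXi _ (gen_comp g σ) S).1 _ _ _ (h x hx).1).2.2.trans ((hXi _ g S).2.1 σ).2
  · intro σ
    obtain ⟨D, c, h⟩ := (hAct.2 σ).2
    refine ⟨fun y => D y ^ 3 * ∏ i, c y i, fun x hx => ?_⟩
    obtain ⟨hr, hs⟩ := h x hx
    have n0 : D x ^ 3 * ∏ i, c x i ≠ 0 :=
      mul_ne_zero (pow_ne_zero _ hr.1) (Finset.prod_ne_zero_iff.mpr fun i _ => hr.2.1 i)
    have n1 : 0 < ‖D x ^ 3 * ∏ i, c x i‖ := norm_pos_iff.mpr n0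
    refine ⟨hs, n0, ?_⟩
    rw [hMob.1 _ _ _ _ hr, hMob.2, nf, Real.log_mul (Real.rpow_pos_of_pos n1 _).ne' (pV x hx).ne',
      Real.log_rpow n1]
    ring
  · intro x hx
    have := (hXi _ hx {0, 1, 2}).2.2.1 (by decide)
    rwa [show ({0, 1, 2} : Finset (Fin 6))ᶜ = {3, 4, 5} by decide] at this
  · intro x hx S h1 h2
    by_cases hc : S.card = 2 ∨ S.card = 3
    · exact xi_one (not_lt.mpr ((hA x hx).1 S hc h1 h2))
    · push Not at hc
      simp [xi, hc.1, hc.2]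
  · intro x hx i
    by_cases hc : cc (sp i) (pt x) < del
    · right
      obtain ⟨b1, b2⟩ := hB x hx i hc
      have p1 := pV x hx.1
      have p2 := pξ (sp i) x hx.1
      have w0 := wt_nonneg x i
      exact ⟨b1.trans (by gcongr), b2.trans (by gcongr)⟩
    · left
      exact ⟨not_lt.mp fun h => hc (cc_small hA hx h), xi_one hc⟩
  · intro x hx
    have p1 := pV x hx.1
    exact (hC3 x hx).trans (by gcongr)
  · intro x0 hx0
    obtain ⟨Z, ρ, h1, h2, h3, h4, h5, h6, h7⟩ := hrep x0 hx0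
    exact ⟨Z, ρ, h1, h2, h3, h4, h5, h6, fun W hW => ⟨(h7 W hW).1, (h7 W hW).2.trans l1⟩⟩

end Pool.Agent.P.MP_5d7cf0_gt
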