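import Pool.Agent.P.MP_5d7cf0_gt.St

/-!
Package Data, part A: linear algebra and elementary facts.
-/

open Set Filter Topology MeasureTheory ComplexConjugate
open scoped ContDiff ENNReal

noncomputable section

namespace Pool.Agent.P.MP_5d7cf0_gt.DataP

/-- the Gram matrix of the six roots -/
def gr (a b : Fin 6) : ℤ := if a = b then 1 else if b = a + 1 ∨ a = b + 1 then -1 else 0

theorem hL_rs (a b : Fin 6) : hL (rs a) (rs b) = (gr a b : ℂ) := by
  fin_cases a <;> fin_cases b <;> simp [hL, rs, gr]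

theorem hL_add_left (a b c : C4) : hL (a + b) c = hL a c + hL b c := by
  simp only [hL, Pi.add_apply]; ring

theorem hL_add_right (a b c : C4) : hL a (b + c) = hL a b + hL a c := by
  simp only [hL, Pi.add_apply, map_add]; ring

theorem hL_smul_left (t : ℂ) (a b : C4) : hL (t • a) b = t * hL a b := by
  simp only [hL, Pi.smul_apply, smul_eq_mul]; ring

theorem hL_smul_right (t : ℂ) (a b : C4) : hL a (t • b) = conj t * hL a b := by
  simp only [hL, Pi.smul_apply, smul_eq_mul, map_mul]; ring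

theorem gr_self : ∀ a, gr a a = 1 := by decide

theorem gr_null : ∀ a, gr a a + gr a (a + 1) + (gr (a + 1) a + gr (a + 1) (a + 1)) = 0 := by decide

theorem gr_pp : ∀ a b : Fin 6, Disjoint ({a, a + 1} : Finset (Fin 6)) {b, b + 1} → gr a b = 0 := by
  decide

theorem gr_tp : ∀ a b : Fin 6, (({b, b + 1} : Finset (Fin 6)) ⊆ {a, a + 1, a + 2} ∨
    Disjoint ({b, b + 1} : Finset (Fin 6)) {a, a + 1, a + 2}) →
    gr a b + gr (a + 1) b = 0 ∧ gr b a + gr b (a + 1) = 0 := by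
  decide

theorem pt_cast (x : E) (n : Fin 5) : pt x n.castSucc = (fp x n, 1) := by
  fin_cases n <;> rfl

theorem vs_cast (l : Fin 5 → ℂ) (n : Fin 5) : vs l n.castSucc = (l n, 1) := by
  fin_cases n <;> rfl

/-- the scalars -/
def cs (θ : ℂ) : Fin 6 → ℂ := fun i => if i = 5 then θ⁻¹ else 1

theorem rel_vs (x : E) (θ : ℂ) (hθ : θ ≠ 0) (π : Equiv.Perm (Fin 5)) (τ : Equiv.Perm (Fin 6))
    (h5 : τ 5 = 5) (hτ : ∀ n, τ n.castSucc = (π n).castSucc) :
    Rel (pt x ∘ τ) (vs fun n => θ * fp x (π n)) θ (cs θ) := by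
  refine ⟨hθ, ?_, θ, 0, 0, 1, by simp, ?_⟩
  · intro i
    unfold cs
    split_ifs
    · exact inv_ne_zero hθ
    · exact one_ne_zero
  · intro i
    refine Fin.lastCases ?_ (fun n => ?_) i
    · have e : (Fin.last 5 : Fin 6) = 5 := rfl
      rw [e]
      simp only [Function.comp, h5]
      simp [vs, pt, cs, hθ]
    · have hn : (n.castSucc : Fin 6) ≠ 5 := (Fin.castSucc_lt_last n).ne
      simp only [Function.comp, hτ, pt_cast, vs_cast, cs, if_neg hn]
      simp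

theorem nf_cs (θ : ℂ) (hθ : θ ≠ 0) : nf θ (cs θ) = (‖θ‖ ^ (2 / 3 : ℝ))⁻¹ ^ 2 := by
  have h0 : 0 < ‖θ‖ := norm_pos_iff.mpr hθ
  have e : θ ^ 3 * ∏ i, cs θ i = θ ^ 2 := by
    simp [cs, Fin.prod_univ_six]
    field_simp
  unfold nf
  rw [e, norm_pow, ← Real.rpow_natCast, ← Real.rpow_mul h0.le, ← Real.rpow_neg h0.le,
    ← Real.rpow_natCast, ← Real.rpow_mul h0.le]
  norm_num

theorem gen_comp {v : V6} (h : Gen v) (σ : Equiv.Perm (Fin 6)) : Gen (v ∘ σ) :=
  fun i j hij => h _ _ (σ.injective.ne hij)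

theorem X_ne {x : E} (hx : x ∈ X) : x 0 ≠ 0 ∧ x 1 ≠ 0 ∧ x 2 ≠ 0 := by
  have h1 := hx 1 0 (by decide)
  have h2 := hx 2 0 (by decide)
  have h3 := hx 3 0 (by decide)
  simp [br, pt] at h1 h2 h3
  exact ⟨h1, h2, h3⟩

theorem wt_cont {x : E} (hx : x ∈ X) (i : Option (Fin 3)) : ContinuousAt (wt i) x := by
  obtain ⟨_, h1, h2⟩ := X_ne hx
  rcases i with _ | i
  · exact (((continuous_apply 1).continuousAt).div (continuous_apply 2).continuousAt h2).norm
  · fin_cases i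
    · exact (((continuous_apply 0).continuousAt).div (continuous_apply 1).continuousAt h1).norm
    · exact (continuousAt_const.sub
        (((continuous_apply 1).continuousAt).div (continuous_apply 2).continuousAt h2)).norm
    · exact (continuous_apply 2).continuousAt.norm

theorem wt_nonneg (x : E) (i : Option (Fin 3)) : 0 ≤ wt i x := by
  rcases i with _ | i
  · exact norm_nonneg _
  · fin_cases i <;> exact norm_nonneg _

/-- the linear part of `fp` -/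
def fl (θ : ℂ) (π : Equiv.Perm (Fin 5)) : E →L[ℂ] (Fin 5 → ℂ) :=
  ContinuousLinearMap.pi fun n => θ • (![0, ContinuousLinearMap.proj 0,
    ContinuousLinearMap.proj 1, ContinuousLinearMap.proj 2, 0] : Fin 5 → E →L[ℂ] ℂ) (π n)

theorem fl_eq (θ : ℂ) (π : Equiv.Perm (Fin 5)) (x : E) :
    (fun n => θ * fp x (π n)) = fl θ π x + fun n => θ * fp 0 (π n) := by
  funext n
  simp only [fl, Pi.add_apply, ContinuousLinearMap.pi_apply, smul_apply,
    smul_eq_mul]
  generalize π n = m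
  fin_cases m <;> simp [fp]

theorem fl_single (θ : ℂ) (π : Equiv.Perm (Fin 5)) (j : Fin 3) :
    fl θ π (Pi.single j 1) = θ • Pi.single (π⁻¹ (![1, 2, 3] j)) (1 : ℂ) := by
  funext n
  have e : (n = π⁻¹ (![1, 2, 3] j)) ↔ π n = ![1, 2, 3] j := by
    rw [Equiv.Perm.eq_inv_iff_eq]
  simp only [fl, ContinuousLinearMap.pi_apply, smul_apply, smul_eq_mul,
    Pi.smul_apply, Pi.single_apply, e]
  generalize π n = m
  fin_cases m <;> fin_cases j <;> simp

theorem l_hasFDeriv (θ : ℂ) (π : Equiv.Perm (Fin 5)) (x : E) :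
    HasFDerivAt (fun y : E => fun n => θ * fp y (π n)) (fl θ π) x := by
  have : (fun y : E => fun n => θ * fp y (π n)) =
      fun y => fl θ π y + fun n => θ * fp 0 (π n) := funext (fl_eq θ π)
  rw [this]
  exact (fl θ π).hasFDerivAt.add_const _

theorem l_contDiff (θ : ℂ) (π : Equiv.Perm (Fin 5)) :
    ContDiff ℂ ∞ (fun y : E => fun n => θ * fp y (π n)) := by
  have : (fun y : E => fun n => θ * fp y (π n)) =
      fun y => fl θ π y + fun n => θ * fp 0 (π n) := funext (fl_eq θ π)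
  rw [this]
  exact (fl θ π).contDiff.add contDiff_const

theorem det_smul (a t : ℂ) (u v w z : C4) :
    (Matrix.of ![a • u, a • t • v, a • t • w, a • t • z]).det =
      a ^ 4 * t ^ 3 * (Matrix.of ![u, v, w, z]).det := by
  have e : (Matrix.of ![a • u, a • t • v, a • t • w, a • t • z] : Matrix (Fin 4) (Fin 4) ℂ) =
      Matrix.diagonal ![a, a * t, a * t, a * t] * Matrix.of ![u, v, w, z] := by
    ext i j
    rw [Matrix.diagonal_mul]
    fin_cases i <;> simp [mul_assoc]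
  rw [e, Matrix.det_mul, Matrix.det_diagonal, Fin.prod_univ_four]
  simp
  ring_nf
  simp

/-- the discriminant is bounded below -/
theorem disc_lower {x : E} (hx : x ∈ FF) (θ : ℂ) (hθ : 1 ≤ ‖θ‖) (π : Equiv.Perm (Fin 5)) :
    (‖x 0‖ * ‖x 1‖ ^ 2 * ‖x 2‖ ^ 3 * wt (some 1) x / 5 ^ 5) ^ 2 ≤
      ∏ a, ∏ b ∈ Finset.univ.erase a, ‖θ * fp x (π a) - θ * fp x (π b)‖ := by
  have h1 : ∏ a, ∏ b ∈ Finset.univ.erase a, ‖fp x a - fp x b‖ ≤
      ∏ a, ∏ b ∈ Finset.univ.erase a, ‖θ * fp x (π a) - θ * fp x (π b)‖ := by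
    rw [← Equiv.prod_comp π]
    refine Finset.prod_le_prod (fun a _ => Finset.prod_nonneg fun b _ => norm_nonneg _)
      fun a _ => ?_
    have e : ∏ b ∈ Finset.univ.erase (π a), ‖fp x (π a) - fp x b‖ =
        ∏ b ∈ Finset.univ.erase a, ‖fp x (π a) - fp x (π b)‖ :=
      (Finset.prod_equiv π (by simp) (by simp)).symm
    rw [e]
    refine Finset.prod_le_prod (fun b _ => norm_nonneg _) fun b _ => ?_
    rw [← mul_sub, norm_mul]
    exact le_mul_of_one_le_left (norm_nonneg _) hθ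
  refine le_trans ?_ h1
  obtain ⟨hX, -, -, -, h10, h20, hk⟩ := hx
  obtain ⟨-, -, n2⟩ := X_ne hX
  have e2 : ∏ a, ∏ b ∈ Finset.univ.erase a, ‖fp x a - fp x b‖ =
      (‖x 0‖ * ‖x 1‖ * ‖x 2‖ * ‖x 1 - x 0‖ * ‖x 2 - x 0‖ * ‖x 2 - x 1‖ * ‖1 - x 0‖ * ‖1 - x 1‖ *
        ‖1 - x 2‖) ^ 2 := by
    simp only [← Finset.filter_ne' , Finset.prod_filter, Fin.prod_univ_five]
    simp [fp, norm_sub_rev (x 0) (x 1), norm_sub_rev (x 0) (x 2), norm_sub_rev (x 1) (x 2),
      norm_sub_rev (x 0) 1, norm_sub_rev (x 1) 1, norm_sub_rev (x 2) 1]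
    ring
  have e3 : ‖x 2 - x 1‖ = ‖x 2‖ * wt (some 1) x := by
    show _ = ‖x 2‖ * ‖1 - x 1 / x 2‖
    rw [← norm_mul]
    congr 1
    field_simp
  rw [e2, e3]
  have w0 := wt_nonneg x (some 1)
  refine pow_le_pow_left₀ (by positivity) ?_ 2
  have k0 : 1 / 5 ≤ ‖1 - x 0‖ := by linarith [hk 0]
  have k1 : 1 / 5 ≤ ‖1 - x 1‖ := by linarith [hk 1]
  have k2 : 1 / 5 ≤ ‖1 - x 2‖ := by linarith [hk 2]
  have k3 : ‖x 1‖ / 5 ≤ ‖x 1 - x 0‖ := by linarith
  have k4 : ‖x 2‖ / 5 ≤ ‖x 2 - x 0‖ := by linarith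
  calc ‖x 0‖ * ‖x 1‖ ^ 2 * ‖x 2‖ ^ 3 * wt (some 1) x / 5 ^ 5
      = ‖x 0‖ * ‖x 1‖ * ‖x 2‖ * (‖x 1‖ / 5) * (‖x 2‖ / 5) * (‖x 2‖ * wt (some 1) x) * (1 / 5) *
        (1 / 5) * (1 / 5) := by ring
    _ ≤ _ := by gcongr

end Pool.Agent.P.MP_5d7cf0_gt.DataP
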