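import Pool.Agent.P.MP_5d7cf0_gt.Stm

/-!
Bundled versions of the definitions, and the action of the symmetric group.
-/

open Set Filter Topology MeasureTheory
open scoped ContDiff ENNReal

noncomputable section

namespace Pool.Agent.P.MP_5d7cf0_gt

/-- Fields of real bilinear forms on `ℂ³`. -/
abbrev Met : Type := E → E →L[ℝ] E →L[ℝ] ℝ

/-- The image of `z` under the Moebius map that sends `p`, `q`, `r` to `0`, `1`, `∞`. -/
def cr (p q r z : ℂ × ℂ) : ℂ := br z p * br q r / (br z r * br q p)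

/-- The action of the symmetric group: permute the six points by `σ` and move the first, fifth and
sixth point back to `0`, `1`, `∞`. -/
def act (σ : Equiv.Perm (Fin 6)) (x : E) : E := fun k =>
  cr (pt x (σ 0)) (pt x (σ 4)) (pt x (σ 5)) (pt x (σ (![1, 2, 3] k)))

/-- The Christoffel symbols of the first kind: the covector
`w ↦ (∂_u g(v,w) + ∂_v g(u,w) - ∂_w g(u,v)) / 2` at `x`. -/
def kos (g : Met) (x u v : E) : E →L[ℝ] ℝ :=
  (1 / 2 : ℝ) • (fderiv ℝ g x u v + fderiv ℝ g x v u - ((fderiv ℝ g x).flip u).flip v)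

/-- The Christoffel symbols `Γ(u,v)` of the Levi-Civita connection: `g(Γ(u,v), w) = kos w`. -/
def chr (g : Met) (x u v : E) : E := (g x).inverse (kos g x u v)

/-- The curvature tensor `R(u,v)w = ∇_u ∇_v w - ∇_v ∇_u w` for constant vector fields. -/
def riem (g : Met) (x u v w : E) : E :=
  fderiv ℝ (fun y => chr g y v w) x u - fderiv ℝ (fun y => chr g y u w) x v
    + chr g x u (chr g x v w) - chr g x v (chr g x u w)

/-- The squared area of the parallelogram spanned by `u` and `v`. -/
def area (g : Met) (x u v : E) : ℝ := g x u u * g x v v - g x u v ^ 2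

/-- The sectional curvature of the plane spanned by `u` and `v`. -/
def sec (g : Met) (x u v : E) : ℝ := g x (riem g x u v v) u / area g x u v

/-- The Riemannian distance: the infimum of the lengths of `C¹` paths in `X` from `x` to `y`. -/
def rdist (g : Met) (x y : E) : ℝ≥0∞ :=
  ⨅ (γ : ℝ → E) (_ : ContDiffOn ℝ 1 γ (Icc 0 1)) (_ : MapsTo γ (Icc 0 1) X) (_ : γ 0 = x)
    (_ : γ 1 = y), ∫⁻ t in Icc (0 : ℝ) 1, ENNReal.ofReal √(g (γ t) (deriv γ t) (deriv γ t))

/-- Completeness: every Cauchy sequence for the Riemannian distance converges to a point of `X`. -/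
def Complete (g : Met) : Prop :=
  ∀ u : ℕ → E, (∀ n, u n ∈ X) →
    (∀ ε : ℝ≥0∞, 0 < ε → ∃ N, ∀ m ≥ N, ∀ n ≥ N, rdist g (u m) (u n) < ε) →
    ∃ x ∈ X, Tendsto u atTop (𝓝 x)

/-- The Riemannian volume density `√(det g_ij)`. -/
def dens (g : Met) (x : E) : ℝ≥0∞ :=
  ENNReal.ofReal √(Matrix.of fun p q => g x (eb p) (eb q)).det

/-- The Riemannian volume of `X`. -/
def vol (g : Met) : ℝ≥0∞ := ∫⁻ x in X, dens g x

end Pool.Agent.P.MP_5d7cf0_gt
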