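import Pool.Agent.P.MP_5d7cf0_gt.St

/-!
Package Det: the volume density in terms of the Wronskian.
-/

open Set Filter Topology ComplexConjugate Matrix
open scoped Kronecker

noncomputable section

namespace Pool.Agent.P.MP_5d7cf0_gt

namespace DetP

/-- the signs of the Lorentzian form -/
def sg : Fin 4 → ℂ := ![-1, 1, 1, 1]

theorem hL_eq (α β : C4) : hL α β = ∑ j, sg j * (α j * conj (β j)) := by
  simp [hL, sg, Fin.sum_univ_four]

theorem sg_sq (j : Fin 4) : sg j * sg j = 1 := by
  fin_cases j <;> simp [sg]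

theorem conj_sg (j : Fin 4) : conj (sg j) = sg j := by
  fin_cases j <;> simp [sg]

theorem hL_self (α : C4) : hL α α = (hL α α).re := by
  refine (Complex.conj_eq_iff_re.1 ?_).symm
  simp only [hL, map_add, map_neg, map_mul, Complex.conj_conj]
  ring

theorem hL_lin (a : C4) (t : ℂ) (z β : C4) : hL (a + t • z) β = hL a β + t * hL z β := by
  simp only [hL, Pi.add_apply, Pi.smul_apply, smul_eq_mul]
  ring

theorem hL_smul (c : ℂ) (α β : C4) : hL (c • α) β = c * hL α β := by
  simp only [hL, Pi.smul_apply, smul_eq_mul]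
  ring

theorem hL_smul' (c : ℂ) (α β : C4) : hL α (c • β) = conj c * hL α β := by
  simp only [hL, Pi.smul_apply, smul_eq_mul, map_mul]
  ring

/-- the real Gram determinant of a complex matrix -/
theorem det_re (H : Matrix (Fin 3) (Fin 3) ℂ) :
    (Matrix.of fun p q : Fin 3 × Fin 2 =>
      (![1, Complex.I] p.2 * conj (![1, Complex.I] q.2) * H p.1 q.1).re).det = ‖H.det‖ ^ 2 := by
  set t : Matrix (Fin 2) (Fin 2) ℂ := !![1, 1; Complex.I, -Complex.I] with ht
  set t' : Matrix (Fin 2) (Fin 2) ℂ := !![2⁻¹, -(2⁻¹ * Complex.I); 2⁻¹, 2⁻¹ * Complex.I] with ht'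
  have e : Complex.ofRealHom.mapMatrix (Matrix.of fun p q : Fin 3 × Fin 2 =>
      (![1, Complex.I] p.2 * conj (![1, Complex.I] q.2) * H p.1 q.1).re) =
      ((1 : Matrix (Fin 3) (Fin 3) ℂ) ⊗ₖ t) *
        blockDiagonal ![H, (starRingEnd ℂ).mapMatrix H] * ((1 : Matrix (Fin 3) (Fin 3) ℂ) ⊗ₖ t') := by
    ext ⟨j, a⟩ ⟨k, b⟩
    simp only [RingHom.mapMatrix_apply, map_apply, of_apply, Complex.ofRealHom_eq_coe,
      Complex.re_eq_add_conj, mul_apply, Fintype.sum_prod_type, kroneckerMap_apply,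
      blockDiagonal_apply, one_apply]
    fin_cases a <;> fin_cases b <;> simp [ht, ht', Fin.sum_univ_two] <;> ring_nf <;>
      simp [Complex.I_sq] <;> ring
  have h1 := congrArg det e
  rw [← RingHom.map_det, det_mul, det_mul, det_kronecker, det_kronecker, det_blockDiagonal,
    Fin.prod_univ_two] at h1
  have h2 : t.det * t'.det = 1 := by
    simp only [ht, ht', det_fin_two_of]
    ring_nf
    simp [Complex.I_sq]
  apply Complex.ofReal_injective
  refine h1.trans ?_
  simp only [det_one, one_pow, one_mul, Fintype.card_fin, cons_val_zero, cons_val_one,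
    ← RingHom.map_det]
  push_cast
  rw [← Complex.mul_conj']
  linear_combination (H.det * conj H.det * ((t.det * t'.det) ^ 2 + t.det * t'.det + 1)) * h2

variable {ι : Type} [Fintype ι] (P : Pw ι)

/-- the Hermitian form on `ℂ⁴` -/
def G (α β : C4) : ℂ := P.y * hL α β +
  ∑ i, P.m1 i * (hL α (P.ρ i) / hL P.Z (P.ρ i) * conj (hL β (P.ρ i) / hL P.Z (P.ρ i)))

/-- the coefficients of the linear forms -/
def av (i : ι) (j : Fin 4) : ℂ := sg j * conj (P.ρ i j) / hL P.Z (P.ρ i)

/-- the matrix of `G` -/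
def Gm : Matrix (Fin 4) (Fin 4) ℂ :=
  diagonal (fun j => P.y * sg j) + Matrix.of fun j k => ∑ i, P.m1 i * (av P i j * conj (av P i k))

omit [Fintype ι] in
theorem e_eq (α : C4) (i : ι) : hL α (P.ρ i) / hL P.Z (P.ρ i) = ∑ j, α j * av P i j := by
  rw [hL_eq α, Finset.sum_div]
  exact Finset.sum_congr rfl fun j _ => by rw [av]; ring

theorem gram (R : Matrix (Fin 4) (Fin 4) ℂ) (p q : Fin 4) :
    (R * Gm P * Rᴴ) p q = G P (R p) (R q) := by
  rw [Gm, Matrix.mul_add, Matrix.add_mul, Matrix.add_apply, G]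
  congr 1
  · rw [mul_apply, hL_eq, Finset.mul_sum]
    refine Finset.sum_congr rfl fun j _ => ?_
    rw [mul_diagonal, conjTranspose_apply, Complex.star_def]
    ring
  · simp only [mul_apply, of_apply, conjTranspose_apply, Complex.star_def, e_eq, map_sum, map_mul,
      Finset.mul_sum, Finset.sum_mul]
    rw [Finset.sum_comm]
    refine Eq.trans (Finset.sum_congr rfl fun j _ => Finset.sum_comm) ?_
    rw [Finset.sum_comm]
    refine Finset.sum_congr rfl fun i _ => ?_
    rw [Finset.sum_comm]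
    exact Finset.sum_congr rfl fun j _ => Finset.sum_congr rfl fun k _ => by ring

theorem det_Gm (h : P.Ok) : (Gm P).det = -(P.y ^ 4 * ∏ i, P.D i / P.x i : ℝ) := by
  classical
  have hy : (P.y : ℂ) ≠ 0 := by exact_mod_cast h.ypos.ne'
  set U : Matrix (Fin 4) ι ℂ := Matrix.of fun j i => sg j / P.y * (P.m1 i * av P i j) with hU
  set V : Matrix ι (Fin 4) ℂ := Matrix.of fun i k => conj (av P i k) with hV
  have e1 : Gm P = diagonal (fun j => P.y * sg j) * (1 + U * V) := by
    rw [Gm, Matrix.mul_add, Matrix.mul_one]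
    congr 1
    ext j k
    rw [diagonal_mul, mul_apply, of_apply, Finset.mul_sum]
    refine Finset.sum_congr rfl fun i _ => ?_
    simp only [hU, hV, of_apply]
    field_simp
    rw [sq, sg_sq, mul_one]
  have e2 : ∀ i i', (V * U) i i' = P.m1 i' / P.y * hL (P.ρ i) (P.ρ i') /
      (conj (hL P.Z (P.ρ i)) * hL P.Z (P.ρ i')) := fun i i' => by
    rw [mul_apply, hL_eq (P.ρ i), Finset.mul_sum, Finset.sum_div]
    refine Finset.sum_congr rfl fun j _ => ?_
    simp only [hU, hV, of_apply, av, map_div₀, map_mul, conj_sg, Complex.conj_conj]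
    have h1 := h.ne i'
    have h2 : conj (hL P.Z (P.ρ i)) ≠ 0 := by simpa using h.ne i
    field_simp
    rw [pow_succ, sq, sg_sq, one_mul]
  have e3 : 1 + V * U = diagonal fun i => ((P.D i / P.x i : ℝ) : ℂ) := by
    ext i i'
    rw [Matrix.add_apply, e2]
    by_cases hi : i = i'
    · subst hi
      rw [one_apply_eq, diagonal_apply_eq, Complex.conj_mul', hL_self (P.ρ i), Pw.D, Pw.x, Pw.eta]
      have h1 : (‖hL P.Z (P.ρ i)‖ : ℂ) ≠ 0 := by exact_mod_cast norm_ne_zero_iff.2 (h.ne i)
      push_cast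
      field_simp
    · rw [one_apply_ne hi, diagonal_apply_ne _ hi, h.orth i i' hi]
      simp
  rw [e1, det_mul, det_one_add_mul_comm, e3, det_diagonal, det_diagonal]
  push_cast
  have e4 : ∏ j, (P.y : ℂ) * sg j = -(P.y : ℂ) ^ 4 := by
    simp [sg, Fin.prod_univ_four]
    ring
  rw [e4, neg_mul]

theorem G_ZZ (h : P.Ok) : G P P.Z P.Z = -(P.s : ℂ) := by
  have h1 : ∀ i, hL P.Z (P.ρ i) / hL P.Z (P.ρ i) = 1 := fun i => div_self (h.ne i)
  have h2 : P.y * (hL P.Z P.Z).re + ∑ i, P.m1 i = -P.s := by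
    rw [Pw.s, Finset.sum_sub_distrib]
    linarith [h.level]
  simp only [G, h1, map_one, mul_one]
  rw [hL_self]
  exact_mod_cast h2

theorem G_lin (a : C4) (t : ℂ) (z β : C4) : G P (a + t • z) β = G P a β + t * G P z β := by
  simp only [G, hL_lin, mul_add, Finset.mul_sum]
  rw [add_add_add_comm, ← Finset.sum_add_distrib]
  congr 1
  · ring
  · exact Finset.sum_congr rfl fun i _ => by ring

theorem G_lift (h : P.Ok) (a : E) : G P (P.lift a) P.Z = 0 := by
  have hs : (P.s : ℂ) ≠ 0 := by exact_mod_cast h.spos.ne'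
  have h1 : ∀ i, hL P.Z (P.ρ i) / hL P.Z (P.ρ i) = 1 := fun i => div_self (h.ne i)
  rw [Pw.lift, G_lin, G_ZZ P h, Pw.ta, mul_neg, div_mul_cancel₀ _ hs]
  simp only [G, h1, map_one, mul_one]
  ring

theorem lift_smul (c : ℂ) (a : E) : P.lift (c • a) = c • P.lift a := by
  have : P.ta (c • a) = c * P.ta a := by
    simp only [Pw.ta, map_smul, hL_smul]
    rw [← mul_div_assoc, mul_add, Finset.mul_sum]
    congr 2
    · ring
    · exact Finset.sum_congr rfl fun i _ => by ring
  rw [Pw.lift, Pw.lift, map_smul, this, smul_add, mul_smul]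

theorem H_smul (c d : ℂ) (a b : E) : P.H (c • a) (d • b) = c * conj d * P.H a b := by
  simp only [Pw.H, Pw.form, Pw.eps, lift_smul, hL_smul, hL_smul', mul_add, Finset.mul_sum,
    map_div₀, map_mul]
  congr 1
  · ring
  · exact Finset.sum_congr rfl fun i _ => by ring

theorem det_H (h : P.Ok) :
    (Matrix.of fun j k : Fin 3 => P.H (Pi.single j 1) (Pi.single k 1)).det =
      (P.y ^ 4 * ‖P.W‖ ^ 2 * (∏ i, P.D i / P.x i) / P.s : ℝ) := by
  have hs : (P.s : ℂ) ≠ 0 := by exact_mod_cast h.spos.ne'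
  set R : Matrix (Fin 4) (Fin 4) ℂ :=
    Matrix.of (Fin.cons P.Z fun j : Fin 3 => P.lift (Pi.single j 1)) with hR
  have d1 : R.det = P.W := by
    refine det_eq_of_forall_row_eq_smul_add_const
      (Fin.cons 0 fun j : Fin 3 => P.ta (Pi.single j 1)) 0 rfl fun i j => ?_
    fin_cases i <;> simp [hR, Pw.lift] <;> rfl
  have d2 : (R * Gm P * Rᴴ).det =
      -(P.s : ℂ) * (Matrix.of fun j k : Fin 3 => P.H (Pi.single j 1) (Pi.single k 1)).det := by
    rw [det_succ_column_zero, Fin.sum_univ_succ, Finset.sum_eq_zero, add_zero, gram]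
    · have e : (R * Gm P * Rᴴ).submatrix (Fin.succAbove 0) Fin.succ =
          Matrix.of fun j k : Fin 3 => P.H (Pi.single j 1) (Pi.single k 1) := by
        ext j k
        rw [submatrix_apply, gram]
        rfl
      rw [e, show R 0 = P.Z from rfl, G_ZZ P h]
      simp
    · intro j _
      rw [gram, show R 0 = P.Z from rfl, show R j.succ = P.lift (Pi.single j 1) from rfl,
        G_lift P h]
      simp
  rw [det_mul, det_mul, det_conjTranspose, d1, det_Gm P h, Complex.star_def] at d2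
  have d3 := Complex.mul_conj' P.W
  push_cast at d2 ⊢
  field_simp
  linear_combination d2 + (P.y : ℂ) ^ 4 * (∏ i, (P.D i : ℂ) / (P.x i : ℂ)) * d3

end DetP

open DetP in
theorem pDet : S_Det := by
  intro ι _ P h
  have e : (Matrix.of fun p q => (P.H (eb p) (eb q)).re) = Matrix.of fun p q : Fin 3 × Fin 2 =>
      (![1, Complex.I] p.2 * conj (![1, Complex.I] q.2) *
        (Matrix.of fun j k : Fin 3 => P.H (Pi.single j 1) (Pi.single k 1)) p.1 q.1).re := by
    have h1 : ∀ p, eb p = (![1, Complex.I] p.2 : ℂ) • (Pi.single p.1 1 : E) := fun p => by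
      rw [eb, ← Pi.single_smul, smul_eq_mul, mul_one]
    ext p q
    rw [of_apply, of_apply, of_apply, h1, h1, H_smul]
  rw [e, det_re, Real.sqrt_sq (norm_nonneg _), det_H P h, Complex.norm_real, Real.norm_of_nonneg]
  have hy := h.ypos
  have hs := h.spos
  have : 0 ≤ ∏ i, P.D i / P.x i := Finset.prod_nonneg fun i _ =>
    div_nonneg (h.Dpos i).le (by unfold Pw.x; positivity)
  positivity

end Pool.Agent.P.MP_5d7cf0_gt
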