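import Pool.Agent.P.MP_5d7cf0_gt.St

/-!
Basic facts on the integrand of the periods.
-/

open Set Filter Topology MeasureTheory

namespace Pool.Agent.P.MP_5d7cf0_gt

namespace FmP

theorem norm_cp (z : ℂ) : ‖cp z‖ = ‖z‖ ^ (-(1 / 3) : ℝ) := by
  rw [← Complex.norm_cpow_real, cp]
  push_cast
  rfl

theorem norm_fm (l : Fin 5 → ℂ) (m : ℕ) (z : ℂ) :
    ‖fm l m z‖ = ∏ k, ‖z - l k‖ ^ (-(1 / 3) : ℝ) := by
  rw [fm, norm_prod]
  refine Finset.prod_congr rfl fun k _ => ?_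
  rw [norm_cp]
  split_ifs
  · rfl
  · rw [norm_sub_rev]

theorem isOpen_Os (l : Fin 5 → ℂ) (m : ℕ) : IsOpen (Os l m) := by
  have e : Os l m = ⋂ k : Fin 5,
      {z : ℂ | if (k : ℕ) < m then (l k).re < z.re else z.re < (l k).re} := by
    ext z
    simp [Os]
  rw [e]
  refine isOpen_iInter_of_finite fun k => ?_
  split_ifs
  · exact isOpen_lt continuous_const Complex.continuous_re
  · exact isOpen_lt Complex.continuous_re continuous_const

theorem der_cp {w : ℂ → ℂ} {z w' : ℂ} (h : HasDerivAt w w' z) (hs : w z ∈ Complex.slitPlane) :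
    HasDerivAt (fun x => cp (w x)) (-(1 / 3) * cp (w z) * (w' / w z)) z := by
  have h0 := Complex.slitPlane_ne_zero hs
  refine (h.cpow_const (c := -(1 / 3)) hs).congr_deriv ?_
  rw [Complex.cpow_sub _ _ h0, Complex.cpow_one, cp]
  ring

theorem der_fac {l : Fin 5 → ℂ} {m : ℕ} {z : ℂ} (hz : z ∈ Cs l m) (k : Fin 5) (hk : z ≠ l k) :
    HasDerivAt (fun x => cp (if (k : ℕ) < m then x - l k else l k - x))
      (-(1 / 3) * cp (if (k : ℕ) < m then z - l k else l k - z) * (z - l k)⁻¹) z := by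
  have h := hz k
  have sl : ∀ w : ℂ, 0 ≤ w.re → w ≠ 0 → w ∈ Complex.slitPlane := fun w h1 h2 => by
    rcases h1.eq_or_lt with e | e
    · exact Or.inr fun e' => h2 (Complex.ext e.symm e')
    · exact Or.inl e
  by_cases hm : (k : ℕ) < m
  · simp only [hm, if_true] at h ⊢
    have := der_cp ((hasDerivAt_id' z).sub_const (l k))
      (sl _ (by simpa using h) (sub_ne_zero.2 hk))
    rwa [one_div (z - l k)] at this
  · simp only [hm, if_false] at h ⊢
    have := der_cp ((hasDerivAt_id' z).const_sub (l k))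
      (sl _ (by simpa using h) (sub_ne_zero.2 hk.symm))
    rwa [← neg_sub z (l k), neg_div_neg_eq, one_div (z - l k), neg_sub] at this

theorem der_fm {l : Fin 5 → ℂ} {m : ℕ} {z : ℂ} (hz : z ∈ Cs l m) (hk : ∀ k, z ≠ l k) :
    HasDerivAt (fm l m) (-(1 / 3) * fm l m z * ∑ k, (z - l k)⁻¹) z := by
  have h := HasDerivAt.fun_finsetProd (u := Finset.univ) fun k _ => der_fac hz k (hk k)
  refine HasDerivAt.congr_deriv h ?_
  rw [Finset.mul_sum]
  refine Finset.sum_congr rfl fun k _ => ?_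
  rw [fm, ← Finset.mul_prod_erase _ _ (Finset.mem_univ k), smul_eq_mul]
  ring

theorem os_sub {l : Fin 5 → ℂ} {m : ℕ} {z : ℂ} (hz : z ∈ Os l m) :
    z ∈ Cs l m ∧ ∀ k, z.re ≠ (l k).re := by
  refine ⟨fun k => ?_, fun k => ?_⟩ <;> have := hz k <;> split_ifs at this ⊢
  exacts [this.le, this.le, this.ne', this.ne]

/-- a point at horizontal distance at least `d` -/
theorem far {w : ℂ} {d B : ℝ} (hd : 0 < d) (h1 : d ≤ |w.re|) (h2 : |w.im| ≤ B) (y : ℝ) :
    1 + |y| ≤ (1 + (1 + B) / d) * ‖w + y * Complex.I‖ := by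
  have a1 : d ≤ ‖w + y * Complex.I‖ :=
    h1.trans (by simpa using Complex.abs_re_le_norm (w + y * Complex.I))
  have a2 : |w.im + y| ≤ ‖w + y * Complex.I‖ := by
    simpa using Complex.abs_im_le_norm (w + y * Complex.I)
  have a3 : |y| ≤ |w.im + y| + |w.im| := by
    simpa using abs_sub (w.im + y) w.im
  have a4 : 0 ≤ (1 + B) / d := div_nonneg (by linarith [abs_nonneg w.im]) hd.le
  have a5 : (1 + B) / d * d ≤ (1 + B) / d * ‖w + y * Complex.I‖ :=
    mul_le_mul_of_nonneg_left a1 a4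
  rw [div_mul_cancel₀ _ hd.ne'] at a5
  linarith

theorem rpow_le {t K N r : ℝ} (ht : 0 < t) (hK : 0 < K) (hr : 0 ≤ r) (h : t ≤ K * N) :
    N ^ (-r) ≤ K ^ r * t ^ (-r) := by
  have h1 : t / K ≤ N := by rwa [div_le_iff₀' hK]
  refine (Real.rpow_le_rpow_of_nonpos (div_pos ht hK) h1 (neg_nonpos.2 hr)).trans_eq ?_
  rw [Real.div_rpow ht.le hK.le, Real.rpow_neg hK.le, div_inv_eq_mul, mul_comm]

theorem prod_le {s : Finset (Fin 5)} {N K : Fin 5 → ℝ} {t : ℝ} (ht : 0 < t) (hK : ∀ k, 0 < K k)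
    (hN : ∀ k, 0 ≤ N k) (h : ∀ k ∈ s, t ≤ K k * N k) :
    ∏ k ∈ s, N k ^ (-(1 / 3) : ℝ) ≤ (∏ k ∈ s, K k ^ (1 / 3 : ℝ)) * t ^ (-((s.card : ℝ) / 3)) := by
  refine (Finset.prod_le_prod (fun k _ => Real.rpow_nonneg (hN k) _)
    fun k hk => rpow_le ht (hK k) (by norm_num) (h k hk)).trans_eq ?_
  rw [Finset.prod_mul_distrib, Finset.prod_const, ← Real.rpow_natCast, ← Real.rpow_mul ht.le]
  congr 2
  ring

theorem loc {l : Fin 5 → ℂ} {m : ℕ} {z0 : ℂ} (hz : z0 ∈ Os l m) :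
    ∃ C : ℝ, ∀ᶠ z in 𝓝 z0, ∀ y : ℝ,
      ‖fm l m (z + y * Complex.I)‖ ≤ C * (1 + |y|) ^ (-(5 / 3) : ℝ) ∧
        ∀ k, ‖(z + y * Complex.I - l k)⁻¹‖ ≤ C := by
  have key : ∀ k, ∃ K : ℝ, 0 < K ∧ ∀ᶠ z in 𝓝 z0, ∀ y : ℝ,
      1 + |y| ≤ K * ‖z + y * Complex.I - l k‖ := fun k => by
    have hd : 0 < |(z0 - l k).re| := abs_pos.2 (by simpa [sub_eq_zero] using (os_sub hz).2 k)
    have c1 : Continuous fun z : ℂ => |(z - l k).re| := by fun_prop
    have c2 : Continuous fun z : ℂ => |(z - l k).im| := by fun_prop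
    refine ⟨1 + (1 + (|(z0 - l k).im| + 1)) / (|(z0 - l k).re| / 2), by positivity, ?_⟩
    filter_upwards [c1.continuousAt.eventually (lt_mem_nhds (half_lt_self hd)),
      c2.continuousAt.eventually (gt_mem_nhds (lt_add_one _))] with z h1 h2 y
    have := far (half_pos hd) h1.le h2.le y
    rwa [sub_add_eq_add_sub] at this
  choose K hK h using key
  have p0 : 0 ≤ ∏ k, K k ^ (1 / 3 : ℝ) :=
    Finset.prod_nonneg fun k _ => Real.rpow_nonneg (hK k).le _
  have s0 : 0 ≤ ∑ k, K k := Finset.sum_nonneg fun k _ => (hK k).le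
  refine ⟨∏ k, K k ^ (1 / 3 : ℝ) + ∑ k, K k, ?_⟩
  filter_upwards [eventually_all.2 h] with z H y
  have ht : 0 < 1 + |y| := by positivity
  refine ⟨?_, fun k => ?_⟩
  · rw [norm_fm]
    refine (prod_le ht hK (fun _ => norm_nonneg _) fun k _ => H k y).trans ?_
    simp only [Finset.card_univ, Fintype.card_fin, Nat.cast_ofNat]
    exact mul_le_mul_of_nonneg_right (le_add_of_nonneg_right s0) (Real.rpow_nonneg ht.le _)
  · have h1 : 1 ≤ K k * ‖z + y * Complex.I - l k‖ := le_trans (by linarith [abs_nonneg y]) (H k y)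
    have h2 : 0 < ‖z + y * Complex.I - l k‖ := pos_of_mul_pos_right (one_pos.trans_le h1) (hK k).le
    have h3 : K k ≤ ∑ k, K k := Finset.single_le_sum (fun k _ => (hK k).le) (Finset.mem_univ k)
    rw [norm_inv]
    have h4 : ‖z + y * Complex.I - l k‖⁻¹ ≤ K k := by
      rw [inv_le_iff_one_le_mul₀ h2]
      exact h1
    linarith

theorem sing (b : ℝ) : ∃ φ : ℝ → ℝ, Integrable φ ∧
    ∀ y, |y - b| ^ (-(2 / 3) : ℝ) * (1 + |y|) ^ (-1 : ℝ) ≤ φ y := by
  have i1 : IntegrableOn (fun t : ℝ => ‖t‖ ^ (-(2 / 3) : ℝ)) (Metric.ball 0 1) :=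
    integrableOn_ball_of_norm_le_rpow (C := 1) (α := 2 / 3) (by simp) (by norm_num)
      (Eventually.of_forall fun t => by
        rw [Real.norm_of_nonneg (Real.rpow_nonneg (norm_nonneg _) _), one_mul])
      (Measurable.aestronglyMeasurable (by fun_prop))
  have i2 := ((integrable_indicator_iff measurableSet_ball).2 i1).comp_sub_right b
  have i3 : Integrable fun y : ℝ => (1 + ‖y‖) ^ (-(5 / 3) : ℝ) :=
    integrable_one_add_norm (by norm_num)
  refine ⟨_, i2.add (i3.const_mul ((2 + |b|) ^ (2 / 3 : ℝ))), fun y => ?_⟩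
  have ht : 0 < 1 + |y| := by positivity
  simp only [Pi.add_apply, Real.norm_eq_abs]
  by_cases h : y - b ∈ Metric.ball (0 : ℝ) 1
  · rw [indicator_of_mem h]
    refine le_add_of_le_of_nonneg (mul_le_of_le_one_right (by positivity) ?_) (by positivity)
    exact Real.rpow_le_one_of_one_le_of_nonpos (by linarith [abs_nonneg y]) (by norm_num)
  · rw [indicator_of_notMem h, zero_add]
    have h1 : 1 ≤ |y - b| := by simpa using h
    have h2 : |y| ≤ |y - b| + |b| := by simpa using abs_add_le (y - b) b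
    have h3 : 1 + |y| ≤ (2 + |b|) * |y - b| := by nlinarith [abs_nonneg b]
    refine (mul_le_mul_of_nonneg_right (rpow_le ht (by positivity) (by norm_num) h3)
      (by positivity)).trans_eq ?_
    rw [mul_assoc, ← Real.rpow_add ht]
    norm_num

theorem pair (m : ℕ) : ∃ i j : Fin 5, j ≠ i ∧ ∀ k, k ≠ i → k ≠ j →
    ∃ k' : Fin 5, (k < k' ∧ (k' : ℕ) < m) ∨ (k' < k ∧ ¬(k' : ℕ) < m) := by
  rcases le_or_gt m 4 with h | h
  · interval_cases m <;> decide
  · refine ⟨3, 4, by decide, fun k _ hk => ⟨4, Or.inl ⟨?_, h⟩⟩⟩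
    exact lt_of_le_of_ne (Fin.le_last k) hk

theorem dom {l : Fin 5 → ℂ} (hl : l ∈ O) (m : ℕ) :
    ∃ φ : ℝ → ℝ, Integrable φ ∧ ∀ᵐ y : ℝ, ∀ x : ℝ, (x : ℂ) ∈ Cs l m →
      ‖fm l m (x + y * Complex.I)‖ ≤ φ y := by
  obtain ⟨i, j, hij, hf⟩ := pair m
  have key : ∀ k, ∃ K : ℝ, 0 < K ∧ (k ≠ i → k ≠ j → ∀ x y : ℝ, (x : ℂ) ∈ Cs l m →
      1 + |y| ≤ K * ‖x + y * Complex.I - l k‖) := fun k => by
    by_cases hk : k ≠ i ∧ k ≠ j
    · obtain ⟨k', h⟩ := hf k hk.1 hk.2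
      have hd : ∃ d : ℝ, 0 < d ∧ ∀ x : ℝ, (x : ℂ) ∈ Cs l m → d ≤ |((x : ℂ) - l k).re| := by
        rcases h with ⟨h1, h2⟩ | ⟨h1, h2⟩
        · refine ⟨(l k').re - (l k).re, sub_pos.2 (hl h1), fun x hx => le_trans ?_ (le_abs_self _)⟩
          have := hx k'
          rw [if_pos h2] at this
          rw [Complex.sub_re]
          linarith
        · refine ⟨(l k).re - (l k').re, sub_pos.2 (hl h1), fun x hx => le_trans ?_ (neg_le_abs _)⟩
          have := hx k'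
          rw [if_neg h2] at this
          rw [Complex.sub_re]
          linarith
      obtain ⟨d, hd, H⟩ := hd
      refine ⟨1 + (1 + |(l k).im|) / d, by positivity, fun _ _ x y hx => ?_⟩
      have := far (B := |(l k).im|) hd (H x hx) (by simp) y
      rwa [sub_add_eq_add_sub] at this
    · exact ⟨1, one_pos, fun h1 h2 => absurd ⟨h1, h2⟩ hk⟩
  choose K hK h using key
  obtain ⟨φ, i1, b1⟩ := sing (l i).im
  obtain ⟨ψ, i2, b2⟩ := sing (l j).im
  set s := (Finset.univ.erase i).erase j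
  have hj : j ∈ Finset.univ.erase i := Finset.mem_erase.2 ⟨hij, Finset.mem_univ _⟩
  have hs : s.card = 3 := by
    rw [Finset.card_erase_of_mem hj, Finset.card_erase_of_mem (Finset.mem_univ _)]
    simp
  have p0 : 0 ≤ ∏ k ∈ s, K k ^ (1 / 3 : ℝ) :=
    Finset.prod_nonneg fun k _ => Real.rpow_nonneg (hK k).le _
  refine ⟨_, (i1.add i2).const_mul (∏ k ∈ s, K k ^ (1 / 3 : ℝ)), ?_⟩
  have ae : ∀ b : ℝ, ∀ᵐ y : ℝ, y ≠ b := fun b => by simp [ae_iff]
  filter_upwards [ae (l i).im, ae (l j).im] with y n1 n2 x hx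
  have ht : 0 < 1 + |y| := by positivity
  have near : ∀ k, y ≠ (l k).im →
      ‖x + y * Complex.I - l k‖ ^ (-(1 / 3) : ℝ) ≤ |y - (l k).im| ^ (-(1 / 3) : ℝ) := fun k hk =>
    Real.rpow_le_rpow_of_nonpos (abs_pos.2 (sub_ne_zero.2 hk))
      (by simpa using Complex.abs_im_le_norm (x + y * Complex.I - l k)) (by norm_num)
  have sq : ∀ t : ℝ, |t| ^ (-(2 / 3) : ℝ) = (|t| ^ (-(1 / 3) : ℝ)) ^ 2 := fun t => by
    rw [← Real.rpow_natCast, ← Real.rpow_mul (abs_nonneg _)]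
    norm_num
  have e1 := prod_le (s := s) (N := fun k => ‖x + y * Complex.I - l k‖) ht hK
    (fun _ => norm_nonneg _) fun k hk => h k (Finset.ne_of_mem_erase (Finset.mem_of_mem_erase hk))
      (Finset.ne_of_mem_erase hk) x y hx
  rw [hs, Nat.cast_ofNat, div_self (by norm_num)] at e1
  rw [norm_fm, ← Finset.mul_prod_erase _ _ (Finset.mem_univ i), ← Finset.mul_prod_erase _ _ hj,
    ← mul_assoc]
  have e2 := mul_le_mul (near i n1) (near j n2) (by positivity) (by positivity)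
  refine (mul_le_mul e2 e1 (Finset.prod_nonneg fun k _ => by positivity) (by positivity)).trans ?_
  have e3 := b1 y
  have e4 := b2 y
  rw [sq] at e3 e4
  rw [mul_left_comm]
  refine mul_le_mul_of_nonneg_left (le_trans ?_ (add_le_add e3 e4)) p0
  rw [← add_mul]
  refine mul_le_mul_of_nonneg_right ?_ (by positivity)
  have q1 : 0 ≤ |y - (l i).im| ^ (-(1 / 3) : ℝ) := by positivity
  have q2 : 0 ≤ |y - (l j).im| ^ (-(1 / 3) : ℝ) := by positivity
  nlinarith [sq_nonneg (|y - (l i).im| ^ (-(1 / 3) : ℝ) - |y - (l j).im| ^ (-(1 / 3) : ℝ)),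
    mul_nonneg q1 q2]

end FmP

open FmP in
theorem pFm : S_Fm := fun l hl m =>
  ⟨norm_fm l m, isOpen_Os l m,
    fun _ hz => der_fm (os_sub hz).1 fun k e => (os_sub hz).2 k (congrArg _ e),
    fun _ hz hk => (der_fm hz hk).continuousAt.continuousWithinAt, fun _ hz => loc hz, dom hl m⟩

end Pool.Agent.P.MP_5d7cf0_gt
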