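import Pool.Agent.P.MP_5d7cf0_gt.Defs

/-!
Definitions for the construction of the metric.
-/

open Set Filter Topology MeasureTheory ComplexConjugate
open scoped ContDiff ENNReal

noncomputable section

namespace Pool.Agent.P.MP_5d7cf0_gt

abbrev C4 : Type := Fin 4 → ℂ

/-- the Lorentzian Hermitian form -/
def hL (α β : C4) : ℂ :=
  -(α 0 * conj (β 0)) + α 1 * conj (β 1) + α 2 * conj (β 2) + α 3 * conj (β 3)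

/-- multiplication by `i` -/
def Jc : E →L[ℝ] E := ContinuousLinearMap.lsmul ℝ ℂ Complex.I

/-- the real part of the Hermitian form attached to a real bilinear form -/
def herm (B : E →L[ℝ] E →L[ℝ] ℝ) : E →L[ℝ] E →L[ℝ] ℝ := (1 / 4 : ℝ) • (B + B.bilinearComp Jc Jc)

/-- the square of the differential -/
def sqd (f : E → ℝ) (x : E) : E →L[ℝ] E →L[ℝ] ℝ := (fderiv ℝ f x).smulRight (fderiv ℝ f x)

/-- the metric attached to `v = log V`, `q`, functions `L i` and profiles `μ i` -/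
def GG {ι : Type} [Fintype ι] (v q : E → ℝ) (L : ι → E → ℝ) (μ : ι → ℝ → ℝ) : Met := fun x =>
  herm (Real.exp (q x) • (-fderiv ℝ (fderiv ℝ v) x - sqd q x) +
    ∑ i, deriv (μ i) (L i x) • sqd (L i) x)

theorem Jc_apply (a : E) : Jc a = Complex.I • a := rfl

theorem herm_apply (B : E →L[ℝ] E →L[ℝ] ℝ) (a b : E) :
    herm B a b = (B a b + B (Complex.I • a) (Complex.I • b)) / 4 := by
  simp only [herm, smul_apply, add_apply,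
    ContinuousLinearMap.bilinearComp_apply, Jc_apply, smul_eq_mul]
  ring

theorem sqd_apply (f : E → ℝ) (x a b : E) : sqd f x a b = fderiv ℝ f x a * fderiv ℝ f x b := by
  simp [sqd]

/-- pointwise data -/
structure Pw (ι : Type) where
  Z : C4
  A : E →L[ℂ] C4
  y : ℝ
  ρ : ι → C4
  m0 : ι → ℝ
  m1 : ι → ℝ
  m2 : ι → ℝ
  m3 : ι → ℝ

namespace Pw

variable {ι : Type} [Fintype ι] (P : Pw ι)

def s : ℝ := 1 + ∑ i, (P.m0 i - P.m1 i)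

def ta (a : E) : ℂ :=
  (P.y * hL (P.A a) P.Z + ∑ i, P.m1 i * (hL (P.A a) (P.ρ i) / hL P.Z (P.ρ i))) / P.s

/-- the horizontal lift -/
def lift (a : E) : C4 := P.A a + P.ta a • P.Z

def eps (i : ι) (a : E) : ℂ := hL (P.lift a) (P.ρ i) / hL P.Z (P.ρ i)

def form (c : ι → ℝ) (a b : E) : ℂ :=
  P.y * hL (P.lift a) (P.lift b) + ∑ i, c i * (P.eps i a * conj (P.eps i b))

def H (a b : E) : ℂ := P.form P.m1 a b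

def N (a b : E) : ℂ := P.form P.m2 a b

def x (i : ι) : ℝ := P.y * ‖hL P.Z (P.ρ i)‖ ^ 2

def eta (i : ι) : ℝ := (hL (P.ρ i) (P.ρ i)).re

def D (i : ι) : ℝ := P.x i + P.eta i * P.m1 i

def c (i : ι) : ℝ :=
  (P.m3 i - P.m2 i) - (P.m2 i - P.m1 i) - (P.m2 i - P.m1 i) ^ 2 * P.eta i / P.D i

/-- minus the curvature -/
def S (u v : E) : ℝ :=
  ((P.N u u).re * (P.N v v).re - (P.N u v).re ^ 2 + 3 * (P.N u v).im ^ 2) / P.s +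
    2 * ∑ i, P.c i * (P.eps i u * conj (P.eps i v)).im ^ 2

/-- the Wronskian -/
def W : ℂ :=
  (Matrix.of ![P.Z, P.A (Pi.single 0 1), P.A (Pi.single 1 1), P.A (Pi.single 2 1)]).det

structure Ok : Prop where
  ypos : 0 < P.y
  level : P.y * -(hL P.Z P.Z).re = 1 + ∑ i, P.m0 i
  neg : (hL P.Z P.Z).re < 0
  orth : ∀ i j, i ≠ j → hL (P.ρ i) (P.ρ j) = 0
  ne : ∀ i, hL P.Z (P.ρ i) ≠ 0
  spos : 0 < P.s
  Dpos : ∀ i, 0 < P.D i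
  inj : ∀ (μ : ℂ) (a : E), μ • P.Z + P.A a = 0 → μ = 0 ∧ a = 0

end Pw

/-- the pointwise data of a family -/
def pw {ι : Type} (Z : E → C4) (ρ : ι → C4) (v q : E → ℝ) (L : ι → E → ℝ) (μ : ι → ℝ → ℝ)
    (x : E) : Pw ι :=
  ⟨Z x, fderiv ℂ Z x, Real.exp (q x - v x), ρ, fun i => μ i (L i x), fun i => deriv (μ i) (L i x),
    fun i => deriv (deriv (μ i)) (L i x), fun i => deriv (deriv (deriv (μ i))) (L i x)⟩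

/-- local data at a point -/
structure LocD {ι : Type} [Fintype ι] (n : WithTop ℕ∞) (Z : E → C4) (ρ : ι → C4) (v q : E → ℝ)
    (L : ι → E → ℝ) (μ : ι → ℝ → ℝ) (x0 : E) : Prop where
  hZ : ContDiffAt ℂ n Z x0
  hv : ∀ᶠ x in 𝓝 x0, v x = Real.log (-(hL (Z x) (Z x)).re)
  hl : ∀ i, ∀ᶠ x in 𝓝 x0, L i x = q x + Real.log (‖hL (Z x) (ρ i)‖ ^ 2) - v x
  hq : ContDiffAt ℝ n q x0
  hμ : ∀ i, ContDiffAt ℝ n (μ i) (L i x0)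
  lev : ∀ᶠ x in 𝓝 x0, Real.exp (q x) = 1 + ∑ i, μ i (L i x)
  ok : (pw Z ρ v q L μ x0).Ok

/-- numerical conditions at a root: `x = e^l`, `m0..m3` the profile and its derivatives -/
structure RootNum (K x m0 m1 m2 m3 : ℝ) : Prop where
  h1 : 0 ≤ m1
  h2 : m1 ≤ 1 / 1000
  h3 : |m0| ≤ 1 / 1000
  h4 : 0 < x + m2
  h5 : m2 ≤ m1
  h6 : |m0 + x - (x + m1) ^ 2 / (x + m2)| ≤ 1 / 1000
  h7 : 0 ≤ (x + m1) * (x + m3) - (x + m2) ^ 2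
  h8 : (x + m1) * (x + m3) - (x + m2) ^ 2 ≤ K * (x + m1) ^ 3
  h9 : (x + m1) * (x + m3) - (x + m2) ^ 2 ≤ K * (x + m1)

/-- numerical conditions at a cusp; `u = 1 + m0 - m1`, `u' = m1 - m2`, `u'' = m2 - m3` -/
structure CuspNum (K m0 m1 m2 m3 : ℝ) : Prop where
  h1 : 0 ≤ m0
  h2 : m1 ≤ 0
  h3 : 1 / 2 ≤ (1 + m0 - m1) - (m1 - m2)
  h4 : ((m2 - m3) - (m1 - m2)) * (1 + m0 - m1) ≤ 5 / 4 * ((1 + m0 - m1) - (m1 - m2)) ^ 2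
  h5 : |(m2 - m3) - (m1 - m2)| ≤ K * (1 + m0 - m1) ^ 2
  h6 : (m1 - m2) ^ 2 ≤ K * (1 + m0 - m1) ^ 3
  h7 : (1 + m0) ^ 4 ≤ K * (1 + m0 - m1) ^ 3
  h8 : m1 ^ 2 ≤ K * (1 + m0) ^ 2 * (1 + m0 - m1)

/-- the profile at the roots -/
structure ProfK (m ψ : ℝ → ℝ) (l1 K : ℝ) : Prop where
  sm : ContDiff ℝ ∞ m
  zero : ∀ l, l1 ≤ l → m l = 0
  num : ∀ l, RootNum K (Real.exp l) (m l) (deriv m l) (deriv (deriv m) l) (deriv (deriv (deriv m)) l)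
  vol : ∀ l, deriv m l ≤ K / (1 + l ^ 2)
  dψ : Differentiable ℝ ψ
  ψzero : ∀ l, l1 ≤ l → ψ l = 0
  ψpos : ∀ l, 0 ≤ ψ l
  ψlim : Tendsto ψ atBot atTop
  ψd1 : ∀ l, deriv ψ l ^ 2 ≤ K * (Real.exp l + deriv m l)
  ψd2 : ∀ l, deriv ψ l ^ 2 ≤ K

/-- the profile at the cusps -/
structure ProfJ (M : ℝ → ℝ) (p1 ps K : ℝ) : Prop where
  lt : ps < p1
  sm : ContDiffOn ℝ ∞ M (Ioi ps)
  zero : ∀ p, p1 ≤ p → M p = 0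
  num : ∀ p, ps < p → CuspNum K (M p) (deriv M p) (deriv (deriv M) p) (deriv (deriv (deriv M)) p)
  lim : Tendsto M (𝓝[>] ps) atTop

/-- the region of normal forms -/
def FF : Set E :=
  {x | x ∈ X ∧ ‖x 0‖ < 2 * ‖x 1‖ ∧ ‖x 1‖ < 2 * ‖x 2‖ ∧ ‖x 2‖ < 2 ∧ ‖x 1‖ < 5 * ‖x 1 - x 0‖ ∧
    ‖x 2‖ < 5 * ‖x 2 - x 0‖ ∧ ∀ k, 1 < 5 * ‖1 - x k‖}

/-- the sets of points that may collide in `FF` -/
def sp : Option (Fin 3) → Finset (Fin 6)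
  | none => {0, 1, 2}
  | some i => ![{0, 1}, {2, 3}, {4, 5}] i

/-- the collision parameters -/
def wt : Option (Fin 3) → E → ℝ
  | none => fun x => ‖x 1 / x 2‖
  | some i => fun x => ![‖x 0 / x 1‖, ‖1 - x 1 / x 2‖, ‖x 2‖] i

def ex : Option (Fin 3) → ℝ
  | none => 0
  | some _ => 2 / 3

/-- the Deligne-Mostow data -/
structure Data (V : E → ℝ) (ξ : Finset (Fin 6) → E → ℝ) (C η : ℝ) : Prop where
  Cpos : 0 < C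
  ηpos : 0 < η
  posV : ∀ x ∈ X, 0 < V x
  posξ : ∀ S, ∀ x ∈ X, 0 < ξ S x
  eqξ : ∀ (σ : Equiv.Perm (Fin 6)) S, ∀ x ∈ X, ξ S (act σ x) = ξ (S.map σ.toEmbedding) x
  eqV : ∀ σ, ∃ c : E → ℂ, ∀ x ∈ X, ContDiffAt ℂ ∞ c x ∧ c x ≠ 0 ∧
    Real.log (V (act σ x)) = Real.log (V x) + -(2 / 3) * Real.log ‖c x‖
  compl : ∀ x ∈ X, ξ {3, 4, 5} x = ξ {0, 1, 2} x
  off : ∀ x ∈ FF, ∀ S, (∀ i, S ≠ sp i) → S ≠ {3, 4, 5} → ξ S x = 1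
  est : ∀ x ∈ FF, ∀ i, (η ≤ wt i x ∧ ξ (sp i) x = 1) ∨
    (wt i x ^ ex i ≤ C * (ξ (sp i) x * V x * ‖x 2‖ ^ (2 / 3 : ℝ)) ∧
      ξ (sp i) x * V x * ‖x 2‖ ^ (2 / 3 : ℝ) ≤ C * wt i x ^ ex i)
  v1 : ∀ x ∈ FF, Real.log (4 / wt none x) ≤ C * (V x * ‖x 2‖ ^ (2 / 3 : ℝ))
  v2 : ∀ θ : ℝ, 0 < θ → ∃ B, ∀ x ∈ FF, θ ≤ wt none x → V x * ‖x 2‖ ^ (2 / 3 : ℝ) ≤ B
  rep : ∀ x0 ∈ FF, ∃ (Z : E → C4) (ρ : Option (Fin 3) → C4), ContDiffAt ℂ ∞ Z x0 ∧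
    (∀ᶠ x in 𝓝 x0, V x = -(hL (Z x) (Z x)).re) ∧
    (∀ i, wt i x0 < η → ∀ᶠ x in 𝓝 x0, ξ (sp i) x * V x = ‖hL (Z x) (ρ i)‖ ^ 2) ∧
    (∀ i j, i ≠ j → wt i x0 < η → wt j x0 < η → hL (ρ i) (ρ j) = 0) ∧
    (∀ i, hL (ρ (some i)) (ρ (some i)) = 1) ∧ hL (ρ none) (ρ none) = 0 ∧
    ∀ W, W = (Matrix.of ![Z x0, fderiv ℂ Z x0 (Pi.single 0 1), fderiv ℂ Z x0 (Pi.single 1 1),
      fderiv ℂ Z x0 (Pi.single 2 1)]).det → W ≠ 0 ∧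
      ‖W‖ ^ 6 * (‖x0 0‖ ^ 4 * ‖x0 1‖ ^ 8 * ‖x0 2‖ ^ 12 * wt (some 1) x0 ^ 4) ≤ C

def prof (m M : ℝ → ℝ) (S : Finset (Fin 6)) : ℝ → ℝ :=
  if S.card = 2 then m else if S.card = 3 then fun p => M p / 2 else fun _ => 0

def Lg (ξ : Finset (Fin 6) → E → ℝ) (q : E → ℝ) (S : Finset (Fin 6)) (x : E) : ℝ :=
  q x + Real.log (ξ S x)

/-- the metric -/
def met (V : E → ℝ) (ξ : Finset (Fin 6) → E → ℝ) (m M : ℝ → ℝ) (q : E → ℝ) : Met :=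
  GG (fun x => Real.log (V x)) q (Lg ξ q) (prof m M)

/-- the exhaustion function -/
def psi (ξ : Finset (Fin 6) → E → ℝ) (q : E → ℝ) (ψ : ℝ → ℝ) (x : E) : ℝ :=
  q x + ∑ S : Finset (Fin 6), if S.card = 2 then ψ (Lg ξ q S x) else 0

/-- the function `q` -/
structure Sol (ξ : Finset (Fin 6) → E → ℝ) (m M : ℝ → ℝ) (ps : ℝ) (q : E → ℝ) : Prop where
  dom : ∀ x ∈ X, ∀ S : Finset (Fin 6), S.card = 3 → ps < Lg ξ q S x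
  eq : ∀ x ∈ X, Real.exp (q x) = 1 + ∑ S, prof m M S (Lg ξ q S x)
  inv : ∀ σ, ∀ x ∈ X, q (act σ x) = q x
  low : ∀ x ∈ X, -1 < q x

/-- collars: where the profiles are switched off -/
structure Col (V : E → ℝ) (ξ : Finset (Fin 6) → E → ℝ) (η l1 p1 : ℝ) (q : E → ℝ) (c1 c2 : ℝ) :
    Prop where
  l1lt : l1 < -1
  p1lt : p1 < -1
  pos : 0 < c1
  lo : ∀ x ∈ FF, c1 * (V x * ‖x 2‖ ^ (2 / 3 : ℝ)) ≤ Real.exp (q x)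
  hi : ∀ x ∈ FF, Real.exp (q x) ≤ c2 * (V x * ‖x 2‖ ^ (2 / 3 : ℝ))
  cusp : ∀ x ∈ FF, η / 2 ≤ wt none x → p1 < Lg ξ q (sp none) x
  root : ∀ x ∈ FF, ∀ i, η / 2 ≤ wt (some i) x → l1 < Lg ξ q (sp (some i)) x

/-- all the global data -/
structure All (V : E → ℝ) (ξ : Finset (Fin 6) → E → ℝ) (C η : ℝ) (m ψ M : ℝ → ℝ)
    (l1 p1 ps K : ℝ) (q : E → ℝ) (c1 c2 : ℝ) : Prop where
  data : Data V ξ C η
  pk : ProfK m ψ l1 K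
  pj : ProfJ M p1 ps K
  sol : Sol ξ m M ps q
  col : Col V ξ η l1 p1 q c1 c2

/-- smoothness at a point -/
structure Sm (V : E → ℝ) (ξ : Finset (Fin 6) → E → ℝ) (l1 p1 : ℝ) (q : E → ℝ) (x0 : E) :
    Prop where
  hV : ContDiffAt ℝ ∞ (fun x => Real.log (V x)) x0
  hq : ContDiffAt ℝ ∞ q x0
  hl : ∀ S : Finset (Fin 6), ContDiffAt ℝ ∞ (Lg ξ q S) x0 ∨
    ∀ᶠ x in 𝓝 x0, (S.card = 2 → l1 < Lg ξ q S x) ∧ (S.card = 3 → p1 < Lg ξ q S x)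

def pc (w : ℝ) : ℝ := 1 / (w ^ 2 * (1 + Real.log w ^ 2))

def pl (w : ℝ) : ℝ := 1 / (w ^ 2 * Real.log (4 / w) ^ (4 / 3 : ℝ))

/-- the majorant of the volume density on `FF` -/
def maj (x : E) : ℝ :=
  pc (wt (some 0) x) * pc (wt (some 1) x) * pc (wt (some 2) x) * pl (wt none x) /
    (‖x 1‖ ^ 2 * ‖x 2‖ ^ 2)

end Pool.Agent.P.MP_5d7cf0_gt
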