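import Pool.Agent.P.MP_5d7cf0_gt.St

/-!
From the region of normal forms to the whole moduli space.
-/

open Set Filter Topology MeasureTheory
open scoped ContDiff

namespace Pool.Agent.P.MP_5d7cf0_gt

namespace GlueP

theorem prof_map (m M : ℝ → ℝ) (S : Finset (Fin 6)) (σ : Equiv.Perm (Fin 6)) :
    prof m M (S.map σ.toEmbedding) = prof m M S := by
  simp only [prof, Finset.card_map]

theorem GG_reindex {ι : Type} [Fintype ι] (e : ι ≃ ι) (v q : E → ℝ) (L : ι → E → ℝ)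
    (μ : ι → ℝ → ℝ) : GG v q (fun i => L (e i)) (fun i => μ (e i)) = GG v q L μ := by
  funext x
  unfold GG
  rw [e.sum_comp fun i => deriv (μ i) (L i x) • sqd (L i) x]

theorem deriv_zero {f : ℝ → ℝ} {c x : ℝ} (h : ∀ l, c ≤ l → f l = 0) (hx : c < x) :
    deriv f x = 0 := by
  have : f =ᶠ[𝓝 x] fun _ => 0 := by
    filter_upwards [Ioi_mem_nhds hx] with y hy using h y (le_of_lt hy)
  rw [this.deriv_eq, deriv_const]

theorem area_nonneg {g : Met} {x : E} (hs : ∀ u v, g x u v = g x v u)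
    (hp : ∀ u, u ≠ 0 → 0 < g x u u) (u v : E) : 0 ≤ area g x u v := by
  have h0 : ∀ w, 0 ≤ g x w w := fun w => by
    by_cases hw : w = 0
    · simp [hw]
    · exact (hp w hw).le
  have := discrim_le_zero (a := g x u u) (b := 2 * g x u v) (c := g x v v) fun t => by
    have h := h0 (t • u + v)
    simp only [map_add, map_smul, add_apply, smul_apply, smul_eq_mul, hs v u] at h
    linarith
  unfold discrim at this
  unfold area
  nlinarith

variable {V : E → ℝ} {ξ : Finset (Fin 6) → E → ℝ} {C η : ℝ} {m ψ M : ℝ → ℝ} {l1 p1 ps K : ℝ}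
  {q : E → ℝ} {c1 c2 : ℝ}

theorem Lg_act (h : All V ξ C η m ψ M l1 p1 ps K q c1 c2) (σ : Equiv.Perm (Fin 6))
    (S : Finset (Fin 6)) {x : E} (hx : x ∈ X) :
    Lg ξ q (S.map σ.toEmbedding) x = Lg ξ q S (act σ x) := by
  simp only [Lg, h.sol.inv σ x hx, h.data.eqξ σ S x hx]

theorem sm_all (hA : S_Act) (hN : S_NF) (hS : S_Sm) (h : All V ξ C η m ψ M l1 p1 ps K q c1 c2)
    {x : E} (hx : x ∈ X) : Sm V ξ l1 p1 q x := by
  obtain ⟨σ, hσ⟩ := hN.2 x hx
  have h1 := hS _ _ _ _ _ _ _ _ _ _ _ _ _ _ h _ hσ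
  have hX := hA.1.mem_nhds hx
  have hd : ContDiffAt ℝ ∞ (act σ) x := ((hA.2 σ).1 x hx).2.2.restrict_scalars ℝ
  obtain ⟨c, hc⟩ := h.data.eqV σ
  refine ⟨?_, ?_, fun S => ?_⟩
  · have h2 : ContDiffAt ℝ ∞ (fun y => Real.log ‖c y‖) x :=
      (((hc x hx).1.restrict_scalars ℝ).norm ℂ (hc x hx).2.1).log (norm_ne_zero_iff.mpr (hc x hx).2.1)
    refine ((h1.hV.comp x hd).add (contDiffAt_const (c := (2 / 3 : ℝ)).mul h2)).congr_of_eventuallyEq ?_
    filter_upwards [hX] with y hy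
    simp only [Function.comp, (hc y hy).2.2]
    ring
  · refine (h1.hq.comp x hd).congr_of_eventuallyEq ?_
    filter_upwards [hX] with y hy using (h.sol.inv σ y hy).symm
  · obtain ⟨S, rfl⟩ := (Equiv.finsetCongr σ).surjective S
    have e : ∀ᶠ y in 𝓝 x, Lg ξ q (Equiv.finsetCongr σ S) y = Lg ξ q S (act σ y) := by
      filter_upwards [hX] with y hy using Lg_act h σ S hy
    rcases h1.hl S with h2 | h2
    · exact Or.inl ((h2.comp x hd).congr_of_eventuallyEq e)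
    · right
      filter_upwards [e, hd.continuousAt.eventually h2] with y h3 h4
      rw [h3]
      simpa only [Equiv.finsetCongr_apply, Finset.card_map] using h4

theorem prof_cases (h : All V ξ C η m ψ M l1 p1 ps K q c1 c2) {x : E} (hx : x ∈ X)
    (hs : Sm V ξ l1 p1 q x) (S : Finset (Fin 6)) :
    (ContDiffAt ℝ ∞ (Lg ξ q S) x ∧ ContDiffAt ℝ ∞ (prof m M S) (Lg ξ q S x)) ∨
      ∀ᶠ y in 𝓝 x, deriv (prof m M S) (Lg ξ q S y) = 0 := by
  rcases hs.hl S with h1 | h1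
  · refine Or.inl ⟨h1, ?_⟩
    unfold prof
    split_ifs with h2 h3
    · exact h.pk.sm.contDiffAt
    · exact (h.pj.sm.contDiffAt (Ioi_mem_nhds (h.sol.dom x hx S h3))).div_const 2
    · exact contDiffAt_const
  · right
    filter_upwards [h1] with y hy
    unfold prof
    split_ifs with h2 h3
    · exact deriv_zero h.pk.zero (hy.1 h2)
    · exact deriv_zero (fun l hl => by rw [h.pj.zero l hl, zero_div]) (hy.2 h3)
    · exact deriv_const _ _

theorem met_inv (hA : S_Act) (hN : S_NF) (hS : S_Sm) (hG : S_GGnat)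
    (h : All V ξ C η m ψ M l1 p1 ps K q c1 c2) (σ : Equiv.Perm (Fin 6)) {x : E} (hx : x ∈ X)
    (u v : E) : met V ξ m M q (act σ x) (fderiv ℝ (act σ) x u) (fderiv ℝ (act σ) x v) =
      met V ξ m M q x u v := by
  obtain ⟨h1, -, h2⟩ := (hA.2 σ).1 x hx
  have hs := sm_all hA hN hS h h1
  have hX := hA.1.mem_nhds hx
  obtain ⟨c, hc⟩ := h.data.eqV σ
  have two : (2 : WithTop ℕ∞) ≤ ∞ := WithTop.coe_le_coe.mpr (le_top (a := (2 : ℕ∞)))
  have := hG _ (fun x => Real.log (V x)) q (fun x => Real.log (V x)) q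
    (fun S => Lg ξ q (Equiv.finsetCongr σ S)) (Lg ξ q) (prof m M) (act σ) c (2 / 3) x
    (h2.of_le two) ((hc x hx).1.of_le two) (hc x hx).2.1 (hs.hV.of_le two)
    (hs.hq.differentiableAt (by simp))
    (fun S => (prof_cases h h1 hs S).imp (fun h3 => h3.1.differentiableAt (by simp))
      fun h3 => h3.self_of_nhds)
    (by
      filter_upwards [hX] with y hy
      rw [(hc y hy).2.2]
      ring)
    (by filter_upwards [hX] with y hy using (h.sol.inv σ y hy).symm)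
    (fun S => by filter_upwards [hX] with y hy using Lg_act h σ S hy) u v
  unfold met
  rw [← this, ← GG_reindex (Equiv.finsetCongr σ) _ q (Lg ξ q) (prof m M)]
  simp only [Equiv.finsetCongr_apply, prof_map]

theorem act_inj (hA : S_Act) (σ : Equiv.Perm (Fin 6)) {x : E} (hx : x ∈ X) :
    Function.Injective (fderiv ℝ (act σ) x) := by
  obtain ⟨h1, -, h2⟩ := (hA.2 σ).1 x hx
  have h3 := ((hA.2 σ⁻¹).1 _ h1).2.2
  have e : (act σ⁻¹ ∘ act σ) =ᶠ[𝓝 x] id := by
    filter_upwards [hA.1.mem_nhds hx] with y hy using ((hA.2 σ).1 y hy).2.1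
  have h4 := e.fderiv_eq (𝕜 := ℝ)
  rw [fderiv_comp x ((h3.restrict_scalars ℝ).differentiableAt (by simp))
    ((h2.restrict_scalars ℝ).differentiableAt (by simp)), fderiv_id] at h4
  intro a b hab
  have h5 : ∀ w, fderiv ℝ (act σ⁻¹) (act σ x) (fderiv ℝ (act σ) x w) = w := fun w =>
    DFunLike.congr_fun h4 w
  rw [← h5 a, hab, h5]

theorem psi_act (h : All V ξ C η m ψ M l1 p1 ps K q c1 c2) (σ : Equiv.Perm (Fin 6)) {x : E}
    (hx : x ∈ X) : psi ξ q ψ (act σ x) = psi ξ q ψ x := by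
  unfold psi
  rw [h.sol.inv σ x hx, ← (Equiv.finsetCongr σ).sum_comp
    fun S => if S.card = 2 then ψ (Lg ξ q S x) else 0]
  simp only [Equiv.finsetCongr_apply, Finset.card_map, Lg_act h σ _ hx]

theorem psi_diff (h : All V ξ C η m ψ M l1 p1 ps K q c1 c2) {x : E} (hs : Sm V ξ l1 p1 q x) :
    DifferentiableAt ℝ (psi ξ q ψ) x := by
  refine (hs.hq.differentiableAt (by simp)).add (DifferentiableAt.fun_sum fun S _ => ?_)
  split_ifs with h2
  · rcases hs.hl S with h1 | h1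
    · exact (h.pk.dψ _).comp x (h1.differentiableAt (by simp))
    · refine (differentiableAt_const (0 : ℝ)).congr_of_eventuallyEq ?_
      filter_upwards [h1] with y hy using h.pk.ψzero _ (hy.1 h2).le
  · exact differentiableAt_const _

end GlueP

open GlueP

theorem glue (hA : S_Act) (hN : S_NF) (hD : S_Data) (hPK : S_ProfK) (hPJ : S_ProfJ)
    (hSol : S_Sol) (hCol : S_Col) (hS : S_Sm) (hO : S_Out) (hP : S_Prop) (hC : S_Comp)
    (hVT : S_VolT) (hVI : S_VolI) (hNat : S_Nat) (hG : S_GGnat) (hGs : S_GGsm) :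
    ∃ g : Met, ContDiffOn ℝ ∞ g X ∧ (∀ x ∈ X, ∀ u v, g x u v = g x v u) ∧
      (∀ x ∈ X, ∀ u, u ≠ 0 → 0 < g x u u) ∧
      (∀ σ, ∀ x ∈ X, ∀ u v,
        g (act σ x) (fderiv ℝ (act σ) x u) (fderiv ℝ (act σ) x v) = g x u v) ∧
      Complete g ∧ vol g < ⊤ ∧
      ∃ a : ℝ, 0 < a ∧ ∀ x ∈ X, ∀ u v, -a ≤ sec g x u v ∧ sec g x u v ≤ 0 := by
  obtain ⟨C, η, hd⟩ := hD
  obtain ⟨p1, hp1⟩ := hCol _ _ _ _ hd
  obtain ⟨M, ps, K1, hM⟩ := hPJ p1
  obtain ⟨l1, hl1⟩ := hp1 ps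
  obtain ⟨m, ψ, K2, hm⟩ := hPK l1
  have hk := hm (max K1 K2) (le_max_right _ _)
  have hj := hM (max K1 K2) (le_max_left _ _)
  obtain ⟨q, hq⟩ := hSol _ _ _ _ _ _ _ _ _ _ _ hd hk hj
  obtain ⟨c1, c2, hc⟩ := hl1 m ψ M _ q hk hj hq
  have h : All _ _ C η m ψ M l1 p1 ps (max K1 K2) q c1 c2 := ⟨hd, hk, hj, hq, hc⟩
  obtain ⟨a, B, ha, ho⟩ := hO _ _ _ _ _ _ _ _ _ _ _ _ _ _ h
  have hi := fun σ x hx => met_inv hA hN hS hG h σ (x := x) hx
  have hsm := fun x hx => hGs _ _ q _ (prof m M) x (sm_all hA hN hS h (x := x) hx).hV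
    (sm_all hA hN hS h hx).hq (prof_cases h hx (sm_all hA hN hS h hx))
  have hpr := hP _ _ _ _ _ _ _ _ _ _ _ _ _ _ h
  have hpa := fun σ x hx => psi_act h σ (x := x) hx
  have hpd := fun x hx => psi_diff h (sm_all hA hN hS h (x := x) hx)
  replace ho := ho _ rfl
  change ∀ x ∈ X, ContDiffAt ℝ ∞ (met _ _ m M q) x ∧
    ∀ᶠ y in 𝓝 x, ∀ a b, met _ _ m M q y a b = met _ _ m M q y b a at hsm
  generalize met _ _ m M q = g at ho hi hsm
  generalize psi _ q ψ = f at ho hpr hpa hpd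
  have hda : ∀ σ, ∀ x ∈ X, ContDiffAt ℝ ∞ (act σ) x := fun σ x hx =>
    ((hA.2 σ).1 x hx).2.2.restrict_scalars ℝ
  have pos : ∀ x ∈ X, ∀ u, u ≠ 0 → 0 < g x u u := fun x hx u hu => by
    obtain ⟨σ, hσ⟩ := hN.2 x hx
    rw [← hi σ x hx]
    exact (ho _ hσ).1 _ fun h0 => hu (act_inj hA σ hx (by rw [h0, map_zero]))
  have hcd : ContDiffOn ℝ ∞ g X := fun x hx => (hsm x hx).1.contDiffWithinAt
  refine ⟨g, hcd, fun x hx => (hsm x hx).2.self_of_nhds, pos, hi, ?_, ?_, a, ha,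
    fun x hx u v => ?_⟩
  · refine hC g f B hcd.continuousOn pos (fun x hx => ⟨hpd x hx, fun u => ?_⟩) fun R => ?_
    · obtain ⟨σ, hσ⟩ := hN.2 x hx
      have e : f =ᶠ[𝓝 x] f ∘ act σ := by
        filter_upwards [hA.1.mem_nhds hx] with y hy using (hpa σ y hy).symm
      rw [e.fderiv_eq, fderiv_comp x (hpd _ hσ.1) ((hda σ x hx).differentiableAt (by simp)),
        ← hi σ x hx]
      exact (ho _ hσ).2.2.2 _
    · obtain ⟨T, h1, h2, h3⟩ := hpr R
      refine ⟨⋃ σ, act σ '' T, isCompact_iUnion fun σ => h1.image_of_continuousOn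
        fun x hx => (hda σ x (h2 hx)).continuousAt.continuousWithinAt, ?_, fun x hx hR => ?_⟩
      · rintro _ ⟨_, ⟨σ, rfl⟩, x, hx, rfl⟩
        exact ((hA.2 σ).1 x (h2 hx)).1
      · obtain ⟨σ, hσ⟩ := hN.2 x hx
        exact mem_iUnion.mpr ⟨σ⁻¹, _, h3 _ hσ (by rwa [hpa σ x hx]), ((hA.2 σ).1 x hx).2.1⟩
  · have h1 : X ⊆ ⋃ σ, act σ '' FF := fun x hx => by
      obtain ⟨σ, hσ⟩ := hN.2 x hx
      exact mem_iUnion.mpr ⟨σ⁻¹, _, hσ, ((hA.2 σ).1 x hx).2.1⟩
    refine (lintegral_mono_set h1).trans_lt ((lintegral_iUnion_le _ _).trans_lt ?_)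
    rw [tsum_fintype]
    refine ENNReal.sum_lt_top.mpr fun σ _ => ?_
    rw [hVT g (act σ) FF hN.1.measurableSet (fun x hx y hy e => by
        rw [← ((hA.2 σ).1 x hx.1).2.1, e, ((hA.2 σ).1 y hy.1).2.1])
      (fun x hx => (hda σ x hx.1).differentiableAt (by simp)) fun x hx => hi σ x hx.1]
    refine (setLIntegral_mono' hN.1.measurableSet
      (g := fun x => ENNReal.ofReal |B| * ENNReal.ofReal (maj x)) fun x hx => ?_).trans_lt ?_
    · refine (ho x hx).2.2.1.trans ?_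
      rw [← ENNReal.ofReal_mul (abs_nonneg B)]
      refine ENNReal.ofReal_le_ofReal (mul_le_mul_of_nonneg_right (le_abs_self B) ?_)
      have h4 : 0 ≤ Real.log (4 / wt none x) := by
        have h2 : ‖x 1‖ < 2 * ‖x 2‖ := hx.2.2.1
        have h3 : 0 < ‖x 2‖ := by linarith [norm_nonneg (x 1)]
        by_cases h0 : wt none x = 0
        · simp [h0]
        · refine Real.log_nonneg ((one_le_div (lt_of_le_of_ne (norm_nonneg _) (Ne.symm h0))).mpr ?_)
          change ‖x 1 / x 2‖ ≤ 4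
          rw [norm_div, div_le_iff₀ h3]
          linarith
      unfold maj pc pl
      positivity
    · rw [lintegral_const_mul' _ _ ENNReal.ofReal_ne_top]
      exact ENNReal.mul_lt_top ENNReal.ofReal_lt_top hVI
  · obtain ⟨σ, hσ⟩ := hN.2 x hx
    have h1 := hNat g g (act σ) x (hda σ x hx) (act_inj hA σ hx) (hsm _ hσ.1).1 (hsm _ hσ.1).2
      (ho _ hσ).1 (by filter_upwards [hA.1.mem_nhds hx] with y hy a b using (hi σ y hy a b).symm) u v
    have h2 := (ho _ hσ).2.1 (fderiv ℝ (act σ) x u) (fderiv ℝ (act σ) x v)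
    have h3 : area g (act σ x) (fderiv ℝ (act σ) x u) (fderiv ℝ (act σ) x v) = area g x u v := by
      simp only [area, hi σ x hx]
    rw [← h1, h3] at h2
    have h4 := area_nonneg (hsm x hx).2.self_of_nhds (pos x hx) u v
    refine ⟨?_, div_nonpos_of_nonpos_of_nonneg h2.2 h4⟩
    unfold sec
    rcases h4.eq_or_lt with h5 | h5
    · rw [← h5, div_zero]; linarith
    · rw [le_div_iff₀ h5]; linarith [h2.1]

end Pool.Agent.P.MP_5d7cf0_gt
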