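import Pool.Agent.P.MP_5d7cf0_gt.Hol1

/-!
The periods are holomorphic in the points and satisfy the first order system.
-/

open Set Filter Topology MeasureTheory
open scoped ContDiff

noncomputable section

namespace Pool.Agent.P.MP_5d7cf0_gt

namespace HolP

/-- the line integral with extra poles -/
def JJ (m : ℕ) (x : ℂ) (e : Fin 5 → ℕ) (l : Fin 5 → ℂ) : ℂ :=
  ∫ y : ℝ, gg m e l (x + y * Complex.I)

/-- the local data -/
structure Loc (m : ℕ) (x : ℂ) (U : Set (Fin 5 → ℂ)) (c : ℝ) : Prop where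
  op : IsOpen U
  sub : U ⊆ O
  pos : 0 < c
  mem : ∀ l ∈ U, x ∈ Os l m
  low : ∀ l ∈ U, ∀ (y : ℝ) (k : Fin 5), c * (1 + |y|) ≤ ‖x + y * Complex.I - l k‖

variable {m : ℕ} {x : ℂ} {U : Set (Fin 5 → ℂ)} {c : ℝ}

theorem Loc.bd (h : Loc m x U c) (e : Fin 5 → ℕ) : ∃ C : ℝ, 0 ≤ C ∧ ∀ l ∈ U, ∀ y : ℝ,
    ‖gg m e l (x + y * Complex.I)‖ ≤ C * (1 + |y|) ^ (-(5 / 3) : ℝ) :=
  ⟨c ^ (-(5 / 3) : ℝ) * ∏ k, c⁻¹ ^ e k, by have := h.pos; positivity, fun l hl y =>
    gg_bound m e l _ c _ h.pos (by have := abs_nonneg y; linarith) (h.low l hl y)⟩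

theorem Loc.int (hF : S_Fm) (h : Loc m x U c) (e : Fin 5 → ℕ) (l : Fin 5 → ℂ) (hl : l ∈ U) :
    Integrable fun y : ℝ => gg m e l (x + y * Complex.I) := by
  obtain ⟨C, -, hC⟩ := h.bd e
  exact (int_wt.const_mul C).mono'
    (gg_cont hF m e l (h.sub hl) x (h.mem l hl)).aestronglyMeasurable
    (Eventually.of_forall fun y => hC l hl y)

theorem Loc.hfd (hF : S_Fm) (h : Loc m x U c) (e : Fin 5 → ℕ) (l : Fin 5 → ℂ) (hl : l ∈ U) :
    HasFDerivAt (JJ m x e) (dd fun k => (1 / 3 + e k) * JJ m x (e + Pi.single k 1) l) l := by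
  choose C hC0 hC using fun k : Fin 5 => h.bd (e + Pi.single k 1)
  have hU : U ∈ 𝓝 l := h.op.mem_nhds hl
  let F : (Fin 5 → ℂ) → ℝ → ℂ := fun l y => gg m e l (x + y * Complex.I)
  let F' : (Fin 5 → ℂ) → ℝ → (Fin 5 → ℂ) →L[ℂ] ℂ := fun l y =>
    dd fun k => (1 / 3 + e k) * gg m (e + Pi.single k 1) l (x + y * Complex.I)
  let bound : ℝ → ℝ := fun y =>
    (∑ k, ‖(1 / 3 + e k : ℂ)‖ * C k) * (1 + |y|) ^ (-(5 / 3) : ℝ)
  have a1 : ∀ᶠ l' in 𝓝 l, AEStronglyMeasurable (F l') (volume : Measure ℝ) := by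
    filter_upwards [hU] with l' hl'
    exact (gg_cont hF m e l' (h.sub hl') x (h.mem l' hl')).aestronglyMeasurable
  have a2 : Integrable (F l) := h.int hF e l hl
  have a3 : AEStronglyMeasurable (F' l) (volume : Measure ℝ) := by
    have hdd : Continuous dd := by unfold dd; fun_prop
    refine (hdd.comp (continuous_pi fun k => ?_)).aestronglyMeasurable
    exact continuous_const.mul (gg_cont hF m _ l (h.sub hl) x (h.mem l hl))
  have a4 : ∀ᵐ y ∂(volume : Measure ℝ), ∀ l' ∈ U, ‖F' l' y‖ ≤ bound y :=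
    Eventually.of_forall fun y l' hl' => by
      refine (dd_norm _).trans ?_
      simp only [bound]
      rw [Finset.sum_mul]
      refine Finset.sum_le_sum fun k _ => ?_
      rw [norm_mul, mul_assoc]
      exact mul_le_mul_of_nonneg_left (hC k l' hl' y) (norm_nonneg _)
  have a5 : Integrable bound := int_wt.const_mul _
  have a6 : ∀ᵐ y ∂(volume : Measure ℝ), ∀ l' ∈ U, HasFDerivAt (F · y) (F' l' y) l' :=
    Eventually.of_forall fun y l' hl' => gg_fderiv m e l' _ (Os_line (h.mem l' hl') y)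
  have H := hasFDerivAt_integral_of_dominated_of_fderiv_le hU a1 a2 a3 a4 a5 a6
  refine H.congr_fderiv ?_
  have a7 : Integrable (F' l) := a5.mono' a3 (a4.mono fun y hy => hy l hl)
  refine ContinuousLinearMap.ext fun v => ?_
  rw [ContinuousLinearMap.integral_apply a7]
  simp only [F', dd, sum_apply, smul_apply,
    ContinuousLinearMap.proj_apply, smul_eq_mul]
  rw [integral_finsetSum _ fun k _ => ((h.int hF _ l hl).const_mul _).mul_const _]
  refine Finset.sum_congr rfl fun k _ => ?_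
  rw [integral_mul_const, integral_const_mul]
  rfl

theorem Loc.smooth (hF : S_Fm) (h : Loc m x U c) (e : Fin 5 → ℕ) :
    ContDiffOn ℂ ∞ (JJ m x e) U := by
  rw [contDiffOn_infty]
  intro n
  induction n generalizing e with
  | zero =>
    rw [Nat.cast_zero, contDiffOn_zero]
    exact fun l hl => (h.hfd hF e l hl).continuousAt.continuousWithinAt
  | succ n ih =>
    rw [Nat.cast_succ, contDiffOn_succ_iff_fderiv_of_isOpen h.op]
    refine ⟨fun l hl => (h.hfd hF e l hl).differentiableAt.differentiableWithinAt,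
      by simp, ?_⟩
    refine ContDiffOn.congr (f := fun l => dd fun k =>
      (1 / 3 + e k) * JJ m x (e + Pi.single k 1) l) ?_ fun l hl => (h.hfd hF e l hl).fderiv
    unfold dd
    exact ContDiffOn.sum fun k _ => (contDiffOn_const.mul (ih _)).smul contDiffOn_const

theorem Loc.rel (hF : S_Fm) (h : Loc m x U c) (l : Fin 5 → ℂ) (hl : l ∈ U) (a : ℂ) :
    ∑ k, (l k - a) * JJ m x (Pi.single k 1) l = -2 * JJ m x 0 l := by
  have hd : ∀ y : ℝ, HasDerivAt
      (fun y : ℝ => (x + y * Complex.I - a) * fm l m (x + y * Complex.I))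
      (-(Complex.I / 3) * (2 * gg m 0 l (x + y * Complex.I) +
        ∑ k, (l k - a) * gg m (Pi.single k 1) l (x + y * Complex.I))) y := by
    intro y
    have hz := Os_line (h.mem l hl) y
    have h1 := ((hasDerivAt_id _).sub_const a).mul ((hF l (h.sub hl) m).2.2.1 _ hz)
    have h2 : HasDerivAt (fun w : ℂ => x + w * Complex.I) Complex.I (y : ℂ) := by
      simpa using ((hasDerivAt_id (y : ℂ)).mul_const Complex.I).const_add x
    have h3 := (HasDerivAt.comp (y : ℂ) (h₂ := fun z => (z - a) * fm l m z)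
      (h := fun w : ℂ => x + w * Complex.I) h1 h2).comp_ofReal
    refine h3.congr_deriv ?_
    set z := x + y * Complex.I with hzdef
    have h4 : ∀ k, (l k - a) * gg m (Pi.single k 1) l z =
        (z - a) * fm l m z * (z - l k)⁻¹ - fm l m z := by
      intro k
      have := gg_add m 0 l z k
      rw [zero_add, gg_zero] at this
      rw [this]
      field_simp [Os_ne hz k]
      ring
    simp only [h4, gg_zero, Finset.sum_sub_distrib, ← Finset.mul_sum, Finset.sum_const,
      Finset.card_univ, Fintype.card_fin, id]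
    simp only [nsmul_eq_mul, Nat.cast_ofNat]
    ring
  have hi0 := h.int hF 0 l hl
  have hik : ∀ k : Fin 5, Integrable fun y : ℝ =>
      (l k - a) * gg m (Pi.single k 1) l (x + y * Complex.I) := fun k =>
    (h.int hF _ l hl).const_mul _
  have hs := integrable_finsetSum Finset.univ fun k _ => hik k
  obtain ⟨C, hC0, hC⟩ := h.bd 0
  have hb : ∀ y : ℝ, ‖(x + y * Complex.I - a) * fm l m (x + y * Complex.I)‖ ≤
      ((‖x - a‖ + 1) * C) * (1 + |y|) ^ (-(2 / 3) : ℝ) := by
    intro y
    have h0 : 0 < 1 + |y| := by positivity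
    have h1 : ‖x + y * Complex.I - a‖ ≤ (‖x - a‖ + 1) * (1 + |y|) := by
      have h2 : x + y * Complex.I - a = (x - a) + y * Complex.I := by ring
      have h3 : ‖(y * Complex.I : ℂ)‖ = |y| := by simp
      rw [h2]
      refine (norm_add_le _ _).trans ?_
      rw [h3]
      nlinarith [norm_nonneg (x - a), abs_nonneg y]
    have h2 := hC l hl y
    rw [gg_zero] at h2
    have h3 : (1 + |y|) ^ (-(2 / 3) : ℝ) = (1 + |y|) * (1 + |y|) ^ (-(5 / 3) : ℝ) := by
      rw [← Real.rpow_one_add' h0.le (by norm_num)]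
      norm_num
    rw [norm_mul, h3]
    calc _ ≤ ((‖x - a‖ + 1) * (1 + |y|)) * (C * (1 + |y|) ^ (-(5 / 3) : ℝ)) :=
          mul_le_mul h1 h2 (norm_nonneg _) (by positivity)
      _ = _ := by ring
  have ht : ∀ F : Filter ℝ, Tendsto (fun y : ℝ => |y|) F atTop →
      Tendsto (fun y : ℝ => (x + y * Complex.I - a) * fm l m (x + y * Complex.I)) F (𝓝 0) := by
    intro F hF'
    refine squeeze_zero_norm hb ?_
    have h1 := (tendsto_rpow_neg_atTop (y := 2 / 3) (by norm_num)).comp
      (tendsto_atTop_add_const_left F 1 hF')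
    simpa using h1.const_mul ((‖x - a‖ + 1) * C)
  have H := integral_of_hasDerivAt_of_tendsto hd (((hi0.const_mul 2).add hs).const_mul _)
    (ht _ tendsto_abs_atBot_atTop) (ht _ tendsto_abs_atTop_atTop)
  rw [integral_const_mul, integral_add (hi0.const_mul 2) hs, integral_const_mul,
    integral_finsetSum _ fun k _ => hik k, sub_zero, mul_eq_zero] at H
  simp only [integral_const_mul] at H
  rcases H with H | H
  · exact absurd H (by simp)
  · unfold JJ
    linear_combination H

theorem Loc.two (hF : S_Fm) (h : Loc m x U c) (l : Fin 5 → ℂ) (hl : l ∈ U) (i j : Fin 5)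
    (hij : i ≠ j) : JJ m x (Pi.single i 1 + Pi.single j 1) l =
      (l i - l j)⁻¹ * (JJ m x (Pi.single i 1) l - JJ m x (Pi.single j 1) l) := by
  have hne : l i - l j ≠ 0 := by
    intro h0
    exact hij ((h.sub hl).injective (by simp only [sub_eq_zero.1 h0]))
  unfold JJ
  rw [← integral_sub (h.int hF _ l hl) (h.int hF _ l hl), ← integral_const_mul]
  refine integral_congr_ae (Eventually.of_forall fun y => ?_)
  have hz := Os_line (h.mem l hl) y
  have hi := gg_add m 0 l (x + y * Complex.I) i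
  have hj := gg_add m 0 l (x + y * Complex.I) j
  rw [zero_add] at hi hj
  beta_reduce
  rw [gg_add, hi, hj]
  have h1 := Os_ne hz i
  have h2 := Os_ne hz j
  field_simp
  ring

/-- three times a first derivative of a period -/
def PL (k : Fin 5) (l : Fin 5 → ℂ) (m : Fin 6) : ℂ :=
  3 * fderiv ℂ (fun l => LL l m) l (Pi.single k 1)

theorem local_facts (hF : S_Fm) (hS : S_Str) (l : Fin 5 → ℂ) (hl : l ∈ O) (m : Fin 6) :
    ContDiffAt ℂ ∞ (fun l => LL l m) l ∧ (∀ k, ContDiffAt ℂ ∞ (fun l => PL k l m) l) ∧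
    (∀ a, ∑ k, (l k - a) * PL k l m = -2 * LL l m) ∧
    ∀ i j, i ≠ j → fderiv ℂ (fun l => PL i l m) l (Pi.single j 1) =
      (3 * (l i - l j))⁻¹ * (PL i l m - PL j l m) := by
  obtain ⟨U, c, hU, hlU, hsub, hc, hh⟩ := exists_nhd m l hl _ (mid_mem l hl m)
  have h : Loc m (mid l m) U c := ⟨hU, hsub, hc, fun l' h' => (hh l' h').1,
    fun l' h' => (hh l' h').2⟩
  have e0 : ∀ l' ∈ U, LL l' m = JJ m (mid l m) 0 l' := by
    intro l' hl'
    rw [← ((hS l' (hsub hl') m).2.2.2.1 _ (Os_sub _ _ (h.mem l' hl'))).2.1]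
    simp only [JJ, gg_zero]
  have ev0 : ∀ l' ∈ U, (fun l => LL l m) =ᶠ[𝓝 l'] JJ m (mid l m) 0 := fun l' hl' => by
    filter_upwards [hU.mem_nhds hl'] with l'' h'' using e0 l'' h''
  have e1 : ∀ k, ∀ l' ∈ U, PL k l' m = JJ m (mid l m) (Pi.single k 1) l' := by
    intro k l' hl'
    unfold PL
    rw [(ev0 l' hl').fderiv_eq, (h.hfd hF 0 l' hl').fderiv, dd_single, zero_add]
    simp
  have ev1 : ∀ k, (fun l => PL k l m) =ᶠ[𝓝 l] JJ m (mid l m) (Pi.single k 1) := fun k => by
    filter_upwards [hU.mem_nhds hlU] with l'' h'' using e1 k l'' h''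
  refine ⟨((h.smooth hF 0).contDiffAt (hU.mem_nhds hlU)).congr_of_eventuallyEq (ev0 l hlU),
    fun k => ((h.smooth hF _).contDiffAt (hU.mem_nhds hlU)).congr_of_eventuallyEq (ev1 k),
    fun a => ?_, fun i j hij => ?_⟩
  · simp only [e1 _ l hlU, e0 l hlU]
    exact h.rel hF l hlU a
  · rw [(ev1 i).fderiv_eq, (h.hfd hF _ l hlU).fderiv, dd_single, h.two hF l hlU i j hij,
      e1 i l hlU, e1 j l hlU, Pi.single_eq_of_ne hij.symm, mul_inv]
    simp only [Nat.cast_zero, add_zero]
    ring

/-- the linear combination that gives the coordinates -/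
def cmb : (Fin 6 → ℂ) →L[ℂ] C4 :=
  LinearMap.toContinuousLinearMap
    { toFun := fun f => ![f 2 + f 4, f 2 - f 1, f 2 - f 3 + f 4, f 4]
      map_add' := fun f g => by
        ext i; fin_cases i <;> simp <;> ring
      map_smul' := fun a f => by
        ext i; fin_cases i <;> simp <;> ring }

theorem YY_eq : YY = cmb ∘ LL := rfl

end HolP

open HolP in
theorem pHol (hF : S_Fm) (hS : S_Str) : S_Hol := by
  have hL : ∀ l ∈ O, ContDiffAt ℂ ∞ LL l := fun l hl =>
    contDiffAt_pi.2 fun m => (local_facts hF hS l hl m).1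
  have hP : ∀ k, ∀ l ∈ O, ContDiffAt ℂ ∞ (PL k) l := fun k l hl =>
    contDiffAt_pi.2 fun m => (local_facts hF hS l hl m).2.1 k
  refine ⟨isOpen_O, fun k => cmb ∘ PL k, ?_, ?_, fun l hl => ⟨fun k => ?_, ?_, ?_, ?_⟩⟩
  · rw [YY_eq]
    exact fun l hl => (cmb.contDiff.contDiffAt.comp l (hL l hl)).contDiffWithinAt
  · exact fun k l hl => (cmb.contDiff.contDiffAt.comp l (hP k l hl)).contDiffWithinAt
  · have hd := (hL l hl).differentiableAt (by simp)
    rw [YY_eq, fderiv_comp l cmb.differentiableAt hd, cmb.fderiv]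
    simp only [ContinuousLinearMap.comp_apply, Function.comp_apply]
    rw [← map_smul]
    congr 1
    funext m
    rw [fderiv_pi fun m => differentiableAt_pi.1 hd m]
    simp [PL]
  · simp only [Function.comp_apply]
    rw [← map_sum, ← map_zero cmb]
    congr 1
    funext m
    have h0 := (local_facts hF hS l hl m).2.2.1 0
    have h1 := (local_facts hF hS l hl m).2.2.1 1
    simp only [sub_mul, Finset.sum_sub_distrib, zero_mul, one_mul] at h0 h1
    simp only [Finset.sum_apply, Pi.zero_apply]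
    simp only [Finset.sum_const_zero] at h0
    linear_combination h0 - h1
  · simp only [Function.comp_apply, YY_eq]
    simp only [← map_smul]
    rw [← map_sum]
    congr 1
    funext m
    have h0 := (local_facts hF hS l hl m).2.2.1 0
    simpa using h0
  · intro i j hij
    have hd := (hP i l hl).differentiableAt (by simp)
    rw [fderiv_comp l cmb.differentiableAt hd, cmb.fderiv]
    simp only [ContinuousLinearMap.comp_apply, Function.comp_apply]
    rw [← map_sub, ← map_smul]
    congr 1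
    funext m
    rw [fderiv_pi fun m => differentiableAt_pi.1 hd m]
    simpa using (local_facts hF hS l hl m).2.2.2 i j hij

end Pool.Agent.P.MP_5d7cf0_gt
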