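import Pool.Agent.P.MP_5d7cf0_gt.St

/-!
Line integrals with extra poles and their derivatives with respect to the points.
-/

open Set Filter Topology MeasureTheory
open scoped ContDiff

noncomputable section

namespace Pool.Agent.P.MP_5d7cf0_gt.HolP

theorem isOpen_O : IsOpen O := by
  have h : O = ⋂ a : Fin 5, ⋂ b : Fin 5, ⋂ _ : a < b, {l : Fin 5 → ℂ | (l a).re < (l b).re} := by
    ext l
    simp only [O, StrictMono, mem_ofPred_eq, mem_iInter]
  rw [h]
  refine isOpen_iInter_of_finite fun a => isOpen_iInter_of_finite fun b =>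
    isOpen_iInter_of_finite fun _ => isOpen_lt (by fun_prop) (by fun_prop)

theorem mid_mem (l : Fin 5 → ℂ) (hl : l ∈ O) (m : Fin 6) : mid l m ∈ Os l m := by
  have h01 : (l 0).re < (l 1).re := hl (by decide : (0 : Fin 5) < 1)
  have h12 : (l 1).re < (l 2).re := hl (by decide : (1 : Fin 5) < 2)
  have h23 : (l 2).re < (l 3).re := hl (by decide : (2 : Fin 5) < 3)
  have h34 : (l 3).re < (l 4).re := hl (by decide : (3 : Fin 5) < 4)
  intro k
  fin_cases m <;> fin_cases k <;> simp [mid] <;> linarith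

theorem Os_sub (l : Fin 5 → ℂ) (m : ℕ) : Os l m ⊆ Cs l m := by
  intro z hz k
  have := hz k
  split_ifs at this ⊢ <;> exact this.le

theorem Os_line {l : Fin 5 → ℂ} {m : ℕ} {x : ℂ} (hx : x ∈ Os l m) (y : ℝ) :
    x + y * Complex.I ∈ Os l m := by
  intro k
  simpa using hx k

theorem Os_ne {l : Fin 5 → ℂ} {m : ℕ} {z : ℂ} (hz : z ∈ Os l m) (k : Fin 5) : z - l k ≠ 0 := by
  intro h
  have h1 := hz k
  have h2 : z.re = (l k).re := by rw [sub_eq_zero.1 h]
  split_ifs at h1 <;> linarith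

theorem cp_deriv (w : ℂ) (hw : 0 < w.re) : HasDerivAt cp (-(1 / 3) * cp w * w⁻¹) w := by
  have hw0 : w ≠ 0 := by
    intro h; rw [h] at hw; simp at hw
  have h := (Complex.hasStrictDerivAt_cpow_const (c := -(1 / 3)) (x := w) (Or.inl hw)).hasDerivAt
  refine h.congr_deriv ?_
  rw [Complex.cpow_sub _ _ hw0, Complex.cpow_one, cp]
  ring

/-- one factor -/
def ph (b : Prop) [Decidable b] (e : ℕ) (z a : ℂ) : ℂ :=
  cp (if b then z - a else a - z) * (z - a)⁻¹ ^ e

theorem ph_deriv (b : Prop) [Decidable b] (e : ℕ) (z a : ℂ)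
    (h : if b then a.re < z.re else z.re < a.re) :
    HasDerivAt (ph b e z) ((1 / 3 + e) * ph b e z a * (z - a)⁻¹) a := by
  have hne : z - a ≠ 0 := by
    intro h0
    have h2 : z.re = a.re := by rw [sub_eq_zero.1 h0]
    split_ifs at h <;> linarith
  have hi : HasDerivAt (fun a => (z - a)⁻¹) ((z - a)⁻¹ * (z - a)⁻¹) a := by
    refine (((hasDerivAt_id a).const_sub z).inv hne).congr_deriv ?_
    simp only [id]
    field_simp
  have hp : HasDerivAt (fun a => (z - a)⁻¹ ^ e) (e * (z - a)⁻¹ ^ e * (z - a)⁻¹) a := by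
    refine (hi.fun_pow e).congr_deriv ?_
    rcases e with _ | e
    · simp
    · simp only [Nat.add_sub_cancel]; ring
  have hc : HasDerivAt (fun a => cp (if b then z - a else a - z))
      (1 / 3 * cp (if b then z - a else a - z) * (z - a)⁻¹) a := by
    split_ifs at h ⊢ with hb
    · have h1 := (cp_deriv (z - a) (by simpa using h)).comp a ((hasDerivAt_id a).const_sub z)
      refine h1.congr_deriv ?_
      ring
    · have h1 := (cp_deriv (a - z) (by simpa using h)).comp a ((hasDerivAt_id a).sub_const z)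
      refine h1.congr_deriv ?_
      rw [← neg_sub z a, inv_neg]
      ring
  refine (hc.mul hp).congr_deriv ?_
  unfold ph
  ring

/-- the integrand with extra poles -/
def gg (m : ℕ) (e : Fin 5 → ℕ) (l : Fin 5 → ℂ) (z : ℂ) : ℂ :=
  fm l m z * ∏ k, (z - l k)⁻¹ ^ e k

theorem gg_eq (m : ℕ) (e : Fin 5 → ℕ) (l : Fin 5 → ℂ) (z : ℂ) :
    gg m e l z = ∏ k : Fin 5, ph ((k : ℕ) < m) (e k) z (l k) := by
  unfold gg fm ph
  rw [← Finset.prod_mul_distrib]

theorem gg_zero (m : ℕ) (l : Fin 5 → ℂ) (z : ℂ) : gg m 0 l z = fm l m z := by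
  simp [gg]

theorem gg_add (m : ℕ) (e : Fin 5 → ℕ) (l : Fin 5 → ℂ) (z : ℂ) (k : Fin 5) :
    gg m (e + Pi.single k 1) l z = gg m e l z * (z - l k)⁻¹ := by
  unfold gg
  have : ∀ j, (z - l j)⁻¹ ^ (e + (Pi.single k 1 : Fin 5 → ℕ)) j =
      (z - l j)⁻¹ ^ e j * (if j = k then (z - l k)⁻¹ else 1) := by
    intro j
    rw [Pi.add_apply, pow_add]
    split_ifs with h
    · subst h; simp
    · rw [Pi.single_eq_of_ne h]; simp
  simp only [this, Finset.prod_mul_distrib, Finset.prod_ite_eq', Finset.mem_univ, if_true]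
  ring

/-- the derivative built from its values on the basis -/
def dd (c : Fin 5 → ℂ) : (Fin 5 → ℂ) →L[ℂ] ℂ :=
  ∑ k, c k • ContinuousLinearMap.proj (R := ℂ) (φ := fun _ : Fin 5 => ℂ) k

theorem dd_single (c : Fin 5 → ℂ) (k : Fin 5) : dd c (Pi.single k 1) = c k := by
  simp [dd, Pi.single_apply]

theorem dd_norm (c : Fin 5 → ℂ) : ‖dd c‖ ≤ ∑ k, ‖c k‖ := by
  refine (norm_sum_le _ _).trans (Finset.sum_le_sum fun k _ => ?_)
  rw [norm_smul]
  refine mul_le_of_le_one_right (norm_nonneg _) ?_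
  refine ContinuousLinearMap.opNorm_le_bound _ zero_le_one fun x => ?_
  simpa using norm_le_pi_norm x k

theorem gg_fderiv (m : ℕ) (e : Fin 5 → ℕ) (l : Fin 5 → ℂ) (z : ℂ) (hz : z ∈ Os l m) :
    HasFDerivAt (fun l => gg m e l z)
      (dd fun k => (1 / 3 + e k) * gg m (e + Pi.single k 1) l z) l := by
  have h : ∀ k ∈ (Finset.univ : Finset (Fin 5)),
      HasFDerivAt (fun l : Fin 5 → ℂ => ph ((k : ℕ) < m) (e k) z (l k))
        (((1 / 3 + e k) * ph ((k : ℕ) < m) (e k) z (l k) * (z - l k)⁻¹) •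
          ContinuousLinearMap.proj (R := ℂ) (φ := fun _ : Fin 5 => ℂ) k) l := by
    intro k _
    exact (ph_deriv _ (e k) z (l k) (hz k)).comp_hasFDerivAt l
      (ContinuousLinearMap.proj (R := ℂ) (φ := fun _ : Fin 5 => ℂ) k).hasFDerivAt
  have h2 := HasFDerivAt.finsetProd h
  simp only [gg_eq m e]
  refine h2.congr_fderiv ?_
  unfold dd
  refine Finset.sum_congr rfl fun k _ => ?_
  beta_reduce
  rw [smul_smul, gg_add, gg_eq, ← Finset.mul_prod_erase _ _ (Finset.mem_univ k)]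
  congr 1
  ring

theorem norm_cp (w : ℂ) : ‖cp w‖ = ‖w‖ ^ (-(1 / 3) : ℝ) := by
  rw [← Complex.norm_cpow_real, cp]
  norm_num

theorem gg_bound (m : ℕ) (e : Fin 5 → ℕ) (l : Fin 5 → ℂ) (z : ℂ) (c t : ℝ) (hc : 0 < c)
    (ht : 1 ≤ t) (h : ∀ k, c * t ≤ ‖z - l k‖) :
    ‖gg m e l z‖ ≤ (c ^ (-(5 / 3) : ℝ) * ∏ k, c⁻¹ ^ e k) * t ^ (-(5 / 3) : ℝ) := by
  have hct : 0 < c * t := by positivity
  have h1 : ‖fm l m z‖ ≤ c ^ (-(5 / 3) : ℝ) * t ^ (-(5 / 3) : ℝ) := by
    unfold fm
    rw [norm_prod, ← Real.mul_rpow hc.le (by linarith)]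
    calc ∏ k : Fin 5, ‖cp (if (k : ℕ) < m then z - l k else l k - z)‖
        ≤ ∏ _k : Fin 5, (c * t) ^ (-(1 / 3) : ℝ) := by
          refine Finset.prod_le_prod (fun _ _ => norm_nonneg _) fun k _ => ?_
          rw [norm_cp]
          refine Real.rpow_le_rpow_of_nonpos hct ?_ (by norm_num)
          split_ifs
          · exact h k
          · rw [norm_sub_rev]; exact h k
      _ = (c * t) ^ (-(5 / 3) : ℝ) := by
          rw [Finset.prod_const, Finset.card_univ, Fintype.card_fin, ← Real.rpow_natCast,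
            ← Real.rpow_mul hct.le]
          norm_num
  have h2 : ‖∏ k, (z - l k)⁻¹ ^ e k‖ ≤ ∏ k, c⁻¹ ^ e k := by
    rw [norm_prod]
    refine Finset.prod_le_prod (fun _ _ => norm_nonneg _) fun k _ => ?_
    rw [norm_pow, norm_inv]
    refine pow_le_pow_left₀ (by positivity) (inv_anti₀ hc ?_) _
    nlinarith [h k]
  unfold gg
  rw [norm_mul]
  calc _ ≤ (c ^ (-(5 / 3) : ℝ) * t ^ (-(5 / 3) : ℝ)) * ∏ k, c⁻¹ ^ e k :=
        mul_le_mul h1 h2 (norm_nonneg _) (by positivity)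
    _ = _ := by ring

theorem gg_cont (hF : S_Fm) (m : ℕ) (e : Fin 5 → ℕ) (l : Fin 5 → ℂ) (hl : l ∈ O) (x : ℂ)
    (hx : x ∈ Os l m) : Continuous fun y : ℝ => gg m e l (x + y * Complex.I) := by
  rw [continuous_iff_continuousAt]
  intro y
  have hz := Os_line hx y
  have h1 : ContinuousAt (gg m e l) (x + y * Complex.I) := by
    refine (((hF l hl m).2.2.1 _ hz).continuousAt).mul ?_
    refine tendsto_finsetProd _ fun k _ => ?_
    exact ((continuousAt_id.sub continuousAt_const).inv₀ (Os_ne hz k)).pow _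
  exact ContinuousAt.comp (f := fun y : ℝ => x + y * Complex.I) h1 (by fun_prop)

theorem int_wt : Integrable fun y : ℝ => (1 + |y|) ^ (-(5 / 3) : ℝ) := by
  have := integrable_one_add_norm (E := ℝ) (μ := volume) (r := 5 / 3) (by norm_num)
  simpa using this

/-- a neighbourhood with uniform bounds -/
theorem exists_nhd (m : ℕ) (l0 : Fin 5 → ℂ) (hl : l0 ∈ O) (x : ℂ) (hx : x ∈ Os l0 m) :
    ∃ (U : Set (Fin 5 → ℂ)) (c : ℝ), IsOpen U ∧ l0 ∈ U ∧ U ⊆ O ∧ 0 < c ∧ ∀ l ∈ U,
      x ∈ Os l m ∧ ∀ (y : ℝ) (k : Fin 5), c * (1 + |y|) ≤ ‖x + y * Complex.I - l k‖ := by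
  obtain ⟨δ, hδ, hδk⟩ : ∃ δ > 0, ∀ k, 2 * δ ≤ |x.re - (l0 k).re| := by
    have hpos : ∀ k, 0 < |x.re - (l0 k).re| := by
      intro k
      have := hx k
      rw [abs_pos, sub_ne_zero]
      split_ifs at this
      · exact this.ne'
      · exact this.ne
    obtain ⟨k0, -, hk0⟩ := Finset.exists_min_image Finset.univ
      (fun k => |x.re - (l0 k).re|) Finset.univ_nonempty
    exact ⟨|x.re - (l0 k0).re| / 2, by have := hpos k0; positivity, fun k => by
      have := hk0 k (Finset.mem_univ k); linarith⟩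
  set R := ‖x‖ + ‖l0‖ + δ with hR
  have hR0 : 0 ≤ R := by positivity
  refine ⟨O ∩ Metric.ball l0 δ, δ / (δ + 1 + R), isOpen_O.inter Metric.isOpen_ball,
    ⟨hl, Metric.mem_ball_self hδ⟩, inter_subset_left, by positivity, fun l hlU => ?_⟩
  have hk : ∀ k, ‖l k - l0 k‖ < δ := fun k =>
    (norm_le_pi_norm (l - l0) k).trans_lt (by simpa [dist_eq_norm] using hlU.2)
  have hre : ∀ k, |(l k).re - (l0 k).re| < δ := fun k =>
    (Complex.abs_re_le_norm (l k - l0 k)).trans_lt (hk k)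
  refine ⟨fun k => ?_, fun y k => ?_⟩
  · have h1 := hx k
    have h2 := hδk k
    have h3 := abs_lt.1 (hre k)
    split_ifs at h1 ⊢
    · rw [abs_of_pos (by linarith)] at h2; linarith
    · rw [abs_of_neg (by linarith)] at h2; linarith
  · set a := ‖x + y * Complex.I - l k‖ with ha
    have h1 : δ ≤ a := by
      have h2 := Complex.abs_re_le_norm (x + y * Complex.I - l k)
      have h3 : (x + y * Complex.I - l k).re = x.re - (l k).re := by simp
      rw [h3] at h2
      have h4 := abs_sub_le x.re (l k).re (l0 k).re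
      have := hδk k
      have := hre k
      linarith
    have h2 : |y| ≤ a + R := by
      have h3 : (y * Complex.I : ℂ) = (x + y * Complex.I - l k) - x + (l k - l0 k) + l0 k := by
        ring
      have h4 : ‖(y * Complex.I : ℂ)‖ = |y| := by simp
      rw [← h4, h3]
      have h5 := norm_le_pi_norm l0 k
      have h6 := hk k
      calc _ ≤ ‖(x + y * Complex.I - l k) - x‖ + ‖l k - l0 k‖ + ‖l0 k‖ := norm_add₃_le
        _ ≤ a + ‖x‖ + ‖l k - l0 k‖ + ‖l0 k‖ := by gcongr; exact norm_sub_le _ _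
        _ ≤ a + R := by linarith
    rw [div_mul_eq_mul_div, div_le_iff₀ (by positivity)]
    nlinarith

end Pool.Agent.P.MP_5d7cf0_gt.HolP
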