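import Pool.Agent.P.MP_5d7cf0_gt.St

/-! Package IdP: the periods attached to adjacent pairs. -/

open Set Filter Topology MeasureTheory ComplexConjugate

namespace Pool.Agent.P.MP_5d7cf0_gt

namespace IdPP

theorem ne_zero_of_re {a : ℂ} (ha : 0 < a.re) : a ≠ 0 := by
  rintro rfl
  simp at ha

theorem cp_mul {a b : ℂ} (ha : 0 < a.re) (hb : 0 < b.re) : cp (a * b) = cp a * cp b := by
  have ha0 := ne_zero_of_re ha
  have hb0 := ne_zero_of_re hb
  have h1 := abs_lt.1 (Complex.abs_arg_lt_pi_div_two_iff.2 (Or.inl ha))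
  have h2 := abs_lt.1 (Complex.abs_arg_lt_pi_div_two_iff.2 (Or.inl hb))
  have h : Complex.log (a * b) = Complex.log a + Complex.log b :=
    (Complex.log_mul_eq_add_log_iff ha0 hb0).2 ⟨by linarith [h1.1, h2.1], by linarith [h1.2, h2.2]⟩
  unfold cp
  rw [Complex.cpow_def_of_ne_zero (mul_ne_zero ha0 hb0), Complex.cpow_def_of_ne_zero ha0,
    Complex.cpow_def_of_ne_zero hb0, h, add_mul, Complex.exp_add]

theorem cp_one : cp 1 = 1 := by simp [cp]

theorem inv_re_pos {b : ℂ} (hb : 0 < b.re) : 0 < (b⁻¹).re := by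
  rw [Complex.inv_re]
  exact div_pos hb (Complex.normSq_pos.2 (ne_zero_of_re hb))

theorem cp_inv_mul {b : ℂ} (hb : 0 < b.re) : cp b⁻¹ * cp b = 1 := by
  rw [← cp_mul (inv_re_pos hb) hb, inv_mul_cancel₀ (ne_zero_of_re hb), cp_one]

theorem cp_div {a b : ℂ} (ha : 0 < a.re) (hb : 0 < b.re) : cp b * cp (a * b⁻¹) = cp a := by
  rw [cp_mul ha (inv_re_pos hb)]
  linear_combination cp a * cp_inv_mul hb

theorem cp_real_mul {r : ℝ} (hr : 0 < r) {z : ℂ} (hz : z ≠ 0) : cp (r * z) = cp r * cp z := by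
  have hr0 : (r : ℂ) ≠ 0 := by exact_mod_cast hr.ne'
  unfold cp
  rw [Complex.cpow_def_of_ne_zero (mul_ne_zero hr0 hz), Complex.cpow_def_of_ne_zero hr0,
    Complex.cpow_def_of_ne_zero hz, Complex.log_ofReal_mul hr hz, Complex.ofReal_log hr.le,
    add_mul, Complex.exp_add]

theorem norm_cp (z : ℂ) : ‖cp z‖ = ‖z‖ ^ (-(1 / 3) : ℝ) := by
  have : (-(1 / 3) : ℂ) = ((-(1 / 3) : ℝ) : ℂ) := by push_cast; ring
  rw [cp, this, Complex.norm_cpow_real]

theorem cp_cube {z : ℂ} : cp z ^ 3 = z⁻¹ := by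
  rw [cp, ← Complex.cpow_nat_mul]
  norm_num [Complex.cpow_neg_one]

theorem sq_norm_cp (z : ℂ) : ‖cp z‖ ^ 2 = ‖z‖ ^ (-(2 / 3) : ℝ) := by
  rw [norm_cp, ← Real.rpow_natCast, ← Real.rpow_mul (norm_nonneg _)]
  norm_num

/-- The substitution `τ = t / (1 + t)`. -/
theorem subst (g : ℝ → ℂ) :
    ∫ τ in Ioo (0 : ℝ) 1, g τ = ∫ t in Ioi (0 : ℝ), ((1 + t : ℂ)⁻¹) ^ 2 * g (t / (1 + t)) := by
  have him : (fun t : ℝ => t / (1 + t)) '' Ioi 0 = Ioo 0 1 := by
    ext τ
    constructor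
    · rintro ⟨t, ht, rfl⟩
      have ht : 0 < t := ht
      exact ⟨by positivity, (div_lt_one (by positivity)).2 (by linarith)⟩
    · rintro ⟨h0, h1⟩
      have h2 : 0 < 1 - τ := by linarith
      refine ⟨τ / (1 - τ), div_pos h0 h2, ?_⟩
      field_simp
      ring
  have hd : ∀ t ∈ Ioi (0 : ℝ), HasDerivWithinAt (fun t : ℝ => t / (1 + t)) ((1 + t)⁻¹ ^ 2)
      (Ioi 0) t := by
    intro t ht
    have ht : 0 < t := ht
    have h := (hasDerivAt_id t).div ((hasDerivAt_id t).const_add 1) (by simp only [id]; positivity)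
    refine (h.congr_deriv ?_).hasDerivWithinAt
    simp only [id]
    field_simp
    ring
  have hi : InjOn (fun t : ℝ => t / (1 + t)) (Ioi 0) := by
    intro a ha b hb h
    have ha : 0 < a := ha
    have hb : 0 < b := hb
    simp only at h
    rw [div_eq_div_iff (by positivity) (by positivity)] at h
    linarith
  rw [← him, integral_image_eq_integral_abs_deriv_smul measurableSet_Ioi hd hi]
  refine setIntegral_congr_fun measurableSet_Ioi fun t _ => ?_
  rw [abs_of_nonneg (by positivity), Complex.real_smul]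
  push_cast
  rfl

/-- The segment integral. -/
theorem seg {ι : Type} (Δ : ℂ) (hΔ : 0 < Δ.re) (s : Finset ι) (hs : s.card = 3) (a β : ι → ℂ)
    (ha : ∀ n ∈ s, 0 < (a n).re) (hβ : ∀ n ∈ s, 0 < (β n).re) :
    ∫ τ in Ioo (0 : ℝ) 1, cp (τ * Δ) * cp ((1 - τ) * Δ) * ∏ n ∈ s, cp (a n * (1 - τ + τ * β n)) =
      (cp Δ ^ 2 * ∏ n ∈ s, cp (a n)) *
        ∫ t in Ioi (0 : ℝ), cp t * (cp (1 + t) * ∏ n ∈ s, cp (1 + t * β n)) := by
  rw [subst, ← integral_const_mul]
  refine setIntegral_congr_fun measurableSet_Ioi fun t ht => ?_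
  have ht : 0 < t := ht
  have hu : 0 < (1 + t)⁻¹ := by positivity
  have h1 : (1 + t : ℂ) ≠ 0 := by
    have : (0 : ℝ) < 1 + t := by positivity
    exact_mod_cast this.ne'
  have hΔ0 := ne_zero_of_re hΔ
  have e1 : cp (((t / (1 + t) : ℝ) : ℂ) * Δ) = cp (1 + t : ℂ)⁻¹ * (cp t * cp Δ) := by
    rw [← cp_real_mul ht hΔ0]
    have := cp_real_mul hu (z := t * Δ) (mul_ne_zero (by exact_mod_cast ht.ne') hΔ0)
    push_cast at this ⊢
    rw [← this]
    congr 1
    ring
  have e2 : cp ((1 - ((t / (1 + t) : ℝ) : ℂ)) * Δ) = cp (1 + t : ℂ)⁻¹ * cp Δ := by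
    have := cp_real_mul hu hΔ0
    push_cast at this ⊢
    rw [← this]
    congr 1
    field_simp
    ring
  have e3 : ∀ n ∈ s, cp (a n * (1 - ((t / (1 + t) : ℝ) : ℂ) + ((t / (1 + t) : ℝ) : ℂ) * β n)) =
      cp (1 + t : ℂ)⁻¹ * (cp (a n) * cp (1 + t * β n)) := by
    intro n hn
    have hb : 0 < (1 + t * β n : ℂ).re := by
      have := mul_pos ht (hβ n hn)
      simp only [Complex.add_re, Complex.one_re, Complex.re_ofReal_mul]
      linarith
    rw [← cp_mul (ha n hn) hb]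
    have := cp_real_mul hu (mul_ne_zero (ne_zero_of_re (ha n hn)) (ne_zero_of_re hb))
    push_cast at this ⊢
    rw [← this]
    congr 1
    field_simp
    ring
  rw [e1, e2, Finset.prod_congr rfl e3, Finset.prod_mul_distrib, Finset.prod_mul_distrib,
    Finset.prod_const, hs]
  have h2 : cp (1 + t : ℂ)⁻¹ * cp (1 + t : ℂ) = 1 := cp_inv_mul (by simp; linarith)
  have h3 : (1 + t : ℂ)⁻¹ = cp (1 + t : ℂ) ^ 3 := cp_cube.symm
  generalize cp (1 + t : ℂ)⁻¹ = w at h2 ⊢
  rw [h3]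
  generalize cp (1 + t : ℂ) = u at h2 ⊢
  have h4 : (u ^ 3) ^ 2 * w ^ 5 = u := by
    calc (u ^ 3) ^ 2 * w ^ 5 = (w * u) ^ 5 * u := by ring
      _ = u := by rw [h2]; ring
  linear_combination (cp Δ ^ 2 * (∏ n ∈ s, cp (a n)) * cp t * ∏ n ∈ s, cp (1 + t * β n)) * h4

/-- The integral along a vertical ray. -/
theorem ray (hPi : S_Pi) (s : Finset (Fin 6)) (hs : s.card = 4) (a : Fin 6 → ℂ)
    (ha : ∀ n ∈ s, 0 < (a n).re) (e : ℝ) (he : e = 1 ∨ e = -1) :
    ‖∫ t in Ioi (0 : ℝ), cp (t * (e * Complex.I)) * ∏ n ∈ s, cp (a n + t * (e * Complex.I))‖ ^ 2 =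
      (∏ n ∈ s, ‖a n‖ ^ (-(2 / 3) : ℝ)) * ‖PiS s fun n => (a n)⁻¹‖ ^ 2 := by
  have he2 : e * e = 1 := by rcases he with rfl | rfl <;> norm_num
  have hν : ‖(e * Complex.I : ℂ)‖ = 1 := by rcases he with rfl | rfl <;> simp
  have hν0 : (e * Complex.I : ℂ) ≠ 0 := by
    intro h
    rw [h] at hν
    simp at hν
  have h1 := hPi.1 s (fun n => (a n)⁻¹) (e * Complex.I) hs (by
    intro τ hτ
    have key : ∀ γ : ℂ, 0 < γ.re → (1 - τ + τ * (e * Complex.I)) * γ ∈ Complex.slitPlane := by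
      intro γ hγ
      rw [Complex.mem_slitPlane_iff]
      by_contra hc
      push Not at hc
      obtain ⟨h1, h2⟩ := hc
      simp at h1 h2
      have h3 : 0 < (1 - τ) ^ 2 + τ ^ 2 := by nlinarith [sq_nonneg (1 - 2 * τ)]
      have h4 := mul_pos h3 hγ
      have h5 : 0 ≤ 1 - τ := by linarith [hτ.2]
      have h6 := mul_le_mul_of_nonneg_left h1 h5
      have h7 : τ * e * ((1 - τ) * γ.im + τ * e * γ.re) = 0 := by rw [h2, mul_zero]
      have h8 : τ * e * (τ * e * γ.re) = τ ^ 2 * γ.re := by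
        linear_combination τ ^ 2 * γ.re * he2
      nlinarith
    exact ⟨by simpa using key 1 (by simp), fun k hk => key _ (inv_re_pos (ha k hk))⟩)
  rw [hν, Real.one_rpow, one_mul] at h1
  have h2 : ∫ t in Ioi (0 : ℝ), cp (t * (e * Complex.I)) * ∏ n ∈ s, cp (a n + t * (e * Complex.I)) =
      (cp (e * Complex.I) * ∏ n ∈ s, cp (a n)) * PiS s fun n => e * Complex.I * (a n)⁻¹ := by
    rw [PiS, ← integral_const_mul]
    refine setIntegral_congr_fun measurableSet_Ioi fun t ht => ?_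
    have e3 : ∀ n ∈ s, cp (a n + t * (e * Complex.I)) =
        cp (a n) * cp (1 + t * (e * Complex.I * (a n)⁻¹)) := by
      intro n hn
      rw [← cp_div (a := a n + t * (e * Complex.I)) (by simpa using ha n hn) (ha n hn)]
      congr 2
      have := ne_zero_of_re (ha n hn)
      field_simp
    rw [cp_real_mul ht hν0, Finset.prod_congr rfl e3, Finset.prod_mul_distrib]
    ring
  rw [h2, norm_mul, norm_mul, h1, norm_cp, hν, Real.one_rpow, one_mul, mul_pow, norm_prod,
    ← Finset.prod_pow, Finset.prod_congr rfl fun n _ => sq_norm_cp (a n)]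

theorem vs_cast (l : Fin 5 → ℂ) (n : Fin 5) : vs l n.castSucc = (l n, 1) := by
  fin_cases n <;> rfl

theorem vs_five (l : Fin 5 → ℂ) : vs l 5 = (1, 0) := rfl

theorem br_fin (a b : ℂ) : br (a, 1) (b, 1) = a - b := by simp [br]

theorem br_inf (a : ℂ) : br (a, 1) (1, 0) = -1 := by simp [br]

theorem br_inf' (a : ℂ) : br (1, 0) (a, 1) = 1 := by simp [br]

theorem cases6 (n : Fin 6) : n = 5 ∨ ∃ m : Fin 5, n = m.castSucc := by
  revert n
  decide

theorem re_pos {l : Fin 5 → ℂ} (hl : l ∈ O) {a b : Fin 5} (h : a < b) : 0 < (l b - l a).re := by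
  have := hl h
  simp only [Complex.sub_re]
  linarith

theorem gen {l : Fin 5 → ℂ} (hl : l ∈ O) : Gen (vs l) := by
  intro i j hij
  rcases cases6 i with rfl | ⟨a, rfl⟩ <;> rcases cases6 j with rfl | ⟨b, rfl⟩
  · exact absurd rfl hij
  · rw [vs_cast, vs_five, br_inf']; exact one_ne_zero
  · rw [vs_cast, vs_five, br_inf]; exact neg_ne_zero.2 one_ne_zero
  · rw [vs_cast, vs_cast, br_fin]
    have hab : a ≠ b := fun h => hij (by rw [h])
    rcases lt_or_gt_of_ne hab with h | h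
    · rw [← neg_sub]
      exact neg_ne_zero.2 (ne_zero_of_re (re_pos hl h))
    · exact ne_zero_of_re (re_pos hl h)

theorem term_le (S : Finset (Fin 6)) (v : V6) {a b c d : Fin 6} (ha : a ∈ S) (hb : b ∈ S)
    (hc : c ∈ Sᶜ) (hd : d ∈ Sᶜ) :
    ‖br (v a) (v b) * br (v c) (v d) / (br (v a) (v c) * br (v b) (v d))‖ ≤ cc S v := by
  unfold cc
  refine le_trans ?_ (Finset.single_le_sum (fun _ _ => by positivity) ha)
  refine le_trans ?_ (Finset.single_le_sum (fun _ _ => by positivity) hb)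
  refine le_trans ?_ (Finset.single_le_sum (fun _ _ => by positivity) hc)
  exact Finset.single_le_sum (f := fun d => ‖br (v a) (v b) * br (v c) (v d) /
    (br (v a) (v c) * br (v b) (v d))‖) (fun _ _ => by positivity) hd

theorem norm_ζ : ‖ζ‖ = 1 := by
  have h : ‖ζ‖ ^ 2 = 1 := by
    rw [Complex.sq_norm, Complex.normSq_apply]
    have : √3 * √3 = 3 := Real.mul_self_sqrt (by norm_num)
    simp only [ζ]
    linarith
  exact (pow_eq_one_iff_of_nonneg (norm_nonneg _) two_ne_zero).1 h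

theorem norm_three (z : ℂ) : ‖(√3 : ℂ) * z‖ ^ 2 = 3 * ‖z‖ ^ 2 := by
  rw [norm_mul, mul_pow, Complex.norm_real, Real.norm_eq_abs, sq_abs, Real.sq_sqrt (by norm_num)]

/-- The pair `4, 5`. -/
theorem case4 (hStr : S_Str) (hSeg : S_Seg) (hPi : S_Pi) {l : Fin 5 → ℂ} (hl : l ∈ O) :
    rK (vs l) 4 5 1 = ‖hL (YY l) (rs 4)‖ ^ 2 := by
  have h5 : LL l 5 = 0 := (hStr l hl 5).2.2.2.2 (Or.inr rfl)
  obtain ⟨h1, -, h2⟩ := (hSeg l hl).2.1 4
  have h3 : hL (YY l) (rs 4) = LL l 4 := by simp [hL, YY, rs]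
  have h4 : ‖LL l 4‖ ^ 2 = 3 * ‖Up l 5 (l 4)‖ ^ 2 := by
    have e1 : ‖Up l 5 (l 4)‖ = ‖Up l 4 (l 4)‖ := by
      have := congrArg norm h2
      rw [norm_mul, Complex.norm_conj, norm_ζ, one_mul] at this
      exact this
    have e2 : ‖LL l 4‖ = ‖(√3 : ℂ) * Up l 4 (l 4)‖ := by
      have := congrArg norm h1
      rw [show (4 : Fin 5).succ = 5 from rfl, h5, sub_zero, norm_mul ζ, norm_ζ, one_mul, mul_assoc,
        norm_mul, Complex.norm_I, one_mul] at this
      exact this.symm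
    rw [e1, e2, norm_three]
  have hs : (({4, 5} : Finset (Fin 6))ᶜ) = {0, 1, 2, 3} := by decide
  have hr := ray hPi ({4, 5} : Finset (Fin 6))ᶜ (by decide) (fun n => br (vs l 4) (vs l n)) (by
    intro n hn
    rcases cases6 n with rfl | ⟨m, rfl⟩
    · exact absurd hn (by decide)
    · rw [show (4 : Fin 6) = (4 : Fin 5).castSucc from rfl, vs_cast, vs_cast, br_fin]
      refine re_pos hl ?_
      revert m
      decide) 1 (Or.inl rfl)
  have hU : Up l 5 (l 4) = ∫ t in Ioi (0 : ℝ), cp (t * ((1 : ℝ) * Complex.I)) *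
      ∏ n ∈ ({4, 5} : Finset (Fin 6))ᶜ, cp (br (vs l 4) (vs l n) + t * ((1 : ℝ) * Complex.I)) := by
    unfold Up
    congr 1
    ext t
    rw [hs]
    simp [fm, Fin.prod_univ_five, vs, br_fin]
    have e : ∀ a : ℂ, l 4 + t * Complex.I - a = l 4 - a + t * Complex.I := fun a => by ring
    simp only [e]
    ring
  rw [h3, h4, hU, hr, rK]
  have hb : PiS ({4, 5} : Finset (Fin 6))ᶜ (fun n => 1 * bet (vs l) 4 5 n) =
      PiS ({4, 5} : Finset (Fin 6))ᶜ fun n => (br (vs l 4) (vs l n))⁻¹ := by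
    unfold PiS
    congr 1
    ext t
    rw [hs]
    simp [bet, vs, br_inf']
  rw [hb]
  simp [vs, br_inf, mul_assoc]

/-- The pair `0, 5`. -/
theorem case5 (hStr : S_Str) (hSeg : S_Seg) (hPi : S_Pi) {l : Fin 5 → ℂ} (hl : l ∈ O) :
    rK (vs l) 0 5 (-1) = ‖hL (YY l) (rs 5)‖ ^ 2 := by
  have h0 : LL l 0 = 0 := (hStr l hl 0).2.2.2.2 (Or.inl rfl)
  obtain ⟨h1, -, -⟩ := (hSeg l hl).2.1 0
  have h3 : hL (YY l) (rs 5) = LL l 1 := by
    simp [hL, YY, rs]
    ring
  have h4 : ‖LL l 1‖ ^ 2 = 3 * ‖Up l 0 (l 0)‖ ^ 2 := by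
    have e2 : ‖LL l 1‖ = ‖(√3 : ℂ) * Up l 0 (l 0)‖ := by
      have := congrArg norm h1
      rw [show (0 : Fin 5).castSucc = 0 from rfl, h0, mul_zero, zero_sub, norm_neg, mul_assoc,
        norm_mul, Complex.norm_I, one_mul] at this
      exact this.symm
    rw [e2, norm_three]
  have hs : (({0, 5} : Finset (Fin 6))ᶜ) = {1, 2, 3, 4} := by decide
  have hr := ray hPi ({0, 5} : Finset (Fin 6))ᶜ (by decide) (fun n => -br (vs l 0) (vs l n)) (by
    intro n hn
    rcases cases6 n with rfl | ⟨m, rfl⟩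
    · exact absurd hn (by decide)
    · rw [show (0 : Fin 6) = (0 : Fin 5).castSucc from rfl, vs_cast, vs_cast, br_fin, neg_sub]
      refine re_pos hl ?_
      revert m
      decide) (-1) (Or.inr rfl)
  have hU : Up l 0 (l 0) = ∫ t in Ioi (0 : ℝ), cp (t * ((-1 : ℝ) * Complex.I)) *
      ∏ n ∈ ({0, 5} : Finset (Fin 6))ᶜ,
        cp (-br (vs l 0) (vs l n) + t * ((-1 : ℝ) * Complex.I)) := by
    unfold Up
    congr 1
    ext t
    rw [hs]
    simp [fm, Fin.prod_univ_five, vs, br_fin]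
    have e : ∀ a : ℂ, a - (l 0 + t * Complex.I) = a - l 0 + -(t * Complex.I) := fun a => by ring
    simp only [e]
    ring
  rw [h3, h4, hU, hr, rK]
  have hb : PiS ({0, 5} : Finset (Fin 6))ᶜ (fun n => -1 * bet (vs l) 0 5 n) =
      PiS ({0, 5} : Finset (Fin 6))ᶜ fun n => (-br (vs l 0) (vs l n))⁻¹ := by
    unfold PiS
    congr 1
    ext t
    rw [hs]
    simp [bet, vs, br_inf', inv_neg]
  rw [hb]
  simp [vs, br_inf, mul_assoc]

/-- A pair of adjacent finite points. -/
theorem caseK (hSeg : S_Seg) {l : Fin 5 → ℂ} (hl : l ∈ O) (K : Fin 4)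
    (hβ : ∀ n : Fin 5, n ≠ K.castSucc → n ≠ K.succ →
      0 < ((l K.succ - l n) / (l K.castSucc - l n)).re) :
    rK (vs l) K.castSucc.castSucc K.succ.castSucc 1 =
      ‖hL (YY l) (rs K.castSucc.castSucc)‖ ^ 2 := by
  have hΔ : 0 < (l K.succ - l K.castSucc).re := re_pos hl K.castSucc_lt_succ
  have hij : K.castSucc ≠ K.succ := K.castSucc_lt_succ.ne
  set s : Finset (Fin 5) := {K.castSucc, K.succ}ᶜ with hsd
  have hmem : ∀ n ∈ s, n ≠ K.castSucc ∧ n ≠ K.succ := by
    intro n hn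
    simpa [hsd] using hn
  have hs : (({K.castSucc.castSucc, K.succ.castSucc} : Finset (Fin 6))ᶜ) =
      insert 5 (s.map Fin.castSuccEmb) := by
    rw [hsd]
    clear hβ hΔ hij hmem hsd s
    revert K
    decide
  have h5 : (5 : Fin 6) ∉ s.map Fin.castSuccEmb := by
    rw [Finset.mem_map]
    rintro ⟨n, -, hn⟩
    exact (Fin.castSucc_lt_last n).ne hn
  have hcard : s.card = 3 := by
    rw [hsd, Finset.card_compl, Finset.card_pair hij]
    rfl
  let a : Fin 5 → ℂ := fun n => if (n : ℕ) < K + 1 then l K.castSucc - l n else l n - l K.castSucc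
  have ha : ∀ n ∈ s, 0 < (a n).re := by
    intro n hn
    obtain ⟨h1, h2⟩ := hmem n hn
    have h1' : (n : ℕ) ≠ K := fun h => h1 (Fin.ext h)
    simp only [a]
    split_ifs with h
    · exact re_pos hl (show (n : ℕ) < K by omega)
    · exact re_pos hl (show (K : ℕ) < n by omega)
  have hne : ∀ n ∈ s, l K.castSucc - l n ≠ 0 := by
    intro n hn h
    have := ha n hn
    simp only [a] at this
    split_ifs at this
    · rw [h] at this; simp at this
    · rw [← neg_sub, h] at this; simp at this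
  have hI := seg _ hΔ s hcard a (fun n => (l K.succ - l n) / (l K.castSucc - l n)) ha
    fun n hn => hβ n (hmem n hn).1 (hmem n hn).2
  have hf : ∀ τ : ℝ, fm l (K + 1) (l K.castSucc + τ * (l K.succ - l K.castSucc)) =
      cp (τ * (l K.succ - l K.castSucc)) * cp ((1 - τ) * (l K.succ - l K.castSucc)) *
        ∏ n ∈ s, cp (a n * (1 - τ + τ * ((l K.succ - l n) / (l K.castSucc - l n)))) := by
    intro τ
    rw [fm, ← Finset.prod_mul_prod_compl {K.castSucc, K.succ}, Finset.prod_pair hij]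
    congr 1
    · congr 1
      · rw [if_pos (by simp)]
        congr 1
        ring
      · rw [if_neg (by simp)]
        congr 1
        ring
    · refine Finset.prod_congr rfl fun n hn => ?_
      have := hne n hn
      simp only [a]
      congr 1
      split_ifs
      · field_simp
        ring
      · field_simp
        ring
  have hna : ∀ n ∈ s, ‖cp (a n)‖ ^ 2 = ‖l K.castSucc - l n‖ ^ (-(2 / 3) : ℝ) := by
    intro n _
    rw [sq_norm_cp]
    simp only [a]
    split_ifs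
    · rfl
    · rw [norm_sub_rev]
  rw [((hSeg l hl).2.2 K).2]
  simp only [hf]
  rw [hI, mul_assoc, norm_three, rK, PiS, hs]
  simp only [Finset.prod_insert h5, Finset.prod_map, Fin.castSuccEmb_apply, vs_cast, vs_five, bet,
    br_fin, br_inf, one_mul, norm_neg, norm_one, Real.one_rpow, mul_one, neg_div_neg_eq, div_one]
  rw [norm_mul, norm_mul, norm_mul, mul_pow, mul_pow, mul_pow, norm_prod, ← Finset.prod_pow,
    Finset.prod_congr rfl hna, norm_pow, sq_norm_cp, norm_sub_rev (l K.castSucc)]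
  have hp : 0 < ‖l K.succ - l K.castSucc‖ := norm_pos_iff.2 (ne_zero_of_re hΔ)
  have e : ‖l K.succ - l K.castSucc‖ ^ (2 / 3 : ℝ) = ‖l K.succ - l K.castSucc‖ ^ 2 *
      (‖l K.succ - l K.castSucc‖ ^ (-(2 / 3) : ℝ)) ^ 2 := by
    rw [← Real.rpow_natCast, ← Real.rpow_natCast, ← Real.rpow_mul hp.le, ← Real.rpow_add hp]
    norm_num
  rw [e]
  ring

end IdPP

open IdPP in
theorem pIdP (hStr : S_Str) (hSeg : S_Seg) (hPi : S_Pi) (hRP : S_RP) (hXi : S_Xi) : S_IdP := by
  intro l hl k hc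
  have hg := gen hl
  have hk : k = 4 ∨ k = 5 ∨ ∃ K : Fin 4, k = K.castSucc.castSucc ∧ k + 1 = K.succ.castSucc := by
    clear hc
    revert k
    decide
  have main : ∀ (i j : Fin 6) (κ : ℂ), i ≠ j → ({k, k + 1} : Finset (Fin 6)) = {i, j} →
      (∀ n, n ≠ i → n ≠ j → 0 < (κ * bet (vs l) i j n).re) →
      xi {k, k + 1} (vs l) * Vh (vs l) = rK (vs l) i j κ := by
    intro i j κ hij hS hκ
    rw [(hXi _ hg _).2.2.2.2.1 i j hij hS hc, (hRP.1 _ hg i j hij (hS ▸ hc)).2 κ hκ]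
  rcases hk with rfl | rfl | ⟨K, hK, hK'⟩
  · rw [main 4 5 1 (by decide) rfl, case4 hStr hSeg hPi hl]
    intro n h4 h5
    rcases cases6 n with rfl | ⟨m, rfl⟩
    · exact absurd rfl h5
    · rw [bet, show (4 : Fin 6) = (4 : Fin 5).castSucc from rfl, vs_cast, vs_cast, vs_five, br_fin,
        br_inf', one_mul, one_div]
      refine inv_re_pos (re_pos hl ?_)
      clear h5
      revert m
      decide
  · rw [main 0 5 (-1) (by decide) (by decide), case5 hStr hSeg hPi hl]
    intro n h0 h5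
    rcases cases6 n with rfl | ⟨m, rfl⟩
    · exact absurd rfl h5
    · rw [bet, show (0 : Fin 6) = (0 : Fin 5).castSucc from rfl, vs_cast, vs_cast, vs_five, br_fin,
        br_inf', neg_one_mul, one_div, ← inv_neg, neg_sub]
      refine inv_re_pos (re_pos hl ?_)
      clear h5
      revert m
      decide
  · have hij : K.castSucc.castSucc ≠ K.succ.castSucc :=
      fun h => K.castSucc_lt_succ.ne (Fin.castSucc_injective _ h)
    have hβ : ∀ n : Fin 5, n ≠ K.castSucc → n ≠ K.succ →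
        0 < ((l K.succ - l n) / (l K.castSucc - l n)).re := by
      intro n h1 h2
      have ht := (term_le {k, k + 1} (vs l) (a := K.castSucc.castSucc) (b := K.succ.castSucc)
        (c := n.castSucc) (d := 5) (by simp [← hK]) (by rw [← hK']; simp) (by
          rw [hK', hK, Finset.mem_compl, Finset.mem_insert, Finset.mem_singleton,
            Fin.castSucc_inj, Fin.castSucc_inj]
          exact fun h => h.elim h1 h2) (by
          rw [hK', hK, Finset.mem_compl, Finset.mem_insert, Finset.mem_singleton]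
          exact fun h => h.elim (Fin.castSucc_lt_last _).ne' (Fin.castSucc_lt_last _).ne')).trans_lt
          hc
      have hn := hg K.castSucc.castSucc n.castSucc fun h => h1 (Fin.castSucc_injective _ h).symm
      rw [vs_cast, vs_cast, br_fin] at hn
      simp only [vs_cast, vs_five, br_fin, br_inf] at ht
      have e : (l K.succ - l n) / (l K.castSucc - l n) =
          1 - (l K.castSucc - l K.succ) * -1 / ((l K.castSucc - l n) * -1) := by
        field_simp
        ring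
      rw [e, Complex.sub_re, Complex.one_re]
      have := (Complex.re_le_norm _).trans_lt ht
      unfold del at this
      linarith
    rw [main _ _ 1 hij (by rw [hK', hK]), hK, caseK hSeg hl K hβ]
    intro n h1 h2
    rcases cases6 n with rfl | ⟨m, rfl⟩
    · rw [bet, vs_cast, vs_cast, vs_five, br_inf, br_inf]
      simp
    · rw [bet, vs_cast, vs_cast, vs_cast, br_fin, br_fin, one_mul]
      exact hβ m (fun h => h1 (by rw [h])) fun h => h2 (by rw [h])

end Pool.Agent.P.MP_5d7cf0_gt
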