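import Pool.Agent.P.MP_5d7cf0_gt.IdT1

/-!
Package IdT: the period along a circle around three consecutive points.
-/

open Set Filter Topology MeasureTheory Complex

noncomputable section

namespace Pool.Agent.P.MP_5d7cf0_gt

namespace IdTP

/-- the three consecutive indices -/
def Tr3 (k : ℕ) (n : Fin 5) : Prop := k ≤ n ∧ (n : ℕ) < k + 3

instance (k : ℕ) : DecidablePred (Tr3 k) := fun _ => inferInstanceAs (Decidable (_ ∧ _))

/-- the factors of the integrand -/
def g (a : Fin 5 → ℂ) (k : ℕ) (n : Fin 5) (w : ℂ) : ℂ :=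
  if Tr3 k n then cp (1 + a n / w) else cp (1 + (a n)⁻¹ * w)

/-- the integrand -/
def F (a : Fin 5 → ℂ) (k : ℕ) (w : ℂ) : ℂ := w⁻¹ * ∏ n, g a k n w

/-- the factors of the constant -/
def κ (a : Fin 5 → ℂ) (k : ℕ) (n : Fin 5) : ℂ :=
  if Tr3 k n then 1 else cp (if (n : ℕ) < k then a n else -a n)

theorem prod_u {M : Type} [CommMonoid M] {k : ℕ} (hk : k ≤ 2) (c : M) :
    ∏ n : Fin 5, (if Tr3 k n then c else 1) = c ^ 3 := by
  rw [Finset.prod_ite, Finset.prod_const_one, mul_one, Finset.prod_const]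
  congr 1
  interval_cases k <;> decide

/-- the position of the points -/
structure Pos (a : Fin 5 → ℂ) (k : ℕ) (r0 r1 ε : ℝ) : Prop where
  mid : ∀ n, Tr3 k n → ‖a n‖ + ε ≤ r0
  left : ∀ n : Fin 5, (n : ℕ) < k → r1 + ε ≤ (a n).re
  right : ∀ n : Fin 5, k + 3 ≤ n → r1 + ε ≤ -(a n).re
  pos : 0 < ε
  r0_pos : 0 < r0
  lt : r0 < r1

variable {a : Fin 5 → ℂ} {k : ℕ} {r0 r1 ε : ℝ}

theorem cases3 (k : ℕ) (n : Fin 5) : (Tr3 k n ∧ ¬ (n : ℕ) < k ∧ (n : ℕ) < k + 3) ∨
    (¬ Tr3 k n ∧ (n : ℕ) < k ∧ (n : ℕ) < k + 3) ∨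
    (¬ Tr3 k n ∧ ¬ (n : ℕ) < k ∧ ¬ (n : ℕ) < k + 3 ∧ k + 3 ≤ n) := by
  unfold Tr3; omega

theorem Pos.out (h : Pos a k r0 r1 ε) {w : ℂ} (hw : |w.re| < r1) {n : Fin 5} (hn : ¬ Tr3 k n) :
    0 < (if (n : ℕ) < k then a n else -a n).re ∧ ε ≤ (if (n : ℕ) < k then w + a n else -(w + a n)).re ∧
      1 + (a n)⁻¹ * w =
        (if (n : ℕ) < k then w + a n else -(w + a n)) / if (n : ℕ) < k then a n else -a n := by
  have h1 := abs_lt.1 hw
  have h2 := h.pos
  have h3 := h.r0_pos.trans h.lt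
  rcases cases3 k n with ⟨c, -⟩ | ⟨-, c, -⟩ | ⟨-, c, -, c'⟩
  · exact absurd c hn
  · have h4 := h.left n c
    have a0 : a n ≠ 0 := fun e => by rw [e, zero_re] at h4; linarith
    simp only [if_pos c, add_re]
    exact ⟨by linarith, by linarith, by field_simp; ring⟩
  · have h4 := h.right n c'
    have a0 : a n ≠ 0 := fun e => by rw [e, zero_re] at h4; linarith
    simp only [if_neg c, neg_re, add_re]
    exact ⟨by linarith, by linarith, by field_simp; ring⟩

theorem Pos.diff (h : Pos a k r0 r1 ε) : DifferentiableOn ℂ (F a k) (Om r0 r1) := by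
  intro w hw
  have w0 : w ≠ 0 := norm_pos_iff.1 (h.r0_pos.trans hw.2)
  refine ((differentiableAt_inv w0).mul
    (DifferentiableAt.fun_finsetProd fun n _ => ?_)).differentiableWithinAt
  by_cases hn : Tr3 k n
  · have : g a k n = fun w => (1 + a n / w) ^ (-(1 / 3) : ℂ) := by funext w; simp [g, hn, cp]
    rw [this]
    refine DifferentiableAt.cpow_const (by fun_prop (disch := exact w0))
      (mem_slitPlane_of_norm_lt_one ?_)
    rw [norm_div, div_lt_one (norm_pos_iff.2 w0)]
    linarith [h.mid n hn, h.pos, hw.2]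
  · have : g a k n = fun w => (1 + (a n)⁻¹ * w) ^ (-(1 / 3) : ℂ) := by funext w; simp [g, hn, cp]
    rw [this]
    refine DifferentiableAt.cpow_const (by fun_prop) ?_
    obtain ⟨h1, h2, h3⟩ := h.out hw.1 hn
    rw [h3]
    exact div_slit (h.pos.trans_le h2) h1

theorem Pos.K_ne (h : Pos a k r0 r1 ε) : ∏ n, κ a k n ≠ 0 := by
  refine Finset.prod_ne_zero_iff.2 fun n _ => ?_
  unfold κ
  by_cases hn : Tr3 k n
  · rw [if_pos hn]; exact one_ne_zero
  · rw [if_neg hn]
    have := (h.out (w := 0) (by simpa using h.r0_pos.trans h.lt) hn).1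
    exact cpow_ne_zero_iff.2 (Or.inl fun e => by simp [e] at this)

theorem Pos.norm (h : Pos a k r0 r1 ε) (hk : k ≤ 2) {w : ℂ} (hw : w ∈ Om r0 r1) :
    ‖∏ n, κ a k n‖ * ‖F a k w‖ = ∏ n, ‖w + a n‖ ^ (-(1 / 3) : ℝ) := by
  have w0 : w ≠ 0 := norm_pos_iff.1 (h.r0_pos.trans hw.2)
  rw [F, ← cp_cube, ← prod_u hk, ← norm_mul, ← Finset.prod_mul_distrib, ← Finset.prod_mul_distrib,
    norm_prod]
  refine Finset.prod_congr rfl fun n _ => ?_
  unfold κ g
  by_cases hn : Tr3 k n
  · simp only [if_pos hn, one_mul, norm_mul, norm_cp]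
    rw [← Real.mul_rpow (norm_nonneg _) (norm_nonneg _), ← norm_mul]
    congr 2; field_simp
  · obtain ⟨h1, h2, h3⟩ := h.out hw.1 hn
    simp only [if_neg hn, one_mul]
    rw [h3, cp_div (h.pos.trans_le h2) h1, norm_cp]
    split_ifs
    · rfl
    · rw [norm_neg]

theorem Pos.bound (h : Pos a k r0 r1 ε) (hk : k ≤ 2) :
    ∃ C, ∀ w ∈ Om r0 r1, ‖F a k w‖ ≤ C * (1 + |w.im|) ^ (-(5 / 3) : ℝ) := by
  have hε := h.pos
  refine ⟨‖∏ n, κ a k n‖⁻¹ * (ε / (1 + ‖a‖ + ε)) ^ (-(5 / 3) : ℝ), fun w hw => ?_⟩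
  rw [mul_assoc, le_inv_mul_iff₀ (norm_pos_iff.2 h.K_ne), h.norm hk hw,
    ← Real.mul_rpow (by positivity) (by positivity)]
  have key : ∀ n, ε / (1 + ‖a‖ + ε) * (1 + |w.im|) ≤ ‖w + a n‖ := by
    intro n
    have h1 : ε ≤ ‖w + a n‖ := by
      by_cases hn : Tr3 k n
      · have := norm_sub_le (w + a n) (a n)
        rw [add_sub_cancel_right] at this
        linarith [h.mid n hn, hw.2]
      · refine (h.out hw.1 hn).2.1.trans ((re_le_norm _).trans (le_of_eq ?_))
        split_ifs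
        · rfl
        · rw [norm_neg]
    have h2 : |w.im| ≤ ‖w + a n‖ + ‖a‖ := by
      have := norm_sub_le (w + a n) (a n)
      rw [add_sub_cancel_right] at this
      linarith [abs_im_le_norm w, norm_le_pi_norm a n]
    rw [div_mul_eq_mul_div, div_le_iff₀ (by positivity)]
    nlinarith [norm_nonneg a]
  calc _ ≤ ∏ _n : Fin 5, (ε / (1 + ‖a‖ + ε) * (1 + |w.im|)) ^ (-(1 / 3) : ℝ) :=
        Finset.prod_le_prod (fun _ _ => by positivity) fun n _ =>
          Real.rpow_le_rpow_of_nonpos (by positivity) (key n) (by norm_num)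
    _ = _ := by
      rw [Finset.prod_const, Finset.card_univ, Fintype.card_fin, ← Real.rpow_natCast,
        ← Real.rpow_mul (by positivity)]
      norm_num

theorem Pos.on_right (h : Pos a k r0 r1 ε) (hk : k ≤ 2) {w : ℂ} (h0 : r0 < w.re) (h1 : w.re < r1) :
    (∏ n, κ a k n) * F a k w = ∏ n : Fin 5, cp (if (n : ℕ) < k + 3 then w + a n else -(w + a n)) := by
  have hw : 0 < w.re := h.r0_pos.trans h0
  have w0 : w ≠ 0 := fun e => by simp [e] at hw
  rw [F, ← cp_cube, ← prod_u hk, ← Finset.prod_mul_distrib, ← Finset.prod_mul_distrib]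
  refine Finset.prod_congr rfl fun n _ => ?_
  unfold κ g
  by_cases hn : Tr3 k n
  · have h2 : 0 < (w + a n).re := by
      have := (abs_le.1 (abs_re_le_norm (a n))).1
      rw [add_re]; linarith [h.mid n hn, h.pos]
    simp only [if_pos hn, one_mul, if_pos hn.2]
    rw [← cp_div h2 hw]
    congr 2; field_simp
  · obtain ⟨h2, h3, h4⟩ := h.out (w := w) (abs_lt.2 ⟨by linarith, h1⟩) hn
    simp only [if_neg hn, one_mul]
    rw [h4, cp_div (h.pos.trans_le h3) h2]
    rcases cases3 k n with ⟨c, -⟩ | ⟨-, c, c'⟩ | ⟨-, c, c', -⟩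
    · exact absurd c hn
    · rw [if_pos c, if_pos c']
    · rw [if_neg c, if_neg c']

theorem Pos.on_left (h : Pos a k r0 r1 ε) (hk : k ≤ 2) {w : ℂ} (h0 : r0 < -w.re)
    (h1 : -w.re < r1) :
    (∏ n, κ a k n) * F a k w = -∏ n : Fin 5, cp (if (n : ℕ) < k then w + a n else -(w + a n)) := by
  have hw : 0 < (-w).re := h.r0_pos.trans h0
  have w0 : w ≠ 0 := fun e => by simp [e] at hw
  have e : w⁻¹ = -cp (-w) ^ 3 := by rw [cp_cube, inv_neg, neg_neg]
  rw [F, e, neg_mul, mul_neg, ← prod_u hk, ← Finset.prod_mul_distrib, ← Finset.prod_mul_distrib]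
  refine congrArg _ (Finset.prod_congr rfl fun n _ => ?_)
  unfold κ g
  by_cases hn : Tr3 k n
  · have h2 : 0 < (-(w + a n)).re := by
      have := (abs_le.1 (abs_re_le_norm (a n))).2
      rw [neg_re, add_re]; linarith [h.mid n hn, h.pos]
    simp only [if_pos hn, one_mul, if_neg (not_lt.2 hn.1)]
    rw [← cp_div h2 hw]
    congr 2; field_simp
  · obtain ⟨h2, h3, h4⟩ := h.out (w := w) (abs_lt.2 ⟨by linarith, by rw [neg_re] at hw; linarith⟩) hn
    simp only [if_neg hn, one_mul]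
    rw [h4, cp_div (h.pos.trans_le h3) h2]

theorem fm_eq (l : Fin 5 → ℂ) (m : ℕ) (b w : ℂ) : fm l m (b + w) =
    ∏ n : Fin 5, cp (if (n : ℕ) < m then w + (b - l n) else -(w + (b - l n))) := by
  refine Finset.prod_congr rfl fun n _ => ?_
  split_ifs <;> congr 1 <;> ring

theorem circle (hR : S_Ray) (hS : S_Str) {l : Fin 5 → ℂ} (hl : l ∈ O) (b : ℂ) {k k' : Fin 6}
    (hk : (k : ℕ) ≤ 2) (hk' : (k' : ℕ) = k + 3) {ρ : ℝ} (h : Pos (fun n => b - l n) k r0 r1 ε)
    (h0 : r0 < ρ) (h1 : ρ < r1) :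
    (∏ n, κ (fun n => b - l n) k n) * (∮ w in C(0, ρ), F (fun n => b - l n) k w) =
      I * (LL l k + LL l k') := by
  obtain ⟨C, hC⟩ := h.bound hk
  have hε := h.pos
  have hR' : b + ρ ∈ Cs l k' := fun n => by
    have := (abs_le.1 (abs_re_le_norm (b - l n))).1
    have m1 := h.mid n
    have m2 := h.left n
    have m3 := h.right n
    simp only [sub_re, add_re, ofReal_re] at *
    rcases cases3 k n with ⟨c, -, c'⟩ | ⟨-, c, c'⟩ | ⟨-, -, c, c'⟩
    · rw [hk', if_pos c']; linarith [m1 c]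
    · rw [hk', if_pos c']; linarith [m2 c, h.r0_pos]
    · rw [hk', if_neg c]; linarith [m3 c']
  have hL' : b + -ρ ∈ Cs l k := fun n => by
    have := (abs_le.1 (abs_re_le_norm (b - l n))).2
    have m1 := h.mid n
    have m2 := h.left n
    have m3 := h.right n
    simp only [sub_re, add_re, neg_re, ofReal_re] at *
    rcases cases3 k n with ⟨c, c', -⟩ | ⟨-, c, -⟩ | ⟨-, c, -, c'⟩
    · rw [if_neg c']; linarith [m1 c]
    · rw [if_pos c]; linarith [m2 c]
    · rw [if_neg c]; linarith [m3 c', h.r0_pos]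
  rw [contour hR h0 h1 (h.r0_pos.trans h0) h.diff hC, ← ((hS l hl k').2.2.2.1 _ hR').2.2,
    ← ((hS l hl k).2.2.2.1 _ hL').2.2]
  have r : ∀ w : ℂ, w.re = ρ → (∏ n, κ (fun n => b - l n) k n) * F (fun n => b - l n) k w =
      fm l k' (b + w) := fun w hw => by
    rw [h.on_right hk (by linarith) (by linarith), fm_eq, hk']
  have r' : ∀ w : ℂ, w.re = -ρ → (∏ n, κ (fun n => b - l n) k n) * F (fun n => b - l n) k w =
      -fm l k (b + w) := fun w hw => by
    rw [h.on_left hk (by linarith) (by linarith), fm_eq]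
  have e1 := fun s : ℝ => r (ρ + s * I) (by simp)
  have e2 := fun s : ℝ => r (ρ - s * I) (by simp)
  have e3 := fun s : ℝ => r' (-ρ + s * I) (by simp)
  have e4 := fun s : ℝ => r' (-ρ - s * I) (by simp)
  have i1 := integral_congr_ae (μ := volume.restrict (Ioi (0 : ℝ))) (Eventually.of_forall e1)
  have i2 := integral_congr_ae (μ := volume.restrict (Ioi (0 : ℝ))) (Eventually.of_forall e2)
  have i3 := integral_congr_ae (μ := volume.restrict (Ioi (0 : ℝ))) (Eventually.of_forall e3)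
  have i4 := integral_congr_ae (μ := volume.restrict (Ioi (0 : ℝ))) (Eventually.of_forall e4)
  simp only [integral_const_mul, integral_neg] at i1 i2 i3 i4
  simp only [Up, Dn, add_assoc, add_sub_assoc]
  linear_combination I * (i1 + i2 - i3 - i4)

theorem mem_iff : ∀ k : Fin 6, (k : ℕ) ≤ 2 → (∀ n : Fin 5,
    (n.castSucc ∈ ({k, k + 1, k + 2} : Finset (Fin 6)) ↔ Tr3 k n)) ∧
    Fin.last 5 ∉ ({k, k + 1, k + 2} : Finset (Fin 6)) ∧
    ({k, k + 1, k + 2} : Finset (Fin 6)).card = 3 ∧ ((k + 3 : Fin 6) : ℕ) = k + 3 := by decide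

theorem vs_cast (l : Fin 5 → ℂ) (n : Fin 5) : vs l n.castSucc = (l n, 1) := by
  fin_cases n <;> rfl

theorem vs_last (l : Fin 5 → ℂ) : vs l (Fin.last 5) = (1, 0) := rfl

theorem vs_five (l : Fin 5 → ℂ) : vs l 5 = (1, 0) := rfl

theorem gen {l : Fin 5 → ℂ} (hl : l ∈ O) : Gen (vs l) := by
  intro i j hij
  induction i using Fin.lastCases <;> induction j using Fin.lastCases
  · exact absurd rfl hij
  · simp [vs_cast, vs_five, br]
  · simp [vs_cast, vs_five, br]
  · simp only [vs_cast, br, mul_one, one_mul, sub_ne_zero]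
    exact fun e => hij (congrArg _ (hl.injective (congrArg re e)))

theorem prod_S {M : Type} [CommMonoid M] (S : Finset (Fin 6)) (f : Fin 6 → M) :
    ∏ i ∈ S, f i = (∏ n : Fin 5, if n.castSucc ∈ S then f n.castSucc else 1) *
      if Fin.last 5 ∈ S then f (Fin.last 5) else 1 := by
  rw [← Fin.prod_univ_castSucc (f := fun i => if i ∈ S then f i else 1), Finset.prod_ite_mem,
    Finset.univ_inter]

theorem hL_eq (hS : S_Str) {l : Fin 5 → ℂ} (hl : l ∈ O) {k : Fin 6} (hk : (k : ℕ) ≤ 2) :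
    hL (YY l) (rs k + rs (k + 1)) = LL l k + LL l (k + 3) := by
  have h0 := (hS l hl 0).2.2.2.2 (Or.inl rfl)
  have h5 := (hS l hl 5).2.2.2.2 (Or.inr rfl)
  fin_cases k
  · simp [hL, YY, rs, h0]
  · simp [hL, YY, rs]; ring
  · simp [hL, YY, rs, h5]
  all_goals simp at hk

end IdTP

open IdTP

theorem pIdT (hR : S_Ray) (hS : S_Str) (hT : S_RT) (hX : S_Xi) : S_IdT := by
  intro l hl k p ρ hk hρ hc hp hn
  obtain ⟨hm, h5, h3, hk'⟩ := mem_iff k hk
  set S : Finset (Fin 6) := {k, k + 1, k + 2}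
  have hα : ∀ n : Fin 5, bet (vs l) (Fin.last 5) p.castSucc n.castSucc = l p - l n := fun n => by
    simp [bet, vs_cast, vs_five, br]
  have hβ : ∀ n : Fin 5, bet (vs l) p.castSucc (Fin.last 5) n.castSucc = (l p - l n)⁻¹ := fun n => by
    simp [bet, vs_cast, vs_five, br]
  have hβ5 : bet (vs l) p.castSucc (Fin.last 5) (Fin.last 5) = 0 := by
    simp [bet, vs_five, br]
  obtain ⟨ε, hε, he⟩ := Pi.exists_forall_pos_add_lt
    (x := fun n : Fin 5 => if Tr3 k n then ‖l n - l p‖ else ρ)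
    (y := fun n : Fin 5 => if Tr3 k n then ρ else |(l n - l p).re|) fun n => by
      have := hn n
      simp only [hm] at this
      split_ifs at this ⊢ <;> exact this
  have hp' := (hm p).1 hp
  have hpos : Pos (fun n => l p - l n) k (ρ - ε / 2) (ρ + ε / 2) (ε / 2) := by
    refine ⟨fun n c => ?_, fun n c => ?_, fun n c => ?_, by linarith, ?_, by linarith⟩
    · have := he n
      simp only [if_pos c] at this
      rw [norm_sub_rev]; linarith
    · have := he n
      have c' : ¬ Tr3 k n := fun h => absurd h.1 (not_le.2 c)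
      have h1 : (l n).re < (l p).re := hl (show n < p from c.trans_le hp'.1)
      simp only [if_neg c', sub_re] at this ⊢
      rw [abs_of_neg (by linarith)] at this
      linarith
    · have := he n
      have c' : ¬ Tr3 k n := fun h => absurd h.2 (not_lt.2 c)
      have h1 : (l p).re < (l n).re := hl (show p < n from hp'.2.trans_le c)
      simp only [if_neg c', sub_re] at this ⊢
      rw [abs_of_pos (by linarith)] at this
      linarith
    · have := he p
      simp only [if_pos hp', sub_self, norm_zero] at this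
      linarith
  have hcirc := circle hR hS hl (l p) hk hk' hpos (by linarith) (by linarith : ρ < ρ + ε / 2)
  have hLp : Lp S (bet (vs l) (Fin.last 5) p.castSucc) (bet (vs l) p.castSucc (Fin.last 5)) ρ =
      ∮ w in C(0, ρ), F (fun n => l p - l n) k w := by
    unfold Lp
    congr 1
    funext w
    rw [prod_S S, prod_S Sᶜ, if_neg h5, hβ5, zero_mul, add_zero, cp_one, ite_self, mul_one, mul_one,
      mul_assoc, ← Finset.prod_mul_distrib]
    refine congrArg _ (Finset.prod_congr rfl fun n _ => ?_)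
    simp only [Finset.mem_compl, hm, g, hα, hβ]
    split_ifs <;> simp
  rw [(hX _ (gen hl) S).2.2.2.2.2 _ hp _ h5 h3 hc,
    ← (hT _ (gen hl) S h3 hc _ hp _ h5).2.2.1 ρ hρ, rR, hLp, hL_eq hS hl hk]
  · have h1 := congrArg (fun z => ‖z‖ ^ 2) hcirc
    simp only [norm_mul, norm_I, one_mul, mul_pow] at h1
    rw [← h1, prod_S S, prod_S Sᶜ, if_neg h5, norm_prod, ← Finset.prod_pow]
    simp only [vs_cast, vs_last, br, mul_one, one_mul, mul_zero, zero_mul, sub_zero, zero_sub,
      norm_neg, norm_one, Real.one_rpow, ite_self, Finset.prod_const_one, one_pow]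
    congr 1
    refine Finset.prod_congr rfl fun n _ => ?_
    simp only [Finset.mem_compl, hm, κ]
    by_cases c : Tr3 k n
    · simp [c]
    · simp only [c, not_false_eq_true, if_true, if_false, norm_cp, apply_ite norm, norm_neg, ite_self]
      rw [← Real.rpow_natCast, ← Real.rpow_mul (norm_nonneg _)]
      norm_num
  · intro i hi
    induction i using Fin.lastCases with
    | last => exact absurd hi h5
    | cast n =>
      have := hn n
      rw [if_pos hi] at this
      rw [hα, norm_sub_rev]; exact this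
  · intro i hi
    induction i using Fin.lastCases with
    | last => rw [hβ5]; simp
    | cast n =>
      have := hn n
      rw [if_neg hi] at this
      have h2 := this.trans_le (abs_re_le_norm _)
      rw [hβ, norm_inv, norm_sub_rev, inv_mul_lt_iff₀ (hρ.trans h2), mul_one]
      exact h2

end Pool.Agent.P.MP_5d7cf0_gt
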