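import Pool.Agent.P.MP_5d7cf0_gt.St

/-!
Package IdT, part 1: from the circle to two vertical lines.
-/

open Set Filter Topology MeasureTheory Complex

noncomputable section

namespace Pool.Agent.P.MP_5d7cf0_gt.IdTP

/-- the strip without the disc -/
def Om (r0 r1 : ℝ) : Set ℂ := {w | |w.re| < r1 ∧ r0 < ‖w‖}

/-- the part that is swept by the rays in the direction `e` -/
def Oe (r0 r1 e : ℝ) : Set ℂ := {w | |w.re| < r1 ∧ (r0 < |w.re| ∨ (0 < e * w.im ∧ r0 < ‖w‖))}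

theorem Oe_sub {r0 r1 e : ℝ} : Oe r0 r1 e ⊆ Om r0 r1 := fun w hw =>
  ⟨hw.1, hw.2.elim (fun h => h.trans_le (abs_re_le_norm w)) fun h => h.2⟩

theorem Oe_open (r0 r1 e : ℝ) : IsOpen (Oe r0 r1 e) := by
  have h1 : IsOpen {w : ℂ | |w.re| < r1} := isOpen_lt (by fun_prop) (by fun_prop)
  have h2 : IsOpen {w : ℂ | r0 < |w.re|} := isOpen_lt (by fun_prop) (by fun_prop)
  have h3 : IsOpen {w : ℂ | 0 < e * w.im} := isOpen_lt (by fun_prop) (by fun_prop)
  have h4 : IsOpen {w : ℂ | r0 < ‖w‖} := isOpen_lt (by fun_prop) (by fun_prop)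
  exact h1.inter (h2.union (h3.inter h4))

theorem Oe_ray {r0 r1 e : ℝ} (he : e = 1 ∨ e = -1) {z : ℂ} (hz : z ∈ Oe r0 r1 e) {s : ℝ}
    (hs : 0 ≤ s) : z + e * s * I ∈ Oe r0 r1 e := by
  have h1 : (z + e * s * I).re = z.re := by simp
  have h2 : (z + e * s * I).im = z.im + e * s := by simp
  have h3 : e * e = 1 := by rcases he with rfl | rfl <;> norm_num
  refine ⟨by rw [h1]; exact hz.1, hz.2.imp (fun h => by rw [h1]; exact h) fun h => ⟨?_, ?_⟩⟩
  · rw [h2]; nlinarith [h.1]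
  · refine h.2.trans_le (abs_le_of_sq_le_sq' ?_ (norm_nonneg _)).2
    rw [Complex.sq_norm, Complex.sq_norm, normSq_apply, normSq_apply, h1, h2]
    nlinarith [h.1, mul_nonneg hs h.1.le, mul_self_nonneg (e * s)]

theorem ray (hR : S_Ray) {F : ℂ → ℂ} {r0 r1 C e : ℝ} (he : e = 1 ∨ e = -1)
    (hF : DifferentiableOn ℂ F (Om r0 r1))
    (hb : ∀ w ∈ Om r0 r1, ‖F w‖ ≤ C * (1 + |w.im|) ^ (-(5 / 3) : ℝ)) {z : ℂ} (hz : z ∈ Oe r0 r1 e) :
    HasDerivAt (fun w => ∫ s in Ioi (0 : ℝ), F (w + e * s * I)) (e * I * F z) z := by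
  refine (hR F _ e (Oe_open r0 r1 e) (hF.mono Oe_sub) (fun z hz s hs => Oe_ray he hz hs) he
    (fun z0 h0 => ⟨|C| * (2 + |z0.im|) ^ (5 / 3 : ℝ), ?_⟩) z hz).2
  have h1 : ∀ᶠ z in 𝓝 z0, |z.im| < |z0.im| + 1 :=
    (by fun_prop : Continuous fun z : ℂ => |z.im|).continuousAt.eventually_lt continuousAt_const
      (lt_add_one _)
  filter_upwards [h1, (Oe_open r0 r1 e).mem_nhds h0] with z h1 h2 s hs
  refine (hb _ (Oe_sub (Oe_ray he h2 hs))).trans ?_
  have h3 : (z + e * s * I).im = z.im + e * s := by simp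
  have h4 : s ≤ |z.im + e * s| + |z.im| := by
    have : |e * s| = s := by rcases he with rfl | rfl <;> simp [abs_of_nonneg hs]
    calc s = |(z.im + e * s) - z.im| := by rw [add_sub_cancel_left, this]
      _ ≤ _ := abs_sub _ _
  have h5 : (1 + s) / (2 + |z0.im|) ≤ 1 + |z.im + e * s| := by
    rw [div_le_iff₀ (by positivity)]
    nlinarith [abs_nonneg (z.im + e * s), abs_nonneg z0.im]
  have h6 := Real.rpow_le_rpow_of_nonpos (by positivity) h5 (by norm_num : (-(5 / 3) : ℝ) ≤ 0)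
  rw [Real.div_rpow (by positivity) (by positivity), Real.rpow_neg (x := 2 + |z0.im|) (by positivity),
    div_inv_eq_mul, mul_comm ((1 + s) ^ _)] at h6
  rw [h3, mul_assoc]
  exact mul_le_mul (le_abs_self C) h6 (by positivity) (abs_nonneg C)

theorem contour (hR : S_Ray) {F : ℂ → ℂ} {r0 r1 C ρ : ℝ} (h0 : r0 < ρ) (h1 : ρ < r1) (hρ : 0 < ρ)
    (hF : DifferentiableOn ℂ F (Om r0 r1))
    (hb : ∀ w ∈ Om r0 r1, ‖F w‖ ≤ C * (1 + |w.im|) ^ (-(5 / 3) : ℝ)) :
    (∮ w in C(0, ρ), F w) =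
      I * ((∫ s in Ioi (0 : ℝ), F (ρ + s * I)) + ∫ s in Ioi (0 : ℝ), F (ρ - s * I)) -
      I * ((∫ s in Ioi (0 : ℝ), F (-ρ + s * I)) + ∫ s in Ioi (0 : ℝ), F (-ρ - s * I)) := by
  have hn : ∀ θ, ‖circleMap 0 ρ θ‖ = ρ := fun θ => by simp [abs_of_pos hρ]
  have hre : ∀ θ, |(circleMap 0 ρ θ).re| < r1 := fun θ =>
    ((abs_re_le_norm _).trans (hn θ).le).trans_lt h1
  have hc : Continuous fun θ => deriv (circleMap 0 ρ) θ • F (circleMap 0 ρ θ) := by
    simp only [deriv_circleMap]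
    exact (by fun_prop : Continuous fun θ => circleMap 0 ρ θ * I).smul (hF.continuousOn.comp_continuous
      (continuous_circleMap 0 ρ) fun θ => ⟨hre θ, by rw [hn]; exact h0⟩)
  have hm : ∀ (e θ : ℝ), 0 ≤ e * Real.sin θ → e ≠ 0 → circleMap 0 ρ θ ∈ Oe r0 r1 e := by
    intro e θ h he
    refine ⟨hre θ, ?_⟩
    have him : (circleMap 0 ρ θ).im = ρ * Real.sin θ := by
      simp [circleMap, exp_ofReal_mul_I_im]
    rcases h.eq_or_lt with h | h
    · left
      have h2 : (circleMap 0 ρ θ).im = 0 := by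
        rw [him, (mul_eq_zero.1 h.symm).resolve_left he, mul_zero]
      rw [abs_re_eq_norm.2 h2, hn]; exact h0
    · right
      refine ⟨?_, by rw [hn]; exact h0⟩
      rw [him, mul_left_comm]; exact mul_pos hρ h
  have key : ∀ (e a b : ℝ), e = 1 ∨ e = -1 → (∀ θ ∈ uIcc a b, 0 ≤ e * Real.sin θ) →
      ∫ θ in a..b, deriv (circleMap 0 ρ) θ • F (circleMap 0 ρ θ) =
        -(e * I) * (∫ s in Ioi (0 : ℝ), F (circleMap 0 ρ b + e * s * I)) -
        -(e * I) * ∫ s in Ioi (0 : ℝ), F (circleMap 0 ρ a + e * s * I) := by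
    intro e a b he h
    refine intervalIntegral.integral_eq_sub_of_hasDerivAt
      (f := fun θ => -(e * I) * ∫ s in Ioi (0 : ℝ), F (circleMap 0 ρ θ + e * s * I))
      (fun θ hθ => ?_) (hc.intervalIntegrable _ _)
    have := ((ray hR he hF hb (hm e θ (h θ hθ) (by rcases he with rfl | rfl <;> norm_num))).scomp θ
      (hasDerivAt_circleMap 0 ρ θ)).const_mul (-(e * I))
    refine this.congr_deriv ?_
    have h2 : (e : ℂ) * e = 1 := by rcases he with rfl | rfl <;> norm_num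
    simp only [deriv_circleMap, smul_eq_mul]
    linear_combination (circleMap 0 ρ θ * I * F (circleMap 0 ρ θ)) * (h2 - e * e * I_mul_I)
  have k1 := key 1 0 Real.pi (Or.inl rfl) fun θ hθ => by
    rw [uIcc_of_le Real.pi_pos.le] at hθ
    rw [one_mul]; exact Real.sin_nonneg_of_mem_Icc hθ
  have k2 := key (-1) Real.pi (2 * Real.pi) (Or.inr rfl) fun θ hθ => by
    rw [uIcc_of_le (by linarith [Real.pi_pos])] at hθ
    rw [neg_one_mul, ← Real.sin_sub_pi]
    exact Real.sin_nonneg_of_mem_Icc ⟨by linarith [hθ.1], by linarith [hθ.2]⟩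
  have c0 : circleMap 0 ρ 0 = ρ := by simp [circleMap]
  have c1 : circleMap 0 ρ Real.pi = -ρ := by simp [circleMap]
  have c2 : circleMap 0 ρ (2 * Real.pi) = ρ := by simp [circleMap]
  rw [circleIntegral, ← intervalIntegral.integral_add_adjacent_intervals (b := Real.pi)
    (hc.intervalIntegrable _ _) (hc.intervalIntegrable _ _), k1, k2, c0, c1, c2]
  simp only [ofReal_one, one_mul, ofReal_neg, neg_mul, ← sub_eq_add_neg]
  ring

theorem norm_cp (z : ℂ) : ‖cp z‖ = ‖z‖ ^ (-(1 / 3) : ℝ) := by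
  rw [cp, ← norm_cpow_real]; congr 2; push_cast; ring

theorem cp_one : cp 1 = 1 := one_cpow _

theorem cp_mul {a b : ℂ} (ha : 0 < a.re) (hb : 0 < b.re) : cp (a * b) = cp a * cp b := by
  have a0 : a ≠ 0 := fun h => by simp [h] at ha
  have b0 : b ≠ 0 := fun h => by simp [h] at hb
  have h1 := abs_lt.1 (abs_arg_lt_pi_div_two_iff.2 (Or.inl ha))
  have h2 := abs_lt.1 (abs_arg_lt_pi_div_two_iff.2 (Or.inl hb))
  rw [cp, cp, cp, cpow_def_of_ne_zero (mul_ne_zero a0 b0), cpow_def_of_ne_zero a0,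
    cpow_def_of_ne_zero b0, (log_mul_eq_add_log_iff a0 b0).2 ⟨by linarith, by linarith⟩,
    add_mul, exp_add]

theorem cp_div {a b : ℂ} (ha : 0 < a.re) (hb : 0 < b.re) : cp b * cp (a / b) = cp a := by
  have b0 : b ≠ 0 := fun h => by simp [h] at hb
  have hb' : 0 < b⁻¹.re := by rw [inv_re]; exact div_pos hb (normSq_pos.2 b0)
  rw [div_eq_mul_inv, cp_mul ha hb', mul_left_comm, ← cp_mul hb hb', mul_inv_cancel₀ b0, cp_one,
    mul_one]

theorem cp_cube (z : ℂ) : cp z ^ 3 = z⁻¹ := by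
  rw [cp, ← cpow_nat_mul, ← cpow_neg_one]; congr 1; push_cast; ring

theorem div_slit {a b : ℂ} (ha : 0 < a.re) (hb : 0 < b.re) : a / b ∈ slitPlane := by
  have b0 : b ≠ 0 := fun h => by simp [h] at hb
  by_contra h
  simp only [mem_slitPlane_iff, not_or, not_lt, not_not] at h
  have : a.re = (a / b).re * b.re := by
    conv_lhs => rw [← div_mul_cancel₀ a b0, mul_re, h.2, zero_mul, sub_zero]
  nlinarith [h.1]

end Pool.Agent.P.MP_5d7cf0_gt.IdTP
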