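import Pool.Agent.P.MP_5d7cf0_gt.St

/-!
Package IneqA: pointwise inequalities for the Hermitian forms `H` and `N`.
-/

open Set Filter Topology MeasureTheory ComplexConjugate
open scoped ContDiff ENNReal

noncomputable section

namespace Pool.Agent.P.MP_5d7cf0_gt.IneqAP

theorem hL_add (a b c : C4) : hL (a + b) c = hL a c + hL b c := by
  simp only [hL, Pi.add_apply]; ring

theorem hL_sub (a b c : C4) : hL (a - b) c = hL a c - hL b c := by
  simp only [hL, Pi.sub_apply]; ring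

theorem hL_smul (t : ℂ) (a c : C4) : hL (t • a) c = t * hL a c := by
  simp only [hL, Pi.smul_apply, smul_eq_mul]; ring

theorem hL_conj (a b : C4) : hL b a = conj (hL a b) := by
  simp only [hL, map_add, map_neg, map_mul, Complex.conj_conj]; ring

theorem hL_sum {κ : Type} (s : Finset κ) (f : κ → C4) (c : C4) :
    hL (∑ i ∈ s, f i) c = ∑ i ∈ s, hL (f i) c := by
  classical
  induction s using Finset.induction_on with
  | empty => simp [hL]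
  | insert i s hi ih => rw [Finset.sum_insert hi, Finset.sum_insert hi, hL_add, ih]

theorem hL_self (a : C4) :
    hL a a = ((-‖a 0‖ ^ 2 + ‖a 1‖ ^ 2 + ‖a 2‖ ^ 2 + ‖a 3‖ ^ 2 : ℝ) : ℂ) := by
  simp only [hL, Complex.mul_conj, Complex.normSq_eq_norm_sq]
  push_cast; ring

theorem hL_self_re (a : C4) :
    (hL a a).re = -‖a 0‖ ^ 2 + ‖a 1‖ ^ 2 + ‖a 2‖ ^ 2 + ‖a 3‖ ^ 2 := by
  rw [hL_self, Complex.ofReal_re]

theorem hL_self_eq (a : C4) : hL a a = ((hL a a).re : ℂ) := by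
  rw [hL_self_re, hL_self]

/-- Cauchy-Schwarz for orthogonal vectors -/
theorem cs_orth {w n : C4} (h : hL w n = 0) :
    ‖w 0‖ ^ 2 * ‖n 0‖ ^ 2 ≤
      (‖w 1‖ ^ 2 + ‖w 2‖ ^ 2 + ‖w 3‖ ^ 2) * (‖n 1‖ ^ 2 + ‖n 2‖ ^ 2 + ‖n 3‖ ^ 2) := by
  have h1 : w 0 * conj (n 0) = w 1 * conj (n 1) + w 2 * conj (n 2) + w 3 * conj (n 3) := by
    simp only [hL] at h; linear_combination -h
  have h2 : ‖w 0‖ * ‖n 0‖ ≤ ‖w 1‖ * ‖n 1‖ + ‖w 2‖ * ‖n 2‖ + ‖w 3‖ * ‖n 3‖ := by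
    have := congrArg norm h1
    rw [norm_mul, Complex.norm_conj] at this
    rw [this]
    refine (norm_add₃_le).trans ?_
    simp only [norm_mul, Complex.norm_conj, le_refl]
  have h3 : (‖w 0‖ * ‖n 0‖) ^ 2 ≤ (‖w 1‖ * ‖n 1‖ + ‖w 2‖ * ‖n 2‖ + ‖w 3‖ * ‖n 3‖) ^ 2 :=
    pow_le_pow_left₀ (by positivity) h2 2
  nlinarith [sq_nonneg (‖w 1‖ * ‖n 2‖ - ‖w 2‖ * ‖n 1‖), sq_nonneg (‖w 1‖ * ‖n 3‖ - ‖w 3‖ * ‖n 1‖),
    sq_nonneg (‖w 2‖ * ‖n 3‖ - ‖w 3‖ * ‖n 2‖)]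

theorem eq_zero_of (n : C4) (h0 : n 0 = 0) (h : ‖n 1‖ ^ 2 + ‖n 2‖ ^ 2 + ‖n 3‖ ^ 2 ≤ 0) :
    n = 0 := by
  have h1 : ‖n 1‖ ^ 2 = 0 := by nlinarith [sq_nonneg ‖n 1‖, sq_nonneg ‖n 2‖, sq_nonneg ‖n 3‖]
  have h2 : ‖n 2‖ ^ 2 = 0 := by nlinarith [sq_nonneg ‖n 1‖, sq_nonneg ‖n 2‖, sq_nonneg ‖n 3‖]
  have h3 : ‖n 3‖ ^ 2 = 0 := by nlinarith [sq_nonneg ‖n 1‖, sq_nonneg ‖n 2‖, sq_nonneg ‖n 3‖]
  simp only [ne_eq, OfNat.ofNat_ne_zero, not_false_eq_true, pow_eq_zero_iff, norm_eq_zero]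
    at h1 h2 h3
  funext i
  fin_cases i
  · exact h0
  · exact h1
  · exact h2
  · exact h3

/-- the form is nonnegative on the orthogonal complement of a nonzero nonpositive vector -/
theorem nonneg_perp {w n : C4} (hn : (hL n n).re ≤ 0) (hn0 : n ≠ 0) (h : hL w n = 0) :
    0 ≤ (hL w w).re := by
  have hc := cs_orth h
  rw [hL_self_re] at hn ⊢
  have h0 : n 0 ≠ 0 := by
    intro h0
    refine hn0 (eq_zero_of n h0 ?_)
    rw [h0, norm_zero] at hn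
    linarith
  have hp : 0 < ‖n 0‖ ^ 2 := by positivity
  have hw : 0 ≤ ‖w 1‖ ^ 2 + ‖w 2‖ ^ 2 + ‖w 3‖ ^ 2 := by positivity
  have h4 : ‖w 0‖ ^ 2 * ‖n 0‖ ^ 2 ≤ (‖w 1‖ ^ 2 + ‖w 2‖ ^ 2 + ‖w 3‖ ^ 2) * ‖n 0‖ ^ 2 :=
    hc.trans (mul_le_mul_of_nonneg_left (by linarith) hw)
  have := le_of_mul_le_mul_right h4 hp
  linarith

/-- the form is positive on the orthogonal complement of a negative vector -/
theorem zero_perp {w n : C4} (hn : (hL n n).re < 0) (h : hL w n = 0) (hw : (hL w w).re ≤ 0) :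
    w = 0 := by
  have hc := cs_orth h
  rw [hL_self_re] at hn hw
  have hN : 0 ≤ ‖n 1‖ ^ 2 + ‖n 2‖ ^ 2 + ‖n 3‖ ^ 2 := by positivity
  have h4 : (‖w 1‖ ^ 2 + ‖w 2‖ ^ 2 + ‖w 3‖ ^ 2) * (‖n 1‖ ^ 2 + ‖n 2‖ ^ 2 + ‖n 3‖ ^ 2) ≤
      ‖w 0‖ ^ 2 * (‖n 1‖ ^ 2 + ‖n 2‖ ^ 2 + ‖n 3‖ ^ 2) :=
    mul_le_mul_of_nonneg_right (by linarith) hN
  have h5 : ‖w 0‖ ^ 2 ≤ 0 := by
    by_contra h6
    push Not at h6
    have := mul_pos h6 (show 0 < ‖n 0‖ ^ 2 - (‖n 1‖ ^ 2 + ‖n 2‖ ^ 2 + ‖n 3‖ ^ 2) by linarith)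
    nlinarith
  have h6 : ‖w 0‖ ^ 2 = 0 := le_antisymm h5 (sq_nonneg _)
  refine eq_zero_of w ?_ (by linarith)
  simpa using h6

/-- Bessel inequality -/
theorem bessel {κ : Type} [Fintype κ] {w n : C4} (ρ : κ → C4) (hn : (hL n n).re ≤ 0)
    (hn0 : n ≠ 0) (h : hL w n = 0) (hρn : ∀ i, hL (ρ i) n = 0) (hu : ∀ i, hL (ρ i) (ρ i) = 1)
    (ho : ∀ i j, i ≠ j → hL (ρ i) (ρ j) = 0) :
    ∑ i, ‖hL w (ρ i)‖ ^ 2 ≤ (hL w w).re := by
  classical
  set w' : C4 := w - ∑ i, hL w (ρ i) • ρ i with hw'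
  have e1 : ∀ c, hL w' c = hL w c - ∑ i, hL w (ρ i) * hL (ρ i) c := by
    intro c
    rw [hw', hL_sub, hL_sum]
    simp only [hL_smul]
  have h1 : hL w' n = 0 := by simp [e1, h, hρn]
  have h2 : ∀ j, hL w' (ρ j) = 0 := by
    intro j
    rw [e1, Finset.sum_eq_single j, hu, mul_one, sub_self]
    · intro i _ hi
      rw [ho i j hi, mul_zero]
    · simp
  have h3 : hL w' w' = hL w w - ∑ i, ((‖hL w (ρ i)‖ ^ 2 : ℝ) : ℂ) := by
    have h4 : hL w' w' = hL w w' := by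
      conv_lhs => rw [e1]
      have : ∀ i, hL (ρ i) w' = 0 := fun i => by rw [hL_conj, h2, map_zero]
      simp [this]
    rw [h4, hL_conj, e1, map_sub, map_sum, ← hL_conj]
    congr 1
    refine Finset.sum_congr rfl fun i _ => ?_
    rw [hL_conj w (ρ i), Complex.mul_conj, Complex.conj_ofReal, Complex.normSq_eq_norm_sq]
  have h5 := nonneg_perp hn hn0 h1
  rw [h3, Complex.sub_re, Complex.re_sum] at h5
  simp only [Complex.ofReal_re] at h5
  linarith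

variable {ι : Type} [Fintype ι] (P : Pw ι)

theorem yZZ (h : P.Ok) : (P.y : ℂ) * hL P.Z P.Z = -(1 + ∑ i, (P.m0 i : ℂ)) := by
  have h1 := h.level
  rw [hL_self_eq]
  have h2 : P.y * (hL P.Z P.Z).re = -(1 + ∑ i, P.m0 i) := by linarith
  exact_mod_cast h2

theorem s_cast : (P.s : ℂ) = 1 + ∑ i, (P.m0 i : ℂ) - ∑ i, (P.m1 i : ℂ) := by
  simp only [Pw.s, Finset.sum_sub_distrib]
  push_cast; ring

theorem eps_mul (h : P.Ok) (i : ι) (a : E) :
    hL (P.lift a) (P.ρ i) = P.eps i a * hL P.Z (P.ρ i) := by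
  rw [Pw.eps, div_mul_cancel₀ _ (h.ne i)]

/-- the lift is orthogonal to `Z` -/
theorem lift_perp (h : P.Ok) (a : E) :
    (P.y : ℂ) * hL (P.lift a) P.Z + ∑ i, (P.m1 i : ℂ) * P.eps i a = 0 := by
  have hs : (P.s : ℂ) ≠ 0 := by exact_mod_cast h.spos.ne'
  have h1 : P.ta a * P.s =
      P.y * hL (P.A a) P.Z + ∑ i, P.m1 i * (hL (P.A a) (P.ρ i) / hL P.Z (P.ρ i)) := by
    rw [Pw.ta, div_mul_cancel₀ _ hs]
  have h2 : ∀ i, P.eps i a = hL (P.A a) (P.ρ i) / hL P.Z (P.ρ i) + P.ta a := by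
    intro i
    rw [Pw.eps, Pw.lift, hL_add, hL_smul, add_div, mul_div_assoc, div_self (h.ne i), mul_one]
  have h3 : ∑ i, (P.m1 i : ℂ) * P.eps i a =
      ∑ i, P.m1 i * (hL (P.A a) (P.ρ i) / hL P.Z (P.ρ i)) + P.ta a * ∑ i, (P.m1 i : ℂ) := by
    rw [Finset.mul_sum, ← Finset.sum_add_distrib]
    exact Finset.sum_congr rfl fun i _ => by rw [h2]; ring
  rw [h3, Pw.lift, hL_add, hL_smul]
  linear_combination -h1 + P.ta a * yZZ P h + P.ta a * s_cast P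

theorem form_re (c : ι → ℝ) (a : E) :
    (P.form c a a).re = P.y * (hL (P.lift a) (P.lift a)).re + ∑ i, c i * ‖P.eps i a‖ ^ 2 := by
  rw [Pw.form, Complex.add_re, Complex.re_sum, Complex.re_ofReal_mul]
  congr 1
  refine Finset.sum_congr rfl fun i _ => ?_
  rw [Complex.re_ofReal_mul, Complex.mul_conj, Complex.ofReal_re, Complex.normSq_eq_norm_sq]

/-- splitting of `H` along `Z` -/
theorem H_split (h : P.Ok) (a : E) (t : ℂ) :
    (P.H a a).re = P.y * (hL (P.lift a - t • P.Z) (P.lift a - t • P.Z)).re +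
      ∑ i, P.m1 i * ‖P.eps i a - t‖ ^ 2 + P.s * ‖t‖ ^ 2 := by
  have h1 := lift_perp P h a
  have h2 := congrArg conj h1
  rw [map_add, map_mul, Complex.conj_ofReal, map_zero] at h2
  have h3 : ∑ i, (P.m1 i : ℂ) * ((P.eps i a - t) * conj (P.eps i a - t)) =
      ∑ i, (P.m1 i : ℂ) * (P.eps i a * conj (P.eps i a)) -
        conj t * ∑ i, (P.m1 i : ℂ) * P.eps i a - t * conj (∑ i, (P.m1 i : ℂ) * P.eps i a) +
        t * conj t * ∑ i, (P.m1 i : ℂ) := by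
    rw [map_sum, Finset.mul_sum, Finset.mul_sum, Finset.mul_sum, ← Finset.sum_sub_distrib,
      ← Finset.sum_sub_distrib, ← Finset.sum_add_distrib]
    refine Finset.sum_congr rfl fun i _ => ?_
    rw [map_sub, map_mul, Complex.conj_ofReal]; ring
  have h4 : hL (P.lift a - t • P.Z) (P.lift a - t • P.Z) =
      hL (P.lift a) (P.lift a) - conj t * hL (P.lift a) P.Z - t * conj (hL (P.lift a) P.Z) +
        t * conj t * hL P.Z P.Z := by
    simp only [hL, Pi.sub_apply, Pi.smul_apply, smul_eq_mul, map_sub, map_mul, map_add, map_neg,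
      Complex.conj_conj]
    ring
  have h5 : P.H a a = P.y * hL (P.lift a - t • P.Z) (P.lift a - t • P.Z) +
      ∑ i, (P.m1 i : ℂ) * ((P.eps i a - t) * conj (P.eps i a - t)) + P.s * (t * conj t) := by
    rw [h3, h4, Pw.H, Pw.form]
    linear_combination conj t * h1 + t * h2 - t * conj t * yZZ P h - t * conj t * s_cast P
  rw [h5, Complex.add_re, Complex.add_re, Complex.re_sum, Complex.re_ofReal_mul,
    Complex.re_ofReal_mul, Complex.mul_conj, Complex.ofReal_re, Complex.normSq_eq_norm_sq]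
  congr 2
  refine Finset.sum_congr rfl fun i _ => ?_
  rw [Complex.re_ofReal_mul, Complex.mul_conj, Complex.ofReal_re, Complex.normSq_eq_norm_sq]

theorem cs_two {d s H : ℝ} (hd : 0 < d) (hs : 0 < s) (b t : ℂ)
    (h : d * ‖b - t‖ ^ 2 + s * ‖t‖ ^ 2 ≤ H) : ‖b‖ ^ 2 ≤ H * (1 / d + 1 / s) := by
  have h1 : ‖b‖ ≤ ‖b - t‖ + ‖t‖ := by simpa using norm_add_le (b - t) t
  have h2 : ‖b‖ ^ 2 ≤ (‖b - t‖ + ‖t‖) ^ 2 := pow_le_pow_left₀ (norm_nonneg _) h1 2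
  have h3 : (‖b - t‖ + ‖t‖) ^ 2 ≤ (d * ‖b - t‖ ^ 2 + s * ‖t‖ ^ 2) * (1 / d + 1 / s) := by
    have : (d * ‖b - t‖ ^ 2 + s * ‖t‖ ^ 2) * (1 / d + 1 / s) - (‖b - t‖ + ‖t‖) ^ 2 =
        (d * ‖b - t‖ - s * ‖t‖) ^ 2 / (d * s) := by
      field_simp; ring
    have h4 : 0 ≤ (d * ‖b - t‖ - s * ‖t‖) ^ 2 / (d * s) := by positivity
    linarith
  exact h2.trans (h3.trans (mul_le_mul_of_nonneg_right h (by positivity)))

theorem sq_complete {d n : ℝ} (hn : 0 < n) (hnd : n ≤ d) (b t : ℂ) :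
    (d - d ^ 2 / n) * ‖t‖ ^ 2 ≤ d * ‖b - t‖ ^ 2 + (n - d) * ‖b‖ ^ 2 := by
  have h1 : ‖b‖ ≤ ‖b - t‖ + ‖t‖ := by simpa using norm_add_le (b - t) t
  have h2 : ‖b‖ ^ 2 ≤ (‖b - t‖ + ‖t‖) ^ 2 := pow_le_pow_left₀ (norm_nonneg _) h1 2
  have h3 : (n - d) * (‖b - t‖ + ‖t‖) ^ 2 ≤ (n - d) * ‖b‖ ^ 2 :=
    mul_le_mul_of_nonpos_left h2 (by linarith)
  have h4 : d * ‖b - t‖ ^ 2 + (n - d) * (‖b - t‖ + ‖t‖) ^ 2 - (d - d ^ 2 / n) * ‖t‖ ^ 2 =
      (n * ‖b - t‖ + (n - d) * ‖t‖) ^ 2 / n := by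
    field_simp; ring
  have h5 : 0 ≤ (n * ‖b - t‖ + (n - d) * ‖t‖) ^ 2 / n := by positivity
  linarith

end Pool.Agent.P.MP_5d7cf0_gt.IneqAP

namespace Pool.Agent.P.MP_5d7cf0_gt

open IneqAP

theorem pIneqA : S_IneqA := by
  intro κ _ P K hG a
  have h := hG.ok
  set t := P.eps none a with ht
  set w : C4 := P.lift a - t • P.Z with hw
  have hwρ : ∀ i, hL w (P.ρ i) = (P.eps i a - t) * hL P.Z (P.ρ i) := by
    intro i
    rw [hw, hL_sub, hL_smul, eps_mul P h]; ring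
  have hwn : hL w (P.ρ none) = 0 := by rw [hwρ, ht, sub_self, zero_mul]
  have hn : (hL (P.ρ none) (P.ρ none)).re ≤ 0 := by
    rcases hG.iso with h1 | h1
    · exact le_of_eq h1
    · exact h1.1
  have hn0 : P.ρ none ≠ 0 := by
    intro h0
    apply h.ne none
    rw [h0]; simp [hL]
  have hB := bessel (fun i => P.ρ (some i)) hn hn0 hwn
    (fun i => h.orth _ _ (Option.some_ne_none i))
    (fun i => by rw [hL_self_eq]; exact_mod_cast hG.unit i)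
    (fun i j hij => h.orth _ _ fun e => hij (Option.some.inj e))
  have hB2 : ∑ i, P.x (some i) * ‖P.eps (some i) a - t‖ ^ 2 ≤ P.y * (hL w w).re := by
    refine le_trans (le_of_eq ?_) (mul_le_mul_of_nonneg_left hB h.ypos.le)
    rw [Finset.mul_sum]
    refine Finset.sum_congr rfl fun i _ => ?_
    rw [hwρ, norm_mul, Pw.x]; ring
  have hD : ∀ i, P.D (some i) = P.x (some i) + P.m1 (some i) := fun i => by
    rw [Pw.D, hG.unit, one_mul]
  have hH := H_split P h a t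
  rw [← hw, Fintype.sum_option, ← ht, sub_self, norm_zero] at hH
  have hH2 : ∑ i, P.D (some i) * ‖P.eps (some i) a - t‖ ^ 2 + P.s * ‖t‖ ^ 2 ≤ (P.H a a).re := by
    have : ∑ i, P.D (some i) * ‖P.eps (some i) a - t‖ ^ 2 =
        ∑ i, P.x (some i) * ‖P.eps (some i) a - t‖ ^ 2 +
          ∑ i, P.m1 (some i) * ‖P.eps (some i) a - t‖ ^ 2 := by
      rw [← Finset.sum_add_distrib]
      exact Finset.sum_congr rfl fun i _ => by rw [hD]; ring
    rw [this, hH]; linarith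
  have hterm : ∀ i, 0 ≤ P.D (some i) * ‖P.eps (some i) a - t‖ ^ 2 := fun i =>
    mul_nonneg (h.Dpos _).le (sq_nonneg _)
  have hsum : 0 ≤ ∑ i, P.D (some i) * ‖P.eps (some i) a - t‖ ^ 2 :=
    Finset.sum_nonneg fun i _ => hterm i
  have hone : ∀ i, P.D (some i) * ‖P.eps (some i) a - t‖ ^ 2 + P.s * ‖t‖ ^ 2 ≤ (P.H a a).re := by
    intro i
    have := Finset.single_le_sum (f := fun i => P.D (some i) * ‖P.eps (some i) a - t‖ ^ 2)
      (fun i _ => hterm i) (Finset.mem_univ i)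
    linarith
  have hst : 0 ≤ P.s * ‖t‖ ^ 2 := mul_nonneg h.spos.le (sq_nonneg _)
  refine ⟨fun ha => ?_, by linarith, fun i => cs_two (h.Dpos _) h.spos _ t (hone i), ?_⟩
  · by_contra hc
    push Not at hc
    have ht0 : t = 0 := by
      have h1 : P.s * ‖t‖ ^ 2 = 0 := by linarith
      simpa [h.spos.ne'] using h1
    have he : ∀ i, P.eps i a = 0 := by
      rintro (_ | i)
      · exact ht0
      · have h1 : P.D (some i) * ‖P.eps (some i) a - t‖ ^ 2 = 0 := by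
          linarith [hone i, hterm i]
        simpa [(h.Dpos (some i)).ne', ht0] using h1
    have h1 := lift_perp P h a
    simp only [he, mul_zero, Finset.sum_const_zero, add_zero, mul_eq_zero, Complex.ofReal_eq_zero,
      h.ypos.ne', false_or] at h1
    have h2 := form_re P P.m1 a
    simp only [he, norm_zero, ne_eq, OfNat.ofNat_ne_zero, not_false_eq_true, zero_pow, mul_zero,
      Finset.sum_const_zero, add_zero] at h2
    have h3 : (hL (P.lift a) (P.lift a)).re ≤ 0 := by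
      by_contra h4
      push Not at h4
      have := mul_pos h.ypos h4
      rw [Pw.H] at hc
      linarith
    have h4 := zero_perp h.neg h1 h3
    rw [Pw.lift, add_comm] at h4
    exact ha (h.inj _ _ h4).2
  · have hN : (P.N a a).re = (P.H a a).re + ∑ i, (P.m2 i - P.m1 i) * ‖P.eps i a‖ ^ 2 := by
      rw [Pw.N, Pw.H, form_re, form_re, add_assoc, ← Finset.sum_add_distrib]
      congr 1
      exact Finset.sum_congr rfl fun i _ => by ring
    rw [Fintype.sum_option, ← ht] at hN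
    have hs : P.s = 1 + (P.m0 none - P.m1 none) + ∑ i, (P.m0 (some i) - P.m1 (some i)) := by
      rw [Pw.s, Fintype.sum_option]; ring
    have hi : ∀ i, -(1 / 1000) * ‖t‖ ^ 2 ≤ P.D (some i) * ‖P.eps (some i) a - t‖ ^ 2 +
        (P.m2 (some i) - P.m1 (some i)) * ‖P.eps (some i) a‖ ^ 2 +
        (P.m0 (some i) - P.m1 (some i)) * ‖t‖ ^ 2 := by
      intro i
      have hr := hG.root i
      have h1 := sq_complete (d := P.D (some i)) hr.h4 (by rw [hD]; linarith [hr.h5])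
        (P.eps (some i) a) t
      have h2 := (abs_le.1 hr.h6).1
      rw [hD] at h1 ⊢
      have h3 := mul_le_mul_of_nonneg_right h2 (sq_nonneg ‖t‖)
      nlinarith
    have h1 := Finset.sum_le_sum fun i (_ : i ∈ Finset.univ) => hi i
    rw [Finset.sum_add_distrib, Finset.sum_add_distrib, ← Finset.sum_mul, ← Finset.sum_mul,
      Finset.sum_const, Finset.card_univ, nsmul_eq_mul] at h1
    have h2 : (Fintype.card κ : ℝ) ≤ 3 := by exact_mod_cast hG.card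
    have h3 := mul_le_mul_of_nonneg_right h2 (sq_nonneg ‖t‖)
    rw [hs] at hH2
    rw [hN]
    nlinarith

end Pool.Agent.P.MP_5d7cf0_gt
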