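import Pool.Agent.P.MP_5d7cf0_gt.St

/-!
Two sided bound for the curvature expression.
-/

open ComplexConjugate

noncomputable section

namespace Pool.Agent.P.MP_5d7cf0_gt

namespace IneqBP

theorem real_cs {p q r : ℝ} (h : ∀ a b : ℝ, 0 ≤ a ^ 2 * p + b ^ 2 * q + 2 * (a * b * r)) :
    r ^ 2 ≤ p * q := by
  have := discrim_le_zero (a := p) (b := 2 * r) (c := q) fun x => by nlinarith [h x 1]
  rw [discrim] at this
  nlinarith

theorem gram_mono {p q r p' q' r' : ℝ}
    (h : ∀ a b : ℝ, 0 ≤ a ^ 2 * p + b ^ 2 * q + 2 * (a * b * r))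
    (h' : ∀ a b : ℝ, a ^ 2 * p + b ^ 2 * q + 2 * (a * b * r) ≤
      a ^ 2 * p' + b ^ 2 * q' + 2 * (a * b * r')) : p * q - r ^ 2 ≤ p' * q' - r' ^ 2 := by
  have h1 := real_cs h
  have h2 : (r' - r) ^ 2 ≤ (p' - p) * (q' - q) := real_cs fun a b => by nlinarith [h' a b]
  have a1 : 0 ≤ p := by simpa using h 1 0
  have a2 : 0 ≤ q := by simpa using h 0 1
  have a3 : 0 ≤ p' - p := by simpa using h' 1 0
  have a4 : 0 ≤ q' - q := by simpa using h' 0 1
  have h3 : (2 * (r * (r' - r))) ^ 2 ≤ (p * (q' - q) + q * (p' - p)) ^ 2 := by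
    have := mul_le_mul h1 h2 (sq_nonneg _) (mul_nonneg a1 a2)
    nlinarith [sq_nonneg (p * (q' - q) - q * (p' - p))]
  have h4 := abs_le_of_sq_le_sq' h3 (by positivity)
  nlinarith [h4.2]

/-- the value of a Hermitian form of two variables -/
def qd (p q : ℝ) (z α β : ℂ) : ℝ := ‖α‖ ^ 2 * p + ‖β‖ ^ 2 * q + 2 * (α * conj β * z).re

theorem qd_real (p q : ℝ) (z : ℂ) (a b : ℝ) :
    qd p q z a b = a ^ 2 * p + b ^ 2 * q + 2 * (a * b * z.re) := by
  simp [qd]

theorem cs {p q : ℝ} {z : ℂ} (h : ∀ α β, 0 ≤ qd p q z α β) : z.re ^ 2 + z.im ^ 2 ≤ p * q := by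
  have a1 : 0 ≤ p := by simpa [qd] using h 1 0
  have a2 : 0 ≤ q := by simpa [qd] using h 0 1
  have h1 : (z.re ^ 2 + z.im ^ 2) ^ 2 ≤ (z.re ^ 2 + z.im ^ 2) * p * q := real_cs fun a b => by
    have := h (a * conj z) b
    simp only [qd, Complex.sq_norm, Complex.normSq_apply, Complex.mul_re, Complex.mul_im,
      Complex.conj_re, Complex.conj_im, Complex.ofReal_re, Complex.ofReal_im] at this
    nlinarith
  rcases (by positivity : 0 ≤ z.re ^ 2 + z.im ^ 2).eq_or_lt with h0 | h0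
  · rw [← h0]; positivity
  · nlinarith

theorem norm_comb (e f α β : ℂ) :
    ‖α * e + β * f‖ ^ 2 = qd (‖e‖ ^ 2) (‖f‖ ^ 2) (e * conj f) α β := by
  simp only [qd, Complex.sq_norm, Complex.normSq_apply, Complex.mul_re, Complex.mul_im,
    Complex.conj_re, Complex.conj_im, Complex.add_re, Complex.add_im]
  ring

theorem gram_rank (e f : ℂ) :
    ‖e‖ ^ 2 * ‖f‖ ^ 2 - (e * conj f).re ^ 2 = (e * conj f).im ^ 2 := by
  simp only [Complex.sq_norm, Complex.normSq_apply, Complex.mul_re, Complex.mul_im,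
    Complex.conj_re, Complex.conj_im]
  ring

theorem lower {p q l : ℝ} {z e f : ℂ} (hl : 0 ≤ l)
    (h : ∀ α β, l * ‖α * e + β * f‖ ^ 2 ≤ qd p q z α β) :
    3 * l ^ 2 * (e * conj f).im ^ 2 ≤ p * q - z.re ^ 2 + 3 * z.im ^ 2 := by
  have h0 : ∀ α β, 0 ≤ qd (p - l * ‖e‖ ^ 2) (q - l * ‖f‖ ^ 2) (z - l * (e * conj f)) α β := by
    intro α β
    have := h α β
    rw [norm_comb] at this
    simp only [qd, Complex.mul_re, Complex.mul_im, Complex.sub_re, Complex.sub_im,
      Complex.ofReal_re, Complex.ofReal_im] at this ⊢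
    nlinarith
  have h1 := cs h0
  have h2 := mul_nonneg hl (h0 (conj f) (-conj e))
  have h3 := gram_rank e f
  have e1 : conj f * conj (-conj e) = -(e * conj f) := by simp [mul_comm]
  rw [qd, e1, norm_neg, Complex.norm_conj, Complex.norm_conj] at h2
  generalize e * conj f = w at *
  generalize ‖e‖ ^ 2 = A at *
  generalize ‖f‖ ^ 2 = B at *
  simp only [Complex.mul_re, Complex.mul_im, Complex.sub_re, Complex.sub_im, Complex.ofReal_re,
    Complex.ofReal_im, Complex.neg_re, Complex.neg_im, zero_mul, sub_zero, add_zero] at h1 h2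
  have h4 : l ^ 2 * (A * B - w.re ^ 2) = l ^ 2 * w.im ^ 2 := by rw [h3]
  nlinarith [sq_nonneg (l * w.im + 2 * (z.im - l * w.im))]

theorem upper_rank {p q μ : ℝ} {z e f : ℂ}
    (h : ∀ α β, ‖α * e + β * f‖ ^ 2 ≤ qd p q z α β * μ) :
    (e * conj f).im ^ 2 ≤ μ ^ 2 * (p * q - z.re ^ 2) := by
  have := gram_mono (p := ‖e‖ ^ 2) (q := ‖f‖ ^ 2) (r := (e * conj f).re) (p' := μ * p)
    (q' := μ * q) (r' := μ * z.re)
    (fun a b => by rw [← qd_real, ← norm_comb]; positivity)
    (fun a b => by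
      have := h a b
      rw [norm_comb, qd_real, qd_real] at this
      nlinarith)
  rw [gram_rank] at this
  nlinarith

theorem upper_form {p q p' q' μ : ℝ} {z z' : ℂ} (h0 : ∀ α β, 0 ≤ qd p q z α β)
    (h : ∀ α β, qd p q z α β ≤ μ * qd p' q' z' α β) :
    p * q - z.re ^ 2 + 3 * z.im ^ 2 ≤ 4 * μ ^ 2 * (p' * q' - z'.re ^ 2) := by
  have := gram_mono (p := p) (q := q) (r := z.re) (p' := μ * p') (q' := μ * q') (r' := μ * z'.re)
    (fun a b => by rw [← qd_real]; exact h0 a b)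
    (fun a b => by
      have := h a b
      rw [qd_real, qd_real] at this
      nlinarith)
  nlinarith [cs h0]

theorem hL_comb (α β : ℂ) (u v w : C4) : hL (α • u + β • v) w = α * hL u w + β * hL v w := by
  simp only [hL, Pi.add_apply, Pi.smul_apply, smul_eq_mul]
  ring

theorem hL_qd (α β : ℂ) (u v : C4) :
    (hL (α • u + β • v) (α • u + β • v)).re = qd (hL u u).re (hL v v).re (hL u v) α β := by
  simp only [hL, qd, Pi.add_apply, Pi.smul_apply, smul_eq_mul, Complex.sq_norm,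
    Complex.normSq_apply, Complex.mul_re, Complex.mul_im, Complex.conj_re, Complex.conj_im,
    Complex.add_re, Complex.add_im, Complex.neg_re, Complex.neg_im]
  ring

variable {ι : Type} [Fintype ι] (P : Pw ι)

theorem ta_comb (α β : ℂ) (u v : E) : P.ta (α • u + β • v) = α * P.ta u + β * P.ta v := by
  simp only [Pw.ta, map_add, map_smul, hL_comb, ← mul_div_assoc α, ← mul_div_assoc β, ← add_div,
    mul_add, Finset.mul_sum]
  congr 1
  rw [add_add_add_comm, ← Finset.sum_add_distrib]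
  congr 1
  · ring
  · exact Finset.sum_congr rfl fun i _ => by ring

theorem lift_comb (α β : ℂ) (u v : E) :
    P.lift (α • u + β • v) = α • P.lift u + β • P.lift v := by
  simp only [Pw.lift, map_add, map_smul, ta_comb, add_smul, smul_add, mul_smul]
  abel

theorem eps_comb (i : ι) (α β : ℂ) (u v : E) :
    P.eps i (α • u + β • v) = α * P.eps i u + β * P.eps i v := by
  simp only [Pw.eps, lift_comb, hL_comb]
  ring

theorem form_re (c : ι → ℝ) (a : E) :
    (P.form c a a).re = P.y * (hL (P.lift a) (P.lift a)).re + ∑ i, c i * ‖P.eps i a‖ ^ 2 := by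
  simp only [Pw.form, Complex.add_re, Complex.re_sum, Complex.re_ofReal_mul, Complex.mul_conj,
    Complex.ofReal_re, Complex.sq_norm]

theorem form_qd (c : ι → ℝ) (α β : ℂ) (u v : E) :
    (P.form c (α • u + β • v) (α • u + β • v)).re =
      qd (P.form c u u).re (P.form c v v).re (P.form c u v) α β := by
  rw [form_re, form_re, form_re, lift_comb, hL_qd]
  simp only [eps_comb, norm_comb, qd, Pw.form, mul_add, Finset.mul_sum, Complex.add_re,
    Complex.re_sum, Finset.sum_add_distrib]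
  have e1 : ∀ (r : ℝ) (z : ℂ), (α * conj β * (r * z)).re = r * (α * conj β * z).re := fun r z => by
    rw [mul_left_comm, Complex.re_ofReal_mul]
  simp only [e1]
  have e2 : ∀ (t : ℝ) (g : ι → ℝ), ∑ i, c i * (t * g i) = ∑ i, t * (c i * g i) := fun t g =>
    Finset.sum_congr rfl fun i _ => by ring
  rw [e2, e2, e2]
  ring

theorem num_low {U z W s : ℝ} (hU : 1 ≤ U) (hz : 1 / 2 ≤ z) (hW : W * U ≤ 5 / 4 * z ^ 2)
    (hs : 0 < s) (hs' : s ≤ U + 3 / 1000) : 2 * W ≤ 3 * (z - 3 / 1000) ^ 2 / s := by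
  rw [le_div_iff₀ hs]
  rcases le_or_gt W 0 with h | h
  · nlinarith [mul_nonneg (neg_nonneg.2 h) hs.le, sq_nonneg (z - 3 / 1000)]
  · have h1 : W * s ≤ W * (U * (1003 / 1000)) := mul_le_mul_of_nonneg_left (by linarith) h.le
    nlinarith

theorem num_N {U V s K : ℝ} (hU : 1 ≤ U) (hs : U - 6 / 1000 ≤ s) (hV : V ^ 2 ≤ K * U ^ 3) :
    4 * (1 + |V| / s) ^ 2 / s ≤ 16 + 64 * |K| := by
  have hs0 : 0 < s := by linarith
  have h1 : (1 + |V| / s) ^ 2 ≤ 2 + 2 * (V ^ 2 / s ^ 2) := by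
    rw [← sq_abs V, ← div_pow]
    nlinarith [sq_nonneg (1 - |V| / s)]
  have h2 : V ^ 2 ≤ |K| * (2 * s) ^ 3 :=
    hV.trans (mul_le_mul (le_abs_self K) (pow_le_pow_left₀ (by linarith) (by linarith) 3)
      (by positivity) (abs_nonneg K))
  have h3 : V ^ 2 / s ^ 2 ≤ 8 * |K| * s := by
    rw [div_le_iff₀ (by positivity)]
    nlinarith
  rw [div_le_iff₀ hs0]
  nlinarith

theorem num_cusp {U W s K : ℝ} (hU : 1 ≤ U) (hs : U - 6 / 1000 ≤ s) (hW : |W| ≤ K * U ^ 2) :
    |W| * (1 / s) ^ 2 ≤ 4 * |K| := by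
  have hs0 : 0 < s := by linarith
  have h2 : |W| ≤ |K| * (2 * s) ^ 2 :=
    hW.trans (mul_le_mul (le_abs_self K) (pow_le_pow_left₀ (by linarith) (by linarith) 2)
      (by positivity) (abs_nonneg K))
  rw [div_pow, one_pow, mul_one_div, div_le_iff₀ (by positivity)]
  nlinarith

theorem num_root {d n s K : ℝ} (hd : 0 < d) (hs : 1 / 2 ≤ s) (h0 : 0 ≤ n) (h1 : n ≤ K * d ^ 3)
    (h2 : n ≤ K * d) : n / d * (1 / d + 1 / s) ^ 2 ≤ 10 * |K| := by
  have a1 : n / d * (1 / d) ^ 2 ≤ |K| := by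
    have : n / d * (1 / d) ^ 2 = n / d ^ 3 := by field_simp
    rw [this, div_le_iff₀ (by positivity)]
    exact h1.trans (mul_le_mul_of_nonneg_right (le_abs_self K) (by positivity))
  have a2 : n / d ≤ |K| := by
    rw [div_le_iff₀ hd]
    exact h2.trans (mul_le_mul_of_nonneg_right (le_abs_self K) hd.le)
  have a3 : 1 / s ≤ 2 := by rw [div_le_iff₀ (by linarith)]; linarith
  have a4 : (1 / s) ^ 2 ≤ 2 ^ 2 := pow_le_pow_left₀ (by positivity) a3 2
  have a5 : 0 ≤ n / d := by positivity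
  have a6 : n / d * (1 / s) ^ 2 ≤ |K| * 2 ^ 2 := mul_le_mul a2 a4 (by positivity) (abs_nonneg K)
  have a7 : (1 / d + 1 / s) ^ 2 ≤ 2 * (1 / d) ^ 2 + 2 * (1 / s) ^ 2 := by
    nlinarith [sq_nonneg (1 / d - 1 / s)]
  nlinarith [mul_le_mul_of_nonneg_left a7 a5]

end IneqBP

open IneqBP in
theorem pIneqB (hA : S_IneqA) : S_IneqB := by
  intro K
  refine ⟨16 + 132 * |K|, by positivity, fun κ _ P G u v => ?_⟩
  have hs := G.ok.spos
  have hU : 1 ≤ 1 + P.m0 none - P.m1 none := by linarith [G.cusp.h1, G.cusp.h2]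
  have hcard : (Fintype.card κ : ℝ) ≤ 3 := by exact_mod_cast G.card
  have hs0 : P.s = 1 + P.m0 none - P.m1 none + ∑ i, (P.m0 (some i) - P.m1 (some i)) := by
    rw [Pw.s, Fintype.sum_option]; ring
  have hs1 : P.s ≤ 1 + P.m0 none - P.m1 none + 3 / 1000 := by
    have := Finset.sum_le_card_nsmul Finset.univ (fun i => P.m0 (some i) - P.m1 (some i))
      (1 / 1000) fun i _ => by linarith [(G.root i).h1, (abs_le.1 (G.root i).h3).2]
    rw [nsmul_eq_mul, Finset.card_univ] at this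
    linarith
  have hs2 : 1 + P.m0 none - P.m1 none - 6 / 1000 ≤ P.s := by
    have := Finset.card_nsmul_le_sum Finset.univ (fun i => P.m0 (some i) - P.m1 (some i))
      (-(2 / 1000)) fun i _ => by linarith [(G.root i).h2, (abs_le.1 (G.root i).h3).1]
    rw [nsmul_eq_mul, Finset.card_univ] at this
    linarith
  have hD : ∀ i, P.D (some i) = P.x (some i) + P.m1 (some i) := fun i => by
    rw [Pw.D, G.unit, one_mul]
  have hc0 : P.c none = -((P.m2 none - P.m3 none) - (P.m1 none - P.m2 none)) := by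
    rcases G.iso with h | ⟨-, -, h1, h2, h3⟩
    · rw [Pw.c, h]; ring
    · rw [Pw.c, h1, h2, h3]; ring
  have hc1 : ∀ i, P.c (some i) = ((P.x (some i) + P.m1 (some i)) * (P.x (some i) + P.m3 (some i)) -
      (P.x (some i) + P.m2 (some i)) ^ 2) / (P.x (some i) + P.m1 (some i)) := fun i => by
    have := (hD i ▸ G.ok.Dpos (some i)).ne'
    rw [Pw.c, G.unit, hD]
    field_simp
    ring
  have hl : 0 ≤ 1 + P.m0 none - P.m1 none - (P.m1 none - P.m2 none) - 3 / 1000 := by
    linarith [G.cusp.h3]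
  have hH : ∀ α β : ℂ, (P.H (α • u + β • v) (α • u + β • v)).re =
    qd (P.H u u).re (P.H v v).re (P.H u v) α β := fun α β => form_qd P _ α β u v
  have hN : ∀ α β : ℂ, (P.N (α • u + β • v) (α • u + β • v)).re =
    qd (P.N u u).re (P.N v v).re (P.N u v) α β := fun α β => form_qd P _ α β u v
  have A := hA κ P K G
  have L := lower (e := P.eps none u) (f := P.eps none v) hl fun α β => by
    rw [← hN, ← eps_comb]; exact (A _).2.2.2
  rw [Pw.S, Fintype.sum_option, hc0]
  constructor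
  · have h1 : 0 ≤ ∑ i, P.c (some i) * (P.eps (some i) u * conj (P.eps (some i) v)).im ^ 2 :=
      Finset.sum_nonneg fun i _ => mul_nonneg (by
        rw [hc1]; exact div_nonneg (G.root i).h7 (hD i ▸ G.ok.Dpos (some i)).le) (sq_nonneg _)
    have h2 := mul_le_mul_of_nonneg_right (num_low hU G.cusp.h3 G.cusp.h4 hs hs1)
      (sq_nonneg (P.eps none u * conj (P.eps none v)).im)
    have h3 := div_le_div_of_nonneg_right L hs.le
    rw [div_mul_eq_mul_div] at h2
    linarith
  have hG : 0 ≤ (P.H u u).re * (P.H v v).re - (P.H u v).re ^ 2 := by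
    have := cs (p := (P.H u u).re) (q := (P.H v v).re) (z := P.H u v) fun α β => by
      rw [← hH]; exact (mul_nonneg hs.le (sq_nonneg _)).trans (A _).2.1
    nlinarith [sq_nonneg (P.H u v).im]
  have U1 := upper_form (μ := 1 + |P.m1 none - P.m2 none| / P.s) (p' := (P.H u u).re)
    (q' := (P.H v v).re) (z' := P.H u v)
    (fun α β => by rw [← hN]; exact (mul_nonneg hl (sq_nonneg _)).trans (A _).2.2.2)
    fun α β => by
      rw [← hN, ← hH]
      generalize α • u + β • v = a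
      have b1 : ‖P.eps none a‖ ^ 2 ≤ (P.H a a).re / P.s := by
        rw [le_div_iff₀ hs, mul_comm]; exact (A a).2.1
      have b2 := mul_le_mul (neg_le_abs (P.m1 none - P.m2 none)) b1 (sq_nonneg _) (abs_nonneg _)
      have b3 : ∑ i, P.m2 (some i) * ‖P.eps (some i) a‖ ^ 2 ≤
          ∑ i, P.m1 (some i) * ‖P.eps (some i) a‖ ^ 2 := Finset.sum_le_sum fun i _ =>
        mul_le_mul_of_nonneg_right (G.root i).h5 (sq_nonneg _)
      have b4 : (P.N a a).re = _ := form_re P _ a
      have b5 : (P.H a a).re = _ := form_re P _ a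
      rw [Fintype.sum_option] at b4 b5
      rw [add_mul, div_mul_eq_mul_div, mul_div_assoc]
      linarith
  have U2 := upper_rank (e := P.eps none u) (f := P.eps none v) (μ := 1 / P.s)
    (p := (P.H u u).re) (q := (P.H v v).re) (z := P.H u v) fun α β => by
      rw [← hH, ← eps_comb, mul_one_div, le_div_iff₀ hs, mul_comm]; exact (A _).2.1
  have U3 : ∀ i, P.c (some i) * (P.eps (some i) u * conj (P.eps (some i) v)).im ^ 2 ≤
      10 * |K| * ((P.H u u).re * (P.H v v).re - (P.H u v).re ^ 2) := fun i => by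
    have hd := hD i ▸ G.ok.Dpos (some i)
    have b1 := upper_rank (e := P.eps (some i) u) (f := P.eps (some i) v)
      (μ := 1 / P.D (some i) + 1 / P.s) (p := (P.H u u).re) (q := (P.H v v).re) (z := P.H u v)
      fun α β => by rw [← hH, ← eps_comb]; exact (A _).2.2.1 i
    have b2 := num_root (s := P.s) hd (by linarith) (G.root i).h7 (G.root i).h8 (G.root i).h9
    rw [hD] at b1
    rw [hc1]
    refine (mul_le_mul_of_nonneg_left b1 (div_nonneg (G.root i).h7 hd.le)).trans ?_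
    rw [← mul_assoc]
    exact mul_le_mul_of_nonneg_right b2 hG
  have V1 := mul_le_mul_of_nonneg_right (num_N hU hs2 G.cusp.h6) hG
  have V2 := mul_le_mul_of_nonneg_right (num_cusp hU hs2 G.cusp.h5) hG
  have V3 := Finset.sum_le_card_nsmul Finset.univ _ _ fun i _ => U3 i
  rw [nsmul_eq_mul, Finset.card_univ] at V3
  have V4 := mul_le_mul_of_nonneg_right hcard (mul_nonneg (by positivity : 0 ≤ 10 * |K|) hG)
  have V5 := div_le_div_of_nonneg_right U1 hs.le
  have V6 := mul_le_mul (neg_le_abs ((P.m2 none - P.m3 none) - (P.m1 none - P.m2 none))) U2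
    (sq_nonneg _) (abs_nonneg _)
  rw [div_mul_eq_mul_div] at V1
  rw [← mul_assoc] at V6
  linarith

end Pool.Agent.P.MP_5d7cf0_gt
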