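import Pool.Agent.P.MP_5d7cf0_gt.St

/-!
Invariance under all local maps that preserve the projective class.
-/

open Set Filter Topology
open scoped ContDiff

namespace Pool.Agent.P.MP_5d7cf0_gt

theorem iso_act {x y : E} (hx : x ∈ X) (h : Iso x y) : ∃ σ, y = act σ x := by
  obtain ⟨σ, α, β, γ, δ, c, hD, h⟩ := h
  have hb : ∀ i j, br (pt y i) (pt y j) =
      (α * δ - β * γ) * c i * c j * br (pt x (σ i)) (pt x (σ j)) := fun i j => by
    rw [h i, h j]
    simp only [br, Prod.smul_mk, smul_eq_mul]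
    ring
  have hc : ∀ i, c i ≠ 0 := fun i h0 => by
    have := h i
    rw [h0, zero_smul] at this
    fin_cases i <;> simp [pt] at this
  refine ⟨σ, funext fun k => ?_⟩
  have e : y k = cr (pt y 0) (pt y 4) (pt y 5) (pt y (![1, 2, 3] k)) := by
    fin_cases k <;> simp [cr, br, pt]
  have h1 := hx (σ (![1, 2, 3] k)) (σ 5) (σ.injective.ne (by fin_cases k <;> decide))
  have h2 := hx (σ 4) (σ 0) (σ.injective.ne (by decide))
  rw [e, act, cr, cr, hb, hb, hb, hb]
  have := hc 0
  have := hc 4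
  have := hc 5
  have := hc (![1, 2, 3] k)
  field_simp

theorem inv_iso (hA : S_Act) {g : Met} (hg : ContinuousOn g X)
    (hi : ∀ σ, ∀ x ∈ X, ∀ u v,
      g (act σ x) (fderiv ℝ (act σ) x u) (fderiv ℝ (act σ) x v) = g x u v)
    (φ : E → E) {x : E} (hx : x ∈ X) (hφ : ContDiffAt ℝ 1 φ x) (h : ∀ᶠ y in 𝓝 x, Iso y (φ y))
    (u v : E) : g (φ x) (fderiv ℝ φ x u) (fderiv ℝ φ x v) = g x u v := by
  by_contra hne
  have hφx : φ x ∈ X := by
    obtain ⟨σ, e⟩ := iso_act hx h.self_of_nhds
    exact e ▸ ((hA.2 σ).1 x hx).1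
  have d1 : ContinuousAt (fderiv ℝ φ) x := (hφ.fderiv_right (m := 0) le_rfl).continuousAt
  have c1 : ContinuousAt (fun y => g (φ y) (fderiv ℝ φ y u) (fderiv ℝ φ y v)) x :=
    (((hg.continuousAt (hA.1.mem_nhds hφx)).comp hφ.continuousAt).clm_apply
      (d1.clm_apply continuousAt_const)).clm_apply (d1.clm_apply continuousAt_const)
  have c2 : ContinuousAt (fun y => g y u v) x :=
    ((hg.continuousAt (hA.1.mem_nhds hx)).clm_apply continuousAt_const).clm_apply
      continuousAt_const
  obtain ⟨r, hr, hb⟩ := Metric.nhds_basis_closedBall.mem_iff.mp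
    ((h.and (hA.1.mem_nhds hx)).and (((c1.sub c2).eventually_ne (sub_ne_zero.mpr hne)).and (hφ.eventually (by simp))))
  obtain ⟨y, hy, hy'⟩ := (dense_iUnion_interior_of_closed
    (f := fun o : Option (Equiv.Perm (Fin 6)) => o.elim (Metric.ball x r)ᶜ
      fun σ => Metric.closedBall x r ∩ (fun y => φ y - act σ y) ⁻¹' {0})
    (fun o => by
      rcases o with _ | σ
      · exact Metric.isOpen_ball.isClosed_compl
      · exact ContinuousOn.preimage_isClosed_of_isClosed (fun y hy =>
          ((hb hy).2.2.continuousAt.sub ((hA.2 σ).1 y (hb hy).1.2).2.2.continuousAt).continuousWithinAt)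
          Metric.isClosed_closedBall isClosed_singleton)
    (eq_univ_of_forall fun y => by
      by_cases hy : y ∈ Metric.ball x r
      · have hy' := Metric.ball_subset_closedBall hy
        obtain ⟨σ, e⟩ := iso_act (hb hy').1.2 (hb hy').1.1
        exact mem_iUnion.mpr ⟨some σ, hy', sub_eq_zero.mpr e⟩
      · exact mem_iUnion.mpr ⟨none, hy⟩)).inter_open_nonempty _ Metric.isOpen_ball
          ⟨x, Metric.mem_ball_self hr⟩
  obtain ⟨o, ho⟩ := mem_iUnion.mp hy'
  rcases o with _ | σ
  · exact interior_subset ho hy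
  · have e : φ =ᶠ[𝓝 y] act σ := by
      filter_upwards [mem_interior_iff_mem_nhds.mp ho] with z hz using sub_eq_zero.mp hz.2
    have hy2 := hb (Metric.ball_subset_closedBall hy)
    refine hy2.2.1 (sub_eq_zero.mpr ?_)
    simp only [e.self_of_nhds, e.fderiv_eq, hi σ y hy2.1.2]

end Pool.Agent.P.MP_5d7cf0_gt
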