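import Pool.Agent.P.MP_5d7cf0_gt.St

/-! Package KZ: the determinant of the period map. -/

open Set Filter Topology
open scoped ContDiff

noncomputable section

namespace Pool.Agent.P.MP_5d7cf0_gt

namespace KZP

/-- The determinant as a continuous multilinear map in the rows. -/
def dc : ContinuousMultilinearMap ℂ (fun _ : Fin 4 => C4) ℂ :=
  { (Matrix.detRowAlternating : (Fin 4 → ℂ) [⋀^Fin 4]→ₗ[ℂ] ℂ).toMultilinearMap with
    cont := Continuous.matrix_det (A := fun x : Fin 4 → C4 => Matrix.of x) continuous_id }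

theorem dc_apply (x : Fin 4 → C4) : dc x = (Matrix.of x).det := rfl

theorem hasDerivAt_det {A : ℂ → Fin 4 → C4} {A' : Fin 4 → C4} {t : ℂ}
    (h : ∀ i, HasDerivAt (fun s => A s i) (A' i) t) :
    HasDerivAt (fun s => (Matrix.of (A s)).det)
      (∑ i, ((Matrix.of (A t)).updateRow i (A' i)).det) t := by
  have h1 : HasDerivAt A A' t := hasDerivAt_pi.2 h
  have := (dc.hasFDerivAt (A t)).comp_hasDerivAt t h1
  rw [ContinuousMultilinearMap.linearDeriv_apply] at this
  have e : ∀ i, (Matrix.of (A t)).updateRow i (A' i) = Matrix.of (Function.update (A t) i (A' i)) :=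
    fun i => rfl
  simp only [e, ← dc_apply]
  exact this

/-- The determinant of the last four vectors. -/
def d4 (Q : Fin 5 → C4) : ℂ := (Matrix.of fun i : Fin 4 => Q i.succ).det

/-- The symmetric form of `d4`. -/
def d5 (Q : Fin 5 → C4) : ℂ := (Matrix.of fun k : Fin 5 => (Fin.cons 1 (Q k) : Fin 5 → ℂ)).det

theorem d5_perm (Q : Fin 5 → C4) (π : Equiv.Perm (Fin 5)) :
    d5 (fun k => Q (π k)) = ((Equiv.Perm.sign π : ℤ) : ℂ) * d5 Q :=
  Matrix.det_permute π (Matrix.of fun k : Fin 5 => (Fin.cons 1 (Q k) : Fin 5 → ℂ))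

theorem d5_eq (Q : Fin 5 → C4) (h : ∑ k, Q k = 0) : d5 Q = 5 * d4 Q := by
  have h1 := Matrix.det_updateRow_sum
    (Matrix.of fun k : Fin 5 => (Fin.cons 1 (Q k) : Fin 5 → ℂ)) 0 (fun _ => 1)
  have h2 : (∑ k : Fin 5, (1 : ℂ) • (Matrix.of fun k : Fin 5 => (Fin.cons 1 (Q k) : Fin 5 → ℂ)) k) =
      Fin.cons 5 (0 : Fin 4 → ℂ) := by
    funext j
    refine Fin.cases ?_ (fun j => ?_) j
    · simp
    · have := congrFun h j
      simpa [Finset.sum_apply] using this
  rw [h2, one_smul, Matrix.det_succ_row_zero, Fin.sum_univ_succ] at h1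
  rw [d5, ← h1]
  have h3 : ((Matrix.of fun k : Fin 5 => (Fin.cons 1 (Q k) : Fin 5 → ℂ)).updateRow 0
      (Fin.cons 5 (0 : Fin 4 → ℂ))).submatrix Fin.succ (Fin.succAbove 0) =
      Matrix.of fun i : Fin 4 => Q i.succ := by
    ext i j
    simp
  rw [h3]
  simp [d4]

theorem det4 (a b c d : C4) : (Matrix.of ![a, b, c, d]).det =
    a 0 * (b 1 * (c 2 * d 3 - c 3 * d 2) - b 2 * (c 1 * d 3 - c 3 * d 1) +
      b 3 * (c 1 * d 2 - c 2 * d 1)) -
    a 1 * (b 0 * (c 2 * d 3 - c 3 * d 2) - b 2 * (c 0 * d 3 - c 3 * d 0) +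
      b 3 * (c 0 * d 2 - c 2 * d 0)) +
    a 2 * (b 0 * (c 1 * d 3 - c 3 * d 1) - b 1 * (c 0 * d 3 - c 3 * d 0) +
      b 3 * (c 0 * d 1 - c 1 * d 0)) -
    a 3 * (b 0 * (c 1 * d 2 - c 2 * d 1) - b 1 * (c 0 * d 2 - c 2 * d 0) +
      b 2 * (c 0 * d 1 - c 1 * d 0)) := by
  simp [Matrix.det_succ_row_zero, Fin.sum_univ_succ, Fin.succAbove]
  ring

theorem d4_eq (Q : Fin 5 → C4) : d4 Q = (Matrix.of ![Q 1, Q 2, Q 3, Q 4]).det := by
  unfold d4
  congr 2
  funext i
  fin_cases i <;> rfl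

/-- The determinant with the period vector in the first row. -/
theorem det_Y (Q : Fin 5 → C4) (x : Fin 5 → ℂ) (Y : C4) (h : ∑ k, Q k = 0)
    (hY : ∑ k, x k • Q k = (-2 : ℂ) • Y) :
    (Matrix.of ![Y, (1 / 3 : ℂ) • Q 1, (1 / 3 : ℂ) • Q 2, (1 / 3 : ℂ) • Q 3]).det =
      (x 4 - x 0) / 54 * d4 Q := by
  have e : ∀ j, Y j = -(1 / 2) * ((x 1 - x 0) * Q 1 j + (x 2 - x 0) * Q 2 j + (x 3 - x 0) * Q 3 j +
      (x 4 - x 0) * Q 4 j) := fun j => by
    have h1 := congrFun h j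
    have h2 := congrFun hY j
    simp only [Fin.sum_univ_five, Pi.add_apply, Pi.zero_apply, Pi.smul_apply, smul_eq_mul] at h1 h2
    linear_combination (1 / 2) * h2 - (1 / 2) * x 0 * h1
  rw [d4_eq, det4, det4]
  simp only [e, Pi.smul_apply, smul_eq_mul]
  ring

theorem det_row (Q : Fin 5 → C4) (h : ∑ k, Q k = 0) (i : Fin 4) (c : ℂ) :
    ((Matrix.of fun i : Fin 4 => Q i.succ).updateRow i (c • (Q i.succ - Q 0))).det =
      2 * c * d4 Q := by
  have h1 := Matrix.det_updateRow_sum (Matrix.of fun i : Fin 4 => Q i.succ) i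
    (fun k => if k = i then 2 * c else c)
  have h2 : (∑ k : Fin 4, (if k = i then 2 * c else c) • (Matrix.of fun i : Fin 4 => Q i.succ) k) =
      c • (Q i.succ - Q 0) := by
    rw [Fin.sum_univ_succ] at h
    have h0 : Q 0 = -∑ k : Fin 4, Q k.succ := eq_neg_of_add_eq_zero_left h
    have h3 : ∀ k : Fin 4, (if k = i then 2 * c else c) • (Matrix.of fun i : Fin 4 => Q i.succ) k =
        (if k = i then c • Q k.succ else 0) + c • Q k.succ := fun k => by
      change (if k = i then 2 * c else c) • Q k.succ = _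
      split_ifs
      · rw [two_mul, add_smul]
      · rw [zero_add]
    simp only [h3, Finset.sum_add_distrib, Finset.sum_ite_eq', Finset.mem_univ, if_true]
    rw [h0, sub_neg_eq_add, smul_add, Finset.smul_sum]
  rw [h2] at h1
  simpa [d4] using h1

/-- The product of all differences. -/
def pr (l : Fin 5 → ℂ) : ℂ := ∏ a, ∏ b ∈ Finset.univ.erase a, (l a - l b)

theorem pr_perm (l : Fin 5 → ℂ) (π : Equiv.Perm (Fin 5)) : pr (fun k => l (π k)) = pr l := by
  unfold pr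
  refine Fintype.prod_equiv π _ _ fun a => ?_
  refine Finset.prod_equiv π (fun b => by simp) fun b _ => rfl

theorem pr_eq (x : Fin 5 → ℂ) : pr x =
    ((x 0 - x 1) * (x 0 - x 2) * (x 0 - x 3) * (x 0 - x 4)) ^ 2 *
      ((x 1 - x 2) * (x 1 - x 3) * (x 1 - x 4) * (x 2 - x 3) * (x 2 - x 4) * (x 3 - x 4)) ^ 2 := by
  have e : ∀ a : Fin 5, ∏ b ∈ Finset.univ.erase a, (x a - x b) =
      ∏ b, if b = a then 1 else x a - x b := fun a => by
    rw [← Finset.filter_ne', Finset.prod_filter]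
    exact Finset.prod_congr rfl fun b _ => by by_cases h : b = a <;> simp [h]
  simp only [pr, e, Fin.prod_univ_five]
  simp
  rw [← neg_sub (x 0) (x 1), ← neg_sub (x 0) (x 2), ← neg_sub (x 0) (x 3), ← neg_sub (x 0) (x 4),
    ← neg_sub (x 1) (x 2), ← neg_sub (x 1) (x 3), ← neg_sub (x 1) (x 4), ← neg_sub (x 2) (x 3),
    ← neg_sub (x 2) (x 4), ← neg_sub (x 3) (x 4)]
  generalize x 0 - x 1 = a1
  generalize x 0 - x 2 = a2
  generalize x 0 - x 3 = a3
  generalize x 0 - x 4 = a4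
  generalize x 1 - x 2 = a5
  generalize x 1 - x 3 = a6
  generalize x 1 - x 4 = a7
  generalize x 2 - x 3 = a8
  generalize x 2 - x 4 = a9
  generalize x 3 - x 4 = a10
  ring

theorem convex_O : Convex ℝ O := by
  intro x hx y hy a b ha hb hab i j hij
  have h1 := hx hij
  have h2 := hy hij
  simp only [Pi.add_apply, Pi.smul_apply, Complex.add_re, Complex.real_smul, Complex.mul_re,
    Complex.ofReal_re, Complex.ofReal_im, zero_mul, sub_zero] at h1 h2 ⊢
  rcases ha.eq_or_lt with rfl | ha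
  · rw [zero_add] at hab; subst hab; simpa using h2
  · nlinarith

theorem ne_of_mem {l : Fin 5 → ℂ} (hl : l ∈ O) {a b : Fin 5} (h : a ≠ b) : l a - l b ≠ 0 :=
  fun h0 => h (hl.injective (by simp only [sub_eq_zero.1 h0]))

theorem pr_ne {l : Fin 5 → ℂ} (hl : l ∈ O) : pr l ≠ 0 :=
  Finset.prod_ne_zero_iff.2 fun _ _ => Finset.prod_ne_zero_iff.2 fun _ hb =>
    ne_of_mem hl (Finset.ne_of_mem_erase hb).symm

/-- The invariant is constant. -/
theorem const {P : Fin 5 → (Fin 5 → ℂ) → C4} (hO : IsOpen O)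
    (hd : ∀ k, DifferentiableOn ℂ (P k) O) (hs : ∀ l ∈ O, ∑ k, P k l = 0)
    (hk : ∀ l ∈ O, ∀ i j, i ≠ j →
      fderiv ℂ (P i) l (Pi.single j 1) = (3 * (l i - l j))⁻¹ • (P i l - P j l))
    {l l' : Fin 5 → ℂ} (hl : l ∈ O) (hl' : l' ∈ O) :
    d5 (fun k => P k l) ^ 3 * pr l = d5 (fun k => P k l') ^ 3 * pr l' := by
  have hda : ∀ k, ∀ l ∈ O, DifferentiableAt ℂ (P k) l := fun k l hl =>
    (hd k).differentiableAt (hO.mem_nhds hl)
  have hG : ∀ l ∈ O, DifferentiableAt ℂ (fun l => d5 (fun k => P k l) ^ 3 * pr l) l := by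
    intro l hl
    have h1 : DifferentiableAt ℂ (fun l => 5 * dc (fun i : Fin 4 => P i.succ l)) l :=
      ((dc.hasFDerivAt _).differentiableAt.comp l
        (differentiableAt_pi.2 fun i => hda i.succ l hl)).const_mul 5
    have h2 : DifferentiableAt ℂ (fun l => d5 (fun k => P k l)) l :=
      h1.congr_of_eventuallyEq ((hO.eventually_mem hl).mono fun y hy => d5_eq _ (hs y hy))
    have h3 : DifferentiableAt ℂ pr l := by
      rw [show pr = _ from funext pr_eq]
      fun_prop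
    exact (h2.pow 3).mul h3
  refine hO.is_const_of_fderiv_eq_zero (𝕜 := ℂ) convex_O.isPreconnected
    (fun l hl => (hG l hl).differentiableWithinAt) (fun l hl => ?_) hl hl'
  have key : ∀ j, fderiv ℂ (fun l => d5 (fun k => P k l) ^ 3 * pr l) l (Pi.single j 1) = 0 := by
    intro j
    set π : Equiv.Perm (Fin 5) := Equiv.swap 0 j with hπ
    have hπ0 : π 0 = j := by simp [hπ]
    have hne : ∀ i : Fin 4, π i.succ ≠ j := fun i h =>
      Fin.succ_ne_zero i (π.injective (h.trans hπ0.symm))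
    set γ : ℂ → Fin 5 → ℂ := fun t => l + t • (Pi.single j 1 : Fin 5 → ℂ) with hγ
    have hγ0 : γ 0 = l := by simp [hγ]
    have hγd : HasDerivAt γ (Pi.single j 1) 0 := by
      simpa [hγ] using ((hasDerivAt_id (0 : ℂ)).smul_const (Pi.single j 1 : Fin 5 → ℂ)).const_add l
    have hγO : ∀ᶠ t in 𝓝 (0 : ℂ), γ t ∈ O :=
      hγd.continuousAt.eventually (hO.mem_nhds (by rw [hγ0]; exact hl))
    have hF := (by rw [hγ0]; exact (hG l hl).hasFDerivAt :
      HasFDerivAt (fun l => d5 (fun k => P k l) ^ 3 * pr l)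
        (fderiv ℂ (fun l => d5 (fun k => P k l) ^ 3 * pr l) l) (γ 0)).comp_hasDerivAt 0 hγd
    refine hF.unique ?_
    set x : Fin 5 → ℂ := fun k => l (π k) with hx
    set Q : Fin 5 → C4 := fun k => P (π k) l with hQ
    have hQs : ∑ k, Q k = 0 := (Equiv.sum_comp π fun k => P k l).trans (hs l hl)
    have hP : ∀ i : Fin 4, HasDerivAt (fun t => P (π i.succ) (γ t))
        ((3 * (x i.succ - x 0))⁻¹ • (Q i.succ - Q 0)) 0 := fun i => by
      have := (by rw [hγ0]; exact (hda _ l hl).hasFDerivAt :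
        HasFDerivAt (P (π i.succ)) (fderiv ℂ (P (π i.succ)) l) (γ 0)).comp_hasDerivAt 0 hγd
      rw [hk l hl _ _ (hne i)] at this
      simp only [hx, hQ, hπ0]
      exact this
    have hD := hasDerivAt_det (A := fun t i => P (π i.succ) (γ t)) hP
    simp only [hγ0] at hD
    rw [Finset.sum_congr rfl fun i _ => det_row Q hQs i _, Fin.sum_univ_four] at hD
    have hs2 : ((Equiv.Perm.sign π : ℤ) : ℂ) * ((Equiv.Perm.sign π : ℤ) : ℂ) = 1 := by
      rw [← Int.cast_mul, ← Units.val_mul, Int.units_mul_self]; simp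
    have hx0 : ∀ t, γ t (π 0) = x 0 + t := fun t => by simp [hγ, hx, hπ0]
    have hxs : ∀ t, ∀ i : Fin 4, γ t (π i.succ) = x i.succ := fun t i => by
      simp [hγ, hx, Pi.single_eq_of_ne (hne i)]
    have hu : HasDerivAt (fun t : ℂ => (x 0 + t - x 1) * (x 0 + t - x 2) * (x 0 + t - x 3) *
        (x 0 + t - x 4)) _ 0 :=
      (((((hasDerivAt_id' (0 : ℂ)).const_add (x 0)).sub_const (x 1)).mul
        (((hasDerivAt_id' (0 : ℂ)).const_add (x 0)).sub_const (x 2))).mul
        (((hasDerivAt_id' (0 : ℂ)).const_add (x 0)).sub_const (x 3))).mul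
        (((hasDerivAt_id' (0 : ℂ)).const_add (x 0)).sub_const (x 4))
    have hall := (((hD.const_mul (((Equiv.Perm.sign π : ℤ) : ℂ) * 5)).pow 3).mul
      ((hu.pow 2).mul_const (((x 1 - x 2) * (x 1 - x 3) * (x 1 - x 4) * (x 2 - x 3) * (x 2 - x 4) *
        (x 3 - x 4)) ^ 2)))
    refine (hall.congr_deriv ?_).congr_of_eventuallyEq (hγO.mono fun t ht => ?_)
    · have n : ∀ i : Fin 4, x i.succ - x 0 ≠ 0 := fun i =>
        ne_of_mem hl fun h => Fin.succ_ne_zero i (π.injective h)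
      have n1 : x 1 - x 0 ≠ 0 := n 0
      have n2 : x 2 - x 0 ≠ 0 := n 1
      have n3 : x 3 - x 0 ≠ 0 := n 2
      have n4 : x 4 - x 0 ≠ 0 := n 3
      have e : (Matrix.of fun i : Fin 4 => P (π i.succ) (γ 0)).det = d4 Q := by rw [hγ0]; rfl
      simp only [Pi.pow_apply, Pi.mul_apply, e, add_zero, Fin.succ_zero_eq_one,
        Fin.succ_one_eq_two, show (2 : Fin 4).succ = (3 : Fin 5) from rfl,
        show (3 : Fin 4).succ = (4 : Fin 5) from rfl]
      rw [← neg_sub (x 1) (x 0), ← neg_sub (x 2) (x 0), ← neg_sub (x 3) (x 0),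
        ← neg_sub (x 4) (x 0)]
      generalize ((x 1 - x 2) * (x 1 - x 3) * (x 1 - x 4) * (x 2 - x 3) * (x 2 - x 4) *
        (x 3 - x 4)) ^ 2 = K
      generalize x 1 - x 0 = a1 at n1 ⊢
      generalize x 2 - x 0 = a2 at n2 ⊢
      generalize x 3 - x 0 = a3 at n3 ⊢
      generalize x 4 - x 0 = a4 at n4 ⊢
      field_simp
      ring
    · have e1 := d5_perm (fun k => P k (γ t)) π
      have e2 := d5_eq (fun k => P (π k) (γ t))
        ((Equiv.sum_comp π fun k => P k (γ t)).trans (hs _ ht))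
      have e3 : d5 (fun k => P k (γ t)) = ((Equiv.Perm.sign π : ℤ) : ℂ) * 5 *
          (Matrix.of fun i : Fin 4 => P (π i.succ) (γ t)).det := by
        have : d4 (fun k => P (π k) (γ t)) = (Matrix.of fun i : Fin 4 => P (π i.succ) (γ t)).det :=
          rfl
        rw [← this, mul_assoc, ← e2, e1, ← mul_assoc, hs2, one_mul]
      have e4 := (pr_perm (γ t) π).symm.trans (pr_eq _)
      have y1 : γ t (π 1) = x 1 := hxs t 0
      have y2 : γ t (π 2) = x 2 := hxs t 1
      have y3 : γ t (π 3) = x 3 := hxs t 2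
      have y4 : γ t (π 4) = x 4 := hxs t 3
      simp only [hx0, y1, y2, y3, y4] at e4
      simp only [Function.comp, Pi.mul_apply, Pi.pow_apply, e3, e4]
  refine ContinuousLinearMap.ext fun w => ?_
  have h3 : w = ∑ k, w k • (Pi.single k 1 : Fin 5 → ℂ) := by
    funext j; simp [Finset.sum_apply, Pi.single_apply]
  rw [h3, map_sum]
  simp only [map_smul, key, smul_zero, Finset.sum_const_zero]
  rfl

theorem d4_ne {Q : Fin 5 → C4} (h : ∑ k, Q k = 0) (A : (Fin 5 → ℂ) →L[ℂ] C4)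
    (hA : ∀ k, A (Pi.single k 1) = (1 / 3 : ℂ) • Q k) (hs : Function.Surjective A) : d4 Q ≠ 0 := by
  intro h0
  obtain ⟨v, hv, hm⟩ := Matrix.exists_mulVec_eq_zero_iff.2 h0
  have h1 : ∀ i : Fin 4, Q i.succ ⬝ᵥ v = 0 := fun i => congrFun hm i
  have h2 : ∀ k, Q k ⬝ᵥ v = 0 := by
    intro k
    refine Fin.cases ?_ h1 k
    rw [Fin.sum_univ_succ] at h
    rw [eq_neg_of_add_eq_zero_left h, neg_dotProduct, sum_dotProduct]
    simp [h1]
  refine hv (funext fun i => ?_)
  obtain ⟨w, hw⟩ := hs (Pi.single i 1)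
  have h3 : w = ∑ k, w k • (Pi.single k 1 : Fin 5 → ℂ) := by
    funext j; simp [Finset.sum_apply, Pi.single_apply]
  have h4 : A w ⬝ᵥ v = 0 := by
    rw [h3, map_sum, sum_dotProduct]
    simp [hA, h2]
  simpa [hw] using h4

end KZP

open KZP in
theorem pKZ (hH : S_Hol) (hN : S_NV) : S_KZ := by
  obtain ⟨hO, P, -, hP, h⟩ := hH
  obtain ⟨l0, hl0, hs⟩ := hN
  have hd : ∀ k, DifferentiableOn ℂ (P k) O := fun k => (hP k).differentiableOn (by simp)
  have h0 : d5 (fun k => P k l0) ^ 3 * pr l0 ≠ 0 := by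
    refine mul_ne_zero (pow_ne_zero _ ?_) (pr_ne hl0)
    rw [d5_eq _ (h l0 hl0).2.1]
    exact mul_ne_zero (by norm_num) (d4_ne (h l0 hl0).2.1 _ (h l0 hl0).1 hs)
  refine ⟨‖d5 (fun k => P k l0) ^ 3 * pr l0‖ / 270 ^ 3, by have := norm_pos_iff.2 h0; positivity,
    fun l hl π => ?_⟩
  obtain ⟨h1, h2, h3, -⟩ := h l hl
  have e1 := det_Y (fun k => P (π k) l) (fun k => l (π k)) (YY l)
    ((Equiv.sum_comp π fun k => P k l).trans h2)
    ((Equiv.sum_comp π fun k => l k • P k l).trans h3)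
  have e2 := d5_eq (fun k => P (π k) l) ((Equiv.sum_comp π fun k => P k l).trans h2)
  have e3 := congrArg norm (d5_perm (fun k => P k l) π)
  have e4 : ‖((Equiv.Perm.sign π : ℤ) : ℂ)‖ = 1 := by
    rcases Int.units_eq_one_or (Equiv.Perm.sign π) with h | h <;> simp [h]
  rw [norm_mul, e4, one_mul, e2, norm_mul] at e3
  have e5 : ∏ a, ∏ b ∈ Finset.univ.erase a, ‖l a - l b‖ = ‖pr l‖ := by
    simp only [pr, norm_prod]
  rw [h1, h1, h1, e1, e5, ← const hO hd (fun l hl => (h l hl).2.1) (fun l hl => (h l hl).2.2.2)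
    hl hl0, norm_mul, norm_mul, norm_pow, ← e3, norm_div, norm_sub_rev (l (π 4))]
  simp only [Complex.norm_ofNat]
  ring

end Pool.Agent.P.MP_5d7cf0_gt
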