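import Pool.Agent.P.MP_5d7cf0_gt.St

/-!
Naturality and smoothness of the metric `GG`.
-/

open Set Filter Topology ComplexConjugate
open scoped ContDiff

namespace Pool.Agent.P.MP_5d7cf0_gt

namespace LevP

section real

variable {X Y : Type} [NormedAddCommGroup X] [NormedSpace ℝ X] [NormedAddCommGroup Y]
  [NormedSpace ℝ Y]

theorem ev_diff {f : X → Y} {x : X} (hf : ContDiffAt ℝ 2 f x) :
    ∀ᶠ y in 𝓝 x, DifferentiableAt ℝ f y :=
  (hf.eventually (by simp)).mono fun _ hy => hy.differentiableAt (by simp)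

theorem diff_fderiv {f : X → Y} {x : X} (hf : ContDiffAt ℝ 2 f x) :
    DifferentiableAt ℝ (fderiv ℝ f) x :=
  (hf.fderiv_right (m := 1) (by norm_num)).differentiableAt (by simp)

/-- Chain rule for second derivatives. -/
theorem d2_comp {f : Y → ℝ} {φ : X → Y} {x : X} (hf : ContDiffAt ℝ 2 f (φ x))
    (hφ : ContDiffAt ℝ 2 φ x) (a b : X) :
    fderiv ℝ (fderiv ℝ fun y => f (φ y)) x a b =
      fderiv ℝ (fderiv ℝ f) (φ x) (fderiv ℝ φ x a) (fderiv ℝ φ x b) +
        fderiv ℝ f (φ x) (fderiv ℝ (fderiv ℝ φ) x a b) := by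
  have e : (fderiv ℝ fun y => f (φ y)) =ᶠ[𝓝 x]
      fun y => (fderiv ℝ f (φ y)).comp (fderiv ℝ φ y) := by
    filter_upwards [ev_diff hφ, hφ.continuousAt.eventually (ev_diff hf)] with y h1 h2
    exact (h2.hasFDerivAt.comp y h1.hasFDerivAt).fderiv
  have h1 := ((diff_fderiv hf).hasFDerivAt.comp x
    (hφ.differentiableAt (by simp)).hasFDerivAt).clm_comp (diff_fderiv hφ).hasFDerivAt
  rw [e.fderiv_eq]
  have h2 := h1.fderiv
  simp only [Function.comp_def] at h2
  rw [h2]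
  simp [add_comm]

theorem d2_add {f g : X → ℝ} {x : X} (hf : ContDiffAt ℝ 2 f x) (hg : ContDiffAt ℝ 2 g x) :
    fderiv ℝ (fderiv ℝ fun y => f y + g y) x =
      fderiv ℝ (fderiv ℝ f) x + fderiv ℝ (fderiv ℝ g) x := by
  have e : (fderiv ℝ fun y => f y + g y) =ᶠ[𝓝 x] fun y => fderiv ℝ f y + fderiv ℝ g y := by
    filter_upwards [ev_diff hf, ev_diff hg] with y h1 h2
    exact (h1.hasFDerivAt.add h2.hasFDerivAt).fderiv
  rw [e.fderiv_eq]
  exact ((diff_fderiv hf).hasFDerivAt.add (diff_fderiv hg).hasFDerivAt).fderiv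

theorem cd_smul {c : X → ℝ} {g : X → Y} {x : X} (hc : ContDiffAt ℝ ∞ c x)
    (hg : ContDiffAt ℝ ∞ g x) : ContDiffAt ℝ ∞ (fun y => c y • g y) x := hc.smul hg

end real

section cx

variable {X Y : Type} [NormedAddCommGroup X] [NormedSpace ℂ X] [NormedAddCommGroup Y]
  [NormedSpace ℂ Y]

theorem d1_I {φ : X → Y} {x : X} (hφ : DifferentiableAt ℂ φ x) (a : X) :
    fderiv ℝ φ x (Complex.I • a) = Complex.I • fderiv ℝ φ x a := by
  rw [hφ.fderiv_restrictScalars ℝ]
  simp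

theorem d2_I {φ : X → Y} {x : X} (hφ : ContDiffAt ℂ 2 φ x) (a b : X) :
    fderiv ℝ (fderiv ℝ φ) x (Complex.I • a) (Complex.I • b) = -fderiv ℝ (fderiv ℝ φ) x a b := by
  have e : fderiv ℝ φ =ᶠ[𝓝 x]
      fun y => ContinuousLinearMap.restrictScalarsL ℂ X Y ℝ ℝ (fderiv ℂ φ y) := by
    filter_upwards [hφ.eventually (by simp)] with y hy
    rw [(hy.differentiableAt (by simp)).fderiv_restrictScalars ℝ]
    rfl
  have h1 : DifferentiableAt ℂ (fderiv ℂ φ) x :=
    (hφ.fderiv_right (m := 1) (by norm_num)).differentiableAt (by simp)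
  have h2 := ((ContinuousLinearMap.restrictScalarsL ℂ X Y ℝ ℝ).hasFDerivAt.comp x
    (h1.hasFDerivAt.restrictScalars ℝ)).fderiv
  simp only [Function.comp_def] at h2
  rw [e.fderiv_eq, h2]
  simp [smul_smul]

/-- The Levi form is natural under holomorphic maps. -/
theorem levi {f : Y → ℝ} {φ : X → Y} {x : X} (hf : ContDiffAt ℝ 2 f (φ x))
    (hφ : ContDiffAt ℂ 2 φ x) (a b : X) :
    fderiv ℝ (fderiv ℝ fun y => f (φ y)) x a b +
        fderiv ℝ (fderiv ℝ fun y => f (φ y)) x (Complex.I • a) (Complex.I • b) =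
      fderiv ℝ (fderiv ℝ f) (φ x) (fderiv ℝ φ x a) (fderiv ℝ φ x b) +
        fderiv ℝ (fderiv ℝ f) (φ x) (Complex.I • fderiv ℝ φ x a) (Complex.I • fderiv ℝ φ x b) := by
  have h := hφ.restrict_scalars ℝ
  have hd := hφ.differentiableAt (by simp)
  rw [d2_comp hf h, d2_comp hf h, d2_I hφ, d1_I hd, d1_I hd, map_neg]
  ring

/-- The logarithm of the modulus of a holomorphic function is pluriharmonic. -/
theorem levi_log {c : X → ℂ} {x : X} (hc : ContDiffAt ℂ 2 c x) (h0 : c x ≠ 0) (κ : ℝ) :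
    ContDiffAt ℝ 2 (fun y => κ * Real.log ‖c y‖) x ∧ ∀ a b,
      fderiv ℝ (fderiv ℝ fun y => κ * Real.log ‖c y‖) x a b +
        fderiv ℝ (fderiv ℝ fun y => κ * Real.log ‖c y‖) x (Complex.I • a) (Complex.I • b) = 0 := by
  set g : X → ℂ := fun y => Complex.log (c y / c x) with hg
  set f : ℂ → ℝ := fun w => κ * (w.re + Real.log ‖c x‖) with hf
  have hg2 : ContDiffAt ℂ 2 g x := by
    refine ContDiffAt.comp (g := Complex.log) x ?_ (hc.div_const _)
    exact Complex.contDiffAt_log (by rw [div_self h0]; exact Complex.one_mem_slitPlane)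
  have hf1 : fderiv ℝ f = fun _ => κ • Complex.reCLM := by
    funext w
    exact ((Complex.reCLM.hasFDerivAt.add_const _).const_mul κ).fderiv
  have hf2 : ContDiff ℝ 2 f := contDiff_const.mul (Complex.reCLM.contDiff.add contDiff_const)
  have e : (fun y => κ * Real.log ‖c y‖) =ᶠ[𝓝 x] fun y => f (g y) := by
    filter_upwards [hc.continuousAt.eventually_ne h0] with y hy
    simp only [hf, hg, Complex.log_re]
    rw [norm_div, Real.log_div (norm_ne_zero_iff.2 hy) (norm_ne_zero_iff.2 h0)]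
    ring
  refine ⟨(hf2.contDiffAt.comp x (hg2.restrict_scalars ℝ)).congr_of_eventuallyEq e, fun a b => ?_⟩
  rw [e.fderiv.fderiv_eq, levi hf2.contDiffAt hg2, hf1]
  simp

end cx

theorem GG_apply {ι : Type} [Fintype ι] (v q : E → ℝ) (L : ι → E → ℝ) (μ : ι → ℝ → ℝ) (x a b : E) :
    GG v q L μ x a b = (Real.exp (q x) * (-(fderiv ℝ (fderiv ℝ v) x a b +
        fderiv ℝ (fderiv ℝ v) x (Complex.I • a) (Complex.I • b)) -
        (fderiv ℝ q x a * fderiv ℝ q x b +
          fderiv ℝ q x (Complex.I • a) * fderiv ℝ q x (Complex.I • b))) +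
      ∑ i, deriv (μ i) (L i x) * (fderiv ℝ (L i) x a * fderiv ℝ (L i) x b +
        fderiv ℝ (L i) x (Complex.I • a) * fderiv ℝ (L i) x (Complex.I • b))) / 4 := by
  rw [GG, herm_apply]
  simp only [add_apply, smul_apply, sub_apply, neg_apply, sum_apply,
    sqd_apply, smul_eq_mul, mul_add, Finset.sum_add_distrib]
  ring

theorem contDiffAt_herm {B : E → E →L[ℝ] E →L[ℝ] ℝ} {x : E} (h : ContDiffAt ℝ ∞ B x) :
    ContDiffAt ℝ ∞ (fun y => herm (B y)) x := by
  have e : (fun y => herm (B y)) = fun y => (1 / 4 : ℝ) • (B y +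
      (((ContinuousLinearMap.compL ℝ E E ℝ).flip Jc).comp ((B y).comp Jc))) := by
    funext y
    ext a b
    simp [herm]
  rw [e]
  exact (h.add (contDiffAt_const.clm_comp (h.clm_comp contDiffAt_const))).const_smul _

theorem contDiffAt_sqd {f : E → ℝ} {x : E} (h : ContDiffAt ℝ ∞ f x) :
    ContDiffAt ℝ ∞ (sqd f) x :=
  (h.fderiv_right (m := ∞) le_rfl).smulRight (h.fderiv_right (m := ∞) le_rfl)

end LevP

open LevP in
theorem pGGnat : S_GGnat := by
  intro ι _ v q v' q' L L' μ φ c κ x hφ hc h0 hv' hq' hL' ev eq eL a b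
  have hd := hφ.differentiableAt (by simp)
  have hdr := hd.restrictScalars ℝ
  obtain ⟨h1, h2⟩ := levi_log hc h0 κ
  have chain : ∀ {f f' : E → ℝ}, DifferentiableAt ℝ f' (φ x) → (∀ᶠ y in 𝓝 x, f y = f' (φ y)) →
      ∀ u, fderiv ℝ f x u = fderiv ℝ f' (φ x) (fderiv ℝ φ x u) := by
    intro f f' h3 h4 u
    rw [EventuallyEq.fderiv_eq (f := fun y => f' (φ y)) h4]
    exact congrArg (fun A : E →L[ℝ] ℝ => A u) (h3.hasFDerivAt.comp x hdr.hasFDerivAt).fderiv
  have hv : fderiv ℝ (fderiv ℝ v) x a b + fderiv ℝ (fderiv ℝ v) x (Complex.I • a) (Complex.I • b) =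
      fderiv ℝ (fderiv ℝ v') (φ x) (fderiv ℝ φ x a) (fderiv ℝ φ x b) +
        fderiv ℝ (fderiv ℝ v') (φ x) (Complex.I • fderiv ℝ φ x a) (Complex.I • fderiv ℝ φ x b) := by
    rw [(EventuallyEq.fderiv (f := fun y => v' (φ y) + κ * Real.log ‖c y‖) ev).fderiv_eq,
      d2_add (f := fun y => v' (φ y)) (hv'.comp x (hφ.restrict_scalars ℝ)) h1, ← levi hv' hφ]
    simp only [add_apply]
    linarith [h2 a b]
  rw [GG_apply, GG_apply, hv, eq.self_of_nhds]
  simp only [chain hq' eq, d1_I hd]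
  congr 2
  refine Finset.sum_congr rfl fun i _ => ?_
  rw [(eL i).self_of_nhds]
  rcases hL' i with h | h
  · simp only [chain h (eL i), d1_I hd]
  · rw [h, zero_mul, zero_mul]

open LevP in
theorem pGGsm : S_GGsm := by
  intro ι _ v q L μ x hv hq hL
  constructor
  · refine contDiffAt_herm (ContDiffAt.add (cd_smul (Y := E →L[ℝ] E →L[ℝ] ℝ) hq.exp (ContDiffAt.sub (ContDiffAt.neg
      ((hv.fderiv_right (m := ∞) le_rfl).fderiv_right (m := ∞) le_rfl)) (contDiffAt_sqd hq)))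
      (ContDiffAt.sum fun i _ => ?_))
    rcases hL i with ⟨h1, h2⟩ | h
    · have h3 : ContDiffAt ℝ ∞ (deriv (μ i)) (L i x) :=
        (h2.fderiv_right (m := ∞) le_rfl).clm_apply contDiffAt_const
      exact cd_smul (Y := E →L[ℝ] E →L[ℝ] ℝ) (h3.comp x h1) (contDiffAt_sqd h1)
    · refine (contDiffAt_const (c := 0)).congr_of_eventuallyEq ?_
      filter_upwards [h] with y hy
      ext a b
      simp [hy]
  · have h2 : ContDiffAt ℝ 2 v x := hv.of_le (by norm_cast)
    filter_upwards [h2.eventually (by simp)] with y hy a b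
    have hs := hy.isSymmSndFDerivAt (by simp)
    rw [GG_apply, GG_apply, hs.eq a b, hs.eq (Complex.I • a)]
    simp only [mul_comm]

end Pool.Agent.P.MP_5d7cf0_gt
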