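import Pool.Agent.P.MP_5d7cf0_gt.St

/-!
Package Loc: projective charts and the reduction to the affine model.
-/

open Set Filter Topology ComplexConjugate
open scoped ContDiff

namespace Pool.Agent.P.MP_5d7cf0_gt

namespace LocP

theorem hL_smul_left (c : ℂ) (α β : C4) : hL (c • α) β = c * hL α β := by
  simp only [hL, Pi.smul_apply, smul_eq_mul]
  ring

theorem hL_smul (c : ℂ) (α : C4) : -(hL (c • α) (c • α)).re = ‖c‖ ^ 2 * -(hL α α).re := by
  have : hL (c • α) (c • α) = ((‖c‖ ^ 2 : ℝ) : ℂ) * hL α α := by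
    rw [← Complex.normSq_eq_norm_sq, ← Complex.mul_conj]
    simp only [hL, Pi.smul_apply, smul_eq_mul, map_mul]
    ring
  rw [this, Complex.re_ofReal_mul]
  ring

theorem hL_sm {n : WithTop ℕ∞} {Z W : E → C4} {x : E} (hZ : ContDiffAt ℝ n Z x)
    (hW : ContDiffAt ℝ n W x) : ContDiffAt ℝ n (fun y => hL (Z y) (W y)) x := by
  have h : ∀ k, ContDiffAt ℝ n (fun y => Z y k * conj (W y k)) x := fun k =>
    (contDiffAt_pi.1 hZ k).mul (Complex.conjCLE.contDiff.contDiffAt.comp x (contDiffAt_pi.1 hW k))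
  exact (((h 0).neg.add (h 1)).add (h 2)).add (h 3)

theorem neg_sm {n : WithTop ℕ∞} {Z : E → C4} {x : E} (hZ : ContDiffAt ℝ n Z x) :
    ContDiffAt ℝ n (fun y => -(hL (Z y) (Z y)).re) x :=
  (Complex.reCLM.contDiff.contDiffAt.comp x (hL_sm hZ hZ)).neg

variable {ι : Type} [Fintype ι] {Z : E → C4} {ρ : ι → C4} {v q : E → ℝ} {L : ι → E → ℝ}
  {μ : ι → ℝ → ℝ} {x : E}

theorem v_sm {n : WithTop ℕ∞} (h : LocD n Z ρ v q L μ x) : ContDiffAt ℝ n v x :=
  ((neg_sm (h.hZ.restrict_scalars ℝ)).log (neg_ne_zero.2 h.ok.neg.ne)).congr_of_eventuallyEq h.hv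

theorem L_sm {n : WithTop ℕ∞} (h : LocD n Z ρ v q L μ x) (i : ι) : ContDiffAt ℝ n (L i) x := by
  have h1 := (hL_sm (h.hZ.restrict_scalars ℝ) (contDiffAt_const (c := ρ i))).norm_sq ℂ
  exact ((h.hq.add (h1.log (pow_ne_zero _ (norm_ne_zero_iff.2 (h.ok.ne i))))).sub
    (v_sm h)).congr_of_eventuallyEq (h.hl i)

theorem locD_one (h : LocD ∞ Z ρ v q L μ x) : LocD 1 Z ρ v q L μ x :=
  ⟨h.hZ.of_le (by simp), h.hv, h.hl, h.hq.of_le (by simp), fun i => (h.hμ i).of_le (by simp),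
    h.lev, h.ok⟩

end LocP

theorem pChart : S_Chart := by
  intro Z x0 hZ inj
  let M : ℂ × E →L[ℂ] C4 :=
    ((ContinuousLinearMap.id ℂ ℂ).smulRight (Z x0)).coprod (fderiv ℂ Z x0)
  have hM : ∀ p : ℂ × E, M p = p.1 • Z x0 + fderiv ℂ Z x0 p.2 := fun p => rfl
  have hi : Function.Injective (M : ℂ × E →ₗ[ℂ] C4) := by
    rw [← LinearMap.ker_eq_bot, LinearMap.ker_eq_bot']
    intro p hp
    exact Prod.ext (inj p.1 p.2 hp).1 (inj p.1 p.2 hp).2
  let e : (ℂ × E) ≃L[ℂ] C4 :=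
    ((M : ℂ × E →ₗ[ℂ] C4).linearEquivOfInjective hi (by simp)).toContinuousLinearEquiv
  have he : ∀ p, e p = p.1 • Z x0 + fderiv ℂ Z x0 p.2 := fun p => rfl
  let w : E → ℂ × E := fun x => e.symm (Z x)
  have w0 : w x0 = (1, 0) := e.symm_apply_eq.2 (by simp [he])
  have hw : ContDiffAt ℂ ∞ w x0 := e.symm.contDiff.contDiffAt.comp x0 hZ
  have dw : HasFDerivAt w (ContinuousLinearMap.inr ℂ ℂ E) x0 := by
    exact (e.symm.hasFDerivAt.comp x0 (hZ.differentiableAt (by simp)).hasFDerivAt).congr_fderiv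
      (ContinuousLinearMap.ext fun a => e.symm_apply_eq.2 (by simp [he]))
  have w1 : (w x0).1 ≠ 0 := by simp [w0]
  let φ : E → E := fun x => (w x).1⁻¹ • (w x).2
  have φ0 : φ x0 = 0 := by simp [φ, w0]
  have hφ : ContDiffAt ℂ ∞ φ x0 := (hw.fst.inv w1).smul hw.snd
  have dφ : HasFDerivAt φ (ContinuousLinearEquiv.refl ℂ E : E →L[ℂ] E) x0 := by
    refine (((hasFDerivAt_inv w1).comp x0 dw.fst).smul dw.snd).congr_fderiv ?_
    exact ContinuousLinearMap.ext fun a => by simp [w0]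
  have hs := hφ.hasStrictFDerivAt' dφ (by simp)
  have hψ := hφ.to_localInverse dφ (by simp)
  have ψ0 := hφ.localInverse_apply_image dφ (by simp)
  have dψ := hs.to_localInverse.hasFDerivAt
  have ri := hs.eventually_right_inverse
  change HasFDerivAt (hφ.localInverse dφ (by simp)) _ _ at dψ
  change ∀ᶠ y in _, φ (hφ.localInverse dφ (by simp) y) = y at ri
  generalize hφ.localInverse dφ (by simp) = ψ at *
  rw [φ0] at hψ ψ0 dψ ri
  have hc : ContDiffAt ℂ ∞ (fun z => (w (ψ z)).1) 0 :=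
    (ContDiffAt.comp 0 (g := w) (ψ0 ▸ hw) hψ).fst
  have c0 : (w (ψ 0)).1 = 1 := by rw [ψ0, w0]
  refine ⟨ψ, fun z => (w (ψ z)).1, hψ, ψ0, dψ, hc, c0, ?_⟩
  filter_upwards [ri, hc.continuousAt.eventually_ne (c0 ▸ one_ne_zero)] with z h1 h2
  have h3 : (w (ψ z)).2 = (w (ψ z)).1 • z :=
    (smul_inv_smul₀ h2 _).symm.trans (congrArg ((w (ψ z)).1 • ·) h1)
  rw [← e.apply_symm_apply (Z (ψ z)), he]
  change (w (ψ z)).1 • Z x0 + fderiv ℂ Z x0 (w (ψ z)).2 = _
  rw [h3, map_smul, smul_add]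

open LocP in
theorem pLoc (hA : S_ModA) (hB : S_ModB) (hN : S_Nat) (hG : S_GGnat) (hS : S_GGsm) : S_Loc := by
  intro ι _ Z ρ v q L μ x h P hP
  obtain ⟨ψ, c, hψ, ψ0, dψ, hc, c0, hZ⟩ := pChart Z x h.hZ h.ok.inj
  set A := fderiv ℂ Z x with hAd
  let Zm : E → C4 := fun z => Z x + A z
  let v' : E → ℝ := fun z => Real.log (-(hL (Zm z) (Zm z)).re)
  have Zm0 : Zm 0 = Z x := by simp [Zm]
  have sZ : ContDiffAt ℂ ∞ Zm 0 := contDiffAt_const.add A.contDiff.contDiffAt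
  have sZ' := sZ.restrict_scalars ℝ
  have tψ : Tendsto ψ (𝓝 0) (𝓝 x) := ψ0 ▸ hψ.continuousAt
  have hψ' := hψ.restrict_scalars ℝ
  have dψ' : HasFDerivAt ψ (ContinuousLinearMap.id ℝ E) 0 := dψ.restrictScalars ℝ
  have cne : ∀ᶠ z in 𝓝 (0 : E), c z ≠ 0 := hc.continuousAt.eventually_ne (c0 ▸ one_ne_zero)
  have hv' : ∀ᶠ z in 𝓝 (0 : E), v' z = v (ψ z) + -2 * Real.log ‖c z‖ := by
    filter_upwards [hZ, cne, tψ.eventually h.hv, (neg_sm sZ').continuousAt.eventually_ne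
      (y := 0) (by rw [Zm0]; exact neg_ne_zero.2 h.ok.neg.ne)] with z h1 h2 h3 h4
    rw [h3, h1, hL_smul, Real.log_mul (pow_ne_zero _ (norm_ne_zero_iff.2 h2)) h4, Real.log_pow]
    simp only [v', Zm]
    push_cast
    ring
  have hpw : pw Zm ρ v' (q ∘ ψ) (fun i => L i ∘ ψ) μ 0 = P := by
    have e1 : fderiv ℂ Zm 0 = A := (A.hasFDerivAt.const_add (Z x)).fderiv
    have e2 : v' 0 = v x := by rw [hv'.self_of_nhds, ψ0, c0]; simp
    simp only [hP, pw, Zm0, e1, e2, Function.comp_apply, ψ0, hAd]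
  have h' : LocD ∞ Zm ρ v' (q ∘ ψ) (fun i => L i ∘ ψ) μ 0 := by
    refine ⟨sZ, Eventually.of_forall fun _ => rfl, fun i => ?_,
      ContDiffAt.comp 0 (ψ0 ▸ h.hq) hψ', fun i => ?_, tψ.eventually h.lev, ?_⟩
    · filter_upwards [hZ, cne, hv', tψ.eventually (h.hl i),
        (hL_sm sZ' (contDiffAt_const (c := ρ i))).continuousAt.eventually_ne
          (y := 0) (by rw [Zm0]; exact h.ok.ne i)] with z h1 h2 h3 h4 h5
      rw [Function.comp_apply, h4, h3, h1, hL_smul_left, norm_mul, mul_pow,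
        Real.log_mul (pow_ne_zero _ (norm_ne_zero_iff.2 h2))
          (pow_ne_zero _ (norm_ne_zero_iff.2 h5)), Real.log_pow]
      simp only [Zm, Function.comp_apply]
      push_cast
      ring
    · rw [Function.comp_apply, ψ0]
      exact h.hμ i
    · rw [hpw, hP]
      exact h.ok
  have two : (2 : WithTop ℕ∞) ≤ ∞ := WithTop.coe_le_coe.2 le_top
  have nat : ∀ᶠ y in 𝓝 (0 : E), ∀ a b, GG v' (q ∘ ψ) (fun i => L i ∘ ψ) μ y a b =
      GG v q L μ (ψ y) (fderiv ℝ ψ y a) (fderiv ℝ ψ y b) := by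
    filter_upwards [(hψ.of_le two).eventually (by simp), (hc.of_le two).eventually (by simp), cne,
      tψ.eventually (((v_sm h).of_le two).eventually (by simp)),
      tψ.eventually ((h.hq.of_le two).eventually (by simp)),
      eventually_all.2 fun i => tψ.eventually (((L_sm h i).of_le two).eventually (by simp)),
      hv'.eventually_nhds] with y h1 h2 h3 h4 h5 h6 h7
    exact hG ι v' _ v q _ L μ ψ c (-2) y h1 h2 h3 h4 (h5.differentiableAt (by simp))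
      (fun i => .inl ((h6 i).differentiableAt (by simp))) h7 (Eventually.of_forall fun _ => rfl)
      fun i => Eventually.of_forall fun _ => rfl
  have ch : ∀ f : E → ℝ, ContDiffAt ℝ ∞ f x → fderiv ℝ (f ∘ ψ) 0 = fderiv ℝ f x := fun f hf => by
    have := (HasFDerivAt.comp 0 (ψ0 ▸ (hf.differentiableAt (by simp)).hasFDerivAt) dψ').fderiv
    rw [this, ContinuousLinearMap.comp_id, ψ0]
  obtain ⟨a1, a2, -, a4⟩ := hA ι (Z x) A ρ v' _ _ μ 0 (locD_one h') P hpw.symm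
  have b1 : ∀ a b, GG v q L μ x a b = (P.H a b).re := fun a b => by
    have := nat.self_of_nhds a b
    rw [dψ'.fderiv, ψ0] at this
    exact this.symm.trans (a1 a b)
  refine ⟨b1, fun i a => by rw [← a2, ch _ (L_sm h i)], fun a => ?_, fun hpos a b => ?_⟩
  · rw [← a4, ch _ h.hq, Function.comp_apply, ψ0]
  · obtain ⟨s1, s2⟩ := hS ι v q L μ x (v_sm h) h.hq fun i => .inl ⟨L_sm h i, h.hμ i⟩
    have := hN _ (GG v q L μ) ψ 0 hψ' (by rw [dψ'.fderiv]; exact fun _ _ e => e) (ψ0 ▸ s1)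
      (ψ0 ▸ s2) (fun a ha => by rw [ψ0, b1]; exact hpos a ha) nat a b
    rw [dψ'.fderiv, ψ0] at this
    exact this.symm.trans (hB ι (Z x) A ρ v' _ _ μ 0 h' P hpw.symm hpos a b)

end Pool.Agent.P.MP_5d7cf0_gt
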