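import Pool.Agent.P.MP_5d7cf0_gt.St

/-!
Package Lp: the period along a circle.
-/

open Set Filter Topology MeasureTheory Metric
open scoped Real

noncomputable section

namespace Pool.Agent.P.MP_5d7cf0_gt

namespace LpP

lemma re_pos {e : ℂ} (he : ‖e‖ < 1) : 0 < (1 + e).re := by
  have := (abs_le.mp (Complex.abs_re_le_norm e)).1
  simp only [Complex.add_re, Complex.one_re]
  linarith

lemma ne_zero_of_re {z : ℂ} (h : 0 < z.re) : z ≠ 0 := by
  rintro rfl
  simp at h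

lemma cp_mul {a b : ℂ} (ha : 0 < a.re) (hb : 0 < b.re) : cp (a * b) = cp a * cp b := by
  have ha0 := ne_zero_of_re ha
  have hb0 := ne_zero_of_re hb
  have h1 := abs_lt.mp (Complex.abs_arg_lt_pi_div_two_iff.mpr (Or.inl ha))
  have h2 := abs_lt.mp (Complex.abs_arg_lt_pi_div_two_iff.mpr (Or.inl hb))
  unfold cp
  rw [Complex.cpow_def_of_ne_zero ha0, Complex.cpow_def_of_ne_zero hb0,
    Complex.cpow_def_of_ne_zero (mul_ne_zero ha0 hb0),
    (Complex.log_mul_eq_add_log_iff ha0 hb0).mpr ⟨by linarith [h1.1, h2.1], by linarith [h1.2, h2.2]⟩,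
    add_mul, Complex.exp_add]

lemma cp_cube (a : ℂ) : cp a ^ 3 = a⁻¹ := by
  unfold cp
  rw [← Complex.cpow_nat_mul, show ((3 : ℕ) : ℂ) * (-(1 / 3) : ℂ) = -1 by push_cast; ring,
    Complex.cpow_neg_one]

lemma norm_cp (a : ℂ) : ‖cp a‖ = ‖a‖ ^ (-(1 / 3) : ℝ) := by
  unfold cp
  rw [show (-(1 / 3) : ℂ) = ((-(1 / 3) : ℝ) : ℂ) by push_cast; ring, Complex.norm_cpow_real]

lemma cp_near {e : ℂ} (he : ‖e‖ ≤ 1 / 100) : ‖cp (1 + e) - 1‖ ≤ ‖e‖ := by
  have h0 : (1 + e) ≠ 0 := ne_zero_of_re (re_pos (by linarith))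
  have h1 := Complex.norm_log_one_add_half_le_self (z := e) (by linarith)
  have h2 : ‖Complex.log (1 + e) * (-(1 / 3) : ℂ)‖ ≤ ‖e‖ / 2 := by
    rw [norm_mul, norm_neg, norm_div, norm_one, show ‖(3 : ℂ)‖ = 3 by simp]
    linarith
  unfold cp
  rw [Complex.cpow_def_of_ne_zero h0]
  have h3 := Complex.norm_exp_sub_one_le (x := Complex.log (1 + e) * (-(1 / 3) : ℂ)) (by linarith)
  linarith

lemma cp_diff {f : ℂ → ℂ} {w : ℂ} (hf : DifferentiableAt ℂ f w) (h : 0 < (f w).re) :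
    DifferentiableAt ℂ (fun z => cp (f z)) w :=
  hf.cpow_const (Or.inl h)

/-- the integrand without the factor `w⁻¹` -/
def G (S : Finset (Fin 6)) (α β : Fin 6 → ℂ) (w : ℂ) : ℂ :=
  (∏ k ∈ S, cp (1 + α k / w)) * ∏ l ∈ Sᶜ, cp (1 + β l * w)

lemma G_diff {S : Finset (Fin 6)} {α β : Fin 6 → ℂ} {w : ℂ} (hw : w ≠ 0)
    (h1 : ∀ k ∈ S, ‖α k‖ < ‖w‖) (h2 : ∀ l ∈ Sᶜ, ‖β l‖ * ‖w‖ < 1) :
    DifferentiableAt ℂ (G S α β) w := by
  unfold G
  refine DifferentiableAt.mul (DifferentiableAt.fun_finsetProd fun k hk => ?_)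
    (DifferentiableAt.fun_finsetProd fun l hl => ?_)
  · refine cp_diff (f := fun z => 1 + α k / z) (by fun_prop (disch := exact hw)) (re_pos ?_)
    rw [norm_div, div_lt_one (norm_pos_iff.mpr hw)]
    exact h1 k hk
  · refine cp_diff (f := fun z => 1 + β l * z) (by fun_prop) (re_pos ?_)
    rw [norm_mul]
    exact h2 l hl

lemma Lp_def (S : Finset (Fin 6)) (α β : Fin 6 → ℂ) (ρ : ℝ) :
    Lp S α β ρ = ∮ w in C(0, ρ), w⁻¹ * G S α β w := by
  unfold Lp G
  simp only [mul_assoc]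

lemma Lp_eq (S : Finset (Fin 6)) (α β : Fin 6 → ℂ) {ρ : ℝ} (hρ : 0 < ρ) :
    Lp S α β ρ = ∫ θ in (0 : ℝ)..2 * π, Complex.I * G S α β (circleMap 0 ρ θ) := by
  rw [Lp_def, circleIntegral]
  refine intervalIntegral.integral_congr fun θ _ => ?_
  have h : circleMap 0 ρ θ ≠ 0 := circleMap_ne_center hρ.ne'
  simp only [deriv_circleMap, smul_eq_mul]
  field_simp

lemma part1 (S : Finset (Fin 6)) (α β : Fin 6 → ℂ) (ρ ρ' : ℝ) (hρ : 0 < ρ) (hle : ρ ≤ ρ')
    (h1 : ∀ k ∈ S, ‖α k‖ < ρ) (h2 : ∀ l ∈ Sᶜ, ‖β l‖ * ρ' < 1) : Lp S α β ρ' = Lp S α β ρ := by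
  have key : ∀ w ∈ closedBall (0 : ℂ) ρ' \ ball 0 ρ,
      DifferentiableAt ℂ (fun w => w⁻¹ * G S α β w) w := by
    intro w hw
    have a1 : ‖w‖ ≤ ρ' := by simpa using hw.1
    have a2 : ρ ≤ ‖w‖ := by simpa using hw.2
    have a3 : w ≠ 0 := norm_pos_iff.mp (by linarith)
    refine (differentiableAt_inv a3).mul (G_diff a3 (fun k hk => (h1 k hk).trans_le a2)
      fun l hl => lt_of_le_of_lt ?_ (h2 l hl))
    gcongr
  rw [Lp_def, Lp_def]
  refine Complex.circleIntegral_eq_of_differentiable_on_annulus_off_countable hρ hle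
    countable_empty (fun w hw => (key w hw).continuousAt.continuousWithinAt) fun w hw => key w ?_
  exact ⟨ball_subset_closedBall hw.1.1, fun h => hw.1.2 (ball_subset_closedBall h)⟩

lemma per_shift {h : ℝ → ℂ} (hp : Function.Periodic h (2 * π)) (φ : ℝ) :
    ∫ θ in (0 : ℝ)..2 * π, h (θ - φ) = ∫ θ in (0 : ℝ)..2 * π, h θ := by
  rw [intervalIntegral.integral_comp_sub_right h φ]
  have := hp.intervalIntegral_add_eq (0 - φ) 0
  rw [zero_add, show 0 - φ + 2 * π = 2 * π - φ by ring] at this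
  exact this

lemma per_neg {h : ℝ → ℂ} (hp : Function.Periodic h (2 * π)) :
    ∫ θ in (0 : ℝ)..2 * π, h (-θ) = ∫ θ in (0 : ℝ)..2 * π, h θ := by
  rw [intervalIntegral.integral_comp_neg h]
  have := hp.intervalIntegral_add_eq (-(2 * π)) 0
  rw [zero_add, show -(2 * π) + 2 * π = -0 by ring] at this
  exact this

lemma part2 (S : Finset (Fin 6)) (α β : Fin 6 → ℂ) (ρ : ℝ) (c : ℂ) (hρ : 0 < ρ) (hc : c ≠ 0) :
    Lp S (fun k => c * α k) (fun l => c⁻¹ * β l) (‖c‖ * ρ) = Lp S α β ρ := by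
  rw [Lp_eq _ _ _ hρ, Lp_eq _ _ _ (mul_pos (norm_pos_iff.mpr hc) hρ),
    ← per_shift (h := fun θ => Complex.I * G S α β (circleMap 0 ρ θ))
      ((periodic_circleMap 0 ρ).comp fun w => Complex.I * G S α β w) c.arg]
  refine intervalIntegral.integral_congr fun θ _ => ?_
  have h : circleMap 0 ρ (θ - c.arg) ≠ 0 := circleMap_ne_center hρ.ne'
  have e : circleMap 0 (‖c‖ * ρ) θ = c * circleMap 0 ρ (θ - c.arg) := by
    have e0 := Complex.norm_mul_exp_arg_mul_I c
    generalize c.arg = φ at e0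
    simp only [circleMap, zero_add]
    have : Complex.exp (θ * Complex.I) =
        Complex.exp (φ * Complex.I) * Complex.exp (((θ - φ : ℝ) : ℂ) * Complex.I) := by
      rw [← Complex.exp_add]
      congr 1
      push_cast
      ring
    rw [this, Complex.ofReal_mul]
    linear_combination (ρ * Complex.exp (((θ - φ : ℝ) : ℂ) * Complex.I)) * e0
  simp only [e, G]
  congr 2
  · refine Finset.prod_congr rfl fun k _ => ?_
    rw [mul_div_mul_left _ _ hc]
  · refine Finset.prod_congr rfl fun k _ => ?_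
    congr 2
    field_simp

lemma part3 (S : Finset (Fin 6)) (α β : Fin 6 → ℂ) (ρ : ℝ) (hρ : 0 < ρ) :
    Lp Sᶜ β α ρ⁻¹ = Lp S α β ρ := by
  rw [Lp_eq _ _ _ hρ, Lp_eq _ _ _ (inv_pos.mpr hρ),
    ← per_neg (h := fun θ => Complex.I * G S α β (circleMap 0 ρ θ))
      ((periodic_circleMap 0 ρ).comp fun w => Complex.I * G S α β w)]
  refine intervalIntegral.integral_congr fun θ _ => ?_
  have e : circleMap 0 ρ⁻¹ θ = (circleMap 0 ρ (-θ))⁻¹ := by
    rw [circleMap_zero_inv, neg_neg]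
  simp only [e, G, compl_compl, div_eq_mul_inv, inv_inv]
  ring

/-- moving the centre of the circle a little -/
lemma shift {g : ℂ → ℂ} {ρ : ℝ} (hρ : 0 < ρ)
    (hg : ∀ w : ℂ, ρ / 2 < ‖w‖ → ‖w‖ < 2 * ρ → DifferentiableAt ℂ g w) {a : ℂ} (ha : ‖a‖ < ρ / 4) :
    ∮ w in C(0, ρ), g (w + a) = ∮ w in C(0, ρ), g w := by
  set U : Set ℂ := {w | ρ / 2 < ‖w‖ ∧ ‖w‖ < 2 * ρ} with hU
  have hUo : IsOpen U := (isOpen_lt continuous_const continuous_norm).inter
    (isOpen_lt continuous_norm continuous_const)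
  have han : AnalyticOnNhd ℂ g U :=
    DifferentiableOn.analyticOnNhd (fun w hw => (hg w hw.1 hw.2).differentiableWithinAt) hUo
  set K : Set ℂ := closedBall 0 (5 * ρ / 4) \ ball 0 (3 * ρ / 4) with hK
  have hKc : IsCompact K := (isCompact_closedBall _ _).diff isOpen_ball
  have hKU : K ⊆ U := by
    intro w hw
    have a1 : ‖w‖ ≤ 5 * ρ / 4 := by simpa using hw.1
    have a2 : 3 * ρ / 4 ≤ ‖w‖ := by simpa using hw.2
    constructor <;> linarith
  obtain ⟨M, hM⟩ := hKc.exists_bound_of_continuousOn (han.deriv.continuousOn.mono hKU)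
  have hmem : ∀ (θ : ℝ), ∀ z ∈ ball (0 : ℂ) (ρ / 4), circleMap 0 ρ θ + z ∈ K := by
    intro θ z hz
    have a1 : ‖z‖ < ρ / 4 := by simpa using hz
    have a2 : ‖circleMap 0 ρ θ‖ = ρ := by rw [norm_circleMap_zero, abs_of_pos hρ]
    have a3 := norm_add_le (circleMap 0 ρ θ) z
    have a4 := norm_sub_le (circleMap 0 ρ θ + z) z
    rw [add_sub_cancel_right] at a4
    constructor
    · simp only [mem_closedBall, dist_zero_right]; linarith
    · simp only [mem_ball, dist_zero_right, not_lt]; linarith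
  have hcont : ∀ f : ℂ → ℂ, ContinuousOn f U → ∀ z ∈ ball (0 : ℂ) (ρ / 4),
      Continuous fun θ : ℝ => deriv (circleMap 0 ρ) θ • f (circleMap 0 ρ θ + z) := by
    intro f hf z hz
    simp only [deriv_circleMap, smul_eq_mul]
    refine Continuous.mul (by fun_prop) ?_
    exact hf.comp_continuous (by fun_prop) fun θ => hKU (hmem θ z hz)
  have hder : ∀ z ∈ ball (0 : ℂ) (ρ / 4),
      HasDerivAt (fun z => ∮ w in C(0, ρ), g (w + z)) 0 z := by
    intro z hz
    have h0 : ∮ w in C(0, ρ), deriv g (w + z) = 0 := by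
      refine circleIntegral.integral_eq_zero_of_hasDerivWithinAt (f := fun w => g (w + z)) hρ.le
        fun w hw => HasDerivAt.hasDerivWithinAt ?_
      have hw' : w ∈ range (circleMap 0 ρ) := by
        rw [range_circleMap, abs_of_pos hρ]; exact hw
      obtain ⟨θ, rfl⟩ := hw'
      exact HasDerivAt.comp_add_const _ _
        (han _ (hKU (hmem θ z hz))).differentiableAt.hasDerivAt
    suffices H : HasDerivAt (fun z => ∮ w in C(0, ρ), g (w + z))
      (∮ w in C(0, ρ), deriv g (w + z)) z by rwa [h0] at H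
    refine (intervalIntegral.hasDerivAt_integral_of_dominated_loc_of_deriv_le
      (μ := volume) (bound := fun _ => ρ * M)
      (F := fun z θ => deriv (circleMap 0 ρ) θ • g (circleMap 0 ρ θ + z))
      (F' := fun z θ => deriv (circleMap 0 ρ) θ • deriv g (circleMap 0 ρ θ + z))
      (isOpen_ball.mem_nhds hz) ?_ ?_ ?_ ?_ ?_ ?_).2
    · filter_upwards [isOpen_ball.mem_nhds hz] with y hy
      exact (hcont g han.continuousOn y hy).aestronglyMeasurable
    · exact (hcont g han.continuousOn z hz).intervalIntegrable _ _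
    · exact (hcont _ han.deriv.continuousOn z hz).aestronglyMeasurable
    · refine Eventually.of_forall fun θ _ y hy => ?_
      rw [norm_smul, deriv_circleMap, norm_mul, Complex.norm_I, mul_one, norm_circleMap_zero,
        abs_of_pos hρ]
      exact mul_le_mul_of_nonneg_left (hM _ (hmem θ y hy)) hρ.le
    · exact intervalIntegrable_const
    · refine Eventually.of_forall fun θ _ y hy => ?_
      exact (HasDerivAt.comp_const_add _ _
        (han _ (hKU (hmem θ y hy))).differentiableAt.hasDerivAt).fun_const_smul _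
  have := isOpen_ball.is_const_of_deriv_eq_zero (convex_ball (0 : ℂ) (ρ / 4)).isPreconnected
    (fun z hz => (hder z hz).differentiableAt.differentiableWithinAt)
    (fun z hz => (hder z hz).deriv) (x := a) (y := 0) (by simpa using ha)
    (mem_ball_self (by linarith))
  simpa using this

lemma part4 (S : Finset (Fin 6)) (α β : Fin 6 → ℂ) (ρ : ℝ) (a : ℂ) (hS : S.card = 3) (hρ : 0 < ρ)
    (ha : ‖a‖ ≤ ρ / 100) (h1 : ∀ k ∈ S, ‖α k‖ ≤ ρ / 100) (h2 : ∀ l ∈ Sᶜ, ‖β l‖ * ρ ≤ 1 / 100) :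
    Lp S α β ρ = (∏ l ∈ Sᶜ, cp (1 - a * β l)) *
      Lp S (fun k => α k - a) (fun l => β l / (1 - a * β l)) ρ := by
  have hab : ∀ l ∈ Sᶜ, ‖a * β l‖ ≤ 1 / 10000 := by
    intro l hl
    have := h2 l hl
    rw [norm_mul]
    nlinarith [norm_nonneg (β l), norm_nonneg a]
  have hre : ∀ l ∈ Sᶜ, 0 < (1 - a * β l).re := by
    intro l hl
    rw [sub_eq_add_neg]
    exact re_pos (by rw [norm_neg]; linarith [hab l hl])
  have hβ' : ∀ l ∈ Sᶜ, ‖β l / (1 - a * β l)‖ * ρ ≤ 1 / 50 := by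
    intro l hl
    have b1 := norm_sub_norm_le (1 : ℂ) (a * β l)
    rw [norm_one] at b1
    have b2 : 1 / 2 ≤ ‖1 - a * β l‖ := by linarith [hab l hl]
    rw [norm_div, div_mul_eq_mul_div, div_le_iff₀ (by linarith)]
    linarith [h2 l hl]
  have hα' : ∀ k ∈ S, ‖α k - a‖ ≤ ρ / 50 := fun k hk => by
    linarith [norm_sub_le (α k) a, h1 k hk]
  have hsm : ∀ w : ℂ, ‖w‖ < 2 * ρ → ∀ l ∈ Sᶜ, ‖β l / (1 - a * β l)‖ * ‖w‖ < 1 := by
    intro w hw l hl
    have := hβ' l hl
    nlinarith [norm_nonneg (β l / (1 - a * β l))]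
  rw [Lp_def, Lp_def, ← shift (g := fun w => w⁻¹ * G S (fun k => α k - a)
    (fun l => β l / (1 - a * β l)) w) hρ (a := a) ?_ (by linarith),
    ← circleIntegral.integral_const_mul]
  · refine circleIntegral.integral_congr hρ.le fun w hw => ?_
    have a1 : ‖w‖ = ρ := by simpa using hw
    have a2 : w ≠ 0 := norm_pos_iff.mp (by linarith)
    have a3 := norm_add_le w a
    have a4 := norm_sub_le (w + a) a
    rw [add_sub_cancel_right] at a4
    have a5 : w + a ≠ 0 := norm_pos_iff.mp (by linarith)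
    have a6 : 0 < (1 + a / w).re := by
      refine re_pos ?_
      rw [norm_div, div_lt_one (by linarith)]
      linarith
    have e1 : ∏ k ∈ S, cp (1 + α k / w) =
        (1 + a / w)⁻¹ * ∏ k ∈ S, cp (1 + (α k - a) / (w + a)) := by
      rw [← cp_cube, ← hS, ← Finset.prod_const, ← Finset.prod_mul_distrib]
      refine Finset.prod_congr rfl fun k hk => ?_
      rw [← cp_mul a6 (re_pos ?_)]
      · congr 1
        field_simp
        ring
      · rw [norm_div, div_lt_one (by linarith)]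
        linarith [hα' k hk]
    have e2 : ∏ l ∈ Sᶜ, cp (1 + β l * w) =
        (∏ l ∈ Sᶜ, cp (1 - a * β l)) * ∏ l ∈ Sᶜ, cp (1 + β l / (1 - a * β l) * (w + a)) := by
      rw [← Finset.prod_mul_distrib]
      refine Finset.prod_congr rfl fun l hl => ?_
      rw [← cp_mul (hre l hl) (re_pos ?_)]
      · congr 1
        have := mul_div_cancel₀ (β l) (ne_zero_of_re (hre l hl))
        linear_combination (-(w + a)) * this
      · rw [norm_mul]
        exact hsm _ (by linarith) l hl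
    simp only [G, e1, e2]
    have e3 : w⁻¹ * (1 + a / w)⁻¹ = (w + a)⁻¹ := by
      field_simp
    rw [← e3]
    ring
  · intro w b1 b2
    have a3 : w ≠ 0 := norm_pos_iff.mp (by linarith)
    exact (differentiableAt_inv a3).mul
      (G_diff a3 (fun k hk => by linarith [hα' k hk]) (hsm w b2))

lemma prod_near (T : Finset (Fin 6)) (e : Fin 6 → ℂ) (he : ∀ k ∈ T, ‖e k‖ ≤ 1 / 100) :
    ‖∏ k ∈ T, cp (1 + e k) - 1‖ ≤ 1 / 8 := by
  have h1 := Finset.norm_prod_one_add_sub_one_le T fun k => cp (1 + e k) - 1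
  simp only [add_sub_cancel] at h1
  have h2 : ∑ k ∈ T, ‖cp (1 + e k) - 1‖ ≤ 6 / 100 := by
    refine (Finset.sum_le_card_nsmul T _ (1 / 100) fun k hk =>
      (cp_near (he k hk)).trans (he k hk)).trans ?_
    have : (T.card : ℝ) ≤ 6 := by exact_mod_cast T.card_le_univ
    rw [nsmul_eq_mul]
    linarith
  have h3 := Real.exp_le_exp.mpr h2
  have h4 := (abs_le.mp (Real.abs_exp_sub_one_le (x := 6 / 100) (by norm_num [abs_of_pos]))).2
  rw [abs_of_pos (by norm_num)] at h4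
  linarith

lemma part5 (S : Finset (Fin 6)) (α β : Fin 6 → ℂ) (ρ : ℝ) (hρ : 0 < ρ)
    (h1 : ∀ k ∈ S, ‖α k‖ ≤ ρ / 100) (h2 : ∀ l ∈ Sᶜ, ‖β l‖ * ρ ≤ 1 / 100) :
    1 ≤ ‖Lp S α β ρ‖ ∧ ‖Lp S α β ρ‖ ≤ 10 := by
  have hn : ∀ θ, ‖circleMap 0 ρ θ‖ = ρ := fun θ => by rw [norm_circleMap_zero, abs_of_pos hρ]
  have hc : Continuous fun θ => G S α β (circleMap 0 ρ θ) := by
    refine continuous_iff_continuousAt.mpr fun θ => ContinuousAt.comp (G_diff
      (circleMap_ne_center hρ.ne') (fun k hk => ?_) fun l hl => ?_).continuousAt (by fun_prop)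
    · rw [hn]; linarith [h1 k hk]
    · rw [hn]; linarith [h2 l hl]
  have hb : ∀ θ, ‖Complex.I * G S α β (circleMap 0 ρ θ) - Complex.I‖ ≤ 1 / 3 := by
    intro θ
    have b1 := prod_near S (fun k => α k / circleMap 0 ρ θ) fun k hk => by
      rw [norm_div, hn, div_le_iff₀ hρ]; linarith [h1 k hk]
    have b2 := prod_near Sᶜ (fun l => β l * circleMap 0 ρ θ) fun l hl => by
      rw [norm_mul, hn]; exact h2 l hl
    rw [← mul_sub_one, norm_mul, Complex.norm_I, one_mul]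
    unfold G
    set P := ∏ k ∈ S, cp (1 + α k / circleMap 0 ρ θ)
    set Q := ∏ l ∈ Sᶜ, cp (1 + β l * circleMap 0 ρ θ)
    rw [show P * Q - 1 = (P - 1) * (Q - 1) + (P - 1) + (Q - 1) by ring]
    have b3 := norm_add₃_le (a := (P - 1) * (Q - 1)) (b := P - 1) (c := Q - 1)
    rw [norm_mul] at b3
    nlinarith [norm_nonneg (P - 1), norm_nonneg (Q - 1)]
  have hd : ‖Lp S α β ρ - 2 * π * Complex.I‖ ≤ 1 / 3 * |2 * π - 0| := by
    have : Lp S α β ρ - 2 * π * Complex.I =
        ∫ θ in (0 : ℝ)..2 * π, (Complex.I * G S α β (circleMap 0 ρ θ) - Complex.I) := by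
      have hc' : Continuous fun θ => Complex.I * G S α β (circleMap 0 ρ θ) :=
        continuous_const.mul hc
      rw [intervalIntegral.integral_sub (hc'.intervalIntegrable _ _)
        intervalIntegrable_const, Lp_eq _ _ _ hρ]
      simp
    rw [this]
    exact intervalIntegral.norm_integral_le_of_norm_le_const fun θ _ => hb θ
  have hpi : ‖(2 * π * Complex.I : ℂ)‖ = 2 * π := by simp [abs_of_pos Real.pi_pos]
  rw [sub_zero, abs_of_pos Real.two_pi_pos] at hd
  have c1 := abs_le.mp ((abs_norm_sub_norm_le (Lp S α β ρ) (2 * π * Complex.I)).trans hd)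
  rw [hpi] at c1
  constructor <;> linarith [c1.1, c1.2, Real.pi_gt_three, Real.pi_lt_d2]

end LpP

theorem pLp : S_Lp := by
  refine ⟨fun S α β ρ ρ' hρ hρ' h1 h2 => ?_, LpP.part2, LpP.part3,
    fun S α β ρ a hS hρ ha h1 h2 => ?_, LpP.part5⟩
  · rcases le_total ρ ρ' with h | h
    · exact (LpP.part1 S α β ρ ρ' hρ h (fun k hk => (h1 k hk).1) fun l hl => (h2 l hl).2).symm
    · exact LpP.part1 S α β ρ' ρ hρ' h (fun k hk => (h1 k hk).2) fun l hl => (h2 l hl).1
  · rw [LpP.part4 S α β ρ a hS hρ ha h1 h2, norm_mul, norm_prod]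
    congr 1
    refine Finset.prod_congr rfl fun l _ => LpP.norm_cp _

end Pool.Agent.P.MP_5d7cf0_gt
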