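import Pool.Agent.P.MP_5d7cf0_gt.St

/-!
Package Mob: change of variables by a Moebius map.
-/

open Set Filter Topology MeasureTheory ComplexConjugate
open scoped ContDiff ENNReal

namespace Pool.Agent.P.MP_5d7cf0_gt.MobP

/-- the real determinant of the multiplication by a complex number -/
theorem det_mul (a : ℂ) :
    ((ContinuousLinearMap.toSpanSingleton ℂ a).restrictScalars ℝ).det = ‖a‖ ^ 2 := by
  simp [ContinuousLinearMap.det, LinearMap.det_restrictScalars, Algebra.norm_complex_eq,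
    Complex.normSq_eq_norm_sq]

/-- the zero set of a nonzero affine function is null -/
theorem ae_ne (a b : ℂ) (h : a ≠ 0 ∨ b ≠ 0) : ∀ᵐ z : ℂ, a * z + b ≠ 0 := by
  by_cases ha : a = 0
  · have hb : b ≠ 0 := h.resolve_left (not_not.mpr ha)
    exact Eventually.of_forall fun z => by simpa [ha] using hb
  · have h1 : ∀ᵐ z : ℂ, z ≠ -b / a := Measure.ae_ne volume (-b / a)
    filter_upwards [h1] with z hz hc
    apply hz
    field_simp
    linear_combination hc

theorem mob0 (Θ : ℂ × ℂ → ℝ≥0∞) (α β γ δ : ℂ) (hD : α * δ - β * γ ≠ 0)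
    (hΘ : ∀ (c : ℂ) (u : ℂ × ℂ), c ≠ 0 →
      Θ (c * u.1, c * u.2) = ENNReal.ofReal (‖c‖⁻¹ ^ 4) * Θ u) :
    ∫⁻ z : ℂ, Θ (z, 1) =
      ENNReal.ofReal (‖α * δ - β * γ‖ ^ 2) * ∫⁻ z : ℂ, Θ (α * z + β, γ * z + δ) := by
  set D := α * δ - β * γ with hDdef
  set s : Set ℂ := {z | γ * z + δ ≠ 0} with hs
  set f : ℂ → ℂ := fun z => (α * z + β) / (γ * z + δ) with hf
  have hsm : MeasurableSet s := by
    have : IsOpen s := isOpen_ne_fun (by fun_prop) continuous_const
    exact this.measurableSet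
  have hsae : ∀ᵐ z : ℂ, z ∈ s := by
    apply ae_ne
    by_contra hc
    push Not at hc
    apply hD
    rw [hDdef, hc.1, hc.2]
    ring
  have himg : ∀ᵐ w : ℂ, w ∈ f '' s := by
    have h1 : ∀ᵐ w : ℂ, (-γ) * w + α ≠ 0 := by
      apply ae_ne
      by_contra hc
      push Not at hc
      apply hD
      rw [hDdef, hc.2, neg_eq_zero.mp hc.1]
      ring
    filter_upwards [h1] with w hw
    obtain ⟨t, ht⟩ : ∃ t, t = -γ * w + α := ⟨_, rfl⟩
    rw [← ht] at hw
    have e1 : γ * ((δ * w - β) / t) + δ = D / t := by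
      rw [hDdef]
      field_simp
      rw [ht]
      ring
    have e2 : α * ((δ * w - β) / t) + β = D * w / t := by
      rw [hDdef]
      field_simp
      rw [ht]
      ring
    refine ⟨(δ * w - β) / t, ?_, ?_⟩
    · change γ * ((δ * w - β) / t) + δ ≠ 0
      rw [e1]
      exact div_ne_zero hD hw
    · change (α * ((δ * w - β) / t) + β) / (γ * ((δ * w - β) / t) + δ) = w
      rw [e1, e2]
      field_simp
  have hder : ∀ z ∈ s, HasFDerivWithinAt f
      ((ContinuousLinearMap.toSpanSingleton ℂ (D / (γ * z + δ) ^ 2)).restrictScalars ℝ) s z := by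
    intro z hz
    have hz' : γ * z + δ ≠ 0 := hz
    have h1 : HasDerivAt (fun z => α * z + β) α z := by
      simpa using ((hasDerivAt_id z).const_mul α).add_const β
    have h2 : HasDerivAt (fun z => γ * z + δ) γ z := by
      simpa using ((hasDerivAt_id z).const_mul γ).add_const δ
    have h3 : HasDerivAt f (D / (γ * z + δ) ^ 2) z := by
      have h4 := h1.div h2 hz'
      have e : (α * (γ * z + δ) - (α * z + β) * γ) / (γ * z + δ) ^ 2 = D / (γ * z + δ) ^ 2 := by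
        rw [hDdef]
        congr 1
        ring
      rw [e] at h4
      exact h4
    exact (h3.hasFDerivAt.restrictScalars ℝ).hasFDerivWithinAt
  have hinj : InjOn f s := by
    intro z hz w hw hzw
    have hz' : γ * z + δ ≠ 0 := hz
    have hw' : γ * w + δ ≠ 0 := hw
    have h1 : (α * z + β) / (γ * z + δ) = (α * w + β) / (γ * w + δ) := hzw
    rw [div_eq_div_iff hz' hw'] at h1
    have h2 : D * (z - w) = 0 := by
      rw [hDdef]
      linear_combination h1
    exact sub_eq_zero.mp ((mul_eq_zero.mp h2).resolve_left hD)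
  have key := lintegral_image_eq_lintegral_abs_det_fderiv_mul volume hsm hder hinj
    (fun z => Θ (z, 1))
  rw [Measure.restrict_eq_self_of_ae_mem himg] at key
  rw [key, ← lintegral_const_mul' _ _ ENNReal.ofReal_ne_top]
  conv_rhs => rw [← Measure.restrict_eq_self_of_ae_mem hsae]
  refine setLIntegral_congr_fun hsm fun z hz => ?_
  have hz' : γ * z + δ ≠ 0 := hz
  have hn : ‖γ * z + δ‖ ≠ 0 := norm_ne_zero_iff.mpr hz'
  have h1 := hΘ (γ * z + δ)⁻¹ (α * z + β, γ * z + δ) (inv_ne_zero hz')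
  have h2 : ((γ * z + δ)⁻¹ * (α * z + β), (γ * z + δ)⁻¹ * (γ * z + δ)) = (f z, (1 : ℂ)) := by
    rw [inv_mul_cancel₀ hz', mul_comm, ← div_eq_mul_inv]
  simp only at h1
  rw [h2] at h1
  rw [h1, det_mul, ← mul_assoc, ← ENNReal.ofReal_mul (abs_nonneg _)]
  congr 2
  rw [abs_of_nonneg (by positivity), norm_inv, inv_inv, norm_div, norm_pow]
  field_simp

/-- the homogeneous integrand -/
noncomputable def Th (v : V6) (u : ℂ × ℂ) : ℝ := ∏ i, ‖br u (v i)‖ ^ (-(2 / 3) : ℝ)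

theorem Th_nonneg (v : V6) (u : ℂ × ℂ) : 0 ≤ Th v u :=
  Finset.prod_nonneg fun _ _ => Real.rpow_nonneg (norm_nonneg _) _

theorem Vi_eq (v : V6) (z : ℂ) : Vi v z = Th v (z, 1) := rfl

theorem Vi_meas (v : V6) : Measurable (Vi v) := by
  unfold Vi
  refine Finset.measurable_prod _ fun i _ => ?_
  have h : Continuous fun z : ℂ => ‖br (z, 1) (v i)‖ := by
    unfold br
    fun_prop
  exact h.measurable.pow_const _

theorem six_pow (r : ℝ) (hr : 0 < r) : (r ^ (-(2 / 3) : ℝ)) ^ 6 = r⁻¹ ^ 4 := by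
  rw [← Real.rpow_natCast, ← Real.rpow_mul hr.le, inv_pow, ← Real.rpow_natCast,
    ← Real.rpow_neg hr.le]
  norm_num

theorem Th_hom (v : V6) (c : ℂ) (u : ℂ × ℂ) (hc : c ≠ 0) :
    Th v (c * u.1, c * u.2) = ‖c‖⁻¹ ^ 4 * Th v u := by
  unfold Th
  have h1 : ∀ i, ‖br (c * u.1, c * u.2) (v i)‖ ^ (-(2 / 3) : ℝ) =
      ‖c‖ ^ (-(2 / 3) : ℝ) * ‖br u (v i)‖ ^ (-(2 / 3) : ℝ) := by
    intro i
    have e : br (c * u.1, c * u.2) (v i) = c * br u (v i) := by
      unfold br
      ring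
    rw [e, norm_mul, Real.mul_rpow (norm_nonneg _) (norm_nonneg _)]
  simp only [h1]
  rw [Finset.prod_mul_distrib, Finset.prod_const, Finset.card_univ, Fintype.card_fin,
    six_pow _ (norm_pos_iff.mpr hc)]

theorem Vh_eq (v : V6) :
    Vh v = 2 * √3 * (∫⁻ z : ℂ, ENNReal.ofReal (Th v (z, 1))).toReal := by
  unfold Vh
  rw [integral_eq_lintegral_of_nonneg_ae (f := Vi v)
    (Eventually.of_forall fun z => Th_nonneg v (z, 1)) (Vi_meas v).aestronglyMeasurable]
  rfl

theorem nf_eq (D : ℂ) (c : Fin 6 → ℂ) (hD : D ≠ 0) :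
    nf D c = ‖D‖ ^ 2 * ∏ i, ‖D * c i‖ ^ (-(2 / 3) : ℝ) := by
  have hp : 0 < ‖D‖ := norm_pos_iff.mpr hD
  unfold nf
  simp only [norm_mul, Real.mul_rpow (norm_nonneg _) (norm_nonneg _)]
  rw [Finset.prod_mul_distrib, Finset.prod_const, Finset.card_univ, Fintype.card_fin,
    six_pow _ hp, norm_prod, ← Real.finsetProd_rpow _ _ fun i _ => norm_nonneg (c i), norm_pow,
    ← mul_assoc]
  congr 1
  rw [← Real.rpow_natCast, ← Real.rpow_mul hp.le]
  have e : (((3 : ℕ) : ℝ) * -(2 / 3)) = -((2 : ℕ) : ℝ) := by norm_num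
  rw [e, Real.rpow_neg hp.le, Real.rpow_natCast]
  field_simp

theorem mob1 (v v' : V6) (D : ℂ) (c : Fin 6 → ℂ) (h : Rel v v' D c) :
    Vh v' = nf D c * Vh v := by
  obtain ⟨hD, -, α, β, γ, δ, hdet, hv⟩ := h
  have h0 := mob0 (fun u => ENNReal.ofReal (Th v' u)) α β γ δ (hdet ▸ hD) fun c u hc => by
    rw [Th_hom v' c u hc, ENNReal.ofReal_mul (by positivity)]
  have hK : 0 ≤ ∏ i, ‖D * c i‖ ^ (-(2 / 3) : ℝ) :=
    Finset.prod_nonneg fun _ _ => Real.rpow_nonneg (norm_nonneg _) _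
  have h1 : ∀ z : ℂ, Th v' (α * z + β, γ * z + δ) =
      (∏ i, ‖D * c i‖ ^ (-(2 / 3) : ℝ)) * Th v (z, 1) := by
    intro z
    unfold Th
    rw [← Finset.prod_mul_distrib]
    refine Finset.prod_congr rfl fun i _ => ?_
    have e : br (α * z + β, γ * z + δ) (v' i) = D * c i * br (z, 1) (v i) := by
      rw [hv i, ← hdet]
      unfold br
      ring
    rw [e, norm_mul (D * c i), Real.mul_rpow (norm_nonneg _) (norm_nonneg _)]
  simp only [h1, ENNReal.ofReal_mul hK] at h0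
  rw [lintegral_const_mul' _ _ ENNReal.ofReal_ne_top, hdet] at h0
  rw [Vh_eq, Vh_eq, h0, nf_eq D c hD, ENNReal.toReal_mul, ENNReal.toReal_mul,
    ENNReal.toReal_ofReal hK, ENNReal.toReal_ofReal (by positivity)]
  ring

theorem mob2 (v : V6) (σ : Equiv.Perm (Fin 6)) : Vh (v ∘ σ) = Vh v := by
  unfold Vh
  congr 2
  funext z
  unfold Vi
  exact Equiv.prod_comp σ fun i => ‖br (z, 1) (v i)‖ ^ (-(2 / 3) : ℝ)

end Pool.Agent.P.MP_5d7cf0_gt.MobP

namespace Pool.Agent.P.MP_5d7cf0_gt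

theorem pMob0 : S_Mob0 := fun Θ α β γ δ hD hΘ => MobP.mob0 Θ α β γ δ hD hΘ

theorem pMob : S_Mob := ⟨MobP.mob1, MobP.mob2⟩

end Pool.Agent.P.MP_5d7cf0_gt
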