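import Pool.Agent.P.MP_5d7cf0_gt.St

/-! First order identities in the affine model. -/

open Set Filter Topology ComplexConjugate

noncomputable section

namespace Pool.Agent.P.MP_5d7cf0_gt

namespace ModAP

theorem hL_add_left (a b c : C4) : hL (a + b) c = hL a c + hL b c := by
  simp only [hL, Pi.add_apply]; ring

theorem hL_add_right (a b c : C4) : hL a (b + c) = hL a b + hL a c := by
  simp only [hL, Pi.add_apply, map_add]; ring

theorem hL_smul_left (t : ℂ) (a b : C4) : hL (t • a) b = t * hL a b := by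
  simp only [hL, Pi.smul_apply, smul_eq_mul]; ring

theorem hL_smul_right (t : ℂ) (a b : C4) : hL a (t • b) = conj t * hL a b := by
  simp only [hL, Pi.smul_apply, smul_eq_mul, map_mul]; ring

theorem hL_conj (a b : C4) : hL b a = conj (hL a b) := by
  simp only [hL, map_add, map_neg, map_mul, Complex.conj_conj]; ring

theorem hL_self_im (a : C4) : (hL a a).im = 0 := by
  have := congrArg Complex.im (hL_conj a a)
  rw [Complex.conj_im] at this
  linarith

/-- The form as a real bilinear map. -/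
def hB0 : C4 →ₗ[ℝ] C4 →ₗ[ℝ] ℂ :=
  LinearMap.mk₂ ℝ hL hL_add_left
    (fun t a b => by
      have := hL_smul_left (t : ℂ) a b
      rwa [Complex.coe_smul, ← Complex.real_smul] at this)
    hL_add_right
    (fun t a b => by
      have := hL_smul_right (t : ℂ) a b
      rwa [Complex.coe_smul, Complex.conj_ofReal, ← Complex.real_smul] at this)

/-- The form as a continuous real bilinear map. -/
def hB : C4 →L[ℝ] C4 →L[ℝ] ℂ :=
  LinearMap.toContinuousLinearMap
    ((LinearMap.toContinuousLinearMap : (C4 →ₗ[ℝ] ℂ) ≃ₗ[ℝ] (C4 →L[ℝ] ℂ)).toLinearMap ∘ₗ hB0)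

theorem hB_apply (a b : C4) : hB a b = hL a b := rfl

variable (Z0 : C4) (A : E →L[ℂ] C4)

theorem hasZ (z : E) : HasFDerivAt (fun z => Z0 + A z) (A.restrictScalars ℝ) z :=
  (A.restrictScalars ℝ).hasFDerivAt.const_add Z0

/-- The function `V`. -/
def VV (z : E) : ℝ := -(hL (Z0 + A z) (Z0 + A z)).re

theorem VV_contDiff : ContDiff ℝ 2 (VV Z0 A) := by
  have hZ : ContDiff ℝ 2 fun z => Z0 + A z := contDiff_const.add (A.restrictScalars ℝ).contDiff
  exact (Complex.reCLM.contDiff.comp ((hB.contDiff.comp hZ).clm_apply hZ)).neg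

theorem VV_has (z : E) : ∃ D : E →L[ℝ] ℝ, HasFDerivAt (VV Z0 A) D z ∧
    ∀ a, D a = -(2 * (hL (A a) (Z0 + A z)).re) := by
  refine ⟨_, (Complex.reCLM.hasFDerivAt.comp z
    (hB.hasFDerivAt_of_bilinear (hasZ Z0 A z) (hasZ Z0 A z))).neg, fun a => ?_⟩
  have := congrArg Complex.re (hL_conj (A a) (Z0 + A z))
  rw [Complex.conj_re] at this
  generalize Z0 + A z = Z at this ⊢
  simp [hB_apply, this]
  ring

theorem logV_has {z : E} (hz : 0 < VV Z0 A z) : ∃ D : E →L[ℝ] ℝ,
    HasFDerivAt (fun z => Real.log (VV Z0 A z)) D z ∧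
      ∀ a, D a = -(2 * (hL (A a) (Z0 + A z)).re) / VV Z0 A z := by
  obtain ⟨D, h1, h2⟩ := VV_has Z0 A z
  refine ⟨_, h1.log hz.ne', fun a => ?_⟩
  simp only [smul_apply, smul_eq_mul, h2]
  ring

theorem logV_two {x : E} (hx : 0 < VV Z0 A x) (a b : E) :
    fderiv ℝ (fderiv ℝ fun z => Real.log (VV Z0 A z)) x a b =
      -(2 * (hL (A a) (A b)).re) / VV Z0 A x -
        4 * (hL (A a) (Z0 + A x)).re * (hL (A b) (Z0 + A x)).re / VV Z0 A x ^ 2 := by
  have hc : ContDiffAt ℝ 2 (fun z => Real.log (VV Z0 A z)) x :=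
    (VV_contDiff Z0 A).contDiffAt.log hx.ne'
  have hd : DifferentiableAt ℝ (fderiv ℝ fun z => Real.log (VV Z0 A z)) x :=
    (hc.fderiv_right (m := 1) le_rfl).differentiableAt one_ne_zero
  have e1 : fderiv ℝ (fun z => fderiv ℝ (fun z => Real.log (VV Z0 A z)) z b) x a =
      fderiv ℝ (fderiv ℝ fun z => Real.log (VV Z0 A z)) x a b := by
    rw [fderiv_clm_apply hd (differentiableAt_const b)]; simp
  have e2 : (fun z => fderiv ℝ (fun z => Real.log (VV Z0 A z)) z b) =ᶠ[𝓝 x]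
      fun z => -(2 * (hL (A b) (Z0 + A z)).re) * (VV Z0 A z)⁻¹ := by
    filter_upwards [(VV_contDiff Z0 A).continuous.continuousAt.eventually (lt_mem_nhds hx)]
      with z hz
    obtain ⟨D, h1, h2⟩ := logV_has Z0 A hz
    rw [h1.fderiv, h2, div_eq_mul_inv]
  obtain ⟨D, h1, h2⟩ := VV_has Z0 A x
  have h3 : HasFDerivAt (fun z => -(2 * (hL (A b) (Z0 + A z)).re) * (VV Z0 A z)⁻¹) _ x :=
    ((Complex.reCLM.hasFDerivAt.comp x ((hB (A b)).hasFDerivAt.comp x (hasZ Z0 A x))).const_mul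
      2).neg.mul ((hasDerivAt_inv hx.ne').comp_hasFDerivAt x h1)
  have h4 := congrArg Complex.re (hL_conj (A a) (A b))
  rw [Complex.conj_re] at h4
  rw [← e1, e2.fderiv_eq, h3.fderiv]
  simp [hB_apply, h2, h4]
  field_simp
  ring

theorem logw_has {z : E} {ρ : C4} (hz : hL (Z0 + A z) ρ ≠ 0) : ∃ D : E →L[ℝ] ℝ,
    HasFDerivAt (fun z => Real.log (‖hL (Z0 + A z) ρ‖ ^ 2)) D z ∧
      ∀ a, D a = 2 * (hL (A a) ρ / hL (Z0 + A z) ρ).re := by
  have h1 : HasFDerivAt (fun z => hL (Z0 + A z) ρ) _ z :=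
    (hB.flip ρ).hasFDerivAt.comp z (hasZ Z0 A z)
  refine ⟨_, h1.norm_sq.log (pow_ne_zero 2 (norm_ne_zero_iff.2 hz)), fun a => ?_⟩
  simp only [smul_apply, smul_eq_mul, ContinuousLinearMap.comp_apply,
    ContinuousLinearMap.flip_apply, hB_apply, ContinuousLinearMap.coe_restrictScalars',
    innerSL_apply_apply, Complex.inner, Complex.div_re, Complex.sq_norm, nsmul_eq_mul,
    Complex.mul_re, Complex.conj_re, Complex.conj_im]
  push_cast
  ring

end ModAP

open ModAP in
theorem pModA : S_ModA := by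
  intro ι _ Z0 A ρ v q L μ x h P hP
  have hA : P.A = A := by
    rw [hP]; exact (A.hasFDerivAt.const_add Z0).fderiv
  have hZ : P.Z = Z0 + A x := by rw [hP]; rfl
  have hρ : P.ρ = ρ := by rw [hP]; rfl
  have hy : P.y = Real.exp (q x - v x) := by rw [hP]; rfl
  have hm0 : ∀ i, P.m0 i = μ i (L i x) := fun i => by rw [hP]; rfl
  have hm1 : ∀ i, P.m1 i = deriv (μ i) (L i x) := fun i => by rw [hP]; rfl
  have ok : P.Ok := hP ▸ h.ok
  have hV : 0 < VV Z0 A x := by
    have := ok.neg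
    rw [hZ] at this
    exact neg_pos.2 this
  have hv : v =ᶠ[𝓝 x] fun z => Real.log (VV Z0 A z) := h.hv
  have hyV : P.y = Real.exp (q x) / VV Z0 A x := by
    rw [hy, Real.exp_sub, hv.self_of_nhds, Real.exp_log hV]
  obtain ⟨Dv, dv, ev⟩ := logV_has Z0 A hV
  replace dv : HasFDerivAt v Dv x := dv.congr_of_eventuallyEq hv
  have dq : HasFDerivAt q (fderiv ℝ q x) x := (h.hq.differentiableAt one_ne_zero).hasFDerivAt
  have dl : ∀ i, DifferentiableAt ℝ (L i) x ∧ ∀ a, fderiv ℝ (L i) x a =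
      fderiv ℝ q x a + 2 * (hL (A a) (ρ i) / hL (Z0 + A x) (ρ i)).re - Dv a := fun i => by
    have hne := ok.ne i
    rw [hZ, hρ] at hne
    obtain ⟨D, h1, h2⟩ := logw_has Z0 A hne
    have h3 : HasFDerivAt (L i) _ x := ((dq.add h1).sub dv).congr_of_eventuallyEq (h.hl i)
    refine ⟨h3.differentiableAt, fun a => ?_⟩
    rw [h3.fderiv, ← h2]; rfl
  have dlev : ∀ a, Real.exp (q x) * fderiv ℝ q x a = ∑ i, P.m1 i * fderiv ℝ (L i) x a := by
    intro a
    have h1 : HasFDerivAt (fun z => 1 + ∑ i, μ i (L i z)) _ x :=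
      (HasFDerivAt.fun_sum fun i (_ : i ∈ Finset.univ) =>
        ((h.hμ i).differentiableAt one_ne_zero).hasDerivAt.comp_hasFDerivAt x
          (dl i).1.hasFDerivAt).const_add 1
    have h2 := congrArg (fun D : E →L[ℝ] ℝ => D a)
      (dq.exp.unique (h1.congr_of_eventuallyEq h.lev))
    simpa [hm1] using h2
  have hs : P.s = Real.exp (q x) - ∑ i, P.m1 i := by
    rw [h.lev.self_of_nhds, Pw.s, Finset.sum_sub_distrib]
    simp only [hm0]
    ring
  have hta : ∀ a, fderiv ℝ q x a - Dv a = 2 * (P.ta a).re := fun a => by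
    have h1 := dlev a
    simp only [(dl _).2 a, mul_sub, mul_add, Finset.sum_sub_distrib, Finset.sum_add_distrib,
      ← Finset.sum_mul] at h1
    have h2 : (P.ta a).re = (P.y * (hL (A a) (Z0 + A x)).re +
        ∑ i, P.m1 i * (hL (A a) (ρ i) / hL (Z0 + A x) (ρ i)).re) / P.s := by
      rw [Pw.ta, Complex.div_ofReal_re, hA, hZ, hρ, Complex.add_re, Complex.re_ofReal_mul,
        Complex.re_sum]
      simp only [Complex.re_ofReal_mul]
    have h3 : ∑ i, P.m1 i * (2 * (hL (A a) (ρ i) / hL (Z0 + A x) (ρ i)).re) =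
        2 * ∑ i, P.m1 i * (hL (A a) (ρ i) / hL (Z0 + A x) (ρ i)).re := by
      rw [Finset.mul_sum]; exact Finset.sum_congr rfl fun i _ => by ring
    have h4 : Real.exp (q x) * Dv a = -(2 * (P.y * (hL (A a) (Z0 + A x)).re)) := by
      rw [ev, hyV]; ring
    rw [h2, ← mul_div_assoc, eq_div_iff ok.spos.ne', hs]
    rw [h3] at h1
    linear_combination h1 - h4
  have heps : ∀ i a, P.eps i a = hL (A a) (ρ i) / hL (Z0 + A x) (ρ i) + P.ta a := fun i a => by
    have hne := ok.ne i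
    rw [hZ, hρ] at hne
    rw [Pw.eps, Pw.lift, hL_add_left, hL_smul_left, hA, hZ, hρ, add_div, mul_div_cancel_right₀ _ hne]
  have hl : ∀ i a, fderiv ℝ (L i) x a = 2 * (P.eps i a).re := fun i a => by
    rw [(dl i).2, heps, Complex.add_re, mul_add, ← hta]; ring
  have htaI : ∀ a, P.ta (Complex.I • a) = Complex.I * P.ta a := fun a => by
    simp only [Pw.ta, map_smul, hL_smul_left, mul_add, Finset.mul_sum, ← mul_div_assoc]
    congr 2
    · ring
    · exact Finset.sum_congr rfl fun i _ => by ring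
  have hepsI : ∀ i a, P.eps i (Complex.I • a) = Complex.I * P.eps i a := fun i a => by
    rw [heps, heps, htaI, map_smul, hL_smul_left]; ring
  refine ⟨fun a b => ?_, hl, fun a => ?_, fun a => by simpa only [hl] using dlev a⟩
  swap
  · rw [(dq.fun_sub dv).fderiv, ← hta]; rfl
  have hq : ∀ a, fderiv ℝ q x a = 2 * (P.ta a).re - 2 * (hL (A a) (Z0 + A x)).re / VV Z0 A x :=
    fun a => by rw [← hta, ev]; ring
  have h2 : fderiv ℝ (fderiv ℝ v) x = fderiv ℝ (fderiv ℝ fun z => Real.log (VV Z0 A z)) x :=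
    hv.fderiv.fderiv_eq
  have hZZ : hL (Z0 + A x) (Z0 + A x) = -(VV Z0 A x : ℂ) :=
    Complex.ext (by simp [VV]) (by simp [hL_self_im])
  have e1 : ∑ i, deriv (μ i) (L i x) * (2 * (P.eps i a).re * (2 * (P.eps i b).re)) +
      ∑ i, deriv (μ i) (L i x) * (2 * (Complex.I * P.eps i a).re *
        (2 * (Complex.I * P.eps i b).re)) =
      4 * (∑ i, (P.m1 i : ℂ) * (P.eps i a * conj (P.eps i b))).re := by
    rw [Complex.re_sum, Finset.mul_sum, ← Finset.sum_add_distrib]
    refine Finset.sum_congr rfl fun i _ => ?_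
    rw [hm1]
    simp only [Complex.mul_re, Complex.I_re, Complex.I_im, Complex.conj_re,
      Complex.conj_im, Complex.ofReal_re, Complex.ofReal_im]
    ring
  rw [GG, herm_apply, Pw.H, Pw.form, Complex.add_re, Complex.re_ofReal_mul]
  simp only [add_apply, smul_apply,
    sub_apply, neg_apply, sum_apply,
    smul_eq_mul, sqd_apply, h2, logV_two Z0 A hV, hl, hq, htaI, hepsI]
  rw [Pw.lift, Pw.lift, hA, hZ, hyV]
  have hV' := hV.ne'
  generalize ∑ i, deriv (μ i) (L i x) * (2 * (P.eps i a).re * (2 * (P.eps i b).re)) = S1 at e1 ⊢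
  generalize ∑ i, deriv (μ i) (L i x) * (2 * (Complex.I * P.eps i a).re *
    (2 * (Complex.I * P.eps i b).re)) = S2 at e1 ⊢
  generalize (∑ i, (P.m1 i : ℂ) * (P.eps i a * conj (P.eps i b))).re = S3 at e1 ⊢
  generalize Z0 + A x = Z at hZZ ⊢
  generalize VV Z0 A x = V at hZZ hV' ⊢
  simp only [hL_add_left, hL_add_right, hL_smul_left, hL_smul_right, map_smul, hZZ,
    hL_conj (A b) Z]
  simp only [Complex.add_re, Complex.add_im, Complex.mul_re, Complex.mul_im, Complex.I_re,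
    Complex.I_im, Complex.conj_re, Complex.conj_im, Complex.neg_re, Complex.neg_im,
    Complex.ofReal_re, Complex.ofReal_im]
  field_simp
  linear_combination V ^ 2 * e1

end Pool.Agent.P.MP_5d7cf0_gt
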