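import Pool.Agent.P.MP_5d7cf0_gt.ModB2

/-!
Package ModB: the curvature in the affine model.
-/

open Set Filter Topology ComplexConjugate
open scoped ContDiff

noncomputable section

namespace Pool.Agent.P.MP_5d7cf0_gt.ModBP

variable {ι : Type} [Fintype ι] {x : E}

/-- the first order derivatives of a field of pointwise data -/
structure Fld (P : E → Pw ι) (x : E) : Prop where
  ok : (P x).Ok
  hA : ∀ z, (P z).A = (P x).A
  hρ : ∀ z, (P z).ρ = (P x).ρ
  hZ : HD (fun z => (P z).Z) x fun w => (P x).A w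
  hy : HD (fun z => ((P z).y : ℂ)) x fun w => (P x).y * ((P x).ta w + conj ((P x).ta w))
  h0 : ∀ i, HD (fun z => ((P z).m0 i : ℂ)) x
    fun w => (P x).m1 i * ((P x).eps i w + conj ((P x).eps i w))
  h1 : ∀ i, HD (fun z => ((P z).m1 i : ℂ)) x
    fun w => (P x).m2 i * ((P x).eps i w + conj ((P x).eps i w))
  h2 : ∀ i, HD (fun z => ((P z).m2 i : ℂ)) x
    fun w => (P x).m3 i * ((P x).eps i w + conj ((P x).eps i w))

theorem e0_eq {P : Pw ι} (h : P.Ok) (i : ι) (a : E) :
    hL (P.A a) (P.ρ i) = (P.eps i a - P.ta a) * hL P.Z (P.ρ i) := by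
  have := h.ne i
  rw [eps_eq h]
  field_simp
  ring

theorem A_eq (P : Pw ι) (a : E) : P.A a = P.lift a + (-P.ta a) • P.Z := by
  rw [Pw.lift, neg_smul]; abel

theorem dta_alg {P : Pw ι} (h : P.Ok) (a w : E) :
    (P.y : ℂ) * (P.ta w + conj (P.ta w)) * hL (P.A a) P.Z + P.y * hL (P.A a) (P.A w) +
      ∑ i, ((P.m2 i : ℂ) * (P.eps i w + conj (P.eps i w)) * (P.eps i a - P.ta a) +
        P.m1 i * -((P.eps i a - P.ta a) * (P.eps i w - P.ta w))) =
      P.s * dt P w a + P.ta a * -∑ i, kp P i * (P.eps i w + conj (P.eps i w)) := by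
  have hs := s_ne h
  have h1 : ∑ i, ((P.m2 i : ℂ) * (P.eps i w + conj (P.eps i w)) * (P.eps i a - P.ta a) +
        P.m1 i * -((P.eps i a - P.ta a) * (P.eps i w - P.ta w))) =
      ∑ i, (P.m2 i : ℂ) * (P.eps i a * conj (P.eps i w)) + K P a w -
        P.ta a * ∑ i, kp P i * (P.eps i w + conj (P.eps i w)) +
        P.ta w * ∑ i, (P.m1 i : ℂ) * P.eps i a - P.ta a * P.ta w * ∑ i, (P.m1 i : ℂ) -
        P.ta a * ∑ i, (P.m1 i : ℂ) * conj (P.eps i w) := by
    simp only [K, kp, Finset.mul_sum, ← Finset.sum_add_distrib, ← Finset.sum_sub_distrib]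
    exact Finset.sum_congr rfl fun i _ => by ring
  have h2 : (P.s : ℂ) * dt P w a = P.s * (P.ta a * P.ta w) + K P a w + P.N a w := by
    simp only [dt, pp]
    field_simp
    ring
  rw [h1, h2, A_eq P a, A_eq P w, Pw.N, Pw.form]
  simp only [hL_add_left, hL_add_right, hL_smul_left, hL_smul_right, map_neg]
  linear_combination P.ta w * GZ h a - P.ta a * GZ' h w - P.ta a * P.ta w * ZZ h

theorem dH_alg {P : Pw ι} (h : P.Ok) (a b w : E) :
    (P.y : ℂ) * (P.ta w + conj (P.ta w)) * hL (P.lift a) (P.lift b) +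
      P.y * (hL (pp P w a • P.Z + P.ta a • P.lift w) (P.lift b) +
        hL (P.lift a) (pp P w b • P.Z + P.ta b • P.lift w)) +
      ∑ i, ((P.m2 i : ℂ) * (P.eps i w + conj (P.eps i w)) * (P.eps i a * conj (P.eps i b)) +
        P.m1 i * (de P i w a * conj (P.eps i b) + P.eps i a * conj (de P i w b))) =
      dH P w a b := by
  have h1 : ∑ i, ((P.m2 i : ℂ) * (P.eps i w + conj (P.eps i w)) * (P.eps i a * conj (P.eps i b)) +
        P.m1 i * (de P i w a * conj (P.eps i b) + P.eps i a * conj (de P i w b))) =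
      M P w a b + conj (M P w b a) +
        (P.ta w + conj (P.ta w)) * ∑ i, (P.m1 i : ℂ) * (P.eps i a * conj (P.eps i b)) +
        P.ta a * ∑ i, (P.m1 i : ℂ) * (P.eps i w * conj (P.eps i b)) +
        conj (P.ta b) * ∑ i, (P.m1 i : ℂ) * (P.eps i a * conj (P.eps i w)) +
        pp P w a * ∑ i, (P.m1 i : ℂ) * conj (P.eps i b) +
        conj (pp P w b) * ∑ i, (P.m1 i : ℂ) * P.eps i a := by
    simp only [M, de, map_sum, map_mul, map_add, map_neg, kp_conj, Complex.conj_conj,
      Finset.mul_sum, ← Finset.sum_add_distrib]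
    exact Finset.sum_congr rfl fun i _ => by simp only [kp]; ring
  rw [h1]
  simp only [dH, T, map_add, map_mul, H_conj]
  simp only [Pw.H, Pw.form, hL_add_left, hL_add_right, hL_smul_left, hL_smul_right]
  linear_combination pp P w a * GZ' h b + conj (pp P w b) * GZ h a

namespace Fld

variable {P : E → Pw ι}

theorem dZρ (h : Fld P x) (i : ι) : HD (fun z => hL (P z).Z ((P x).ρ i)) x
    fun w => ((P x).eps i w - (P x).ta w) * hL (P x).Z ((P x).ρ i) := by
  refine (h.hZ.hL (HD.const _)).congr fun w => ?_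
  rw [hL_zero_right, add_zero, e0_eq h.ok]

theorem ds (h : Fld P x) : HD (fun z => ((P z).s : ℂ)) x
    fun w => -∑ i, kp (P x) i * ((P x).eps i w + conj ((P x).eps i w)) := by
  have h1 := (HD.const (1 : ℂ)).add (HD.sum fun i => (h.h0 i).sub (h.h1 i))
  refine (h1.congr_ev (Eventually.of_forall fun z => by simp [Pw.s])).congr fun w => ?_
  rw [zero_add, ← Finset.sum_neg_distrib]
  exact Finset.sum_congr rfl fun i _ => by simp only [kp]; ring

theorem dta (h : Fld P x) (a : E) : HD (fun z => (P z).ta a) x fun w => dt (P x) w a := by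
  have hs := s_ne h.ok
  have h1 := ((h.hy.mul ((HD.const ((P x).A a)).hL h.hZ)).add (HD.sum fun i => (h.h1 i).mul
    ((HD.const (hL ((P x).A a) ((P x).ρ i))).div (h.dZρ i) (h.ok.ne i)))).div h.ds hs
  refine (h1.congr_ev (Eventually.of_forall fun z => by
    simp only [Pw.ta, h.hA z, h.hρ z])).congr fun w => ?_
  have h2 : ∀ i, (0 * hL (P x).Z ((P x).ρ i) - hL ((P x).A a) ((P x).ρ i) *
      (((P x).eps i w - (P x).ta w) * hL (P x).Z ((P x).ρ i))) / hL (P x).Z ((P x).ρ i) ^ 2 =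
      -(((P x).eps i a - (P x).ta a) * ((P x).eps i w - (P x).ta w)) := fun i => by
    have := h.ok.ne i
    rw [e0_eq h.ok]
    field_simp
    ring
  have h3 : ∀ i, hL ((P x).A a) ((P x).ρ i) / hL (P x).Z ((P x).ρ i) =
      (P x).eps i a - (P x).ta a := fun i => by rw [eps_eq h.ok]; ring
  have h4 : ((P x).y : ℂ) * hL ((P x).A a) (P x).Z +
      ∑ i, ((P x).m1 i : ℂ) * ((P x).eps i a - (P x).ta a) = (P x).s * (P x).ta a := by
    have := AZ h.ok a
    simp only [h3] at this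
    rw [this]; ring
  simp only [h2, h3, hL_zero_left, zero_add]
  rw [h4, dta_alg h.ok]
  field_simp
  ring

theorem dlift (h : Fld P x) (a : E) : HD (fun z => (P z).lift a) x
    fun w => pp (P x) w a • (P x).Z + (P x).ta a • (P x).lift w := by
  have h1 := (HD.const ((P x).A a)).add ((h.dta a).smul h.hZ)
  refine (h1.congr_ev (Eventually.of_forall fun z => by simp only [Pw.lift, h.hA z])).congr
    fun w => ?_
  simp only [dt, Pw.lift, add_smul, smul_add, mul_smul]
  abel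

theorem deps (h : Fld P x) (i : ι) (a : E) : HD (fun z => (P z).eps i a) x
    fun w => de (P x) i w a := by
  have hn := h.ok.ne i
  have h1 := ((h.dlift a).hL (HD.const ((P x).ρ i))).div (h.dZρ i) hn
  refine (h1.congr_ev (Eventually.of_forall fun z => by simp only [Pw.eps, h.hρ z])).congr
    fun w => ?_
  have h2 : ∀ c, hL ((P x).lift c) ((P x).ρ i) = (P x).eps i c * hL (P x).Z ((P x).ρ i) :=
    fun c => by rw [Pw.eps, div_mul_cancel₀ _ hn]
  simp only [hL_add_left, hL_smul_left, hL_zero_right, h2, de]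
  field_simp
  ring

theorem dHH (h : Fld P x) (a b : E) : HD (fun z => (P z).H a b) x fun w => dH (P x) w a b :=
  ((h.hy.mul ((h.dlift a).hL (h.dlift b))).add (HD.sum fun i => (h.h1 i).mul
    ((h.deps i a).mul (h.deps i b).cj))).congr fun w => dH_alg h.ok a b w

theorem dMM (h : Fld P x) (a c b : E) : HD (fun z => M (P z) a c b) x
    fun w => dM (P x) w a c b := by
  refine (HD.sum fun i => ((h.h2 i).sub (h.h1 i)).mul
    (((h.deps i a).mul (h.deps i c)).mul (h.deps i b).cj)).congr fun w => ?_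
  exact Finset.sum_congr rfl fun i _ => by simp only [kp]; ring

theorem dTT (h : Fld P x) (a c b : E) : HD (fun z => T (P z) a c b) x
    fun w => dT (P x) w a c b :=
  (((h.dta a).mul (h.dHH c b)).add ((h.dta c).mul (h.dHH a b))).add (h.dMM a c b)

end Fld

variable {Z0 : C4} {A : E →L[ℂ] C4} {ρ : ι → C4} {v q : E → ℝ}
  {L : ι → E → ℝ} {μ : ι → ℝ → ℝ}

theorem two_re (t : ℂ) : ((2 * t.re : ℝ) : ℂ) = t + conj t := (Complex.add_conj t).symm

theorem fld (hA : S_ModA) (h : LocD 3 (fun z => Z0 + A z) ρ v q L μ x) :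
    Fld (pw (fun z => Z0 + A z) ρ v q L μ) x := by
  obtain ⟨-, a2, a3, -⟩ := hA ι Z0 A ρ v q L μ x (LocD_mono h (by norm_num)) _ rfl
  have hm : ∀ (i : ι) (φ : ℝ → ℝ), DifferentiableAt ℝ φ (L i x) →
      HD (fun z => ((φ (L i z) : ℝ) : ℂ)) x fun w => ((deriv φ (L i x) : ℝ) : ℂ) *
        ((pw (fun z => Z0 + A z) ρ v q L μ x).eps i w +
          conj ((pw (fun z => Z0 + A z) ρ v q L μ x).eps i w)) := by
    intro i φ hφ
    refine ((HD.of_diff ((cd_L h i).differentiableAt (by norm_num))).comp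
      hφ.hasDerivAt).ofReal.congr fun w => ?_
    rw [a2, Complex.ofReal_mul, two_re]
  have d1 : ∀ i, ContDiffAt ℝ 2 (deriv (μ i)) (L i x) := fun i =>
    (h.hμ i).derivWithin (by norm_num)
  have d2 : ∀ i, ContDiffAt ℝ 1 (deriv (deriv (μ i))) (L i x) := fun i =>
    (d1 i).derivWithin (by norm_num)
  refine ⟨h.ok, fun z => by rw [pw_A, pw_A], fun z => rfl, ?_, ?_,
    fun i => hm i _ ((h.hμ i).differentiableAt (by norm_num)),
    fun i => hm i _ ((d1 i).differentiableAt (by norm_num)),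
    fun i => hm i _ ((d2 i).differentiableAt (by norm_num))⟩
  · rw [pw_A]
    exact ⟨A.restrictScalars ℝ, (A.restrictScalars ℝ).hasFDerivAt.const_add Z0, fun _ => rfl⟩
  · refine ((HD.of_diff (f := fun z => q z - v z)
      ((h.hq.sub (cd_v h)).differentiableAt (by norm_num))).comp
      (Real.hasDerivAt_exp _)).ofReal.congr fun w => ?_
    rw [a3, Complex.ofReal_mul, two_re]
    rfl

theorem fderiv_met {g : Met} (hg : DifferentiableAt ℝ g x) (u a b : E) :
    fderiv ℝ g x u a b = fderiv ℝ (fun z => g z a b) x u := by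
  have h1 := (hg.hasFDerivAt.clm_apply (hasFDerivAt_const a x)).clm_apply (hasFDerivAt_const b x)
  rw [h1.fderiv]
  simp

theorem kos_eq {g : Met} {P : E → Pw ι} (hg : DifferentiableAt ℝ g x) (h : Fld P x)
    (he : ∀ᶠ z in 𝓝 x, ∀ a b, g z a b = ((P z).H a b).re) (a b c : E) :
    kos g x a b c = (T (P x) a b c).re := by
  have h1 : ∀ u a b, fderiv ℝ g x u a b = (dH (P x) u a b).re := fun u a b => by
    rw [fderiv_met hg]
    exact ((h.dHH a b).re.congr_ev (he.mono fun z hz => hz a b)).fderiv_eq u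
  simp only [kos, smul_apply, sub_apply, add_apply, ContinuousLinearMap.flip_apply, h1, dH,
    Complex.add_re, Complex.conj_re, smul_eq_mul, T_symm (P x) b a, T_symm (P x) c a,
    T_symm (P x) c b]
  ring

end Pool.Agent.P.MP_5d7cf0_gt.ModBP

namespace Pool.Agent.P.MP_5d7cf0_gt

open ModBP

theorem pModB (hA : S_ModA) (hR : S_Rm) (hG : S_GGsm) : S_ModB := by
  intro ι _ Z0 A ρ v q L μ x h P hP hpos a b
  subst hP
  have h3 : LocD 3 (fun z => Z0 + A z) ρ v q L μ x :=
    LocD_mono h (WithTop.coe_le_coe.2 le_top : ((3 : ℕ∞) : WithTop ℕ∞) ≤ ∞)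
  obtain ⟨g1, g2⟩ := hG ι v q L μ x (cd_v h) h.hq fun i => Or.inl ⟨cd_L h i, h.hμ i⟩
  have g3 : ContDiffAt ℝ 2 (GG v q L μ) x :=
    g1.of_le (WithTop.coe_le_coe.2 le_top : ((2 : ℕ∞) : WithTop ℕ∞) ≤ ∞)
  have e1 := LocD_ev h3
  have e2 : ∀ᶠ z in 𝓝 x, ∀ a b, GG v q L μ z a b =
      ((pw (fun z => Z0 + A z) ρ v q L μ z).H a b).re :=
    e1.mono fun z hz => (hA ι Z0 A ρ v q L μ z (LocD_mono hz (by norm_num)) _ rfl).1
  have e3 : ∀ᶠ z in 𝓝 x, ∀ a b c, kos (GG v q L μ) z a b c =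
      (T (pw (fun z => Z0 + A z) ρ v q L μ z) a b c).re := by
    filter_upwards [e1, e2.eventually_nhds, g3.eventually (by simp)] with z z1 z2 z3
    exact kos_eq (z3.differentiableAt (by norm_num)) (fld hA z1) z2
  have hF := fld hA h3
  have e4 := e2.self_of_nhds
  have e5 := e3.self_of_nhds
  obtain ⟨r1, r2⟩ := hR (GG v q L μ) x g3 g2 fun a ha => by rw [e4]; exact hpos a ha
  have e6 : ∀ u a b c, fderiv ℝ (fun z => kos (GG v q L μ) z a b c) x u =
      (dT (pw (fun z => Z0 + A z) ρ v q L μ x) u a b c).re := fun u a b c =>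
    ((hF.dTT a b c).re.congr_ev (e3.mono fun z hz => hz a b c)).fderiv_eq u
  have e7 : ∀ c d G, (∀ w, (pw (fun z => Z0 + A z) ρ v q L μ x).H G w =
      T (pw (fun z => Z0 + A z) ρ v q L μ x) c d w) → chr (GG v q L μ) x c d = G := by
    intro c d G hG
    by_contra hne
    have h1 := hpos _ (sub_ne_zero.2 hne)
    rw [← e4, map_sub (GG v q L μ x), sub_apply, r1, e5, e4, hG, sub_self] at h1
    exact lt_irrefl _ h1
  obtain ⟨G1, k1, k2⟩ := exG h.ok a a
  obtain ⟨G2, k3, k4⟩ := exG h.ok b a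
  rw [r2, r1, r1, e6, e6, e5, e5, e7 a a G1 k1, e7 b a G2 k3]
  exact ModBP.curv h.ok a b k1 k2 k3 k4

end Pool.Agent.P.MP_5d7cf0_gt
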