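import Pool.Agent.P.MP_5d7cf0_gt.St

/-!
Package ModB, part one: pointwise algebra.
-/

open Set Filter Topology ComplexConjugate

noncomputable section

namespace Pool.Agent.P.MP_5d7cf0_gt.ModBP

theorem hL_add_left (a b c : C4) : hL (a + b) c = hL a c + hL b c := by
  simp only [hL, Pi.add_apply]; ring

theorem hL_add_right (a b c : C4) : hL a (b + c) = hL a b + hL a c := by
  simp only [hL, Pi.add_apply, map_add]; ring

theorem hL_smul_left (t : ℂ) (a c : C4) : hL (t • a) c = t * hL a c := by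
  simp only [hL, Pi.smul_apply, smul_eq_mul]; ring

theorem hL_smul_right (t : ℂ) (a c : C4) : hL a (t • c) = conj t * hL a c := by
  simp only [hL, Pi.smul_apply, smul_eq_mul, map_mul]; ring

theorem hL_conj (a b : C4) : conj (hL a b) = hL b a := by
  simp only [hL, map_add, map_neg, map_mul, Complex.conj_conj]; ring

theorem hL_zero_left (c : C4) : hL 0 c = 0 := by simp [hL]

theorem hL_zero_right (c : C4) : hL c 0 = 0 := by simp [hL]

theorem hL_self (a : C4) : hL a a = ((hL a a).re : ℂ) :=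
  (Complex.conj_eq_iff_re.1 (hL_conj a a)).symm

variable {ι : Type} [Fintype ι] (P : Pw ι)

def kp (i : ι) : ℂ := (P.m2 i : ℂ) - P.m1 i

def K (a c : E) : ℂ := ∑ i, kp P i * (P.eps i a * P.eps i c)

def J (a b : E) : ℂ := ∑ i, kp P i * (P.eps i a * conj (P.eps i b))

def M (a c b : E) : ℂ := ∑ i, kp P i * (P.eps i a * P.eps i c * conj (P.eps i b))

def T (a c b : E) : ℂ := P.ta a * P.H c b + P.ta c * P.H a b + M P a c b

def pp (w a : E) : ℂ := (K P a w + P.N a w) / P.s

def dt (w a : E) : ℂ := P.ta a * P.ta w + pp P w a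

def de (i : ι) (w a : E) : ℂ :=
  -(P.eps i a * P.eps i w) + P.ta w * P.eps i a + P.ta a * P.eps i w + pp P w a

def dH (w a b : E) : ℂ := T P w a b + conj (T P w b a)

/-- the derivative of `M` -/
def dM (u a c b : E) : ℂ :=
  ∑ i, ((((P.m3 i : ℂ) - P.m2 i) * (P.eps i u + conj (P.eps i u))) *
      (P.eps i a * P.eps i c * conj (P.eps i b)) +
    kp P i * ((de P i u a * P.eps i c + P.eps i a * de P i u c) * conj (P.eps i b) +
      P.eps i a * P.eps i c * conj (de P i u b)))

def dT (u a c b : E) : ℂ :=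
  (dt P u a * P.H c b + P.ta a * dH P u c b) + (dt P u c * P.H a b + P.ta c * dH P u a b) +
    dM P u a c b

omit [Fintype ι] in
theorem kp_conj (i : ι) : conj (kp P i) = kp P i := by simp [kp]

theorem form_conj (c : ι → ℝ) (a b : E) : conj (P.form c a b) = P.form c b a := by
  simp only [Pw.form, map_add, map_mul, map_sum, Complex.conj_ofReal, hL_conj, Complex.conj_conj]
  congr 1
  exact Finset.sum_congr rfl fun i _ => by ring

theorem H_conj (a b : E) : conj (P.H a b) = P.H b a := form_conj P _ a b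

theorem N_conj (a b : E) : conj (P.N a b) = P.N b a := form_conj P _ a b

theorem N_eq (a b : E) : P.N a b = P.H a b + J P a b := by
  simp only [Pw.N, Pw.H, Pw.form, J, kp, add_assoc, ← Finset.sum_add_distrib]
  congr 1
  exact Finset.sum_congr rfl fun i _ => by ring

theorem M_symm (a c b : E) : M P a c b = M P c a b :=
  Finset.sum_congr rfl fun i _ => by ring

theorem K_symm (a c : E) : K P a c = K P c a :=
  Finset.sum_congr rfl fun i _ => by ring

theorem T_symm (a c b : E) : T P a c b = T P c a b := by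
  simp only [T, M_symm P a c b]; ring

theorem ta_add (a b : E) : P.ta (a + b) = P.ta a + P.ta b := by
  simp only [Pw.ta, map_add, hL_add_left, add_div, mul_add, Finset.sum_add_distrib]; ring

theorem ta_smul (t : ℂ) (a : E) : P.ta (t • a) = t * P.ta a := by
  simp only [Pw.ta, map_smul, hL_smul_left]
  rw [← mul_div_assoc, mul_add, Finset.mul_sum]
  congr 2
  · ring
  · exact Finset.sum_congr rfl fun i _ => by ring

theorem lift_add (a b : E) : P.lift (a + b) = P.lift a + P.lift b := by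
  simp only [Pw.lift, map_add, ta_add, add_smul]; abel

theorem lift_smul (t : ℂ) (a : E) : P.lift (t • a) = t • P.lift a := by
  simp only [Pw.lift, map_smul, ta_smul, smul_add, mul_smul]

theorem eps_add (i : ι) (a b : E) : P.eps i (a + b) = P.eps i a + P.eps i b := by
  simp only [Pw.eps, lift_add, hL_add_left, add_div]

theorem eps_smul (i : ι) (t : ℂ) (a : E) : P.eps i (t • a) = t * P.eps i a := by
  simp only [Pw.eps, lift_smul, hL_smul_left, mul_div_assoc]

theorem H_add (a b c : E) : P.H (a + b) c = P.H a c + P.H b c := by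
  simp only [Pw.H, Pw.form, lift_add, eps_add, hL_add_left, add_mul, mul_add,
    Finset.sum_add_distrib]
  ring

theorem H_smul (t : ℂ) (a c : E) : P.H (t • a) c = t * P.H a c := by
  simp only [Pw.H, Pw.form, lift_smul, eps_smul, hL_smul_left]
  rw [mul_add, Finset.mul_sum]
  congr 1
  · ring
  · exact Finset.sum_congr rfl fun i _ => by ring

/-- `eps` as a linear map -/
def epsL (i : ι) : E →ₗ[ℂ] ℂ where
  toFun := P.eps i
  map_add' := eps_add P i
  map_smul' := eps_smul P i

/-- `H` as a linear map in the first variable -/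
def HL (c : E) : E →ₗ[ℂ] ℂ where
  toFun a := P.H a c
  map_add' a b := H_add P a b c
  map_smul' t a := H_smul P t a c

variable {P}

theorem s_ne (h : P.Ok) : (P.s : ℂ) ≠ 0 := by exact_mod_cast h.spos.ne'

theorem eps_eq (h : P.Ok) (i : ι) (a : E) :
    P.eps i a = hL (P.A a) (P.ρ i) / hL P.Z (P.ρ i) + P.ta a := by
  have := h.ne i
  simp only [Pw.eps, Pw.lift, hL_add_left, hL_smul_left]
  field_simp

theorem ZZ (h : P.Ok) : (P.y : ℂ) * hL P.Z P.Z = -P.s - ∑ i, (P.m1 i : ℂ) := by
  have h1 := h.level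
  have h2 : P.y * (hL P.Z P.Z).re = -P.s - ∑ i, P.m1 i := by
    simp only [Pw.s, Finset.sum_sub_distrib]; linarith
  rw [hL_self]
  exact_mod_cast h2

theorem AZ (h : P.Ok) (a : E) : (P.y : ℂ) * hL (P.A a) P.Z =
    P.s * P.ta a - ∑ i, (P.m1 i : ℂ) * (hL (P.A a) (P.ρ i) / hL P.Z (P.ρ i)) := by
  have := s_ne h
  simp only [Pw.ta]
  field_simp
  ring

theorem GZ (h : P.Ok) (a : E) :
    (P.y : ℂ) * hL (P.lift a) P.Z = -∑ i, (P.m1 i : ℂ) * P.eps i a := by
  simp only [eps_eq h, mul_add, Finset.sum_add_distrib, ← Finset.sum_mul]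
  rw [Pw.lift, hL_add_left, hL_smul_left]
  linear_combination AZ h a + P.ta a * ZZ h

theorem GZ' (h : P.Ok) (a : E) :
    (P.y : ℂ) * hL P.Z (P.lift a) = -∑ i, (P.m1 i : ℂ) * conj (P.eps i a) := by
  have := congrArg conj (GZ h a)
  simpa only [map_mul, map_neg, map_sum, Complex.conj_ofReal, hL_conj] using this

theorem surj (h : P.Ok) (σ : C4) : ∃ (μ : ℂ) (a : E), μ • P.Z + P.A a = σ := by
  let f : ℂ × E →ₗ[ℂ] C4 := (LinearMap.toSpanSingleton ℂ C4 P.Z).coprod (P.A : E →ₗ[ℂ] C4)
  have hf : ∀ p : ℂ × E, f p = p.1 • P.Z + P.A p.2 := fun p => by simp [f]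
  have hi : Function.Injective f := by
    rw [← LinearMap.ker_eq_bot, LinearMap.ker_eq_bot']
    intro p hp
    obtain ⟨h1, h2⟩ := h.inj p.1 p.2 (by rw [← hf]; exact hp)
    exact Prod.ext h1 h2
  have hs : Function.Surjective f :=
    (LinearMap.injective_iff_surjective_of_finrank_eq_finrank (by simp)).1 hi
  obtain ⟨p, hp⟩ := hs σ
  exact ⟨p.1, p.2, by rw [← hf]; exact hp⟩

open Classical in
theorem exR (h : P.Ok) (j : ι) : ∃ R : E, (∀ b, P.H R b = conj (P.eps j b)) ∧
    ∀ i, P.eps i R = (if i = j then (P.eta j : ℂ) / P.D j else 0) + 1 / P.s := by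
  have hs := s_ne h
  have hD : (P.D j : ℂ) ≠ 0 := by exact_mod_cast (h.Dpos j).ne'
  have hn := h.ne j
  have hn' : conj (hL P.Z (P.ρ j)) ≠ 0 := by simpa using hn
  have hDe : (P.D j : ℂ) =
      P.y * (hL P.Z (P.ρ j) * conj (hL P.Z (P.ρ j))) + P.eta j * P.m1 j := by
    rw [Complex.mul_conj, Complex.normSq_eq_norm_sq]
    simp [Pw.D, Pw.x]
  have he : hL (P.ρ j) (P.ρ j) = P.eta j := hL_self _
  set c : ℂ := hL P.Z (P.ρ j) / P.D j with hc
  have hρ : ∀ i, hL (c • P.ρ j) (P.ρ i) / hL P.Z (P.ρ i) =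
      if i = j then (P.eta j : ℂ) / P.D j else 0 := by
    intro i
    rw [hL_smul_left]
    split_ifs with hij
    · subst hij
      rw [he, hc]
      field_simp
    · rw [h.orth j i (Ne.symm hij)]; simp
  have hG : ∀ β : C4, (P.y : ℂ) * hL (c • P.ρ j) β + ∑ i, (P.m1 i : ℂ) *
      ((if i = j then (P.eta j : ℂ) / P.D j else 0) * conj (hL β (P.ρ i) / hL P.Z (P.ρ i))) =
      conj (hL β (P.ρ j) / hL P.Z (P.ρ j)) := by
    intro β
    rw [Finset.sum_eq_single j (fun i _ hi => by simp [hi]) (by simp), if_pos rfl, hL_smul_left,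
      map_div₀, hL_conj β, hc]
    field_simp
    rw [hDe]; ring
  obtain ⟨μ, R, hR⟩ := surj h (c • P.ρ j)
  have hl : P.lift R = c • P.ρ j + (P.ta R - μ) • P.Z := by
    rw [← hR, Pw.lift, sub_smul]; abel
  have hε : ∀ i, P.eps i R = (if i = j then (P.eta j : ℂ) / P.D j else 0) + (P.ta R - μ) := by
    intro i
    have := h.ne i
    rw [Pw.eps, hl, hL_add_left, add_div, hρ, hL_smul_left, mul_div_assoc, div_self this, mul_one]
  have ht : P.ta R - μ = 1 / P.s := by
    have h1 := GZ h R
    have h2 := hG P.Z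
    have h3 : ∀ i, conj (hL P.Z (P.ρ i) / hL P.Z (P.ρ i)) = 1 := fun i => by
      rw [div_self (h.ne i), map_one]
    simp only [h3, mul_one] at h2
    simp only [hε, mul_add, Finset.sum_add_distrib, ← Finset.sum_mul] at h1
    rw [hl, hL_add_left, hL_smul_left (P.ta R - μ)] at h1
    have h4 := ZZ h
    field_simp
    linear_combination h2 - h1 + (P.ta R - μ) * h4
  rw [ht] at hl hε
  refine ⟨R, fun b => ?_, hε⟩
  have h1 := hG (P.lift b)
  have h2 := GZ' h b
  simp only [Pw.H, Pw.form, hε, add_mul, mul_add, Finset.sum_add_distrib]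
  rw [hl, hL_add_left, hL_smul_left (1 / (P.s : ℂ))]
  have h3 : ∑ i, (P.m1 i : ℂ) * (1 / (P.s : ℂ) * conj (P.eps i b)) =
      1 / (P.s : ℂ) * ∑ i, (P.m1 i : ℂ) * conj (P.eps i b) := by
    rw [Finset.mul_sum]; exact Finset.sum_congr rfl fun i _ => by ring
  rw [h3]
  simp only [Pw.eps] at h1 h2 ⊢
  linear_combination h1 + 1 / (P.s : ℂ) * h2

/-- the Christoffel vector -/
theorem exG (h : P.Ok) (c d : E) : ∃ G : E, (∀ w, P.H G w = T P c d w) ∧
    ∀ i, P.eps i G = P.ta c * P.eps i d + P.ta d * P.eps i c +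
      kp P i * (P.eps i c * P.eps i d) * ((P.eta i : ℂ) / P.D i) + K P c d / P.s := by
  classical
  choose R hR1 hR2 using exR h
  refine ⟨P.ta c • d + P.ta d • c + ∑ j, (kp P j * (P.eps j c * P.eps j d)) • R j,
    fun w => ?_, fun i => ?_⟩
  · change HL P w _ = _
    simp only [map_add, map_smul, map_sum, smul_eq_mul]
    simp only [HL, LinearMap.coe_mk, AddHom.coe_mk, hR1, T, M]
    congr 1
    exact Finset.sum_congr rfl fun i _ => by ring
  · change epsL P i _ = _
    simp only [map_add, map_smul, map_sum, smul_eq_mul]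
    simp only [epsL, LinearMap.coe_mk, AddHom.coe_mk, hR2, K, mul_add, Finset.sum_add_distrib,
      mul_ite, mul_zero, Finset.sum_ite_eq, Finset.mem_univ, if_true, ← Finset.sum_mul]
    ring

variable (P)

def U (u a c b : E) : ℂ :=
  2 * (P.ta a * P.ta u * P.H c b + P.ta c * P.ta u * P.H a b + P.ta a * P.ta c * P.H u b) +
    2 * (P.ta a * M P u c b + P.ta c * M P u a b + P.ta u * M P a c b) +
    (K P a u * P.N c b + K P c u * P.N a b + K P a c * P.N u b) / P.s +
    ∑ i, (((P.m3 i : ℂ) - P.m2 i) - 2 * kp P i) *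
      (P.eps i u * P.eps i a * P.eps i c * conj (P.eps i b))

theorem U_symm (a b : E) : U P a b b a = U P b a b a := by
  have h : ∑ i, (((P.m3 i : ℂ) - P.m2 i) - 2 * kp P i) *
      (P.eps i a * P.eps i b * P.eps i b * conj (P.eps i a)) =
      ∑ i, (((P.m3 i : ℂ) - P.m2 i) - 2 * kp P i) *
      (P.eps i b * P.eps i a * P.eps i b * conj (P.eps i a)) :=
    Finset.sum_congr rfl fun i _ => by ring
  simp only [U, h, M_symm P b a, K_symm P b a]
  ring

theorem dM_eq (u a c b : E) : dM P u a c b =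
    ∑ i, (((P.m3 i : ℂ) - P.m2 i) - 2 * kp P i) *
      (P.eps i u * P.eps i a * P.eps i c * conj (P.eps i b)) +
    ∑ i, (((P.m3 i : ℂ) - P.m2 i) - kp P i) *
      (P.eps i a * P.eps i c * conj (P.eps i u) * conj (P.eps i b)) +
    2 * P.ta u * M P a c b + P.ta a * M P u c b + P.ta c * M P u a b +
    pp P u a * J P c b + pp P u c * J P a b + conj (P.ta u) * M P a c b +
    conj (P.ta b) * M P a c u + conj (pp P u b) * K P a c := by
  simp only [dM, de, M, J, K, Finset.mul_sum, ← Finset.sum_add_distrib, map_add, map_mul,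
    map_neg]
  exact Finset.sum_congr rfl fun i _ => by ring

variable {P}

theorem TG {u b G : E} (h1 : ∀ w, P.H G w = T P u b w)
    (h2 : ∀ i, P.eps i G = P.ta u * P.eps i b + P.ta b * P.eps i u +
      kp P i * (P.eps i u * P.eps i b) * ((P.eta i : ℂ) / P.D i) + K P u b / P.s) (a c : E) :
    T P a c G = P.ta a * conj (T P u b c) + P.ta c * conj (T P u b a) +
      (conj (P.ta u) * M P a c b + conj (P.ta b) * M P a c u +
        ∑ i, kp P i ^ 2 * ((P.eta i : ℂ) / P.D i) *
          (P.eps i a * P.eps i c * conj (P.eps i u) * conj (P.eps i b)) +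
        conj (K P u b) / P.s * K P a c) := by
  rw [T, ← H_conj P G c, ← H_conj P G a, h1, h1]
  congr 1
  generalize hk : K P u b = k at h2 ⊢
  simp only [M, K, h2, Finset.mul_sum, ← Finset.sum_add_distrib, map_add, map_mul, map_div₀,
    kp_conj, Complex.conj_ofReal]
  exact Finset.sum_congr rfl fun i _ => by ring

theorem key {u b G : E} (h1 : ∀ w, P.H G w = T P u b w)
    (h2 : ∀ i, P.eps i G = P.ta u * P.eps i b + P.ta b * P.eps i u +
      kp P i * (P.eps i u * P.eps i b) * ((P.eta i : ℂ) / P.D i) + K P u b / P.s) (a c : E) :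
    dT P u a c b - T P a c G = U P u a c b + (P.N a u * P.N c b + P.N c u * P.N a b) / P.s +
      ∑ i, (P.c i : ℂ) * (P.eps i a * P.eps i c * conj (P.eps i u) * conj (P.eps i b)) := by
  have h3 : ∑ i, (P.c i : ℂ) * (P.eps i a * P.eps i c * conj (P.eps i u) * conj (P.eps i b)) =
      ∑ i, (((P.m3 i : ℂ) - P.m2 i) - kp P i) *
        (P.eps i a * P.eps i c * conj (P.eps i u) * conj (P.eps i b)) -
      ∑ i, kp P i ^ 2 * ((P.eta i : ℂ) / P.D i) *
          (P.eps i a * P.eps i c * conj (P.eps i u) * conj (P.eps i b)) := by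
    rw [← Finset.sum_sub_distrib]
    refine Finset.sum_congr rfl fun i _ => ?_
    simp only [Pw.c, kp]
    push_cast
    ring
  have h4 : conj (pp P u b) = (conj (K P u b) + P.N u b) / P.s := by
    simp only [pp, map_div₀, map_add, N_conj, Complex.conj_ofReal, K_symm P b u]
  rw [h3, TG h1 h2, dT, dM_eq, h4, U]
  simp only [dt, dH, pp]
  have h5 : T P u c b = P.ta u * P.H c b + P.ta c * P.H u b + M P u c b := rfl
  have h6 : T P u a b = P.ta u * P.H a b + P.ta a * P.H u b + M P u a b := rfl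
  rw [h5, h6, N_eq P c b, N_eq P a b]
  ring

theorem curv (h : P.Ok) (a b : E) {G1 G2 : E} (h1 : ∀ w, P.H G1 w = T P a a w)
    (h2 : ∀ i, P.eps i G1 = P.ta a * P.eps i a + P.ta a * P.eps i a +
      kp P i * (P.eps i a * P.eps i a) * ((P.eta i : ℂ) / P.D i) + K P a a / P.s)
    (h3 : ∀ w, P.H G2 w = T P b a w)
    (h4 : ∀ i, P.eps i G2 = P.ta b * P.eps i a + P.ta a * P.eps i b +
      kp P i * (P.eps i b * P.eps i a) * ((P.eta i : ℂ) / P.D i) + K P b a / P.s) :
    (dT P a b b a).re - (dT P b a b a).re - (T P b b G1).re + (T P a b G2).re = -P.S a b := by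
  have k1 := key h1 h2 b b
  have k2 := key h3 h4 a b
  have hs : P.s ≠ 0 := h.spos.ne'
  have k3 : dT P a b b a - dT P b a b a - T P b b G1 + T P a b G2 =
      ((1 / P.s : ℝ) : ℂ) * (2 * conj (P.N a b) ^ 2 - P.N a b * conj (P.N a b) -
        ((P.N a a).re : ℂ) * ((P.N b b).re : ℂ)) +
      ∑ i, (P.c i : ℂ) * (conj (P.eps i a * conj (P.eps i b)) ^ 2 -
        (P.eps i a * conj (P.eps i b)) * conj (P.eps i a * conj (P.eps i b))) := by
    rw [Complex.conj_eq_iff_re.1 (N_conj P a a), Complex.conj_eq_iff_re.1 (N_conj P b b), N_conj]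
    have h5 : ∑ i, (P.c i : ℂ) * (conj (P.eps i a * conj (P.eps i b)) ^ 2 -
        (P.eps i a * conj (P.eps i b)) * conj (P.eps i a * conj (P.eps i b))) =
        ∑ i, (P.c i : ℂ) * (P.eps i b * P.eps i b * conj (P.eps i a) * conj (P.eps i a)) -
        ∑ i, (P.c i : ℂ) * (P.eps i a * P.eps i b * conj (P.eps i b) * conj (P.eps i a)) := by
      rw [← Finset.sum_sub_distrib]
      refine Finset.sum_congr rfl fun i _ => ?_
      simp only [map_mul, Complex.conj_conj]
      ring
    rw [h5]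
    push_cast
    linear_combination k1 - k2 + U_symm P a b
  have k4 := congrArg Complex.re k3
  rw [Complex.add_re, Complex.sub_re, Complex.sub_re] at k4
  rw [k4, Complex.add_re, Complex.re_sum, Complex.re_ofReal_mul, Pw.S, Finset.mul_sum, neg_add,
    ← Finset.sum_neg_distrib]
  congr 1
  · generalize P.N a b = n
    simp only [sq, Complex.sub_re, Complex.mul_re, Complex.mul_im, Complex.conj_re,
      Complex.conj_im, Complex.ofReal_re, Complex.ofReal_im, Complex.re_ofNat, Complex.im_ofNat]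
    ring
  · refine Finset.sum_congr rfl fun i _ => ?_
    generalize P.eps i a * conj (P.eps i b) = n
    simp only [sq, Complex.sub_re, Complex.sub_im, Complex.mul_re, Complex.mul_im, Complex.conj_re,
      Complex.conj_im, Complex.ofReal_re, Complex.ofReal_im]
    ring

end Pool.Agent.P.MP_5d7cf0_gt.ModBP
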