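import Pool.Agent.P.MP_5d7cf0_gt.ModB1

/-!
Package ModB, part two: derivatives of the fields.
-/

open Set Filter Topology ComplexConjugate
open scoped ContDiff

noncomputable section

namespace Pool.Agent.P.MP_5d7cf0_gt.ModBP

/-- `f` has a real derivative at `x` whose values are `d` -/
def HD {F : Type} [NormedAddCommGroup F] [NormedSpace ℝ F] (f : E → F) (x : E) (d : E → F) :
    Prop := ∃ f' : E →L[ℝ] F, HasFDerivAt f f' x ∧ ∀ w, f' w = d w

namespace HD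

variable {F : Type} [NormedAddCommGroup F] [NormedSpace ℝ F] {x : E}

theorem congr {f : E → F} {d d' : E → F} (h : HD f x d) (hd : ∀ w, d w = d' w) : HD f x d' := by
  obtain ⟨f', h1, h2⟩ := h
  exact ⟨f', h1, fun w => (h2 w).trans (hd w)⟩

theorem congr_ev {f g : E → F} {d : E → F} (h : HD f x d) (hg : g =ᶠ[𝓝 x] f) : HD g x d := by
  obtain ⟨f', h1, h2⟩ := h
  exact ⟨f', h1.congr_of_eventuallyEq hg, h2⟩

theorem fderiv_eq {f : E → F} {d : E → F} (h : HD f x d) (w : E) : fderiv ℝ f x w = d w := by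
  obtain ⟨f', h1, h2⟩ := h
  rw [h1.fderiv, h2]

theorem of_diff {f : E → F} (h : DifferentiableAt ℝ f x) : HD f x fun w => fderiv ℝ f x w :=
  ⟨_, h.hasFDerivAt, fun _ => rfl⟩

theorem const (c : F) : HD (fun _ => c) x fun _ => 0 := ⟨0, hasFDerivAt_const c x, fun _ => rfl⟩

theorem add {f g d e : E → F} (hf : HD f x d) (hg : HD g x e) :
    HD (fun z => f z + g z) x fun w => d w + e w := by
  obtain ⟨f', h1, h2⟩ := hf
  obtain ⟨g', h3, h4⟩ := hg
  exact ⟨f' + g', h1.add h3, fun w => by simp [h2, h4]⟩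

theorem sub {f g d e : E → F} (hf : HD f x d) (hg : HD g x e) :
    HD (fun z => f z - g z) x fun w => d w - e w := by
  obtain ⟨f', h1, h2⟩ := hf
  obtain ⟨g', h3, h4⟩ := hg
  exact ⟨f' - g', h1.sub h3, fun w => by simp [h2, h4]⟩

theorem neg {f d : E → F} (hf : HD f x d) : HD (fun z => -f z) x fun w => -d w := by
  obtain ⟨f', h1, h2⟩ := hf
  exact ⟨-f', h1.neg, fun w => by simp [h2]⟩

theorem sum {ι : Type} [Fintype ι] {f d : ι → E → F} (hf : ∀ i, HD (f i) x (d i)) :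
    HD (fun z => ∑ i, f i z) x fun w => ∑ i, d i w := by
  choose f' h1 h2 using hf
  exact ⟨∑ i, f' i, HasFDerivAt.fun_sum fun i _ => h1 i, fun w => by simp [h2]⟩

theorem clm {G : Type} [NormedAddCommGroup G] [NormedSpace ℝ G] (l : F →L[ℝ] G) {f d : E → F}
    (hf : HD f x d) : HD (fun z => l (f z)) x fun w => l (d w) := by
  obtain ⟨f', h1, h2⟩ := hf
  exact ⟨l.comp f', l.hasFDerivAt.comp x h1, fun w => by simp [h2]⟩

theorem mul {f g d e : E → ℂ} (hf : HD f x d) (hg : HD g x e) :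
    HD (fun z => f z * g z) x fun w => d w * g x + f x * e w := by
  obtain ⟨f', h1, h2⟩ := hf
  obtain ⟨g', h3, h4⟩ := hg
  exact ⟨_, h1.mul h3, fun w => by simp [h2, h4]; ring⟩

theorem smul {f d : E → ℂ} {g e : E → C4} (hf : HD f x d) (hg : HD g x e) :
    HD (fun z => f z • g z) x fun w => d w • g x + f x • e w := by
  obtain ⟨f', h1, h2⟩ := hf
  obtain ⟨g', h3, h4⟩ := hg
  exact ⟨_, h1.smul h3, fun w => by simp [h2, h4, add_comm]⟩

theorem cj {f d : E → ℂ} (hf : HD f x d) : HD (fun z => conj (f z)) x fun w => conj (d w) :=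
  clm (Complex.conjCLE : ℂ →L[ℝ] ℂ) hf

theorem re {f d : E → ℂ} (hf : HD f x d) : HD (fun z => (f z).re) x fun w => (d w).re :=
  clm Complex.reCLM hf

theorem ofReal {f d : E → ℝ} (hf : HD f x d) : HD (fun z => (f z : ℂ)) x fun w => (d w : ℂ) :=
  clm Complex.ofRealCLM hf

theorem app {f d : E → C4} (hf : HD f x d) (k : Fin 4) : HD (fun z => f z k) x fun w => d w k :=
  clm (ContinuousLinearMap.proj (R := ℝ) (φ := fun _ : Fin 4 => ℂ) k) hf

theorem comp {f d : E → ℝ} (hf : HD f x d) {φ : ℝ → ℝ} {φ' : ℝ} (hφ : HasDerivAt φ φ' (f x)) :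
    HD (fun z => φ (f z)) x fun w => φ' * d w := by
  obtain ⟨f', h1, h2⟩ := hf
  exact ⟨_, hφ.comp_hasFDerivAt x h1, fun w => by simp [h2]⟩

theorem inv {f d : E → ℂ} (hf : HD f x d) (h0 : f x ≠ 0) :
    HD (fun z => (f z)⁻¹) x fun w => -(d w / f x ^ 2) := by
  obtain ⟨f', h1, h2⟩ := hf
  refine ⟨_, ((hasDerivAt_inv h0).hasFDerivAt.restrictScalars ℝ).comp x h1, fun w => ?_⟩
  simp [h2, div_eq_mul_inv]

theorem div {f g d e : E → ℂ} (hf : HD f x d) (hg : HD g x e) (h0 : g x ≠ 0) :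
    HD (fun z => f z / g z) x fun w => (d w * g x - f x * e w) / g x ^ 2 := by
  simp only [div_eq_mul_inv]
  refine (hf.mul (hg.inv h0)).congr fun w => ?_
  field_simp
  ring

theorem hL {f g d e : E → C4} (hf : HD f x d) (hg : HD g x e) :
    HD (fun z => hL (f z) (g z)) x fun w => hL (d w) (g x) + hL (f x) (e w) := by
  refine (((((hf.app 0).mul (hg.app 0).cj).neg.add ((hf.app 1).mul (hg.app 1).cj)).add
    ((hf.app 2).mul (hg.app 2).cj)).add ((hf.app 3).mul (hg.app 3).cj)).congr fun w => ?_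
  simp only [MP_5d7cf0_gt.hL]
  ring

end HD

theorem cd_hL {n : WithTop ℕ∞} {f g : E → C4} {x : E} (hf : ContDiffAt ℝ n f x)
    (hg : ContDiffAt ℝ n g x) : ContDiffAt ℝ n (fun z => hL (f z) (g z)) x := by
  have h1 : ∀ k, ContDiffAt ℝ n (fun z => f z k * conj (g z k)) x := fun k =>
    (contDiffAt_pi.1 hf k).mul
      ((Complex.conjCLE : ℂ →L[ℝ] ℂ).contDiff.contDiffAt.comp x (contDiffAt_pi.1 hg k))
  exact (((h1 0).neg.add (h1 1)).add (h1 2)).add (h1 3)

variable {ι : Type} [Fintype ι] {Z0 : C4} {A : E →L[ℂ] C4} {ρ : ι → C4} {v q : E → ℝ}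
  {L : ι → E → ℝ} {μ : ι → ℝ → ℝ} {x : E} {n : WithTop ℕ∞}

theorem cd_Z : ContDiffAt ℝ n (fun z => Z0 + A z) x :=
  contDiffAt_const.add (A.restrictScalars ℝ).contDiff.contDiffAt

theorem cd_v (h : LocD n (fun z => Z0 + A z) ρ v q L μ x) : ContDiffAt ℝ n v x := by
  refine ContDiffAt.congr_of_eventuallyEq ?_ h.hv
  refine ContDiffAt.log (Complex.reCLM.contDiff.contDiffAt.comp x (cd_hL cd_Z cd_Z)).neg ?_
  exact (neg_pos.2 h.ok.neg).ne'

theorem cd_L (h : LocD n (fun z => Z0 + A z) ρ v q L μ x) (i : ι) : ContDiffAt ℝ n (L i) x := by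
  refine ContDiffAt.congr_of_eventuallyEq ?_ (h.hl i)
  refine (h.hq.add (ContDiffAt.log ((cd_hL cd_Z contDiffAt_const).norm_sq ℂ) ?_)).sub (cd_v h)
  exact pow_ne_zero _ (norm_ne_zero_iff.2 (h.ok.ne i))

theorem LocD_mono {m : WithTop ℕ∞} (h : LocD n (fun z => Z0 + A z) ρ v q L μ x) (hm : m ≤ n) :
    LocD m (fun z => Z0 + A z) ρ v q L μ x :=
  ⟨h.hZ.of_le hm, h.hv, h.hl, h.hq.of_le hm, fun i => (h.hμ i).of_le hm, h.lev, h.ok⟩

omit [Fintype ι] in
theorem pw_A : (pw (fun z => Z0 + A z) ρ v q L μ x).A = A :=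
  (A.hasFDerivAt.const_add Z0).fderiv

theorem LocD_ev (h : LocD 3 (fun z => Z0 + A z) ρ v q L μ x) :
    ∀ᶠ z in 𝓝 x, LocD 3 (fun z => Z0 + A z) ρ v q L μ z := by
  have cL : ∀ i, ContinuousAt (L i) x := fun i => (cd_L h i).continuousAt
  have c0 : ∀ i, ContinuousAt (fun z => μ i (L i z)) x := fun i =>
    (h.hμ i).continuousAt.comp (cL i)
  have c1 : ∀ i, ContinuousAt (fun z => deriv (μ i) (L i z)) x := fun i =>
    ((h.hμ i).derivWithin (m := 2) (by norm_num)).continuousAt.comp (cL i)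
  have cZ : ∀ β : C4, ContinuousAt (fun z => hL (Z0 + A z) β) x := fun β =>
    (cd_hL (n := 0) cd_Z contDiffAt_const).continuousAt
  have cy : ContinuousAt (fun z => Real.exp (q z - v z)) x :=
    (h.hq.continuousAt.sub (cd_v h).continuousAt).rexp
  have e1 : ∀ᶠ z in 𝓝 x, (hL (Z0 + A z) (Z0 + A z)).re < 0 :=
    (Complex.continuous_re.continuousAt.comp
      (cd_hL (n := 0) cd_Z cd_Z).continuousAt).eventually_lt continuousAt_const h.ok.neg
  have e2 : ∀ᶠ z in 𝓝 x, ∀ i, hL (Z0 + A z) (ρ i) ≠ 0 :=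
    eventually_all.2 fun i => (cZ (ρ i)).eventually_ne (h.ok.ne i)
  have e3 : ∀ᶠ z in 𝓝 x, 0 < 1 + ∑ i, (μ i (L i z) - deriv (μ i) (L i z)) :=
    continuousAt_const.eventually_lt
      (continuousAt_const.add (tendsto_finsetSum _ fun i _ => (c0 i).sub (c1 i))) h.ok.spos
  have e4 : ∀ᶠ z in 𝓝 x, ∀ i, 0 < Real.exp (q z - v z) * ‖hL (Z0 + A z) (ρ i)‖ ^ 2 +
      (hL (ρ i) (ρ i)).re * deriv (μ i) (L i z) :=
    eventually_all.2 fun i => continuousAt_const.eventually_lt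
      ((cy.mul ((cZ (ρ i)).norm.pow 2)).add (continuousAt_const.mul (c1 i))) (h.ok.Dpos i)
  have e5 : ∀ᶠ z in 𝓝 x, ∀ i, ContDiffAt ℝ 3 (μ i) (L i z) :=
    eventually_all.2 fun i => (cL i).eventually ((h.hμ i).eventually (by simp))
  have e6 : ∀ᶠ z in 𝓝 x, ∀ i, ∀ᶠ y in 𝓝 z,
      L i y = q y + Real.log (‖hL (Z0 + A y) (ρ i)‖ ^ 2) - v y :=
    eventually_all.2 fun i => (h.hl i).eventually_nhds
  filter_upwards [e1, e2, e3, e4, e5, e6, h.hv.eventually_nhds, h.lev.eventually_nhds,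
    h.hq.eventually (by simp)] with z z1 z2 z3 z4 z5 z6 z7 z8 z9
  refine ⟨contDiffAt_const.add A.contDiff.contDiffAt, z7, z6, z9, z5, z8,
    ⟨Real.exp_pos _, ?_, z1, h.ok.orth, z2, z3, z4, fun m a hm => ?_⟩⟩
  · change Real.exp (q z - v z) * -(hL (Z0 + A z) (Z0 + A z)).re = 1 + ∑ i, μ i (L i z)
    rw [← z8.self_of_nhds, z7.self_of_nhds, Real.exp_sub, Real.exp_log (neg_pos.2 z1),
      div_mul_cancel₀ _ (neg_pos.2 z1).ne']
  · rw [pw_A] at hm
    change m • (Z0 + A z) + A a = 0 at hm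
    have h1 := h.ok.inj m (m • (z - x) + a) (by
      rw [pw_A]
      change m • (Z0 + A x) + _ = 0
      rw [← hm, map_add, map_smul, map_sub, smul_sub, smul_add, smul_add]
      abel)
    refine ⟨h1.1, ?_⟩
    have h2 := h1.2
    rwa [h1.1, zero_smul, zero_add] at h2

end Pool.Agent.P.MP_5d7cf0_gt.ModBP
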