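import Pool.Agent.P.MP_5d7cf0_gt.St

/-!
Package NF: every point of the moduli space has a normal form in `FF`.
-/

open Set Filter Topology

noncomputable section

namespace Pool.Agent.P.MP_5d7cf0_gt

namespace NFP

theorem br_self (u : ℂ × ℂ) : br u u = 0 := by simp [br, mul_comm]

theorem norm_br_comm (u v : ℂ × ℂ) : ‖br u v‖ = ‖br v u‖ := by
  rw [← norm_neg]; congr 1; simp only [br]; ring

/-- three numbers at most two with product at least one are at least a quarter -/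
theorem quarter {r s t : ℝ} (hr : 0 ≤ r) (hs : 0 ≤ s) (_ht : 0 ≤ t) (hs2 : s ≤ 2) (ht2 : t ≤ 2)
    (h : 1 ≤ r * s * t) : 1 < 5 * r := by
  have h1 : s * t ≤ 4 := by nlinarith
  have h2 : r * (s * t) ≤ r * 4 := mul_le_mul_of_nonneg_left h1 hr
  nlinarith

/-- the inequalities that define `FF` -/
theorem ineq {a b c : ℂ} (hb : b ≠ 0) (h1 : ‖a‖ ≤ ‖b‖) (h2 : ‖b‖ ≤ ‖c‖) (h3 : ‖c‖ ≤ 1)
    (h4 : 1 ≤ ‖1 - a‖ * ‖1 - b‖ * ‖1 - c‖)
    (h5 : ‖b‖ * ‖c‖ ≤ ‖b - a‖ * ‖c - a‖ * ‖1 - a‖) :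
    ‖a‖ < 2 * ‖b‖ ∧ ‖b‖ < 2 * ‖c‖ ∧ ‖c‖ < 2 ∧ ‖b‖ < 5 * ‖b - a‖ ∧ ‖c‖ < 5 * ‖c - a‖ ∧
      1 < 5 * ‖1 - a‖ ∧ 1 < 5 * ‖1 - b‖ ∧ 1 < 5 * ‖1 - c‖ := by
  have b0 : 0 < ‖b‖ := norm_pos_iff.2 hb
  have c0 : 0 < ‖c‖ := b0.trans_le h2
  have e1 : ‖1 - a‖ ≤ 2 := (norm_sub_le _ _).trans (by rw [norm_one]; linarith)
  have e2 : ‖1 - b‖ ≤ 2 := (norm_sub_le _ _).trans (by rw [norm_one]; linarith)
  have e3 : ‖1 - c‖ ≤ 2 := (norm_sub_le _ _).trans (by rw [norm_one]; linarith)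
  have e4 : ‖b - a‖ / ‖b‖ ≤ 2 := by
    rw [div_le_iff₀ b0]; linarith [norm_sub_le b a]
  have e5 : ‖c - a‖ / ‖c‖ ≤ 2 := by
    rw [div_le_iff₀ c0]; linarith [norm_sub_le c a]
  have h6 : 1 ≤ ‖b - a‖ / ‖b‖ * (‖c - a‖ / ‖c‖) * ‖1 - a‖ := by
    rw [div_mul_div_comm, div_mul_eq_mul_div, le_div_iff₀ (by positivity)]
    linarith
  have q1 := quarter (by positivity) (by positivity) (norm_nonneg _) e5 e1 h6
  have q2 := quarter (r := ‖c - a‖ / ‖c‖) (s := ‖b - a‖ / ‖b‖) (by positivity) (by positivity)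
    (norm_nonneg _) e4 e1 (by linarith [mul_comm (‖b - a‖ / ‖b‖) (‖c - a‖ / ‖c‖)])
  rw [← mul_div_assoc, lt_div_iff₀ b0] at q1
  rw [← mul_div_assoc, lt_div_iff₀ c0] at q2
  refine ⟨by linarith, by linarith, by linarith, by linarith, by linarith,
    quarter (norm_nonneg _) (norm_nonneg _) (norm_nonneg _) e2 e3 h4,
    quarter (norm_nonneg _) (norm_nonneg _) (norm_nonneg _) e1 e3 (by linarith [h4]),
    quarter (norm_nonneg _) (norm_nonneg _) (norm_nonneg _) e1 e2 (by linarith [h4])⟩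

theorem norm_cr (p q r z : ℂ × ℂ) :
    ‖cr p q r z‖ = ‖br p z‖ * ‖br q r‖ / (‖br z r‖ * ‖br p q‖) := by
  rw [cr, norm_div, norm_mul, norm_mul, norm_br_comm z p, norm_br_comm q p]

theorem norm_one_sub {p q r z : ℂ × ℂ} (h1 : br z r ≠ 0) (h2 : br q p ≠ 0) :
    ‖1 - cr p q r z‖ = ‖br z q‖ * ‖br p r‖ / (‖br z r‖ * ‖br p q‖) := by
  have : 1 - cr p q r z = -(br z q * br p r) / (br z r * br q p) := by
    rw [cr, eq_div_iff (mul_ne_zero h1 h2), sub_mul, div_mul_cancel₀ _ (mul_ne_zero h1 h2)]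
    simp only [br]; ring
  rw [this, norm_div, norm_neg, norm_mul, norm_mul, norm_br_comm q p]

theorem norm_sub_cr {p q r z z' : ℂ × ℂ} (h1 : br z r ≠ 0) (h1' : br z' r ≠ 0) (h2 : br q p ≠ 0) :
    ‖cr p q r z' - cr p q r z‖ =
      ‖br q r‖ * ‖br z z'‖ * ‖br p r‖ / (‖br z' r‖ * ‖br z r‖ * ‖br p q‖) := by
  have : cr p q r z' - cr p q r z =
      -(br q r * br z z' * br p r) / (br z' r * br z r * br q p) := by
    rw [cr, cr]
    field_simp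
    simp only [br]; ring
  rw [this, norm_div, norm_neg, norm_mul, norm_mul, norm_mul, norm_mul, norm_br_comm q p]

/-- the product of the distances from one point -/
def N (v : V6) (p : Fin 6) : ℝ := ∏ k, if k = p then 1 else ‖br (v p) (v k)‖

theorem N_pos {v : V6} (h : Gen v) (p : Fin 6) : 0 < N v p :=
  Finset.prod_pos fun k _ => by
    split_ifs with hk
    · exact one_pos
    · exact norm_pos_iff.2 (h _ _ (Ne.symm hk))

theorem N_comp (v : V6) (σ : Equiv.Perm (Fin 6)) (p : Fin 6) : N (v ∘ σ) p = N v (σ p) := by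
  rw [N, N, ← Equiv.prod_comp σ (fun k => if k = σ p then 1 else ‖br (v (σ p)) (v k)‖)]
  simp

/-- a good ordering of the points -/
theorem exists_perm {v : V6} (h : Gen v) : ∃ σ : Equiv.Perm (Fin 6),
    (∀ i j, i ≠ j → ‖br (v (σ i)) (v (σ j))‖ ^ 4 / (N v (σ i) * N v (σ j)) ≤
      ‖br (v (σ 0)) (v (σ 5))‖ ^ 4 / (N v (σ 0) * N v (σ 5))) ∧
    ∀ i j, i ≤ j → ‖br (v (σ 0)) (v (σ i))‖ * ‖br (v (σ j)) (v (σ 5))‖ ≤
      ‖br (v (σ 0)) (v (σ j))‖ * ‖br (v (σ i)) (v (σ 5))‖ := by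
  obtain ⟨⟨p, q⟩, hpq, hmax⟩ := Finset.exists_max_image (Finset.univ : Finset (Fin 6)).offDiag
    (fun x => ‖br (v x.1) (v x.2)‖ ^ 4 / (N v x.1 * N v x.2)) ⟨(0, 1), by decide⟩
  have hne : p ≠ q := (Finset.mem_offDiag.1 hpq).2.2
  have hd : ∀ k, 0 < ‖br (v p) (v k)‖ + ‖br (v k) (v q)‖ := fun k => by
    by_cases hk : k = p
    · subst hk
      have := norm_pos_iff.2 (h _ _ hne)
      positivity
    · have := norm_pos_iff.2 (h _ _ (Ne.symm hk))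
      positivity
  set κ : Fin 6 → ℝ := fun k => ‖br (v p) (v k)‖ / (‖br (v p) (v k)‖ + ‖br (v k) (v q)‖) with hκ
  have hm := Tuple.monotone_sort κ
  set σ := Tuple.sort κ
  have key : ∀ i j, i ≤ j → ‖br (v p) (v (σ i))‖ * ‖br (v (σ j)) (v q)‖ ≤
      ‖br (v p) (v (σ j))‖ * ‖br (v (σ i)) (v q)‖ := fun i j hij => by
    have := hm hij
    simp only [Function.comp, hκ] at this
    rw [div_le_div_iff₀ (hd _) (hd _)] at this
    linarith
  have hpq' := norm_pos_iff.2 (h _ _ hne)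
  have h0 : σ 0 = p := by
    by_contra hc
    have := key 0 (σ.symm p) (Fin.zero_le _)
    rw [Equiv.apply_symm_apply, br_self, norm_zero, zero_mul] at this
    have h1 := norm_pos_iff.2 (h _ _ (Ne.symm hc))
    exact absurd this (not_le.2 (mul_pos h1 hpq'))
  have h5 : σ 5 = q := by
    by_contra hc
    have := key (σ.symm q) 5 (Fin.le_last _)
    rw [Equiv.apply_symm_apply, br_self, norm_zero, mul_zero] at this
    have h1 := norm_pos_iff.2 (h _ _ hc)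
    exact absurd this (not_le.2 (mul_pos hpq' h1))
  refine ⟨σ, fun i j hij => ?_, ?_⟩
  · rw [h0, h5]
    exact hmax (σ i, σ j) (by simp [hij])
  · rw [h0, h5]; exact key

/-- the inequalities for a well ordered configuration -/
theorem main {w : V6} (h : Gen w)
    (h1 : ∀ i j, i ≠ j → ‖br (w i) (w j)‖ ^ 4 / (N w i * N w j) ≤
      ‖br (w 0) (w 5)‖ ^ 4 / (N w 0 * N w 5))
    (h2 : ∀ i j, i ≤ j → ‖br (w 0) (w i)‖ * ‖br (w j) (w 5)‖ ≤
      ‖br (w 0) (w j)‖ * ‖br (w i) (w 5)‖) {a b c : ℂ} (ha : a = cr (w 0) (w 4) (w 5) (w 1))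
    (hb : b = cr (w 0) (w 4) (w 5) (w 2)) (hc : c = cr (w 0) (w 4) (w 5) (w 3)) :
    ‖a‖ < 2 * ‖b‖ ∧ ‖b‖ < 2 * ‖c‖ ∧ ‖c‖ < 2 ∧ ‖b‖ < 5 * ‖b - a‖ ∧ ‖c‖ < 5 * ‖c - a‖ ∧
      1 < 5 * ‖1 - a‖ ∧ 1 < 5 * ‖1 - b‖ ∧ 1 < 5 * ‖1 - c‖ := by
  have P : ∀ i j, i ≠ j → 0 < ‖br (w i) (w j)‖ := fun i j hij => norm_pos_iff.2 (h i j hij)
  have p01 := P 0 1 (by decide)
  have p02 := P 0 2 (by decide)
  have p03 := P 0 3 (by decide)
  have p04 := P 0 4 (by decide)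
  have p05 := P 0 5 (by decide)
  have p12 := P 1 2 (by decide)
  have p13 := P 1 3 (by decide)
  have p14 := P 1 4 (by decide)
  have p15 := P 1 5 (by decide)
  have p24 := P 2 4 (by decide)
  have p25 := P 2 5 (by decide)
  have p34 := P 3 4 (by decide)
  have p35 := P 3 5 (by decide)
  have p45 := P 4 5 (by decide)
  have n0 : N w 0 = ‖br (w 0) (w 1)‖ * ‖br (w 0) (w 2)‖ * ‖br (w 0) (w 3)‖ * ‖br (w 0) (w 4)‖ *
      ‖br (w 0) (w 5)‖ := by simp [N, Fin.prod_univ_six]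
  have n1 : N w 1 = ‖br (w 0) (w 1)‖ * ‖br (w 1) (w 2)‖ * ‖br (w 1) (w 3)‖ * ‖br (w 1) (w 4)‖ *
      ‖br (w 1) (w 5)‖ := by simp [N, Fin.prod_univ_six, norm_br_comm (w 1) (w 0)]
  have n4 : N w 4 = ‖br (w 0) (w 4)‖ * ‖br (w 1) (w 4)‖ * ‖br (w 2) (w 4)‖ * ‖br (w 3) (w 4)‖ *
      ‖br (w 4) (w 5)‖ := by
    simp [N, Fin.prod_univ_six, norm_br_comm (w 4) (w 0), norm_br_comm (w 4) (w 1),
      norm_br_comm (w 4) (w 2), norm_br_comm (w 4) (w 3)]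
  have n5 : N w 5 = ‖br (w 0) (w 5)‖ * ‖br (w 1) (w 5)‖ * ‖br (w 2) (w 5)‖ * ‖br (w 3) (w 5)‖ *
      ‖br (w 4) (w 5)‖ := by
    simp [N, Fin.prod_univ_six, norm_br_comm (w 5) (w 0), norm_br_comm (w 5) (w 1),
      norm_br_comm (w 5) (w 2), norm_br_comm (w 5) (w 3), norm_br_comm (w 5) (w 4)]
  have m1 := h1 0 4 (by decide)
  have m2 := h1 1 5 (by decide)
  rw [n0, n4, n5] at m1
  rw [n0, n1, n5] at m2
  have s1 := h2 1 2 (by decide)
  have s2 := h2 2 3 (by decide)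
  have s3 := h2 3 4 (by decide)
  have b40 := h 4 0 (by decide)
  have hb0 : b ≠ 0 := by
    rw [← norm_pos_iff, hb, norm_cr]; positivity
  refine ineq hb0 ?_ ?_ ?_ ?_ ?_
  · rw [ha, hb, norm_cr, norm_cr, div_le_div_iff₀ (by positivity) (by positivity)]
    have := mul_le_mul_of_nonneg_right s1 (mul_pos p45 p04).le
    linarith
  · rw [hb, hc, norm_cr, norm_cr, div_le_div_iff₀ (by positivity) (by positivity)]
    have := mul_le_mul_of_nonneg_right s2 (mul_pos p45 p04).le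
    linarith
  · rw [hc, norm_cr, div_le_one (by positivity)]
    linarith
  · rw [ha, hb, hc, norm_one_sub (h 1 5 (by decide)) b40, norm_one_sub (h 2 5 (by decide)) b40,
      norm_one_sub (h 3 5 (by decide)) b40]
    rw [← div_le_one (by positivity)] at m1 ⊢
    refine le_trans (le_of_eq ?_) m1
    field_simp
  · rw [ha, hb, hc, norm_one_sub (h 1 5 (by decide)) b40,
      norm_sub_cr (h 1 5 (by decide)) (h 2 5 (by decide)) b40,
      norm_sub_cr (h 1 5 (by decide)) (h 3 5 (by decide)) b40, norm_cr, norm_cr]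
    rw [← div_le_one (by positivity)] at m2 ⊢
    refine le_trans (le_of_eq ?_) m2
    field_simp

end NFP

theorem pNF (h : S_Act) : S_NF := by
  refine ⟨?_, fun x hx => ?_⟩
  · have : FF = X ∩ ({x : E | ‖x 0‖ < 2 * ‖x 1‖} ∩ ({x : E | ‖x 1‖ < 2 * ‖x 2‖} ∩
        ({x : E | ‖x 2‖ < 2} ∩ ({x : E | ‖x 1‖ < 5 * ‖x 1 - x 0‖} ∩
        ({x : E | ‖x 2‖ < 5 * ‖x 2 - x 0‖} ∩ ⋂ k, {x : E | 1 < 5 * ‖1 - x k‖}))))) := by
      ext x; simp only [FF, mem_inter_iff, mem_ofPred_eq, mem_iInter]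
    rw [this]
    refine h.1.inter (IsOpen.inter ?_ (IsOpen.inter ?_ (IsOpen.inter ?_ (IsOpen.inter ?_
      (IsOpen.inter ?_ (isOpen_iInter_of_finite fun k => ?_))))))
    all_goals exact isOpen_lt (by fun_prop) (by fun_prop)
  · have hg : Gen (pt x) := hx
    obtain ⟨σ, h1, h2⟩ := NFP.exists_perm hg
    have hw : Gen (pt x ∘ σ) := fun i j hij => hg _ _ (σ.injective.ne hij)
    obtain ⟨e1, e2, e3, e4, e5, e6, e7, e8⟩ := NFP.main hw
      (fun i j hij => by simpa only [NFP.N_comp, Function.comp] using h1 i j hij) h2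
      (a := act σ x 0) (b := act σ x 1) (c := act σ x 2) rfl rfl rfl
    refine ⟨σ, (((h.2 σ).1) x hx).1, e1, e2, e3, e4, e5, fun k => ?_⟩
    fin_cases k
    · exact e6
    · exact e7
    · exact e8

end Pool.Agent.P.MP_5d7cf0_gt
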