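import Pool.Agent.P.MP_5d7cf0_gt.St

/-!
Package NV: the period map has a surjective differential at one point.
-/

open Set Filter Topology MeasureTheory ComplexConjugate
open scoped ContDiff ENNReal

noncomputable section

namespace Pool.Agent.P.MP_5d7cf0_gt

namespace NVP

/-- the real integrand -/
def W (l : Fin 5 → ℝ) (x : ℝ) : ℝ := ∏ n, |x - l n| ^ (-(1 / 3) : ℝ)

theorem cp_real {y : ℝ} (hy : 0 < y) : cp (y : ℂ) = ((|y| ^ (-(1 / 3) : ℝ) : ℝ) : ℂ) := by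
  rw [abs_of_pos hy, Complex.ofReal_cpow hy.le, cp]
  push_cast
  rfl

theorem fm_real {l : Fin 5 → ℝ} (hl : StrictMono l) (k : Fin 4) {x : ℝ}
    (hx : x ∈ Ioo (l k.castSucc) (l k.succ)) :
    fm (fun n => (l n : ℂ)) (k + 1) x = (W l x : ℂ) := by
  unfold fm W
  push_cast
  refine Finset.prod_congr rfl fun n _ => ?_
  split_ifs with h
  · have h1 : l n ≤ l k.castSucc := hl.monotone (by
      rw [Fin.le_def]; simp only [Fin.val_castSucc]; omega)
    rw [← cp_real (by linarith [hx.1] : 0 < x - l n)]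
    push_cast
    rfl
  · have h1 : l k.succ ≤ l n := hl.monotone (by
      rw [Fin.le_def]; simp only [Fin.val_succ]; omega)
    rw [abs_sub_comm, ← cp_real (by linarith [hx.2] : 0 < l n - x)]
    push_cast
    rfl

/-- change of variables by an increasing map -/
theorem cov {φ φ' : ℝ → ℝ} (hd : ∀ x, HasDerivAt φ (φ' x) x) (hp : ∀ x ∈ Icc (0 : ℝ) 1, 0 < φ' x)
    (g : ℝ → ℝ) : ∫ x in Ioo (φ 0) (φ 1), g x = ∫ x in Ioo (0 : ℝ) 1, φ' x * g (φ x) := by
  have hc : ContinuousOn φ (Icc 0 1) := fun x _ => (hd x).continuousAt.continuousWithinAt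
  have hm : StrictMonoOn φ (Icc 0 1) := strictMonoOn_of_deriv_pos (convex_Icc 0 1) hc fun x hx => by
    rw [(hd x).deriv]; exact hp x (interior_subset hx)
  have him : φ '' Ioo 0 1 = Ioo (φ 0) (φ 1) := by
    refine Subset.antisymm ?_ (intermediate_value_Ioo zero_le_one hc)
    rintro _ ⟨x, hx, rfl⟩
    exact ⟨hm ⟨le_rfl, zero_le_one⟩ (Ioo_subset_Icc_self hx) hx.1,
      hm (Ioo_subset_Icc_self hx) ⟨zero_le_one, le_rfl⟩ hx.2⟩
  rw [← him, integral_image_eq_integral_abs_deriv_smul measurableSet_Ioo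
    (fun x _ => (hd x).hasDerivWithinAt) (hm.injOn.mono Ioo_subset_Icc_self)]
  refine setIntegral_congr_fun measurableSet_Ioo fun x hx => ?_
  simp only [smul_eq_mul, abs_of_pos (hp x (Ioo_subset_Icc_self hx))]

theorem mem_O {l : Fin 5 → ℝ} : (fun n => (l n : ℂ)) ∈ O ↔ StrictMono l := by
  simp [O]

theorem seg_real (hS : S_Seg) {l : Fin 5 → ℝ} (hl : StrictMono l) (k : Fin 4) :
    IntegrableOn (fun τ : ℝ => W l (l k.castSucc + τ * (l k.succ - l k.castSucc))) (Ioo 0 1) ∧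
      hL (YY fun n => (l n : ℂ)) (rs k.castSucc.castSucc) =
        √3 * ((∫ x in Ioo (l k.castSucc) (l k.succ), W l x : ℝ) : ℂ) := by
  obtain ⟨h1, h2⟩ := (hS _ (mem_O.2 hl)).2.2 k
  have hd : 0 < l k.succ - l k.castSucc := sub_pos.2 (hl Fin.castSucc_lt_succ)
  have e : ∀ τ ∈ Ioo (0 : ℝ) 1, fm (fun n => (l n : ℂ)) (k + 1)
      ((l k.castSucc : ℂ) + τ * ((l k.succ : ℂ) - l k.castSucc)) =
      (W l (l k.castSucc + τ * (l k.succ - l k.castSucc)) : ℂ) := fun τ hτ => by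
    rw [← fm_real hl k ⟨by nlinarith [hτ.1], by nlinarith [hτ.2]⟩]
    push_cast
    rfl
  refine ⟨?_, ?_⟩
  · have h3 := (h1.congr_fun e measurableSet_Ioo).re
    simpa [IntegrableOn] using h3
  · rw [h2, setIntegral_congr_fun measurableSet_Ioo e, integral_complex_ofReal]
    have h4 := cov (φ := fun τ => l k.castSucc + τ * (l k.succ - l k.castSucc))
      (φ' := fun _ => l k.succ - l k.castSucc)
      (fun x => (hasDerivAt_mul_const (l k.succ - l k.castSucc)).const_add _)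
      (fun _ _ => hd) (W l)
    simp only [zero_mul, add_zero, one_mul, add_sub_cancel] at h4
    rw [h4, integral_const_mul]
    push_cast
    ring

theorem hasDerivAt_H (r : ℝ) (s : Fin 5 → ℝ) (ε : ℝ) (h : ∀ n, 0 < 1 + ε * s n) :
    HasDerivAt (fun e : ℝ => (1 + e * r) * ∏ n, (1 + e * s n) ^ (-(1 / 3) : ℝ))
      ((∏ n, (1 + ε * s n) ^ (-(1 / 3) : ℝ)) *
        (r - (1 + ε * r) * (1 / 3) * ∑ n, s n / (1 + ε * s n))) ε := by
  have h0 : ∀ t : ℝ, HasDerivAt (fun e : ℝ => 1 + e * t) t ε := fun t => by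
    simpa using ((hasDerivAt_id ε).mul_const t).const_add 1
  have h1 : ∀ n, HasDerivAt (fun e : ℝ => (1 + e * s n) ^ (-(1 / 3) : ℝ))
      ((1 + ε * s n) ^ (-(1 / 3) : ℝ) * (-(1 / 3) * (s n / (1 + ε * s n)))) ε := fun n => by
    convert (h0 (s n)).rpow_const (p := -(1 / 3)) (Or.inl (h n).ne') using 1
    rw [Real.rpow_sub_one (h n).ne']
    ring
  have h2 := (h0 r).mul (((((h1 0).mul (h1 1)).mul (h1 2)).mul (h1 3)).mul (h1 4))
  simp only [Fin.prod_univ_five, Fin.sum_univ_five]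
  refine HasDerivAt.congr_deriv h2 ?_
  simp only [Pi.mul_apply]
  ring

/-- differentiation under the integral -/
theorem hasDerivAt_int {w r : ℝ → ℝ} {s : Fin 5 → ℝ → ℝ} (hw : IntegrableOn w (Ioo 0 1))
    (hr : Continuous r) (hs : ∀ n, Continuous (s n)) {B : ℝ} (hB : 0 < B)
    (br : ∀ τ ∈ Ioo (0 : ℝ) 1, |r τ| ≤ B) (bs : ∀ n, ∀ τ ∈ Ioo (0 : ℝ) 1, |s n τ| ≤ B) :
    HasDerivAt (fun e : ℝ => ∫ τ in Ioo (0 : ℝ) 1,
        w τ * ((1 + e * r τ) * ∏ n, (1 + e * s n τ) ^ (-(1 / 3) : ℝ)))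
      (∫ τ in Ioo (0 : ℝ) 1, w τ * (r τ - (1 / 3) * ∑ n, s n τ)) 0 := by
  have small : ∀ e ∈ Metric.ball (0 : ℝ) (1 / (2 * B)), ∀ t : ℝ, |t| ≤ B → |e * t| ≤ 1 / 2 := by
    intro e he t ht
    rw [mem_ball_zero_iff, Real.norm_eq_abs, lt_div_iff₀ (by positivity)] at he
    rw [abs_mul]
    nlinarith [abs_nonneg e, abs_nonneg t]
  have key := hasDerivAt_integral_of_dominated_loc_of_deriv_le
    (μ := volume.restrict (Ioo (0 : ℝ) 1)) (x₀ := (0 : ℝ))
    (F := fun e τ => w τ * ((1 + e * r τ) * ∏ n, (1 + e * s n τ) ^ (-(1 / 3) : ℝ)))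
    (F' := fun e τ => w τ * ((∏ n, (1 + e * s n τ) ^ (-(1 / 3) : ℝ)) *
        (r τ - (1 + e * r τ) * (1 / 3) * ∑ n, s n τ / (1 + e * s n τ))))
    (bound := fun τ => ‖w τ‖ * (2 ^ 5 * (6 * B)))
    (Metric.ball_mem_nhds (0 : ℝ) (show 0 < 1 / (2 * B) by positivity))
    (Eventually.of_forall fun e => hw.1.mul (Measurable.aestronglyMeasurable (by
      have := hr.measurable
      have := fun n => (hs n).measurable
      fun_prop)))
    (by simpa [IntegrableOn] using hw)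
    (hw.1.mul (Measurable.aestronglyMeasurable (by
      have := hr.measurable
      have := fun n => (hs n).measurable
      fun_prop)))
    ((ae_restrict_iff' measurableSet_Ioo).2 (Eventually.of_forall fun τ hτ e he => ?_))
    (hw.norm.mul_const _)
    ((ae_restrict_iff' measurableSet_Ioo).2 (Eventually.of_forall fun τ hτ e he =>
      (hasDerivAt_H (r τ) (fun n => s n τ) e fun n => by
        linarith [(abs_le.1 (small e he _ (bs n τ hτ))).1]).const_mul (w τ)))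
  · simpa using key.2
  · rw [norm_mul, norm_mul]
    refine mul_le_mul_of_nonneg_left (mul_le_mul ?_ ?_ (norm_nonneg _) (by positivity))
      (norm_nonneg _)
    · rw [norm_prod]
      refine (Finset.prod_le_prod (g := fun _ => (2 : ℝ)) (fun _ _ => norm_nonneg _)
        fun n _ => ?_).trans (by simp)
      have h1 := (abs_le.1 (small e he _ (bs n τ hτ))).1
      rw [Real.norm_of_nonneg (Real.rpow_nonneg (by linarith) _)]
      calc (1 + e * s n τ) ^ (-(1 / 3) : ℝ) ≤ (1 / 2 : ℝ) ^ (-(1 / 3) : ℝ) :=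
            Real.rpow_le_rpow_of_nonpos (by norm_num) (by linarith) (by norm_num)
        _ ≤ (1 / 2 : ℝ) ^ (-1 : ℝ) :=
            Real.rpow_le_rpow_of_exponent_ge (by norm_num) (by norm_num) (by norm_num)
        _ = 2 := by rw [Real.rpow_neg_one]; norm_num
    · have h1 : |∑ n, s n τ / (1 + e * s n τ)| ≤ 10 * B := by
        refine (Finset.abs_sum_le_sum_abs _ _).trans
          ((Finset.sum_le_card_nsmul _ _ (2 * B) fun n _ => ?_).trans (by simp; linarith))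
        have h1 := (abs_le.1 (small e he _ (bs n τ hτ))).1
        rw [abs_div, abs_of_pos (show 0 < 1 + e * s n τ by linarith), div_le_iff₀ (by linarith)]
        nlinarith [bs n τ hτ]
      have h2 := abs_le.1 (small e he _ (br τ hτ))
      have h3 : |(1 + e * r τ) * (1 / 3) * ∑ n, s n τ / (1 + e * s n τ)| ≤ 1 / 2 * (10 * B) := by
        rw [abs_mul]
        exact mul_le_mul (abs_le.2 ⟨by linarith, by linarith⟩) h1 (abs_nonneg _) (by norm_num)
      rw [Real.norm_eq_abs]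
      linarith [abs_sub (r τ) ((1 + e * r τ) * (1 / 3) * ∑ n, s n τ / (1 + e * s n τ)), br τ hτ]

/-- the base point -/
def l0 : Fin 5 → ℝ := fun n => (n : ℕ)

theorem l0_mono : StrictMono l0 := fun _ _ h => by
  simp only [l0, Nat.cast_lt]; exact h

/-- the vector field -/
def Xp (c : Fin 4 → ℝ) (x : ℝ) : ℝ := c 0 * x + c 1 * x ^ 2 + c 2 * x ^ 3 + c 3 * x ^ 4

def Xd (c : Fin 4 → ℝ) (x : ℝ) : ℝ := c 0 + 2 * c 1 * x + 3 * c 2 * x ^ 2 + 4 * c 3 * x ^ 3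

def Xq (c : Fin 4 → ℝ) (x a : ℝ) : ℝ :=
  c 0 + c 1 * (x + a) + c 2 * (x ^ 2 + x * a + a ^ 2) + c 3 * (x ^ 3 + x ^ 2 * a + x * a ^ 2 + a ^ 3)

theorem hasDerivAt_Xp (c : Fin 4 → ℝ) (x : ℝ) : HasDerivAt (Xp c) (Xd c x) x := by
  have h := ((((hasDerivAt_id x).const_mul (c 0)).add ((hasDerivAt_pow 2 x).const_mul (c 1))).add
    ((hasDerivAt_pow 3 x).const_mul (c 2))).add ((hasDerivAt_pow 4 x).const_mul (c 3))
  refine HasDerivAt.congr_deriv h ?_
  simp only [Xd]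
  push_cast
  ring

theorem hasDerivAt_hL {f : ℝ → C4} {f' : C4} {x : ℝ} (h : HasDerivAt f f' x) (r : C4) :
    HasDerivAt (fun t => hL (f t) r) (hL f' r) x := by
  have h1 := hasDerivAt_pi.1 h
  exact ((((h1 0).mul_const (conj (r 0))).neg.add ((h1 1).mul_const (conj (r 1)))).add
    ((h1 2).mul_const (conj (r 2)))).add ((h1 3).mul_const (conj (r 3)))

/-- the weight on the `k`-th interval -/
def wk (k : Fin 4) (τ : ℝ) : ℝ := W l0 ((k : ℕ) + τ)

theorem wk_int (hS : S_Seg) (k : Fin 4) : IntegrableOn (wk k) (Ioo 0 1) := by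
  have h := (seg_real hS l0_mono k).1
  unfold wk
  simpa [l0] using h

theorem wk_pos (k : Fin 4) {τ : ℝ} (hτ : τ ∈ Ioo (0 : ℝ) 1) : 0 < wk k τ := by
  unfold wk W
  refine Finset.prod_pos fun n _ => Real.rpow_pos_of_pos (abs_pos.2 fun h => ?_) _
  simp only [l0] at h
  rcases le_or_gt (n : ℕ) k with h1 | h1
  · have : ((n : ℕ) : ℝ) ≤ (k : ℕ) := by exact_mod_cast h1
    linarith [hτ.1]
  · have : ((k : ℕ) : ℝ) + 1 ≤ (n : ℕ) := by exact_mod_cast h1
    linarith [hτ.2]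

theorem deriv_eq (hH : S_Hol) (hS : S_Seg) (c : Fin 4 → ℝ) (k : Fin 4) :
    hL (fderiv ℂ YY (fun n => (l0 n : ℂ)) fun n => (Xp c (l0 n) : ℂ)) (rs k.castSucc.castSucc) =
      √3 * ((∫ τ in Ioo (0 : ℝ) 1, wk k τ *
        (Xd c ((k : ℕ) + τ) - (1 / 3) * ∑ n, Xq c ((k : ℕ) + τ) (l0 n)) : ℝ) : ℂ) := by
  obtain ⟨hO, P, hY, -⟩ := hH
  have h0 : (fun n => (l0 n : ℂ)) ∈ O := mem_O.2 l0_mono
  have hd : DifferentiableAt ℂ YY fun n => (l0 n : ℂ) :=
    (hY.contDiffAt (hO.mem_nhds h0)).differentiableAt (by simp)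
  have hl : HasDerivAt (fun e : ℝ => fun n => ((l0 n + e * Xp c (l0 n) : ℝ) : ℂ))
      (fun n => (Xp c (l0 n) : ℂ)) 0 := hasDerivAt_pi.2 fun n => by
    have := (((hasDerivAt_id (0 : ℝ)).mul_const (Xp c (l0 n))).const_add (l0 n)).ofReal_comp
    simpa using this
  have h1 : HasDerivAt (fun e : ℝ => YY fun n => ((l0 n + e * Xp c (l0 n) : ℝ) : ℂ))
      (fderiv ℂ YY (fun n => (l0 n : ℂ)) fun n => (Xp c (l0 n) : ℂ)) 0 :=
    (hd.hasFDerivAt.restrictScalars ℝ).comp_hasDerivAt_of_eq (0 : ℝ) hl (by simp)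
  have h2 := hasDerivAt_hL h1 (rs k.castSucc.castSucc)
  have cr : Continuous fun τ : ℝ => Xd c ((k : ℕ) + τ) := by unfold Xd; fun_prop
  have cs : ∀ n, Continuous fun τ : ℝ => Xq c ((k : ℕ) + τ) (l0 n) := fun n => by
    unfold Xq; fun_prop
  obtain ⟨B, hB⟩ := isCompact_Icc.exists_bound_of_continuousOn (s := Icc (0 : ℝ) 1)
    (f := fun τ : ℝ => (Xd c ((k : ℕ) + τ), fun n => Xq c ((k : ℕ) + τ) (l0 n)))
    (cr.prodMk (continuous_pi cs)).continuousOn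
  have br : ∀ τ ∈ Icc (0 : ℝ) 1, |Xd c ((k : ℕ) + τ)| ≤ |B| + 1 := fun τ hτ =>
    ((norm_fst_le (Xd c ((k : ℕ) + τ), fun n => Xq c ((k : ℕ) + τ) (l0 n))).trans (hB τ hτ)).trans
      (by linarith [le_abs_self B])
  have bs : ∀ n, ∀ τ ∈ Icc (0 : ℝ) 1, |Xq c ((k : ℕ) + τ) (l0 n)| ≤ |B| + 1 := fun n τ hτ =>
    (((norm_le_pi_norm (fun n => Xq c ((k : ℕ) + τ) (l0 n)) n).trans
      (norm_snd_le (Xd c ((k : ℕ) + τ), fun n => Xq c ((k : ℕ) + τ) (l0 n)))).trans (hB τ hτ)).trans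
      (by linarith [le_abs_self B])
  have hB0 : 0 < |B| + 1 := by positivity
  have h3 := ((hasDerivAt_int (wk_int hS k) cr cs hB0 (fun τ hτ => br τ (Ioo_subset_Icc_self hτ))
    (fun n τ hτ => bs n τ (Ioo_subset_Icc_self hτ))).ofReal_comp).const_mul ((√3 : ℝ) : ℂ)
  refine h2.unique (h3.congr_of_eventuallyEq ?_)
  have e1 : ∀ᶠ e : ℝ in 𝓝 0, (fun n => ((l0 n + e * Xp c (l0 n) : ℝ) : ℂ)) ∈ O :=
    hl.continuousAt.eventually (hO.mem_nhds (by simpa using h0))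
  filter_upwards [e1, Metric.ball_mem_nhds (0 : ℝ) (show 0 < 1 / (|B| + 1) by positivity)]
    with e he hb
  have small : ∀ t : ℝ, |t| ≤ |B| + 1 → 0 < 1 + e * t := fun t ht => by
    rw [mem_ball_zero_iff, Real.norm_eq_abs, lt_div_iff₀ hB0] at hb
    have : |e * t| < 1 := by rw [abs_mul]; nlinarith [abs_nonneg e, abs_nonneg t]
    linarith [(abs_lt.1 this).1]
  rw [(seg_real hS (mem_O.1 he) k).2]
  have h4 := cov (φ := fun τ => ((k : ℕ) + τ) + e * Xp c ((k : ℕ) + τ))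
    (φ' := fun τ => 1 + e * Xd c ((k : ℕ) + τ))
    (fun x => ((hasDerivAt_id x).const_add _).add
      ((HasDerivAt.comp_const_add _ x (hasDerivAt_Xp c _)).const_mul e))
    (fun τ hτ => small _ (br τ hτ)) (W fun n => l0 n + e * Xp c (l0 n))
  have a1 : l0 k.castSucc = (k : ℕ) + 0 := by simp [l0]
  have a2 : l0 k.succ = (k : ℕ) + 1 := by simp [l0]
  rw [a1, a2, h4]
  congr 2
  refine setIntegral_congr_fun measurableSet_Ioo fun τ hτ => ?_
  have a3 : ∀ n, |((k : ℕ) + τ) + e * Xp c ((k : ℕ) + τ) - (l0 n + e * Xp c (l0 n))| ^ (-(1 / 3) : ℝ)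
      = |(k : ℕ) + τ - l0 n| ^ (-(1 / 3) : ℝ) *
        (1 + e * Xq c ((k : ℕ) + τ) (l0 n)) ^ (-(1 / 3) : ℝ) := fun n => by
    have hp := small _ (bs n τ (Ioo_subset_Icc_self hτ))
    rw [← Real.mul_rpow (abs_nonneg _) hp.le, ← abs_of_pos hp, ← abs_mul]
    congr 2
    simp only [Xp, Xq]
    ring
  simp only [W, wk, a3, Finset.prod_mul_distrib]
  ring

/-- the moment matrix -/
def MM : Matrix (Fin 4) (Fin 4) ℝ :=
  Matrix.of fun k j => ∫ τ in Ioo (0 : ℝ) 1, wk k τ * ((k : ℕ) + τ) ^ (j : ℕ)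

theorem int_mul (hS : S_Seg) (k : Fin 4) {f : ℝ → ℝ} (hf : Continuous f) :
    IntegrableOn (fun τ => wk k τ * f τ) (Ioo 0 1) := by
  rw [← integrableOn_Icc_iff_integrableOn_Ioo]
  exact ((integrableOn_Icc_iff_integrableOn_Ioo).2 (wk_int hS k)).mul_continuousOn hf.continuousOn
    isCompact_Icc

theorem mulVec_eq (hS : S_Seg) (q : Fin 4 → ℝ) (k : Fin 4) :
    MM.mulVec q k = ∫ τ in Ioo (0 : ℝ) 1, wk k τ * ∑ j, q j * ((k : ℕ) + τ) ^ (j : ℕ) := by
  simp only [Matrix.mulVec, dotProduct, MM, Matrix.of_apply, Finset.mul_sum]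
  rw [integral_finsetSum _ fun j _ => int_mul hS k (by fun_prop)]
  refine Finset.sum_congr rfl fun j _ => ?_
  rw [← integral_mul_const]
  congr 1
  funext τ
  ring

theorem pos_int (hS : S_Seg) (k : Fin 4) {f : ℝ → ℝ} (hf : Continuous f)
    (h : ∀ τ ∈ Ioo (0 : ℝ) 1, 0 < f τ) : 0 < ∫ τ in Ioo (0 : ℝ) 1, wk k τ * f τ := by
  rw [← integral_Ioc_eq_integral_Ioo, ← intervalIntegral.integral_of_le zero_le_one]
  exact intervalIntegral.intervalIntegral_pos_of_pos_on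
    ((intervalIntegrable_iff_integrableOn_Ioo_of_le zero_le_one).2 (int_mul hS k hf))
    (fun τ hτ => mul_pos (wk_pos k hτ) (h τ hτ)) zero_lt_one

theorem exists_root (hS : S_Seg) (k : Fin 4) {f : ℝ → ℝ} (hf : Continuous f)
    (h : ∫ τ in Ioo (0 : ℝ) 1, wk k τ * f τ = 0) : ∃ τ ∈ Ioo (0 : ℝ) 1, f τ = 0 := by
  by_contra hn
  push Not at hn
  have h1 : ∃ a ∈ Ioo (0 : ℝ) 1, f a ≤ 0 := by
    by_contra h1
    push Not at h1
    exact (pos_int hS k hf h1).ne' h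
  have h2 : ∃ b ∈ Ioo (0 : ℝ) 1, 0 ≤ f b := by
    by_contra h2
    push Not at h2
    have := pos_int hS k (f := fun τ => -f τ) hf.neg fun τ hτ => neg_pos.2 (h2 τ hτ)
    simp only [mul_neg, integral_neg, h] at this
    simp at this
  obtain ⟨a, ha, ha'⟩ := h1
  obtain ⟨b, hb, hb'⟩ := h2
  obtain ⟨x, hx, hx0⟩ := isPreconnected_Ioo.intermediate_value ha hb hf.continuousOn ⟨ha', hb'⟩
  exact hn x hx hx0

theorem MM_surj (hS : S_Seg) : Function.Surjective MM.mulVec := by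
  rw [Matrix.mulVec_surjective_iff_isUnit, ← Matrix.mulVec_injective_iff_isUnit]
  have key : ∀ q : Fin 4 → ℝ, MM.mulVec q = 0 → q = 0 := fun q hq => by
    have h1 : ∀ k : Fin 4, ∃ τ ∈ Ioo (0 : ℝ) 1, ∑ j, q j * ((k : ℕ) + τ) ^ (j : ℕ) = 0 := fun k =>
      exists_root hS k (by fun_prop) (by rw [← mulVec_eq hS, hq]; rfl)
    choose τ hτ h2 using h1
    refine Matrix.eq_zero_of_forall_index_sum_mul_pow_eq_zero
      (f := fun k : Fin 4 => ((k : ℕ) : ℝ) + τ k) (StrictMono.injective fun a b hab => ?_) h2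
    have : ((a : ℕ) : ℝ) + 1 ≤ (b : ℕ) := by exact_mod_cast hab
    linarith [(hτ a).2, (hτ b).1]
  intro q q' h
  exact sub_eq_zero.1 (key _ (by rw [Matrix.mulVec_sub, h, sub_self]))

theorem exists_real (hH : S_Hol) (hS : S_Seg) (t : Fin 4 → ℝ) : ∃ a : Fin 5 → ℂ, ∀ k : Fin 4,
    hL (fderiv ℂ YY (fun n => (l0 n : ℂ)) a) (rs k.castSucc.castSucc) = t k := by
  obtain ⟨q, hq⟩ := MM_surj hS fun k => t k / √3
  obtain ⟨c3, h3⟩ : ∃ x : ℝ, x = 3 / 7 * q 3 := ⟨_, rfl⟩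
  obtain ⟨c2, h2⟩ : ∃ x : ℝ, x = 3 / 4 * (q 2 + 10 / 3 * c3) := ⟨_, rfl⟩
  obtain ⟨c1, h1⟩ : ∃ x : ℝ, x = 3 * (q 1 + 10 / 3 * c2 + 10 * c3) := ⟨_, rfl⟩
  obtain ⟨c0, h0⟩ : ∃ x : ℝ, x = -(3 / 2) * (q 0 + 10 / 3 * c1 + 10 * c2 + 100 / 3 * c3) := ⟨_, rfl⟩
  refine ⟨_, fun k => (deriv_eq hH hS ![c0, c1, c2, c3] k).trans ?_⟩
  have e : ∀ x : ℝ, Xd ![c0, c1, c2, c3] x - (1 / 3) * ∑ n, Xq ![c0, c1, c2, c3] x (l0 n)
      = ∑ j, q j * x ^ (j : ℕ) := fun x => by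
    simp only [Xd, Xq, l0, Fin.sum_univ_five, Fin.sum_univ_four, Matrix.cons_val]
    rw [h0, h1, h2, h3]
    norm_num
    ring
  simp only [e]
  rw [← mulVec_eq hS, hq]
  have : (√3 : ℝ) ≠ 0 := by positivity
  rw [← Complex.ofReal_mul, mul_div_cancel₀ _ this]

end NVP

open NVP in
theorem pNV (hH : S_Hol) (hS : S_Seg) : S_NV := by
  refine ⟨_, mem_O.2 l0_mono, fun y => ?_⟩
  obtain ⟨a, ha⟩ := exists_real hH hS fun k => (hL y (rs k.castSucc.castSucc)).re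
  obtain ⟨b, hb⟩ := exists_real hH hS fun k => (hL y (rs k.castSucc.castSucc)).im
  refine ⟨a + Complex.I • b, ?_⟩
  rw [map_add, map_smul]
  generalize fderiv ℂ YY (fun n => (l0 n : ℂ)) a = u at ha ⊢
  generalize fderiv ℂ YY (fun n => (l0 n : ℂ)) b = v at hb ⊢
  have key : ∀ k : Fin 4, hL u (rs k.castSucc.castSucc) + Complex.I * hL v (rs k.castSucc.castSucc)
      = hL y (rs k.castSucc.castSucc) := fun k => by
    rw [ha, hb, mul_comm, Complex.re_add_im]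
  have k0 : hL u (rs 0) + Complex.I * hL v (rs 0) = hL y (rs 0) := key 0
  have k1 : hL u (rs 1) + Complex.I * hL v (rs 1) = hL y (rs 1) := key 1
  have k2 : hL u (rs 2) + Complex.I * hL v (rs 2) = hL y (rs 2) := key 2
  have k3 : hL u (rs 3) + Complex.I * hL v (rs 3) = hL y (rs 3) := key 3
  simp [hL, rs] at k0 k1 k2 k3
  funext i
  simp only [Pi.add_apply, Pi.smul_apply, smul_eq_mul]
  fin_cases i
  · show u 0 + Complex.I * v 0 = y 0
    linear_combination k0 + k1 + k2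
  · exact k0
  · exact k2
  · show u 3 + Complex.I * v 3 = y 3
    linear_combination k0 + k1 - k3

end Pool.Agent.P.MP_5d7cf0_gt
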