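import Pool.Agent.P.MP_5d7cf0_gt.St

/-!
Naturality of the curvature tensor under local isometries.
-/

set_option maxSynthPendingDepth 3

open Set Filter Topology
open scoped ContDiff

namespace Pool.Agent.P.MP_5d7cf0_gt

namespace NatP

section hd

variable {F G : Type} [NormedAddCommGroup F] [NormedSpace ℝ F] [NormedAddCommGroup G]
  [NormedSpace ℝ G]

/-- `f` is differentiable at `y` with directional derivatives `f'`. -/
def HD (f : E → F) (y : E) (f' : E → F) : Prop :=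
  ∃ L : E →L[ℝ] F, HasFDerivAt f L y ∧ ∀ u, L u = f' u

theorem HD.eq {f f' : E → F} {y : E} (h : HD f y f') (u : E) : fderiv ℝ f y u = f' u := by
  obtain ⟨L, h1, h2⟩ := h
  rw [h1.fderiv, h2]

theorem HD.of {f : E → F} {y : E} (h : DifferentiableAt ℝ f y) :
    HD f y fun u => fderiv ℝ f y u := ⟨_, h.hasFDerivAt, fun _ => rfl⟩

theorem HD.comp {f : E → F} {φ : E → E} {y : E} (h : DifferentiableAt ℝ f (φ y))
    (hφ : DifferentiableAt ℝ φ y) :
    HD (fun y => f (φ y)) y fun u => fderiv ℝ f (φ y) (fderiv ℝ φ y u) :=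
  ⟨_, h.hasFDerivAt.comp y hφ.hasFDerivAt, fun _ => rfl⟩

theorem HD.app {f f' : E → F →L[ℝ] G} {a a' : E → F} {y : E} (h : HD f y f') (ha : HD a y a') :
    HD (fun y => f y (a y)) y fun u => f' u (a y) + f y (a' u) := by
  obtain ⟨L, h1, h2⟩ := h
  obtain ⟨M, h3, h4⟩ := ha
  refine ⟨_, h1.clm_apply h3, fun u => ?_⟩
  simp [h2, h4, add_comm]

theorem HD.appc {f f' : E → F →L[ℝ] G} {y : E} (h : HD f y f') (a : F) :
    HD (fun y => f y a) y fun u => f' u a := by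
  obtain ⟨L, h1, h2⟩ := h
  refine ⟨_, h1.clm_apply (hasFDerivAt_const a y), fun u => ?_⟩
  simp [h2]

theorem HD.add {f f' k k' : E → F} {y : E} (h : HD f y f') (hk : HD k y k') :
    HD (fun y => f y + k y) y fun u => f' u + k' u := by
  obtain ⟨L, h1, h2⟩ := h
  obtain ⟨M, h3, h4⟩ := hk
  exact ⟨_, h1.add h3, fun u => by simp [h2, h4]⟩

theorem HD.sub {f f' k k' : E → F} {y : E} (h : HD f y f') (hk : HD k y k') :
    HD (fun y => f y - k y) y fun u => f' u - k' u := by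
  obtain ⟨L, h1, h2⟩ := h
  obtain ⟨M, h3, h4⟩ := hk
  exact ⟨_, h1.sub h3, fun u => by simp [h2, h4]⟩

theorem HD.cmul {f f' : E → ℝ} {y : E} (h : HD f y f') (c : ℝ) :
    HD (fun y => c * f y) y fun u => c * f' u := by
  obtain ⟨L, h1, h2⟩ := h
  exact ⟨_, h1.const_mul c, fun u => by simp [h2]⟩

theorem HD.congr {f f' k : E → F} {y : E} (h : HD f y f') (e : k =ᶠ[𝓝 y] f) : HD k y f' := by
  obtain ⟨L, h1, h2⟩ := h
  exact ⟨L, h1.congr_of_eventuallyEq e, h2⟩

end hd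

theorem kos_apply (g : Met) (x u v w : E) : kos g x u v w =
    1 / 2 * (fderiv ℝ g x u v w + fderiv ℝ g x v u w - fderiv ℝ g x w u v) := by
  simp [kos]

/-- The pulled back field of forms is as smooth as the data. -/
theorem pb_smooth {n : WithTop ℕ∞} {g : Met} {G : E → E →L[ℝ] E →L[ℝ] ℝ} {A : E → E →L[ℝ] E}
    {y : E} (hG : ContDiffAt ℝ n G y) (hA : ContDiffAt ℝ n A y)
    (h : ∀ᶠ z in 𝓝 y, ∀ a b, g z a b = G z (A z a) (A z b)) : ContDiffAt ℝ n g y := by
  have fl : ContDiff ℝ n (fun B : E →L[ℝ] E →L[ℝ] ℝ => B.flip) :=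
    (ContinuousLinearMap.flipₗᵢ ℝ E E ℝ).toContinuousLinearEquiv.contDiff
  have h1 : ContDiffAt ℝ n (fun z => ((G z).comp (A z)).flip) y :=
    fl.contDiffAt.comp y (hG.clm_comp hA)
  have h2 : ContDiffAt ℝ n (fun z => ((((G z).comp (A z)).flip).comp (A z)).flip) y :=
    fl.contDiffAt.comp y (h1.clm_comp hA)
  refine h2.congr_of_eventuallyEq (h.mono fun z hz => ?_)
  ext a b
  exact hz a b

/-- The derivative of a symmetric field is symmetric. -/
theorem fderiv_symm {g : Met} {y : E} (hg : DifferentiableAt ℝ g y)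
    (h : ∀ᶠ z in 𝓝 y, ∀ a b, g z a b = g z b a) (u a b : E) :
    fderiv ℝ g y u a b = fderiv ℝ g y u b a := by
  have h1 := (((HD.of hg).appc a).appc b).eq u
  have h2 := ((((HD.of hg).appc b).appc a).congr (k := fun z => g z a b)
    (h.mono fun z hz => hz a b)).eq u
  rw [← h1, h2]

/-- The symbols of the first kind of a pulled back metric. -/
theorem kos_pb {g g' : Met} {φ : E → E} {y : E} (hφ : ContDiffAt ℝ 2 φ y)
    (hg' : ContDiffAt ℝ 1 g' (φ y)) (hs : ∀ a b, g' (φ y) a b = g' (φ y) b a)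
    (h : ∀ᶠ z in 𝓝 y, ∀ a b, g z a b = g' (φ z) (fderiv ℝ φ z a) (fderiv ℝ φ z b)) (u v w : E) :
    kos g y u v w = kos g' (φ y) (fderiv ℝ φ y u) (fderiv ℝ φ y v) (fderiv ℝ φ y w) +
      g' (φ y) (fderiv ℝ (fderiv ℝ φ) y u v) (fderiv ℝ φ y w) := by
  have hA : ContDiffAt ℝ 1 (fderiv ℝ φ) y := hφ.fderiv_right (by norm_num)
  have hφ1 : ContDiffAt ℝ 1 φ y := hφ.of_le (by norm_num)
  have hg : ContDiffAt ℝ 1 g y := pb_smooth (G := fun z => g' (φ z)) (hg'.comp y hφ1) hA h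
  have dA := HD.of (hA.differentiableAt one_ne_zero)
  have dG := HD.comp (hg'.differentiableAt one_ne_zero) (hφ1.differentiableAt one_ne_zero)
  have key : ∀ t a b, fderiv ℝ g y t a b =
      fderiv ℝ g' (φ y) (fderiv ℝ φ y t) (fderiv ℝ φ y a) (fderiv ℝ φ y b) +
        g' (φ y) (fderiv ℝ (fderiv ℝ φ) y t a) (fderiv ℝ φ y b) +
        g' (φ y) (fderiv ℝ φ y a) (fderiv ℝ (fderiv ℝ φ) y t b) := fun t a b => by
    have h1 := (((HD.of (hg.differentiableAt one_ne_zero)).appc a).appc b).eq t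
    have h2 := (((dG.app (dA.appc a)).app (dA.appc b)).congr (k := fun z => g z a b)
      (h.mono fun z hz => hz a b)).eq t
    rw [← h1, h2]
    simp only [add_apply]
  have hB : ∀ a b, fderiv ℝ (fderiv ℝ φ) y a b = fderiv ℝ (fderiv ℝ φ) y b a :=
    (hφ.isSymmSndFDerivAt (by simp)).eq
  rw [kos_apply, kos_apply, key, key, key, hB v u, hB w u, hB w v,
    hs (fderiv ℝ φ y v) (fderiv ℝ (fderiv ℝ φ) y u w)]
  ring

/-- The derivative of the symbols along a map. -/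
theorem kos_hd {g' : Met} {φ a a' b b' c c' : E → E} {x : E} (hφ : DifferentiableAt ℝ φ x)
    (hg' : ContDiffAt ℝ 2 g' (φ x)) (ha : HD a x a') (hb : HD b x b') (hc : HD c x c') :
    HD (fun y => kos g' (φ y) (a y) (b y) (c y)) x fun u =>
      fderiv ℝ (fun p => kos g' p (a x) (b x) (c x)) (φ x) (fderiv ℝ φ x u) +
        kos g' (φ x) (a' u) (b x) (c x) + kos g' (φ x) (a x) (b' u) (c x) +
        kos g' (φ x) (a x) (b x) (c' u) := by
  have hD : DifferentiableAt ℝ (fderiv ℝ g') (φ x) :=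
    (hg'.fderiv_right (m := 1) (by norm_num)).differentiableAt one_ne_zero
  have d0 := HD.of hD
  have d1 := HD.comp hD hφ
  have e0 := ((((((d0.appc (a x)).appc (b x)).appc (c x)).add
    (((d0.appc (b x)).appc (a x)).appc (c x))).sub
    (((d0.appc (c x)).appc (a x)).appc (b x))).cmul (1 / 2)).eq
  obtain ⟨L, h1, h2⟩ := (((((d1.app ha).app hb).app hc).add (((d1.app hb).app ha).app hc)).sub
    (((d1.app hc).app ha).app hb)).cmul (1 / 2)
  simp only [kos_apply]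
  refine ⟨L, h1, fun u => ?_⟩
  rw [h2]
  beta_reduce
  rw [e0]
  simp only [add_apply]
  ring

end NatP

open NatP in
theorem pNat (hRm : S_Rm) : S_Nat := by
  intro g g' φ x hφ hinj hg' hs hpos h u v
  have hφ3 : ContDiffAt ℝ 3 φ x := hφ.of_le (WithTop.coe_le_coe.2 (le_top (a := (3 : ℕ∞))))
  have hφ2 : ContDiffAt ℝ 2 φ x := hφ3.of_le (by norm_num)
  have hg2 : ContDiffAt ℝ 2 g' (φ x) := hg'.of_le (WithTop.coe_le_coe.2 (le_top (a := (2 : ℕ∞))))
  have hA : ContDiffAt ℝ 2 (fderiv ℝ φ) x := hφ3.fderiv_right (by norm_num)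
  have hB : ContDiffAt ℝ 1 (fderiv ℝ (fderiv ℝ φ)) x := hA.fderiv_right (by norm_num)
  have dφ : DifferentiableAt ℝ φ x := hφ2.differentiableAt two_ne_zero
  have hg : ContDiffAt ℝ 2 g x := pb_smooth (G := fun z => g' (φ z)) (hg2.comp x hφ2) hA h
  have hs1 : ∀ᶠ y in 𝓝 x, ∀ a b, g' (φ y) a b = g' (φ y) b a := dφ.continuousAt.eventually hs
  have hs0 := hs.self_of_nhds
  have h0 := h.self_of_nhds
  obtain ⟨c1, r1⟩ := hRm g x hg (by
    filter_upwards [h, hs1] with y h1 h2 a b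
    rw [h1, h1, h2]) (fun a ha => by
    rw [h0]
    exact hpos _ fun e => ha (hinj (e.trans (map_zero _).symm)))
  obtain ⟨c2, r2⟩ := hRm g' (φ x) hg2 hs hpos
  have hk : ∀ᶠ y in 𝓝 x, ∀ a b c, kos g y a b c =
      kos g' (φ y) (fderiv ℝ φ y a) (fderiv ℝ φ y b) (fderiv ℝ φ y c) +
        g' (φ y) (fderiv ℝ (fderiv ℝ φ) y a b) (fderiv ℝ φ y c) := by
    filter_upwards [hφ2.eventually (by simp), dφ.continuousAt.eventually
      ((hg2.of_le (m := 1) (by norm_num)).eventually (by simp)), hs1, h.eventually_nhds]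
      with y h1 h2 h3 h4
    exact kos_pb h1 h2 h3 h4
  have hsurj : Function.Surjective (fderiv ℝ φ x) :=
    (LinearMap.injective_iff_surjective (f := (fderiv ℝ φ x : E →ₗ[ℝ] E))).1 hinj
  have hchr : ∀ a b, fderiv ℝ φ x (chr g x a b) =
      chr g' (φ x) (fderiv ℝ φ x a) (fderiv ℝ φ x b) + fderiv ℝ (fderiv ℝ φ) x a b := by
    intro a b
    by_contra hne
    have h1 := hpos _ (sub_ne_zero.2 hne)
    obtain ⟨w, hw⟩ := hsurj (fderiv ℝ φ x (chr g x a b) -
      (chr g' (φ x) (fderiv ℝ φ x a) (fderiv ℝ φ x b) + fderiv ℝ (fderiv ℝ φ) x a b))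
    nth_rewrite 2 [← hw] at h1
    rw [map_sub, map_add, sub_apply, add_apply, ← h0, c1,
      c2, hk.self_of_nhds, sub_self] at h1
    exact lt_irrefl _ h1
  have dA := HD.of (hA.differentiableAt two_ne_zero)
  have dB := HD.of (hB.differentiableAt one_ne_zero)
  have dG := HD.comp (hg2.differentiableAt two_ne_zero) dφ
  have dk : ∀ a b c t, fderiv ℝ (fun y => kos g y a b c) x t = _ := fun a b c =>
    (((kos_hd dφ hg2 (dA.appc a) (dA.appc b) (dA.appc c)).add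
      ((dG.app ((dB.appc a).appc b)).app (dA.appc c))).congr (k := fun y => kos g y a b c)
      (hk.mono fun y hy => hy a b c)).eq
  have sB : ∀ a b, fderiv ℝ (fderiv ℝ φ) x a b = fderiv ℝ (fderiv ℝ φ) x b a :=
    (hφ2.isSymmSndFDerivAt (by simp)).eq
  have sT : ∀ a b, fderiv ℝ (fderiv ℝ (fderiv ℝ φ)) x a b =
      fderiv ℝ (fderiv ℝ (fderiv ℝ φ)) x b a := (hA.isSymmSndFDerivAt (by simp)).eq
  have sD := fderiv_symm (hg2.differentiableAt two_ne_zero) hs
  have cm : ∀ a b c, fderiv ℝ g' (φ x) a b c = kos g' (φ x) a b c + kos g' (φ x) a c b := by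
    intro a b c
    rw [kos_apply, kos_apply, sD a c b]
    ring
  have gg : ∀ a b c d, g x (chr g x a b) (chr g x c d) =
      g' (φ x) (chr g' (φ x) (fderiv ℝ φ x a) (fderiv ℝ φ x b))
        (chr g' (φ x) (fderiv ℝ φ x c) (fderiv ℝ φ x d)) +
      kos g' (φ x) (fderiv ℝ φ x a) (fderiv ℝ φ x b) (fderiv ℝ (fderiv ℝ φ) x c d) +
      kos g' (φ x) (fderiv ℝ φ x c) (fderiv ℝ φ x d) (fderiv ℝ (fderiv ℝ φ) x a b) +
      g' (φ x) (fderiv ℝ (fderiv ℝ φ) x a b) (fderiv ℝ (fderiv ℝ φ) x c d) := by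
    intro a b c d
    rw [h0, hchr, hchr, ← c2, ← c2, hs0 (chr g' (φ x) (fderiv ℝ φ x c) (fderiv ℝ φ x d))
      (fderiv ℝ (fderiv ℝ φ) x a b)]
    simp only [map_add, add_apply]
    ring
  rw [r1, r2, dk, dk, gg, gg]
  simp only [add_apply]
  rw [cm (fderiv ℝ φ x u), cm (fderiv ℝ φ x v), sT v u, sB v u]
  ring

end Pool.Agent.P.MP_5d7cf0_gt
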