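import Pool.Agent.P.MP_5d7cf0_gt.OutA

/-!
Estimates for the metric on the region of normal forms.
-/

open Set Filter Topology MeasureTheory ComplexConjugate
open scoped ContDiff

namespace Pool.Agent.P.MP_5d7cf0_gt

namespace OutP

theorem le_max_of_cube {a b c : ℝ} (hb : 0 ≤ b) (h : a ^ 3 ≤ c * b ^ 3) : a ≤ max 1 c * b := by
  refine le_of_pow_le_pow_left₀ (n := 3) (by norm_num) (by positivity) (h.trans ?_)
  rw [mul_pow]
  refine mul_le_mul_of_nonneg_right ?_ (by positivity)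
  exact (le_max_right 1 c).trans (le_self_pow₀ (le_max_left 1 c) (by norm_num))

theorem tlog {t : ℝ} (h0 : 0 < t) (h2 : t ≤ 2) : t ^ 2 * (1 + Real.log (t ^ 3) ^ 2) ≤ 40 := by
  have h : |Real.log t * t| ≤ 2 := by
    rcases le_total t 1 with h1 | h1
    · linarith [Real.abs_log_mul_self_lt t h0 h1]
    · have := Real.log_le_sub_one_of_pos h0
      have := Real.log_nonneg h1
      rw [abs_of_nonneg (by positivity)]
      nlinarith
  have := sq_le_sq' (abs_le.mp h).1 (abs_le.mp h).2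
  rw [Real.log_pow]
  push_cast
  nlinarith

theorem rootfac {t L d K a b : ℝ} (h0 : 0 < t) (h2 : t ≤ 2) (ha : 0 < a) (hK : 0 ≤ K)
    (lo : a * t ^ 2 ≤ Real.exp L) (hi : Real.exp L ≤ b * t ^ 2) (hd : d ≤ K / (1 + L ^ 2)) :
    (Real.exp L + d) / Real.exp L * (t ^ 2 * (1 + Real.log (t ^ 3) ^ 2)) ≤
      40 + K / a * (6 + 5 * (|Real.log a| + |Real.log b|) ^ 2) := by
  have he := Real.exp_pos L
  have hb : 0 < b := pos_of_mul_pos_left (he.trans_le hi) (by positivity)
  have h1 := Real.log_le_log (by positivity) lo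
  have h3 := Real.log_le_log he hi
  rw [Real.log_exp, Real.log_mul (by positivity) (by positivity), Real.log_pow] at h1 h3
  set Λ := |Real.log a| + |Real.log b|
  have h4 : |L - 2 * Real.log t| ≤ Λ := by
    have := neg_abs_le (Real.log a)
    have := le_abs_self (Real.log b)
    have := abs_nonneg (Real.log a)
    have := abs_nonneg (Real.log b)
    push_cast at h1 h3
    rw [abs_le]
    constructor <;> simp only [Λ] <;> linarith
  have h5 := sq_le_sq' (abs_le.mp h4).1 (abs_le.mp h4).2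
  have h6 : 1 + Real.log (t ^ 3) ^ 2 ≤ (6 + 5 * Λ ^ 2) * (1 + L ^ 2) := by
    rw [Real.log_pow]
    push_cast
    nlinarith [sq_nonneg (L + (L - 2 * Real.log t)), sq_nonneg (L - (L - 2 * Real.log t)),
      sq_nonneg (L * Λ), sq_nonneg L, sq_nonneg Λ]
  have h7 : d / Real.exp L * t ^ 2 ≤ K / a / (1 + L ^ 2) := by
    calc d / Real.exp L * t ^ 2 ≤ K / (1 + L ^ 2) / (a * t ^ 2) * t ^ 2 := by gcongr
      _ = K / a / (1 + L ^ 2) := by field_simp
  calc (Real.exp L + d) / Real.exp L * (t ^ 2 * (1 + Real.log (t ^ 3) ^ 2))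
      = t ^ 2 * (1 + Real.log (t ^ 3) ^ 2) +
        d / Real.exp L * t ^ 2 * (1 + Real.log (t ^ 3) ^ 2) := by field_simp
    _ ≤ 40 + K / a / (1 + L ^ 2) * ((6 + 5 * Λ ^ 2) * (1 + L ^ 2)) := by
        gcongr
        exact tlog h0 h2
    _ = 40 + K / a * (6 + 5 * Λ ^ 2) := by field_simp

theorem sum_bound {κ : Type} [Fintype κ] (hc : Fintype.card κ ≤ 3) {f : κ → ℝ} {r : ℝ}
    (hr : 0 ≤ r) (h : ∀ i, |f i| ≤ r) : |∑ i, f i| ≤ 3 * r := by
  refine (Finset.abs_sum_le_sum_abs _ _).trans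
    ((Finset.sum_le_card_nsmul _ _ r fun i _ => h i).trans ?_)
  rw [nsmul_eq_mul, Finset.card_univ]
  exact mul_le_mul_of_nonneg_right (by exact_mod_cast hc) hr

theorem re_sq (z : ℂ) : (2 * z.re) ^ 2 ≤ 4 * ‖z‖ ^ 2 := by
  have := sq_le_sq' (abs_le.mp (Complex.abs_re_le_norm z)).1 (abs_le.mp (Complex.abs_re_le_norm z)).2
  nlinarith

variable {κ : Type} [Fintype κ] {P : Pw (Option κ)} {K : ℝ}

theorem s_bounds (h : P.Good K) : (1 + P.m0 none - P.m1 none) / 2 ≤ P.s ∧ 1 / 2 ≤ P.s ∧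
    (1 + P.m0 none) / 2 ≤ 1 + ∑ o, P.m0 o ∧ 1 + ∑ o, P.m0 o ≤ 2 * (1 + P.m0 none) := by
  have h1 := abs_le.mp (sum_bound h.card (f := fun i => P.m0 (some i) - P.m1 (some i))
    (r := 2 / 1000) (by norm_num) fun i => by
      have := abs_le.mp (h.root i).h3
      exact abs_le.mpr ⟨by linarith [(h.root i).h2], by linarith [(h.root i).h1]⟩)
  have h2 := abs_le.mp (sum_bound h.card (f := fun i => P.m0 (some i)) (r := 1 / 1000)
    (by norm_num) fun i => (h.root i).h3)
  have := h.cusp.h1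
  have := h.cusp.h2
  rw [Pw.s, Fintype.sum_option, Fintype.sum_option]
  exact ⟨by linarith, by linarith, by linarith, by linarith⟩

theorem grad (hI : S_IneqA) (h : P.Good K) (hK : 1 ≤ K) {e dq : ℝ} {a : E} {d : κ → ℝ}
    (he : e = 1 + ∑ o, P.m0 o) (hq : e * dq = ∑ o, P.m1 o * (2 * (P.eps o a).re))
    (h1 : ∀ i, d i ^ 2 ≤ K * P.D (some i)) (h2 : ∀ i, d i ^ 2 ≤ K) :
    (dq + ∑ i, d i * (2 * (P.eps (some i) a).re)) ^ 2 ≤ 3969 * K * (P.H a a).re := by
  obtain ⟨-, i2, i3, -⟩ := hI κ P K h a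
  obtain ⟨s1, s2, s3, -⟩ := s_bounds h
  have hs := h.ok.spos
  have hm := h.cusp.h1
  set H := (P.H a a).re
  have hH : 0 ≤ H := le_trans (by positivity) i2
  obtain ⟨r, hr, hr2⟩ : ∃ r, 0 ≤ r ∧ r ^ 2 = K * H := ⟨√(K * H), Real.sqrt_nonneg _,
    Real.sq_sqrt (by positivity)⟩
  have hs' : 1 / P.s ≤ 2 := by rw [div_le_iff₀ hs]; linarith
  have key : ∀ (i : κ) (c : ℝ), c ^ 2 ≤ K * P.D (some i) → c ^ 2 ≤ K →
      |c * (2 * (P.eps (some i) a).re)| ≤ 4 * r := fun i c c1 c2 => by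
    have hD := h.ok.Dpos (some i)
    have c3 : c ^ 2 * (1 / P.D (some i)) ≤ K := by rw [mul_one_div, div_le_iff₀ hD]; exact c1
    have c4 : c ^ 2 * (1 / P.s) ≤ K * 2 := by gcongr
    refine abs_le_of_sq_le_sq' ?_ (by positivity) |> abs_le.mpr
    calc (c * (2 * (P.eps (some i) a).re)) ^ 2 = c ^ 2 * (2 * (P.eps (some i) a).re) ^ 2 := by ring
      _ ≤ c ^ 2 * (4 * (H * (1 / P.D (some i) + 1 / P.s))) := by
          gcongr
          linarith [re_sq (P.eps (some i) a), i3 i]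
      _ = 4 * H * (c ^ 2 * (1 / P.D (some i)) + c ^ 2 * (1 / P.s)) := by ring
      _ ≤ 4 * H * (K + K * 2) := by gcongr
      _ ≤ (4 * r) ^ 2 := by nlinarith
  have b1 := sum_bound h.card (by positivity) fun i => key i (d i) (h1 i) (h2 i)
  have b2 := sum_bound h.card (by positivity) fun i => key i (P.m1 (some i))
    (by
      have x0 : 0 ≤ P.x (some i) := mul_nonneg h.ok.ypos.le (sq_nonneg _)
      rw [Pw.D, h.unit]
      nlinarith [(h.root i).h1, (h.root i).h2])
    (by nlinarith [(h.root i).h1, (h.root i).h2])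
  have b3 : |P.m1 none * (2 * (P.eps none a).re)| ≤ 3 * (1 + P.m0 none) * r := by
    refine abs_le_of_sq_le_sq' ?_ (by positivity) |> abs_le.mpr
    calc (P.m1 none * (2 * (P.eps none a).re)) ^ 2
        = P.m1 none ^ 2 * (2 * (P.eps none a).re) ^ 2 := by ring
      _ ≤ K * (1 + P.m0 none) ^ 2 * (2 * P.s) * (4 * ‖P.eps none a‖ ^ 2) := by
          refine mul_le_mul (h.cusp.h8.trans ?_) (re_sq _) (sq_nonneg _) (by positivity)
          gcongr
          linarith
      _ = 8 * K * (1 + P.m0 none) ^ 2 * (P.s * ‖P.eps none a‖ ^ 2) := by ring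
      _ ≤ 9 * K * (1 + P.m0 none) ^ 2 * H := by gcongr; norm_num
      _ = (3 * (1 + P.m0 none) * r) ^ 2 := by rw [mul_pow, hr2]; ring
  have b4 : |dq| ≤ 30 * r := by
    rw [← he] at s3
    have e0 : 0 < e := by linarith
    refine le_of_mul_le_mul_left ?_ e0
    rw [← abs_of_pos e0, ← abs_mul, hq, abs_of_pos e0, Fintype.sum_option]
    refine (abs_add_le _ _).trans ?_
    nlinarith [mul_le_mul_of_nonneg_right s3 hr, mul_nonneg hm hr]
  have b5 := abs_le.mp ((abs_add_le _ _).trans (add_le_add b4 b1))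
  nlinarith [sq_le_sq' b5.1 b5.2]

end OutP

open OutP

theorem pOut (hN : S_NF) (hS : S_Sm) (hL' : S_Loc) (hI : S_IneqA) (hJ : S_IneqB) (hD : S_Det) :
    S_Out := by
  intro V ξ C η m ψ M l1 p1 ps K q c1 c2 h
  obtain ⟨a, ha, hb⟩ := hJ K
  have hK : 1 ≤ K := by simpa using (cusp0 h.pj).h7
  have hC := h.data.Cpos
  have h1 := h.col.pos
  set B2 := 40 + K / (c1 / C) * (6 + 5 * (|Real.log (c1 / C)| + |Real.log (c2 * C)|) ^ 2)
  have hB2 : 40 ≤ B2 := le_add_of_nonneg_right (by positivity)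
  set B3 := max 1 ((2 * C / c1) ^ 4 * K * 8)
  refine ⟨a, max (c2 ^ 4 * max 1 C * B2 ^ 3 * B3) (3969 * K), ha, ?_⟩
  rintro g rfl x hx
  obtain ⟨P, good, r1, r2, r3, r4, r5, r6, r7⟩ := model hN hS hL' hI h hx
  have hH := fun u => (hI _ P K good u).2.1
  have hs := good.ok.spos
  refine ⟨fun u hu => r1 u u ▸ (hI _ P K good u).1 hu, fun u v => ?_, ?_, fun u => ?_⟩
  · rw [r2]
    simp only [area, r1]
    exact ⟨neg_le_neg (hb _ P good u v).2, neg_nonpos.mpr (hb _ P good u v).1⟩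
  · simp only [dens, r1, hD _ P good.ok]
    refine ENNReal.ofReal_le_ofReal ?_
    have x1 : ‖x 0‖ < 2 * ‖x 1‖ := hx.2.1
    have x2 : ‖x 1‖ < 2 * ‖x 2‖ := hx.2.2.1
    have x3 : ‖x 2‖ < 2 := hx.2.2.2.1
    have y1 : 0 < ‖x 1‖ := by linarith [norm_nonneg (x 0)]
    have y2 : 0 < ‖x 2‖ := by linarith
    have y0 : 0 < ‖x 0‖ := norm_pos_iff.mpr (by simpa [br, pt] using hx.1 1 0 (by decide))
    have y3 : x 1 ≠ x 2 := by simpa [br, pt, sub_eq_zero] using hx.1 2 3 (by decide)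
    have w0 : wt none x = ‖x 1‖ / ‖x 2‖ := norm_div _ _
    have w1 : wt (some 0) x = ‖x 0‖ / ‖x 1‖ := norm_div _ _
    have w3 : wt (some 2) x = ‖x 2‖ := rfl
    have w0' : wt none x < 2 := by rwa [w0, div_lt_iff₀ y2]
    have w0p : 0 < wt none x := by rw [w0]; positivity
    have wp : ∀ i, 0 < wt (some i) x ∧ wt (some i) x ≤ 2 ^ 3 := fun i => by
      fin_cases i
      · exact ⟨w1 ▸ div_pos y0 y1, w1.le.trans (by rw [div_le_iff₀ y1]; linarith)⟩
      · refine ⟨norm_pos_iff.mpr (sub_ne_zero.mpr fun e => y3 ?_), (norm_sub_le _ _).trans ?_⟩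
        · exact (div_eq_one_iff_eq (norm_pos_iff.mp y2)).mp e.symm
        · rw [norm_one]
          change 1 + wt none x ≤ _
          linarith
      · exact ⟨y2, by change ‖x 2‖ ≤ _; linarith⟩
    obtain ⟨t, t0, t2, t3, t4⟩ : ∃ t : Fin 3 → ℝ, (∀ i, 0 < t i) ∧ (∀ i, t i ≤ 2) ∧
        (∀ i, wt (some i) x = t i ^ 3) ∧ ∀ i, wt (some i) x ^ (2 / 3 : ℝ) = t i ^ 2 := by
      have e : ∀ i, (wt (some i) x ^ (1 / 3 : ℝ)) ^ 3 = wt (some i) x := fun i => by
        rw [← Real.rpow_natCast, ← Real.rpow_mul (wp i).1.le]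
        norm_num
      refine ⟨fun i => wt (some i) x ^ (1 / 3 : ℝ), fun i => Real.rpow_pos_of_pos (wp i).1 _,
        fun i => le_of_pow_le_pow_left₀ (n := 3) (by norm_num) (by norm_num)
          ((e i).le.trans (wp i).2), fun i => (e i).symm, fun i => ?_⟩
      rw [← Real.rpow_natCast, ← Real.rpow_mul (wp i).1.le]
      norm_num
    have hV := h.data.posV x hx.1
    have lo := h.col.lo x hx
    have hi := h.col.hi x hx
    have v1 := h.data.v1 x hx
    have hest := h.data.est x hx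
    rw [← w3, t4] at lo hi v1 hest
    have t00 := t0 0
    have t01 := t0 1
    have t02 := t0 2
    have c2p : 0 < c2 := pos_of_mul_pos_left ((Real.exp_pos _).trans_le hi) (by positivity)
    have hy : P.y ≤ c2 * t 2 ^ 2 := le_of_mul_le_mul_right (by rw [r3]; linarith) hV
    have hW : ‖P.W‖ ^ 2 * (t 0 ^ 4 * t 1 ^ 4 * ‖x 1‖ ^ 4 * t 2 ^ 12) ≤ max 1 C * 1 := by
      refine le_max_of_cube zero_le_one ?_
      rw [one_pow, mul_one]
      refine le_of_eq_of_le ?_ r5
      rw [← w3, t3 1, t3 2, show ‖x 0‖ = t 0 ^ 3 * ‖x 1‖ by rw [← t3, w1]; field_simp]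
      ring
    let R : Fin 3 → ℝ := fun i => B2 / (t i ^ 2 * (1 + Real.log (t i ^ 3) ^ 2))
    have hR : ∏ o, P.D o / P.x o ≤ R 0 * R 1 * R 2 := by
      have x0 : ∀ o, 0 < P.x o := fun o =>
        mul_pos good.ok.ypos (pow_pos (norm_pos_iff.mpr (good.ok.ne o)) 2)
      have e0 : P.D none / P.x none = 1 := by
        rw [Pw.D, div_eq_one_iff_eq (x0 _).ne']
        rcases good.iso with b | b
        · rw [b]; ring
        · rw [b.2.2.1]; ring
      rw [Fintype.prod_option, e0, one_mul, ← Fin.prod_univ_three R]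
      refine (Finset.prod_le_prod (g := fun i : {i : Fin 3 // wt (some i) x < η} => R i)
        (fun i _ => (div_pos (good.ok.Dpos _) (x0 _)).le) fun i _ => ?_).trans ?_
      · have := t0 i
        refine (le_div_iff₀ (by positivity)).mpr ?_
        rw [Pw.D, good.unit, one_mul, (r6 i).1, (r6 i).2]
        obtain ⟨e1, e2⟩ := (hest (some i)).resolve_left fun b => absurd i.2 (not_lt.mpr b.1)
        have hξ := h.data.posξ (sp (some i)) x hx.1
        simp only [ex, t4] at e1 e2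
        refine rootfac (t0 i) (t2 i) (by positivity) (by linarith) ?_ ?_ (h.pk.vol _)
        · rw [Lg, Real.exp_add, Real.exp_log hξ, div_mul_eq_mul_div, div_le_iff₀ hC]
          nlinarith [mul_le_mul_of_nonneg_left e1 h1.le,
            mul_le_mul_of_nonneg_left lo (mul_pos hC hξ).le]
        · rw [Lg, Real.exp_add, Real.exp_log hξ]
          nlinarith [mul_le_mul_of_nonneg_left e2 c2p.le, mul_le_mul_of_nonneg_left hi hξ.le]
      · rw [← Finset.prod_subtype (Finset.univ.filter fun i => wt (some i) x < η) (by simp) R]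
        refine Finset.prod_le_prod_of_subset_of_one_le (Finset.filter_subset _ _)
          (fun i _ => by have := t0 i; positivity) fun i _ _ => ?_
        have := t0 i
        exact (one_le_div (by positivity)).mpr ((tlog (t0 i) (t2 i)).trans hB2)
    have lp : 0 < Real.log (4 / wt none x) :=
      Real.log_pos ((one_lt_div w0p).mpr (by linarith))
    set ℓ := Real.log (4 / wt none x) with hℓ
    have hs' : ℓ ^ (4 / 3 : ℝ) ≤ B3 * P.s := by
      obtain ⟨s1, -, -, s4⟩ := s_bounds good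
      refine le_max_of_cube hs.le ?_
      rw [← Real.rpow_natCast, ← Real.rpow_mul lp.le, show (4 / 3 : ℝ) * (3 : ℕ) = (4 : ℕ) by norm_num,
        Real.rpow_natCast]
      have b1 : ℓ ≤ 2 * C / c1 * (1 + P.m0 none) := by
        rw [div_mul_eq_mul_div, le_div_iff₀ h1]
        nlinarith [mul_le_mul_of_nonneg_left lo hC.le, mul_le_mul_of_nonneg_left v1 h1.le,
          mul_le_mul_of_nonneg_left (r4.le.trans s4) hC.le]
      have b2 : (1 + P.m0 none - P.m1 none) ^ 3 ≤ (2 * P.s) ^ 3 :=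
        pow_le_pow_left₀ (by linarith [good.cusp.h1, good.cusp.h2]) (by linarith) 3
      calc ℓ ^ 4 ≤ (2 * C / c1 * (1 + P.m0 none)) ^ 4 := by gcongr
        _ = (2 * C / c1) ^ 4 * (1 + P.m0 none) ^ 4 := mul_pow _ _ _
        _ ≤ (2 * C / c1) ^ 4 * (K * (2 * P.s) ^ 3) := by
            gcongr
            exact good.cusp.h7.trans (by gcongr)
        _ = (2 * C / c1) ^ 4 * K * 8 * P.s ^ 3 := by ring
    have lp' : 0 < ℓ ^ (4 / 3 : ℝ) := Real.rpow_pos_of_pos lp _
    have hyp := good.ok.ypos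
    calc P.y ^ 4 * ‖P.W‖ ^ 2 * (∏ o, P.D o / P.x o) / P.s
        = P.y ^ 4 * ‖P.W‖ ^ 2 * (∏ o, P.D o / P.x o) * (1 / P.s) := by ring
      _ ≤ (c2 * t 2 ^ 2) ^ 4 * (max 1 C / (t 0 ^ 4 * t 1 ^ 4 * ‖x 1‖ ^ 4 * t 2 ^ 12)) *
          (R 0 * R 1 * R 2) * (B3 / ℓ ^ (4 / 3 : ℝ)) := by
          have : 0 ≤ ∏ o, P.D o / P.x o := Finset.prod_nonneg fun o _ =>
            div_nonneg (good.ok.Dpos o).le (mul_nonneg hyp.le (sq_nonneg _))
          refine mul_le_mul ?_ (by rw [div_le_div_iff₀ hs lp']; linarith) (by positivity)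
            (by simp only [R]; positivity)
          gcongr
          rw [le_div_iff₀ (by positivity)]; linarith
      _ = c2 ^ 4 * max 1 C * B2 ^ 3 * B3 * maj x := by
          simp only [maj, pc, pl, ← hℓ]
          simp only [R, t3, w0]
          rw [← w3, t3 2]
          field_simp
      _ ≤ _ := by
          gcongr
          · unfold maj pc pl
            positivity
          · exact le_max_left _ _
  · rw [(r7 u).2, r1]
    refine (grad hI good hK r4 (r7 u).1 (fun i => ?_) fun i => h.pk.ψd2 _).trans ?_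
    · rw [Pw.D, good.unit, one_mul, (r6 i).1, (r6 i).2]
      exact h.pk.ψd1 _
    · exact mul_le_mul_of_nonneg_right (le_max_right _ _) (le_trans (by positivity) (hH u))

end Pool.Agent.P.MP_5d7cf0_gt
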