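import Pool.Agent.P.MP_5d7cf0_gt.St

/-!
Package Pi: the periods along rays.
-/

open Set Filter Topology MeasureTheory Complex

noncomputable section

namespace Pool.Agent.P.MP_5d7cf0_gt

namespace PiP

theorem norm_cp (z : ℂ) : ‖cp z‖ = ‖z‖ ^ (-(1 / 3) : ℝ) := by
  rw [← norm_cpow_real, cp]
  norm_num

theorem cp_ofReal {x : ℝ} (hx : 0 ≤ x) : cp x = ((x ^ (-(1 / 3) : ℝ) : ℝ) : ℂ) := by
  rw [ofReal_cpow hx, cp]
  norm_num

theorem cp_mul {a b : ℂ} (ha : 0 < a.re) (hb : 0 < b.re) : cp (a * b) = cp a * cp b := by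
  have ha0 : a ≠ 0 := by rintro rfl; simp at ha
  have hb0 : b ≠ 0 := by rintro rfl; simp at hb
  have h1 := abs_lt.1 (abs_arg_lt_pi_div_two_iff.2 (Or.inl ha))
  have h2 := abs_lt.1 (abs_arg_lt_pi_div_two_iff.2 (Or.inl hb))
  simp only [cp]
  rw [cpow_def_of_ne_zero (mul_ne_zero ha0 hb0), cpow_def_of_ne_zero ha0, cpow_def_of_ne_zero hb0,
    (log_mul_eq_add_log_iff ha0 hb0).2 ⟨by linarith [h1.1, h2.1], by linarith [h1.2, h2.2]⟩,
    add_mul, exp_add]

theorem cp_deriv {z : ℂ} (hz : z ∈ slitPlane) : HasDerivAt cp (cp z * (-(1 / 3) * z⁻¹)) z := by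
  refine (hasStrictDerivAt_cpow_const (c := -(1 / 3)) hz).hasDerivAt.congr_deriv ?_
  rw [cpow_sub _ _ (slitPlane_ne_zero hz), cpow_one, cp]
  ring

theorem measurable_cp : Measurable cp := measurable_id.pow_const _

theorem slit {w : ℂ} (hw : w ∈ slitPlane) {t : ℝ} (ht : 0 ≤ t) : 1 + t * w ∈ slitPlane := by
  rcases ht.eq_or_lt with rfl | ht
  · simp
  · rcases hw with h | h
    · left
      simp only [add_re, one_re, re_ofReal_mul]
      positivity
    · right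
      simpa [ht.ne'] using h

theorem low {w₀ : ℂ} (h : w₀ ∈ slitPlane) : ∀ᶠ c in 𝓝[>] (0 : ℝ), ∀ᶠ w in 𝓝 w₀,
    w ∈ slitPlane ∧ ∀ t : ℝ, 0 ≤ t → c * (1 + t) ≤ ‖1 + t * w‖ := by
  obtain ⟨τ₀, h0, hm⟩ := (isCompact_Icc (a := (0 : ℝ)) (b := 1)).exists_isMinOn ⟨0, by simp⟩
    (f := fun τ : ℝ => ‖(1 - τ + τ * w₀ : ℂ)‖) (by fun_prop)
  have hp : 0 < ‖(1 - τ₀ + τ₀ * w₀ : ℂ)‖ := by
    rw [norm_pos_iff]
    apply slitPlane_ne_zero
    have := starConvex_one_slitPlane h (sub_nonneg.2 h0.2) h0.1 (by ring)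
    simpa using this
  filter_upwards [Ioo_mem_nhdsGT (half_pos hp)] with c hc
  filter_upwards [isOpen_slitPlane.mem_nhds h, Metric.ball_mem_nhds w₀ hc.1] with w k1 k2
  refine ⟨k1, fun t ht => ?_⟩
  have t1 : 0 < 1 + t := by linarith
  have hτ : t / (1 + t) ∈ Icc (0 : ℝ) 1 := ⟨by positivity, (div_le_one t1).2 (by linarith)⟩
  have k3 : ‖(1 - τ₀ + τ₀ * w₀ : ℂ)‖ ≤ _ := hm hτ
  have e : (1 + t * w : ℂ) = ((1 + t : ℝ) : ℂ) * (1 - (t / (1 + t) : ℝ) + (t / (1 + t) : ℝ) * w₀ +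
      (t / (1 + t) : ℝ) * (w - w₀)) := by
    have : ((1 : ℂ) + t) ≠ 0 := by exact_mod_cast t1.ne'
    push_cast
    field_simp
    ring
  rw [e, norm_mul, norm_real, Real.norm_of_nonneg t1.le, mul_comm]
  refine mul_le_mul_of_nonneg_left ?_ t1.le
  have k4 : ‖((t / (1 + t) : ℝ) : ℂ) * (w - w₀)‖ ≤ c := by
    rw [norm_mul, norm_real, Real.norm_of_nonneg hτ.1]
    exact (mul_le_of_le_one_left (norm_nonneg _) hτ.2).trans (mem_ball_iff_norm.1 k2).le
  have k5 := norm_sub_le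
    (1 - (t / (1 + t) : ℝ) + (t / (1 + t) : ℝ) * w₀ + (t / (1 + t) : ℝ) * (w - w₀) : ℂ)
    (((t / (1 + t) : ℝ) : ℂ) * (w - w₀))
  rw [add_sub_cancel_right] at k5
  linarith [hc.2]

/-- the majorant -/
def ph (t : ℝ) : ℝ := t ^ (-(1 / 3) : ℝ) * (1 + t) ^ (-(4 / 3) : ℝ)

theorem ph_pos {t : ℝ} (ht : 0 < t) : 0 < ph t := by unfold ph; positivity

theorem ph_le1 {t : ℝ} (ht : 0 < t) : ph t ≤ t ^ (-(1 / 3) : ℝ) :=
  mul_le_of_le_one_right (by positivity)
    (Real.rpow_le_one_of_one_le_of_nonpos (by linarith) (by norm_num))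

theorem ph_le2 {t : ℝ} (ht : 0 < t) : ph t ≤ t ^ (-(5 / 3) : ℝ) := by
  rw [show (-(5 / 3) : ℝ) = -(1 / 3) + -(4 / 3) by norm_num, Real.rpow_add ht]
  exact mul_le_mul_of_nonneg_left
    (Real.rpow_le_rpow_of_nonpos ht (by linarith) (by norm_num)) (by positivity)

theorem ph_int : IntegrableOn ph (Ioi 0) := by
  have hm : Measurable ph := by unfold ph; fun_prop
  rw [← Ioc_union_Ioi_eq_Ioi zero_le_one]
  refine IntegrableOn.union ?_ ?_
  · refine Integrable.mono' (intervalIntegral.intervalIntegrable_rpow'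
      (r := -(1 / 3)) (a := 0) (b := 1) (by norm_num)).1 hm.aestronglyMeasurable ?_
    refine ae_restrict_of_forall_mem measurableSet_Ioc fun t ht => ?_
    rw [Real.norm_of_nonneg (ph_pos ht.1).le]
    exact ph_le1 ht.1
  · refine Integrable.mono' (integrableOn_Ioi_rpow_of_lt (a := -(5 / 3)) (by norm_num) one_pos)
      hm.aestronglyMeasurable ?_
    refine ae_restrict_of_forall_mem measurableSet_Ioi fun t ht => ?_
    rw [Real.norm_of_nonneg (ph_pos (one_pos.trans ht)).le]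
    exact ph_le2 (one_pos.trans ht)

variable {s : Finset (Fin 6)} {γ : Fin 6 → ℂ}

/-- the product -/
def PP (s : Finset (Fin 6)) (γ : Fin 6 → ℂ) (w : ℂ) : ℂ := ∏ k ∈ s, cp (1 + w * γ k)

/-- its logarithmic derivative -/
def QQ (s : Finset (Fin 6)) (γ : Fin 6 → ℂ) (w : ℂ) : ℂ :=
  ∑ k ∈ s, -(1 / 3) * (1 + w * γ k)⁻¹ * γ k

theorem PP_deriv {w : ℂ} (h : ∀ k ∈ s, 1 + w * γ k ∈ slitPlane) :
    HasDerivAt (PP s γ) (PP s γ w * QQ s γ w) w := by
  have h1 : ∀ k ∈ s, HasDerivAt (fun w => cp (1 + w * γ k))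
      (cp (1 + w * γ k) * (-(1 / 3) * (1 + w * γ k)⁻¹) * (1 * γ k)) w := fun k hk =>
    HasDerivAt.comp (h₂ := cp) w (cp_deriv (h k hk))
      (((hasDerivAt_id w).mul_const (γ k)).const_add 1)
  refine (HasDerivAt.fun_finsetProd h1).congr_deriv ?_
  rw [QQ, Finset.mul_sum]
  refine Finset.sum_congr rfl fun k hk => ?_
  rw [PP, ← Finset.prod_erase_mul _ _ hk, smul_eq_mul]
  ring

theorem norm_le (hs : s.card = 4) {c t : ℝ} (hc : 0 < c) (ht : 0 < t) {w : ℂ}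
    (h : ∀ k ∈ s, c * (1 + t) ≤ ‖1 + w * γ k‖) :
    ‖cp t * PP s γ w‖ ≤ c ^ (-(4 / 3) : ℝ) * ph t := by
  have t1 : 0 < 1 + t := by linarith
  rw [norm_mul, norm_cp, norm_real, Real.norm_of_nonneg ht.le, ph, mul_left_comm,
    ← Real.mul_rpow hc.le t1.le, PP, norm_prod]
  refine mul_le_mul_of_nonneg_left ?_ (by positivity)
  calc ∏ k ∈ s, ‖cp (1 + w * γ k)‖ ≤ ∏ _k ∈ s, (c * (1 + t)) ^ (-(1 / 3) : ℝ) := by
        refine Finset.prod_le_prod (fun _ _ => norm_nonneg _) fun k hk => ?_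
        rw [norm_cp]
        exact Real.rpow_le_rpow_of_nonpos (by positivity) (h k hk) (by norm_num)
    _ = (c * (1 + t)) ^ (-(4 / 3) : ℝ) := by
        rw [Finset.prod_const, hs, ← Real.rpow_natCast, ← Real.rpow_mul (by positivity)]
        norm_num

theorem norm_QQ {c t : ℝ} (hc : 0 < c) (ht : 0 < t) {w : ℂ}
    (h : ∀ k ∈ s, c * (1 + t) ≤ ‖1 + w * γ k‖) : ‖QQ s γ w * t‖ ≤ ∑ k ∈ s, c⁻¹ * ‖γ k‖ := by
  rw [QQ, Finset.sum_mul]
  refine norm_sum_le_of_le _ fun k hk => ?_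
  have h1 : ‖(1 + w * γ k)⁻¹‖ * t ≤ c⁻¹ := by
    rw [norm_inv, inv_mul_le_iff₀ (lt_of_lt_of_le (by positivity) (h k hk)),
      le_mul_inv_iff₀ hc]
    nlinarith [h k hk]
  simp only [norm_mul, norm_neg, norm_real, Real.norm_of_nonneg ht.le]
  have h2 : ‖(1 / 3 : ℂ)‖ ≤ 1 := by norm_num
  calc ‖(1 / 3 : ℂ)‖ * ‖(1 + w * γ k)⁻¹‖ * ‖γ k‖ * t
      = ‖(1 / 3 : ℂ)‖ * (‖(1 + w * γ k)⁻¹‖ * t) * ‖γ k‖ := by ring
    _ ≤ 1 * c⁻¹ * ‖γ k‖ := by gcongr
    _ = _ := by ring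

theorem measurable_PP : Measurable (PP s γ) :=
  Finset.measurable_prod _ fun k _ => measurable_cp.comp (by fun_prop)

theorem J_deriv (hs : s.card = 4) {n₀ : ℂ} (h : ∀ k ∈ s, n₀ * γ k ∈ slitPlane) :
    ∃ J', HasDerivAt (fun n : ℂ => ∫ t in Ioi (0 : ℝ), cp t * PP s γ (t * n)) J' n₀ ∧
      2 / 3 * (∫ t in Ioi (0 : ℝ), cp t * PP s γ (t * n₀)) + n₀ * J' = 0 := by
  obtain ⟨c, k1, hc⟩ := (((eventually_all_finset s).2 fun k hk => low (h k hk)).and
    self_mem_nhdsWithin).exists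
  have hc : 0 < c := hc
  have k2 : ∀ᶠ n in 𝓝 n₀, ∀ k ∈ s, ∀ t : ℝ, 0 < t → 1 + t * n * γ k ∈ slitPlane ∧
      c * (1 + t) ≤ ‖1 + t * n * γ k‖ := by
    refine (eventually_all_finset s).2 fun k hk => ?_
    filter_upwards [(continuous_mul_const (γ k)).continuousAt.eventually (k1 k hk)] with n hn t ht
    rw [mul_assoc]
    exact ⟨slit hn.1 ht.le, hn.2 t ht.le⟩
  have m1 : ∀ n : ℂ, Measurable fun t : ℝ => cp t * PP s γ (t * n) := fun n =>
    (measurable_cp.comp measurable_ofReal).mul (measurable_PP.comp (by fun_prop))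
  have b1 : ∀ t : ℝ, 0 < t → ‖cp t * PP s γ (t * n₀)‖ ≤ c ^ (-(4 / 3) : ℝ) * ph t := fun t ht =>
    norm_le hs hc ht fun k hk => (k2.self_of_nhds k hk t ht).2
  have i1 : IntegrableOn (fun t : ℝ => cp t * PP s γ (t * n₀)) (Ioi 0) :=
    (ph_int.const_mul _).mono' (m1 n₀).aestronglyMeasurable
      (ae_restrict_of_forall_mem measurableSet_Ioi b1)
  obtain ⟨i2, hd⟩ := hasDerivAt_integral_of_dominated_loc_of_deriv_le (μ := volume.restrict (Ioi 0))
    (F := fun (n : ℂ) (t : ℝ) => cp t * PP s γ (t * n))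
    (F' := fun (n : ℂ) (t : ℝ) => cp t * PP s γ (t * n) * (QQ s γ (t * n) * t))
    (bound := fun t => c ^ (-(4 / 3) : ℝ) * ph t * ∑ k ∈ s, c⁻¹ * ‖γ k‖) k2
    (Eventually.of_forall fun n => (m1 n).aestronglyMeasurable) i1
    ((m1 n₀).mul (by unfold QQ; fun_prop)).aestronglyMeasurable
    (ae_restrict_of_forall_mem measurableSet_Ioi fun t ht n hn => by
      rw [norm_mul]
      exact mul_le_mul (norm_le hs hc ht fun k hk => (hn k hk t ht).2)
        (norm_QQ hc ht fun k hk => (hn k hk t ht).2) (norm_nonneg _)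
        (mul_pos (by positivity) (ph_pos ht)).le)
    ((ph_int.const_mul _).mul_const _)
    (ae_restrict_of_forall_mem measurableSet_Ioi fun t ht n hn => by
      refine (((PP_deriv fun k hk => (hn k hk t ht).1).comp n
        ((hasDerivAt_id n).const_mul (t : ℂ))).const_mul (cp t)).congr_deriv ?_
      ring)
  refine ⟨_, hd, ?_⟩
  have b2 : ∀ t : ℝ, 0 < t → ‖(t : ℂ) * (cp t * PP s γ (t * n₀))‖ ≤
      c ^ (-(4 / 3) : ℝ) * (t * ph t) := fun t ht => by
    rw [norm_mul, norm_real, Real.norm_of_nonneg ht.le, mul_left_comm]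
    exact mul_le_mul_of_nonneg_left (b1 t ht) ht.le
  have key := integral_Ioi_of_hasDerivAt_of_tendsto (a := 0) (m := 0)
    (f := fun t : ℝ => (t : ℂ) * (cp t * PP s γ (t * n₀)))
    (f' := fun t : ℝ => 2 / 3 * (cp t * PP s γ (t * n₀)) +
      n₀ * (cp t * PP s γ (t * n₀) * (QQ s γ (t * n₀) * t))) ?_ ?_
    ((i1.const_mul _).add (i2.const_mul _)) ?_
  · rw [integral_add (i1.const_mul _) (i2.const_mul _), integral_const_mul,
      integral_const_mul] at key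
    simpa using key
  · rw [ContinuousWithinAt, ofReal_zero, zero_mul]
    refine squeeze_zero_norm' (a := fun t : ℝ => c ^ (-(4 / 3) : ℝ) * t ^ (2 / 3 : ℝ)) ?_ ?_
    · filter_upwards [self_mem_nhdsWithin] with t ht
      rcases (show 0 ≤ t from ht).eq_or_lt with rfl | ht
      · simp
      · refine (b2 t ht).trans (mul_le_mul_of_nonneg_left ?_ (by positivity))
        rw [show (2 / 3 : ℝ) = 1 + -(1 / 3) by norm_num, Real.rpow_add ht, Real.rpow_one]
        exact mul_le_mul_of_nonneg_left (ph_le1 ht) ht.le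
    · have := ((Real.continuousAt_rpow_const 0 (2 / 3) (Or.inr (by norm_num))).tendsto.const_mul
        (c ^ (-(4 / 3) : ℝ))).mono_left (nhdsWithin_le_nhds (s := Ici 0))
      simpa using this
  · intro t ht
    have ht : 0 < t := ht
    have h1 : (t : ℂ) ∈ slitPlane := by simpa using ht
    have h2 : (t : ℂ) ≠ 0 := slitPlane_ne_zero h1
    have := ((hasDerivAt_id (t : ℂ)).mul ((cp_deriv h1).mul
      ((PP_deriv fun k hk => (k2.self_of_nhds k hk t ht).1).comp (t : ℂ)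
        ((hasDerivAt_id (t : ℂ)).mul_const n₀)))).comp_ofReal
    refine this.congr_deriv ?_
    simp only [Pi.mul_apply, id, Function.comp]
    field_simp
    ring
  · refine squeeze_zero_norm' (a := fun t : ℝ => c ^ (-(4 / 3) : ℝ) * t ^ (-(2 / 3) : ℝ)) ?_ ?_
    · filter_upwards [eventually_gt_atTop 0] with t ht
      refine (b2 t ht).trans (mul_le_mul_of_nonneg_left ?_ (by positivity))
      rw [show (-(2 / 3) : ℝ) = 1 + -(5 / 3) by norm_num, Real.rpow_add ht, Real.rpow_one]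
      exact mul_le_mul_of_nonneg_left (ph_le2 ht) ht.le
    · simpa using (tendsto_rpow_neg_atTop (y := 2 / 3) (by norm_num)).const_mul
        (c ^ (-(4 / 3) : ℝ))

theorem PiS_eq (n : ℂ) :
    (PiS s fun k => n * γ k) = ∫ t in Ioi (0 : ℝ), cp t * PP s γ (t * n) := by
  simp only [PiS, PP, mul_assoc]

theorem part1 {ν : ℂ} (hs : s.card = 4) (h : ∀ τ ∈ Icc (0 : ℝ) 1, 1 - τ + τ * ν ∈ slitPlane ∧
    ∀ k ∈ s, (1 - τ + τ * ν) * γ k ∈ slitPlane) :
    ‖ν‖ ^ (2 / 3 : ℝ) * ‖PiS s fun k => ν * γ k‖ = ‖PiS s γ‖ := by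
  let G : ℂ → ℂ := fun n => n * cp n * ∫ t in Ioi (0 : ℝ), cp t * PP s γ (t * n)
  have hG : ∀ τ ∈ Icc (0 : ℝ) 1, HasDerivAt (fun σ : ℝ => G (1 - σ + σ * ν)) 0 τ := by
    intro τ hτ
    obtain ⟨J', h1, h2⟩ := J_deriv hs (h τ hτ).2
    have h0 := slitPlane_ne_zero (h τ hτ).1
    have h3 : HasDerivAt G 0 (1 - τ + τ * ν) := by
      refine (((hasDerivAt_id _).mul (cp_deriv (h τ hτ).1)).mul h1).congr_deriv ?_
      simp only [Pi.mul_apply]
      generalize (1 - τ + τ * ν : ℂ) = n at h0 h2 ⊢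
      have h4 := mul_inv_cancel₀ h0
      linear_combination cp n * h2 -
        1 / 3 * cp n * (∫ t in Ioi (0 : ℝ), cp t * PP s γ (t * n)) * h4
    have h4 : HasDerivAt (fun z : ℂ => 1 - z + z * ν) (-1 + 1 * ν) τ :=
      ((hasDerivAt_id (τ : ℂ)).const_sub 1).add ((hasDerivAt_id (τ : ℂ)).mul_const ν)
    simpa using (HasDerivAt.comp (h₂ := G) (τ : ℂ) h3 h4).comp_ofReal
  have e := constant_of_has_deriv_right_zero (f := fun σ : ℝ => G (1 - σ + σ * ν)) (a := 0) (b := 1)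
    (fun τ hτ => (hG τ hτ).continuousAt.continuousWithinAt)
    (fun τ hτ => (hG τ (Ico_subset_Icc_self hτ)).hasDerivWithinAt) 1 (by simp)
  have h1 : ν ≠ 0 := by simpa using slitPlane_ne_zero (h 1 (by simp)).1
  have e' : ν * cp ν * (PiS s fun k => ν * γ k) = PiS s γ := by
    have e2 := PiS_eq (s := s) (γ := γ) 1
    simp only [one_mul] at e2
    rw [PiS_eq, e2]
    simpa [G, cp] using e
  rw [← e', norm_mul, norm_mul, norm_cp, show (2 / 3 : ℝ) = 1 + -(1 / 3) by norm_num,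
    Real.rpow_add (norm_pos_iff.2 h1), Real.rpow_one]

theorem part2 (hs : s.card = 4) (h : ∀ k ∈ s, 0 < (γ k).re) :
    ‖PiS s γ‖ = (∏ k ∈ s, ‖γ k‖ ^ (-(1 / 3) : ℝ)) * ‖PiS s fun k => (γ k)⁻¹‖ := by
  have e : PiS s γ = (∏ k ∈ s, cp (γ k)) * PiS s fun k => (γ k)⁻¹ := by
    rw [PiS, ← integral_comp_rpow_Ioi _ (p := -1) (by norm_num), PiS, ← integral_const_mul]
    refine setIntegral_congr_fun measurableSet_Ioi fun x hx => ?_
    have hx : 0 < x := hx
    have e1 : ∀ k ∈ s, cp (1 + (x ^ (-1 : ℝ) : ℝ) * γ k) =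
        cp (x ^ (-1 : ℝ) : ℝ) * (cp (γ k) * cp (1 + x * (γ k)⁻¹)) := by
      intro k hk
      have h0 : γ k ≠ 0 := by
        intro h0
        simpa [h0] using h k hk
      have h1 : 0 < (1 + x * (γ k)⁻¹ : ℂ).re := by
        have := h k hk
        have := normSq_pos.2 h0
        simp only [add_re, one_re, re_ofReal_mul, inv_re]
        positivity
      have h2 : (0 : ℝ) < x ^ (-1 : ℝ) := by positivity
      rw [← mul_assoc, ← cp_mul (by simpa using h2) (h k hk),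
        ← cp_mul (by rw [re_ofReal_mul]; exact mul_pos h2 (h k hk)) h1, Real.rpow_neg_one]
      congr 1
      have : (x : ℂ) ≠ 0 := by exact_mod_cast hx.ne'
      push_cast
      field_simp
      ring
    have e2 : |(-1 : ℝ)| * x ^ (-1 - 1 : ℝ) * ((x ^ (-1 : ℝ)) ^ (-(1 / 3) : ℝ)) ^ 5 =
        x ^ (-(1 / 3) : ℝ) := by
      rw [← Real.rpow_mul hx.le, ← Real.rpow_natCast, ← Real.rpow_mul hx.le, abs_neg, abs_one,
        one_mul, ← Real.rpow_add hx]
      norm_num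
    rw [Finset.prod_congr rfl e1, Finset.prod_mul_distrib, Finset.prod_mul_distrib,
      Finset.prod_const, hs, cp_ofReal hx.le, ← e2, cp_ofReal (by positivity), real_smul]
    push_cast
    ring
  rw [e, norm_mul, norm_prod]
  simp only [norm_cp]

theorem near (hs : s.card = 4) (h : ∀ k ∈ s, ‖γ k - 1‖ ≤ 1 / 100) {t : ℝ} (ht : 0 < t) :
    ‖cp t * ∏ k ∈ s, cp (1 + t * γ k) - ph t‖ ≤ 1 / 2 * ph t := by
  have t1 : 0 < 1 + t := by linarith
  let e : Fin 6 → ℂ := fun k => (t / (1 + t) : ℝ) * (γ k - 1)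
  have he : ∀ k ∈ s, ‖e k‖ ≤ 1 / 100 := fun k hk => by
    simp only [e]
    rw [norm_mul, norm_real, Real.norm_of_nonneg (by positivity)]
    exact (mul_le_of_le_one_left (norm_nonneg _) ((div_le_one t1).2 (by linarith))).trans (h k hk)
  have e1 : ∀ k ∈ s, cp (1 + t * γ k) =
      cp ((1 + t : ℝ) : ℂ) * exp (log (1 + e k) * -(1 / 3)) := by
    intro k hk
    have h1 : 0 < (1 + e k).re := by
      have := (abs_le.1 ((abs_re_le_norm (e k)).trans (he k hk))).1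
      rw [add_re, one_re]
      linarith
    have h0 : 1 + e k ≠ 0 := by
      intro h0
      simp [h0] at h1
    rw [← cpow_def_of_ne_zero h0]
    refine Eq.trans ?_ (cp_mul (by simpa using t1) h1)
    congr 1
    have : ((1 : ℂ) + t) ≠ 0 := by exact_mod_cast t1.ne'
    simp only [e]
    push_cast
    field_simp
    ring
  have e2 : ‖∑ k ∈ s, log (1 + e k) * -(1 / 3)‖ ≤ 1 / 50 := by
    refine (norm_sum_le_of_le (n := fun _ => 1 / 200) _ fun k hk => ?_).trans ?_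
    · have := norm_log_one_add_half_le_self (z := e k) ((he k hk).trans (by norm_num))
      rw [norm_mul, norm_neg, norm_div, norm_one, norm_ofNat]
      linarith [he k hk]
    · rw [Finset.sum_const, hs]
      norm_num
  have e3 : (ph t : ℂ) = cp t * cp ((1 + t : ℝ) : ℂ) ^ 4 := by
    rw [cp_ofReal ht.le, cp_ofReal t1.le, ← ofReal_pow, ← ofReal_mul, ← Real.rpow_natCast,
      ← Real.rpow_mul t1.le, ph]
    norm_num
  rw [Finset.prod_congr rfl e1, Finset.prod_mul_distrib, Finset.prod_const, hs, ← exp_sum,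
    ← mul_assoc, ← e3, ← mul_sub_one, norm_mul, norm_real, Real.norm_of_nonneg (ph_pos ht).le,
    mul_comm]
  refine mul_le_mul_of_nonneg_right ?_ (ph_pos ht).le
  linarith [norm_exp_sub_one_le (e2.trans (by norm_num))]

theorem part3 : ∃ C : ℝ, 0 < C ∧ ∀ (s : Finset (Fin 6)) (γ : Fin 6 → ℂ), s.card = 4 →
    (∀ k ∈ s, ‖γ k - 1‖ ≤ 1 / 100) → 1 ≤ C * ‖PiS s γ‖ ∧ ‖PiS s γ‖ ≤ C := by
  set B : ℝ := ∫ t in Ioi (0 : ℝ), ph t with hB
  have hB0 : 0 < B := by
    rw [hB, setIntegral_pos_iff_support_of_nonneg_ae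
      (ae_restrict_of_forall_mem measurableSet_Ioi fun t ht => (ph_pos ht).le) ph_int]
    have : Ioi (0 : ℝ) ⊆ Function.support fun t => ph t := fun t ht => (ph_pos ht).ne'
    rw [inter_eq_self_of_subset_right this]
    simp
  refine ⟨2 / B + 2 * B, by positivity, fun s γ hs h => ?_⟩
  have m1 : Measurable fun t : ℝ => cp t * ∏ k ∈ s, cp (1 + t * γ k) :=
    (measurable_cp.comp measurable_ofReal).mul
      ((measurable_PP (s := s) (γ := γ)).comp measurable_ofReal)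
  have i0 : IntegrableOn (fun t : ℝ => (ph t : ℂ)) (Ioi 0) := ph_int.ofReal
  have i1 : IntegrableOn (fun t : ℝ => cp t * ∏ k ∈ s, cp (1 + t * γ k) - ph t) (Ioi 0) :=
    (ph_int.const_mul _).mono' (m1.aestronglyMeasurable.sub i0.aestronglyMeasurable)
      (ae_restrict_of_forall_mem measurableSet_Ioi fun t ht => near hs h ht)
  have i2 : IntegrableOn (fun t : ℝ => cp t * ∏ k ∈ s, cp (1 + t * γ k)) (Ioi 0) :=
    (i1.add i0).congr_fun (fun t _ => sub_add_cancel _ _) measurableSet_Ioi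
  have k1 := norm_integral_le_of_norm_le (ph_int.const_mul (1 / 2))
    (ae_restrict_of_forall_mem measurableSet_Ioi fun t ht => near hs h ht)
  rw [integral_sub i2 i0, integral_const_mul, integral_complex_ofReal, ← hB] at k1
  have k2 := abs_le.1 ((abs_norm_sub_norm_le (PiS s γ) (B : ℂ)).trans k1)
  rw [norm_real, Real.norm_of_nonneg hB0.le] at k2
  have k3 : 0 < 2 / B := by positivity
  refine ⟨?_, by linarith [k2.2]⟩
  calc (1 : ℝ) = 2 / B * (B / 2) := by field_simp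
    _ ≤ (2 / B + 2 * B) * ‖PiS s γ‖ := by
      gcongr
      · linarith
      · linarith [k2.1]

end PiP

theorem pPi : S_Pi :=
  ⟨fun _ _ _ hs h => PiP.part1 hs h, fun _ _ hs h => PiP.part2 hs h, PiP.part3⟩

end Pool.Agent.P.MP_5d7cf0_gt
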