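import Pool.Agent.P.MP_5d7cf0_gt.St

/-!
The profile at the roots.
-/

open Set Filter Topology
open scoped ContDiff

namespace Pool.Agent.P.MP_5d7cf0_gt

namespace ProfKP

theorem prim {f : ℝ → ℝ} (hf : ContDiff ℝ ∞ f) (h0 : ∀ l, 0 ≤ l → f l = 0) :
    ∃ F : ℝ → ℝ, ContDiff ℝ ∞ F ∧ (∀ l, HasDerivAt F (f l) l) ∧ ∀ l, 0 ≤ l → F l = 0 := by
  have hd : ∀ l, HasDerivAt (fun l => ∫ s in (0 : ℝ)..l, f s) (f l) l := fun l =>
    (hf.continuous.integral_hasStrictDerivAt 0 l).hasDerivAt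
  refine ⟨_, contDiff_infty_iff_deriv.2 ⟨fun l => (hd l).differentiableAt, ?_⟩, hd, fun l hl => ?_⟩
  · rwa [show deriv (fun l => ∫ s in (0 : ℝ)..l, f s) = f from funext fun l => (hd l).deriv]
  · rw [intervalIntegral.integral_congr (g := fun _ => 0) fun s hs => h0 s ?_]
    · simp
    · rw [uIcc_of_le hl] at hs; exact hs.1

theorem mono {F f : ℝ → ℝ} {a b : ℝ} (hab : a ≤ b) (h : ∀ l, l ≤ b → HasDerivAt F (f l) l)
    (hf : ∀ l, l < b → 0 ≤ f l) : F a ≤ F b :=
  monotoneOn_of_hasDerivWithinAt_nonneg (convex_Iic b) (f' := f)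
    (fun l hl => (h l hl).continuousAt.continuousWithinAt)
    (fun l hl => (h l (mem_Iic.1 (interior_subset hl))).hasDerivWithinAt)
    (fun l hl => hf l (by simpa using hl)) (mem_Iic.2 hab) (mem_Iic.2 le_rfl) hab

theorem chi : ∃ (χ χ' : ℝ → ℝ) (B : ℝ), ContDiff ℝ ∞ χ ∧ (∀ l, HasDerivAt χ (χ' l) l) ∧
    (∀ l, 0 ≤ χ l ∧ χ l ≤ 1 ∧ 0 ≤ χ' l) ∧ (∀ l, 0 ≤ l → χ l = 1) ∧ (∀ l, l ≤ -1 → χ l = 0) ∧
    0 ≤ B ∧ ∀ l, l ≤ 0 → χ' l * (3 - l) ^ 2 ≤ B := by
  have h1 : ContDiff ℝ ∞ fun l : ℝ => Real.smoothTransition (l + 1) :=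
    Real.smoothTransition.contDiff.comp (contDiff_id.add contDiff_const)
  have h2 : Monotone fun l : ℝ => Real.smoothTransition (l + 1) := fun a b hab =>
    Real.smoothTransition.monotone (by linarith)
  have h3 : ∀ l : ℝ, l ≤ -1 → Real.smoothTransition (l + 1) = 0 := fun l hl =>
    Real.smoothTransition.zero_of_nonpos (by linarith)
  obtain ⟨B, hB⟩ := (isCompact_Icc (a := (-1 : ℝ)) (b := 0)).exists_bound_of_continuousOn
    (f := fun l => deriv (fun l : ℝ => Real.smoothTransition (l + 1)) l * (3 - l) ^ 2)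
    (((h1.continuous_deriv (by simp)).mul (by fun_prop)).continuousOn)
  have hB0 : 0 ≤ B := (norm_nonneg _).trans (hB 0 ⟨by norm_num, le_rfl⟩)
  refine ⟨_, deriv _, B, h1, fun l => (h1.differentiable (by simp) l).hasDerivAt,
    fun l => ⟨Real.smoothTransition.nonneg _, Real.smoothTransition.le_one _, h2.deriv_nonneg⟩,
    fun l hl => Real.smoothTransition.one_of_one_le (by linarith), h3, hB0, fun l hl => ?_⟩
  rcases lt_or_ge l (-1) with h | h
  · have : (fun l : ℝ => Real.smoothTransition (l + 1)) =ᶠ[𝓝 l] fun _ => 0 := by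
      filter_upwards [Iio_mem_nhds h] with s hs using h3 s (le_of_lt hs)
    rw [this.deriv_eq]
    simpa using hB0
  · exact (le_abs_self _).trans (hB l ⟨h, hl⟩)

/-- the logarithmic derivative -/
theorem theta : ∃ (α θ θ' : ℝ → ℝ) (B : ℝ), ContDiff ℝ ∞ α ∧ ContDiff ℝ ∞ θ ∧
    (∀ l, HasDerivAt θ (θ' l) l) ∧ (∀ l, 0 ≤ l → α l = 0 ∧ θ l = 1) ∧ (∀ l, 0 < l → θ' l = 0) ∧
    (∀ l, l ≤ -1 → α l * (3 - l) = 1 ∧ θ l * (3 - l) = 2) ∧ 0 ≤ B ∧
    ∀ l, l ≤ 0 → 0 ≤ α l ∧ α l * (3 - l) ≤ 1 ∧ 2 ≤ θ l * (3 - l) ∧ θ l ≤ 1 ∧ 0 ≤ θ' l ∧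
      θ' l * (3 - l) ^ 2 ≤ B := by
  obtain ⟨χ, χ', B, s1, d1, b1, o1, z1, B0, hB⟩ := chi
  set α : ℝ → ℝ := fun l => (1 - χ l) / (3 - l) with hα
  have a0 : ∀ l, 0 ≤ l → α l = 0 := fun l hl => by simp [hα, o1 l hl]
  have s2 : ContDiff ℝ ∞ α := by
    rw [contDiff_iff_contDiffAt]
    intro l
    rcases lt_or_ge l 3 with h | h
    · exact (contDiffAt_const.sub s1.contDiffAt).div (contDiffAt_const.sub contDiffAt_id)
        (by linarith)
    · refine (contDiffAt_const (c := (0 : ℝ))).congr_of_eventuallyEq ?_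
      filter_upwards [Ioi_mem_nhds (show (0 : ℝ) < l by linarith)] with s hs using a0 s (le_of_lt hs)
  have s3 : ContDiff ℝ ∞ fun l => χ l + 2 * α l := s1.add (contDiff_const.mul s2)
  have t0 : ∀ l, 0 ≤ l → χ l + 2 * α l = 1 := fun l hl => by rw [a0 l hl, o1 l hl]; ring
  refine ⟨α, _, deriv _, B + 2, s2, s3, fun l => (s3.differentiable (by simp) l).hasDerivAt,
    fun l hl => ⟨a0 l hl, t0 l hl⟩, fun l hl => ?_, fun l hl => ?_, by linarith, fun l hl => ?_⟩
  · have : (fun l => χ l + 2 * α l) =ᶠ[𝓝 l] fun _ => 1 := by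
      filter_upwards [Ioi_mem_nhds hl] with s hs using t0 s (le_of_lt hs)
    rw [this.deriv_eq]; simp
  · have h3 : 3 - l ≠ 0 := by linarith
    simp only [hα, z1 l hl]
    constructor <;> field_simp <;> ring
  · have h3 : 0 < 3 - l := by linarith
    obtain ⟨c0, c1, c2⟩ := b1 l
    have e1 : α l * (3 - l) = 1 - χ l := by simp only [hα]; field_simp
    have a1 : 0 ≤ α l := div_nonneg (by linarith) h3.le
    have hd : HasDerivAt (fun l => χ l + 2 * α l)
        (χ' l + 2 * ((-χ' l * (3 - l) - (1 - χ l) * (-1)) / (3 - l) ^ 2)) l :=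
      (d1 l).add ((((d1 l).const_sub 1).div ((hasDerivAt_id l).const_sub 3) h3.ne').const_mul 2)
    have e2 : deriv (fun l => χ l + 2 * α l) l * (3 - l) ^ 2 =
        χ' l * (3 - l) * (1 - l) + 2 * (1 - χ l) := by
      rw [hd.deriv]; field_simp; ring
    have p1 : 0 ≤ χ' l * (3 - l) * (1 - l) := mul_nonneg (mul_nonneg c2 h3.le) (by linarith)
    have p2 : χ' l * (3 - l) * (1 - l) ≤ B := by
      have := hB l hl
      have := mul_nonneg c2 h3.le
      nlinarith
    refine ⟨a1, by linarith, by nlinarith, by nlinarith, ?_, by linarith⟩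
    exact nonneg_of_mul_nonneg_left (b := (3 - l) ^ 2) (by rw [e2]; linarith) (by positivity)

/-- the profile before scaling -/
theorem base : ∃ (m d θ θ' ψ α : ℝ → ℝ) (C : ℝ), ContDiff ℝ ∞ m ∧ 0 < C ∧
    (∀ l, 0 ≤ l → m l = 0 ∧ ψ l = 0) ∧ Tendsto ψ atBot atTop ∧ ∀ l,
      HasDerivAt m (d l - Real.exp l) l ∧ HasDerivAt d (d l * θ l) l ∧ HasDerivAt θ (θ' l) l ∧
      HasDerivAt ψ (-α l) l ∧ Real.exp l ≤ d l ∧ (d l - Real.exp l) * (1 + l ^ 2) ≤ C ∧
      |m l| ≤ C ∧ 0 < θ l ∧ θ l ≤ 1 ∧ |m l + Real.exp l - d l / θ l| ≤ C ∧ 0 ≤ θ' l ∧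
      θ' l ≤ C * d l ∧ d l * θ' l ≤ C ∧ 0 ≤ ψ l ∧ α l ^ 2 ≤ C * d l ∧ α l ^ 2 ≤ C := by
  obtain ⟨α, θ, θ', B, sα, sθ, dθ, z0, z1, z2, B0, hb⟩ := theta
  obtain ⟨g, sg, dg, zg⟩ := prim (f := fun l => θ l - 1) (sθ.sub contDiff_const)
    fun l hl => by rw [(z0 l hl).2, sub_self]
  set d : ℝ → ℝ := fun l => Real.exp (l + g l) with hd
  have dpos : ∀ l, 0 < d l := fun l => Real.exp_pos _
  have dd : ∀ l, HasDerivAt d (d l * θ l) l := fun l => by
    have := ((hasDerivAt_id l).add (dg l)).exp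
    simpa [hd] using this
  have d0 : ∀ l, 0 ≤ l → d l = Real.exp l := fun l hl => by simp [hd, zg l hl]
  obtain ⟨m, sm, dm, zm⟩ := prim (f := fun l => d l - Real.exp l)
    ((contDiff_id.add sg).exp.sub Real.contDiff_exp) fun l hl => by rw [d0 l hl, sub_self]
  obtain ⟨ψ, -, dψ, zψ⟩ := prim (f := fun l => -α l) sα.neg fun l hl => by rw [(z0 l hl).1, neg_zero]
  have g0 : ∀ l, l ≤ 0 → 0 ≤ g l := fun l hl => by
    have := mono hl (F := fun l => -g l) (fun s _ => (dg s).neg)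
      fun s hs => by linarith [(hb s hs.le).2.2.2.1]
    simpa [zg 0 le_rfl] using this
  have ψ0 : ∀ l, l ≤ 0 → 0 ≤ ψ l := fun l hl => by
    have := mono hl (F := fun l => -ψ l) (fun s _ => (dψ s).neg)
      fun s hs => by linarith [(hb s hs.le).1]
    simpa [zψ 0 le_rfl] using this
  have ed : ∀ l, Real.exp l ≤ d l := fun l => by
    rcases le_total l 0 with h | h
    · exact Real.exp_le_exp.2 (by linarith [g0 l h])
    · exact (d0 l h).ge
  have dD : ∀ l, HasDerivAt (fun l => d l * (3 - l) ^ 2) (d l * (3 - l) * (θ l * (3 - l) - 2)) l :=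
    fun l => by
      refine ((dd l).mul (((hasDerivAt_id l).const_sub 3).pow 2)).congr_deriv ?_
      simp; ring
  have Dm : ∀ a b, a ≤ b → b ≤ 0 → d a * (3 - a) ^ 2 ≤ d b * (3 - b) ^ 2 := fun a b hab hb0 =>
    mono hab (fun s _ => dD s) fun s hs => mul_nonneg (mul_nonneg (dpos s).le (by linarith))
      (by linarith [(hb s (by linarith)).2.2.1])
  set c := d (-1) * (3 - (-1)) ^ 2 with hc
  have c0 : 0 < c := mul_pos (dpos _) (by norm_num)
  have Dup : ∀ l, l ≤ 0 → d l * (3 - l) ^ 2 ≤ 9 := fun l hl => by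
    have := Dm l 0 hl le_rfl
    rw [d0 0 le_rfl, Real.exp_zero] at this
    linarith
  have Dlo : ∀ l, l ≤ 0 → c ≤ d l * (3 - l) ^ 2 := fun l hl => by
    rcases le_total l (-1) with h | h
    · have := mono h (F := fun l => -(d l * (3 - l) ^ 2)) (fun s _ => (dD s).neg)
        fun s hs => by rw [(z2 s hs.le).2]; simp
      linarith
    · exact Dm (-1) l h hl
  have m0 : ∀ l, l ≤ 0 → -3 ≤ m l ∧ m l ≤ 0 := fun l hl => by
    constructor
    · have := mono hl (F := fun l => 9 / (3 - l) - m l)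
        (f := fun s => (0 * (3 - s) - 9 * (-1)) / (3 - s) ^ 2 - (d s - Real.exp s))
        (fun s hs => ((hasDerivAt_const s (9 : ℝ)).div ((hasDerivAt_id s).const_sub 3)
          (by simp only [id]; linarith)).sub (dm s))
        fun s hs => by
          have h1 : d s ≤ (0 * (3 - s) - 9 * (-1)) / (3 - s) ^ 2 := by
            rw [le_div_iff₀ (pow_pos (by linarith) 2)]
            linarith [Dup s hs.le]
          linarith [Real.exp_pos s]
      have h2 : 0 ≤ 9 / (3 - l) := div_nonneg (by norm_num) (by linarith)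
      rw [zm 0 le_rfl] at this
      linarith
    · have := mono hl (fun s _ => dm s) fun s _ => sub_nonneg.2 (ed s)
      rwa [zm 0 le_rfl] at this
  have lim : Tendsto ψ atBot atTop := by
    have h1 : Tendsto (fun l : ℝ => Real.log (3 - l) + (ψ (-1) - Real.log (3 - (-1)))) atBot atTop :=
      tendsto_atTop_add_const_right _ _ (Real.tendsto_log_atTop.comp
        (tendsto_atTop_add_const_left _ 3 tendsto_neg_atBot_atTop))
    refine tendsto_atTop_mono' _ ?_ h1
    filter_upwards [Iic_mem_atBot (-1 : ℝ)] with l hl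
    have := mono hl (F := fun l => Real.log (3 - l) - ψ l)
      (f := fun s => -1 / (3 - s) - -α s)
      (fun s hs => (((hasDerivAt_id s).const_sub 3).log (by simp only [id]; linarith)).sub (dψ s))
      fun s hs => by
        have h2 := (z2 s hs.le).1
        have h3 : 0 < 3 - s := by linarith
        have : α s = 1 / (3 - s) := by rw [eq_div_iff h3.ne']; exact h2
        rw [this]; ring_nf; rfl
    linarith
  have q1 : 0 ≤ B / c := by positivity
  have q2 : 0 < 1 / c := by positivity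
  refine ⟨m, d, θ, θ', ψ, α, 9 + B + B / c + 1 / c, sm, by positivity,
    fun l hl => ⟨zm l hl, zψ l hl⟩, lim, fun l => ⟨dm l, dd l, dθ l, dψ l, ed l, ?_⟩⟩
  have dp := dpos l
  have ep := Real.exp_pos l
  rcases le_or_gt l 0 with h | h
  · obtain ⟨a1, a2, a3, a4, a5, a6⟩ := hb l h
    obtain ⟨m1, m2⟩ := m0 l h
    have u1 := Dup l h
    have u2 := Dlo l h
    have h3 : 3 ≤ 3 - l := by linarith
    have h9 : 9 ≤ (3 - l) ^ 2 := by nlinarith
    have θp : 0 < θ l := by
      by_contra hn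
      nlinarith [not_lt.1 hn]
    have d1 : d l ≤ 1 := by nlinarith
    have e1 : Real.exp l ≤ 1 := Real.exp_le_one_iff.2 h
    have r1 : d l / θ l ≤ 3 := by
      rw [div_le_iff₀ θp]
      have : d l * (3 - l) ≤ 3 := by nlinarith
      nlinarith
    have r0 : 0 ≤ d l / θ l := by positivity
    have t1 : θ' l ≤ B := by nlinarith
    have t2 : θ' l ≤ B / c * d l := by
      rw [div_mul_eq_mul_div, le_div_iff₀ c0]
      nlinarith [mul_le_mul_of_nonneg_left u2 a5, mul_le_mul_of_nonneg_left a6 dp.le]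
    have t3 : (α l * (3 - l)) ^ 2 ≤ 1 := pow_le_one₀ (mul_nonneg a1 (by linarith)) a2
    have t4 : α l ^ 2 ≤ 1 / c * d l := by
      rw [div_mul_eq_mul_div, le_div_iff₀ c0]
      nlinarith [mul_le_mul_of_nonneg_left u2 (sq_nonneg (α l)),
        mul_le_mul_of_nonneg_left t3 dp.le]
    have t5 : α l ^ 2 ≤ 1 := by nlinarith [sq_nonneg (α l)]
    refine ⟨?_, ?_, θp, a4, ?_, a5, ?_, ?_, ψ0 l h, ?_, by linarith⟩
    · have : (d l - Real.exp l) * (1 + l ^ 2) ≤ d l * (3 - l) ^ 2 :=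
        mul_le_mul (by linarith) (by nlinarith) (by positivity) dp.le
      linarith
    · rw [abs_le]; constructor <;> linarith
    · rw [abs_le]; constructor <;> linarith
    · nlinarith [mul_nonneg B0 dp.le, mul_nonneg q2.le dp.le]
    · nlinarith
    · nlinarith [mul_nonneg B0 dp.le, mul_nonneg q1 dp.le]
  · rw [d0 l h.le, zm l h.le, zψ l h.le, (z0 l h.le).1, (z0 l h.le).2, z1 l h]
    simp only [sub_self, zero_mul, abs_zero, div_one, zero_add, mul_zero, le_refl, one_pos,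
      true_and, ne_eq, OfNat.ofNat_ne_zero, not_false_eq_true, zero_pow]
    refine ⟨?_, ?_, ?_, ?_, ?_, ?_, ?_⟩ <;> positivity

end ProfKP

open ProfKP

theorem pProfK : S_ProfK := by
  intro l1
  obtain ⟨m, d, θ, θ', ψ, α, C, sm, C0, z, lim, h⟩ := base
  set L := min (min l1 0) (Real.log (1 / (1000 * C))) with hL
  have L1 : L ≤ l1 := (min_le_left _ _).trans (min_le_left _ _)
  have L0 : L ≤ 0 := (min_le_left _ _).trans (min_le_right _ _)
  set e := Real.exp L with he
  have e0 : 0 < e := Real.exp_pos L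
  have e1 : e ≤ 1 := Real.exp_le_one_iff.2 L0
  have e2 : e * C ≤ 1 / 1000 := by
    have : e ≤ 1 / (1000 * C) := by
      rw [he, ← Real.le_log_iff_exp_le (by positivity)]; exact min_le_right _ _
    rw [le_div_iff₀ (by positivity)] at this
    linarith
  have ee : ∀ l, e * Real.exp (l - L) = Real.exp l := fun l => by
    rw [he, ← Real.exp_add]; congr 1; ring
  have sh : ∀ {f : ℝ → ℝ} {a l : ℝ}, HasDerivAt f a (l - L) → HasDerivAt (fun l => f (l - L)) a l :=
    fun hf => by simpa using hf.comp_sub_const _ L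
  have D1 : deriv (fun l => e * m (l - L)) = fun l => e * d (l - L) - Real.exp l := by
    funext l
    rw [((sh (h (l - L)).1).const_mul e).deriv, mul_sub, ee]
  have D2 : deriv (fun l => e * d (l - L) - Real.exp l) =
      fun l => e * (d (l - L) * θ (l - L)) - Real.exp l := by
    funext l
    exact (((sh (h (l - L)).2.1).const_mul e).sub (Real.hasDerivAt_exp l)).deriv
  have D3 : deriv (fun l => e * (d (l - L) * θ (l - L)) - Real.exp l) =
      fun l => e * (d (l - L) * θ (l - L) * θ (l - L) + d (l - L) * θ' (l - L)) - Real.exp l := by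
    funext l
    exact ((((sh (h (l - L)).2.1).mul (sh (h (l - L)).2.2.1)).const_mul e).sub
      (Real.hasDerivAt_exp l)).deriv
  have D4 : ∀ l, HasDerivAt (fun l => ψ (l - L)) (-α (l - L)) l := fun l => sh (h (l - L)).2.2.2.1
  have k1 : 0 < C / e := by positivity
  have k2 : 0 < 2 * C * (1 + L ^ 2) := by positivity
  refine ⟨fun l => e * m (l - L), fun l => ψ (l - L), C / e + C + 2 * C * (1 + L ^ 2),
    fun K hK => ?_⟩
  have K1 : C ≤ K * e := by
    rw [← div_le_iff₀ e0]; linarith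
  have K2 : C ≤ K := by linarith
  refine ⟨contDiff_const.mul (sm.comp (contDiff_id.sub contDiff_const)), fun l hl => ?_,
    fun l => ?_, fun l => ?_, fun l => (D4 l).differentiableAt, fun l hl => ?_, fun l => ?_,
    lim.comp (tendsto_atBot_add_const_right _ (-L) tendsto_id), fun l => ?_, fun l => ?_⟩
  · rw [(z _ (by linarith)).1, mul_zero]
  · rw [D1, D2, D3]
    obtain ⟨-, -, -, -, a1, a2, a3, a4, a5, a6, a7, a8, a9, -⟩ := h (l - L)
    have ex := ee l
    set x := Real.exp (l - L) with hx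
    have x0 : 0 < x := Real.exp_pos _
    set δ := d (l - L) with hδ
    set t := θ (l - L) with ht
    set t' := θ' (l - L) with ht'
    have δ0 : 0 < δ := x0.trans_le a1
    have a10 : δ - x ≤ C := by nlinarith [sq_nonneg (l - L)]
    have key : (Real.exp l + (e * δ - Real.exp l)) * (Real.exp l + (e * (δ * t * t + δ * t') -
        Real.exp l)) - (Real.exp l + (e * (δ * t) - Real.exp l)) ^ 2 = (e * δ) ^ 2 * t' := by ring
    have k3 : Real.exp l + (e * δ - Real.exp l) = e * δ := by ring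
    have k4 : Real.exp l + (e * (δ * t) - Real.exp l) = e * δ * t := by ring
    have p0 : 0 < e * δ := by positivity
    refine ⟨by nlinarith, by nlinarith, ?_, by rw [k4]; positivity, by nlinarith, ?_, ?_, ?_, ?_⟩
    · rw [abs_mul, abs_of_pos e0]; nlinarith
    · have : e * m (l - L) + Real.exp l - (e * δ) ^ 2 / (e * δ * t) =
          e * (m (l - L) + x - δ / t) := by
        rw [← ex]; field_simp
      rw [k3, k4, this, abs_mul, abs_of_pos e0]
      nlinarith
    · rw [key]; positivity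
    · rw [key, k3]
      have : t' ≤ K * (e * δ) := by nlinarith
      nlinarith [mul_le_mul_of_nonneg_left this (sq_nonneg (e * δ))]
    · rw [key, k3]
      have : e * (δ * t') ≤ K := by nlinarith [mul_nonneg δ0.le a7]
      nlinarith [mul_le_mul_of_nonneg_left this p0.le]
  · rw [D1, le_div_iff₀ (by positivity)]
    beta_reduce
    rw [← ee l]
    obtain ⟨-, -, -, -, a1, a2, -⟩ := h (l - L)
    have p1 : 1 + l ^ 2 ≤ 2 * (1 + L ^ 2) * (1 + (l - L) ^ 2) := by
      nlinarith [sq_nonneg (l - 2 * L), sq_nonneg (L * (l - L))]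
    have p2 : 0 ≤ d (l - L) - Real.exp (l - L) := sub_nonneg.2 a1
    have p3 := mul_le_mul_of_nonneg_left p1 p2
    have p4 := mul_le_mul_of_nonneg_left a2 (show 0 ≤ 2 * (1 + L ^ 2) by positivity)
    have p5 : e * ((d (l - L) - Real.exp (l - L)) * (1 + l ^ 2)) ≤
        (d (l - L) - Real.exp (l - L)) * (1 + l ^ 2) :=
      mul_le_of_le_one_left (by positivity) e1
    nlinarith
  · exact (z _ (by linarith)).2
  · exact (h (l - L)).2.2.2.2.2.2.2.2.2.2.2.2.2.1
  · rw [D1, (D4 l).deriv, neg_sq]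
    obtain ⟨-, -, -, -, a1, -, -, -, -, -, -, -, -, -, a2, -⟩ := h (l - L)
    have δ0 : 0 < d (l - L) := (Real.exp_pos _).trans_le a1
    nlinarith
  · rw [(D4 l).deriv, neg_sq]
    exact (h (l - L)).2.2.2.2.2.2.2.2.2.2.2.2.2.2.2.trans K2

end Pool.Agent.P.MP_5d7cf0_gt
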