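import Pool.Agent.P.MP_5d7cf0_gt.St

/-!
Package Prop: the exhaustion function is proper on the region of normal forms.
-/

open Set Filter Topology

namespace Pool.Agent.P.MP_5d7cf0_gt

namespace PropP

/-- the compact box -/
def box (δ : ℝ) : Set E :=
  {x | ‖x‖ ≤ 8 ∧ (∀ k, δ ≤ ‖x k‖) ∧ δ ≤ ‖x 1 - x 0‖ ∧ δ ≤ ‖x 2 - x 0‖ ∧ δ ≤ ‖x 2 - x 1‖ ∧
    ∀ k, δ ≤ ‖1 - x k‖}

theorem box_compact (δ : ℝ) : IsCompact (box δ) := by
  apply Metric.isCompact_of_isClosed_isBounded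
  · have h1 : IsClosed {x : E | ‖x‖ ≤ 8} := isClosed_le (by fun_prop) (by fun_prop)
    have h2 : IsClosed {x : E | ∀ k, δ ≤ ‖x k‖} := by
      rw [Set.ofPred_forall]
      exact isClosed_iInter fun k => isClosed_le (by fun_prop) (by fun_prop)
    have h3 : IsClosed {x : E | δ ≤ ‖x 1 - x 0‖} := isClosed_le (by fun_prop) (by fun_prop)
    have h4 : IsClosed {x : E | δ ≤ ‖x 2 - x 0‖} := isClosed_le (by fun_prop) (by fun_prop)
    have h5 : IsClosed {x : E | δ ≤ ‖x 2 - x 1‖} := isClosed_le (by fun_prop) (by fun_prop)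
    have h6 : IsClosed {x : E | ∀ k, δ ≤ ‖1 - x k‖} := by
      rw [Set.ofPred_forall]
      exact isClosed_iInter fun k => isClosed_le (by fun_prop) (by fun_prop)
    exact h1.inter (h2.inter (h3.inter (h4.inter (h5.inter h6))))
  · exact (Metric.isBounded_closedBall (x := (0 : E)) (r := 8)).subset fun x hx => by
      simpa using hx.1

theorem box_sub {δ : ℝ} (hδ : 0 < δ) : box δ ⊆ X := by
  rintro x ⟨-, h2, h3, h4, h5, h6⟩
  have ne : ∀ z : ℂ, δ ≤ ‖z‖ → z ≠ 0 := fun z hz h => by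
    rw [h, norm_zero] at hz
    exact absurd hz (not_le.2 hδ)
  have a0 := ne _ (h2 0)
  have a1 := ne _ (h2 1)
  have a2 := ne _ (h2 2)
  have b1 := sub_ne_zero.1 (ne _ h3)
  have b2 := sub_ne_zero.1 (ne _ h4)
  have b3 := sub_ne_zero.1 (ne _ h5)
  have c0 := sub_ne_zero.1 (ne _ (h6 0))
  have c1 := sub_ne_zero.1 (ne _ (h6 1))
  have c2 := sub_ne_zero.1 (ne _ (h6 2))
  intro i j hij
  fin_cases i <;> fin_cases j <;>
    simp [br, pt, sub_eq_zero, a0, a1, a2, b1, b2, b3, c0, c1, c2, b1.symm, b2.symm, b3.symm,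
      c0.symm, c1.symm, c2.symm] at hij ⊢

theorem mem_box {ε : ℝ} (hε : 0 < ε) (hε1 : ε ≤ 1) {x : E} (hx : x ∈ FF)
    (hw : ∀ i, ε ≤ wt i x) : x ∈ box (ε ^ 3 / 5) := by
  obtain ⟨-, h1, h2, h3, h4, h5, h6⟩ := hx
  have w0 : ε ≤ ‖x 1 / x 2‖ := hw none
  have w1 : ε ≤ ‖x 0 / x 1‖ := hw (some 0)
  have w2 : ε ≤ ‖1 - x 1 / x 2‖ := hw (some 1)
  have w3 : ε ≤ ‖x 2‖ := hw (some 2)
  have p2 : 0 < ‖x 2‖ := hε.trans_le w3
  have n2 : x 2 ≠ 0 := norm_pos_iff.1 p2
  rw [norm_div, le_div_iff₀ p2] at w0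
  have e2 : ε ^ 2 ≤ ‖x 1‖ := by nlinarith
  have p1 : 0 < ‖x 1‖ := (pow_pos hε 2).trans_le e2
  rw [norm_div, le_div_iff₀ p1] at w1
  have e3 : ε ^ 3 ≤ ‖x 0‖ := by nlinarith
  have hq : 1 - x 1 / x 2 = (x 2 - x 1) / x 2 := by field_simp
  rw [hq, norm_div, le_div_iff₀ p2] at w2
  have e4 : ε ^ 2 ≤ ‖x 2 - x 1‖ := by nlinarith
  have q3 : 0 < ε ^ 3 := pow_pos hε 3
  have q32 : ε ^ 3 ≤ ε ^ 2 := pow_le_pow_of_le_one hε.le hε1 (by norm_num)
  have q21 : ε ^ 2 ≤ ε := by nlinarith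
  refine ⟨?_, ?_, by linarith, by linarith, by linarith, fun k => by linarith [h6 k]⟩
  · refine (pi_norm_le_iff_of_nonneg (by norm_num)).2 fun k => ?_
    fin_cases k
    · show ‖x 0‖ ≤ 8
      linarith
    · show ‖x 1‖ ≤ 8
      linarith
    · show ‖x 2‖ ≤ 8
      linarith
  · intro k
    fin_cases k
    · show _ ≤ ‖x 0‖
      linarith
    · show _ ≤ ‖x 1‖
      linarith
    · show _ ≤ ‖x 2‖
      linarith

theorem x_ne {x : E} (hx : x ∈ X) : x 1 ≠ 0 ∧ x 2 ≠ 0 := by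
  have h1 := hx 2 0 (by decide)
  have h2 := hx 3 0 (by decide)
  simp [br, pt] at h1 h2
  exact ⟨h1, h2⟩

theorem wt_nonneg (i : Option (Fin 3)) (x : E) : 0 ≤ wt i x := by
  rcases i with _ | i
  · exact norm_nonneg _
  · fin_cases i <;> exact norm_nonneg _

theorem card_sp (i : Fin 3) : (sp (some i)).card = 2 := by
  fin_cases i <;> decide

theorem core {V ξ C η m ψ M l1 p1 ps K q c1 c2} (h : All V ξ C η m ψ M l1 p1 ps K q c1 c2)
    (R : ℝ) : ∃ ε : ℝ, 0 < ε ∧ ε ≤ 1 ∧ ∀ x ∈ FF, psi ξ q ψ x ≤ R → ∀ i, ε ≤ wt i x := by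
  obtain ⟨hd, hk, -, hs, hc⟩ := h
  obtain ⟨b, hb⟩ := eventually_atBot.1 (hk.ψlim.eventually_gt_atTop (R + 1))
  have hC := hd.Cpos
  have hc1 := hc.pos
  have hD : 0 < (|c2| + 1) * C := by positivity
  set e1 : ℝ := 4 * Real.exp (-(C * Real.exp R / c1)) with he1
  set e2 : ℝ := (Real.exp b / ((|c2| + 1) * C)) ^ (3 / 2 : ℝ) with he2
  have p1' : 0 < e1 := by positivity
  have p2' : 0 < e2 := by positivity
  refine ⟨min 1 (min η (min e1 e2)), lt_min one_pos (lt_min hd.ηpos (lt_min p1' p2')),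
    min_le_left _ _, fun x hx hR i => ?_⟩
  have hX : x ∈ X := hx.1
  have hnn : ∀ S ∈ (Finset.univ : Finset (Finset (Fin 6))),
      0 ≤ if S.card = 2 then ψ (Lg ξ q S x) else 0 := fun S _ => by
    split_ifs
    · exact hk.ψpos _
    · exact le_rfl
  have hsum := Finset.sum_nonneg hnn
  unfold psi at hR
  obtain ⟨n1, n2⟩ := x_ne hX
  have hU : 0 < V x * ‖x 2‖ ^ (2 / 3 : ℝ) :=
    mul_pos (hd.posV x hX) (Real.rpow_pos_of_pos (norm_pos_iff.2 n2) _)
  set U := V x * ‖x 2‖ ^ (2 / 3 : ℝ) with hUdef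
  rcases i with _ | i
  · refine (min_le_right _ _).trans ((min_le_right _ _).trans ((min_le_left _ _).trans ?_))
    have hw : 0 < wt none x := norm_pos_iff.2 (div_ne_zero n1 n2)
    have h1 : c1 * U ≤ Real.exp R := (hc.lo x hx).trans (Real.exp_le_exp.2 (by linarith))
    have h2 : U ≤ Real.exp R / c1 := by
      rw [le_div_iff₀ hc1]
      linarith
    have h3 : Real.log (4 / wt none x) ≤ C * Real.exp R / c1 := by
      have := mul_le_mul_of_nonneg_left h2 hC.le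
      rw [mul_div_assoc]
      exact (hd.v1 x hx).trans this
    have h4 := Real.exp_le_exp.2 h3
    rw [Real.exp_log (by positivity), div_le_iff₀ hw] at h4
    rw [he1, Real.exp_neg, ← div_eq_mul_inv, div_le_iff₀ (Real.exp_pos _)]
    linarith
  · rcases hd.est x hx (some i) with h1 | h1
    · exact (min_le_right _ _).trans ((min_le_left _ _).trans h1.1)
    refine (min_le_right _ _).trans ((min_le_right _ _).trans ((min_le_right _ _).trans ?_))
    have h2 := Finset.single_le_sum hnn (Finset.mem_univ (sp (some i)))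
    rw [if_pos (card_sp i)] at h2
    have h3 : b ≤ Lg ξ q (sp (some i)) x := by
      by_contra h4
      have := hb _ (not_le.1 h4).le
      linarith [hs.low x hX]
    have hξ := hd.posξ (sp (some i)) x hX
    have h4 := Real.exp_le_exp.2 h3
    rw [Lg, Real.exp_add, Real.exp_log hξ] at h4
    have h5 : Real.exp (q x) ≤ (|c2| + 1) * U :=
      (hc.hi x hx).trans (mul_le_mul_of_nonneg_right (by linarith [le_abs_self c2]) hU.le)
    have h6 : ξ (sp (some i)) x * U ≤ C * wt (some i) x ^ (2 / 3 : ℝ) := by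
      have := h1.2
      rw [mul_assoc] at this
      exact this
    have h7 : Real.exp b ≤ (|c2| + 1) * C * wt (some i) x ^ (2 / 3 : ℝ) :=
      calc Real.exp b ≤ Real.exp (q x) * ξ (sp (some i)) x := h4
        _ ≤ (|c2| + 1) * U * ξ (sp (some i)) x := mul_le_mul_of_nonneg_right h5 hξ.le
        _ = (|c2| + 1) * (ξ (sp (some i)) x * U) := by ring
        _ ≤ (|c2| + 1) * (C * wt (some i) x ^ (2 / 3 : ℝ)) :=
          mul_le_mul_of_nonneg_left h6 (by positivity)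
        _ = _ := by ring
    have h8 : Real.exp b / ((|c2| + 1) * C) ≤ wt (some i) x ^ (2 / 3 : ℝ) := by
      rw [div_le_iff₀ hD]
      linarith
    have h9 := Real.rpow_le_rpow (by positivity) h8 (by norm_num : (0 : ℝ) ≤ 3 / 2)
    rw [← Real.rpow_mul (wt_nonneg _ _)] at h9
    norm_num at h9
    exact h9

end PropP

theorem pProp : S_Prop := by
  intro V ξ C η m ψ M l1 p1 ps K q c1 c2 h R
  obtain ⟨ε, h0, h1, h2⟩ := PropP.core h R
  exact ⟨PropP.box (ε ^ 3 / 5), PropP.box_compact _, PropP.box_sub (by positivity),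
    fun x hx hR => PropP.mem_box h0 h1 hx (h2 x hx hR)⟩

end Pool.Agent.P.MP_5d7cf0_gt
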