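import Pool.Agent.P.MP_5d7cf0_gt.St

/-! Package RP: the squared period of a close pair. -/

open Set Filter Topology MeasureTheory ComplexConjugate

namespace Pool.Agent.P.MP_5d7cf0_gt

namespace RPP

theorem mem_c {i j k : Fin 6} : k ∈ ({i, j} : Finset (Fin 6))ᶜ ↔ k ≠ i ∧ k ≠ j := by simp

theorem card_c {i j : Fin 6} (h : i ≠ j) : (({i, j} : Finset (Fin 6))ᶜ).card = 4 := by
  rw [Finset.card_compl, Finset.card_pair h]; rfl

theorem bet_ne {v : V6} (hv : Gen v) {i j k : Fin 6} (h1 : k ≠ i) (h2 : k ≠ j) :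
    bet v i j k ≠ 0 := div_ne_zero (hv _ _ h2.symm) (hv _ _ h1.symm)

theorem ratio {v : V6} (hv : Gen v) {i j k l : Fin 6} (hk : k ∈ ({i, j} : Finset (Fin 6))ᶜ)
    (hl : l ∈ ({i, j} : Finset (Fin 6))ᶜ) : ‖bet v i j k / bet v i j l - 1‖ ≤ cc {i, j} v := by
  have a1 := hv _ _ (mem_c.1 hk).1.symm
  have a2 := hv _ _ (mem_c.1 hl).1.symm
  have a3 := hv _ _ (mem_c.1 hl).2.symm
  have e : bet v i j k / bet v i j l - 1 =
      -(br (v i) (v j) * br (v k) (v l) / (br (v i) (v k) * br (v j) (v l))) := by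
    unfold bet
    field_simp
    unfold br
    ring
  rw [e, norm_neg]
  unfold cc
  refine le_trans ?_ (Finset.single_le_sum (fun _ _ => by positivity) (a := i) (by simp))
  refine le_trans ?_ (Finset.single_le_sum (fun _ _ => by positivity) (a := j) (by simp))
  refine le_trans ?_ (Finset.single_le_sum (fun _ _ => by positivity) hk)
  exact Finset.single_le_sum (f := fun d => ‖br (v i) (v j) * br (v k) (v d) /
    (br (v i) (v k) * br (v j) (v d))‖) (fun _ _ => by positivity) hl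

theorem near {v : V6} (hv : Gen v) {i j k : Fin 6} (hij : i ≠ j) (hc : cc {i, j} v < del)
    (hk : k ∈ ({i, j} : Finset (Fin 6))ᶜ) :
    ‖4 / (∑ l ∈ ({i, j} : Finset (Fin 6))ᶜ, bet v i j l) * bet v i j k - 1‖ ≤ 1 / 100 := by
  have b0 := bet_ne hv (mem_c.1 hk).1 (mem_c.1 hk).2
  set e := ∑ l ∈ ({i, j} : Finset (Fin 6))ᶜ, (bet v i j l / bet v i j k - 1) with he
  have h1 : ‖e‖ ≤ 4 / 10000 := by
    refine (norm_sum_le _ _).trans ((Finset.sum_le_card_nsmul _ _ del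
      fun l hl => (ratio hv hl hk).trans hc.le).trans ?_)
    rw [card_c hij, del]; norm_num
  have h2 : ∑ l ∈ ({i, j} : Finset (Fin 6))ᶜ, bet v i j l = bet v i j k * (4 + e) := by
    rw [he, Finset.sum_sub_distrib, ← Finset.sum_div, Finset.sum_const, card_c hij]
    field_simp
    simp
  have h3 : 3 ≤ ‖4 + e‖ := by
    have := norm_sub_norm_le (4 : ℂ) (-e)
    rw [sub_neg_eq_add, norm_neg] at this
    simp only [Complex.norm_ofNat] at this
    linarith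
  have h4 : 4 + e ≠ 0 := by
    intro h; rw [h, norm_zero] at h3; linarith
  have h5 : 4 / (bet v i j k * (4 + e)) * bet v i j k - 1 = -e / (4 + e) := by
    field_simp; ring
  rw [h2, h5, norm_div, norm_neg, div_le_iff₀ (by linarith)]
  linarith

theorem re_pos {z : ℂ} (h : ‖z - 1‖ ≤ 1 / 100) : 0 < z.re := by
  have := (abs_le.1 ((Complex.abs_re_le_norm (z - 1)).trans h)).1
  simp only [Complex.sub_re, Complex.one_re] at this
  linarith

theorem indep (hP : S_Pi) {v : V6} {i j : Fin 6} (hij : i ≠ j) {κ κ' : ℂ}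
    (h : ∀ k ∈ ({i, j} : Finset (Fin 6))ᶜ, 0 < (κ * bet v i j k).re)
    (h' : ∀ k ∈ ({i, j} : Finset (Fin 6))ᶜ, 0 < (κ' * bet v i j k).re) :
    rK v i j κ = rK v i j κ' := by
  obtain ⟨k₀, hk₀⟩ : (({i, j} : Finset (Fin 6))ᶜ).Nonempty :=
    Finset.card_pos.1 (by rw [card_c hij]; norm_num)
  have h0 : κ' ≠ 0 := by
    rintro rfl
    simpa using h' k₀ hk₀
  have a1 : ∀ τ ∈ Icc (0 : ℝ) 1, ∀ k ∈ ({i, j} : Finset (Fin 6))ᶜ,
      0 < ((1 - τ + τ * (κ / κ')) * (κ' * bet v i j k)).re := by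
    intro τ hτ k hk
    have e : (1 - τ + τ * (κ / κ')) * (κ' * bet v i j k) =
        ((1 - τ : ℝ) : ℂ) * (κ' * bet v i j k) + τ * (κ * bet v i j k) := by
      push_cast; field_simp
    rw [e, Complex.add_re, Complex.re_ofReal_mul, Complex.re_ofReal_mul]
    have b1 := h k hk
    have b2 := h' k hk
    rcases hτ.1.eq_or_lt with rfl | b3
    · simpa using b2
    · have := mul_nonneg (sub_nonneg.2 hτ.2) b2.le
      have := mul_pos b3 b1
      linarith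
  have a2 := hP.1 _ (fun k => κ' * bet v i j k) (κ / κ') (card_c hij) fun τ hτ =>
    ⟨by
      by_contra hn
      have b1 := a1 τ hτ k₀ hk₀
      have b2 := h' k₀ hk₀
      rw [Complex.mem_slitPlane_iff, not_or, not_lt, not_not] at hn
      rw [Complex.mul_re, hn.2, zero_mul, sub_zero] at b1
      nlinarith [hn.1], fun k hk => Or.inl (a1 τ hτ k hk)⟩
  have e : (fun k => κ / κ' * (κ' * bet v i j k)) = fun k => κ * bet v i j k := by
    ext k; field_simp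
  rw [e] at a2
  unfold rK
  rw [← a2, mul_pow, ← Real.rpow_natCast (‖κ / κ'‖ ^ _), ← Real.rpow_mul (norm_nonneg _),
    norm_div, Real.div_rpow (norm_nonneg _) (norm_nonneg _)]
  have : 0 < ‖κ'‖ ^ (4 / 3 : ℝ) := Real.rpow_pos_of_pos (norm_pos_iff.2 h0) _
  norm_num
  field_simp

theorem swap (hP : S_Pi) {v : V6} (hv : Gen v) {i j : Fin 6} (hij : i ≠ j) {κ : ℂ}
    (h : ∀ k ∈ ({i, j} : Finset (Fin 6))ᶜ, 0 < (κ * bet v i j k).re) :
    rK v j i κ⁻¹ = rK v i j κ := by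
  obtain ⟨k₀, hk₀⟩ : (({i, j} : Finset (Fin 6))ᶜ).Nonempty :=
    Finset.card_pos.1 (by rw [card_c hij]; norm_num)
  have h0 : κ ≠ 0 := by
    rintro rfl
    simpa using h k₀ hk₀
  have n0 := norm_pos_iff.2 h0
  have a := hP.2.1 _ (fun k => κ * bet v i j k) (card_c hij) h
  have e : (fun k => κ⁻¹ * bet v j i k) = fun k => (κ * bet v i j k)⁻¹ := by
    ext k; simp [bet, mul_comm]
  have e2 : ‖br (v j) (v i)‖ = ‖br (v i) (v j)‖ := by
    rw [← norm_neg]; congr 1; unfold br; ring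
  have e3 : (∏ k ∈ ({i, j} : Finset (Fin 6))ᶜ, ‖br (v i) (v k)‖ ^ (-(2 / 3) : ℝ)) *
      (∏ k ∈ ({i, j} : Finset (Fin 6))ᶜ, ‖κ * bet v i j k‖ ^ (-(1 / 3) : ℝ)) ^ 2 =
      (‖κ‖ ^ (-(2 / 3) : ℝ)) ^ 4 *
        ∏ k ∈ ({i, j} : Finset (Fin 6))ᶜ, ‖br (v j) (v k)‖ ^ (-(2 / 3) : ℝ) := by
    rw [← card_c hij, ← Finset.prod_const, ← Finset.prod_mul_distrib, ← Finset.prod_pow,
      ← Finset.prod_mul_distrib]
    refine Finset.prod_congr rfl fun k hk => ?_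
    have b := hv _ _ (mem_c.1 hk).1.symm
    rw [← Real.rpow_natCast, ← Real.rpow_mul (norm_nonneg _),
      show (-(1 / 3) : ℝ) * (2 : ℕ) = -(2 / 3) by norm_num,
      ← Real.mul_rpow (norm_nonneg _) (norm_nonneg _),
      ← Real.mul_rpow (norm_nonneg _) (norm_nonneg _), ← norm_mul, ← norm_mul]
    congr 2
    unfold bet
    field_simp
  have e4 : ‖κ⁻¹‖ ^ (4 / 3 : ℝ) = ‖κ‖ ^ (4 / 3 : ℝ) * (‖κ‖ ^ (-(2 / 3) : ℝ)) ^ 4 := by
    rw [← Real.rpow_natCast, ← Real.rpow_mul n0.le, ← Real.rpow_add n0, norm_inv,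
      Real.inv_rpow n0.le, ← Real.rpow_neg n0.le]
    norm_num
  unfold rK
  rw [Finset.pair_comm j i, e, e2, a, mul_pow, e4]
  linear_combination (-(3 * ‖br (v i) (v j)‖ ^ (2 / 3 : ℝ) * ‖κ‖ ^ (4 / 3 : ℝ) *
    ‖PiS ({i, j} : Finset (Fin 6))ᶜ fun k => (κ * bet v i j k)⁻¹‖ ^ 2)) * e3

theorem cube {v : V6} (hv : Gen v) (i j k : Fin 6) (κ : ℂ) :
    rK v i j κ ^ 3 * ‖bet v i j k‖ ^ 4 *
      (∏ n ∈ ({i, j} : Finset (Fin 6))ᶜ, ‖br (v i) (v n)‖) ^ 2 =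
    27 * ‖br (v i) (v j)‖ ^ 2 * ‖κ * bet v i j k‖ ^ 4 *
      ‖PiS ({i, j} : Finset (Fin 6))ᶜ fun k => κ * bet v i j k‖ ^ 6 := by
  have e1 : ∀ (x : ℝ) (n : ℕ), 0 ≤ x → (x ^ (n / 3 : ℝ)) ^ 3 = x ^ n := fun x n hx => by
    rw [← Real.rpow_natCast, ← Real.rpow_mul hx, ← Real.rpow_natCast]
    congr 1; push_cast; ring
  have e2 := e1 _ 2 (norm_nonneg (br (v i) (v j)))
  have e3 := e1 _ 4 (norm_nonneg κ)
  have e4 : (∏ k ∈ ({i, j} : Finset (Fin 6))ᶜ, ‖br (v i) (v k)‖ ^ (-(2 / 3) : ℝ)) ^ 3 *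
      (∏ n ∈ ({i, j} : Finset (Fin 6))ᶜ, ‖br (v i) (v n)‖) ^ 2 = 1 := by
    rw [← Finset.prod_pow, ← Finset.prod_pow, ← Finset.prod_mul_distrib]
    refine Finset.prod_eq_one fun n hn => ?_
    have b := norm_pos_iff.2 (hv _ _ (mem_c.1 hn).1.symm)
    have := e1 _ 2 b.le
    push_cast at this
    rw [Real.rpow_neg b.le, inv_pow, this]
    field_simp
  push_cast at e2 e3
  unfold rK
  rw [mul_pow, mul_pow, mul_pow, mul_pow, e2, e3, norm_mul]
  linear_combination (27 * ‖br (v i) (v j)‖ ^ 2 * (‖κ‖ * ‖bet v i j k‖) ^ 4 *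
    ‖PiS ({i, j} : Finset (Fin 6))ᶜ fun k => κ * bet v i j k‖ ^ 6) * e4

end RPP

open RPP in
theorem pRP (hP : S_Pi) : S_RP := by
  refine ⟨fun v hv i j hij hc => ⟨?_, fun κ hκ => ?_⟩, ?_⟩
  · have h := fun k hk => re_pos (near hv hij hc (k := k) hk)
    unfold rP
    rw [← swap hP hv hij h]
    refine indep hP hij.symm (fun k hk => ?_) fun k hk =>
      re_pos (near hv hij.symm (by rwa [Finset.pair_comm]) hk)
    rw [Finset.pair_comm] at hk
    have e : ∀ κ : ℂ, κ⁻¹ * bet v j i k = (κ * bet v i j k)⁻¹ := fun κ => by simp [bet, mul_comm]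
    have h1 := h k hk
    rw [e, Complex.inv_re]
    refine div_pos h1 (Complex.normSq_pos.2 fun h0 => ?_)
    rw [h0] at h1; simp at h1
  · exact indep hP hij (fun k hk => hκ k (mem_c.1 hk).1 (mem_c.1 hk).2)
      fun k hk => re_pos (near hv hij hc hk)
  obtain ⟨C, hC, H⟩ := hP.2.2
  refine ⟨432 * C ^ 6, by positivity, fun v hv i j k hij hki hkj hc r hr => ?_⟩
  obtain ⟨h1, h2⟩ := H _ _ (card_c hij) fun k hk => near hv hij hc hk
  have h3 := near hv hij hc (mem_c.2 ⟨hki, hkj⟩)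
  unfold rP at hr ⊢
  rw [cube hv] at hr
  set κ := 4 / ∑ k ∈ ({i, j} : Finset (Fin 6))ᶜ, bet v i j k
  have b1 : ‖κ * bet v i j k‖ ≤ 2 := by
    have := norm_sub_norm_le (κ * bet v i j k) 1
    rw [norm_one] at this; linarith
  have b2 : 1 ≤ 2 * ‖κ * bet v i j k‖ := by
    have := norm_sub_norm_le 1 (κ * bet v i j k)
    rw [norm_one, norm_sub_rev] at this; linarith
  have b3 : κ ≠ 0 := by
    intro h; rw [h] at b2; simp at b2; linarith
  have b4 := norm_pos_iff.2 (hv _ _ hij)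
  set p := ‖PiS ({i, j} : Finset (Fin 6))ᶜ fun k => κ * bet v i j k‖ with hp
  have p0 : 0 < p := by
    by_contra h
    nlinarith
  refine ⟨?_, ?_, ?_⟩
  · unfold rK
    have := norm_pos_iff.2 b3
    have : 0 < ∏ k ∈ ({i, j} : Finset (Fin 6))ᶜ, ‖br (v i) (v k)‖ ^ (-(2 / 3) : ℝ) :=
      Finset.prod_pos fun n hn =>
        Real.rpow_pos_of_pos (norm_pos_iff.2 (hv _ _ (mem_c.1 hn).1.symm)) _
    rw [← hp]
    positivity
  · have c1 : 1 ≤ (C * p) ^ 6 * (2 * ‖κ * bet v i j k‖) ^ 4 :=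
      one_le_mul_of_one_le_of_one_le (one_le_pow₀ h1) (one_le_pow₀ b2)
    have c2 : 0 ≤ ‖br (v i) (v j)‖ ^ 2 := by positivity
    rw [hr]
    nlinarith
  · rw [hr]
    calc 27 * ‖br (v i) (v j)‖ ^ 2 * ‖κ * bet v i j k‖ ^ 4 * p ^ 6
        ≤ 27 * ‖br (v i) (v j)‖ ^ 2 * 2 ^ 4 * C ^ 6 := by gcongr
      _ = _ := by ring

end Pool.Agent.P.MP_5d7cf0_gt
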