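import Pool.Agent.P.MP_5d7cf0_gt.St

/-!
Package RT: the squared period of a triple does not depend on the choices.
-/

open Set Filter Topology

namespace Pool.Agent.P.MP_5d7cf0_gt

namespace RTP

theorem norm_br_comm (u w : ℂ × ℂ) : ‖br u w‖ = ‖br w u‖ := by
  have : br u w = -br w u := by unfold br; ring
  rw [this, norm_neg]

theorem Lp_congr {S : Finset (Fin 6)} {α α' β β' : Fin 6 → ℂ} (ρ : ℝ) (hα : ∀ k ∈ S, α k = α' k)
    (hβ : ∀ l ∈ Sᶜ, β l = β' l) : Lp S α β ρ = Lp S α' β' ρ := by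
  unfold Lp
  congr 1
  funext w
  rw [Finset.prod_congr rfl fun k hk => by rw [hα k hk],
    Finset.prod_congr (s₁ := Sᶜ) rfl fun l hl => by rw [hβ l hl]]

theorem card_compl {S : Finset (Fin 6)} (hS : S.card = 3) : Sᶜ.card = 3 := by
  rw [Finset.card_compl, hS]; rfl

theorem cc_compl (S : Finset (Fin 6)) (v : V6) : cc Sᶜ v = cc S v := by
  unfold cc
  rw [compl_compl]
  have h1 : ∀ a, (∑ b ∈ Sᶜ, ∑ c ∈ S, ∑ d ∈ S,
      ‖br (v a) (v b) * br (v c) (v d) / (br (v a) (v c) * br (v b) (v d))‖) =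
      ∑ c ∈ S, ∑ d ∈ S, ∑ b ∈ Sᶜ,
        ‖br (v a) (v b) * br (v c) (v d) / (br (v a) (v c) * br (v b) (v d))‖ := fun a => by
    rw [Finset.sum_comm]
    exact Finset.sum_congr rfl fun c _ => Finset.sum_comm
  simp_rw [h1]
  rw [Finset.sum_comm]
  refine Finset.sum_congr rfl fun c _ => ?_
  rw [Finset.sum_comm]
  refine Finset.sum_congr rfl fun d _ => Finset.sum_congr rfl fun a _ =>
    Finset.sum_congr rfl fun b _ => ?_
  simp only [norm_div, norm_mul]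
  rw [norm_br_comm (v a) (v c), norm_br_comm (v b) (v d), mul_comm ‖br (v a) (v b)‖]

theorem AB_le (v : V6) {S : Finset (Fin 6)} {p q : Fin 6} (hp : p ∈ S) (hq : q ∉ S) :
    (∑ k ∈ S, ‖bet v q p k‖) * ∑ l ∈ Sᶜ, ‖bet v p q l‖ ≤ cc S v := by
  unfold cc
  refine le_trans ?_ (Finset.single_le_sum (f := fun a => ∑ b ∈ S, ∑ c ∈ Sᶜ, ∑ d ∈ Sᶜ,
    ‖br (v a) (v b) * br (v c) (v d) / (br (v a) (v c) * br (v b) (v d))‖)
    (fun a _ => by positivity) hp)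
  rw [Finset.sum_mul_sum]
  refine Finset.sum_le_sum fun k _ => Finset.sum_le_sum fun l _ => ?_
  refine le_trans (le_of_eq ?_) (Finset.single_le_sum (f := fun d =>
    ‖br (v p) (v k) * br (v l) (v d) / (br (v p) (v l) * br (v k) (v d))‖)
    (fun d _ => norm_nonneg _) (Finset.mem_compl.2 hq))
  simp only [bet, norm_div, norm_mul]
  rw [norm_br_comm (v l) (v q), norm_br_comm (v k) (v q), div_mul_div_comm,
    mul_comm ‖br (v q) (v k)‖]

theorem A_pos {v : V6} (hv : Gen v) {S : Finset (Fin 6)} (hS : S.card = 3) {p q : Fin 6}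
    (hq : q ∉ S) : 0 < ∑ k ∈ S, ‖bet v q p k‖ := by
  obtain ⟨k, hk, hkp⟩ := Finset.exists_mem_ne (s := S) (by omega) p
  refine Finset.sum_pos' (fun _ _ => norm_nonneg _) ⟨k, hk, norm_pos_iff.2 ?_⟩
  exact div_ne_zero (hv _ _ hkp.symm) (hv _ _ fun h => hq (h ▸ hk))

/-- the canonical radius -/
noncomputable def r0 (v : V6) (S : Finset (Fin 6)) (p q : Fin 6) : ℝ :=
  √((∑ k ∈ S, ‖bet v q p k‖) / ∑ l ∈ Sᶜ, ‖bet v p q l‖)

theorem r0_spec {v : V6} (hv : Gen v) {S : Finset (Fin 6)} (hS : S.card = 3) (hc : cc S v < del)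
    {p q : Fin 6} (hp : p ∈ S) (hq : q ∉ S) :
    0 < r0 v S p q ∧ (∀ k ∈ S, ‖bet v q p k‖ ≤ r0 v S p q / 100) ∧
      ∀ l ∈ Sᶜ, ‖bet v p q l‖ * r0 v S p q ≤ 1 / 100 := by
  have hA := A_pos hv hS (p := p) hq
  have hB := A_pos hv (card_compl hS) (p := q) (q := p) (by simpa using hp)
  have hAB := (AB_le v hp hq).trans_lt hc
  unfold del at hAB
  unfold r0
  set A := ∑ k ∈ S, ‖bet v q p k‖ with hAd
  set B := ∑ l ∈ Sᶜ, ‖bet v p q l‖ with hBd
  have h0 : 0 < √(A / B) := Real.sqrt_pos.2 (div_pos hA hB)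
  have h1 : √(A / B) ^ 2 = A / B := Real.sq_sqrt (div_pos hA hB).le
  set ρ := √(A / B)
  have h2 : ρ ^ 2 * B = A := by rw [h1]; field_simp
  have h3 : B * ρ ≤ 1 / 100 := by
    by_contra h
    push Not at h
    have : (B * ρ) ^ 2 = A * B := by rw [← h2]; ring
    nlinarith
  have h4 : A ≤ ρ / 100 := by
    have : A = ρ * (B * ρ) := by rw [← h2]; ring
    rw [this]
    nlinarith
  refine ⟨h0, fun k hk => le_trans ?_ h4, fun l hl => le_trans ?_ h3⟩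
  · exact Finset.single_le_sum (f := fun k => ‖bet v q p k‖) (fun _ _ => norm_nonneg _) hk
  · exact mul_le_mul_of_nonneg_right
      (Finset.single_le_sum (f := fun l => ‖bet v p q l‖) (fun _ _ => norm_nonneg _) hl) h0.le

theorem radius (hL : S_Lp) {v : V6} (hv : Gen v) {S : Finset (Fin 6)} (hS : S.card = 3)
    (hc : cc S v < del) {p q : Fin 6} (hp : p ∈ S) (hq : q ∉ S) {ρ : ℝ} (hρ : 0 < ρ)
    (hα : ∀ k ∈ S, ‖bet v q p k‖ < ρ) (hβ : ∀ l ∉ S, ‖bet v p q l‖ * ρ < 1) :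
    rR v S p q ρ = rT v S p q := by
  obtain ⟨h0, h1, h2⟩ := r0_spec hv hS hc hp hq
  change rR v S p q ρ = rR v S p q (r0 v S p q)
  unfold rR
  rw [hL.1 S _ _ ρ (r0 v S p q) hρ h0
    (fun k hk => ⟨hα k hk, by linarith [h1 k hk]⟩)
    (fun l hl => ⟨hβ l (Finset.mem_compl.1 hl), by linarith [h2 l hl]⟩)]

theorem swap (hL : S_Lp) {v : V6} (hv : Gen v) {S : Finset (Fin 6)} (hS : S.card = 3)
    (hc : cc S v < del) {p q : Fin 6} (hp : p ∈ S) (hq : q ∉ S) :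
    rT v Sᶜ q p = rT v S p q := by
  have h0 := (r0_spec hv hS hc hp hq).1
  have e : r0 v Sᶜ q p = (r0 v S p q)⁻¹ := by
    unfold r0
    rw [compl_compl, ← Real.sqrt_inv, inv_div]
  change rR v Sᶜ q p (r0 v Sᶜ q p) = rR v S p q (r0 v S p q)
  rw [e]
  unfold rR
  rw [hL.2.2.1 S _ _ _ h0, compl_compl, norm_br_comm (v q) (v p)]
  ring

theorem pluecker (a b c d : ℂ × ℂ) : br a d * br c b - br a b * br c d = br a c * br d b := by
  unfold br; ring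

theorem br_anti (a b : ℂ × ℂ) : br a b = -br b a := by unfold br; ring

theorem change_p (hL : S_Lp) {v : V6} (hv : Gen v) {S : Finset (Fin 6)} (hS : S.card = 3)
    (hc : cc S v < del) {p p' q : Fin 6} (hp : p ∈ S) (hp' : p' ∈ S) (hq : q ∉ S) :
    rT v S p q = rT v S p' q := by
  obtain ⟨h0, h1, h2⟩ := r0_spec hv hS hc hp hq
  have hne : ∀ {k l}, k ∈ S → l ∉ S → br (v k) (v l) ≠ 0 := fun hk hl =>
    hv _ _ fun h => hl (h ▸ hk)
  have hne' : ∀ {k l}, k ∈ S → l ∉ S → br (v l) (v k) ≠ 0 := fun hk hl =>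
    hv _ _ fun h => hl (h ▸ hk)
  set ρ := r0 v S p q with hρ
  set a := bet v q p p' with ha
  set c := br (v p) (v q) / br (v p') (v q) with hcd
  have hc0 : c ≠ 0 := div_ne_zero (hne hp hq) (hne hp' hq)
  have hcn : 0 < ‖c‖ := norm_pos_iff.2 hc0
  have eα : ∀ k ∈ S, bet v q p k - a = c * bet v q p' k := fun k hk => by
    have e := pluecker (v p) (v p') (v q) (v k)
    have n1 := hne' hk hq
    have n2 := hne hp' hq
    rw [ha, hcd]
    unfold bet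
    rw [br_anti (v q) (v p'), br_anti (v k) (v p')] at e
    rw [br_anti (v q) (v p')]
    field_simp
    linear_combination -e
  have e1 : ∀ l ∈ Sᶜ, 1 - a * bet v p q l = c * (br (v p') (v l) / br (v p) (v l)) :=
    fun l hl => by
    have hl' := Finset.mem_compl.1 hl
    have e := pluecker (v p) (v p') (v q) (v l)
    have n1 := hne hp hl'
    have n2 := hne hp' hq
    rw [ha, hcd]
    unfold bet
    rw [br_anti (v q) (v p'), br_anti (v l) (v p')] at e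
    rw [br_anti (v q) (v p')]
    field_simp
    linear_combination -e
  have eβ : ∀ l ∈ Sᶜ, bet v p q l / (1 - a * bet v p q l) = c⁻¹ * bet v p' q l := fun l hl => by
    have hl' := Finset.mem_compl.1 hl
    have n1 := hne hp hl'
    have n2 := hne hp' hl'
    rw [e1 l hl]
    unfold bet
    field_simp
  have hρ' : 0 < ρ / ‖c‖ := div_pos h0 hcn
  have eρ : ‖c‖ * (ρ / ‖c‖) = ρ := by field_simp
  have key := hL.2.2.2.1 S (bet v q p) (bet v p q) ρ a hS h0 (h1 p' hp') h1 h2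
  have key2 := hL.2.1 S (bet v q p') (bet v p' q) (ρ / ‖c‖) c hρ' hc0
  rw [eρ] at key2
  rw [Lp_congr ρ eα eβ, key2] at key
  rw [← radius hL hv hS hc hp' hq hρ' (fun k hk => ?_) (fun l hl => ?_)]
  · change rR v S p q ρ = _
    unfold rR
    rw [key, mul_pow]
    have e2 : (∏ l ∈ Sᶜ, ‖br (v p) (v l)‖ ^ (-(2 / 3) : ℝ)) *
        (∏ l ∈ Sᶜ, ‖1 - a * bet v p q l‖ ^ (-(1 / 3) : ℝ)) ^ 2 =
        (‖c‖ ^ (-(2 / 3) : ℝ)) ^ 3 * ∏ l ∈ Sᶜ, ‖br (v p') (v l)‖ ^ (-(2 / 3) : ℝ) := by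
      rw [← Finset.prod_pow, ← Finset.prod_mul_distrib, ← card_compl hS, ← Finset.prod_const,
        ← Finset.prod_mul_distrib]
      refine Finset.prod_congr rfl fun l hl => ?_
      have hl' := Finset.mem_compl.1 hl
      have n1 := norm_pos_iff.2 (hne hp hl')
      rw [← Real.rpow_natCast, ← Real.rpow_mul (norm_nonneg _), e1 l hl,
        ← Real.mul_rpow (norm_nonneg _) (norm_nonneg _),
        show (-(1 / 3) : ℝ) * ((2 : ℕ) : ℝ) = -(2 / 3) by norm_num,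
        ← Real.mul_rpow (norm_nonneg _) (norm_nonneg _)]
      congr 1
      rw [norm_mul, norm_div (br (v p') (v l))]
      field_simp
    have e3 : ‖br (v p) (v q)‖ ^ 2 * (‖c‖ ^ (-(2 / 3) : ℝ)) ^ 3 = ‖br (v p') (v q)‖ ^ 2 := by
      have n1 := norm_pos_iff.2 (hne hp hq)
      have n2 := norm_pos_iff.2 (hne hp' hq)
      rw [← Real.rpow_natCast (‖c‖ ^ (-(2 / 3) : ℝ)), ← Real.rpow_mul (norm_nonneg _),
        show (-(2 / 3) : ℝ) * ((3 : ℕ) : ℝ) = -((2 : ℕ) : ℝ) by norm_num,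
        Real.rpow_neg (norm_nonneg _), Real.rpow_natCast, hcd, norm_div]
      field_simp
    rw [← e3]
    linear_combination (‖br (v p) (v q)‖ ^ 2 * (∏ k ∈ S, ‖br (v q) (v k)‖ ^ (-(2 / 3) : ℝ)) *
      ‖Lp S (bet v q p') (bet v p' q) (ρ / ‖c‖)‖ ^ 2) * e2
  · rw [lt_div_iff₀ hcn, mul_comm, ← norm_mul, ← eα k hk]
    have := norm_sub_le (bet v q p k) a
    linarith [h1 k hk, h1 p' hp']
  · have hl' := Finset.mem_compl.2 hl
    have e4 : ‖bet v p' q l‖ * (ρ / ‖c‖) = ‖bet v p q l‖ * ρ / ‖1 - a * bet v p q l‖ := by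
      have := congrArg norm (eβ l hl')
      rw [norm_div, norm_mul, norm_inv] at this
      rw [mul_div_right_comm, this]
      field_simp
    have h5 : ‖a * bet v p q l‖ ≤ 1 / 10000 := by
      rw [norm_mul]
      have h6 := h1 p' hp'
      have h7 := h2 l hl'
      have h8 := norm_nonneg (bet v p q l)
      calc ‖a‖ * ‖bet v p q l‖ ≤ ρ / 100 * ‖bet v p q l‖ := mul_le_mul_of_nonneg_right h6 h8
        _ ≤ 1 / 10000 := by nlinarith
    have h9 : 1 - 1 / 10000 ≤ ‖1 - a * bet v p q l‖ := by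
      have := norm_sub_norm_le (1 : ℂ) (a * bet v p q l)
      rw [norm_one] at this
      linarith
    rw [e4, div_lt_one (by linarith)]
    linarith [h2 l hl']

theorem size (hL : S_Lp) {v : V6} (hv : Gen v) {S : Finset (Fin 6)} (hS : S.card = 3)
    (hc : cc S v < del) {p q : Fin 6} (hp : p ∈ S) (hq : q ∉ S) (r : ℝ)
    (hr : r = rT v S p q ^ 3 *
      ((∏ k ∈ S, ‖br (v q) (v k)‖) * ∏ l ∈ Sᶜ, ‖br (v p) (v l)‖) ^ 2) :
    0 < rT v S p q ∧ ‖br (v p) (v q)‖ ^ 6 ≤ r ∧ r ≤ 10 ^ 6 * ‖br (v p) (v q)‖ ^ 6 := by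
  obtain ⟨h0, h1, h2⟩ := r0_spec hv hS hc hp hq
  obtain ⟨h3, h4⟩ := hL.2.2.2.2 S _ _ _ h0 h1 h2
  have n0 : 0 < ‖br (v p) (v q)‖ := norm_pos_iff.2 (hv _ _ fun h => hq (h ▸ hp))
  have n1 : 0 < ∏ k ∈ S, ‖br (v q) (v k)‖ :=
    Finset.prod_pos fun k hk => norm_pos_iff.2 (hv _ _ fun h => hq (h ▸ hk))
  have n2 : 0 < ∏ l ∈ Sᶜ, ‖br (v p) (v l)‖ :=
    Finset.prod_pos fun l hl => norm_pos_iff.2 (hv _ _ fun h => Finset.mem_compl.1 hl (h ▸ hp))
  have e : rT v S p q = ‖br (v p) (v q)‖ ^ 2 * (∏ k ∈ S, ‖br (v q) (v k)‖) ^ (-(2 / 3) : ℝ) *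
      (∏ l ∈ Sᶜ, ‖br (v p) (v l)‖) ^ (-(2 / 3) : ℝ) *
      ‖Lp S (bet v q p) (bet v p q) (r0 v S p q)‖ ^ 2 := by
    change rR v S p q (r0 v S p q) = _
    unfold rR
    rw [Real.finsetProd_rpow _ _ (fun _ _ => norm_nonneg _),
      Real.finsetProd_rpow _ _ (fun _ _ => norm_nonneg _)]
  have cube : ∀ x : ℝ, 0 < x → (x ^ (-(2 / 3) : ℝ)) ^ 3 * x ^ 2 = 1 := fun x hx => by
    rw [← Real.rpow_natCast (x ^ (-(2 / 3) : ℝ)), ← Real.rpow_mul hx.le,
      show (-(2 / 3) : ℝ) * ((3 : ℕ) : ℝ) = -((2 : ℕ) : ℝ) by norm_num,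
      Real.rpow_neg hx.le, Real.rpow_natCast]
    field_simp
  have c1 := cube _ n1
  have c2 := cube _ n2
  set P := ∏ k ∈ S, ‖br (v q) (v k)‖
  set Q := ∏ l ∈ Sᶜ, ‖br (v p) (v l)‖
  set L := ‖Lp S (bet v q p) (bet v p q) (r0 v S p q)‖
  set n := ‖br (v p) (v q)‖
  have e2 : r = n ^ 6 * L ^ 6 := by
    rw [hr, e]
    calc (n ^ 2 * P ^ (-(2 / 3) : ℝ) * Q ^ (-(2 / 3) : ℝ) * L ^ 2) ^ 3 * (P * Q) ^ 2
        = n ^ 6 * L ^ 6 * ((P ^ (-(2 / 3) : ℝ)) ^ 3 * P ^ 2) *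
          ((Q ^ (-(2 / 3) : ℝ)) ^ 3 * Q ^ 2) := by ring
      _ = n ^ 6 * L ^ 6 := by rw [c1, c2]; ring
  have hL0 : 0 < L := by linarith
  refine ⟨by rw [e]; positivity, ?_, ?_⟩
  · rw [e2]
    exact le_mul_of_one_le_right (by positivity) (one_le_pow₀ h3)
  · rw [e2, mul_comm]
    exact mul_le_mul_of_nonneg_right (pow_le_pow_left₀ hL0.le h4 6) (by positivity)

end RTP

theorem pRT (hL : S_Lp) : S_RT := by
  intro v hv S hS hc p hp q hq
  refine ⟨fun p' hp' q' hq' => ?_, RTP.swap hL hv hS hc hp hq,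
    fun ρ hρ hα hβ => RTP.radius hL hv hS hc hp hq hρ hα hβ, RTP.size hL hv hS hc hp hq⟩
  rw [RTP.change_p hL hv hS hc hp hp' hq, ← RTP.swap hL hv hS hc hp' hq,
    ← RTP.swap hL hv hS hc hp' hq']
  exact RTP.change_p hL hv (RTP.card_compl hS) (by rwa [RTP.cc_compl])
    (Finset.mem_compl.2 hq) (Finset.mem_compl.2 hq') (by simpa using hp')

end Pool.Agent.P.MP_5d7cf0_gt
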