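import Pool.Agent.P.MP_5d7cf0_gt.St

/-!
The primitive of a holomorphic function along vertical rays.
-/

open Set Filter Topology MeasureTheory Metric

namespace Pool.Agent.P.MP_5d7cf0_gt

namespace RayP

theorem meas {g : ℂ → ℂ} {Ω : Set ℂ} (hg : ContinuousOn g Ω) {w c : ℂ}
    (h : ∀ s : ℝ, 0 ≤ s → w + c * s * Complex.I ∈ Ω) :
    AEStronglyMeasurable (fun s : ℝ => g (w + c * s * Complex.I)) (volume.restrict (Ioi 0)) :=
  (hg.comp (f := fun s : ℝ => w + c * s * Complex.I) (by fun_prop)
    fun s hs => h s (le_of_lt hs)).aestronglyMeasurable measurableSet_Ioi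

theorem int_bound (C : ℝ) : IntegrableOn (fun s : ℝ => C * (1 + s) ^ (-(5 / 3) : ℝ)) (Ioi 0) := by
  have := (integrableOn_add_rpow_Ioi_of_lt (a := -(5 / 3)) (c := 0) (m := 1) (by norm_num)
    (by norm_num)).const_mul C
  simpa only [IntegrableOn, add_comm] using this

end RayP

open RayP in
theorem pRay : S_Ray := by
  intro f Ω e hΩ hf hup he hb z hz
  obtain ⟨C, hC⟩ := hb z hz
  obtain ⟨R, hR, hball⟩ := Metric.eventually_nhds_iff_ball.1 (hC.and (hΩ.mem_nhds hz))
  set r := R / 3 with hr
  have hr0 : 0 < r := by positivity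
  have hsub : ∀ w ∈ ball z r, w ∈ ball z R := fun w hw => ball_subset_ball (by linarith) hw
  have hd : ∀ w ∈ Ω, HasDerivAt f (deriv f w) w := fun w hw =>
    (hf.differentiableAt (hΩ.mem_nhds hw)).hasDerivAt
  have hint : IntegrableOn (fun s : ℝ => f (z + e * s * Complex.I)) (Ioi 0) := by
    refine (int_bound C).mono' (meas hf.continuousOn (hup z hz)) ?_
    filter_upwards [ae_restrict_mem measurableSet_Ioi] with s hs
    exact (hball z (mem_ball_self hR)).1 s (le_of_lt hs)
  have hder : ∀ s : ℝ, 0 ≤ s → ∀ w ∈ ball z r,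
      ‖deriv f (w + e * s * Complex.I)‖ ≤ C / r * (1 + s) ^ (-(5 / 3) : ℝ) := by
    intro s hs w hw
    have hmem : ∀ u ∈ closedBall (w + e * s * Complex.I) r, u - e * s * Complex.I ∈ ball z R := by
      intro u hu
      rw [mem_closedBall, dist_eq_norm] at hu
      rw [mem_ball, dist_eq_norm] at hw ⊢
      calc ‖u - e * s * Complex.I - z‖ = ‖(u - (w + e * s * Complex.I)) + (w - z)‖ := by ring_nf
        _ ≤ _ := norm_add_le _ _
        _ < R := by linarith
    have h1 : closedBall (w + e * s * Complex.I) r ⊆ Ω := fun u hu => by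
      simpa using hup _ (hball _ (hmem u hu)).2 s hs
    have h2 := Complex.norm_deriv_le_of_forall_mem_sphere_norm_le hr0
      (hf.diffContOnCl_ball h1) (C := C * (1 + s) ^ (-(5 / 3) : ℝ)) fun u hu => by
        simpa using (hball _ (hmem u (sphere_subset_closedBall hu))).1 s hs
    exact h2.trans_eq (by ring)
  obtain ⟨h1, h2⟩ := hasDerivAt_integral_of_dominated_loc_of_deriv_le
    (μ := volume.restrict (Ioi (0 : ℝ))) (F := fun w (s : ℝ) => f (w + e * s * Complex.I))
    (F' := fun w (s : ℝ) => deriv f (w + e * s * Complex.I)) (ball_mem_nhds z hr0)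
    (by filter_upwards [hΩ.mem_nhds hz] with w hw using meas hf.continuousOn (hup w hw)) hint
    (meas (hf.deriv hΩ).continuousOn (hup z hz))
    (by
      filter_upwards [ae_restrict_mem measurableSet_Ioi] with s hs using hder s (le_of_lt hs))
    (int_bound (C / r))
    (by
      filter_upwards [ae_restrict_mem measurableSet_Ioi] with s hs w hw
      exact (hd _ (hup w (hball w (hsub w hw)).2 s (le_of_lt hs))).comp_add_const w _)
  refine ⟨hint, ?_⟩
  have h3 : ∫ s in Ioi (0 : ℝ), deriv f (z + e * s * Complex.I) * (e * Complex.I) =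
      0 - f (z + e * (0 : ℝ) * Complex.I) := by
    refine integral_Ioi_of_hasDerivAt_of_tendsto'
      (f := fun s : ℝ => f (z + e * s * Complex.I)) (fun s hs => ?_) (h1.mul_const _) ?_
    · have h4 : HasDerivAt (fun u : ℂ => z + e * u * Complex.I) (e * Complex.I) s := by
        simpa using (((hasDerivAt_id (s : ℂ)).const_mul (e : ℂ)).mul_const Complex.I).const_add z
      exact ((hd _ (hup z hz s hs)).comp (s : ℂ) h4).comp_ofReal
    · refine squeeze_zero_norm' (a := fun s : ℝ => C * (1 + s) ^ (-(5 / 3) : ℝ)) ?_ ?_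
      · filter_upwards [eventually_ge_atTop 0] with s hs using (hball z (mem_ball_self hR)).1 s hs
      · simpa using ((tendsto_rpow_neg_atTop (y := 5 / 3) (by norm_num)).comp
          (tendsto_atTop_add_const_left atTop 1 tendsto_id)).const_mul C
  rw [integral_mul_const] at h3
  have h5 : (e : ℂ) * e = 1 := by rcases he with rfl | rfl <;> simp
  simp only [Complex.ofReal_zero, mul_zero, zero_mul, add_zero, zero_sub] at h3
  have hI := Complex.I_mul_I
  refine h2.congr_deriv ?_
  generalize ∫ s in Ioi (0 : ℝ), deriv f (z + e * s * Complex.I) = J at h3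
  linear_combination -(e * Complex.I) * h3 + J * (Complex.I * Complex.I * h5 + hI)

end Pool.Agent.P.MP_5d7cf0_gt
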