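import Pool.Agent.P.MP_5d7cf0_gt.St

/-!
The curvature tensor through the Christoffel symbols of the first kind.
-/

open Set Filter Topology
open scoped ContDiff

namespace Pool.Agent.P.MP_5d7cf0_gt

namespace RmP

set_option maxSynthPendingDepth 3

theorem inv_of_pos (B : E →L[ℝ] E →L[ℝ] ℝ) (h : ∀ a, a ≠ 0 → 0 < B a a) : B.IsInvertible := by
  have hi : Function.Injective (B : E →ₗ[ℝ] E →L[ℝ] ℝ) := by
    rw [injective_iff_map_eq_zero]
    intro a ha
    by_contra h0
    have h1 := h a h0
    have h2 : B a = 0 := ha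
    rw [h2] at h1
    simp at h1
  have hd : Module.finrank ℝ E = Module.finrank ℝ (E →L[ℝ] ℝ) := by
    rw [← (LinearMap.toContinuousLinearMap (𝕜 := ℝ) (E := E) (F' := ℝ)).finrank_eq]
    exact Subspace.dual_finrank_eq.symm
  exact ⟨(LinearMap.linearEquivOfInjective _ hi hd).toContinuousLinearEquiv, by ext; rfl⟩

theorem kos_apply (g : Met) (x u v w : E) : kos g x u v w =
    (1 / 2 : ℝ) * (fderiv ℝ g x u v w + fderiv ℝ g x v u w - fderiv ℝ g x w u v) := by
  simp [kos]

theorem kos_diff {g : Met} {x : E} (hg : ContDiffAt ℝ 2 g x) (v w : E) :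
    DifferentiableAt ℝ (fun y => kos g y v w) x := by
  have h1 : DifferentiableAt ℝ (fderiv ℝ g) x :=
    (hg.fderiv_right (m := 1) (by norm_num)).differentiableAt (by norm_num)
  have e : (fun y => kos g y v w) = fun y => (1 / 2 : ℝ) • (fderiv ℝ g y v w + fderiv ℝ g y w v -
      ((ContinuousLinearMap.apply ℝ ℝ w).comp
        (ContinuousLinearMap.apply ℝ (E →L[ℝ] ℝ) v)).comp (fderiv ℝ g y)) := by
    funext y
    ext z
    simp [kos]
  rw [e]
  refine DifferentiableAt.fun_const_smul (DifferentiableAt.fun_sub (DifferentiableAt.fun_add ?_ ?_) ?_) _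
  · exact (h1.clm_apply (differentiableAt_const _)).clm_apply (differentiableAt_const _)
  · exact (h1.clm_apply (differentiableAt_const _)).clm_apply (differentiableAt_const _)
  · exact (differentiableAt_const _).clm_comp h1

theorem fd_apply {g : Met} {x : E} (hg : DifferentiableAt ℝ g x) {c : E → E}
    (hc : DifferentiableAt ℝ c x) (z u : E) :
    fderiv ℝ (fun y => g y (c y) z) x u = fderiv ℝ g x u (c x) z + g x (fderiv ℝ c x u) z := by
  have h := ((hg.hasFDerivAt.clm_apply hc.hasFDerivAt).clm_apply
    (hasFDerivAt_const z x)).fderiv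
  rw [h]
  simp [add_comm]

end RmP

open RmP in
theorem pRm : S_Rm := by
  intro g x hg hs hp
  have hI := inv_of_pos (g x) hp
  have hgd : DifferentiableAt ℝ g x := hg.differentiableAt (by norm_num)
  have h1 : ∀ u v w, g x (chr g x u v) w = kos g x u v w := fun u v w => by
    rw [chr, hI.self_apply_inverse]
  refine ⟨h1, ?_⟩
  have hev : ∀ᶠ y in 𝓝 x, (g y).IsInvertible := by
    obtain ⟨e, he⟩ := hI
    have h2 := e.nhds
    rw [he] at h2
    exact hgd.continuousAt.eventually h2
  have hc : ∀ v w, DifferentiableAt ℝ (fun y => chr g y v w) x := fun v w => by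
    have h2 : DifferentiableAt ℝ (fun y => (g y).inverse) x :=
      ((hI.contDiffAt_map_inverse (n := 1)).differentiableAt (by norm_num)).comp x hgd
    exact h2.clm_apply (kos_diff hg v w)
  have hsym : ∀ u a b, fderiv ℝ g x u a b = fderiv ℝ g x u b a := fun u a b => by
    have h2 := fd_apply hgd (differentiableAt_const a) b u
    have h3 := fd_apply hgd (differentiableAt_const b) a u
    have h4 : (fun y => g y a b) =ᶠ[𝓝 x] fun y => g y b a := hs.mono fun y hy => hy a b
    rw [h4.fderiv_eq, h3] at h2
    simpa using h2.symm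
  have hmet : ∀ u a b, fderiv ℝ g x u a b = kos g x u a b + kos g x u b a := fun u a b => by
    rw [kos_apply, kos_apply, hsym u b a]
    ring
  have hd : ∀ u v w z, g x (fderiv ℝ (fun y => chr g y v w) x u) z =
      fderiv ℝ (fun y => kos g y v w z) x u - g x (chr g x u (chr g x v w)) z -
        g x (chr g x v w) (chr g x u z) := fun u v w z => by
    have h4 : (fun y => g y (chr g y v w) z) =ᶠ[𝓝 x] fun y => kos g y v w z :=
      hev.mono fun y hy => by simp only [chr, hy.self_apply_inverse]
    have h5 := fd_apply hgd (hc v w) z u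
    rw [h4.fderiv_eq, hmet, ← h1, ← h1, hs.self_of_nhds (chr g x u z)] at h5
    linarith
  intro u v w z
  simp only [riem, map_add, map_sub, add_apply, sub_apply, hd]
  ring

end Pool.Agent.P.MP_5d7cf0_gt
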