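import Pool.Agent.P.MP_5d7cf0_gt.St

/-!
Package `Seg`: the jumps of the integrand, the rays and the segments.
-/

open Set Filter Topology MeasureTheory ComplexConjugate
open scoped ContDiff ENNReal

noncomputable section

namespace Pool.Agent.P.MP_5d7cf0_gt

namespace SegP

theorem zeta_exp : ζ = Complex.exp ((Real.pi / 3 : ℝ) * Complex.I) := by
  apply Complex.ext
  · rw [Complex.exp_ofReal_mul_I_re, Real.cos_pi_div_three]; rfl
  · rw [Complex.exp_ofReal_mul_I_im, Real.sin_pi_div_three]; rfl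

theorem zeta_sub : ζ - conj ζ = Complex.I * √3 := by
  apply Complex.ext <;> simp [ζ]

theorem zeta_add : ζ + conj ζ = 1 := by
  apply Complex.ext
  · simp [ζ]; norm_num
  · simp [ζ]

theorem zeta_mul : conj ζ * ζ = 1 := by
  have h : √3 * √3 = (3 : ℝ) := Real.mul_self_sqrt (by norm_num)
  apply Complex.ext
  · simp [ζ]; nlinarith
  · simp [ζ]; ring

theorem cp_neg_I : cp (-Complex.I) = ζ * cp Complex.I := by
  unfold cp
  rw [Complex.cpow_def_of_ne_zero (neg_ne_zero.2 Complex.I_ne_zero),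
    Complex.cpow_def_of_ne_zero Complex.I_ne_zero, Complex.log_neg_I, Complex.log_I, zeta_exp,
    ← Complex.exp_add]
  congr 1
  push_cast
  ring

theorem cp_mul {y : ℝ} (hy : 0 < y) {w : ℂ} (hw : w ≠ 0) : cp (y * w) = cp y * cp w := by
  unfold cp
  have h0 : (y : ℂ) ≠ 0 := by exact_mod_cast hy.ne'
  rw [Complex.cpow_def_of_ne_zero (mul_ne_zero h0 hw), Complex.cpow_def_of_ne_zero h0,
    Complex.cpow_def_of_ne_zero hw, Complex.log_ofReal_mul hy hw, ← Complex.exp_add,
    Complex.ofReal_log hy.le]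
  congr 1
  ring

theorem cp_pos {y : ℝ} (hy : 0 < y) : cp (-(y * Complex.I)) = ζ * cp (y * Complex.I) := by
  rw [← mul_neg, cp_mul hy (neg_ne_zero.2 Complex.I_ne_zero), cp_mul hy Complex.I_ne_zero,
    cp_neg_I]
  ring

theorem cp_jump (y : ℝ) :
    cp (y * Complex.I) = (if 0 < y then conj ζ else ζ) * cp (-(y * Complex.I)) := by
  rcases lt_trichotomy 0 y with h | h | h
  · rw [if_pos h, cp_pos h, ← mul_assoc, zeta_mul, one_mul]
  · subst h
    have : cp 0 = 0 := by unfold cp; exact Complex.zero_cpow (by norm_num)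
    simp [this]
  · rw [if_neg h.le.not_gt]
    have := cp_pos (neg_pos.2 h)
    simpa using this

theorem jump (l : Fin 5 → ℂ) (k : Fin 5) (y : ℝ) : fm l (k + 1) (l k + y * Complex.I) =
    (if 0 < y then conj ζ else ζ) * fm l k (l k + y * Complex.I) := by
  unfold fm
  rw [← Finset.mul_prod_erase _ _ (Finset.mem_univ k),
    ← Finset.mul_prod_erase (f := fun n : Fin 5 => cp (if (n : ℕ) < k then
      l k + y * Complex.I - l n else l n - (l k + y * Complex.I))) _ (Finset.mem_univ k),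
    ← mul_assoc]
  congr 1
  · rw [if_pos (Nat.lt_succ_self _), if_neg (lt_irrefl _), add_sub_cancel_left,
      sub_add_cancel_left]
    exact cp_jump y
  · refine Finset.prod_congr rfl fun n hn => ?_
    have h1 : (n : ℕ) ≠ k := fun h => (Finset.mem_erase.1 hn).1 (Fin.ext h)
    have h2 : (n : ℕ) < k + 1 ↔ (n : ℕ) < k := by omega
    simp only [h2]

theorem mem_Cs {l : Fin 5 → ℂ} (hl : l ∈ O) (k : Fin 5) {m : ℕ} (h1 : (k : ℕ) ≤ m)
    (h2 : m ≤ k + 1) : l k ∈ Cs l m := by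
  intro n
  split_ifs with h
  · exact hl.monotone (show n ≤ k from Fin.le_def.2 (by omega))
  · exact hl.monotone (show k ≤ n from Fin.le_def.2 (by omega))

theorem up_jump (l : Fin 5 → ℂ) (k : Fin 5) : Up l (k + 1) (l k) = conj ζ * Up l k (l k) := by
  unfold Up
  rw [← integral_const_mul]
  refine setIntegral_congr_fun measurableSet_Ioi fun s hs => ?_
  rw [jump, if_pos (show 0 < s from hs)]

theorem dn_jump (l : Fin 5 → ℂ) (k : Fin 5) : Dn l (k + 1) (l k) = ζ * Dn l k (l k) := by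
  unfold Dn
  rw [← integral_const_mul]
  refine setIntegral_congr_fun measurableSet_Ioi fun s hs => ?_
  have := jump l k (-s)
  rw [if_neg (by have : 0 < s := hs; linarith)] at this
  simpa [sub_eq_add_neg] using this

theorem rays (hStr : S_Str) {l : Fin 5 → ℂ} (hl : l ∈ O) (k : Fin 5) :
    Complex.I * √3 * Up l k (l k) = ζ * LL l k.castSucc - LL l k.succ ∧
      Complex.I * √3 * Dn l k (l k) = LL l k.succ - conj ζ * LL l k.castSucc := by
  have h1 := ((hStr l hl k.castSucc).2.2.2.1 (l k) (mem_Cs hl k (by simp) (by simp))).2.2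
  have h2 := ((hStr l hl k.succ).2.2.2.1 (l k) (mem_Cs hl k (by simp) (by simp))).2.2
  rw [Fin.val_castSucc] at h1
  rw [Fin.val_succ, up_jump, dn_jump] at h2
  rw [← h1, ← h2, ← zeta_sub]
  constructor <;> ring

theorem int_beta : IntegrableOn (fun τ : ℝ => τ ^ (-(1 / 3) : ℝ) * (1 - τ) ^ (-(1 / 3) : ℝ))
    (Ioo 0 1) := by
  have h1 : IntervalIntegrable (fun τ : ℝ => τ ^ (-(2 / 3) : ℝ)) volume 0 1 :=
    intervalIntegral.intervalIntegrable_rpow' (by norm_num)
  have h2 : IntervalIntegrable (fun τ : ℝ => (1 - τ) ^ (-(2 / 3) : ℝ)) volume 0 1 := by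
    have := (h1.comp_sub_left 1).symm
    simpa using this
  have h3 := (intervalIntegrable_iff_integrableOn_Ioo_of_le zero_le_one).1 (h1.add h2)
  refine h3.mono' ?_ ?_
  · refine ContinuousOn.aestronglyMeasurable ?_ measurableSet_Ioo
    refine ContinuousOn.mul (continuousOn_id.rpow_const fun x hx => Or.inl hx.1.ne') ?_
    exact (continuousOn_const.sub continuousOn_id).rpow_const fun x hx =>
      Or.inl (sub_pos.2 hx.2).ne'
  · refine (ae_restrict_iff' measurableSet_Ioo).2 (Eventually.of_forall fun τ hτ => ?_)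
    have a1 : 0 < τ := hτ.1
    have a2 : 0 < 1 - τ := sub_pos.2 hτ.2
    have e1 : τ ^ (-(2 / 3) : ℝ) = τ ^ (-(1 / 3) : ℝ) * τ ^ (-(1 / 3) : ℝ) := by
      rw [← Real.rpow_add a1]; norm_num
    have e2 : (1 - τ) ^ (-(2 / 3) : ℝ) =
        (1 - τ) ^ (-(1 / 3) : ℝ) * (1 - τ) ^ (-(1 / 3) : ℝ) := by
      rw [← Real.rpow_add a2]; norm_num
    have p1 := Real.rpow_pos_of_pos a1 (-(1 / 3) : ℝ)
    have p2 := Real.rpow_pos_of_pos a2 (-(1 / 3) : ℝ)
    rw [Real.norm_eq_abs, abs_of_pos (mul_pos p1 p2), e1, e2]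
    nlinarith [sq_nonneg (τ ^ (-(1 / 3) : ℝ) - (1 - τ) ^ (-(1 / 3) : ℝ))]

theorem seg_re (a b : ℂ) (τ : ℝ) : (a + τ * (b - a)).re = a.re + τ * (b.re - a.re) := by simp

theorem seg_Cs {l : Fin 5 → ℂ} (hl : l ∈ O) (k : Fin 4) {τ : ℝ} (hτ : τ ∈ Icc (0 : ℝ) 1) :
    l k.castSucc + τ * (l k.succ - l k.castSucc) ∈ Cs l (k + 1) := by
  intro n
  have hg : (l k.castSucc).re < (l k.succ).re := hl Fin.castSucc_lt_succ
  rw [seg_re]
  split_ifs with h
  · have : (l n).re ≤ (l k.castSucc).re :=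
      hl.monotone (show n ≤ k.castSucc from Fin.le_def.2 (by simp; omega))
    nlinarith [hτ.1]
  · have : (l k.succ).re ≤ (l n).re :=
      hl.monotone (show k.succ ≤ n from Fin.le_def.2 (by simp; omega))
    nlinarith [hτ.2]

theorem seg_Os {l : Fin 5 → ℂ} (hl : l ∈ O) (k : Fin 4) {τ : ℝ} (hτ : τ ∈ Ioo (0 : ℝ) 1) :
    l k.castSucc + τ * (l k.succ - l k.castSucc) ∈ Os l (k + 1) := by
  intro n
  have hg : (l k.castSucc).re < (l k.succ).re := hl Fin.castSucc_lt_succ
  rw [seg_re]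
  split_ifs with h
  · have : (l n).re ≤ (l k.castSucc).re :=
      hl.monotone (show n ≤ k.castSucc from Fin.le_def.2 (by simp; omega))
    nlinarith [mul_pos hτ.1 (sub_pos.2 hg)]
  · have : (l k.succ).re ≤ (l n).re :=
      hl.monotone (show k.succ ≤ n from Fin.le_def.2 (by simp; omega))
    nlinarith [mul_pos (sub_pos.2 hτ.2) (sub_pos.2 hg)]

theorem seg_ne {l : Fin 5 → ℂ} (hl : l ∈ O) (k : Fin 4) {τ : ℝ} (hτ : τ ∈ Icc (0 : ℝ) 1)
    {n : Fin 5} (h1 : n ≠ k.castSucc) (h2 : n ≠ k.succ) :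
    l k.castSucc + τ * (l k.succ - l k.castSucc) - l n ≠ 0 := by
  intro h
  have h3 := congrArg Complex.re (sub_eq_zero.1 h)
  rw [seg_re] at h3
  have hg : (l k.castSucc).re < (l k.succ).re := hl Fin.castSucc_lt_succ
  have a1 : (n : ℕ) ≠ k := fun h => h1 (Fin.ext (by simpa using h))
  have a2 : (n : ℕ) ≠ k + 1 := fun h => h2 (Fin.ext (by simpa using h))
  rcases lt_or_gt_of_ne a1 with h4 | h4
  · have : (l n).re < (l k.castSucc).re := hl (Fin.lt_def.2 (by simpa using h4))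
    nlinarith [hτ.1]
  · have : (l k.succ).re < (l n).re := hl (Fin.lt_def.2 (by simp; omega))
    nlinarith [hτ.2]

theorem seg_int (hFm : S_Fm) {l : Fin 5 → ℂ} (hl : l ∈ O) (k : Fin 4) :
    IntegrableOn (fun τ : ℝ =>
      fm l (k + 1) (l k.castSucc + τ * (l k.succ - l k.castSucc))) (Ioo 0 1) := by
  obtain ⟨hn, -, hd, -⟩ := hFm l hl (k + 1)
  set a := l k.castSucc with ha
  set b := l k.succ with hb
  have hne : k.succ ≠ k.castSucc := Fin.castSucc_lt_succ.ne'
  set R : ℝ → ℝ := fun τ => ‖b - a‖ ^ (-(1 / 3) : ℝ) * ‖b - a‖ ^ (-(1 / 3) : ℝ) *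
    ∏ n ∈ (Finset.univ.erase k.castSucc).erase k.succ,
      ‖a + τ * (b - a) - l n‖ ^ (-(1 / 3) : ℝ) with hR
  have hRc : ContinuousOn R (Icc 0 1) := by
    refine continuousOn_const.mul (continuousOn_finsetProd _ fun n hn => ?_)
    refine ContinuousOn.rpow_const (by fun_prop) fun τ hτ => Or.inl (norm_ne_zero_iff.2 ?_)
    exact seg_ne hl k hτ (Finset.mem_erase.1 (Finset.mem_erase.1 hn).2).1
      (Finset.mem_erase.1 hn).1
  have h1 := ((integrableOn_Icc_iff_integrableOn_Ioo (by simp) (by simp)).2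
    int_beta).mul_continuousOn hRc isCompact_Icc
  refine (h1.mono_set Ioo_subset_Icc_self).mono' ?_ ?_
  · refine ContinuousOn.aestronglyMeasurable (fun τ hτ => ?_) measurableSet_Ioo
    exact (ContinuousAt.comp (f := fun τ : ℝ => a + τ * (b - a))
      (hd _ (seg_Os hl k hτ)).continuousAt (by fun_prop)).continuousWithinAt
  · refine (ae_restrict_iff' measurableSet_Ioo).2 (Eventually.of_forall fun τ hτ => le_of_eq ?_)
    have a1 : 0 < τ := hτ.1
    have a2 : 0 < 1 - τ := sub_pos.2 hτ.2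
    rw [hn, ← Finset.mul_prod_erase _ _ (Finset.mem_univ k.castSucc),
      ← Finset.mul_prod_erase _ _ (Finset.mem_erase.2 ⟨hne, Finset.mem_univ k.succ⟩), ← ha, ← hb]
    have e1 : ‖a + τ * (b - a) - a‖ = τ * ‖b - a‖ := by
      rw [add_sub_cancel_left, norm_mul, Complex.norm_real, Real.norm_eq_abs, abs_of_pos a1]
    have e2 : ‖a + τ * (b - a) - b‖ = (1 - τ) * ‖b - a‖ := by
      have : a + τ * (b - a) - b = -(((1 - τ : ℝ) : ℂ) * (b - a)) := by push_cast; ring
      rw [this, norm_neg, norm_mul, Complex.norm_real, Real.norm_eq_abs, abs_of_pos a2]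
    rw [e1, e2, Real.mul_rpow a1.le (norm_nonneg _), Real.mul_rpow a2.le (norm_nonneg _), hR]
    ring

theorem seg_ftc (hFm : S_Fm) (hStr : S_Str) {l : Fin 5 → ℂ} (hl : l ∈ O) (k : Fin 4) :
    (l k.succ - l k.castSucc) *
      ∫ τ in Ioo (0 : ℝ) 1, fm l (k + 1) (l k.castSucc + τ * (l k.succ - l k.castSucc)) =
      -Complex.I * (Up l (k + 1) (l k.succ) - Up l (k + 1) (l k.castSucc)) := by
  obtain ⟨hc, -, hd, -⟩ := hStr l hl k.succ.castSucc
  rw [Fin.val_castSucc, Fin.val_succ] at hc hd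
  have hi := seg_int hFm hl k
  have hCs := fun τ hτ => seg_Cs hl k (τ := τ) hτ
  have hOs := fun τ hτ => seg_Os hl k (τ := τ) hτ
  set a := l k.castSucc with ha
  set b := l k.succ with hb
  have key := intervalIntegral.integral_eq_sub_of_hasDerivAt_of_le (a := 0) (b := 1)
    (f := fun τ : ℝ => -Complex.I * Up l (k + 1) (a + τ * (b - a)))
    (f' := fun τ : ℝ => (b - a) * fm l (k + 1) (a + τ * (b - a))) zero_le_one
    (continuousOn_const.mul (hc.comp (f := fun τ : ℝ => a + τ * (b - a)) (by fun_prop) hCs))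
    (fun τ hτ => by
      have h1 : HasDerivAt (fun w : ℂ => a + w * (b - a)) (b - a) τ := by
        simpa using ((hasDerivAt_id (τ : ℂ)).mul_const (b - a)).const_add a
      have h2 := (((hd _ (hOs τ hτ)).1.comp (τ : ℂ) h1).const_mul (-Complex.I)).comp_ofReal
      have e : (b - a) * fm l (k + 1) (a + τ * (b - a)) =
          -Complex.I * (Complex.I * fm l (k + 1) (a + τ * (b - a)) * (b - a)) := by
        linear_combination (fm l (k + 1) (a + τ * (b - a)) * (b - a)) * Complex.I_mul_I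
      rw [e]
      exact h2)
    (((intervalIntegrable_iff_integrableOn_Ioo_of_le zero_le_one).2 hi).const_mul _)
  rw [intervalIntegral.integral_const_mul, intervalIntegral.integral_of_le zero_le_one,
    integral_Ioc_eq_integral_Ioo] at key
  rw [key]
  simp only [Complex.ofReal_one, one_mul, add_sub_cancel, Complex.ofReal_zero, zero_mul, add_zero]
  ring

theorem hL_rs (hStr : S_Str) {l : Fin 5 → ℂ} (hl : l ∈ O) (k : Fin 4) :
    hL (YY l) (rs k.castSucc.castSucc) =
      LL l k.castSucc.castSucc - LL l k.castSucc.succ + LL l k.succ.succ := by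
  have h0 : LL l 0 = 0 := (hStr l hl 0).2.2.2.2 (Or.inl rfl)
  have h5 : LL l 5 = 0 := (hStr l hl 5).2.2.2.2 (Or.inr rfl)
  fin_cases k
  · show hL (YY l) ![0, 1, 0, 0] = LL l 0 - LL l 1 + LL l 2
    simp [hL, YY, h0]; ring
  · show hL (YY l) ![-1, -1, -1, 0] = LL l 1 - LL l 2 + LL l 3
    simp [hL, YY]; ring
  · show hL (YY l) ![0, 0, 1, 0] = LL l 2 - LL l 3 + LL l 4
    simp [hL, YY]
  · show hL (YY l) ![-1, 0, -1, -1] = LL l 3 - LL l 4 + LL l 5
    simp [hL, YY, h5]; ring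

end SegP

open SegP in
theorem pSeg (hFm : S_Fm) (hStr : S_Str) : S_Seg := by
  intro l hl
  refine ⟨jump l, fun k => ⟨(rays hStr hl k).1, (rays hStr hl k).2, up_jump l k⟩,
    fun k => ⟨seg_int hFm hl k, ?_⟩⟩
  have h1 := (rays hStr hl k.castSucc).1
  have h2 := (rays hStr hl k.succ).1
  have h3 := up_jump l k.castSucc
  rw [Fin.val_succ] at h2
  rw [Fin.val_castSucc] at h1 h3
  have e : k.succ.castSucc = k.castSucc.succ := rfl
  rw [e] at h2
  rw [mul_assoc, seg_ftc hFm hStr hl k, hL_rs hStr hl k, h3]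
  linear_combination h2 - conj ζ * h1 - LL l k.castSucc.castSucc * zeta_mul +
    LL l k.castSucc.succ * zeta_add

end Pool.Agent.P.MP_5d7cf0_gt
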