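import Pool.Agent.P.MP_5d7cf0_gt.St

/-!
Smoothness of the function `q`.
-/

open Set Filter Topology MeasureTheory ComplexConjugate
open scoped ContDiff ENNReal

noncomputable section

namespace Pool.Agent.P.MP_5d7cf0_gt

namespace SmP

/-- A solution of a monotone scalar equation with smooth data is smooth. -/
theorem implicit {ι : Type} (A : Finset ι) (μ : ι → ℝ → ℝ) (dom : ι → Set ℝ)
    (ho : ∀ i, IsOpen (dom i)) (hc : ∀ i, Convex ℝ (dom i)) (hs : ∀ i, ContDiffOn ℝ ∞ (μ i) (dom i))
    (hpos : ∀ L : ι → ℝ, (∀ i ∈ A, L i ∈ dom i) → 0 < 1 + ∑ i ∈ A, (μ i (L i) - deriv (μ i) (L i)))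
    (g : ι → E → ℝ) (x0 : E) (hg : ∀ i ∈ A, ContDiffAt ℝ ∞ (g i) x0) (q : E → ℝ)
    (hq : ∀ᶠ x in 𝓝 x0, (∀ i ∈ A, q x + g i x ∈ dom i) ∧
      Real.exp (q x) = 1 + ∑ i ∈ A, μ i (q x + g i x)) : ContDiffAt ℝ ∞ q x0 := by
  let f : E × ℝ → ℝ := fun u => Real.exp (-u.2) * (1 + ∑ i ∈ A, μ i (u.2 + g i u.1))
  have hat : ∀ i, ∀ l ∈ dom i, ContDiffAt ℝ ∞ (μ i) l := fun i l hl =>
    (hs i).contDiffAt ((ho i).mem_nhds hl)
  have hd : ∀ x t, (∀ i ∈ A, t + g i x ∈ dom i) → HasDerivAt (fun t => f (x, t))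
      (-(Real.exp (-t) * (1 + ∑ i ∈ A, (μ i (t + g i x) - deriv (μ i) (t + g i x))))) t := by
    intro x t ht
    have h1 : HasDerivAt (fun t => ∑ i ∈ A, μ i (t + g i x)) (∑ i ∈ A, deriv (μ i) (t + g i x)) t :=
      HasDerivAt.fun_sum fun i hi =>
        ((hat i _ (ht i hi)).differentiableAt (by simp)).hasDerivAt.comp_add_const t (g i x)
    have h2 := ((hasDerivAt_neg t).exp).mul (h1.const_add 1)
    refine h2.congr_deriv ?_
    rw [Finset.sum_sub_distrib]
    ring
  have hone : ∀ x, Real.exp (q x) = 1 + ∑ i ∈ A, μ i (q x + g i x) → f (x, q x) = 1 := by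
    intro x hx
    simp only [f]
    rw [← hx, ← Real.exp_add]
    simp
  obtain ⟨h0, h0'⟩ := hq.self_of_nhds
  have cdf : ContDiffAt ℝ ∞ f (x0, q x0) := by
    refine (contDiffAt_snd.neg.exp).mul (contDiffAt_const.add (ContDiffAt.sum fun i hi => ?_))
    exact (hat i _ (h0 i hi)).comp (x0, q x0)
      (contDiffAt_snd.add ((hg i hi).comp (x0, q x0) contDiffAt_fst))
  have inv : (fderiv ℝ f (x0, q x0) ∘L .inr ℝ E ℝ).IsInvertible := by
    have h1 := (cdf.differentiableAt (by simp)).hasFDerivAt.comp (q x0)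
      (hasFDerivAt_prodMk_right x0 (q x0))
    have h2 := h1.unique (hd x0 (q x0) h0).hasFDerivAt
    have h3 := mul_pos (Real.exp_pos (-q x0)) (hpos _ h0)
    refine ⟨ContinuousLinearEquiv.unitsEquivAut ℝ (Units.mk0 _ (neg_ne_zero.mpr h3.ne')), ?_⟩
    rw [h2]
    ext
    simp
  have h1 := cdf.contDiffAt_implicitFunction (by simp) inv
  have h2 := cdf.eventually_apply_implicitFunction (by simp) inv
  have h3 := cdf.implicitFunction_apply_self (by simp) inv
  set q' := cdf.implicitFunction (by simp) inv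
  simp only at h1 h2 h3
  refine h1.congr_of_eventuallyEq ?_
  have h4 : ∀ᶠ x in 𝓝 x0, ∀ i ∈ A, q' x + g i x ∈ dom i := by
    refine (Finset.eventually_all _).mpr fun i hi => ?_
    refine (h1.continuousAt.add (hg i hi).continuousAt).eventually_mem ((ho i).mem_nhds ?_)
    simpa [h3] using h0 i hi
  filter_upwards [hq, h2, h4] with x hx h5 h6
  rw [hone x0 h0'] at h5
  let I : Set ℝ := {t | ∀ i ∈ A, t + g i x ∈ dom i}
  have hI : Convex ℝ I := by
    intro a ha b hb s t hs' ht hst i hi
    have := hc i (ha i hi) (hb i hi) hs' ht hst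
    convert this using 1
    simp only [smul_eq_mul]
    linear_combination (-g i x) * hst
  have hanti : StrictAntiOn (fun t => f (x, t)) I :=
    strictAntiOn_of_deriv_neg hI (fun t ht => (hd x t ht).continuousAt.continuousWithinAt)
      fun t ht => by
        rw [(hd x t (interior_subset ht)).deriv]
        exact neg_neg_of_pos (mul_pos (Real.exp_pos _) (hpos _ (interior_subset ht)))
  exact hanti.injOn hx.1 h6 ((hone x hx.2).trans h5.symm)

theorem hL_cd {f g : E → C4} {x : E} (hf : ContDiffAt ℝ ∞ f x) (hg : ContDiffAt ℝ ∞ g x) :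
    ContDiffAt ℝ ∞ (fun y => hL (f y) (g y)) x := by
  have h1 : ∀ k, ContDiffAt ℝ ∞ (fun y => f y k * conj (g y k)) x := fun k =>
    (contDiffAt_pi.mp hf k).mul
      (Complex.conjCLE.contDiff.contDiffAt.comp x (contDiffAt_pi.mp hg k))
  exact (((h1 0).neg.add (h1 1)).add (h1 2)).add (h1 3)

theorem wt_cont {x : E} (hx : x ∈ X) (i : Option (Fin 3)) : ContinuousAt (wt i) x := by
  have h1 : x 1 ≠ 0 := by simpa [br, pt] using hx 2 0 (by decide)
  have h2 : x 2 ≠ 0 := by simpa [br, pt] using hx 3 0 (by decide)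
  rcases i with _ | i
  · unfold wt
    fun_prop (disch := assumption)
  · fin_cases i
    · change ContinuousAt (fun x : E => ‖x 0 / x 1‖) x
      fun_prop (disch := assumption)
    · change ContinuousAt (fun x : E => ‖1 - x 1 / x 2‖) x
      fun_prop (disch := assumption)
    · exact (continuous_apply 2).continuousAt.norm

theorem prof_pos {m ψ M : ℝ → ℝ} {l1 p1 ps K : ℝ} (pk : ProfK m ψ l1 K) (pj : ProfJ M p1 ps K)
    (A : Finset (Finset (Fin 6))) (L : Finset (Fin 6) → ℝ) (hL : ∀ S ∈ A, S.card = 3 → ps < L S) :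
    0 < 1 + ∑ S ∈ A, (prof m M S (L S) - deriv (prof m M S) (L S)) := by
  have h1 : ∀ S ∈ A, -(1 / 500 : ℝ) ≤ prof m M S (L S) - deriv (prof m M S) (L S) := by
    intro S hS
    unfold prof
    split_ifs with h2 h3
    · have := (pk.num (L S)).h2
      have := abs_le.mp (pk.num (L S)).h3
      linarith
    · have := (pj.num _ (hL S hS h3)).h1
      have := (pj.num _ (hL S hS h3)).h2
      rw [deriv_div_const]
      linarith
    · simp
  have h2 := Finset.card_nsmul_le_sum _ _ _ h1
  have h3 : (A.card : ℝ) ≤ 64 := by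
    have := A.card_le_univ
    simp only [Fintype.card_finset, Fintype.card_fin] at this
    exact_mod_cast this
  rw [nsmul_eq_mul] at h2
  linarith

end SmP

open SmP in
theorem pSm (hNF : S_NF) : S_Sm := by
  intro V ξ C η m ψ M l1 p1 ps K q c1 c2 ⟨dt, pk, pj, sol, col⟩ x0 hx0
  have hF : ∀ᶠ x in 𝓝 x0, x ∈ FF := hNF.1.mem_nhds hx0
  obtain ⟨Z, ρ, hZ, hV, hξ, -⟩ := dt.rep x0 hx0
  have hZ' : ContDiffAt ℝ ∞ Z x0 := hZ.restrict_scalars ℝ
  have hV' : ContDiffAt ℝ ∞ V x0 :=
    (Complex.reCLM.contDiff.contDiffAt.comp x0 (hL_cd hZ' hZ')).neg.congr_of_eventuallyEq hV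
  have hV0 := dt.posV x0 hx0.1
  let off : Finset (Fin 6) → Prop := fun S =>
    ∀ᶠ x in 𝓝 x0, (S.card = 2 → l1 < Lg ξ q S x) ∧ (S.card = 3 → p1 < Lg ξ q S x)
  have hsp : ∀ i, ContDiffAt ℝ ∞ (fun x => Real.log (ξ (sp i) x)) x0 ∨ off (sp i) := by
    intro i
    rcases lt_or_ge (wt i x0) η with h | h
    · left
      refine ContDiffAt.log ?_ (dt.posξ _ _ hx0.1).ne'
      have h1 := ((hL_cd hZ' (contDiffAt_const (c := ρ i))).norm_sq ℝ).div hV' hV0.ne'
      refine h1.congr_of_eventuallyEq ?_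
      filter_upwards [hξ i h, hF] with x h2 h3
      exact eq_div_of_mul_eq (dt.posV x h3.1).ne' h2
    · right
      have h1 : ∀ᶠ x in 𝓝 x0, η / 2 ≤ wt i x :=
        (wt_cont hx0.1 i).eventually (le_mem_nhds ((half_lt_self dt.ηpos).trans_le h))
      filter_upwards [h1, hF] with x h2 h3
      rcases i with _ | i
      · exact ⟨fun h4 => absurd h4 (by decide), fun _ => col.cusp x h3 h2⟩
      · refine ⟨fun _ => col.root x h3 i h2, fun h4 => absurd h4 ?_⟩
        fin_cases i <;> decide
  have hall : ∀ S, ContDiffAt ℝ ∞ (fun x => Real.log (ξ S x)) x0 ∨ off S := by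
    intro S
    by_cases h1 : ∃ i, S = sp i
    · obtain ⟨i, rfl⟩ := h1
      exact hsp i
    by_cases h2 : S = {3, 4, 5}
    · subst h2
      rcases hsp none with h | h
      · refine Or.inl (h.congr_of_eventuallyEq ?_)
        filter_upwards [hF] with x hx
        rw [dt.compl x hx.1]
        rfl
      · right
        filter_upwards [hF, h] with x hx h3
        refine ⟨fun h4 => absurd h4 (by decide), fun _ => ?_⟩
        rw [Lg, dt.compl x hx.1]
        exact h3.2 (by decide)
    · left
      refine (contDiffAt_const (c := 0)).congr_of_eventuallyEq ?_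
      filter_upwards [hF] with x hx
      rw [dt.off x hx S (not_exists.mp h1) h2, Real.log_one]
  classical
  have hq : ContDiffAt ℝ ∞ q x0 := by
    let A := Finset.univ.filter fun S => ContDiffAt ℝ ∞ (fun x => Real.log (ξ S x)) x0
    refine implicit A (prof m M) (fun S => {l | S.card = 3 → ps < l}) (fun S => ?_) (fun S => ?_)
      (fun S => ?_) (prof_pos pk pj A) (fun S x => Real.log (ξ S x)) x0
      (fun S hS => (Finset.mem_filter.mp hS).2) q ?_
    · by_cases h : S.card = 3
      · simp only [h, forall_true_left]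
        exact isOpen_Ioi
      · simp [h]
    · by_cases h : S.card = 3
      · simp only [h, forall_true_left]
        exact convex_Ioi ps
      · simpa [h] using convex_univ
    · unfold prof
      split_ifs with h2 h3
      · exact pk.sm.contDiffOn
      · exact (pj.sm.div_const 2).mono fun l hl => hl h3
      · exact contDiffOn_const
    · have h1 : ∀ᶠ x in 𝓝 x0, ∀ S, S ∉ A → prof m M S (Lg ξ q S x) = 0 := by
        refine eventually_all.mpr fun S => ?_
        rcases hall S with h | h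
        · exact Eventually.of_forall fun x hS => absurd (by simpa [A] using h) hS
        · filter_upwards [h] with x hx _
          unfold prof
          split_ifs with h2 h3
          · exact pk.zero _ (hx.1 h2).le
          · simp [pj.zero _ (hx.2 h3).le]
          · rfl
      filter_upwards [h1, hF] with x h2 hx
      refine ⟨fun S _ => sol.dom x hx.1 S, ?_⟩
      rw [sol.eq x hx.1]
      congr 1
      exact (Finset.sum_subset (Finset.subset_univ A) fun S _ hS => h2 S hS).symm
  exact ⟨hV'.log hV0.ne', hq, fun S => (hall S).imp (fun h => hq.add h) id⟩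

end Pool.Agent.P.MP_5d7cf0_gt
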