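import Pool.Agent.P.MP_5d7cf0_gt.St

/-!
The function `q` and the collars.
-/

open Set Filter Topology
open scoped ContDiff

noncomputable section

namespace Pool.Agent.P.MP_5d7cf0_gt

namespace SolP

variable {m ψ M : ℝ → ℝ} {l1 p1 ps K : ℝ}

/-- the equation for `q` -/
def Sv (m M : ℝ → ℝ) (ps : ℝ) (a : Finset (Fin 6) → ℝ) (q : ℝ) : Prop :=
  (∀ S : Finset (Fin 6), S.card = 3 → ps < q + a S) ∧
    Real.exp q = 1 + ∑ S, prof m M S (q + a S)

theorem prof_ge (hk : ProfK m ψ l1 K) (hj : ProfJ M p1 ps K) (S : Finset (Fin 6)) {l : ℝ}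
    (h : S.card = 3 → ps < l) : -(1 / 1000) ≤ prof m M S l := by
  unfold prof
  split_ifs with h2 h3
  · exact (abs_le.mp (hk.num l).h3).1
  · have := (hj.num l (h h3)).h1
    show -(1 / 1000) ≤ M l / 2
    linarith
  · show (-(1 / 1000) : ℝ) ≤ 0
    norm_num

theorem prof_deriv (hk : ProfK m ψ l1 K) (hj : ProfJ M p1 ps K) (S : Finset (Fin 6)) {l : ℝ}
    (h : S.card = 3 → ps < l) :
    ∃ d, HasDerivAt (prof m M S) d l ∧ d - prof m M S l ≤ 2 / 1000 := by
  unfold prof
  split_ifs with h2 h3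
  · refine ⟨_, (hk.sm.differentiable (by simp) l).hasDerivAt, ?_⟩
    have := (abs_le.mp (hk.num l).h3).1
    have := (hk.num l).h2
    linarith
  · have h1 : DifferentiableAt ℝ M l :=
      (hj.sm.contDiffAt (Ioi_mem_nhds (h h3))).differentiableAt (by simp)
    refine ⟨_, h1.hasDerivAt.div_const 2, ?_⟩
    have := (hj.num l (h h3)).h1
    have := (hj.num l (h h3)).h2
    show deriv M l / 2 - M l / 2 ≤ 2 / 1000
    linarith
  · exact ⟨0, hasDerivAt_const _ _, by norm_num⟩

theorem sum_le_of {f : Finset (Fin 6) → ℝ} {c : ℝ} (h : ∀ S, f S ≤ c) : ∑ S, f S ≤ 64 * c := by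
  have := Finset.sum_le_card_nsmul Finset.univ f c fun S _ => h S
  simpa using this

theorem sum_ge_of {f : Finset (Fin 6) → ℝ} {c : ℝ} (h : ∀ S, c ≤ f S) : 64 * c ≤ ∑ S, f S := by
  have := Finset.card_nsmul_le_sum Finset.univ f c fun S _ => h S
  simpa using this

theorem uniq (hk : ProfK m ψ l1 K) (hj : ProfJ M p1 ps K) {a : Finset (Fin 6) → ℝ} {q q' : ℝ}
    (h : Sv m M ps a q) (h' : Sv m M ps a q') : q = q' := by
  set I : Set ℝ := {q | ∀ S : Finset (Fin 6), S.card = 3 → ps < q + a S} with hI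
  set F : ℝ → ℝ := fun q => Real.exp (-q) * (1 + ∑ S, prof m M S (q + a S)) with hF
  have hd : ∀ y ∈ I, ∃ d, HasDerivAt F d y ∧ d < 0 := fun y hy => by
    choose d hd hd' using fun S => prof_deriv hk hj S (hy S)
    have h1 : HasDerivAt (fun q => 1 + ∑ S, prof m M S (q + a S)) (∑ S, d S) y :=
      (HasDerivAt.fun_sum fun S _ => (hd S).comp_add_const y (a S)).const_add 1
    refine ⟨_, (hasDerivAt_neg y).exp.mul h1, ?_⟩
    have h2 := sum_le_of hd'
    rw [Finset.sum_sub_distrib] at h2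
    nlinarith [Real.exp_pos (-y)]
  have hc : Convex ℝ I := by
    refine OrdConnected.convex ⟨fun x hx y _ z hz S hS => ?_⟩
    linarith [hx S hS, hz.1]
  have ha : StrictAntiOn F I := by
    refine strictAntiOn_of_deriv_neg hc (fun y hy => ?_) fun y hy => ?_
    · obtain ⟨d, h1, -⟩ := hd y hy
      exact h1.continuousAt.continuousWithinAt
    · obtain ⟨d, h1, h2⟩ := hd y (interior_subset hy)
      rwa [h1.deriv]
  refine ha.injOn h.1 h'.1 ?_
  simp only [hF, ← h.2, ← h'.2, ← Real.exp_add, neg_add_cancel]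

theorem low (hk : ProfK m ψ l1 K) (hj : ProfJ M p1 ps K) {a : Finset (Fin 6) → ℝ} {q : ℝ}
    (h : Sv m M ps a q) : -1 < q := by
  have h1 := sum_ge_of fun S => prof_ge hk hj S (h.1 S)
  have h2 := Real.exp_neg_one_lt_d9
  rw [← Real.exp_lt_exp, h.2]
  linarith

theorem ex_sv (hk : ProfK m ψ l1 K) (hj : ProfJ M p1 ps K) (a : Finset (Fin 6) → ℝ) :
    ∃ q, Sv m M ps a q := by
  obtain ⟨T, hT, hmin⟩ := (Finset.univ.filter fun S : Finset (Fin 6) => S.card = 3).exists_min_image
    a ⟨{0, 1, 2}, by decide⟩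
  have hT3 : T.card = 3 := (Finset.mem_filter.mp hT).2
  have hdom : ∀ q, ps - a T < q → ∀ S : Finset (Fin 6), S.card = 3 → ps < q + a S :=
    fun q hq S hS => by linarith [hmin S (by simpa using hS)]
  set G : ℝ → ℝ := fun q => 1 + ∑ S, prof m M S (q + a S) - Real.exp q with hG
  -- a point where `G` is positive
  obtain ⟨q1, hq1, hG1⟩ : ∃ q1, ps - a T < q1 ∧ 0 ≤ G q1 := by
    have h1 := hj.lim.eventually_ge_atTop (2 * Real.exp (ps - a T + 1))
    obtain ⟨p, hp1, hp2⟩ := (h1.and (Ioo_mem_nhdsGT (lt_add_one ps))).exists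
    refine ⟨p - a T, by linarith [hp2.1], ?_⟩
    have h2 : prof m M T (p - a T + a T) = M p / 2 := by
      simp [prof, hT3]
    have h3 : ∑ S, prof m M S (p - a T + a S) = M p / 2 +
        ∑ S, (if S = T then 0 else prof m M S (p - a T + a S)) := by
      rw [← h2, ← Finset.add_sum_erase _ _ (Finset.mem_univ T),
        ← Finset.add_sum_erase _ _ (Finset.mem_univ T), if_pos rfl, zero_add]
      congr 1
      exact Finset.sum_congr rfl fun S hS => (if_neg (Finset.ne_of_mem_erase hS)).symm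
    have h4 := sum_ge_of (c := -(1 / 1000))
      (f := fun S => if S = T then 0 else prof m M S (p - a T + a S)) fun S => by
        split_ifs
        · norm_num
        · exact prof_ge hk hj S (hdom _ (by linarith [hp2.1]) S)
    have h5 : Real.exp (p - a T) ≤ Real.exp (ps - a T + 1) :=
      Real.exp_le_exp.mpr (by linarith [hp2.2])
    simp only [hG]
    linarith
  obtain ⟨q2, hq2, hG2⟩ : ∃ q2, q1 ≤ q2 ∧ G q2 ≤ 0 := by
    obtain ⟨S0, hS0⟩ := Finite.exists_min a
    refine ⟨max (max q1 0) (max l1 p1 - a S0), (le_max_left _ _).trans (le_max_left _ _), ?_⟩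
    set y := max (max q1 0) (max l1 p1 - a S0)
    have h0 : 0 ≤ y := (le_max_right _ _).trans (le_max_left _ _)
    have h1 : ∀ S, max l1 p1 ≤ y + a S := fun S => by
      linarith [hS0 S, le_max_right (max q1 0) (max l1 p1 - a S0)]
    have h2 : ∑ S, prof m M S (y + a S) = 0 := Finset.sum_eq_zero fun S _ => by
      unfold prof
      split_ifs
      · exact hk.zero _ ((le_max_left _ _).trans (h1 S))
      · simp [hj.zero _ ((le_max_right _ _).trans (h1 S))]
      · rfl
    simp only [hG, h2]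
    linarith [Real.add_one_le_exp y]
  have hc : ContinuousOn G (Icc q1 q2) := fun y hy => by
    choose d hd _ using fun S => prof_deriv hk hj S (hdom y (hq1.trans_le hy.1) S)
    have h1 : HasDerivAt (fun q => 1 + ∑ S, prof m M S (q + a S)) (∑ S, d S) y :=
      (HasDerivAt.fun_sum fun S _ => (hd S).comp_add_const y (a S)).const_add 1
    exact (h1.continuousAt.sub Real.continuous_exp.continuousAt).continuousWithinAt
  obtain ⟨q, hq, h0⟩ := intermediate_value_Icc' hq2 hc ⟨hG2, hG1⟩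
  exact ⟨q, hdom q (hq1.trans_le hq.1), (sub_eq_zero.mp h0).symm⟩

theorem sv_map (σ : Equiv.Perm (Fin 6)) {a : Finset (Fin 6) → ℝ} {q : ℝ} (h : Sv m M ps a q) :
    Sv m M ps (fun S => a (S.map σ.toEmbedding)) q := by
  refine ⟨fun S hS => h.1 _ (by simpa using hS), ?_⟩
  rw [h.2, ← Equiv.sum_comp σ.finsetCongr]
  simp [prof]

theorem ne_of_X {x : E} (hx : x ∈ X) : x 1 ≠ 0 ∧ x 2 ≠ 0 := by
  have h1 := hx 2 0 (by decide)
  have h2 := hx 3 0 (by decide)
  simp [pt, br] at h1 h2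
  exact ⟨h1, h2⟩

end SolP

open SolP

theorem pSol : S_Sol := by
  intro V ξ C η m ψ M l1 p1 ps K hD hk hj
  choose f hf using ex_sv hk hj
  refine ⟨fun x => f fun S => Real.log (ξ S x), fun x _ => (hf _).1, fun x _ => (hf _).2,
    fun σ x hx => ?_, fun x _ => low hk hj (hf _)⟩
  refine uniq hk hj (hf _) ?_
  simp only [hD.eqξ σ _ x hx]
  exact sv_map σ (hf _)

theorem pCol : S_Col := by
  intro V ξ C η hD
  have hC := hD.Cpos
  have hη := hD.ηpos
  obtain ⟨B0, hB0⟩ := hD.v2 (η / 2) (by positivity)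
  set B := max B0 1 with hB
  have hBp : 0 < B := lt_max_of_lt_right one_pos
  have hB1 : ∀ x ∈ FF, η / 2 ≤ wt none x → V x * ‖x 2‖ ^ (2 / 3 : ℝ) ≤ B := fun x hx h =>
    (hB0 x hx h).trans (le_max_left _ _)
  set p1 := min (-2) (-1 - Real.log (C * B)) with hp1
  have hp1' : p1 < -1 := (min_le_left _ _).trans_lt (by norm_num)
  refine ⟨p1, fun ps => ?_⟩
  set c1 := min (Real.exp ps / C) (Real.exp (-1) / B) with hc1
  have hc1p : 0 < c1 := by positivity
  set κ := c1 * (η / 2) ^ (2 / 3 : ℝ) / C with hκ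
  have hκp : 0 < κ := by positivity
  set l1 := min (-2) (Real.log κ - 1) with hl1
  have hl1' : l1 < -1 := (min_le_left _ _).trans_lt (by norm_num)
  refine ⟨l1, fun m ψ M K q hk hj hq => ?_⟩
  have hW : ∀ x ∈ FF, 0 < V x * ‖x 2‖ ^ (2 / 3 : ℝ) := fun x hx =>
    mul_pos (hD.posV x hx.1) (Real.rpow_pos_of_pos (norm_pos_iff.mpr (ne_of_X hx.1).2) _)
  have hexp : ∀ S, ∀ x ∈ FF, Real.exp (Lg ξ q S x) = Real.exp (q x) * ξ S x := fun S x hx => by
    rw [Lg, Real.exp_add, Real.exp_log (hD.posξ S x hx.1)]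
  have hone : ∀ S, ∀ x ∈ FF, ξ S x = 1 → -1 < Lg ξ q S x := fun S x hx h => by
    rw [Lg, h, Real.log_one, add_zero]
    exact hq.low x hx.1
  have hlo : ∀ x ∈ FF, c1 * (V x * ‖x 2‖ ^ (2 / 3 : ℝ)) ≤ Real.exp (q x) := fun x hx => by
    have hw := hW x hx
    rcases hD.est x hx none with ⟨h1, -⟩ | ⟨-, h1⟩
    · have h2 := hB1 x hx (by linarith)
      have h3 : c1 * B ≤ Real.exp (-1) := (le_div_iff₀ hBp).mp (min_le_right _ _)
      have h4 := Real.exp_le_exp.mpr (hq.low x hx.1).le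
      nlinarith
    · rw [show ex none = 0 from rfl, Real.rpow_zero, mul_one, mul_assoc] at h1
      have h2 := Real.exp_le_exp.mpr (hq.dom x hx.1 (sp none) (by decide)).le
      rw [hexp _ x hx] at h2
      have h3 : c1 * C ≤ Real.exp ps := (le_div_iff₀ hC).mp (min_le_left _ _)
      have h4 := Real.exp_pos (q x)
      refine le_of_mul_le_mul_right ?_ hC
      calc c1 * (V x * ‖x 2‖ ^ (2 / 3 : ℝ)) * C = c1 * C * (V x * ‖x 2‖ ^ (2 / 3 : ℝ)) := by ring
        _ ≤ Real.exp (q x) * ξ (sp none) x * (V x * ‖x 2‖ ^ (2 / 3 : ℝ)) :=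
            mul_le_mul_of_nonneg_right (h3.trans h2) hw.le
        _ = Real.exp (q x) * (ξ (sp none) x * (V x * ‖x 2‖ ^ (2 / 3 : ℝ))) := by ring
        _ ≤ Real.exp (q x) * C := by gcongr
  have hl2 : 0 < Real.log 2 := Real.log_pos one_lt_two
  refine ⟨c1, 2 * C / Real.log 2 + C * Real.exp p1, hl1', hp1', hc1p, hlo, fun x hx => ?_,
    fun x hx h => ?_, fun x hx i h => ?_⟩
  · have hw := hW x hx
    have e1 : 0 ≤ 2 * C / Real.log 2 * (V x * ‖x 2‖ ^ (2 / 3 : ℝ)) := by positivity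
    have e2 : 0 ≤ C * Real.exp p1 * (V x * ‖x 2‖ ^ (2 / 3 : ℝ)) := by positivity
    rw [add_mul]
    rcases le_or_gt p1 (Lg ξ q (sp none) x) with h1 | h1
    · have h2 : ∀ S, prof m M S (Lg ξ q S x) ≤ 1 / 1000 := fun S => by
        unfold prof
        split_ifs with h2 h3
        · exact (abs_le.mp (hk.num _).h3).2
        · have h4 : p1 ≤ Lg ξ q S x := by
            by_cases h5 : S = {0, 1, 2}
            · rw [h5]; exact h1
            by_cases h6 : S = {3, 4, 5}
            · rw [h6, Lg, hD.compl x hx.1]; exact h1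
            refine (hp1'.trans (hone S x hx (hD.off x hx S ?_ h6))).le
            rintro (_ | i) rfl
            · exact h5 rfl
            · exact h2 (by fin_cases i <;> rfl)
          simp [hj.zero _ h4]
        · norm_num
      have h3 := sum_le_of h2
      have h4 := hq.eq x hx.1
      obtain ⟨n1, n2⟩ := ne_of_X hx.1
      have h5 : wt none x < 2 := by
        show ‖x 1 / x 2‖ < 2
        rw [norm_div, div_lt_iff₀ (norm_pos_iff.mpr n2)]
        exact hx.2.2.1
      have h6 : 0 < wt none x := norm_pos_iff.mpr (div_ne_zero n1 n2)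
      have h7 : Real.log 2 ≤ Real.log (4 / wt none x) :=
        Real.log_le_log two_pos ((le_div_iff₀ h6).mpr (by linarith))
      have h8 := h7.trans (hD.v1 x hx)
      have h9 : 2 ≤ 2 * C / Real.log 2 * (V x * ‖x 2‖ ^ (2 / 3 : ℝ)) := by
        rw [div_mul_eq_mul_div, le_div_iff₀ hl2]
        linarith
      linarith
    · rcases hD.est x hx none with ⟨-, h2⟩ | ⟨h2, -⟩
      · exact absurd (hp1'.trans (hone _ x hx h2)) (not_lt.mpr h1.le)
      · rw [show ex none = 0 from rfl, Real.rpow_zero, mul_assoc] at h2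
        have h3 := Real.exp_le_exp.mpr h1.le
        rw [hexp _ x hx] at h3
        have h4 := Real.exp_pos (q x)
        have h5 : Real.exp (q x) ≤ C * Real.exp p1 * (V x * ‖x 2‖ ^ (2 / 3 : ℝ)) :=
          calc Real.exp (q x) = Real.exp (q x) * 1 := (mul_one _).symm
            _ ≤ Real.exp (q x) * (C * (ξ (sp none) x * (V x * ‖x 2‖ ^ (2 / 3 : ℝ)))) := by gcongr
            _ = C * (Real.exp (q x) * ξ (sp none) x) * (V x * ‖x 2‖ ^ (2 / 3 : ℝ)) := by ring
            _ ≤ _ := by gcongr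
        linarith
  · rcases hD.est x hx none with ⟨-, h2⟩ | ⟨h2, -⟩
    · exact hp1'.trans (hone _ x hx h2)
    · rw [show ex none = 0 from rfl, Real.rpow_zero, mul_assoc] at h2
      have h3 := hD.posξ (sp none) x hx.1
      have h4 : 1 ≤ C * B * ξ (sp none) x :=
        calc 1 ≤ C * (ξ (sp none) x * (V x * ‖x 2‖ ^ (2 / 3 : ℝ))) := h2
          _ ≤ C * (ξ (sp none) x * B) := by gcongr; exact hB1 x hx h
          _ = _ := by ring
      have h5 := Real.log_nonneg h4
      rw [Real.log_mul (by positivity) h3.ne'] at h5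
      have h6 := hq.low x hx.1
      have h7 : p1 ≤ -1 - Real.log (C * B) := min_le_right _ _
      rw [Lg]
      linarith
  · rcases hD.est x hx (some i) with ⟨-, h2⟩ | ⟨h2, -⟩
    · exact hl1'.trans (hone _ x hx h2)
    · rw [show ex (some i) = 2 / 3 from rfl, mul_assoc] at h2
      have h3 := hD.posξ (sp (some i)) x hx.1
      have h4 : κ ≤ Real.exp (Lg ξ q (sp (some i)) x) := by
        rw [hexp _ x hx, hκ, div_le_iff₀ hC]
        calc c1 * (η / 2) ^ (2 / 3 : ℝ) ≤ c1 * wt (some i) x ^ (2 / 3 : ℝ) := by gcongr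
          _ ≤ c1 * (C * (ξ (sp (some i)) x * (V x * ‖x 2‖ ^ (2 / 3 : ℝ)))) := by gcongr
          _ = c1 * (V x * ‖x 2‖ ^ (2 / 3 : ℝ)) * ξ (sp (some i)) x * C := by ring
          _ ≤ _ := by gcongr; exact hlo x hx
      have h5 := (Real.log_le_iff_le_exp hκp).mpr h4
      have h7 : l1 ≤ Real.log κ - 1 := min_le_right _ _
      linarith

end Pool.Agent.P.MP_5d7cf0_gt
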