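import Pool.Agent.P.MP_5d7cf0_gt.St

/-! A sorting direction adapted to the collisions. -/

open Set

namespace Pool.Agent.P.MP_5d7cf0_gt

namespace SortP

theorem two_m (z : ℂ) {m m' : ℕ} (hm : m ≤ 10) (h : m' < m)
    (h1 : |z.re + m * z.im| < ‖z‖ / 24) (h2 : |z.re + m' * z.im| < ‖z‖ / 24) : False := by
  have e1 : (m' : ℝ) + 1 ≤ m := by exact_mod_cast h
  have e2 : (m : ℝ) ≤ 10 := by exact_mod_cast hm
  have e3 : (0 : ℝ) ≤ m' := Nat.cast_nonneg _
  have e4 := Complex.norm_le_abs_re_add_abs_im z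
  rw [abs_lt] at h1 h2
  rcases le_total 0 z.im with h3 | h3
  · rw [abs_of_nonneg h3] at e4
    have a1 : z.im ≤ (m - m') * z.im := by nlinarith
    have a2 : m * z.im ≤ 10 * z.im := by nlinarith
    have a3 : 0 ≤ m * z.im := by positivity
    have : |z.re| < 21 * ‖z‖ / 24 := abs_lt.2 ⟨by nlinarith, by nlinarith⟩
    nlinarith
  · rw [abs_of_nonpos h3] at e4
    have a1 : (m - m') * z.im ≤ z.im := by nlinarith
    have a2 : 10 * z.im ≤ m * z.im := by nlinarith
    have a3 : m * z.im ≤ 0 := by nlinarith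
    have : |z.re| < 21 * ‖z‖ / 24 := abs_lt.2 ⟨by nlinarith, by nlinarith⟩
    nlinarith

theorem exists_m (f : Fin 5 → ℂ) : ∃ m : ℕ, m ≤ 10 ∧ ∀ i j, i < j →
    ‖f i - f j‖ / 24 ≤ |(f i - f j).re + m * (f i - f j).im| := by
  by_contra h
  push Not at h
  have h' : ∀ m : Fin 11, ∃ p : {p : Fin 5 × Fin 5 // p.1 < p.2},
      |(f p.1.1 - f p.1.2).re + (m : ℕ) * (f p.1.1 - f p.1.2).im| < ‖f p.1.1 - f p.1.2‖ / 24 :=
    fun m => by
      obtain ⟨i, j, hij, h1⟩ := h m (by omega)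
      exact ⟨⟨(i, j), hij⟩, h1⟩
  choose p hp using h'
  obtain ⟨m, m', hne, e⟩ := Fintype.exists_ne_map_eq_of_card_lt p (by decide)
  have h1 := hp m
  have h2 := hp m'
  rw [← e] at h2
  rcases lt_or_gt_of_ne hne with l | l
  · exact two_m _ (by omega) l h2 h1
  · exact two_m _ (by omega) l h1 h2

theorem exists_theta (f : Fin 5 → ℂ) : ∃ θ : ℂ, 1 ≤ ‖θ‖ ∧ ‖θ‖ ≤ 11 ∧ θ.re = 1 ∧ ∀ i j,
    ‖f i - f j‖ / 24 ≤ |(θ * f i).re - (θ * f j).re| ∧
      |(θ * f i).re - (θ * f j).re| ≤ 11 * ‖f i - f j‖ := by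
  obtain ⟨m, hm, h⟩ := exists_m f
  have e2 : (m : ℝ) ≤ 10 := by exact_mod_cast hm
  have e3 : (0 : ℝ) ≤ m := Nat.cast_nonneg _
  have hn : ‖(⟨1, -m⟩ : ℂ)‖ ≤ 11 := by
    have := Complex.norm_le_abs_re_add_abs_im (⟨1, -m⟩ : ℂ)
    simp only [abs_one, abs_neg, abs_of_nonneg e3] at this
    linarith
  refine ⟨⟨1, -m⟩, ?_, hn, rfl, fun i j => ⟨?_, ?_⟩⟩
  · simpa using Complex.abs_re_le_norm (⟨1, -m⟩ : ℂ)
  · have e : ∀ i j, ((⟨1, -m⟩ : ℂ) * f i).re - ((⟨1, -m⟩ : ℂ) * f j).re =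
        (f i - f j).re + m * (f i - f j).im := fun i j => by
      simp only [Complex.mul_re, Complex.sub_re, Complex.sub_im]; ring
    rcases lt_trichotomy i j with l | rfl | l
    · rw [e]; exact h i j l
    · simp
    · rw [abs_sub_comm, norm_sub_rev, e]; exact h j i l
  · rw [← Complex.sub_re, ← mul_sub]
    refine (Complex.abs_re_le_norm _).trans ?_
    rw [norm_mul]
    gcongr

/-- Extension of a permutation fixing the last point. -/
def ext (π : Equiv.Perm (Fin 5)) : Equiv.Perm (Fin 6) :=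
  finSuccEquivLast.trans (π.optionCongr.trans finSuccEquivLast.symm)

theorem ext_last (π : Equiv.Perm (Fin 5)) : ext π 5 = 5 := by
  have : ext π (Fin.last 5) = Fin.last 5 := by
    simp only [ext, Equiv.trans_apply, finSuccEquivLast_last, Equiv.optionCongr_apply,
      Option.map_none, finSuccEquivLast_symm_none]
  exact this

theorem ext_cast (π : Equiv.Perm (Fin 5)) (n : Fin 5) : ext π n.castSucc = (π n).castSucc := by
  simp [ext]

theorem ext_symm (π : Equiv.Perm (Fin 5)) (n : Fin 5) :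
    (ext π).symm n.castSucc = (π.symm n).castSucc := by
  rw [Equiv.symm_apply_eq, ext_cast, Equiv.apply_symm_apply]

theorem adj {r : Fin 5 → ℝ} {π : Equiv.Perm (Fin 5)} (hπ : StrictMono (r ∘ π)) {i j : Fin 5}
    (hij : r i < r j) (h : ∀ l, l ≠ i → l ≠ j → ¬ (r i < r l ∧ r l < r j)) :
    ∃ k : Fin 6, ({i.castSucc, j.castSucc} : Finset (Fin 6)) =
      ({k, k + 1} : Finset (Fin 6)).map (ext π).toEmbedding := by
  have lt : ∀ a b, r a < r b ↔ π.symm a < π.symm b := fun a b => by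
    rw [← hπ.lt_iff_lt]; simp
  have h1 := (lt _ _).1 hij
  have h2 : ((π.symm j : Fin 5) : ℕ) = π.symm i + 1 := by
    by_contra hne
    have h3 : ((π.symm i : Fin 5) : ℕ) + 1 < π.symm j := by
      have : ((π.symm i : Fin 5) : ℕ) < π.symm j := h1
      omega
    let q : Fin 5 := ⟨π.symm i + 1, h3.trans (π.symm j).2⟩
    have q1 : π.symm i < π.symm (π q) := by
      rw [Equiv.symm_apply_apply]; exact Nat.lt_succ_self _
    have q2 : π.symm (π q) < π.symm j := by
      rw [Equiv.symm_apply_apply]; exact h3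
    refine h (π q) ?_ ?_ ⟨(lt _ _).2 q1, (lt _ _).2 q2⟩
    · rintro e; rw [e] at q1; exact lt_irrefl _ q1
    · rintro e; rw [e] at q2; exact lt_irrefl _ q2
  refine ⟨(π.symm i).castSucc, ?_⟩
  have e : (π.symm i).castSucc + 1 = (π.symm j).castSucc := by
    rw [Fin.coeSucc_eq_succ]
    exact Fin.ext (by simp [h2])
  rw [e, Finset.map_insert, Finset.map_singleton]
  simp only [Equiv.coe_toEmbedding, ext_cast, Equiv.apply_symm_apply]

theorem adj' {r : Fin 5 → ℝ} {π : Equiv.Perm (Fin 5)} (hπ : StrictMono (r ∘ π)) {i j : Fin 5}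
    (hij : r i ≠ r j) (h : ∀ l, l ≠ i → l ≠ j → |r j - r i| < |r l - r i|) :
    ∃ k : Fin 6, ({i.castSucc, j.castSucc} : Finset (Fin 6)) =
      ({k, k + 1} : Finset (Fin 6)).map (ext π).toEmbedding := by
  rcases lt_or_gt_of_ne hij with l | l
  · refine adj hπ l fun a h1 h2 h3 => ?_
    have := h a h1 h2
    rw [abs_of_pos (sub_pos.2 l), abs_of_pos (sub_pos.2 h3.1)] at this
    linarith [h3.2]
  · rw [Finset.pair_comm]
    refine adj hπ l fun a h1 h2 h3 => ?_
    have := h a h2 h1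
    rw [abs_of_neg (sub_neg.2 l), abs_of_neg (sub_neg.2 h3.2)] at this
    linarith [h3.1]

theorem last {r : Fin 5 → ℝ} {π : Equiv.Perm (Fin 5)} (hπ : StrictMono (r ∘ π))
    (h : ∀ l, l ≠ 4 → r l < r 4) :
    ({4, 5} : Finset (Fin 6)) = ({4, 4 + 1} : Finset (Fin 6)).map (ext π).toEmbedding := by
  have e : π 4 = 4 := by
    by_contra hne
    have h1 := h _ hne
    have h2 : r (π (π.symm 4)) ≤ r (π 4) := hπ.monotone (Fin.le_last _)
    rw [Equiv.apply_symm_apply] at h2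
    linarith
  have e1 : ext π 4 = 4 := by
    have := ext_cast π 4
    rw [e] at this
    exact this
  have e2 : (4 + 1 : Fin 6) = 5 := rfl
  rw [e2, Finset.map_insert, Finset.map_singleton]
  simp only [Equiv.coe_toEmbedding, e1, ext_last]

theorem triple {r : Fin 5 → ℝ} {π : Equiv.Perm (Fin 5)} (hπ : StrictMono (r ∘ π))
    (h4 : r 0 < r 4 ∧ r 1 < r 4 ∧ r 2 < r 4)
    (h3 : (r 0 < r 3 ∧ r 1 < r 3 ∧ r 2 < r 3) ∨ (r 3 < r 0 ∧ r 3 < r 1 ∧ r 3 < r 2)) :
    ∃ k : Fin 6, (k : ℕ) ≤ 2 ∧ ({0, 1, 2} : Finset (Fin 6)) =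
      ({k, k + 1, k + 2} : Finset (Fin 6)).map (ext π).toEmbedding := by
  have lt : ∀ a b, r a < r b ↔ ((π.symm a : Fin 5) : ℕ) < π.symm b := fun a b => by
    rw [← Fin.lt_def, ← hπ.lt_iff_lt]; simp
  have ne : ∀ a b, a ≠ b → ((π.symm a : Fin 5) : ℕ) ≠ π.symm b := fun a b h e =>
    h (π.symm.injective (Fin.ext e))
  simp only [lt] at h4 h3
  have n01 := ne 0 1 (by decide)
  have n02 := ne 0 2 (by decide)
  have n12 := ne 1 2 (by decide)
  have n34 := ne 3 4 (by decide)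
  have b3 := (π.symm 3).2
  have b4 := (π.symm 4).2
  have v : ∀ n : Fin 5, (((ext π).symm n.castSucc : Fin 6) : ℕ) = π.symm n := fun n => by
    rw [ext_symm]; rfl
  have v0 : (((ext π).symm 0 : Fin 6) : ℕ) = π.symm 0 := v 0
  have v1 : (((ext π).symm 1 : Fin 6) : ℕ) = π.symm 1 := v 1
  have v2 : (((ext π).symm 2 : Fin 6) : ℕ) = π.symm 2 := v 2
  have key : ∀ k : Fin 6, (∀ n : Fin 6, n ∈ ({0, 1, 2} : Finset (Fin 6)) →
      (ext π).symm n ∈ ({k, k + 1, k + 2} : Finset (Fin 6))) → ({0, 1, 2} : Finset (Fin 6)) =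
      ({k, k + 1, k + 2} : Finset (Fin 6)).map (ext π).toEmbedding := fun k hk =>
    Finset.eq_of_subset_of_card_le (fun n hn => Finset.mem_map_equiv.2 (hk n hn))
      (by rw [Finset.card_map]; exact Finset.card_le_three)
  rcases h3 with h3 | h3
  · refine ⟨0, by decide, key 0 fun n hn => ?_⟩
    have : ∀ y : Fin 6, (y : ℕ) ≤ 2 → y ∈ ({0, 0 + 1, 0 + 2} : Finset (Fin 6)) := by decide
    simp only [Finset.mem_insert, Finset.mem_singleton] at hn
    rcases hn with rfl | rfl | rfl <;> exact this _ (by omega)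
  · refine ⟨1, by decide, key 1 fun n hn => ?_⟩
    have : ∀ y : Fin 6, 1 ≤ (y : ℕ) ∧ (y : ℕ) ≤ 3 → y ∈ ({1, 1 + 1, 1 + 2} : Finset (Fin 6)) := by
      decide
    simp only [Finset.mem_insert, Finset.mem_singleton] at hn
    rcases hn with rfl | rfl | rfl <;> exact this _ (by omega)

theorem fp_inj {x : E} (hx : x ∈ X) (i j : Fin 5) (h : i ≠ j) : fp x i - fp x j ≠ 0 := by
  have e : ∀ n : Fin 5, pt x n.castSucc = (fp x n, 1) := fun n => by fin_cases n <;> rfl
  have := hx i.castSucc j.castSucc fun e => h (Fin.castSucc_injective _ e)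
  rw [e, e] at this
  simpa [br] using this

end SortP

open SortP in
theorem pSort : S_Sort := by
  rintro x ⟨hX, h01, h12, h2, -, h20, h1⟩
  obtain ⟨θ, t1, t2, t3, ht⟩ := exists_theta (fp x)
  set r : Fin 5 → ℝ := fun n => (θ * fp x n).re with hr
  have ht' : ∀ i j, ‖fp x i - fp x j‖ / 24 ≤ |r i - r j| ∧ |r i - r j| ≤ 11 * ‖fp x i - fp x j‖ :=
    ht
  have rinj : Function.Injective r := fun i j e => by
    by_contra hne
    have := (ht' i j).1
    rw [e, sub_self, abs_zero] at this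
    have := norm_pos_iff.2 (fp_inj hX i j hne)
    linarith
  have hπ : StrictMono (r ∘ Tuple.sort r) :=
    (Tuple.monotone_sort r).strictMono_of_injective (rinj.comp (Tuple.sort r).injective)
  have f0 : fp x 0 = 0 := rfl
  have f1 : fp x 1 = x 0 := rfl
  have f2 : fp x 2 = x 1 := rfl
  have f3 : fp x 3 = x 2 := rfl
  have f4 : fp x 4 = 1 := rfl
  have r0 : r 0 = 0 := by simp [hr, f0]
  have r4 : r 4 = 1 := by simp [hr, f4, t3]
  have p1 : 0 < ‖x 1‖ := by linarith [norm_nonneg (x 0)]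
  have p2 : 0 < ‖x 2‖ := by linarith
  have u1 := ht' 1 0
  have u2 := ht' 2 0
  have u3 := ht' 3 0
  rw [f0, sub_zero] at u1 u2 u3
  rw [f1] at u1
  rw [f2] at u2
  rw [f3] at u3
  have key : ∀ S : Option (Fin 3), ∃ k : Fin 6, wt S x < 1 / 10 ^ 8 →
      (S ≠ none → sp S = ({k, k + 1} : Finset (Fin 6)).map (ext (Tuple.sort r)).toEmbedding) ∧
      (S = none → (k : ℕ) ≤ 2 ∧
        sp none = ({k, k + 1, k + 2} : Finset (Fin 6)).map (ext (Tuple.sort r)).toEmbedding ∧
        ∀ n : Fin 5, 3 ≤ (n : ℕ) → 30 * ‖x 1‖ < |r n|) := by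
    intro S
    by_cases hw : wt S x < 1 / 10 ^ 8
    swap
    · exact ⟨0, fun h => absurd h hw⟩
    rcases S with _ | i
    · have hw' : ‖x 1 / x 2‖ < 1 / 10 ^ 8 := hw
      rw [norm_div, div_lt_iff₀ p2] at hw'
      rw [r0, sub_zero] at u1 u2 u3
      have a1 := abs_le.1 u1.2
      have a2 := abs_le.1 u2.2
      have a3 : 30 * ‖x 1‖ < |r 3| := by linarith [u3.1]
      obtain ⟨k, k1, k2⟩ := triple hπ (by rw [r0, r4]; refine ⟨?_, ?_, ?_⟩ <;> linarith) (by
        rw [r0]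
        rcases lt_abs.1 a3 with a | a
        · left; refine ⟨?_, ?_, ?_⟩ <;> linarith
        · right; refine ⟨?_, ?_, ?_⟩ <;> linarith)
      refine ⟨k, fun _ => ⟨fun h => absurd rfl h, fun _ => ⟨k1, k2, fun n hn => ?_⟩⟩⟩
      have : n = 3 ∨ n = 4 := by omega
      rcases this with rfl | rfl
      · exact a3
      · rw [r4, abs_one]; linarith
    · have : i = 0 ∨ i = 1 ∨ i = 2 := by omega
      rcases this with rfl | rfl | rfl
      · have hw' : ‖x 0 / x 1‖ < 1 / 10 ^ 8 := hw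
        rw [norm_div, div_lt_iff₀ p1] at hw'
        obtain ⟨k, hk⟩ := adj' hπ (i := 0) (j := 1) (rinj.ne (by decide)) fun l l0 l1 => by
          have : l = 2 ∨ l = 3 ∨ l = 4 := by omega
          rcases this with rfl | rfl | rfl
          · linarith [u1.2, u2.1]
          · linarith [u1.2, u3.1]
          · rw [r4, r0, sub_zero, sub_zero, abs_one]
            rw [r0, sub_zero] at u1
            linarith [u1.2]
        exact ⟨k, fun _ => ⟨fun _ => hk, fun h => absurd h (by simp)⟩⟩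
      · have hw' : ‖1 - x 1 / x 2‖ < 1 / 10 ^ 8 := hw
        have e : 1 - x 1 / x 2 = -(x 1 - x 2) / x 2 := by
          have := norm_pos_iff.1 p2
          field_simp
          ring
        rw [e, norm_div, norm_neg, div_lt_iff₀ p2] at hw'
        have w2 := (ht' 2 3).2
        have w0 := (ht' 0 3).1
        have w1 := (ht' 1 3).1
        have w4 := (ht' 4 3).1
        rw [f2, f3] at w2
        rw [f0, f3, zero_sub, norm_neg] at w0
        rw [f1, f3, norm_sub_rev] at w1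
        rw [f4, f3] at w4
        obtain ⟨k, hk⟩ := adj' hπ (i := 3) (j := 2) (rinj.ne (by decide)) fun l l0 l1 => by
          have : l = 0 ∨ l = 1 ∨ l = 4 := by omega
          rcases this with rfl | rfl | rfl
          · linarith
          · linarith
          · linarith [h1 2]
        rw [Finset.pair_comm] at hk
        exact ⟨k, fun _ => ⟨fun _ => hk, fun h => absurd h (by simp)⟩⟩
      · have hw' : ‖x 2‖ < 1 / 10 ^ 8 := hw
        rw [r0, sub_zero] at u1 u2 u3
        have hk := last hπ fun l l4 => by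
          have : l = 0 ∨ l = 1 ∨ l = 2 ∨ l = 3 := by omega
          rw [r4]
          rcases this with rfl | rfl | rfl | rfl
          · rw [r0]; exact one_pos
          · linarith [(abs_le.1 u1.2).2]
          · linarith [(abs_le.1 u2.2).2]
          · linarith [(abs_le.1 u3.2).2]
        exact ⟨4, fun _ => ⟨fun _ => hk, fun h => absurd h (by simp)⟩⟩
  choose k hk using key
  exact ⟨θ, Tuple.sort r, ext (Tuple.sort r), k, t1, t2, hπ, ext_last _, ext_cast _,
    fun i h => (hk _ h).1 (by simp), fun h => (hk _ h).2 rfl⟩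

end Pool.Agent.P.MP_5d7cf0_gt
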