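import Pool.Agent.P.MP_5d7cf0_gt.St

/-!
Primitives along vertical rays in a strip.
-/

open Set Filter Topology MeasureTheory

namespace Pool.Agent.P.MP_5d7cf0_gt

namespace StrP

theorem meas_fm (l : Fin 5 → ℂ) (m : ℕ) : Measurable (fm l m) := by
  unfold fm cp
  refine Finset.measurable_prod _ fun k _ => ?_
  split_ifs <;> fun_prop

theorem mem_Cs {l : Fin 5 → ℂ} {m : ℕ} {z w : ℂ} (h : z.re = w.re) (hz : z ∈ Cs l m) :
    w ∈ Cs l m := fun k => by
  have := hz k
  rwa [h] at this

theorem mem_Os {l : Fin 5 → ℂ} {m : ℕ} {z w : ℂ} (h : z.re = w.re) (hz : z ∈ Os l m) :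
    w ∈ Os l m := fun k => by
  have := hz k
  rwa [h] at this

theorem Os_sub (l : Fin 5 → ℂ) (m : ℕ) : Os l m ⊆ Cs l m := fun z hz k => by
  have := hz k
  split_ifs at this ⊢ <;> exact this.le

theorem seg_mem {l : Fin 5 → ℂ} {m : ℕ} {z w : ℂ} (hz : z ∈ Cs l m) (hw : w ∈ Os l m) {t : ℝ}
    (h0 : 0 < t) (h1 : t ≤ 1) : z + t * (w - z) ∈ Os l m := fun k => by
  have h2 := hz k
  have h3 := hw k
  have h4 : (z + t * (w - z)).re = z.re + t * (w.re - z.re) := by simp
  rw [h4]
  split_ifs at h2 h3 ⊢ <;> nlinarith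

theorem convex_Os (l : Fin 5 → ℂ) (m : ℕ) : Convex ℝ (Os l m) := by
  rw [convex_iff_add_mem]
  intro x hx y hy a b ha hb hab
  rcases hb.eq_or_lt with rfl | hb'
  · have : a = 1 := by linarith
    simpa [this] using hx
  · have := seg_mem (Os_sub l m hx) hy hb' (by linarith)
    convert this using 1
    have h : (a : ℂ) = 1 - b := by exact_mod_cast (by linarith : a = 1 - b)
    simp only [Complex.real_smul, h]
    ring

theorem mid_mem {l : Fin 5 → ℂ} (hl : l ∈ O) (m : Fin 6) : mid l m ∈ Os l m := by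
  have h01 : (l 0).re < (l 1).re := hl (by decide)
  have h12 : (l 1).re < (l 2).re := hl (by decide)
  have h23 : (l 2).re < (l 3).re := hl (by decide)
  have h34 : (l 3).re < (l 4).re := hl (by decide)
  intro k
  fin_cases m <;> fin_cases k <;> simp [mid] <;> linarith

theorem up_eq (f : ℂ → ℂ) (z : ℂ) : ∫ s in Ioi (0 : ℝ), f (z + s * Complex.I) =
    ∫ y in Ioi z.im, f (z.re + y * Complex.I) := by
  rw [← integral_indicator measurableSet_Ioi, ← integral_indicator measurableSet_Ioi,
    ← integral_add_right_eq_self ((Ioi z.im).indicator _) z.im]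
  congr 1
  funext s
  have h : (z.re : ℂ) + ((s + z.im : ℝ) : ℂ) * Complex.I = z + s * Complex.I := by
    apply Complex.ext <;> simp [add_comm]
  by_cases hs : 0 < s
  · rw [indicator_of_mem (show s ∈ Ioi (0 : ℝ) from hs),
      indicator_of_mem (show s + z.im ∈ Ioi z.im by simpa using hs), h]
  · rw [indicator_of_notMem (show s ∉ Ioi (0 : ℝ) from hs),
      indicator_of_notMem (show s + z.im ∉ Ioi z.im by simpa using hs)]

theorem dn_eq (f : ℂ → ℂ) (z : ℂ) : ∫ s in Ioi (0 : ℝ), f (z - s * Complex.I) =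
    ∫ y in Iio z.im, f (z.re + y * Complex.I) := by
  rw [← integral_indicator measurableSet_Ioi, ← integral_indicator measurableSet_Iio,
    ← integral_sub_left_eq_self ((Iio z.im).indicator _) volume z.im]
  congr 1
  funext s
  have h : (z.re : ℂ) + ((z.im - s : ℝ) : ℂ) * Complex.I = z - s * Complex.I := by
    apply Complex.ext <;> simp
  by_cases hs : 0 < s
  · rw [indicator_of_mem (show s ∈ Ioi (0 : ℝ) from hs),
      indicator_of_mem (show z.im - s ∈ Iio z.im by simpa using hs), h]
  · rw [indicator_of_notMem (show s ∉ Ioi (0 : ℝ) from hs),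
      indicator_of_notMem (show z.im - s ∉ Iio z.im by simpa using hs)]

section dom
variable {l : Fin 5 → ℂ} {m : ℕ} {φ : ℝ → ℝ} (hφ : Integrable φ)
  (hd : ∀ᵐ y : ℝ, ∀ x : ℝ, (x : ℂ) ∈ Cs l m → ‖fm l m (x + y * Complex.I)‖ ≤ φ y)
include hφ hd

omit hφ hd in
theorem meas_line (z : ℂ) : Measurable fun y : ℝ => fm l m (z + y * Complex.I) :=
  (meas_fm l m).comp (by fun_prop)

theorem int_re {z : ℂ} (hz : z ∈ Cs l m) :
    Integrable fun y : ℝ => fm l m (z.re + y * Complex.I) :=
  hφ.mono' (meas_line _).aestronglyMeasurable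
    (hd.mono fun _ hy => hy _ (mem_Cs (by simp) hz))

theorem line {z : ℂ} (hz : z ∈ Cs l m) :
    Integrable (fun y : ℝ => fm l m (z + y * Complex.I)) ∧
      Up l m z + Dn l m z = ∫ y : ℝ, fm l m (z + y * Complex.I) := by
  have h : (fun y : ℝ => fm l m (z + y * Complex.I)) =
      fun y : ℝ => (fun y : ℝ => fm l m (z.re + y * Complex.I)) (y + z.im) := by
    funext s
    congr 1
    apply Complex.ext <;> simp [add_comm]
  have hi := int_re hφ hd hz
  rw [h]
  refine ⟨hi.comp_add_right _, ?_⟩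
  rw [integral_add_right_eq_self (fun y : ℝ => fm l m (z.re + y * Complex.I)) z.im, Up, Dn, up_eq,
    dn_eq, ← integral_Ici_eq_integral_Ioi, add_comm]
  exact intervalIntegral.integral_Iio_add_Ici hi.integrableOn hi.integrableOn

theorem cont (hc : ∀ z ∈ Cs l m, (∀ k, z ≠ l k) → ContinuousWithinAt (fm l m) (Cs l m) z)
    (S : ℝ → Set ℝ) (hS : ∀ c, MeasurableSet (S c))
    (hS' : ∀ c y, y ≠ c → ∀ᶠ c' in 𝓝 c, (y ∈ S c' ↔ y ∈ S c)) :
    ContinuousOn (fun z : ℂ => ∫ y in S z.im, fm l m (z.re + y * Complex.I)) (Cs l m) := by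
  intro z0 hz0
  simp only [← integral_indicator (hS _)]
  refine continuousWithinAt_of_dominated (bound := φ) ?_ ?_ hφ ?_
  · exact Eventually.of_forall fun z => ((meas_line _).indicator (hS _)).aestronglyMeasurable
  · filter_upwards [self_mem_nhdsWithin] with z hz
    filter_upwards [hd] with y hy
    exact (norm_indicator_le_norm_self _ _).trans (hy _ (mem_Cs (by simp) hz))
  · have h1 : ∀ᵐ y : ℝ, ∀ k, y ≠ (l k).im := ae_all_iff.2 fun k => Measure.ae_ne _ _
    filter_upwards [h1, Measure.ae_ne volume z0.im] with y hy hy0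
    have h2 : ContinuousWithinAt (fun z : ℂ => fm l m (z.re + y * Complex.I)) (Cs l m) z0 := by
      refine ContinuousWithinAt.comp (f := fun z : ℂ => (z.re : ℂ) + y * Complex.I)
        (hc _ (mem_Cs (by simp) hz0) fun k hk => hy k ?_) (by fun_prop)
        (fun z hz => mem_Cs (by simp) hz)
      simpa using congrArg Complex.im hk
    have h3 : ∀ᶠ z in 𝓝[Cs l m] z0, (y ∈ S z.im ↔ y ∈ S z0.im) :=
      nhdsWithin_le_nhds (Complex.continuous_im.continuousAt.eventually (hS' _ y hy0))
    by_cases h4 : y ∈ S z0.im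
    · refine h2.congr_of_eventuallyEq ?_ (indicator_of_mem h4 _)
      filter_upwards [h3] with z hz
      exact indicator_of_mem (hz.2 h4) _
    · refine (continuousWithinAt_const (b := (0 : ℂ))).congr_of_eventuallyEq ?_
        (indicator_of_notMem h4 _)
      filter_upwards [h3] with z hz
      exact indicator_of_notMem (fun h => h4 (hz.1 h)) _

theorem zero (hn : ∀ z, ‖fm l m z‖ = ∏ k, ‖z - l k‖ ^ (-(1 / 3) : ℝ)) (F : Filter ℝ) [F.NeBot]
    [F.IsCountablyGenerated] (hF : Tendsto (fun x : ℝ => |x|) F atTop)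
    (hC : ∀ᶠ x : ℝ in F, (x : ℂ) ∈ Cs l m) (L : ℂ)
    (hL : ∀ z ∈ Cs l m, ∫ y : ℝ, fm l m (z + y * Complex.I) = L) : L = 0 := by
  have h1 : Tendsto (fun x : ℝ => ∫ y : ℝ, fm l m (x + y * Complex.I)) F
      (𝓝 (∫ _ : ℝ, (0 : ℂ))) := by
    refine tendsto_integral_filter_of_dominated_convergence φ
      (Eventually.of_forall fun x => (meas_line _).aestronglyMeasurable) ?_ hφ
      (Eventually.of_forall fun y => ?_)
    · filter_upwards [hC] with x hx
      filter_upwards [hd] with y hy
      exact hy x hx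
    · rw [tendsto_zero_iff_norm_tendsto_zero]
      simp only [hn]
      have h2 : ∀ k, Tendsto (fun x : ℝ => ‖(x : ℂ) + y * Complex.I - l k‖ ^ (-(1 / 3) : ℝ)) F
          (𝓝 0) := by
        intro k
        refine (tendsto_rpow_neg_atTop (by norm_num)).comp ?_
        refine tendsto_atTop_mono (fun x => ?_) (tendsto_atTop_add_const_right F (-|(l k).re|) hF)
        have h3 := Complex.abs_re_le_norm ((x : ℂ) + y * Complex.I - l k)
        have h4 : ((x : ℂ) + y * Complex.I - l k).re = x - (l k).re := by simp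
        rw [h4] at h3
        linarith [abs_sub_abs_le_abs_sub x (l k).re]
      simpa using tendsto_finsetProd Finset.univ fun k _ => h2 k
  rw [integral_zero] at h1
  refine tendsto_nhds_unique (tendsto_const_nhds.congr' ?_) h1
  filter_upwards [hC] with x hx
  exact (hL _ hx).symm

end dom

end StrP

open StrP in
theorem pStr (hR : S_Ray) (hF : S_Fm) : S_Str := by
  intro l hl m
  obtain ⟨hn, hO, hder, hc, hb, φ, hφ, hd⟩ := hF l hl m
  have hdiff : DifferentiableOn ℂ (fm l m) (Os l m) := fun z hz =>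
    (hder z hz).differentiableAt.differentiableWithinAt
  have hU : ContinuousOn (Up l m) (Cs l m) := by
    have := cont hφ hd hc Ioi (fun _ => measurableSet_Ioi) (fun c y hy => by
      rcases lt_or_gt_of_ne hy with h | h
      · filter_upwards [lt_mem_nhds h] with c' hc'
        simp [h.le, hc'.le, not_lt.2]
      · filter_upwards [gt_mem_nhds h] with c' hc'
        simp [h, hc'])
    exact this.congr fun z _ => up_eq _ z
  have hD : ContinuousOn (Dn l m) (Cs l m) := by
    have := cont hφ hd hc Iio (fun _ => measurableSet_Iio) (fun c y hy => by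
      rcases lt_or_gt_of_ne hy with h | h
      · filter_upwards [lt_mem_nhds h] with c' hc'
        simp [h, hc']
      · filter_upwards [gt_mem_nhds h] with c' hc'
        simp [h.le, hc'.le, not_lt.2])
    exact this.congr fun z _ => dn_eq _ z
  have hray : ∀ e : ℝ, e = 1 ∨ e = -1 → ∀ z ∈ Os l m,
      HasDerivAt (fun w => ∫ s in Ioi (0 : ℝ), fm l m (w + e * s * Complex.I))
        (e * Complex.I * fm l m z) z := by
    intro e he z hz
    refine (hR (fm l m) (Os l m) e hO hdiff (fun z hz s _ => mem_Os (by simp) hz) he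
      (fun z0 hz0 => ?_) z hz).2
    obtain ⟨C, hC⟩ := hb z0 hz0
    refine ⟨C, hC.mono fun z hz s hs => ?_⟩
    have h1 := (hz (e * s)).1
    have h2 : |e * s| = s := by
      rcases he with rfl | rfl <;> simp [abs_of_nonneg hs]
    rw [h2] at h1
    simpa using h1
  have hdU : ∀ z ∈ Os l m, HasDerivAt (Up l m) (Complex.I * fm l m z) z ∧
      HasDerivAt (Dn l m) (-Complex.I * fm l m z) z := by
    intro z hz
    have h1 := hray 1 (Or.inl rfl) z hz
    have h2 := hray (-1) (Or.inr rfl) z hz
    simp only [Complex.ofReal_one, one_mul, Complex.ofReal_neg, neg_mul,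
      ← sub_eq_add_neg] at h1 h2
    exact ⟨h1, by rw [neg_mul]; exact h2⟩
  have hm := mid_mem hl m
  have hmid : Up l m (mid l m) + Dn l m (mid l m) = LL l m :=
    (line hφ hd (Os_sub _ _ hm)).2
  have hOs : ∀ z ∈ Os l m, Up l m z + Dn l m z = LL l m := by
    intro z hz
    rw [← hmid]
    have h0 : ∀ z ∈ Os l m, HasDerivAt (fun z => Up l m z + Dn l m z) 0 z := fun z hz => by
      have := (hdU z hz).1.add (hdU z hz).2
      rw [neg_mul, add_neg_cancel] at this
      exact this
    exact hO.is_const_of_deriv_eq_zero (convex_Os l m).isPreconnected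
      (fun z hz => (h0 z hz).differentiableAt.differentiableWithinAt)
      (fun z hz => (h0 z hz).deriv) hz hm
  have hCs : ∀ z ∈ Cs l m, Up l m z + Dn l m z = LL l m := by
    intro z hz
    have h1 : ∀ᶠ t : ℝ in 𝓝[>] 0, z + t * (mid l m - z) ∈ Os l m := by
      filter_upwards [Ioc_mem_nhdsGT (zero_lt_one' ℝ)] with t ht
      exact seg_mem hz hm ht.1 ht.2
    have h2 : Tendsto (fun t : ℝ => z + t * (mid l m - z)) (𝓝[>] 0) (𝓝[Cs l m] z) := by
      refine tendsto_nhdsWithin_iff.2 ⟨?_, h1.mono fun t ht => Os_sub _ _ ht⟩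
      have : Continuous fun t : ℝ => z + t * (mid l m - z) := by fun_prop
      simpa using (this.tendsto 0).mono_left nhdsWithin_le_nhds
    have h3 := ((hU z hz).add (hD z hz)).tendsto.comp h2
    refine tendsto_nhds_unique h3 (tendsto_const_nhds.congr' ?_)
    filter_upwards [h1] with t ht
    exact (hOs _ ht).symm
  have hL : ∀ z ∈ Cs l m, ∫ y : ℝ, fm l m (z + y * Complex.I) = LL l m := fun z hz =>
    (line hφ hd hz).2.symm.trans (hCs z hz)
  refine ⟨hU, hD, hdU, fun z hz => ⟨(line hφ hd hz).1, hL z hz, hCs z hz⟩, ?_⟩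
  rintro (rfl | rfl)
  · refine zero hφ hd hn atBot tendsto_abs_atBot_atTop ?_ _ hL
    have : ∀ᶠ x : ℝ in atBot, ∀ k, x ≤ (l k).re := eventually_all.2 fun k => eventually_le_atBot _
    filter_upwards [this] with x hx k
    simpa using hx k
  · refine zero hφ hd hn atTop tendsto_abs_atTop_atTop ?_ _ hL
    have : ∀ᶠ x : ℝ in atTop, ∀ k, (l k).re ≤ x := eventually_all.2 fun k => eventually_ge_atTop _
    filter_upwards [this] with x hx k
    have h5 : (k : ℕ) < ((5 : Fin 6) : ℕ) := k.2
    rw [if_pos h5]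
    simpa using hx k

end Pool.Agent.P.MP_5d7cf0_gt
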