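import Pool.Agent.P.MP_5d7cf0_gt.St

/-! Package TabA: sizes of the cross ratio sums on the region of normal forms. -/

namespace Pool.Agent.P.MP_5d7cf0_gt

namespace TabAP

noncomputable section

/-- The points of `T` form a cluster for the table `N`. -/
structure Cl (N : Fin 6 → Fin 6 → ℝ) (T : Finset (Fin 6)) (w : Fin 6 → ℝ) (m α β : ℝ) : Prop where
  wpos : ∀ c, c ∉ T → 0 < w c
  h1 : ∀ a ∈ T, ∀ b ∈ T, N a b ≤ α
  h2 : ∀ a ∈ T, ∀ c, c ∉ T → w c ≤ m * N a c
  h3 : ∀ c, c ∉ T → ∀ d, d ∉ T → N c d ≤ β * (w c * w d)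

/-- The table of norms. -/
def nn (v : V6) (i j : Fin 6) : ℝ := ‖br (v i) (v j)‖

theorem nn_nonneg (v : V6) (i j : Fin 6) : 0 ≤ nn v i j := norm_nonneg _

theorem nn_symm (v : V6) (i j : Fin 6) : nn v i j = nn v j i := by
  unfold nn br
  rw [norm_sub_rev]; congr 1; ring

theorem cc_eq (S : Finset (Fin 6)) (v : V6) : cc S v =
    ∑ a ∈ S, ∑ b ∈ S, ∑ c ∈ Sᶜ, ∑ d ∈ Sᶜ, nn v a b * nn v c d / (nn v a c * nn v b d) := by
  simp only [cc, nn, norm_div, norm_mul]

theorem term_nonneg (v : V6) (a b c d : Fin 6) :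
    0 ≤ nn v a b * nn v c d / (nn v a c * nn v b d) :=
  div_nonneg (mul_nonneg (nn_nonneg _ _ _) (nn_nonneg _ _ _))
    (mul_nonneg (nn_nonneg _ _ _) (nn_nonneg _ _ _))

theorem term_le (S : Finset (Fin 6)) (v : V6) {a b c d : Fin 6} (ha : a ∈ S) (hb : b ∈ S)
    (hc : c ∉ S) (hd : d ∉ S) : nn v a b * nn v c d / (nn v a c * nn v b d) ≤ cc S v := by
  rw [cc_eq]
  have t := term_nonneg v
  refine le_trans ?_ (Finset.single_le_sum (fun a _ => Finset.sum_nonneg fun b _ =>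
    Finset.sum_nonneg fun c _ => Finset.sum_nonneg fun d _ => t a b c d) ha)
  refine le_trans ?_ (Finset.single_le_sum (fun b _ =>
    Finset.sum_nonneg fun c _ => Finset.sum_nonneg fun d _ => t a b c d) hb)
  refine le_trans ?_ (Finset.single_le_sum (fun c _ => Finset.sum_nonneg fun d _ => t a b c d)
    (Finset.mem_compl.2 hc))
  exact Finset.single_le_sum (fun d _ => t a b c d) (Finset.mem_compl.2 hd)

theorem Cl.upper {v : V6} {T : Finset (Fin 6)} {w : Fin 6 → ℝ} {m α β K : ℝ}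
    (h : Cl (nn v) T w m α β) (hm : 0 < m) (hK : m ^ 2 * α * β ≤ K)
    (hT : T.card * T.card * (Tᶜ.card * Tᶜ.card) ≤ 100) (hK0 : 0 ≤ K) : cc T v ≤ 100 * K := by
  have key : ∀ a ∈ T, ∀ b ∈ T, ∀ c ∈ Tᶜ, ∀ d ∈ Tᶜ,
      nn v a b * nn v c d / (nn v a c * nn v b d) ≤ K := by
    intro a ha b hb c hc d hd
    rw [Finset.mem_compl] at hc hd
    have p1 := h.wpos c hc
    have p2 := h.wpos d hd
    have q1 := h.h2 a ha c hc
    have q2 := h.h2 b hb d hd
    have r1 : 0 < nn v a c := (mul_pos_iff_of_pos_left hm).1 (p1.trans_le q1)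
    have r2 : 0 < nn v b d := (mul_pos_iff_of_pos_left hm).1 (p2.trans_le q2)
    have s1 := h.h1 a ha b hb
    have s2 := h.h3 c hc d hd
    have n1 := nn_nonneg v a b
    have n2 := nn_nonneg v c d
    have hβ : 0 ≤ β := nonneg_of_mul_nonneg_left (n2.trans s2) (mul_pos p1 p2)
    rw [div_le_iff₀ (mul_pos r1 r2)]
    calc nn v a b * nn v c d ≤ α * (β * (w c * w d)) := by gcongr; exact n1.trans s1
      _ ≤ α * (β * ((m * nn v a c) * (m * nn v b d))) := by gcongr; exact n1.trans s1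
      _ = (m ^ 2 * α * β) * (nn v a c * nn v b d) := by ring
      _ ≤ _ := by gcongr
  rw [cc_eq]
  calc _ ≤ ∑ a ∈ T, ∑ b ∈ T, ∑ c ∈ Tᶜ, ∑ d ∈ Tᶜ, K :=
        Finset.sum_le_sum fun a ha => Finset.sum_le_sum fun b hb => Finset.sum_le_sum fun c hc =>
          Finset.sum_le_sum fun d hd => key a ha b hb c hc d hd
    _ = ((T.card * T.card * (Tᶜ.card * Tᶜ.card) : ℕ) : ℝ) * K := by
        simp only [Finset.sum_const, nsmul_eq_mul]; push_cast; ring
    _ ≤ 100 * K := by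
        gcongr
        exact_mod_cast hT

theorem Cl.lower {v : V6} {T : Finset (Fin 6)} {w : Fin 6 → ℝ} {m α β : ℝ}
    (h : Cl (nn v) T w m α β) (hK : m ^ 2 * α * β ≤ 10000) {a b c d : Fin 6}
    (ha : a ∈ T) (hc : c ∈ T) (hb : b ∉ T) (hd : d ∉ T) (r1 : 0 < nn v a c) (r2 : 0 < nn v b d) :
    del ≤ nn v a b * nn v c d / (nn v a c * nn v b d) := by
  have p1 := h.wpos b hb
  have p2 := h.wpos d hd
  have q1 := h.h2 a ha b hb
  have q2 := h.h2 c hc d hd
  have s1 := h.h1 a ha c hc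
  have s2 := h.h3 b hb d hd
  have n1 := nn_nonneg v a b
  have n2 := nn_nonneg v c d
  have hβ : 0 ≤ β := nonneg_of_mul_nonneg_left (r2.le.trans s2) (mul_pos p1 p2)
  have hα : 0 ≤ α := r1.le.trans s1
  rw [le_div_iff₀ (mul_pos r1 r2), del]
  have : nn v a c * nn v b d ≤ 10000 * (nn v a b * nn v c d) :=
    calc nn v a c * nn v b d ≤ α * (β * (w b * w d)) := by gcongr
      _ ≤ α * (β * ((m * nn v a b) * (m * nn v c d))) := by
          gcongr; exact p1.le.trans q1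
      _ = (m ^ 2 * α * β) * (nn v a b * nn v c d) := by ring
      _ ≤ _ := by gcongr
  linarith

/-- The explicit table. -/
def tab (A B C p q r s t u : ℝ) : Fin 6 → Fin 6 → ℝ :=
  ![![0, A, B, C, 1, 1], ![A, 0, p, q, s, 1], ![B, p, 0, r, t, 1], ![C, q, r, 0, u, 1],
    ![1, s, t, u, 0, 1], ![1, 1, 1, 1, 1, 0]]

theorem nn_pt (x : E) : nn (pt x) = tab ‖x 0‖ ‖x 1‖ ‖x 2‖ ‖x 1 - x 0‖ ‖x 2 - x 0‖ ‖x 2 - x 1‖
    ‖1 - x 0‖ ‖1 - x 1‖ ‖1 - x 2‖ := by
  funext i j
  fin_cases i <;> fin_cases j <;> simp [nn, tab, br, pt, norm_sub_rev]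

/-- The inequalities on the region of normal forms. -/
structure In (A B C p q r s t u : ℝ) : Prop where
  A0 : 0 < A
  AB : A < 2 * B
  BC : B < 2 * C
  C2 : C < 2
  pl : B < 5 * p
  pu : p ≤ A + B
  ql : C < 5 * q
  qu : q ≤ A + C
  rl : C - B ≤ r
  ru : r ≤ B + C
  sl : 1 < 5 * s
  su : s ≤ 1 + A
  tl : 1 < 5 * t
  tu : t ≤ 1 + B
  ul : 1 < 5 * u
  uu : u ≤ 1 + C

variable {A B C p q r s t u : ℝ}

theorem cl01 (h : In A B C p q r s t u) :
    Cl (tab A B C p q r s t u) {0, 1} ![1, 1, B, C, 1, 1] 5 A (6 / B) := by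
  obtain ⟨A0, AB, BC, C2, pl, pu, ql, qu, rl, ru, sl, su, tl, tu, ul, uu⟩ := h
  have hB : 0 < B := by linarith
  have hC : 0 < C := by linarith
  refine ⟨fun c hc => ?_, fun a ha b hb => ?_, fun a ha c hc => ?_, fun c hc d hd => ?_⟩
  · fin_cases c <;> simp [hB, hC]
  · fin_cases a <;> fin_cases b <;> simp [tab] at ha hb ⊢ <;> linarith
  · fin_cases a <;> fin_cases c <;> simp [tab] at ha hc ⊢ <;> linarith
  · rw [div_mul_eq_mul_div, le_div_iff₀ hB]
    fin_cases c <;> fin_cases d <;> simp [tab] at hc hd ⊢ <;> nlinarith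

theorem cl45 (h : In A B C p q r s t u) :
    Cl (tab A B C p q r s t u) {4, 5} (fun _ => 1) 5 1 (6 * C) := by
  obtain ⟨A0, AB, BC, C2, pl, pu, ql, qu, rl, ru, sl, su, tl, tu, ul, uu⟩ := h
  have hB : 0 < B := by linarith
  have hC : 0 < C := by linarith
  refine ⟨fun c hc => one_pos, fun a ha b hb => ?_, fun a ha c hc => ?_, fun c hc d hd => ?_⟩
  · fin_cases a <;> fin_cases b <;> simp [tab] at ha hb ⊢
  · fin_cases a <;> fin_cases c <;> simp [tab] at ha hc ⊢ <;> linarith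
  · fin_cases c <;> fin_cases d <;> simp [tab] at hc hd ⊢ <;> linarith

theorem cl23 (h : In A B C p q r s t u) (hr : 2 * r < C) (r0 : 0 ≤ r) :
    Cl (tab A B C p q r s t u) {2, 3} ![C, C, 1, 1, 1, 1] 10 r (9 / C) := by
  obtain ⟨A0, AB, BC, C2, pl, pu, ql, qu, rl, ru, sl, su, tl, tu, ul, uu⟩ := h
  have hB : 0 < B := by linarith
  have hC : 0 < C := by linarith
  refine ⟨fun c hc => ?_, fun a ha b hb => ?_, fun a ha c hc => ?_, fun c hc d hd => ?_⟩
  · fin_cases c <;> simp [hC]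
  · fin_cases a <;> fin_cases b <;> simp [tab] at ha hb ⊢ <;> linarith
  · fin_cases a <;> fin_cases c <;> simp [tab] at ha hc ⊢ <;> linarith
  · rw [div_mul_eq_mul_div, le_div_iff₀ hC]
    fin_cases c <;> fin_cases d <;> simp [tab] at hc hd ⊢ <;> nlinarith

theorem cl012 (h : In A B C p q r s t u) (hr : 2 * B < C) :
    Cl (tab A B C p q r s t u) {0, 1, 2} ![1, 1, 1, C, 1, 1] 5 (3 * B) (3 / C) := by
  obtain ⟨A0, AB, BC, C2, pl, pu, ql, qu, rl, ru, sl, su, tl, tu, ul, uu⟩ := h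
  have hB : 0 < B := by linarith
  have hC : 0 < C := by linarith
  refine ⟨fun c hc => ?_, fun a ha b hb => ?_, fun a ha c hc => ?_, fun c hc d hd => ?_⟩
  · fin_cases c <;> simp [hC]
  · fin_cases a <;> fin_cases b <;> simp [tab] at ha hb ⊢ <;> linarith
  · fin_cases a <;> fin_cases c <;> simp [tab] at ha hc ⊢ <;> linarith
  · rw [div_mul_eq_mul_div, le_div_iff₀ hC]
    fin_cases c <;> fin_cases d <;> simp [tab] at hc hd ⊢ <;> nlinarith

theorem in_of_FF {x : E} (hx : x ∈ FF) : In ‖x 0‖ ‖x 1‖ ‖x 2‖ ‖x 1 - x 0‖ ‖x 2 - x 0‖ ‖x 2 - x 1‖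
    ‖1 - x 0‖ ‖1 - x 1‖ ‖1 - x 2‖ := by
  obtain ⟨hX, h1, h2, h3, h4, h5, h6⟩ := hx
  have h0 : x 0 ≠ 0 := by simpa [br, pt] using hX 1 0 (by decide)
  have n := fun a b : ℂ => norm_sub_le a b
  refine ⟨norm_pos_iff.2 h0, h1, h2, h3, h4, by linarith [n (x 1) (x 0)], h5,
    by linarith [n (x 2) (x 0)], norm_sub_norm_le _ _, by linarith [n (x 2) (x 1)], h6 0,
    by simpa using n 1 (x 0), h6 1, by simpa using n 1 (x 1), h6 2, by simpa using n 1 (x 2)⟩

/-- The combinatorial alternative. -/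
theorem alt : ∀ S : Finset (Fin 6), S.card = 2 ∨ S.card = 3 → S ≠ {0, 1, 2} → S ≠ {0, 1} →
    S ≠ {2, 3} → S ≠ {4, 5} → S ≠ {3, 4, 5} →
    ¬ (0 ∈ S ↔ 1 ∈ S) ∨ ¬ (4 ∈ S ↔ 5 ∈ S) ∨ S = {0, 1, 3} ∨ S = {2, 4, 5} := by
  decide +kernel

theorem pick : ∀ S : Finset (Fin 6), S.card = 2 ∨ S.card = 3 → ∀ a ∈ S, ∀ c, c ∉ S →
    ∃ b ∈ S, ∃ d, d ∉ S ∧ b ≠ a ∧ d ≠ c := by
  intro S hS a _ c _
  have h1 : 1 < S.card := by omega
  have h2 : 1 < Sᶜ.card := by rw [Finset.card_compl, Fintype.card_fin]; omega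
  obtain ⟨b, hb, hba⟩ := Finset.exists_mem_ne h1 a
  obtain ⟨d, hd, hdc⟩ := Finset.exists_mem_ne h2 c
  exact ⟨b, hb, d, Finset.mem_compl.1 hd, hba, hdc⟩

theorem split {v : V6} (hv : ∀ i j, i ≠ j → 0 < nn v i j) {w : Fin 6 → ℝ} {m α β : ℝ}
    {T : Finset (Fin 6)} (h : Cl (nn v) T w m α β) (hK : m ^ 2 * α * β ≤ 10000)
    {S : Finset (Fin 6)} (hS : S.card = 2 ∨ S.card = 3) {a c : Fin 6} (hT : T = {a, c})
    (ha : a ∈ S) (hc : c ∉ S) : del ≤ cc S v := by
  obtain ⟨b, hb, d, hd, hba, hdc⟩ := pick S hS a ha c hc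
  have e1 : b ≠ c := fun e => hc (e ▸ hb)
  have e2 : d ≠ a := fun e => hd (e ▸ ha)
  refine (h.lower hK (a := a) (b := b) (c := c) (d := d) (by simp [hT]) (by simp [hT])
    (by simp [hT, hba, e1]) (by simp [hT, hdc, e2]) (hv _ _ fun e => hc (e ▸ ha))
    (hv _ _ fun e => hd (e ▸ hb))).trans (term_le S v ha hb hc hd)

theorem split' {v : V6} (hv : ∀ i j, i ≠ j → 0 < nn v i j) {w : Fin 6 → ℝ} {m α β : ℝ}
    {a c : Fin 6} (h : Cl (nn v) {a, c} w m α β) (hK : m ^ 2 * α * β ≤ 10000)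
    {S : Finset (Fin 6)} (hS : S.card = 2 ∨ S.card = 3) (hac : ¬ (a ∈ S ↔ c ∈ S)) :
    del ≤ cc S v := by
  by_cases ha : a ∈ S
  · exact split hv h hK hS rfl ha fun hc => hac ⟨fun _ => hc, fun _ => ha⟩
  · have hc : c ∈ S := by
      by_contra hc
      exact hac ⟨fun h => absurd h ha, fun h => absurd h hc⟩
    exact split hv h hK hS (Finset.pair_comm a c) hc ha

end

end TabAP

open TabAP in
theorem pTabA : S_TabA := by
  intro x hx
  have hI := in_of_FF hx
  have hv : ∀ i j, i ≠ j → 0 < nn (pt x) i j := fun i j h => norm_pos_iff.2 (hx.1 i j h)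
  have c01 := cl01 hI
  have c45 := cl45 hI
  have c23 := cl23 hI
  have c012 := cl012 hI
  rw [← nn_pt] at c01 c45 c23 c012
  have hA := hI.A0
  have hAB := hI.AB
  have hBC := hI.BC
  have hC2 := hI.C2
  have hB : 0 < ‖x 1‖ := by linarith
  have hC : 0 < ‖x 2‖ := by linarith
  refine ⟨fun S hS h1 h2 => ?_, fun i hi => ?_⟩
  · have t : del ≤ ‖x 2‖ / ‖x 1‖ := by
      rw [le_div_iff₀ hB, del]; linarith
    rcases alt S hS (h1 none) (h1 (some 0)) (h1 (some 1)) (h1 (some 2)) h2 with h | h | h | h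
    · refine split' hv c01 ?_ hS h
      rw [mul_div_assoc', div_le_iff₀ hB]; linarith
    · exact split' hv c45 (by linarith) hS h
    · refine le_trans ?_ (term_le S (pt x) (a := 0) (b := 3) (c := 2) (d := 5) (by simp [h])
        (by simp [h]) (by simp [h]) (by simp [h]))
      simpa [nn_pt, tab] using t
    · refine le_trans ?_ (term_le S (pt x) (a := 2) (b := 5) (c := 0) (d := 3) (by simp [h])
        (by simp [h]) (by simp [h]) (by simp [h]))
      simpa [nn_pt, tab] using t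
  · have e : ∀ y : ℝ, 10 ^ 5 * y = 100 * (1000 * y) := fun y => by ring
    rw [e]
    rcases i with _ | i
    · have hw : wt none x = ‖x 1‖ / ‖x 2‖ := by simp [wt]
      rw [hw, div_lt_iff₀ hC] at hi
      rw [hw]
      refine (c012 (by linarith)).upper (by norm_num) ?_ (by decide) (by positivity)
      rw [mul_div_assoc', mul_div_assoc']
      exact div_le_div_of_nonneg_right (by linarith) hC.le
    · fin_cases i
      · have hw : wt (some 0) x = ‖x 0‖ / ‖x 1‖ := by simp [wt]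
        change cc {0, 1} (pt x) ≤ 100 * (1000 * wt (some 0) x)
        rw [hw]
        refine c01.upper (by norm_num) ?_ (by decide) (by positivity)
        rw [mul_div_assoc', mul_div_assoc']
        exact div_le_div_of_nonneg_right (by linarith) hB.le
      · have hw : wt (some 1) x = ‖x 2 - x 1‖ / ‖x 2‖ := by
          have h2 : x 2 ≠ 0 := norm_pos_iff.1 hC
          have : 1 - x 1 / x 2 = (x 2 - x 1) / x 2 := by field_simp
          simp [wt, this]
        change wt (some 1) x < 1 / 2 at hi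
        change cc {2, 3} (pt x) ≤ 100 * (1000 * wt (some 1) x)
        rw [hw, div_lt_iff₀ hC] at hi
        rw [hw]
        refine (c23 (by linarith) (norm_nonneg _)).upper (by norm_num) ?_ (by decide)
          (by positivity)
        rw [mul_div_assoc', mul_div_assoc']
        exact div_le_div_of_nonneg_right (by linarith [norm_nonneg (x 2 - x 1)]) hC.le
      · have hw : wt (some 2) x = ‖x 2‖ := by simp [wt]
        change cc {4, 5} (pt x) ≤ 100 * (1000 * wt (some 2) x)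
        rw [hw]
        exact c45.upper (by norm_num) (by linarith) (by decide) (by positivity)

end Pool.Agent.P.MP_5d7cf0_gt
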