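import Pool.Agent.P.MP_5d7cf0_gt.St

/-!
Package TabB: the size of the squared periods on the fundamental set.
-/

open Set

namespace Pool.Agent.P.MP_5d7cf0_gt

namespace TabBP

theorem cube {w y K : ℝ} (hy : 0 ≤ y) (hK : 1 ≤ K) (h : w ^ 3 ≤ K * y ^ 3) : w ≤ K * y := by
  refine le_of_pow_le_pow_left₀ (n := 3) (by norm_num) (by positivity) (h.trans ?_)
  rw [mul_pow]
  exact mul_le_mul_of_nonneg_right (le_self_pow₀ hK (by norm_num)) (by positivity)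

theorem rp {t : ℝ} (ht : 0 ≤ t) : (t ^ (2 / 3 : ℝ)) ^ 3 = t ^ 2 := by
  rw [← Real.rpow_natCast, ← Real.rpow_mul ht, ← Real.rpow_natCast]
  norm_num

theorem fin {t R c K : ℝ} (ht : 0 ≤ t) (hR : 0 ≤ R) (hc : 0 ≤ c) (hK : 1 ≤ K)
    (h1 : t ^ 2 ≤ K * (R ^ 3 * c ^ 2)) (h2 : R ^ 3 * c ^ 2 ≤ K * t ^ 2) :
    t ^ (2 / 3 : ℝ) ≤ K * (R * c ^ (2 / 3 : ℝ)) ∧
      R * c ^ (2 / 3 : ℝ) ≤ K * t ^ (2 / 3 : ℝ) := by
  refine ⟨cube (by positivity) hK ?_, cube (by positivity) hK ?_⟩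
  · rwa [mul_pow, rp ht, rp hc]
  · rwa [mul_pow, rp ht, rp hc]

theorem term_le (S : Finset (Fin 6)) (v : V6) {a b c d : Fin 6} (ha : a ∈ S) (hb : b ∈ S)
    (hc : c ∉ S) (hd : d ∉ S) :
    ‖br (v a) (v b) * br (v c) (v d) / (br (v a) (v c) * br (v b) (v d))‖ ≤ cc S v := by
  unfold cc
  refine le_trans ?_ (Finset.single_le_sum (f := fun a => ∑ b ∈ S, ∑ c ∈ Sᶜ, ∑ d ∈ Sᶜ,
    ‖br (v a) (v b) * br (v c) (v d) / (br (v a) (v c) * br (v b) (v d))‖)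
    (fun _ _ => by positivity) ha)
  refine le_trans ?_ (Finset.single_le_sum (f := fun b => ∑ c ∈ Sᶜ, ∑ d ∈ Sᶜ,
    ‖br (v a) (v b) * br (v c) (v d) / (br (v a) (v c) * br (v b) (v d))‖)
    (fun _ _ => by positivity) hb)
  refine le_trans ?_ (Finset.single_le_sum (f := fun c => ∑ d ∈ Sᶜ,
    ‖br (v a) (v b) * br (v c) (v d) / (br (v a) (v c) * br (v b) (v d))‖)
    (fun _ _ => by positivity) (Finset.mem_compl.2 hc))
  exact Finset.single_le_sum (f := fun d =>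
    ‖br (v a) (v b) * br (v c) (v d) / (br (v a) (v c) * br (v b) (v d))‖)
    (fun _ _ => by positivity) (Finset.mem_compl.2 hd)

theorem pos {x : E} (hx : x ∈ X) : 0 < ‖x 1‖ ∧ 0 < ‖x 2‖ := by
  have h1 := hx 2 0 (by decide)
  have h2 := hx 3 0 (by decide)
  simp [pt, br] at h1 h2
  exact ⟨norm_pos_iff.2 h1, norm_pos_iff.2 h2⟩

/-- the pair `{2,3}`: the size of the product of brackets -/
theorem size {x : E} (hx : x ∈ FF) (h : cc {2, 3} (pt x) < del) :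
    ‖x 2‖ ^ 2 ≤ 100 * (‖x 1‖ * (‖x 1 - x 0‖ * ‖x 1 - 1‖)) ∧
      ‖x 1‖ * (‖x 1 - x 0‖ * ‖x 1 - 1‖) ≤ 100 * ‖x 2‖ ^ 2 := by
  obtain ⟨hX, h01, h12, h2, h10, -, h1⟩ := hx
  obtain ⟨pb, pc⟩ := pos hX
  have ht := (term_le {2, 3} (pt x) (a := 2) (b := 3) (c := 0) (d := 5) (by decide) (by decide)
    (by decide) (by decide)).trans_lt h
  have e : ‖br (pt x 2) (pt x 3) * br (pt x 0) (pt x 5) /
      (br (pt x 2) (pt x 0) * br (pt x 3) (pt x 5))‖ = ‖x 1 - x 2‖ / ‖x 1‖ := by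
    simp [pt, br, norm_sub_rev (x 2)]
  rw [e, div_lt_iff₀ pb, del] at ht
  have t1 : ‖x 2‖ ≤ ‖x 1‖ + ‖x 1 - x 2‖ := by
    simpa using norm_sub_le (x 1) (x 1 - x 2)
  have t2 : ‖x 1 - x 0‖ ≤ ‖x 1‖ + ‖x 0‖ := norm_sub_le _ _
  have t3 : ‖x 1 - 1‖ ≤ ‖x 1‖ + 1 := by simpa using norm_sub_le (x 1) 1
  have t4 : 1 < 5 * ‖x 1 - 1‖ := by rw [norm_sub_rev]; exact h1 1
  constructor
  · have s1 : ‖x 1‖ / 5 * (1 / 5) ≤ ‖x 1 - x 0‖ * ‖x 1 - 1‖ :=
      mul_le_mul (by linarith) (by linarith) (by norm_num) (norm_nonneg _)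
    have s2 : ‖x 2‖ ^ 2 ≤ (2 * ‖x 1‖) ^ 2 := pow_le_pow_left₀ pc.le (by linarith) 2
    nlinarith [mul_le_mul_of_nonneg_left s1 pb.le]
  · have s1 : ‖x 1 - x 0‖ * ‖x 1 - 1‖ ≤ 6 * ‖x 2‖ * 5 :=
      mul_le_mul (by linarith) (by linarith) (norm_nonneg _) (by positivity)
    have s2 := mul_le_mul h12.le s1 (by positivity) (by positivity)
    nlinarith

end TabBP

open TabBP in
theorem pTabB (hRP : S_RP) (hRT : S_RT) (hXi : S_Xi) : S_TabB := by
  obtain ⟨-, C, hC, hP⟩ := hRP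
  refine ⟨10 ^ 6 * (C + 1), by positivity, fun x hx i h => ?_⟩
  have hK : (1 : ℝ) ≤ 10 ^ 6 * (C + 1) := by nlinarith
  have hG : Gen (pt x) := hx.1
  obtain ⟨pb, pc⟩ := pos hx.1
  have key : ∀ {u w : ℝ}, 0 ≤ w → u ≤ 10 ^ 4 * C * w → u ≤ 10 ^ 6 * (C + 1) * w := fun hw hu =>
    hu.trans (mul_le_mul_of_nonneg_right (by nlinarith) hw)
  rcases i with _ | i
  · have e := (hXi _ hG (sp none)).2.2.2.2.2 0 (by decide) 5 (by decide) (by decide) h
    obtain ⟨r0, r1, r2⟩ := (hRT _ hG (sp none) (by decide) h 0 (by decide) 5 (by decide)).2.2.2 _ rfl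
    have c1 : (sp none)ᶜ = {3, 4, 5} := by decide
    have e1 : (∏ k ∈ sp none, ‖br (pt x 5) (pt x k)‖) * ∏ l ∈ (sp none)ᶜ, ‖br (pt x 0) (pt x l)‖ =
        ‖x 2‖ := by
      rw [c1]; simp [sp, pt, br]
    have e2 : ‖br (pt x 0) (pt x 5)‖ = 1 := by simp [pt, br]
    rw [e1, e2] at r1 r2
    have := fin (t := 1) zero_le_one r0.le pc.le hK (by nlinarith) (by nlinarith)
    rw [e]
    simpa [ex] using this
  fin_cases i
  · have h' : cc {0, 1} (pt x) < del := h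
    have e := (hXi _ hG {0, 1}).2.2.2.2.1 0 1 (by decide) rfl h'
    obtain ⟨r0, r1, r2⟩ := hP _ hG 0 1 5 (by decide) (by decide) (by decide) h' _ rfl
    have c1 : ({0, 1} : Finset (Fin 6))ᶜ = {2, 3, 4, 5} := by decide
    have e1 : ∏ n ∈ ({0, 1} : Finset (Fin 6))ᶜ, ‖br (pt x 0) (pt x n)‖ = ‖x 1‖ * ‖x 2‖ := by
      rw [c1]; simp [pt, br]
    have e2 : ‖br (pt x 0) (pt x 1)‖ = ‖x 0‖ := by simp [pt, br]
    have e3 : ‖bet (pt x) 0 1 5‖ = 1 := by simp [bet, pt, br]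
    rw [e1, e2, e3] at r1 r2
    have := fin (t := ‖x 0‖ / ‖x 1‖) (by positivity) r0.le pc.le hK
      (key (by positivity) (by
        rw [div_pow, div_le_iff₀ (by positivity)]
        have : 0 ≤ C * (rP (pt x) 0 1 ^ 3 * (‖x 1‖ * ‖x 2‖) ^ 2) := by positivity
        nlinarith))
      (key (by positivity) (by
        rw [div_pow, ← mul_div_assoc, le_div_iff₀ (by positivity)]
        have : 0 ≤ C * ‖x 0‖ ^ 2 := by positivity
        nlinarith))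
    rw [← e, ← norm_div] at this
    exact this
  · have h' : cc {2, 3} (pt x) < del := h
    have e := (hXi _ hG {2, 3}).2.2.2.2.1 2 3 (by decide) rfl h'
    obtain ⟨r0, r1, r2⟩ := hP _ hG 2 3 5 (by decide) (by decide) (by decide) h' _ rfl
    have c1 : ({2, 3} : Finset (Fin 6))ᶜ = {0, 1, 4, 5} := by decide
    have e1 : ∏ n ∈ ({2, 3} : Finset (Fin 6))ᶜ, ‖br (pt x 2) (pt x n)‖ =
        ‖x 1‖ * (‖x 1 - x 0‖ * ‖x 1 - 1‖) := by
      rw [c1]; simp [pt, br]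
    have e2 : ‖br (pt x 2) (pt x 3)‖ = ‖x 2 - x 1‖ := by simp [pt, br, norm_sub_rev]
    have e3 : ‖bet (pt x) 2 3 5‖ = 1 := by simp [bet, pt, br]
    rw [e1, e2, e3] at r1 r2
    obtain ⟨s1, s2⟩ := size hx h'
    set P := ‖x 1‖ * (‖x 1 - x 0‖ * ‖x 1 - 1‖)
    have p0 : 0 ≤ P := by positivity
    have q1 := mul_le_mul_of_nonneg_left (pow_le_pow_left₀ (by positivity) s1 2)
      (pow_pos r0 3).le
    have q2 := mul_le_mul_of_nonneg_left (pow_le_pow_left₀ p0 s2 2)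
      (mul_pos hC (pow_pos r0 3)).le
    have := fin (t := ‖x 2 - x 1‖ / ‖x 2‖) (by positivity) r0.le pc.le hK
      (key (by positivity) (by
        rw [div_pow, div_le_iff₀ (by positivity)]
        nlinarith))
      (key (by positivity) (by
        rw [div_pow, ← mul_div_assoc, le_div_iff₀ (by positivity)]
        nlinarith))
    have e4 : (x 2 - x 1) / x 2 = 1 - x 1 / x 2 := by
      rw [sub_div, div_self (norm_pos_iff.1 pc)]
    rw [← e, ← norm_div, e4] at this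
    exact this
  · have c0 : ({4, 5} : Finset (Fin 6)) = {5, 4} := by decide
    have h' : cc {4, 5} (pt x) < del := h
    have e := (hXi _ hG {4, 5}).2.2.2.2.1 5 4 (by decide) c0 h'
    obtain ⟨r0, r1, r2⟩ := hP _ hG 5 4 0 (by decide) (by decide) (by decide) (c0 ▸ h') _ rfl
    have c1 : ({5, 4} : Finset (Fin 6))ᶜ = {0, 1, 2, 3} := by decide
    have e1 : ∏ n ∈ ({5, 4} : Finset (Fin 6))ᶜ, ‖br (pt x 5) (pt x n)‖ = 1 := by
      rw [c1]; simp [pt, br]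
    have e2 : ‖br (pt x 5) (pt x 4)‖ = 1 := by simp [pt, br]
    have e3 : ‖bet (pt x) 5 4 0‖ = 1 := by simp [bet, pt, br]
    rw [e1, e2, e3] at r1 r2
    have p2 : 0 < ‖x 2‖ ^ 2 := by positivity
    have p3 := mul_pos hC (mul_pos (pow_pos r0 3) p2)
    have p4 := mul_pos hC p2
    have := fin (t := ‖x 2‖) pc.le r0.le pc.le hK
      (key (by positivity) (by nlinarith [mul_le_mul_of_nonneg_right r1 p2.le]))
      (key (by positivity) (by nlinarith [mul_le_mul_of_nonneg_right r2 p2.le]))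
    rw [← e] at this
    exact this

end Pool.Agent.P.MP_5d7cf0_gt
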