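import Pool.Agent.P.MP_5d7cf0_gt.St

/-! Integrability and a uniform bound for the volume integrand. -/

open Set Filter Topology MeasureTheory Metric

noncomputable section

namespace Pool.Agent.P.MP_5d7cf0_gt

namespace VBP

def Fr (x : ℝ) : ℝ := x ^ (-(2 / 3) : ℝ)

def Hr (x : ℝ) : ℝ := x ^ (-(4 / 3) : ℝ)

def G1 (z : ℂ) : ℝ := (1 + ‖z‖) ^ (-(8 / 3) : ℝ)

def G2 (z : ℂ) : ℝ := (ball (0 : ℂ) 1).indicator (fun w => Hr ‖w‖) z

theorem Fr_nonneg {x : ℝ} (h : 0 ≤ x) : 0 ≤ Fr x := Real.rpow_nonneg h _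

theorem Hr_nonneg {x : ℝ} (h : 0 ≤ x) : 0 ≤ Hr x := Real.rpow_nonneg h _

theorem Fr_sq {x : ℝ} (h : 0 ≤ x) : Fr x ^ 2 = Hr x := by
  unfold Fr Hr
  rw [← Real.rpow_natCast, ← Real.rpow_mul h]
  norm_num

theorem Fr_mul {x y : ℝ} (hx : 0 ≤ x) (hy : 0 ≤ y) : Fr (x * y) = Fr x * Fr y :=
  Real.mul_rpow hx hy

theorem Hr_mul {x y : ℝ} (hx : 0 ≤ x) (hy : 0 ≤ y) : Hr (x * y) = Hr x * Hr y :=
  Real.mul_rpow hx hy

theorem Fr_anti {x y : ℝ} (hx : 0 < x) (h : x ≤ y) : Fr y ≤ Fr x :=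
  Real.rpow_le_rpow_of_nonpos hx h (by norm_num)

theorem Hr_anti {x y : ℝ} (hx : 0 < x) (h : x ≤ y) : Hr y ≤ Hr x :=
  Real.rpow_le_rpow_of_nonpos hx h (by norm_num)

theorem Hr_sq (z : ℂ) : Hr ((1 + ‖z‖) ^ 2) = G1 z := by
  unfold Hr G1
  rw [← Real.rpow_natCast, ← Real.rpow_mul (by positivity)]
  norm_num

theorem G1_nonneg (z : ℂ) : 0 ≤ G1 z := Real.rpow_nonneg (by positivity) _

theorem G2_nonneg (z : ℂ) : 0 ≤ G2 z :=
  indicator_nonneg (fun w _ => Hr_nonneg (norm_nonneg w)) z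

theorem G1_int : Integrable G1 :=
  integrable_one_add_norm (E := ℂ) (μ := volume) (r := 8 / 3)
    (by rw [Complex.finrank_real_complex]; norm_num)

theorem G2_int : Integrable G2 := by
  refine (integrable_indicator_iff measurableSet_ball).2 ?_
  refine integrableOn_ball_of_norm_le_rpow (E := ℂ) (μ := volume) (C := 1) (α := 4 / 3)
    (by rw [Complex.finrank_real_complex]; norm_num)
    (by rw [Complex.finrank_real_complex]; norm_num) (Eventually.of_forall fun w => ?_) ?_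
  · rw [Real.norm_of_nonneg (Hr_nonneg (norm_nonneg w)), one_mul]
    exact le_rfl
  · unfold Hr
    exact (measurable_norm.pow_const _).aestronglyMeasurable

theorem one (u : ℂ × ℂ) {m : ℝ} (hm0 : 0 < m) (hm : m ≤ ‖u.1‖ + ‖u.2‖) (z : ℂ) :
    Hr (‖br (z, 1) u‖ * (1 + ‖z‖) ^ 2) ≤
      Hr (m / 8) * (G1 z + G1 (z - u.1 / u.2) + G2 (z - u.1 / u.2)) := by
  have g1 := G1_nonneg z
  have g2 := G1_nonneg (z - u.1 / u.2)
  have g3 := G2_nonneg (z - u.1 / u.2)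
  have hH : 0 ≤ Hr (m / 8) := Hr_nonneg (by positivity)
  have hZ := norm_nonneg z
  by_cases ha : ‖br (z, 1) u‖ = 0
  · rw [ha, zero_mul, Hr, Real.zero_rpow (by norm_num)]
    positivity
  have c1 : m / 2 ≤ ‖br (z, 1) u‖ → Hr (‖br (z, 1) u‖ * (1 + ‖z‖) ^ 2) ≤
      Hr (m / 8) * (G1 z + G1 (z - u.1 / u.2) + G2 (z - u.1 / u.2)) := fun h => by
    have h1 : m / 8 * (1 + ‖z‖) ^ 2 ≤ ‖br (z, 1) u‖ * (1 + ‖z‖) ^ 2 := by
      gcongr; linarith
    refine (Hr_anti (by positivity) h1).trans ?_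
    rw [Hr_mul (by positivity) (by positivity), Hr_sq]
    gcongr; linarith
  by_cases h2 : u.2 = 0
  · refine c1 ?_
    simp only [br, h2, mul_zero, one_mul, zero_sub, norm_neg, norm_zero, add_zero] at hm ⊢
    linarith
  have e1 : ‖br (z, 1) u‖ = ‖u.2‖ * ‖z - u.1 / u.2‖ := by
    rw [← norm_mul]; congr 1; unfold br; field_simp
  have e2 : ‖u.2‖ * ‖u.1 / u.2‖ = ‖u.1‖ := by
    rw [← norm_mul]; congr 1; field_simp
  have e3 : ‖u.1 / u.2‖ ≤ ‖z‖ + ‖z - u.1 / u.2‖ := by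
    have := norm_sub_le z (z - u.1 / u.2)
    rwa [sub_sub_cancel] at this
  have hq : 0 < ‖u.2‖ := norm_pos_iff.2 h2
  have hw : 0 < ‖z - u.1 / u.2‖ := by
    refine lt_of_le_of_ne (norm_nonneg _) fun h => ha ?_
    rw [e1, ← h, mul_zero]
  have e4 : m ≤ ‖u.2‖ * (1 + ‖u.1 / u.2‖) := by rw [mul_add, e2]; linarith
  by_cases h3 : 1 + ‖u.1 / u.2‖ ≤ 2 * ‖z - u.1 / u.2‖
  · refine c1 ?_
    rw [e1]
    have := mul_le_mul_of_nonneg_left h3 hq.le
    linarith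
  have hG2 : ‖z - u.1 / u.2‖ < 1 → G2 (z - u.1 / u.2) = Hr ‖z - u.1 / u.2‖ := fun h =>
    indicator_of_mem (by simpa using h) _
  have hG1 := Hr_sq (z - u.1 / u.2)
  rw [e1]
  generalize ‖z - u.1 / u.2‖ = w at *
  generalize ‖u.1 / u.2‖ = P at *
  generalize ‖u.2‖ = q at *
  generalize ‖z‖ = Z at *
  have h4 : w < 1 + Z := by linarith
  have h5 : m ≤ q * (2 * (1 + Z)) := e4.trans (by gcongr; linarith)
  have h6 : m / 4 * (w * (1 + w)) ≤ q * w * (1 + Z) ^ 2 := by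
    have a1 : m / 2 ≤ q * (1 + Z) := by linarith
    have a2 : (1 + w) / 2 ≤ 1 + Z := by linarith
    calc m / 4 * (w * (1 + w)) = m / 2 * (w * ((1 + w) / 2)) := by ring
      _ ≤ q * (1 + Z) * (w * (1 + Z)) := by gcongr
      _ = _ := by ring
  by_cases h7 : w < 1
  · have h8 : m / 8 * w ≤ q * w * (1 + Z) ^ 2 := by
      refine le_trans ?_ h6
      have : 0 ≤ m * w * w := by positivity
      have : 0 ≤ m * w := by positivity
      nlinarith
    refine (Hr_anti (by positivity) h8).trans ?_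
    rw [Hr_mul (by positivity) hw.le, ← hG2 h7]
    gcongr; linarith
  · have h8 : m / 8 * (1 + w) ^ 2 ≤ q * w * (1 + Z) ^ 2 := by
      refine le_trans ?_ h6
      have : 0 ≤ m * ((w - 1) * (1 + w)) := by
        have : 0 ≤ w - 1 := by linarith
        positivity
      nlinarith
    refine (Hr_anti (by positivity) h8).trans ?_
    rw [Hr_mul (by positivity) (by positivity), hG1]
    gcongr; linarith

theorem prod_le (a : Fin 6 → ℝ) (ha : ∀ i, 0 ≤ a i) {τ : ℝ} (hτ : 0 < τ)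
    (h : ∀ i j k, i ≠ j → j ≠ k → i ≠ k → τ ≤ a i ∨ τ ≤ a j ∨ τ ≤ a k) :
    ∏ i, Fr (a i) ≤ ∑ k, Hr (a k * τ ^ 2) := by
  classical
  have hS : (Finset.univ.filter fun i => a i < τ).card ≤ 2 := by
    by_contra hc
    obtain ⟨i, hi, j, hj, k, hk, h1, h2, h3⟩ := Finset.two_lt_card.1 (not_le.1 hc)
    simp only [Finset.mem_filter, Finset.mem_univ, true_and] at hi hj hk
    rcases h i j k h1 h3 h2 with h4 | h4 | h4 <;> linarith
  obtain ⟨T, hT, hc⟩ := Finset.exists_superset_card_eq hS (by simp)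
  obtain ⟨i, j, hij, rfl⟩ := Finset.card_eq_two.1 hc
  rw [← Finset.prod_mul_prod_compl {i, j}, Finset.prod_pair hij]
  have h1 : ∏ k ∈ ({i, j} : Finset (Fin 6))ᶜ, Fr (a k) ≤ Fr τ ^ 4 := by
    have : Fr τ ^ 4 = ∏ _k ∈ ({i, j} : Finset (Fin 6))ᶜ, Fr τ := by
      rw [Finset.prod_const, Finset.card_compl, hc]; simp
    rw [this]
    refine Finset.prod_le_prod (fun k _ => Fr_nonneg (ha k)) fun k hk => Fr_anti hτ ?_
    by_contra hlt
    exact Finset.mem_compl.1 hk (hT (by simpa using hlt))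
  have h2 : ∀ k, Fr (a k * τ ^ 2) = Fr (a k) * Fr τ ^ 2 := fun k => by
    rw [Fr_mul (ha k) (by positivity), sq τ, Fr_mul hτ.le hτ.le, sq]
  have h3 : ∑ k ∈ ({i, j} : Finset (Fin 6)), Hr (a k * τ ^ 2) ≤ ∑ k, Hr (a k * τ ^ 2) :=
    Finset.sum_le_sum_of_subset_of_nonneg (Finset.subset_univ _) fun k _ _ =>
      Hr_nonneg (mul_nonneg (ha k) (by positivity))
  rw [Finset.sum_pair hij, ← Fr_sq (mul_nonneg (ha i) (by positivity)),
    ← Fr_sq (mul_nonneg (ha j) (by positivity))] at h3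
  have h4 := Fr_nonneg (ha i)
  have h5 := Fr_nonneg (ha j)
  have h6 : Fr (a i) * Fr (a j) * ∏ k ∈ ({i, j} : Finset (Fin 6))ᶜ, Fr (a k) ≤
      Fr (a i * τ ^ 2) * Fr (a j * τ ^ 2) := by
    rw [h2, h2]
    calc _ ≤ Fr (a i) * Fr (a j) * Fr τ ^ 4 := by gcongr
      _ = _ := by ring
  nlinarith [sq_nonneg (Fr (a i * τ ^ 2) - Fr (a j * τ ^ 2)), sq_nonneg (Fr (a i * τ ^ 2)),
    sq_nonneg (Fr (a j * τ ^ 2))]

theorem tri (u w : ℂ × ℂ) (z : ℂ) {M : ℝ} (h1 : ‖u.1‖ ≤ M) (h2 : ‖u.2‖ ≤ M) (h3 : ‖w.1‖ ≤ M)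
    (h4 : ‖w.2‖ ≤ M) :
    ‖br u w‖ * (1 + ‖z‖) ≤ 2 * M * (‖br (z, 1) u‖ + ‖br (z, 1) w‖) := by
  have e1 : br u w * z = br (z, 1) w * u.1 - br (z, 1) u * w.1 := by unfold br; ring
  have e2 : br u w = br (z, 1) w * u.2 - br (z, 1) u * w.2 := by unfold br; ring
  have a1 : ‖br u w‖ * ‖z‖ ≤ ‖br (z, 1) w‖ * M + ‖br (z, 1) u‖ * M := by
    rw [← norm_mul, e1]
    refine (norm_sub_le _ _).trans ?_
    rw [norm_mul, norm_mul]
    gcongr
  have a2 : ‖br u w‖ ≤ ‖br (z, 1) w‖ * M + ‖br (z, 1) u‖ * M := by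
    rw [e2]
    refine (norm_sub_le _ _).trans ?_
    rw [norm_mul, norm_mul]
    gcongr
  linarith

theorem Vi_nonneg (v : V6) (z : ℂ) : 0 ≤ Vi v z :=
  Finset.prod_nonneg fun _ _ => Real.rpow_nonneg (norm_nonneg _) _

theorem Vi_meas (v : V6) : Measurable (Vi v) := by
  unfold Vi
  refine Finset.measurable_prod _ fun i _ => Measurable.pow_const ?_ _
  unfold br
  fun_prop

theorem main {m M η : ℝ} (hm : 0 < m) (hM : 0 < M) (hη : 0 < η) : ∃ B : ℝ, ∀ v : V6,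
    (∀ i, m ≤ ‖(v i).1‖ + ‖(v i).2‖) → (∀ i, ‖(v i).1‖ ≤ M ∧ ‖(v i).2‖ ≤ M) →
    (∀ i j k, i ≠ j → j ≠ k → i ≠ k →
      η ≤ ‖br (v i) (v j)‖ ∨ η ≤ ‖br (v j) (v k)‖ ∨ η ≤ ‖br (v i) (v k)‖) →
    Integrable (Vi v) ∧ Vh v ≤ B := by
  set ε := η / (4 * M) with hε
  have hε0 : 0 < ε := by positivity
  set K := Hr (ε ^ 2) * Hr (m / 8) with hK
  refine ⟨2 * √3 * (6 * (K * ((∫ z, G1 z) + (∫ z, G1 z) + ∫ z, G2 z))), fun v h1 h2 h3 => ?_⟩
  set g : Fin 6 → ℂ → ℝ := fun k z =>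
    K * (G1 z + G1 (z - (v k).1 / (v k).2) + G2 (z - (v k).1 / (v k).2)) with hg
  have hgi : ∀ k, Integrable (g k) := fun k =>
    ((G1_int.add (G1_int.comp_sub_right _)).add (G2_int.comp_sub_right _)).const_mul K
  have hge : ∀ k, ∫ z, g k z = K * ((∫ z, G1 z) + (∫ z, G1 z) + ∫ z, G2 z) := fun k => by
    rw [hg]
    simp only
    rw [integral_const_mul, integral_add (f := fun z => G1 z + G1 (z - (v k).1 / (v k).2))
      (G1_int.add (G1_int.comp_sub_right _)) (G2_int.comp_sub_right _), integral_add G1_int (G1_int.comp_sub_right _),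
      integral_sub_right_eq_self G1, integral_sub_right_eq_self G2]
  have hb : ∀ z, Vi v z ≤ ∑ k, g k z := fun z => by
    have hτ : 0 < ε * (1 + ‖z‖) := by positivity
    have hp : ∀ i j, η ≤ ‖br (v i) (v j)‖ →
        ε * (1 + ‖z‖) ≤ ‖br (z, 1) (v i)‖ ∨ ε * (1 + ‖z‖) ≤ ‖br (z, 1) (v j)‖ := by
      intro i j hij
      have a1 := tri (v i) (v j) z (h2 i).1 (h2 i).2 (h2 j).1 (h2 j).2
      have a2 : η * (1 + ‖z‖) ≤ ‖br (v i) (v j)‖ * (1 + ‖z‖) := by gcongr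
      have a3 : η * (1 + ‖z‖) = 2 * M * (2 * (ε * (1 + ‖z‖))) := by rw [hε]; field_simp; ring
      have a4 : 2 * (ε * (1 + ‖z‖)) ≤ ‖br (z, 1) (v i)‖ + ‖br (z, 1) (v j)‖ :=
        le_of_mul_le_mul_left (a3 ▸ a2.trans a1) (by positivity)
      by_contra hc
      rw [not_or, not_le, not_le] at hc
      linarith [hc.1, hc.2]
    refine (prod_le (fun i => ‖br (z, 1) (v i)‖) (fun _ => norm_nonneg _) hτ
      fun i j k a b c => ?_).trans (Finset.sum_le_sum fun k _ => ?_)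
    · rcases h3 i j k a b c with h | h | h <;> rcases hp _ _ h with h | h <;> simp [h]
    · have e : ‖br (z, 1) (v k)‖ * (ε * (1 + ‖z‖)) ^ 2 =
          ε ^ 2 * (‖br (z, 1) (v k)‖ * (1 + ‖z‖) ^ 2) := by ring
      rw [e, Hr_mul (by positivity) (by positivity), hg, hK]
      simp only
      rw [mul_assoc]
      exact mul_le_mul_of_nonneg_left (one (v k) hm (h1 k) z) (Hr_nonneg (by positivity))
  have hsi : Integrable fun z => ∑ k, g k z := integrable_finsetSum _ fun k _ => hgi k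
  have hi : Integrable (Vi v) := hsi.mono' (Vi_meas v).aestronglyMeasurable
    (Eventually.of_forall fun z => by rw [Real.norm_of_nonneg (Vi_nonneg v z)]; exact hb z)
  refine ⟨hi, mul_le_mul_of_nonneg_left ((integral_mono hi hsi hb).trans (le_of_eq ?_))
    (by positivity)⟩
  rw [integral_finsetSum _ fun k _ => hgi k]
  simp [hge]

end VBP

theorem pVB : S_VB := by
  intro η hη
  obtain ⟨B, hB⟩ := VBP.main one_pos (one_div_pos.2 hη) hη
  refine ⟨B, fun v h1 h2 h3 => hB v (fun i => ?_) (fun i => ?_) h3⟩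
  · have := h1 i
    have a := norm_nonneg (v i).1
    have b := norm_nonneg (v i).2
    by_contra hc
    nlinarith [mul_nonneg a b]
  · have := h2 i
    rw [← one_div_pow] at this
    have h4 : 0 ≤ 1 / η := by positivity
    exact ⟨pow_le_pow_iff_left₀ (norm_nonneg _) h4 two_ne_zero |>.1
        (by linarith [sq_nonneg ‖(v i).2‖]),
      pow_le_pow_iff_left₀ (norm_nonneg _) h4 two_ne_zero |>.1 (by linarith [sq_nonneg ‖(v i).1‖])⟩

theorem pVint : S_Vint := by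
  intro v hv
  have hne : ∀ i, (v i).1 = 0 → (v i).2 = 0 → False := fun i a b => by
    obtain ⟨j, hj⟩ := exists_ne i
    exact hv j i hj (by simp [br, a, b])
  obtain ⟨i₀, h0⟩ := Finite.exists_min fun i => ‖(v i).1‖ + ‖(v i).2‖
  obtain ⟨i₁, h1⟩ := Finite.exists_max fun i => ‖(v i).1‖ + ‖(v i).2‖
  obtain ⟨p, h2⟩ := Finite.exists_min fun p : Fin 6 × Fin 6 =>
    if p.1 = p.2 then 1 else ‖br (v p.1) (v p.2)‖
  have hpos : ∀ i, 0 < ‖(v i).1‖ + ‖(v i).2‖ := fun i => by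
    have a := norm_nonneg (v i).1
    have b := norm_nonneg (v i).2
    by_contra hc
    exact hne i (norm_eq_zero.1 (by linarith)) (norm_eq_zero.1 (by linarith))
  obtain ⟨B, hB⟩ := VBP.main (hpos i₀) (hpos i₁)
    (η := if p.1 = p.2 then 1 else ‖br (v p.1) (v p.2)‖) (by
      split_ifs with h
      · exact one_pos
      · exact norm_pos_iff.2 (hv _ _ h))
  have hi := (hB v h0 (fun i => ⟨by linarith [h1 i, norm_nonneg (v i).2],
    by linarith [h1 i, norm_nonneg (v i).1]⟩) fun i j k a _ _ => Or.inl (by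
      have := h2 (i, j)
      rwa [if_neg a] at this)).1
  refine ⟨hi, mul_pos (by positivity) ?_⟩
  refine lt_of_le_of_ne (integral_nonneg (VBP.Vi_nonneg v)) fun h => ?_
  have h3 := (integral_eq_zero_iff_of_nonneg (VBP.Vi_nonneg v) hi).1 h.symm
  have h4 : ∀ i, ∀ᵐ z : ℂ, br (z, 1) (v i) ≠ 0 := fun i => by
    rw [ae_iff]
    refine Set.Subsingleton.measure_zero (fun x hx y hy => ?_) _
    simp only [br, ne_eq, not_not, mem_ofPred_eq, one_mul] at hx hy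
    by_cases b : (v i).2 = 0
    · exact (hne i (by simpa [b] using hx) b).elim
    · exact mul_right_cancel₀ b (by linear_combination hx - hy)
  obtain ⟨z, hz, hz'⟩ := (h3.and (ae_all_iff.2 h4)).exists
  exact (Finset.prod_pos fun i _ => Real.rpow_pos_of_pos (norm_pos_iff.2 (hz' i)) _).ne' hz

end Pool.Agent.P.MP_5d7cf0_gt
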