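import Pool.Agent.P.MP_5d7cf0_gt.St

/-! Package VF: the size of the volume on the fundamental domain. -/

open Set Filter Topology MeasureTheory

namespace Pool.Agent.P.MP_5d7cf0_gt

namespace VFP

theorem ann_integral {r R : ℝ} (hr : 0 < r) (hR : r ≤ R) :
    ∫ z : ℂ, (Ioc r R).indicator (fun y : ℝ => (y ^ 2)⁻¹) ‖z‖ =
      2 * (volume.real (Metric.ball (0 : ℂ) 1)) * Real.log (R / r) := by
  rw [integral_fun_norm_addHaar volume ((Ioc r R).indicator fun y : ℝ => (y ^ 2)⁻¹),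
    Complex.finrank_real_complex]
  have h1 : ∫ y in Ioi (0 : ℝ), y ^ (2 - 1) • (Ioc r R).indicator (fun y : ℝ => (y ^ 2)⁻¹) y =
      ∫ y in Ioi (0 : ℝ), (Ioc r R).indicator (fun y : ℝ => y⁻¹) y := by
    refine setIntegral_congr_fun measurableSet_Ioi fun y hy => ?_
    by_cases h : y ∈ Ioc r R
    · have : y ≠ 0 := ne_of_gt hy
      simp only [indicator_of_mem h, smul_eq_mul, Nat.add_one_sub_one, pow_one]
      field_simp
    · simp [indicator_of_notMem h]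
  have h2 : Ioi (0 : ℝ) ∩ Ioc r R = Ioc r R := inter_eq_right.2 fun y hy => hr.trans hy.1
  rw [h1, setIntegral_indicator measurableSet_Ioc, h2, ← intervalIntegral.integral_of_le hR,
    integral_inv_of_pos hr (hr.trans_le hR)]
  simp only [nsmul_eq_mul, smul_eq_mul, Nat.cast_ofNat]
  ring

theorem Vi_pt (x : E) (z : ℂ) : Vi (pt x) z =
    (‖z‖ * ‖z - x 0‖ * ‖z - x 1‖ * ‖z - x 2‖ * ‖z - 1‖) ^ (-(2 / 3) : ℝ) := by
  rw [Real.mul_rpow (by positivity) (by positivity), Real.mul_rpow (by positivity) (by positivity),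
    Real.mul_rpow (by positivity) (by positivity), Real.mul_rpow (by positivity) (by positivity)]
  simp [Vi, Fin.prod_univ_six, pt, br]

theorem ne_zero {x : E} (hx : x ∈ X) : x 1 ≠ 0 ∧ x 2 ≠ 0 := by
  have h1 := hx 2 0 (by decide)
  have h2 := hx 3 0 (by decide)
  exact ⟨by simpa [pt, br] using h1, by simpa [pt, br] using h2⟩

theorem lower {x : E} (hx : x ∈ FF) {z : ℂ} (hz : z ∉ ({x 0, x 1, x 2, 1} : Set ℂ)) :
    (270 : ℝ) ^ (-(2 / 3) : ℝ) * ‖x 2‖ ^ (-(2 / 3) : ℝ) *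
      (Ioc ‖x 1‖ (4 * ‖x 2‖)).indicator (fun y : ℝ => (y ^ 2)⁻¹) ‖z‖ ≤ Vi (pt x) z := by
  rw [Vi_pt]
  by_cases h : ‖z‖ ∈ Ioc ‖x 1‖ (4 * ‖x 2‖)
  swap
  · rw [indicator_of_notMem h, mul_zero]; positivity
  obtain ⟨hX, h1, h2, h3, -⟩ := hx
  simp only [mem_insert_iff, mem_singleton_iff, not_or] at hz
  have hz0 : 0 < ‖z‖ := (norm_nonneg _).trans_lt h.1
  have p0 : 0 < ‖z - x 0‖ := norm_pos_iff.2 (sub_ne_zero.2 hz.1)
  have p1 : 0 < ‖z - x 1‖ := norm_pos_iff.2 (sub_ne_zero.2 hz.2.1)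
  have p2 : 0 < ‖z - x 2‖ := norm_pos_iff.2 (sub_ne_zero.2 hz.2.2.1)
  have p3 : 0 < ‖z - 1‖ := norm_pos_iff.2 (sub_ne_zero.2 hz.2.2.2)
  have b0 : ‖z - x 0‖ ≤ 3 * ‖z‖ := by linarith [norm_sub_le z (x 0), h.1]
  have b1 : ‖z - x 1‖ ≤ 2 * ‖z‖ := by linarith [norm_sub_le z (x 1), h.1]
  have b2 : ‖z - x 2‖ ≤ 5 * ‖x 2‖ := by linarith [norm_sub_le z (x 2), h.2]
  have b3 : ‖z - 1‖ ≤ 9 := by linarith [norm_sub_le z 1, h.2, norm_one (α := ℂ)]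
  have b : ‖z‖ * ‖z - x 0‖ * ‖z - x 1‖ * ‖z - x 2‖ * ‖z - 1‖ ≤ 270 * ‖x 2‖ * ‖z‖ ^ 3 :=
    calc _ ≤ ‖z‖ * (3 * ‖z‖) * (2 * ‖z‖) * (5 * ‖x 2‖) * 9 := by gcongr
      _ = _ := by ring
  refine le_trans (le_of_eq ?_) (Real.rpow_le_rpow_of_nonpos (by positivity) b (by norm_num))
  rw [indicator_of_mem h, Real.mul_rpow (by positivity) (by positivity),
    Real.mul_rpow (by positivity) (by positivity), ← Real.rpow_natCast ‖z‖ 3,
    ← Real.rpow_mul hz0.le, ← Real.rpow_natCast ‖z‖ 2, ← Real.rpow_neg hz0.le]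
  norm_num

theorem part1 (hV : S_Vint) : ∃ C : ℝ, ∀ x ∈ FF,
    Real.log (4 / wt none x) ≤ C * (Vh (pt x) * ‖x 2‖ ^ (2 / 3 : ℝ)) := by
  set m := volume.real (Metric.ball (0 : ℂ) 1) with hm
  have hm0 : 0 < m := ENNReal.toReal_pos (Metric.measure_ball_pos _ _ one_pos).ne'
    measure_ball_lt_top.ne
  set K := (270 : ℝ) ^ (-(2 / 3) : ℝ) with hK
  have hK0 : 0 < K := by positivity
  refine ⟨(2 * √3 * K * (2 * m))⁻¹, fun x hx => ?_⟩
  obtain ⟨h1, h2⟩ := ne_zero hx.1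
  have hb := norm_pos_iff.2 h1
  have hc := norm_pos_iff.2 h2
  have hi := integral_mono_of_nonneg (μ := volume) (Eventually.of_forall fun z => ?_)
    (hV (pt x) hx.1).1 ((Set.toFinite ({x 0, x 1, x 2, 1} : Set ℂ)).countable.ae_notMem volume |>.mono
      fun z hz => lower hx hz)
  · rw [integral_const_mul, ann_integral hb (by linarith [hx.2.2.1]), ← hm, ← hK] at hi
    have e : 4 / wt none x = 4 * ‖x 2‖ / ‖x 1‖ := by
      simp only [wt, norm_div]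
      field_simp
    have e2 : ‖x 2‖ ^ (-(2 / 3) : ℝ) * ‖x 2‖ ^ (2 / 3 : ℝ) = 1 := by
      rw [← Real.rpow_add hc]; simp
    rw [e, Vh, le_inv_mul_iff₀ (by positivity)]
    have h3 := mul_le_mul_of_nonneg_left (mul_le_mul_of_nonneg_right hi
      (Real.rpow_nonneg hc.le (2 / 3))) (show 0 ≤ 2 * √3 by positivity)
    refine le_trans (le_of_eq ?_) (h3.trans (le_of_eq (by ring)))
    linear_combination (-(2 * √3 * K * (2 * m) * Real.log (4 * ‖x 2‖ / ‖x 1‖))) * e2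
  · exact mul_nonneg (by positivity) (indicator_nonneg (fun _ _ => by positivity) _)

/-- The rescaled configuration. -/
noncomputable def vv (x : E) : V6 :=
  ![(0, 1), (x 0 / x 2, 1), (x 1 / x 2, 1), (1, 1), (1, x 2), (1, 0)]

theorem rel_vv {x : E} (h : x 2 ≠ 0) : Rel (pt x) (vv x) (x 2)⁻¹ ![1, 1, 1, 1, x 2, x 2] := by
  refine ⟨inv_ne_zero h, fun i => by fin_cases i <;> simp [h], (x 2)⁻¹, 0, 0, 1, by simp,
    fun i => ?_⟩
  fin_cases i <;> simp [pt, vv, h, div_eq_inv_mul]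

theorem nf_vv {x : E} (h : x 2 ≠ 0) :
    nf (x 2)⁻¹ ![1, 1, 1, 1, x 2, x 2] = ‖x 2‖ ^ (2 / 3 : ℝ) := by
  have e : (x 2)⁻¹ ^ 3 * ∏ i, (![1, 1, 1, 1, x 2, x 2] : Fin 6 → ℂ) i = (x 2)⁻¹ := by
    simp only [Fin.prod_univ_six, Matrix.cons_val]
    field_simp
  rw [nf, e, norm_inv, Real.inv_rpow (norm_nonneg _), Real.rpow_neg (norm_nonneg _), inv_inv]

theorem br_swap (u v : ℂ × ℂ) : ‖br u v‖ = ‖br v u‖ := by
  rw [← norm_neg]; congr 1; unfold br; ring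

theorem brackets {x : E} (hx : x ∈ FF) {η : ℝ} (h1 : η ≤ 1 / 5) (h2 : 5 * η ≤ wt none x)
    (hη : 0 < η) (i j : Fin 6) (hij : (i : ℕ) / 2 < (j : ℕ) / 2) :
    η ≤ ‖br (vv x i) (vv x j)‖ := by
  have hc0 := (ne_zero hx.1).2
  have hc := norm_pos_iff.2 hc0
  obtain ⟨-, -, -, -, a1, a2, a3⟩ := hx
  simp only [wt, norm_div] at h2
  have c02 : η ≤ ‖x 1‖ / ‖x 2‖ := by linarith
  have c12 : η ≤ ‖x 0 / x 2 - x 1 / x 2‖ := by
    rw [← sub_div, norm_div, norm_sub_rev, le_div_iff₀ hc]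
    rw [le_div_iff₀ hc] at h2
    linarith
  have c13 : η ≤ ‖x 0 / x 2 - 1‖ := by
    rw [div_sub_one hc0, norm_div, norm_sub_rev, le_div_iff₀ hc]
    nlinarith
  have c4 : ∀ k, η ≤ ‖x k - 1‖ := fun k => by rw [norm_sub_rev]; linarith [a3 k]
  have c1 : η ≤ 1 := by linarith
  fin_cases i <;> fin_cases j <;> simp at hij <;> simp [vv, br, hc0, c02, c12, c13, c4, c1]

theorem part2 (hM : S_Mob) (hB : S_VB) (θ : ℝ) (hθ : 0 < θ) :
    ∃ B, ∀ x ∈ FF, θ ≤ wt none x → Vh (pt x) * ‖x 2‖ ^ (2 / 3 : ℝ) ≤ B := by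
  have hη : 0 < min θ 1 / 5 := by positivity
  have h1 : min θ 1 / 5 ≤ 1 / 5 := by linarith [min_le_right θ 1]
  obtain ⟨B, hB⟩ := hB _ hη
  refine ⟨B, fun x hx h => ?_⟩
  have hc0 := (ne_zero hx.1).2
  have hc := norm_pos_iff.2 hc0
  rw [mul_comm, ← nf_vv hc0, ← hM.1 _ _ _ _ (rel_vv hc0)]
  have hb := brackets hx h1 (by linarith [min_le_left θ 1]) hη
  have hb' : ∀ i j : Fin 6, (i : ℕ) / 2 ≠ (j : ℕ) / 2 → min θ 1 / 5 ≤ ‖br (vv x i) (vv x j)‖ :=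
    fun i j hij => by
      rcases lt_or_gt_of_ne hij with h | h
      · exact hb i j h
      · rw [br_swap]; exact hb j i h
  refine (hB (vv x) (fun i => ?_) (fun i => ?_) fun i j k h1 h2 h3 => ?_).2
  · fin_cases i <;> simp [vv, sq_nonneg]
  · have h2 : 25 ≤ 1 / (min θ 1 / 5) ^ 2 := by
      rw [le_div_iff₀ (by positivity)]; nlinarith
    refine le_trans ?_ h2
    have d0 : ‖x 0‖ / ‖x 2‖ ≤ 4 := by
      rw [div_le_iff₀ hc]; linarith [hx.2.1, hx.2.2.1]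
    have d1 : ‖x 1‖ / ‖x 2‖ ≤ 4 := by
      rw [div_le_iff₀ hc]; linarith [hx.2.2.1]
    have d2 := hx.2.2.2.1
    have e0 : 0 ≤ ‖x 0‖ / ‖x 2‖ := by positivity
    have e1 : 0 ≤ ‖x 1‖ / ‖x 2‖ := by positivity
    fin_cases i <;> simp [vv] <;> nlinarith
  · have h4 : (i : ℕ) ≠ j := fun e => h1 (Fin.ext e)
    have h5 : (j : ℕ) ≠ k := fun e => h2 (Fin.ext e)
    have h6 : (i : ℕ) ≠ k := fun e => h3 (Fin.ext e)
    by_cases e1 : (i : ℕ) / 2 = (j : ℕ) / 2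
    · exact Or.inr (Or.inl (hb' j k (by omega)))
    · exact Or.inl (hb' i j e1)

end VFP

theorem pVF (hM : S_Mob) (hB : S_VB) (hV : S_Vint) : S_VF :=
  ⟨VFP.part1 hV, VFP.part2 hM hB⟩

end Pool.Agent.P.MP_5d7cf0_gt
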