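import Pool.Agent.P.MP_5d7cf0_gt.St

/-!
The majorant of the volume density is integrable.
-/

open Set Filter Topology MeasureTheory
open scoped ENNReal

noncomputable section

namespace Pool.Agent.P.MP_5d7cf0_gt

namespace VolIP

theorem radial (h : ℝ → ℝ≥0∞) (hm : Measurable h)
    (hf : ∫⁻ t : ℝ, ENNReal.ofReal (Real.exp t ^ 2) * h (Real.exp t) < ⊤) :
    ∫⁻ z : ℂ, h ‖z‖ < ⊤ := by
  have h1 : ∫⁻ r in Ioi (0 : ℝ), ENNReal.ofReal r * h r < ⊤ := by
    have := lintegral_image_eq_lintegral_abs_deriv_mul (f := Real.exp) (f' := Real.exp)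
      MeasurableSet.univ (fun x _ => (Real.hasDerivAt_exp x).hasDerivWithinAt)
      Real.exp_injective.injOn fun r => ENNReal.ofReal r * h r
    rw [image_univ, Real.range_exp, Measure.restrict_univ] at this
    rw [this]
    refine lt_of_eq_of_lt (lintegral_congr fun t => ?_) hf
    rw [abs_of_pos (Real.exp_pos t), ← mul_assoc, ← ENNReal.ofReal_mul (Real.exp_pos t).le, sq]
  rw [← Complex.lintegral_comp_polarCoord_symm, polarCoord_target]
  have h2 : ∫⁻ p in Ioi (0 : ℝ) ×ˢ Ioo (-Real.pi) Real.pi,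
      ENNReal.ofReal p.1 • h ‖Complex.polarCoord.symm p‖ =
      ∫⁻ p in Ioi (0 : ℝ) ×ˢ Ioo (-Real.pi) Real.pi,
        (ENNReal.ofReal p.1 * h p.1) * (fun _ : ℝ => (1 : ℝ≥0∞)) p.2 := by
    refine setLIntegral_congr_fun (measurableSet_Ioi.prod measurableSet_Ioo) fun p hp => ?_
    rw [Complex.norm_polarCoord_symm, abs_of_pos hp.1, smul_eq_mul, mul_one]
  rw [h2, Measure.volume_eq_prod, ← Measure.prod_restrict,
    lintegral_prod_mul (f := fun r => ENNReal.ofReal r * h r)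
      (ENNReal.measurable_ofReal.mul hm).aemeasurable aemeasurable_const]
  exact ENNReal.mul_lt_top h1 (by simp)

theorem scale (F : ℂ → ℝ≥0∞) (hF : Measurable F) (b : ℂ) :
    ∫⁻ a : ℂ, F (a / b) * ENNReal.ofReal (1 / ‖b‖ ^ 2) ≤ ∫⁻ a, F a := by
  rcases eq_or_ne b 0 with rfl | hb
  · simp
  have hd : LinearMap.det (LinearMap.mul ℝ ℂ b⁻¹) = 1 / ‖b‖ ^ 2 := by
    refine (Algebra.norm_apply ℝ b⁻¹).symm.trans ?_
    rw [Algebra.norm_complex_apply, Complex.normSq_eq_norm_sq, norm_inv, inv_pow, one_div]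
  have hp : 0 < ‖b‖ ^ 2 := by positivity
  have h1 := Measure.map_linearMap_addHaar_eq_smul_addHaar (volume : Measure ℂ)
    (f := LinearMap.mul ℝ ℂ b⁻¹) (by rw [hd]; positivity)
  have h2 : ∫⁻ a : ℂ, F (a / b) = ENNReal.ofReal (‖b‖ ^ 2) * ∫⁻ a, F a := by
    have := lintegral_map (μ := (volume : Measure ℂ)) hF
      (g := LinearMap.mul ℝ ℂ b⁻¹) (measurable_const_mul b⁻¹)
    rw [h1, lintegral_smul_measure, hd, one_div, inv_inv, abs_of_pos hp, smul_eq_mul] at this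
    rw [this]
    exact lintegral_congr fun a => by rw [LinearMap.mul_apply', div_eq_inv_mul]
  rw [lintegral_mul_const' _ _ ENNReal.ofReal_ne_top, h2, mul_right_comm,
    ← ENNReal.ofReal_mul hp.le, mul_one_div_cancel hp.ne', ENNReal.ofReal_one, one_mul]

theorem meas_pc : Measurable pc := by unfold pc; fun_prop

theorem meas_pl : Measurable pl := by unfold pl; fun_prop

theorem pc_nonneg (w : ℝ) : 0 ≤ pc w := by unfold pc; positivity

theorem pl_nonneg {w : ℝ} (h0 : 0 ≤ w) (h : w < 2) : 0 ≤ pl w := by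
  rcases h0.eq_or_lt with rfl | h0
  · simp [pl]
  have : 0 ≤ Real.log (4 / w) := Real.log_nonneg (by rw [le_div_iff₀ h0]; linarith)
  unfold pl; positivity

theorem int_pc : ∫⁻ z : ℂ, ENNReal.ofReal (pc ‖z‖) < ⊤ := by
  refine radial (fun r => ENNReal.ofReal (pc r)) meas_pc.ennreal_ofReal ?_
  refine lt_of_eq_of_lt (lintegral_congr fun t => ?_) integrable_inv_one_add_sq.lintegral_lt_top
  rw [← ENNReal.ofReal_mul (by positivity), pc, Real.log_exp]
  congr 1
  have := Real.exp_pos t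
  field_simp

theorem int_pl : ∫⁻ z : ℂ, (Iio (2 : ℝ)).indicator (fun r => ENNReal.ofReal (pl r)) ‖z‖ < ⊤ := by
  refine radial _ (meas_pl.ennreal_ofReal.indicator measurableSet_Iio) ?_
  have hi := (integrable_one_add_norm (E := ℝ) (μ := volume) (r := 4 / 3)
    (by norm_num)).const_mul ((3 : ℝ) ^ (4 / 3 : ℝ))
  refine lt_of_le_of_lt (lintegral_mono fun t => ?_) hi.lintegral_lt_top
  by_cases h : Real.exp t < 2
  · rw [indicator_of_mem (show Real.exp t ∈ Iio 2 from h), ← ENNReal.ofReal_mul (by positivity)]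
    refine ENNReal.ofReal_le_ofReal ?_
    have e0 := Real.exp_pos t
    have l2 := Real.log_two_gt_d9
    have l3 := Real.log_two_lt_d9
    have ht : t < Real.log 2 := (Real.lt_log_iff_exp_lt two_pos).2 h
    have e1 : Real.log (4 / Real.exp t) = 2 * Real.log 2 - t := by
      rw [Real.log_div (by norm_num) e0.ne', Real.log_exp, show (4 : ℝ) = 2 ^ 2 by norm_num,
        Real.log_pow]; norm_num
    have e2 : 1 + ‖t‖ ≤ 3 * (2 * Real.log 2 - t) := by
      rw [Real.norm_eq_abs]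
      rcases abs_cases t with h1 | h1 <;> linarith [h1.1, h1.2]
    have e3 : 0 < 2 * Real.log 2 - t := by linarith
    have e4 : (1 + ‖t‖) ^ (4 / 3 : ℝ) ≤ 3 ^ (4 / 3 : ℝ) * (2 * Real.log 2 - t) ^ (4 / 3 : ℝ) := by
      rw [← Real.mul_rpow (by norm_num) e3.le]
      exact Real.rpow_le_rpow (by positivity) e2 (by norm_num)
    have e5 : 0 < (2 * Real.log 2 - t) ^ (4 / 3 : ℝ) := Real.rpow_pos_of_pos e3 _
    have e6 : 0 < (1 + ‖t‖) ^ (4 / 3 : ℝ) := Real.rpow_pos_of_pos (by positivity) _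
    rw [pl, e1, Real.rpow_neg (by positivity), ← div_eq_mul_inv, le_div_iff₀ e6]
    refine le_of_eq_of_le (b := (1 + ‖t‖) ^ (4 / 3 : ℝ) / (2 * Real.log 2 - t) ^ (4 / 3 : ℝ))
      (by field_simp) ((div_le_iff₀ e5).2 e4)
  · rw [indicator_of_notMem (show Real.exp t ∉ Iio 2 from h), mul_zero]
    exact zero_le

/-- The middle factor. -/
def mdf (u : ℂ) : ℝ≥0∞ :=
  ENNReal.ofReal (pc ‖1 - u‖) * (Iio (2 : ℝ)).indicator (fun r => ENNReal.ofReal (pl r)) ‖u‖

theorem meas_mid : Measurable mdf :=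
  (meas_pc.comp (by fun_prop)).ennreal_ofReal.mul
    ((meas_pl.ennreal_ofReal.indicator measurableSet_Iio).comp measurable_norm)

theorem int_mid : ∫⁻ u, mdf u < ⊤ := by
  set C : ℝ := 4 / Real.log 2 ^ (4 / 3 : ℝ) with hC
  have l2 : 0 < Real.log 2 := Real.log_pos one_lt_two
  have key : ∀ u : ℂ, mdf u ≤ ENNReal.ofReal (pc ‖1 - u‖) * ENNReal.ofReal C +
      ENNReal.ofReal 4 * (Iio (2 : ℝ)).indicator (fun r => ENNReal.ofReal (pl r)) ‖u‖ := by
    intro u
    rcases le_total ‖u‖ (1 / 2) with h | h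
    · refine le_add_left (mul_le_mul_left (ENNReal.ofReal_le_ofReal ?_) _)
      have h1 : 1 / 2 ≤ ‖1 - u‖ := by
        have := norm_sub_norm_le (1 : ℂ) u
        rw [norm_one] at this; linarith
      rw [pc, div_le_iff₀ (by positivity)]
      nlinarith [sq_nonneg (Real.log ‖1 - u‖), mul_nonneg (sq_nonneg ‖1 - u‖)
        (sq_nonneg (Real.log ‖1 - u‖))]
    · refine le_add_right (mul_le_mul_right ?_ _)
      by_cases h2 : ‖u‖ < 2
      · rw [indicator_of_mem (show ‖u‖ ∈ Iio 2 from h2)]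
        refine ENNReal.ofReal_le_ofReal ?_
        have h3 : Real.log 2 ≤ Real.log (4 / ‖u‖) :=
          Real.log_le_log two_pos (by rw [le_div_iff₀ (by linarith)]; linarith)
        have h4 := Real.rpow_le_rpow l2.le h3 (show (0 : ℝ) ≤ 4 / 3 by norm_num)
        have h5 : 0 < Real.log 2 ^ (4 / 3 : ℝ) := Real.rpow_pos_of_pos l2 _
        have h6 : 1 / 4 ≤ ‖u‖ ^ 2 := by nlinarith
        rw [pl, hC, div_le_div_iff₀ (mul_pos (by linarith) (h5.trans_le h4)) h5]
        nlinarith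
      · rw [indicator_of_notMem (show ‖u‖ ∉ Iio 2 from h2)]
        exact zero_le
  refine lt_of_le_of_lt (lintegral_mono key) ?_
  have m1 : Measurable fun u : ℂ => ENNReal.ofReal (pc ‖1 - u‖) * ENNReal.ofReal C :=
    (meas_pc.comp (by fun_prop)).ennreal_ofReal.mul_const _
  rw [lintegral_add_left m1,
    lintegral_mul_const' _ _ ENNReal.ofReal_ne_top, lintegral_const_mul' _ _ ENNReal.ofReal_ne_top,
    lintegral_sub_left_eq_self (fun z : ℂ => ENNReal.ofReal (pc ‖z‖)) 1]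
  exact ENNReal.add_lt_top.2 ⟨ENNReal.mul_lt_top int_pc ENNReal.ofReal_lt_top,
    ENNReal.mul_lt_top ENNReal.ofReal_lt_top int_pl⟩

theorem mp : MeasurePreserving (fun x : E => ((x 0, x 1, x 2) : ℂ × ℂ × ℂ)) volume
    ((volume : Measure ℂ).prod ((volume : Measure ℂ).prod volume)) :=
  ((MeasurePreserving.id (volume : Measure ℂ)).prod (volume_preserving_finTwoArrow ℂ)).comp
    (volume_preserving_piFinSuccAbove (fun _ : Fin 3 => ℂ) 0)

end VolIP

open VolIP in
theorem pVolI : S_VolI := by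
  set F : ℂ → ℝ≥0∞ := fun z => ENNReal.ofReal (pc ‖z‖) with hF
  have mF : Measurable F := (meas_pc.comp measurable_norm).ennreal_ofReal
  set w : ℂ → ℝ≥0∞ := fun z => ENNReal.ofReal (1 / ‖z‖ ^ 2) with hw
  have mw : Measurable w := by rw [hw]; fun_prop
  set G₂ : ℂ × ℂ → ℝ≥0∞ := fun p => mdf (p.1 / p.2) * w p.2 * F p.2 with hG₂
  have mG₂ : Measurable G₂ :=
    ((meas_mid.comp (by fun_prop)).mul (mw.comp measurable_snd)).mul (mF.comp measurable_snd)
  set G : ℂ × ℂ × ℂ → ℝ≥0∞ := fun p => F (p.1 / p.2.1) * w p.2.1 * G₂ p.2 with hG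
  have mG : Measurable G :=
    ((mF.comp (by fun_prop)).mul (mw.comp (by fun_prop))).mul (mG₂.comp measurable_snd)
  have h1 : ∫⁻ x in FF, ENNReal.ofReal (maj x) ≤ ∫⁻ x : E, G (x 0, x 1, x 2) := by
    refine le_trans ?_ (setLIntegral_le_lintegral
      {x : E | ‖x 1‖ < 2 * ‖x 2‖} fun x => G (x 0, x 1, x 2))
    refine (lintegral_mono_set (t := {x : E | ‖x 1‖ < 2 * ‖x 2‖}) fun x hx => hx.2.2.1).trans
      (setLIntegral_mono' (measurableSet_lt (by fun_prop) (by fun_prop)) fun x hx => le_of_eq ?_)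
    have h2 : 0 < ‖x 2‖ := by
      have : ‖x 1‖ < 2 * ‖x 2‖ := hx
      linarith [norm_nonneg (x 1)]
    have h3 : ‖x 1 / x 2‖ < 2 := by rw [norm_div, div_lt_iff₀ h2]; exact hx
    have h4 := pl_nonneg (norm_nonneg _) h3
    have h5 := pc_nonneg ‖x 0 / x 1‖
    have h6 := pc_nonneg ‖1 - x 1 / x 2‖
    simp only [hG, hG₂, hF, hw, mdf]
    rw [indicator_of_mem (show ‖x 1 / x 2‖ ∈ Iio 2 from h3), ← ENNReal.ofReal_mul h5,
      ← ENNReal.ofReal_mul h6, ← ENNReal.ofReal_mul (mul_nonneg h6 h4),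
      ← ENNReal.ofReal_mul (by positivity), ← ENNReal.ofReal_mul (by positivity)]
    congr 1
    change pc ‖x 0 / x 1‖ * pc ‖1 - x 1 / x 2‖ * pc ‖x 2‖ * pl ‖x 1 / x 2‖ /
      (‖x 1‖ ^ 2 * ‖x 2‖ ^ 2) = _
    rw [div_eq_mul_inv, mul_inv, one_div, one_div]
    ring
  refine h1.trans_lt ?_
  rw [mp.lintegral_comp mG, lintegral_prod_symm _ mG.aemeasurable]
  have h2 : ∀ p : ℂ × ℂ, ∫⁻ a, G (a, p) ≤ (∫⁻ a, F a) * G₂ p := fun p => by
    change ∫⁻ a, F (a / p.1) * w p.1 * G₂ p ≤ _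
    have m1 : Measurable fun a : ℂ => F (a / p.1) * w p.1 := (mF.comp (by fun_prop)).mul_const _
    rw [lintegral_mul_const _ m1]
    exact mul_le_mul_left (scale F mF p.1) _
  refine (lintegral_mono h2).trans_lt ?_
  rw [lintegral_const_mul _ mG₂, lintegral_prod_symm _ mG₂.aemeasurable]
  refine ENNReal.mul_lt_top int_pc ?_
  have h3 : ∀ c : ℂ, ∫⁻ b, G₂ (b, c) ≤ (∫⁻ a, mdf a) * F c := fun c => by
    change ∫⁻ b, mdf (b / c) * w c * F c ≤ _
    have m1 : Measurable fun a : ℂ => mdf (a / c) * w c := (meas_mid.comp (by fun_prop)).mul_const _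
    rw [lintegral_mul_const _ m1]
    exact mul_le_mul_left (scale mdf meas_mid c) _
  refine (lintegral_mono h3).trans_lt ?_
  rw [lintegral_const_mul _ mF]
  exact ENNReal.mul_lt_top int_mid int_pc

end Pool.Agent.P.MP_5d7cf0_gt
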