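import Pool.Agent.P.MP_5d7cf0_gt.St

/-!
The Riemannian volume is invariant under isometries.
-/

open Set Filter Topology MeasureTheory Module
open scoped ENNReal Matrix

noncomputable section

namespace Pool.Agent.P.MP_5d7cf0_gt

namespace VolTP

/-- The standard real basis as a basis. -/
def bs : Basis (Fin 3 × Fin 2) ℝ E :=
  (Pi.basis fun _ : Fin 3 => Complex.basisOneI).reindex (Equiv.sigmaEquivProd _ _)

theorem bs_eq (p : Fin 3 × Fin 2) : bs p = eb p := by
  rw [bs, Basis.reindex_apply, Pi.basis_apply, Complex.coe_basisOneI]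
  rfl

theorem gram (G G' : E →L[ℝ] E →L[ℝ] ℝ) (A : E →L[ℝ] E) (h : ∀ u v, G' (A u) (A v) = G u v) :
    (Matrix.of fun p q => G (eb p) (eb q)).det =
      A.det ^ 2 * (Matrix.of fun p q => G' (eb p) (eb q)).det := by
  set B : E →ₗ[ℝ] E →ₗ[ℝ] ℝ := G'.toLinearMap₁₂ with hB
  have h1 := LinearMap.toMatrix₂_compl₁₂ bs bs bs bs B (A : E →ₗ[ℝ] E) (A : E →ₗ[ℝ] E)
  have h2 : LinearMap.toMatrix₂ bs bs (B.compl₁₂ (A : E →ₗ[ℝ] E) (A : E →ₗ[ℝ] E)) =
      Matrix.of fun p q => G (eb p) (eb q) := by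
    ext p q
    rw [LinearMap.toMatrix₂_apply, bs_eq, bs_eq, Matrix.of_apply, ← h]
    rfl
  have h3 : LinearMap.toMatrix₂ bs bs B = Matrix.of fun p q => G' (eb p) (eb q) := by
    ext p q
    rw [LinearMap.toMatrix₂_apply, bs_eq, bs_eq, Matrix.of_apply]
    rfl
  rw [← h2, h1, h3, Matrix.det_mul, Matrix.det_mul, Matrix.det_transpose, LinearMap.det_toMatrix,
    ContinuousLinearMap.det]
  ring

end VolTP

theorem pVolT : S_VolT := by
  intro g φ s hs hi hd hg
  rw [lintegral_image_eq_lintegral_abs_det_fderiv_mul volume hs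
    (fun x hx => (hd x hx).hasFDerivAt.hasFDerivWithinAt) hi]
  refine setLIntegral_congr_fun hs fun x hx => ?_
  simp only [dens]
  rw [VolTP.gram (g x) (g (φ x)) (fderiv ℝ φ x) (hg x hx), Real.sqrt_mul (sq_nonneg _),
    Real.sqrt_sq_eq_abs, ENNReal.ofReal_mul (abs_nonneg _)]

end Pool.Agent.P.MP_5d7cf0_gt
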