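import Pool.Agent.P.MP_5d7cf0_gt.St

/-! Package Xi: invariance properties of the normalised squared periods. -/

open Set Filter Topology MeasureTheory

noncomputable section

namespace Pool.Agent.P.MP_5d7cf0_gt

namespace XiP

/-- the multiplicative weight -/
def N (x : ℂ) : ℝ := ‖x‖ ^ (-(2 / 3) : ℝ)

theorem N_mul (x y : ℂ) : N (x * y) = N x * N y := by
  rw [N, norm_mul, Real.mul_rpow (norm_nonneg _) (norm_nonneg _)]; rfl

theorem N_pos {x : ℂ} (hx : x ≠ 0) : 0 < N x := Real.rpow_pos_of_pos (norm_pos_iff.mpr hx) _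

theorem N_one : N 1 = 1 := by simp [N]

theorem N_div (x y : ℂ) : N (x / y) = N x / N y := by
  rw [N, norm_div, Real.div_rpow (norm_nonneg _) (norm_nonneg _)]; rfl

theorem N_prod (s : Finset (Fin 6)) (f : Fin 6 → ℂ) : N (∏ k ∈ s, f k) = ∏ k ∈ s, N (f k) := by
  induction s using Finset.induction_on with
  | empty => simp [N_one]
  | insert a s ha ih => rw [Finset.prod_insert ha, Finset.prod_insert ha, N_mul, ih]

theorem r1 (x : ℂ) : ‖x‖ ^ (2 / 3 : ℝ) = (N x)⁻¹ := by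
  rw [N, Real.rpow_neg (norm_nonneg _), inv_inv]

theorem r2 (x : ℂ) : ‖x‖ ^ (4 / 3 : ℝ) = (N x)⁻¹ ^ 2 := by
  rw [← r1, ← Real.rpow_natCast, ← Real.rpow_mul (norm_nonneg _)]
  norm_num

theorem r3 (x : ℂ) : ‖x‖ ^ 2 = (N x)⁻¹ ^ 3 := by
  rw [← r1, ← Real.rpow_natCast (‖x‖ ^ (2 / 3 : ℝ)), ← Real.rpow_mul (norm_nonneg _),
    ← Real.rpow_natCast]
  norm_num

theorem nf_eq (D : ℂ) (c : Fin 6 → ℂ) : nf D c = N D ^ 3 * ∏ i, N (c i) := by
  change N _ = _
  rw [N_mul, N_prod, pow_three, N_mul, N_mul]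
  ring

theorem br_swap (u w : ℂ × ℂ) : br u w = -br w u := by unfold br; ring

variable {v v' : V6} {D : ℂ} {c : Fin 6 → ℂ}

theorem br_rel (h : Rel v v' D c) (i j : Fin 6) :
    br (v' i) (v' j) = D * c i * c j * br (v i) (v j) := by
  obtain ⟨-, -, α, β, γ, δ, hD, h⟩ := h
  rw [h i, h j, ← hD]
  unfold br
  ring

theorem gen_rel (h : Rel v v' D c) (hv : Gen v) : Gen v' := fun i j hij => by
  rw [br_rel h]
  exact mul_ne_zero (mul_ne_zero (mul_ne_zero h.1 (h.2.1 i)) (h.2.1 j)) (hv i j hij)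

theorem cc_rel (h : Rel v v' D c) (S : Finset (Fin 6)) : cc S v' = cc S v := by
  unfold cc
  refine Finset.sum_congr rfl fun a _ => Finset.sum_congr rfl fun b _ =>
    Finset.sum_congr rfl fun e _ => Finset.sum_congr rfl fun d _ => ?_
  have hk : D * D * c a * c b * c e * c d ≠ 0 :=
    mul_ne_zero (mul_ne_zero (mul_ne_zero (mul_ne_zero (mul_ne_zero h.1 h.1) (h.2.1 a))
      (h.2.1 b)) (h.2.1 e)) (h.2.1 d)
  rw [← mul_div_mul_left (br (v a) (v b) * br (v e) (v d)) _ hk]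
  simp only [br_rel h]
  congr 2 <;> ring

theorem bet_rel (h : Rel v v' D c) (i j k : Fin 6) :
    bet v' i j k = c j / c i * bet v i j k := by
  unfold bet
  rw [div_mul_div_comm, ← mul_div_mul_left (c j * _) _ (mul_ne_zero h.1 (h.2.1 k))]
  simp only [br_rel h]
  congr 1 <;> ring

theorem prod_rel (h : Rel v v' D c) (T : Finset (Fin 6)) (i : Fin 6) :
    ∏ k ∈ T, ‖br (v' i) (v' k)‖ ^ (-(2 / 3) : ℝ) =
      (N D * N (c i)) ^ T.card * (∏ k ∈ T, N (c k)) *
        ∏ k ∈ T, ‖br (v i) (v k)‖ ^ (-(2 / 3) : ℝ) := by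
  rw [← Finset.prod_const, ← Finset.prod_mul_distrib, ← Finset.prod_mul_distrib]
  refine Finset.prod_congr rfl fun k _ => ?_
  change N _ = _ * N _
  rw [br_rel h, N_mul, N_mul, N_mul]

theorem rP_rel (h : Rel v v' D c) {i j : Fin 6} (hij : i ≠ j) :
    rP v' i j = nf D c * rP v i j := by
  have hi := h.2.1 i
  have hj := h.2.1 j
  have hκ : 4 / ∑ k ∈ ({i, j} : Finset (Fin 6))ᶜ, bet v' i j k =
      c i / c j * (4 / ∑ k ∈ ({i, j} : Finset (Fin 6))ᶜ, bet v i j k) := by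
    simp only [bet_rel h]
    rw [← Finset.mul_sum, div_mul_eq_div_div_swap, div_eq_mul_inv _ (c j / c i), inv_div, mul_comm]
  have hcard : (({i, j} : Finset (Fin 6))ᶜ).card = 4 := by
    rw [Finset.card_compl, Finset.card_pair hij]; rfl
  unfold rP
  rw [hκ]
  generalize 4 / ∑ k ∈ ({i, j} : Finset (Fin 6))ᶜ, bet v i j k = κ
  unfold rK
  have e : (fun k => c i / c j * κ * bet v' i j k) = fun k => κ * bet v i j k := by
    funext k
    rw [bet_rel h]
    field_simp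
  rw [e, prod_rel h, hcard, nf_eq, ← Finset.prod_mul_prod_compl {i, j}, Finset.prod_pair hij,
    br_rel h, r1, r1, r2, r2, N_mul, N_mul, N_mul, N_mul, N_div]
  have := (N_pos h.1).ne'
  have := (N_pos hi).ne'
  have := (N_pos hj).ne'
  simp only [mul_inv]
  generalize (N (br (v i) (v j)))⁻¹ = x
  generalize (N κ)⁻¹ = y
  field_simp

theorem rT_rel (hL : S_Lp) (h : Rel v v' D c) {S : Finset (Fin 6)} (hS : S.card = 3)
    (p q : Fin 6) : rT v' S p q = nf D c * rT v S p q := by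
  have hp := h.2.1 p
  have hq := h.2.1 q
  have hpq : c p / c q ≠ 0 := div_ne_zero hp hq
  have hn : 0 < ‖c p / c q‖ := norm_pos_iff.mpr hpq
  have e1 : bet v' q p = fun k => c p / c q * bet v q p k := funext fun k => bet_rel h q p k
  have e2 : bet v' p q = fun k => (c p / c q)⁻¹ * bet v p q k := funext fun k => by
    rw [bet_rel h, inv_div]
  have hρ : √((∑ k ∈ S, ‖bet v' q p k‖) / ∑ l ∈ Sᶜ, ‖bet v' p q l‖) =
      ‖c p / c q‖ * √((∑ k ∈ S, ‖bet v q p k‖) / ∑ l ∈ Sᶜ, ‖bet v p q l‖) := by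
    rw [e1, e2]
    simp only [norm_mul, norm_inv]
    rw [← Finset.mul_sum, ← Finset.mul_sum, mul_div_mul_comm, div_inv_eq_mul,
      Real.sqrt_mul (mul_self_nonneg _), Real.sqrt_mul_self hn.le]
  have hcard : (Sᶜ).card = 3 := by rw [Finset.card_compl, hS]; rfl
  unfold rT
  rw [hρ]
  have h0 := Real.sqrt_nonneg ((∑ k ∈ S, ‖bet v q p k‖) / ∑ l ∈ Sᶜ, ‖bet v p q l‖)
  generalize √((∑ k ∈ S, ‖bet v q p k‖) / ∑ l ∈ Sᶜ, ‖bet v p q l‖) = ρ at h0
  have hLp : Lp S (bet v' q p) (bet v' p q) (‖c p / c q‖ * ρ) = Lp S (bet v q p) (bet v p q) ρ := by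
    rcases h0.eq_or_lt with h1 | h1
    · rw [← h1, mul_zero]
      unfold Lp
      rw [circleIntegral.integral_radius_zero, circleIntegral.integral_radius_zero]
    · rw [e1, e2]
      exact hL.2.1 S _ _ ρ _ h1 hpq
  unfold rR
  rw [hLp, prod_rel h, prod_rel h, hS, hcard, nf_eq, ← Finset.prod_mul_prod_compl S, br_rel h,
    r3 (_ * _), r3 (br _ _), N_mul, N_mul, N_mul]
  have := (N_pos h.1).ne'
  have := (N_pos hp).ne'
  have := (N_pos hq).ne'
  simp only [mul_inv]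
  generalize (N (br (v p) (v q)))⁻¹ = x
  field_simp

theorem lo_mem {S : Finset (Fin 6)} (h : 0 < S.card) : lo S ∈ S := by
  have hne := Finset.card_pos.mp h
  unfold lo
  rw [dif_pos hne]
  exact S.min'_mem hne

theorem lo2 {S : Finset (Fin 6)} (h : S.card = 2) :
    lo (S.erase (lo S)) ≠ lo S ∧ lo (S.erase (lo S)) ∈ S := by
  have h1 : lo S ∈ S := lo_mem (by omega)
  have h2 : 0 < (S.erase (lo S)).card := by rw [Finset.card_erase_of_mem h1, h]; norm_num
  exact Finset.mem_erase.mp (lo_mem h2)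

theorem nf_pos (h : Rel v v' D c) : 0 < nf D c := by
  rw [nf_eq]
  exact mul_pos (pow_pos (N_pos h.1) _) (Finset.prod_pos fun i _ => N_pos (h.2.1 i))

theorem xi_rel (hM : S_Mob) (hL : S_Lp) (h : Rel v v' D c) (S : Finset (Fin 6)) :
    xi S v' = xi S v := by
  unfold xi
  rw [cc_rel h, hM.1 v v' D c h]
  split_ifs with h1 h2
  · rw [rP_rel h (lo2 h1.1).1.symm, mul_div_mul_left _ _ (nf_pos h).ne']
  · rw [rT_rel hL h h2.1, mul_div_mul_left _ _ (nf_pos h).ne']
  · rfl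

theorem map_compl (σ : Equiv.Perm (Fin 6)) (S : Finset (Fin 6)) :
    (S.map σ.toEmbedding)ᶜ = Sᶜ.map σ.toEmbedding := by
  ext x
  simp [Finset.mem_map_equiv]

theorem cc_perm (σ : Equiv.Perm (Fin 6)) (S : Finset (Fin 6)) (v : V6) :
    cc S (v ∘ σ) = cc (S.map σ.toEmbedding) v := by
  unfold cc
  simp only [map_compl, Finset.sum_map, Equiv.coe_toEmbedding, Function.comp_apply]

theorem map_pair (σ : Equiv.Perm (Fin 6)) (i j : Fin 6) :
    ({i, j} : Finset (Fin 6)).map σ.toEmbedding = {σ i, σ j} := by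
  simp [Finset.map_insert]

theorem rP_perm (σ : Equiv.Perm (Fin 6)) (v : V6) (i j : Fin 6) :
    rP (v ∘ σ) i j = rP v (σ i) (σ j) := by
  unfold rP rK PiS bet
  rw [← map_pair, map_compl]
  simp only [Finset.sum_map, Finset.prod_map, Equiv.coe_toEmbedding, Function.comp_apply]

theorem rT_perm (σ : Equiv.Perm (Fin 6)) (v : V6) (S : Finset (Fin 6)) (p q : Fin 6) :
    rT (v ∘ σ) S p q = rT v (S.map σ.toEmbedding) (σ p) (σ q) := by
  unfold rT rR Lp bet
  rw [map_compl]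
  simp only [Finset.sum_map, Finset.prod_map, Equiv.coe_toEmbedding, Function.comp_apply]

theorem cc_compl (S : Finset (Fin 6)) (v : V6) : cc Sᶜ v = cc S v := by
  unfold cc
  rw [compl_compl]
  calc _ = ∑ a ∈ Sᶜ, ∑ e ∈ S, ∑ d ∈ S, ∑ b ∈ Sᶜ,
        ‖br (v a) (v b) * br (v e) (v d) / (br (v a) (v e) * br (v b) (v d))‖ := by
        refine Finset.sum_congr rfl fun a _ => ?_
        rw [Finset.sum_comm]
        exact Finset.sum_congr rfl fun e _ => Finset.sum_comm
    _ = ∑ e ∈ S, ∑ d ∈ S, ∑ a ∈ Sᶜ, ∑ b ∈ Sᶜ,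
        ‖br (v a) (v b) * br (v e) (v d) / (br (v a) (v e) * br (v b) (v d))‖ := by
        rw [Finset.sum_comm]
        exact Finset.sum_congr rfl fun e _ => Finset.sum_comm
    _ = _ := by
        refine Finset.sum_congr rfl fun e _ => Finset.sum_congr rfl fun d _ =>
          Finset.sum_congr rfl fun a _ => Finset.sum_congr rfl fun b _ => ?_
        rw [br_swap (v a) (v e), br_swap (v b) (v d), neg_mul_neg, mul_comm (br (v a) (v b))]

theorem xi_pair (hV : S_Vint) (hP : S_RP) (hv : Gen v) {i j : Fin 6} (hij : i ≠ j)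
    (hc : cc {i, j} v < del) : xi {i, j} v * Vh v = rP v i j := by
  have hcard : ({i, j} : Finset (Fin 6)).card = 2 := Finset.card_pair hij
  unfold xi
  rw [if_pos ⟨hcard, hc⟩, div_mul_cancel₀ _ (hV v hv).2.ne']
  obtain ⟨h1, h2⟩ := lo2 hcard
  have h3 : lo ({i, j} : Finset (Fin 6)) ∈ ({i, j} : Finset (Fin 6)) := lo_mem (by omega)
  generalize lo (({i, j} : Finset (Fin 6)).erase (lo {i, j})) = b at h1 h2
  generalize lo ({i, j} : Finset (Fin 6)) = a at h1 h3
  simp only [Finset.mem_insert, Finset.mem_singleton] at h2 h3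
  rcases h3 with rfl | rfl <;> rcases h2 with rfl | rfl
  · exact absurd rfl h1
  · rfl
  · exact ((hP.1 v hv _ _ hij hc).1).symm
  · exact absurd rfl h1

theorem xi_tri (hV : S_Vint) (hT : S_RT) (hv : Gen v) {S : Finset (Fin 6)} {p q : Fin 6}
    (hp : p ∈ S) (hq : q ∉ S) (hS : S.card = 3) (hc : cc S v < del) :
    xi S v * Vh v = rT v S p q := by
  have hcard : (Sᶜ).card = 3 := by rw [Finset.card_compl, hS]; rfl
  unfold xi
  rw [if_neg (fun h => by omega), if_pos ⟨hS, hc⟩, div_mul_cancel₀ _ (hV v hv).2.ne']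
  exact ((hT v hv S hS hc p hp q hq).1 _ (lo_mem (by omega)) _
    (Finset.mem_compl.mp (lo_mem (by omega)))).symm

theorem xi_one {S : Finset (Fin 6)} (h : ¬ ((S.card = 2 ∨ S.card = 3) ∧ cc S v < del)) :
    xi S v = 1 := by
  unfold xi
  rw [if_neg fun h1 => h ⟨Or.inl h1.1, h1.2⟩, if_neg fun h1 => h ⟨Or.inr h1.1, h1.2⟩]

theorem pq {S : Finset (Fin 6)} (hS : S.card = 3) : ∃ p ∈ S, ∃ q, q ∉ S := by
  have hcard : (Sᶜ).card = 3 := by rw [Finset.card_compl, hS]; rfl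
  exact ⟨lo S, lo_mem (by omega), lo Sᶜ, Finset.mem_compl.mp (lo_mem (by omega))⟩

theorem third (i j : Fin 6) : ∃ k : Fin 6, k ≠ i ∧ k ≠ j := by
  revert i j
  decide

end XiP

open XiP in
theorem pXi (hM : S_Mob) (hV : S_Vint) (hP : S_RP) (hT : S_RT) (hL : S_Lp) : S_Xi := by
  intro v hv S
  have hpos := (hV v hv).2
  refine ⟨fun v' D c h => ⟨gen_rel h hv, cc_rel h S, xi_rel hM hL h S⟩,
    fun σ => ⟨cc_perm σ S v, ?_⟩, fun hS => ?_, ?_, ?_,
    fun p hp q hq hS hc => xi_tri hV hT hv hp hq hS hc⟩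
  · have hv' : Gen (v ∘ σ) := fun i j hij => hv _ _ (σ.injective.ne hij)
    by_cases h : (S.card = 2 ∨ S.card = 3) ∧ cc S (v ∘ σ) < del
    · apply mul_right_cancel₀ hpos.ne'
      have hc := h.2
      rw [cc_perm] at hc
      rcases h.1 with h2 | h3
      · obtain ⟨i, j, hij, rfl⟩ := Finset.card_eq_two.mp h2
        rw [map_pair] at hc ⊢
        rw [xi_pair hV hP hv (σ.injective.ne hij) hc, ← rP_perm, ← xi_pair hV hP hv' hij h.2,
          hM.2]
      · obtain ⟨p, hp, q, hq⟩ := pq h3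
        rw [xi_tri hV hT hv (p := σ p) (q := σ q) (Finset.mem_map_of_mem _ hp)
          (by simpa [Finset.mem_map_equiv] using hq) (by rw [Finset.card_map, h3]) hc, ← rT_perm,
          ← xi_tri hV hT hv' hp hq h3 h.2, hM.2]
    · rw [xi_one h, xi_one (by rwa [Finset.card_map, ← cc_perm])]
  · have hcard : (Sᶜ).card = 3 := by rw [Finset.card_compl, hS]; rfl
    by_cases hc : cc S v < del
    · apply mul_right_cancel₀ hpos.ne'
      obtain ⟨p, hp, q, hq⟩ := pq hS
      rw [xi_tri hV hT hv hp hq hS hc, xi_tri hV hT hv (p := q) (q := p) (Finset.mem_compl.mpr hq)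
        (by simpa using hp) hcard (by rwa [cc_compl])]
      exact (hT v hv S hS hc p hp q hq).2.1
    · rw [xi_one fun h => hc h.2, xi_one fun h => hc (by rw [← cc_compl]; exact h.2)]
  · by_cases h : (S.card = 2 ∨ S.card = 3) ∧ cc S v < del
    · refine (mul_pos_iff_of_pos_right hpos).mp ?_
      rcases h.1 with h2 | h3
      · obtain ⟨i, j, hij, rfl⟩ := Finset.card_eq_two.mp h2
        obtain ⟨k, hki, hkj⟩ := third i j
        obtain ⟨C, -, hC⟩ := hP.2
        rw [xi_pair hV hP hv hij h.2]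
        exact (hC v hv i j k hij hki hkj h.2 _ rfl).1
      · obtain ⟨p, hp, q, hq⟩ := pq h3
        rw [xi_tri hV hT hv hp hq h3 h.2]
        exact ((hT v hv S h3 h.2 p hp q hq).2.2.2 _ rfl).1
    · rw [xi_one h]
      exact one_pos
  · rintro i j hij rfl hc
    exact xi_pair hV hP hv hij hc

end Pool.Agent.P.MP_5d7cf0_gt
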