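import Pool.Agent.P.MP_5d7cf0_gt.Glue

/-!
Reduction of the global metric to the local model.
-/

open Set Filter Topology MeasureTheory ComplexConjugate
open scoped ContDiff

namespace Pool.Agent.P.MP_5d7cf0_gt

namespace OutP

open GlueP

theorem hL_conj (α β : C4) : conj (hL α β) = hL β α := by
  simp only [hL, map_add, map_neg, map_mul, Complex.conj_conj]
  ring

theorem hL_sub_sum {κ : Type} (s : Finset κ) (α β : C4) (c : κ → ℂ) (ρ : κ → C4) :
    hL α (β - ∑ i ∈ s, c i • ρ i) = hL α β - ∑ i ∈ s, conj (c i) * hL α (ρ i) := by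
  classical
  induction s using Finset.induction_on generalizing β with
  | empty => simp
  | insert a s ha ih =>
    rw [Finset.sum_insert ha, Finset.sum_insert ha, ← sub_sub, ih]
    simp only [hL, Pi.sub_apply, Pi.smul_apply, smul_eq_mul, map_sub, map_mul]
    ring

theorem red {A : Type} [AddCommMonoid A] (p : Fin 3 → Prop) [DecidablePred p]
    (F : Finset (Fin 6) → A) (G : Option {i // p i} → A)
    (h0 : ∀ S, (∀ i, S ≠ sp i) → S ≠ {3, 4, 5} → F S = 0)
    (h1 : ∀ i, ¬ p i → F (sp (some i)) = 0) (h2 : ∀ i : {i // p i}, F (sp (some i)) = G (some i))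
    (h3 : F (sp none) + F {3, 4, 5} = G none) : ∑ S, F S = ∑ o, G o := by
  have e1 : ∑ S, F S = ∑ S ∈ ({sp none, {3, 4, 5}, sp (some 0), sp (some 1), sp (some 2)} :
      Finset (Finset (Fin 6))), F S := by
    refine (Finset.sum_subset (Finset.subset_univ _) fun S _ hS => ?_).symm
    simp only [Finset.mem_insert, Finset.mem_singleton, not_or] at hS
    refine h0 S (fun i => ?_) hS.2.1
    rcases i with _ | i
    · exact hS.1
    · fin_cases i
      exacts [hS.2.2.1, hS.2.2.2.1, hS.2.2.2.2]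
  have e2 : ∑ i : {i // p i}, G (some i) = ∑ i, F (sp (some i)) := by
    rw [← Finset.sum_congr rfl fun i _ => h2 i,
      ← Finset.sum_subtype (Finset.univ.filter p) (by simp) fun i => F (sp (some i))]
    exact Finset.sum_filter_of_ne fun i _ hi => by_contra fun h => hi (h1 i h)
  rw [e1, Fintype.sum_option, e2, ← h3, Fin.sum_univ_three, Finset.sum_insert (by decide),
    Finset.sum_insert (by decide), Finset.sum_insert (by decide), Finset.sum_insert (by decide),
    Finset.sum_singleton]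
  abel

theorem zs (B : E →L[ℝ] E →L[ℝ] ℝ) : (0 : ℝ) • B = 0 := by
  ext a b
  simp

theorem hs2 (t : ℝ) (B : E →L[ℝ] E →L[ℝ] ℝ) : (t / 2) • B + (t / 2) • B = t • B := by
  ext a b
  simp only [add_apply, smul_apply, smul_eq_mul]
  ring

theorem riem_congr {g g' : Met} {x : E} (h : g =ᶠ[𝓝 x] g') (u v w : E) :
    riem g x u v w = riem g' x u v w := by
  have h1 : ∀ᶠ y in 𝓝 x, chr g y = chr g' y := by
    filter_upwards [h, h.fderiv (𝕜 := ℝ)] with y h2 h3
    funext a b
    simp only [chr, kos, h2, h3]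
  have h2 : ∀ a b, (fun y => chr g y a b) =ᶠ[𝓝 x] fun y => chr g' y a b := fun a b => by
    filter_upwards [h1] with y hy
    rw [hy]
  simp only [riem, (h2 _ _).fderiv_eq, h1.self_of_nhds]

theorem wt_cont {x : E} (hx : x ∈ FF) (i : Option (Fin 3)) : ContinuousAt (wt i) x := by
  have h1 : ‖x 0‖ < 2 * ‖x 1‖ := hx.2.1
  have h2 : ‖x 1‖ < 2 * ‖x 2‖ := hx.2.2.1
  have h3 : x 1 ≠ 0 := norm_pos_iff.mp (by linarith [norm_nonneg (x 0)])
  have h4 : x 2 ≠ 0 := norm_pos_iff.mp (by linarith [norm_nonneg (x 1)])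
  rcases i with _ | i
  · exact ((continuous_apply 1).continuousAt.div (continuous_apply 2).continuousAt h4).norm
  · fin_cases i
    · exact ((continuous_apply 0).continuousAt.div (continuous_apply 1).continuousAt h3).norm
    · exact (continuousAt_const.sub
        ((continuous_apply 1).continuousAt.div (continuous_apply 2).continuousAt h4)).norm
    · exact (continuous_apply 2).continuousAt.norm

variable {V : E → ℝ} {ξ : Finset (Fin 6) → E → ℝ} {C η : ℝ} {m ψ M : ℝ → ℝ} {l1 p1 ps K : ℝ}
  {q : E → ℝ} {c1 c2 : ℝ}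

theorem off (h : All V ξ C η m ψ M l1 p1 ps K q c1 c2) {S : Finset (Fin 6)} {t : ℝ}
    (h2 : S.card = 2 → l1 < t) (h3 : S.card = 3 → p1 < t) :
    prof m M S t = 0 ∧ deriv (prof m M S) t = 0 ∧ (if S.card = 2 then ψ t else 0) = 0 := by
  unfold prof
  split_ifs with a b
  · exact ⟨h.pk.zero _ (h2 a).le, deriv_zero h.pk.zero (h2 a), h.pk.ψzero _ (h2 a).le⟩
  · exact ⟨by simp only [h.pj.zero _ (h3 b).le, zero_div],
      deriv_zero (fun l hl => by rw [h.pj.zero l hl, zero_div]) (h3 b), rfl⟩
  · exact ⟨rfl, deriv_const _ _, rfl⟩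

theorem cusp0 (h : ProfJ M p1 ps K) : CuspNum K 0 0 0 0 := by
  have h0 := h.num (p1 + 1) (by linarith [h.lt])
  have h1 : ∀ l, p1 + 1 / 3 ≤ l → deriv M l = 0 := fun l hl => deriv_zero h.zero (by linarith)
  have h2 : ∀ l, p1 + 2 / 3 ≤ l → deriv (deriv M) l = 0 := fun l hl => deriv_zero h1 (by linarith)
  rwa [h.zero _ (by linarith), h1 _ (by linarith), h2 _ (by linarith),
    deriv_zero h2 (by linarith)] at h0

/-- the local model at a point of `FF` -/
theorem model (hN : S_NF) (hS : S_Sm) (hL' : S_Loc) (hI : S_IneqA)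
    (h : All V ξ C η m ψ M l1 p1 ps K q c1 c2) {x : E} (hx : x ∈ FF) :
    ∃ P : Pw (Option {i : Fin 3 // wt (some i) x < η}), P.Good K ∧
      (∀ a b, met V ξ m M q x a b = (P.H a b).re) ∧
      (∀ a b, met V ξ m M q x (riem (met V ξ m M q) x a b b) a = -P.S a b) ∧
      P.y * V x = Real.exp (q x) ∧ Real.exp (q x) = 1 + ∑ o, P.m0 o ∧
      ‖P.W‖ ^ 6 * (‖x 0‖ ^ 4 * ‖x 1‖ ^ 8 * ‖x 2‖ ^ 12 * wt (some 1) x ^ 4) ≤ C ∧
      (∀ i, P.x (some i) = Real.exp (Lg ξ q (sp (some i)) x) ∧
        P.m1 (some i) = deriv m (Lg ξ q (sp (some i)) x)) ∧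
      ∀ a, Real.exp (q x) * fderiv ℝ q x a = ∑ o, P.m1 o * (2 * (P.eps o a).re) ∧
        fderiv ℝ (psi ξ q ψ) x a = fderiv ℝ q x a +
          ∑ i : {i : Fin 3 // wt (some i) x < η},
            deriv ψ (Lg ξ q (sp (some i)) x) * (2 * (P.eps (some i) a).re) := by
  obtain ⟨Z, ρ, z1, z2, z3, z4, z5, z6, z7⟩ := h.data.rep x hx
  obtain ⟨z7, z8⟩ := z7 _ rfl
  have hs := hS _ _ _ _ _ _ _ _ _ _ _ _ _ _ h x hx
  have hV := h.data.posV x hx.1
  set κ := {i : Fin 3 // wt (some i) x < η}
  let n : C4 := if wt none x < η then ρ none else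
    Z x - ∑ i : κ, hL (Z x) (ρ (some i)) • ρ (some i)
  let ρ' : Option κ → C4 := fun o => o.elim n fun i => ρ (some i)
  let L' : Option κ → E → ℝ := fun o y =>
    q y + Real.log (‖hL (Z y) (ρ' o)‖ ^ 2) - Real.log (V y)
  let μ' : Option κ → ℝ → ℝ := fun o => o.elim (if wt none x < η then M else fun _ => 0) fun _ => m
  have hF := hN.1.mem_nhds hx
  have key : ∀ i β, (∀ᶠ y in 𝓝 x, ξ (sp i) y * V y = ‖hL (Z y) β‖ ^ 2) → hL (Z x) β ≠ 0 ∧
      ∀ᶠ y in 𝓝 x, Lg ξ q (sp i) y = q y + Real.log (‖hL (Z y) β‖ ^ 2) - Real.log (V y) := by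
    intro i β e
    refine ⟨fun h0 => ?_, ?_⟩
    · have := e.self_of_nhds
      rw [h0, norm_zero] at this
      nlinarith [mul_pos (h.data.posξ (sp i) x hx.1) hV]
    · filter_upwards [e, hF] with y h1 h2
      rw [← h1, Real.log_mul (h.data.posξ _ y h2.1).ne' (h.data.posV y h2.1).ne', Lg]
      ring
  have e1 : ∀ i : κ, Lg ξ q (sp (some i)) =ᶠ[𝓝 x] L' (some i) := fun i =>
    (key _ _ (z3 _ i.2)).2
  have e2 : wt none x < η → Lg ξ q (sp none) =ᶠ[𝓝 x] L' none := fun hc => by
    filter_upwards [(key _ _ (z3 _ hc)).2] with y hy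
    simpa only [L', ρ', n, Option.elim, if_pos hc] using hy
  have e3 : Lg ξ q {3, 4, 5} =ᶠ[𝓝 x] Lg ξ q (sp none) := by
    filter_upwards [hF] with y hy
    simp only [Lg, h.data.compl y hy.1]
    rfl
  have f1 : ∀ i, ¬ wt i x < η → ∀ᶠ y in 𝓝 x, η / 2 ≤ wt i y := fun i hi =>
    ((wt_cont hx i).eventually (lt_mem_nhds (by linarith [h.data.ηpos] : η / 2 < wt i x))).mono
      fun _ => le_of_lt
  have f2 : ∀ᶠ y in 𝓝 x, ∀ i, ¬ wt i x < η → η / 2 ≤ wt i y :=
    eventually_all.mpr fun i => by
      by_cases hi : wt i x < η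
      · exact Eventually.of_forall fun _ h => absurd hi h
      · exact (f1 i hi).mono fun _ h _ => h
  have hM : ∀ y ∈ FF, deriv (fun p => M p / 2) (Lg ξ q (sp none) y) =
      deriv M (Lg ξ q (sp none) y) / 2 := fun y _ => deriv_div_const _
  have sums : ∀ᶠ y in 𝓝 x, ∑ S, prof m M S (Lg ξ q S y) = ∑ o, μ' o (L' o y) ∧
      ∑ S, deriv (prof m M S) (Lg ξ q S y) • sqd (Lg ξ q S) y =
        ∑ o, deriv (μ' o) (L' o y) • sqd (L' o) y ∧
      ∑ S : Finset (Fin 6), (if S.card = 2 then ψ (Lg ξ q S y) else 0) =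
        ∑ i : κ, ψ (Lg ξ q (sp (some i)) y) := by
    have e2' : ∀ᶠ y in 𝓝 x, wt none x < η → Lg ξ q (sp none) =ᶠ[𝓝 y] L' none := by
      by_cases hc : wt none x < η
      · exact (e2 hc).eventuallyEq_nhds.mono fun _ h _ => h
      · exact Eventually.of_forall fun _ h => absurd h hc
    filter_upwards [hF, f2, eventually_all.mpr fun i => (e1 i).eventuallyEq_nhds, e2',
      e3.eventuallyEq_nhds] with y hy g2 g1 g0 g3
    have a0 : ∀ S, (∀ i, S ≠ sp i) → S ≠ {3, 4, 5} → _ := fun S b1 b2 =>
      off h (S := S) (t := Lg ξ q S y)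
        (fun _ => by
          rw [Lg, h.data.off y hy S b1 b2, Real.log_one]
          linarith [h.col.l1lt, h.sol.low y hy.1])
        (fun _ => by
          rw [Lg, h.data.off y hy S b1 b2, Real.log_one]
          linarith [h.col.p1lt, h.sol.low y hy.1])
    have a1 : ∀ i, ¬ wt (some i) x < η → _ := fun i hi =>
      off h (S := sp (some i)) (t := Lg ξ q (sp (some i)) y)
        (fun _ => h.col.root y hy i (g2 _ hi)) (fun b => by fin_cases i <;> exact absurd b (by decide))
    have a2 : ∀ i, prof m M (sp (some i)) = m := fun i => if_pos (by fin_cases i <;> rfl)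
    have a3 : prof m M (sp none) = fun p => M p / 2 := rfl
    have a4 : prof m M {3, 4, 5} = fun p => M p / 2 := rfl
    have a5 : ¬ wt none x < η → _ := fun hc =>
      off h (S := sp none) (t := Lg ξ q (sp none) y) (fun b => absurd b (by decide))
        fun _ => h.col.cusp y hy (g2 _ hc)
    refine ⟨red _ _ _ (fun S b1 b2 => (a0 S b1 b2).1) (fun i hi => (a1 i hi).1) (fun i => ?_) ?_,
      red _ _ _ (fun S b1 b2 => by rw [(a0 S b1 b2).2.1, zs])
        (fun i hi => by rw [(a1 i hi).2.1, zs]) (fun i => ?_) ?_, ?_⟩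
    · rw [a2, (g1 i).self_of_nhds]; rfl
    · rw [g3.self_of_nhds, a4, ← a3]
      by_cases hc : wt none x < η
      · simp only [μ', Option.elim, if_pos hc, a3, (g0 hc).self_of_nhds]
        ring
      · simp only [μ', Option.elim, if_neg hc, (a5 hc).1, add_zero]
    · simp only [a2, sqd, (g1 i).self_of_nhds, (g1 i).fderiv_eq]; rfl
    · simp only [sqd, g3.self_of_nhds, g3.fderiv_eq, a4]
      by_cases hc : wt none x < η
      · rw [a3, hM y hy, hs2]
        simp only [μ', Option.elim, if_pos hc, (g0 hc).self_of_nhds, (g0 hc).fderiv_eq]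
      · rw [← a3, (a5 hc).2.1]
        simp only [μ', Option.elim, if_neg hc, deriv_const, zs]
        ext a b
        simp
    · rw [red (fun i => wt (some i) x < η) _
        (fun o => o.elim 0 fun i => ψ (Lg ξ q (sp (some i)) y))
        (fun S b1 b2 => (a0 S b1 b2).2.2) (fun i hi => (a1 i hi).2.2)
        (fun i => if_pos (by obtain ⟨i, -⟩ := i; fin_cases i <;> rfl)) (by simp [sp]),
        Fintype.sum_option]
      exact zero_add _
  have eg : met V ξ m M q =ᶠ[𝓝 x] GG (fun y => Real.log (V y)) q L' μ' := by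
    filter_upwards [sums] with y hy
    simp only [met, GG, hy.2.1]
  have lev : ∀ᶠ y in 𝓝 x, Real.exp (q y) = 1 + ∑ o, μ' o (L' o y) := by
    filter_upwards [sums, hF] with y hy h2
    rw [h.sol.eq y h2.1, hy.1]
  have o1 : ∀ i j : κ, i ≠ j → hL (ρ (some i)) (ρ (some j)) = 0 := fun i j hij =>
    z4 _ _ (fun e => hij (Subtype.ext (Option.some.inj e))) i.2 j.2
  have o2 : ∀ j : κ, hL (ρ (some j)) n = 0 := fun j => by
    by_cases hc : wt none x < η
    · simp only [n, if_pos hc]
      exact z4 _ _ (by simp) j.2 hc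
    · simp only [n, if_neg hc]
      rw [hL_sub_sum, Finset.sum_eq_single j (fun i _ hi => by rw [o1 j i hi.symm, mul_zero])
        (by simp), z5, hL_conj, mul_one, sub_self]
  have o3 : ¬ wt none x < η → (hL (Z x) n).re < 0 ∧ hL n n = hL (Z x) n := fun hc => by
    constructor
    · simp only [n, if_neg hc]
      rw [hL_sub_sum, Complex.sub_re, Complex.re_sum]
      have := z2.self_of_nhds
      have h2 : 0 ≤ ∑ i : κ, (conj (hL (Z x) (ρ (some i))) * hL (Z x) (ρ (some i))).re :=
        Finset.sum_nonneg fun i _ => by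
          rw [← Complex.normSq_eq_conj_mul_self, Complex.ofReal_re]
          exact Complex.normSq_nonneg _
      linarith
    · rw [← hL_conj n n, ← hL_conj n (Z x)]
      congr 1
      conv_lhs => rw [show hL n n = hL n (Z x - ∑ i : κ, hL (Z x) (ρ (some i)) • ρ (some i)) by
        congr 1; exact if_neg hc]
      rw [hL_sub_sum, Finset.sum_eq_zero fun i _ => by
        rw [← hL_conj (ρ (some i)) n, o2, map_zero, mul_zero], sub_zero]
  have hne : ∀ o, hL (Z x) (ρ' o) ≠ 0 := fun o => by
    rcases o with _ | i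
    · by_cases hc : wt none x < η
      · simpa only [ρ', n, Option.elim, if_pos hc] using (key _ _ (z3 _ hc)).1
      · intro h0
        have := (o3 hc).1
        rw [show hL (Z x) n = 0 from h0] at this
        simp at this
    · exact (key _ _ (z3 _ i.2)).1
  set P := pw Z ρ' (fun y => Real.log (V y)) q L' μ' x with hP
  have py : P.y * V x = Real.exp (q x) := by
    change Real.exp (q x - Real.log (V x)) * V x = _
    rw [Real.exp_sub, Real.exp_log hV, div_mul_cancel₀ _ hV.ne']
  have px : ∀ o, P.x o = Real.exp (L' o x) := fun o => by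
    change Real.exp (q x - Real.log (V x)) * ‖hL (Z x) (ρ' o)‖ ^ 2 = _
    rw [← Real.exp_log (pow_pos (norm_pos_iff.mpr (hne o)) 2), ← Real.exp_add]
    congr 1
    simp only [L']
    ring
  have root : ∀ i : κ, RootNum K (P.x (some i)) (P.m0 (some i)) (P.m1 (some i)) (P.m2 (some i))
      (P.m3 (some i)) := fun i => by
    rw [px]
    exact h.pk.num _
  have unit : ∀ i : κ, P.eta (some i) = 1 := fun i => by
    change (hL (ρ (some i)) (ρ (some i))).re = 1
    rw [z5, Complex.one_re]
  have hps : wt none x < η → ps < L' none x := fun hc =>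
    (e2 hc).self_of_nhds ▸ h.sol.dom x hx.1 _ rfl
  have zer : ¬ wt none x < η → P.m0 none = 0 ∧ P.m1 none = 0 ∧ P.m2 none = 0 ∧ P.m3 none = 0 :=
    fun hc => by simp [P, pw, μ', if_neg hc]
  have cusp : CuspNum K (P.m0 none) (P.m1 none) (P.m2 none) (P.m3 none) := by
    by_cases hc : wt none x < η
    · simpa only [P, pw, μ', Option.elim, if_pos hc] using h.pj.num _ (hps hc)
    · obtain ⟨b0, b1, b2, b3⟩ := zer hc
      rw [b0, b1, b2, b3]
      exact cusp0 h.pj
  have iso : P.eta none = 0 ∨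
      (P.eta none ≤ 0 ∧ P.m0 none = 0 ∧ P.m1 none = 0 ∧ P.m2 none = 0 ∧ P.m3 none = 0) := by
    by_cases hc : wt none x < η
    · left
      change (hL n n).re = 0
      simp only [n, if_pos hc, z6, Complex.zero_re]
    · refine Or.inr ⟨?_, zer hc⟩
      change (hL n n).re ≤ 0
      rw [(o3 hc).2]
      exact (o3 hc).1.le
  have card : Fintype.card κ ≤ 3 := (Fintype.card_subtype_le _).trans (by simp)
  have ok : P.Ok := by
    refine ⟨Real.exp_pos _, ?_, ?_, fun i j hij => ?_, hne, ?_, fun o => ?_, fun μ a e => ?_⟩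
    · exact (congrArg (P.y * ·) z2.self_of_nhds).symm.trans (py.trans lev.self_of_nhds)
    · have := z2.self_of_nhds
      change (hL (Z x) (Z x)).re < 0
      linarith
    · rcases i with _ | i <;> rcases j with _ | j
      · exact absurd rfl hij
      · change hL n (ρ (some j)) = 0
        rw [← hL_conj, o2, map_zero]
      · exact o2 i
      · exact o1 i j fun e => hij (congrArg some e)
    · rw [Pw.s, Fintype.sum_option]
      have := Finset.card_nsmul_le_sum Finset.univ (fun i : κ => P.m0 (some i) - P.m1 (some i))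
        (-(2 / 1000)) fun i _ => by linarith [(abs_le.mp (root i).h3).1, (root i).h2]
      rw [nsmul_eq_mul, Finset.card_univ] at this
      have h3 : (Fintype.card κ : ℝ) ≤ 3 := by exact_mod_cast card
      nlinarith [cusp.h1, cusp.h2]
    · have := Real.exp_pos (L' o x)
      rw [Pw.D, px]
      rcases o with _ | i
      · rcases iso with b | b
        · rw [b]; linarith
        · rw [b.2.2.1]; linarith
      · rw [unit]; linarith [(root i).h1]
    · have e' : a = a 0 • Pi.single 0 1 + a 1 • Pi.single 1 1 + a 2 • Pi.single 2 1 := by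
        funext k
        fin_cases k <;> simp
      have := Matrix.eq_zero_of_vecMul_eq_zero z7 (v := ![μ, a 0, a 1, a 2]) (by
        rw [← e, e']
        funext k
        simp [Matrix.vecMul, dotProduct, Fin.sum_univ_four, P, pw]
        ring)
      refine ⟨congrFun this 0, funext fun k => ?_⟩
      fin_cases k
      exacts [congrFun this 1, congrFun this 2, congrFun this 3]
  have good : P.Good K := ⟨ok, card, unit, root, cusp, iso⟩
  obtain ⟨r1, r2, r3, r4⟩ := hL' _ Z ρ' (fun y => Real.log (V y)) q L' μ' x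
    ⟨z1, z2.mono fun y hy => by rw [hy], fun _ => Eventually.of_forall fun _ => rfl, hs.hq,
      fun o => by
        rcases o with _ | i
        · by_cases hc : wt none x < η
          · simpa only [μ', Option.elim, if_pos hc] using
              h.pj.sm.contDiffAt (Ioi_mem_nhds (hps hc))
          · simpa only [μ', Option.elim, if_neg hc] using contDiffAt_const
        · exact h.pk.sm.contDiffAt,
      lev, ok⟩ P rfl
  refine ⟨P, good, fun a b => by rw [eg.self_of_nhds, r1], fun a b => ?_, py, lev.self_of_nhds, z8,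
    fun i => ⟨by rw [px, (e1 i).self_of_nhds], by rw [(e1 i).self_of_nhds]; rfl⟩,
    fun a => ⟨r3 a, ?_⟩⟩
  · rw [riem_congr eg, eg.self_of_nhds]
    exact r4 (fun a => (hI _ P K good a).1) a b
  · have dL : ∀ i : κ, DifferentiableAt ℝ (Lg ξ q (sp (some i))) x := fun i => by
      have dZ : DifferentiableAt ℝ Z x := (z1.restrict_scalars ℝ).differentiableAt (by simp)
      have d1 : DifferentiableAt ℝ (fun y => hL (Z y) (ρ (some i))) x := by
        have := differentiableAt_pi.mp dZ
        unfold hL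
        fun_prop
      refine DifferentiableAt.congr_of_eventuallyEq ?_ (e1 i)
      exact ((hs.hq.differentiableAt (by simp)).add ((d1.norm_sq ℂ).log
        (pow_ne_zero 2 (norm_ne_zero_iff.mpr (hne (some i)))))).sub
        (hs.hV.differentiableAt (by simp))
    have ep : psi ξ q ψ =ᶠ[𝓝 x] fun y => q y + ∑ i : κ, ψ (Lg ξ q (sp (some i)) y) := by
      filter_upwards [sums] with y hy
      rw [psi, hy.2.2]
    have hd := (hs.hq.differentiableAt (by simp)).hasFDerivAt.add
      (HasFDerivAt.fun_sum (u := Finset.univ) fun (i : κ) _ =>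
        (h.pk.dψ _).hasDerivAt.comp_hasFDerivAt x (dL i).hasFDerivAt)
    rw [ep.fderiv_eq]
    refine (DFunLike.congr_fun hd.fderiv a).trans ?_
    simp only [add_apply, sum_apply, smul_apply, smul_eq_mul,
      (e1 _).fderiv_eq, r2]
    rfl

end OutP

end Pool.Agent.P.MP_5d7cf0_gt
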