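import Pool.Agent.P.MP_5d7cf0_gt.St

/-! The profile at the cusps. -/

open Set Filter Topology
open scoped ContDiff

noncomputable section

namespace Pool.Agent.P.MP_5d7cf0_gt

namespace ProfJP

def a0 (s : ℝ) : ℝ := (s ^ 3 + s ^ 2 + s) / 3 - 1
def a1 (s : ℝ) : ℝ := (s ^ 3 + s ^ 2 + s) / 3 - s ^ 4
def a2 (s : ℝ) : ℝ := (s ^ 3 + s ^ 2 + s) / 3 - 5 * s ^ 4 + 4 * s ^ 5
def a3 (s : ℝ) : ℝ := (s ^ 3 + s ^ 2 + s) / 3 - 21 * s ^ 4 + 40 * s ^ 5 - 20 * s ^ 6

def sg (ps p : ℝ) : ℝ := (1 - Real.exp (ps - p))⁻¹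

theorem den_pos {ps p : ℝ} (h : ps < p) : 0 < 1 - Real.exp (ps - p) := by
  have := Real.exp_lt_one_iff.2 (sub_neg.2 h)
  linarith

theorem one_le_sg {ps p : ℝ} (h : ps < p) : 1 ≤ sg ps p :=
  (one_le_inv₀ (den_pos h)).2 (by linarith [Real.exp_pos (ps - p)])

theorem sg_der {ps p : ℝ} (h : ps < p) : HasDerivAt (sg ps) (sg ps p - sg ps p ^ 2) p := by
  have h1 : HasDerivAt (fun p => 1 - Real.exp (ps - p)) (Real.exp (ps - p)) p := by
    have := (((hasDerivAt_id p).const_sub ps).exp).const_sub 1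
    simpa using this
  have h2 := den_pos h
  refine (h1.fun_inv h2.ne').congr_deriv ?_
  unfold sg
  field_simp
  ring

theorem a0_der {ps p : ℝ} (h : ps < p) : HasDerivAt (fun p => a0 (sg ps p)) (a1 (sg ps p)) p := by
  have h1 := sg_der h
  refine (((((h1.fun_pow 3).fun_add (h1.fun_pow 2)).fun_add h1).div_const 3).sub_const
    1).congr_deriv ?_
  simp only [a1]
  push_cast
  ring

theorem a1_der {ps p : ℝ} (h : ps < p) : HasDerivAt (fun p => a1 (sg ps p)) (a2 (sg ps p)) p := by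
  have h1 := sg_der h
  refine (((((h1.fun_pow 3).fun_add (h1.fun_pow 2)).fun_add h1).div_const 3).fun_sub
    (h1.fun_pow 4)).congr_deriv ?_
  simp only [a2]
  push_cast
  ring

theorem a2_der {ps p : ℝ} (h : ps < p) : HasDerivAt (fun p => a2 (sg ps p)) (a3 (sg ps p)) p := by
  have h1 := sg_der h
  refine ((((((h1.fun_pow 3).fun_add (h1.fun_pow 2)).fun_add h1).div_const 3).fun_sub
    ((h1.fun_pow 4).const_mul 5)).fun_add ((h1.fun_pow 5).const_mul 4)).congr_deriv ?_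
  simp only [a3]
  push_cast
  ring

theorem a0_nonneg {s : ℝ} (h : 1 ≤ s) : 0 ≤ a0 s := by
  have h2 : 1 ≤ s ^ 2 := one_le_pow₀ h
  have h3 : 1 ≤ s ^ 3 := one_le_pow₀ h
  unfold a0
  linarith

theorem a1_nonpos {s : ℝ} (h : 1 ≤ s) : a1 s ≤ 0 := by
  have h1 : s ^ 1 ≤ s ^ 4 := pow_le_pow_right₀ h (by norm_num)
  have h2 : s ^ 2 ≤ s ^ 4 := pow_le_pow_right₀ h (by norm_num)
  have h3 : s ^ 3 ≤ s ^ 4 := pow_le_pow_right₀ h (by norm_num)
  unfold a1
  linarith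

theorem num_pure {K s : ℝ} (hK : 20 ≤ K) (h : 1 ≤ s) : CuspNum K (a0 s) (a1 s) (a2 s) (a3 s) := by
  have e0 : 1 + a0 s - a1 s = s ^ 4 := by unfold a0 a1; ring
  have e1 : a1 s - a2 s = -(4 * s ^ 4 * (s - 1)) := by unfold a1 a2; ring
  have e2 : a2 s - a3 s - (a1 s - a2 s) = 4 * s ^ 4 * ((s - 1) * (5 * s - 3)) := by
    unfold a1 a2 a3; ring
  have hs : 0 < s := by linarith
  have h4 : 1 ≤ s ^ 4 := one_le_pow₀ h
  have hp : ∀ a b : ℕ, a ≤ b → s ^ a ≤ s ^ b := fun a b hab => pow_le_pow_right₀ h hab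
  have hK' : ∀ n : ℕ, 20 * s ^ n ≤ K * s ^ n := fun n =>
    mul_le_mul_of_nonneg_right hK (by positivity)
  have hA : s ^ 3 / 3 ≤ 1 + a0 s := by
    unfold a0
    nlinarith
  have hB : 1 + a0 s ≤ s ^ 3 := by
    have := hp 1 3 (by norm_num)
    have := hp 2 3 (by norm_num)
    unfold a0
    linarith
  refine ⟨a0_nonneg h, a1_nonpos h, ?_, ?_, ?_, ?_, ?_, ?_⟩
  · rw [e0, e1]
    nlinarith
  · rw [e2, e0, e1]
    have : 5 / 4 * (s ^ 4 - -(4 * s ^ 4 * (s - 1))) ^ 2 -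
        4 * s ^ 4 * ((s - 1) * (5 * s - 3)) * s ^ 4 = s ^ 8 * (2 * s - 3 / 4) := by ring
    have h8 : 0 ≤ s ^ 8 * (2 * s - 3 / 4) := mul_nonneg (by positivity) (by linarith)
    linarith
  · rw [e2, e0, abs_of_nonneg (mul_nonneg (by positivity) (mul_nonneg (by linarith) (by linarith))),
      show (s ^ 4) ^ 2 = s ^ 8 by ring]
    have h1 : (s - 1) * (5 * s - 3) ≤ 5 * s ^ 2 := by nlinarith
    have h2 := mul_le_mul_of_nonneg_left h1 (show 0 ≤ 4 * s ^ 4 by positivity)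
    have h3 := hp 6 8 (by norm_num)
    have h5 := hK' 8
    nlinarith
  · rw [e1, e0, show (s ^ 4) ^ 3 = s ^ 12 by ring]
    have h1 : (s - 1) ^ 2 ≤ s ^ 2 := by nlinarith
    have h2 := mul_le_mul_of_nonneg_left h1 (show 0 ≤ 16 * s ^ 8 by positivity)
    have h3 := hp 10 12 (by norm_num)
    have h5 := hK' 12
    have h6 : 0 ≤ s ^ 12 := by positivity
    nlinarith
  · rw [e0, show (s ^ 4) ^ 3 = s ^ 12 by ring]
    have h1 := pow_le_pow_left₀ (by linarith [a0_nonneg h]) hB 4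
    rw [show (s ^ 3) ^ 4 = s ^ 12 by ring] at h1
    have h5 := hK' 12
    have h6 : 0 ≤ s ^ 12 := by positivity
    linarith
  · rw [e0]
    have h1 : a1 s ^ 2 ≤ (s ^ 4) ^ 2 := by
      have := a0_nonneg h
      have := a1_nonpos h
      nlinarith
    have h2 := pow_le_pow_left₀ (by positivity) hA 2
    have h3 : 20 * (s ^ 3 / 3) ^ 2 * s ^ 4 ≤ K * (1 + a0 s) ^ 2 * s ^ 4 :=
      mul_le_mul_of_nonneg_right (mul_le_mul hK h2 (by positivity) (by linarith)) (by positivity)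
    have h5 := hp 8 10 (by norm_num)
    have h6 : 0 ≤ s ^ 10 := by positivity
    nlinarith

theorem num_small {K m0 m1 m2 m3 : ℝ} (hK : 20 ≤ K) (h0 : 0 ≤ m0) (h1 : m1 ≤ 0)
    (b0 : |m0| ≤ 1 / 100) (b1 : |m1| ≤ 1 / 100) (b2 : |m2| ≤ 1 / 100) (b3 : |m3| ≤ 1 / 100) :
    CuspNum K m0 m1 m2 m3 := by
  obtain ⟨-, b0⟩ := abs_le.1 b0
  obtain ⟨b1, -⟩ := abs_le.1 b1
  obtain ⟨b2, b2'⟩ := abs_le.1 b2
  obtain ⟨b3, b3'⟩ := abs_le.1 b3
  have hu : 1 ≤ 1 + m0 - m1 := by linarith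
  have hK' : ∀ n : ℕ, 20 ≤ K * (1 + m0 - m1) ^ n := fun n =>
    hK.trans (le_mul_of_one_le_right (by linarith) (one_le_pow₀ hu))
  refine ⟨h0, h1, by linarith, by nlinarith, ?_, ?_, ?_, ?_⟩
  · exact le_trans (abs_le.2 ⟨by linarith, by linarith⟩) (hK' 2)
  · exact le_trans (by nlinarith) (hK' 3)
  · refine le_trans ?_ (hK' 3)
    have := pow_le_pow_left₀ (by linarith) (show 1 + m0 ≤ 2 by linarith) 4
    linarith
  · have h2 : 1 ≤ (1 + m0) ^ 2 := one_le_pow₀ (by linarith)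
    have h3 : 20 * 1 * 1 ≤ K * (1 + m0) ^ 2 * (1 + m0 - m1) :=
      mul_le_mul (mul_le_mul hK h2 zero_le_one (by linarith)) hu zero_le_one (by positivity)
    nlinarith

theorem der_on {a : ℝ} {f g h : ℝ → ℝ} (hf : ∀ p, a < p → HasDerivAt f (g p) p)
    (hh : ∀ p, a < p → h p = f p) (p : ℝ) (hp : a < p) : deriv h p = g p := by
  have : h =ᶠ[𝓝 p] f := (eventually_gt_nhds hp).mono hh
  rw [this.deriv_eq, (hf p hp).deriv]

/-- The cut off function and its derivatives. -/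
theorem exists_cut (p1 : ℝ) : ∃ (c0 c1 c2 c3 : ℝ → ℝ) (B : ℝ), ContDiff ℝ ∞ c0 ∧
    (∀ p, HasDerivAt c0 (c1 p) p ∧ HasDerivAt c1 (c2 p) p ∧ HasDerivAt c2 (c3 p) p) ∧
    (∀ p, 0 ≤ c0 p ∧ c1 p ≤ 0) ∧ (∀ p, p1 ≤ p → c0 p = 0) ∧
    (∀ p, p < p1 - 1 → c0 p = 1 ∧ c1 p = 0 ∧ c2 p = 0 ∧ c3 p = 0) ∧ 0 < B ∧
    ∀ p, p1 - 1 ≤ p → |c0 p| ≤ B ∧ |c1 p| ≤ B ∧ |c2 p| ≤ B ∧ |c3 p| ≤ B := by
  let c : ℝ → ℝ := fun p => Real.smoothTransition (p1 - p)
  have s0 : ContDiff ℝ ∞ c := Real.smoothTransition.contDiff.comp (contDiff_const.sub contDiff_id)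
  have s1 : ContDiff ℝ ∞ (deriv c) := (contDiff_infty_iff_deriv.1 s0).2
  have s2 : ContDiff ℝ ∞ (deriv (deriv c)) := (contDiff_infty_iff_deriv.1 s1).2
  have s3 : ContDiff ℝ ∞ (deriv (deriv (deriv c))) := (contDiff_infty_iff_deriv.1 s2).2
  have loc : ∀ (p a : ℝ), (c =ᶠ[𝓝 p] fun _ => a) →
      deriv c p = 0 ∧ deriv (deriv c) p = 0 ∧ deriv (deriv (deriv c)) p = 0 := by
    intro p a h
    have h1 : deriv c =ᶠ[𝓝 p] fun _ => 0 := h.deriv.trans (Eventually.of_forall fun x => by simp)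
    have h2 : deriv (deriv c) =ᶠ[𝓝 p] fun _ => 0 :=
      h1.deriv.trans (Eventually.of_forall fun x => by simp)
    have h3 : deriv (deriv (deriv c)) =ᶠ[𝓝 p] fun _ => 0 :=
      h2.deriv.trans (Eventually.of_forall fun x => by simp)
    exact ⟨h1.eq_of_nhds, h2.eq_of_nhds, h3.eq_of_nhds⟩
  have z0 : ∀ p, p1 ≤ p → c p = 0 := fun p hp => Real.smoothTransition.zero_of_nonpos (by linarith)
  have o0 : ∀ p, p < p1 - 1 → c p = 1 := fun p hp =>
    Real.smoothTransition.one_of_one_le (by linarith)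
  have hc : Continuous fun p =>
      |c p| + |deriv c p| + |deriv (deriv c) p| + |deriv (deriv (deriv c)) p| :=
    ((s0.continuous.abs.add s1.continuous.abs).add s2.continuous.abs).add s3.continuous.abs
  obtain ⟨B, hB⟩ := (isCompact_Icc (a := p1 - 1) (b := p1)).bddAbove_image hc.continuousOn
  refine ⟨c, deriv c, deriv (deriv c), deriv (deriv (deriv c)), |B| + 1, s0, fun p =>
    ⟨(s0.differentiable (by simp) p).hasDerivAt, (s1.differentiable (by simp) p).hasDerivAt,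
      (s2.differentiable (by simp) p).hasDerivAt⟩, fun p => ⟨Real.smoothTransition.nonneg _, ?_⟩,
    z0, fun p hp => ⟨o0 p hp, loc p 1 ((eventually_lt_nhds hp).mono o0)⟩, by positivity,
    fun p hp => ?_⟩
  · have : Antitone c := fun x y hxy => Real.smoothTransition.monotone (by linarith)
    exact this.deriv_nonpos
  · rcases le_or_gt p p1 with h | h
    · have h1 : |c p| + |deriv c p| + |deriv (deriv c) p| + |deriv (deriv (deriv c)) p| ≤ B :=
        hB ⟨p, ⟨hp, h⟩, rfl⟩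
      have := le_abs_self B
      have := abs_nonneg (c p)
      have := abs_nonneg (deriv c p)
      have := abs_nonneg (deriv (deriv c) p)
      have := abs_nonneg (deriv (deriv (deriv c)) p)
      exact ⟨by linarith, by linarith, by linarith, by linarith⟩
    · obtain ⟨h1, h2, h3⟩ := loc p 0 ((eventually_gt_nhds h).mono fun x hx => z0 x hx.le)
      rw [z0 p h.le, h1, h2, h3, abs_zero]
      exact ⟨by positivity, by positivity, by positivity, by positivity⟩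

theorem exists_small (p1 : ℝ) {ε : ℝ} (hε : 0 < ε) : ∃ ps, ps < p1 - 1 ∧ ∀ p, p1 - 1 ≤ p →
    |a0 (sg ps p)| ≤ ε ∧ |a1 (sg ps p)| ≤ ε ∧ |a2 (sg ps p)| ≤ ε ∧ |a3 (sg ps p)| ≤ ε := by
  have hc : ContinuousAt (fun t : ℝ => |a0 (1 - t)⁻¹| + |a1 (1 - t)⁻¹| + |a2 (1 - t)⁻¹| +
      |a3 (1 - t)⁻¹|) 0 := by
    unfold a0 a1 a2 a3
    fun_prop (disch := simp)
  obtain ⟨δ, hδ, h⟩ := Metric.continuousAt_iff.1 hc ε hε
  refine ⟨p1 - 2 + Real.log (min δ 1), ?_, fun p hp => ?_⟩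
  · have := Real.log_nonpos (lt_min hδ one_pos).le (min_le_right δ 1)
    linarith
  · have h1 : Real.exp (p1 - 2 + Real.log (min δ 1) - p) < δ := by
      refine lt_of_lt_of_le ?_ (min_le_left δ 1)
      rw [← Real.exp_log (lt_min hδ one_pos), Real.log_exp, Real.exp_lt_exp]
      linarith
    have h2 := h (x := Real.exp (p1 - 2 + Real.log (min δ 1) - p))
      (by rwa [Real.dist_eq, sub_zero, abs_of_pos (Real.exp_pos _)])
    have h3 : |a0 (1 - 0 : ℝ)⁻¹| + |a1 (1 - 0 : ℝ)⁻¹| + |a2 (1 - 0 : ℝ)⁻¹| +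
        |a3 (1 - 0 : ℝ)⁻¹| = 0 := by
      norm_num [a0, a1, a2, a3]
    rw [Real.dist_eq, h3, sub_zero] at h2
    have h4 := (le_abs_self _).trans h2.le
    unfold sg
    set s := (1 - Real.exp (p1 - 2 + Real.log (min δ 1) - p))⁻¹
    have := abs_nonneg (a0 s)
    have := abs_nonneg (a1 s)
    have := abs_nonneg (a2 s)
    have := abs_nonneg (a3 s)
    exact ⟨by linarith, by linarith, by linarith, by linarith⟩

theorem sg_lim (ps : ℝ) : Tendsto (sg ps) (𝓝[>] ps) atTop := by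
  refine tendsto_inv_nhdsGT_zero.comp (tendsto_nhdsWithin_iff.2 ⟨?_, ?_⟩)
  · have : ContinuousAt (fun p => 1 - Real.exp (ps - p)) ps := by fun_prop
    have h1 := this.tendsto
    simp only [sub_self, Real.exp_zero] at h1
    exact h1.mono_left nhdsWithin_le_nhds
  · exact eventually_nhdsWithin_of_forall fun p hp => den_pos hp

end ProfJP

open ProfJP

theorem pProfJ : S_ProfJ := by
  intro p1
  obtain ⟨c0, c1, c2, c3, B, hs, hd, hsg, hz, ho, hB, hb⟩ := exists_cut p1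
  obtain ⟨ps, hps, hsm⟩ := exists_small p1 (ε := 1 / (800 * B)) (by positivity)
  refine ⟨fun p => c0 p * a0 (sg ps p), ps, 20, fun K hK => ⟨by linarith, ?_,
    fun p hp => by rw [hz p hp, zero_mul], ?_, ?_⟩⟩
  · refine hs.contDiffOn.mul ?_
    have h1 : ContDiffOn ℝ ∞ (sg ps) (Ioi ps) :=
      ContDiffOn.inv (by fun_prop) fun p hp => (den_pos hp).ne'
    unfold a0
    fun_prop
  · have d1 := der_on (a := ps) (h := fun p => c0 p * a0 (sg ps p))
      (fun p hp => (hd p).1.fun_mul (a0_der hp)) fun _ _ => rfl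
    have d2 := der_on (fun p hp => ((hd p).2.1.fun_mul (a0_der hp)).fun_add
      ((hd p).1.fun_mul (a1_der hp))) d1
    have d3 := der_on (fun p hp => (((hd p).2.2.fun_mul (a0_der hp)).fun_add
      ((hd p).2.1.fun_mul (a1_der hp))).fun_add (((hd p).2.1.fun_mul (a1_der hp)).fun_add
      ((hd p).1.fun_mul (a2_der hp)))) d2
    intro p hp
    rw [d1 p hp, d2 p hp, d3 p hp]
    have h1 := one_le_sg hp
    rcases lt_or_ge p (p1 - 1) with h | h
    · obtain ⟨e0, e1, e2, e3⟩ := ho p h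
      simp only [e0, e1, e2, e3, zero_mul, one_mul, zero_add]
      exact num_pure hK h1
    · obtain ⟨b0, b1, b2, b3⟩ := hb p h
      obtain ⟨g0, g1, g2, g3⟩ := hsm p h
      have key : ∀ x y : ℝ, |x| ≤ B → |y| ≤ 1 / (800 * B) → -(1 / 800) ≤ x * y ∧ x * y ≤ 1 / 800 := by
        intro x y hx hy
        rw [← abs_le, abs_mul]
        refine (mul_le_mul hx hy (abs_nonneg _) hB.le).trans_eq ?_
        field_simp
      have k00 := key _ _ b0 g0
      have k10 := key _ _ b1 g0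
      have k20 := key _ _ b2 g0
      have k30 := key _ _ b3 g0
      have k01 := key _ _ b0 g1
      have k11 := key _ _ b1 g1
      have k21 := key _ _ b2 g1
      have k02 := key _ _ b0 g2
      have k12 := key _ _ b1 g2
      have k03 := key _ _ b0 g3
      refine num_small hK (mul_nonneg (hsg p).1 (a0_nonneg h1))
        (add_nonpos (mul_nonpos_of_nonpos_of_nonneg (hsg p).2 (a0_nonneg h1))
          (mul_nonpos_of_nonneg_of_nonpos (hsg p).1 (a1_nonpos h1))) ?_ ?_ ?_ ?_ <;>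
      exact abs_le.2 ⟨by linarith, by linarith⟩
  · have h1 : ∀ᶠ p in 𝓝[>] ps, sg ps p / 3 - 1 ≤ c0 p * a0 (sg ps p) := by
      filter_upwards [self_mem_nhdsWithin, nhdsWithin_le_nhds (eventually_lt_nhds hps)] with p hp h
      have h2 := one_le_sg hp
      rw [(ho p h).1, one_mul]
      have h3 : 0 ≤ sg ps p ^ 3 := by positivity
      have h4 : 0 ≤ sg ps p ^ 2 := by positivity
      unfold a0
      linarith
    exact tendsto_atTop_mono' _ h1
      (tendsto_atTop_add_const_right _ (-1) ((sg_lim ps).atTop_div_const (by norm_num)))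

end Pool.Agent.P.MP_5d7cf0_gt
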