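import Pool.Agent.P.MP_5d7cf0_gt.DM

/-!
Statements of the packages.
-/

open Set Filter Topology MeasureTheory ComplexConjugate
open scoped ContDiff ENNReal

namespace Pool.Agent.P.MP_5d7cf0_gt

/-! ### Package Act -/

def S_Act : Prop :=
  IsOpen X ∧ ∀ σ : Equiv.Perm (Fin 6),
    (∀ x ∈ X, act σ x ∈ X ∧ act σ⁻¹ (act σ x) = x ∧ ContDiffAt ℂ ∞ (act σ) x) ∧
    ∃ (D : E → ℂ) (c : E → Fin 6 → ℂ), ∀ x ∈ X, Rel (pt x ∘ σ) (pt (act σ x)) (D x) (c x) ∧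
      ContDiffAt ℂ ∞ (fun y => D y ^ 3 * ∏ i, c y i) x

def S_NF : Prop := IsOpen FF ∧ ∀ x ∈ X, ∃ σ, act σ x ∈ FF

/-! ### Package Mob -/

/-- change of variables by a Moebius map -/
def S_Mob0 : Prop :=
  ∀ (Θ : ℂ × ℂ → ℝ≥0∞) (α β γ δ : ℂ), α * δ - β * γ ≠ 0 →
    (∀ (c : ℂ) (u : ℂ × ℂ), c ≠ 0 → Θ (c * u.1, c * u.2) = ENNReal.ofReal (‖c‖⁻¹ ^ 4) * Θ u) →
    ∫⁻ z : ℂ, Θ (z, 1) =
      ENNReal.ofReal (‖α * δ - β * γ‖ ^ 2) * ∫⁻ z : ℂ, Θ (α * z + β, γ * z + δ)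

def S_Mob : Prop :=
  (∀ v v' D c, Rel v v' D c → Vh v' = nf D c * Vh v) ∧
    ∀ (v : V6) (σ : Equiv.Perm (Fin 6)), Vh (v ∘ σ) = Vh v

/-- upper bound in terms of chordal distances -/
def S_VB : Prop :=
  ∀ η : ℝ, 0 < η → ∃ B : ℝ, ∀ v : V6, (∀ i, 1 ≤ ‖(v i).1‖ ^ 2 + ‖(v i).2‖ ^ 2) →
    (∀ i, ‖(v i).1‖ ^ 2 + ‖(v i).2‖ ^ 2 ≤ 1 / η ^ 2) →
    (∀ i j k, i ≠ j → j ≠ k → i ≠ k →
      η ≤ ‖br (v i) (v j)‖ ∨ η ≤ ‖br (v j) (v k)‖ ∨ η ≤ ‖br (v i) (v k)‖) →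
    Integrable (Vi v) ∧ Vh v ≤ B

def S_Vint : Prop := ∀ v, Gen v → Integrable (Vi v) ∧ 0 < Vh v

/-! ### Package VF -/

def S_VF : Prop :=
  (∃ C : ℝ, ∀ x ∈ FF, Real.log (4 / wt none x) ≤ C * (Vh (pt x) * ‖x 2‖ ^ (2 / 3 : ℝ))) ∧
    ∀ θ : ℝ, 0 < θ → ∃ B, ∀ x ∈ FF, θ ≤ wt none x → Vh (pt x) * ‖x 2‖ ^ (2 / 3 : ℝ) ≤ B

/-! ### Package Ray -/

/-- the primitive along vertical rays -/
def S_Ray : Prop :=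
  ∀ (f : ℂ → ℂ) (Ω : Set ℂ) (e : ℝ), IsOpen Ω → DifferentiableOn ℂ f Ω →
    (∀ z ∈ Ω, ∀ s : ℝ, 0 ≤ s → z + e * s * Complex.I ∈ Ω) → e = 1 ∨ e = -1 →
    (∀ z0 ∈ Ω, ∃ C : ℝ, ∀ᶠ z in 𝓝 z0, ∀ s : ℝ, 0 ≤ s →
      ‖f (z + e * s * Complex.I)‖ ≤ C * (1 + s) ^ (-(5 / 3) : ℝ)) →
    ∀ z ∈ Ω, IntegrableOn (fun s : ℝ => f (z + e * s * Complex.I)) (Ioi 0) ∧
      HasDerivAt (fun w => ∫ s in Ioi (0 : ℝ), f (w + e * s * Complex.I)) (e * Complex.I * f z) z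

/-- basic facts on the integrand; the last item is the domination on bounded closed strips -/
def S_Fm : Prop :=
  ∀ l ∈ O, ∀ m : ℕ,
    (∀ z, ‖fm l m z‖ = ∏ k, ‖z - l k‖ ^ (-(1 / 3) : ℝ)) ∧ IsOpen (Os l m) ∧
    (∀ z ∈ Os l m, HasDerivAt (fm l m) (-(1 / 3) * fm l m z * ∑ k, (z - l k)⁻¹) z) ∧
    (∀ z ∈ Cs l m, (∀ k, z ≠ l k) → ContinuousWithinAt (fm l m) (Cs l m) z) ∧
    (∀ z0 ∈ Os l m, ∃ C : ℝ, ∀ᶠ z in 𝓝 z0, ∀ y : ℝ,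
      ‖fm l m (z + y * Complex.I)‖ ≤ C * (1 + |y|) ^ (-(5 / 3) : ℝ) ∧
        ∀ k, ‖(z + y * Complex.I - l k)⁻¹‖ ≤ C) ∧
    ∃ φ : ℝ → ℝ, Integrable φ ∧ ∀ᵐ y : ℝ, ∀ x : ℝ, (x : ℂ) ∈ Cs l m →
      ‖fm l m (x + y * Complex.I)‖ ≤ φ y

/-! ### Package Str -/

def S_Str : Prop :=
  ∀ l ∈ O, ∀ m : Fin 6,
    ContinuousOn (Up l m) (Cs l m) ∧ ContinuousOn (Dn l m) (Cs l m) ∧
    (∀ z ∈ Os l m, HasDerivAt (Up l m) (Complex.I * fm l m z) z ∧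
      HasDerivAt (Dn l m) (-Complex.I * fm l m z) z) ∧
    (∀ z ∈ Cs l m, Integrable (fun y : ℝ => fm l m (z + y * Complex.I)) ∧
      ∫ y : ℝ, fm l m (z + y * Complex.I) = LL l m ∧ Up l m z + Dn l m z = LL l m) ∧
    (m = 0 ∨ m = 5 → LL l m = 0)

/-- the jumps, the rays and the segments -/
def S_Seg : Prop :=
  ∀ l ∈ O,
    (∀ (k : Fin 5) (y : ℝ), fm l (k + 1) (l k + y * Complex.I) =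
      (if 0 < y then conj ζ else ζ) * fm l k (l k + y * Complex.I)) ∧
    (∀ k : Fin 5, Complex.I * √3 * Up l k (l k) = ζ * LL l k.castSucc - LL l k.succ ∧
      Complex.I * √3 * Dn l k (l k) = LL l k.succ - conj ζ * LL l k.castSucc ∧
      Up l (k + 1) (l k) = conj ζ * Up l k (l k)) ∧
    ∀ k : Fin 4, IntegrableOn (fun τ : ℝ =>
        fm l (k + 1) (l k.castSucc + τ * (l k.succ - l k.castSucc))) (Ioo 0 1) ∧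
      hL (YY l) (rs k.castSucc.castSucc) = √3 * (l k.succ - l k.castSucc) *
        ∫ τ in Ioo (0 : ℝ) 1, fm l (k + 1) (l k.castSucc + τ * (l k.succ - l k.castSucc))

/-! ### Package Strip -/

def S_Strip : Prop := ∀ l ∈ O, Vh (vs l) = -(hL (YY l) (YY l)).re

/-! ### Packages KZ, NV -/

def S_NV : Prop := ∃ l ∈ O, Function.Surjective (fderiv ℂ YY l)

def S_Hol : Prop := IsOpen O ∧ ∃ P : Fin 5 → (Fin 5 → ℂ) → C4,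
  ContDiffOn ℂ ∞ YY O ∧ (∀ k, ContDiffOn ℂ ∞ (P k) O) ∧ ∀ l ∈ O,
    (∀ k, fderiv ℂ YY l (Pi.single k 1) = (1 / 3 : ℂ) • P k l) ∧ ∑ k, P k l = 0 ∧
    ∑ k, l k • P k l = (-2 : ℂ) • YY l ∧
    ∀ i j, i ≠ j → fderiv ℂ (P i) l (Pi.single j 1) = (3 * (l i - l j))⁻¹ • (P i l - P j l)

def S_KZ : Prop :=
  ∃ C0 : ℝ, 0 < C0 ∧ ∀ l ∈ O, ∀ π : Equiv.Perm (Fin 5),
    ‖(Matrix.of ![YY l, fderiv ℂ YY l (Pi.single (π 1) 1), fderiv ℂ YY l (Pi.single (π 2) 1),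
      fderiv ℂ YY l (Pi.single (π 3) 1)]).det‖ ^ 3 * ∏ a, ∏ b ∈ Finset.univ.erase a, ‖l a - l b‖ =
      C0 * ‖l (π 0) - l (π 4)‖ ^ 3

/-! ### Package Pi -/

def S_Pi : Prop :=
  (∀ (s : Finset (Fin 6)) (γ : Fin 6 → ℂ) (ν : ℂ), s.card = 4 →
    (∀ τ ∈ Icc (0 : ℝ) 1, 1 - τ + τ * ν ∈ Complex.slitPlane ∧
      ∀ k ∈ s, (1 - τ + τ * ν) * γ k ∈ Complex.slitPlane) →
    ‖ν‖ ^ (2 / 3 : ℝ) * ‖PiS s fun k => ν * γ k‖ = ‖PiS s γ‖) ∧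
  (∀ (s : Finset (Fin 6)) (γ : Fin 6 → ℂ), s.card = 4 → (∀ k ∈ s, 0 < (γ k).re) →
    ‖PiS s γ‖ = (∏ k ∈ s, ‖γ k‖ ^ (-(1 / 3) : ℝ)) * ‖PiS s fun k => (γ k)⁻¹‖) ∧
  ∃ C : ℝ, 0 < C ∧ ∀ (s : Finset (Fin 6)) (γ : Fin 6 → ℂ), s.card = 4 →
    (∀ k ∈ s, ‖γ k - 1‖ ≤ 1 / 100) → 1 ≤ C * ‖PiS s γ‖ ∧ ‖PiS s γ‖ ≤ C

def S_RP : Prop :=
  (∀ v, Gen v → ∀ i j, i ≠ j → cc {i, j} v < del → rP v i j = rP v j i ∧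
    ∀ κ : ℂ, (∀ k, k ≠ i → k ≠ j → 0 < (κ * bet v i j k).re) → rK v i j κ = rP v i j) ∧
  ∃ C : ℝ, 0 < C ∧ ∀ v, Gen v → ∀ i j k, i ≠ j → k ≠ i → k ≠ j → cc {i, j} v < del →
    ∀ r, r = rP v i j ^ 3 * ‖bet v i j k‖ ^ 4 *
      (∏ n ∈ ({i, j} : Finset (Fin 6))ᶜ, ‖br (v i) (v n)‖) ^ 2 →
    0 < rP v i j ∧ ‖br (v i) (v j)‖ ^ 2 ≤ C * r ∧ r ≤ C * ‖br (v i) (v j)‖ ^ 2

/-! ### Package Loop -/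

def S_Lp : Prop :=
  (∀ (S : Finset (Fin 6)) (α β : Fin 6 → ℂ) (ρ ρ' : ℝ), 0 < ρ → 0 < ρ' →
    (∀ k ∈ S, ‖α k‖ < ρ ∧ ‖α k‖ < ρ') → (∀ l ∈ Sᶜ, ‖β l‖ * ρ < 1 ∧ ‖β l‖ * ρ' < 1) →
    Lp S α β ρ = Lp S α β ρ') ∧
  (∀ (S : Finset (Fin 6)) (α β : Fin 6 → ℂ) (ρ : ℝ) (c : ℂ), 0 < ρ → c ≠ 0 →
    Lp S (fun k => c * α k) (fun l => c⁻¹ * β l) (‖c‖ * ρ) = Lp S α β ρ) ∧
  (∀ (S : Finset (Fin 6)) (α β : Fin 6 → ℂ) (ρ : ℝ), 0 < ρ → Lp Sᶜ β α ρ⁻¹ = Lp S α β ρ) ∧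
  (∀ (S : Finset (Fin 6)) (α β : Fin 6 → ℂ) (ρ : ℝ) (a : ℂ), S.card = 3 → 0 < ρ →
    ‖a‖ ≤ ρ / 100 → (∀ k ∈ S, ‖α k‖ ≤ ρ / 100) → (∀ l ∈ Sᶜ, ‖β l‖ * ρ ≤ 1 / 100) →
    ‖Lp S α β ρ‖ = (∏ l ∈ Sᶜ, ‖1 - a * β l‖ ^ (-(1 / 3) : ℝ)) *
      ‖Lp S (fun k => α k - a) (fun l => β l / (1 - a * β l)) ρ‖) ∧
  ∀ (S : Finset (Fin 6)) (α β : Fin 6 → ℂ) (ρ : ℝ), 0 < ρ →
    (∀ k ∈ S, ‖α k‖ ≤ ρ / 100) → (∀ l ∈ Sᶜ, ‖β l‖ * ρ ≤ 1 / 100) →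
    1 ≤ ‖Lp S α β ρ‖ ∧ ‖Lp S α β ρ‖ ≤ 10

def S_RT : Prop :=
  ∀ v, Gen v → ∀ (S : Finset (Fin 6)), S.card = 3 → cc S v < del → ∀ p ∈ S, ∀ q ∉ S,
    (∀ p' ∈ S, ∀ q' ∉ S, rT v S p q = rT v S p' q') ∧ rT v Sᶜ q p = rT v S p q ∧
    (∀ ρ : ℝ, 0 < ρ → (∀ k ∈ S, ‖bet v q p k‖ < ρ) → (∀ l ∉ S, ‖bet v p q l‖ * ρ < 1) →
      rR v S p q ρ = rT v S p q) ∧
    ∀ r, r = rT v S p q ^ 3 * ((∏ k ∈ S, ‖br (v q) (v k)‖) * ∏ l ∈ Sᶜ, ‖br (v p) (v l)‖) ^ 2 →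
      0 < rT v S p q ∧ ‖br (v p) (v q)‖ ^ 6 ≤ r ∧ r ≤ 10 ^ 6 * ‖br (v p) (v q)‖ ^ 6

/-! ### Package Xi -/

def S_Xi : Prop :=
  ∀ v, Gen v → ∀ S : Finset (Fin 6),
    (∀ v' D c, Rel v v' D c → Gen v' ∧ cc S v' = cc S v ∧ xi S v' = xi S v) ∧
    (∀ σ : Equiv.Perm (Fin 6), cc S (v ∘ σ) = cc (S.map σ.toEmbedding) v ∧
      xi S (v ∘ σ) = xi (S.map σ.toEmbedding) v) ∧
    (S.card = 3 → xi Sᶜ v = xi S v) ∧ 0 < xi S v ∧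
    (∀ i j, i ≠ j → S = {i, j} → cc S v < del → xi S v * Vh v = rP v i j) ∧
    ∀ p ∈ S, ∀ q ∉ S, S.card = 3 → cc S v < del → xi S v * Vh v = rT v S p q

/-! ### Packages IdP, IdT -/

def S_IdP : Prop :=
  ∀ l ∈ O, ∀ k : Fin 6, cc {k, k + 1} (vs l) < del →
    xi {k, k + 1} (vs l) * Vh (vs l) = ‖hL (YY l) (rs k)‖ ^ 2

def S_IdT : Prop :=
  ∀ l ∈ O, ∀ (k : Fin 6) (p : Fin 5) (ρ : ℝ), (k : ℕ) ≤ 2 → 0 < ρ →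
    cc {k, k + 1, k + 2} (vs l) < del → p.castSucc ∈ ({k, k + 1, k + 2} : Finset (Fin 6)) →
    (∀ n : Fin 5, if n.castSucc ∈ ({k, k + 1, k + 2} : Finset (Fin 6)) then ‖l n - l p‖ < ρ
      else ρ < |(l n - l p).re|) →
    xi {k, k + 1, k + 2} (vs l) * Vh (vs l) = ‖hL (YY l) (rs k + rs (k + 1))‖ ^ 2

/-! ### Package Tab -/

def S_TabA : Prop :=
  ∀ x ∈ FF, (∀ S : Finset (Fin 6), S.card = 2 ∨ S.card = 3 → (∀ i, S ≠ sp i) → S ≠ {3, 4, 5} →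
    del ≤ cc S (pt x)) ∧ ∀ i, wt i x < 1 / 2 → cc (sp i) (pt x) ≤ 10 ^ 5 * wt i x

def S_TabB : Prop :=
  ∃ C : ℝ, 0 < C ∧ ∀ x ∈ FF, ∀ i, cc (sp i) (pt x) < del →
    wt i x ^ ex i ≤ C * (xi (sp i) (pt x) * Vh (pt x) * ‖x 2‖ ^ (2 / 3 : ℝ)) ∧
      xi (sp i) (pt x) * Vh (pt x) * ‖x 2‖ ^ (2 / 3 : ℝ) ≤ C * wt i x ^ ex i

/-! ### Package Rep -/

/-- the finite points -/
def fp (x : E) : Fin 5 → ℂ := ![0, x 0, x 1, x 2, 1]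

/-- a sorting direction adapted to the collisions -/
def S_Sort : Prop :=
  ∀ x ∈ FF, ∃ (θ : ℂ) (π : Equiv.Perm (Fin 5)) (τ : Equiv.Perm (Fin 6)) (k : Option (Fin 3) → Fin 6),
    1 ≤ ‖θ‖ ∧ ‖θ‖ ≤ 11 ∧ (fun n => θ * fp x (π n)) ∈ O ∧ τ 5 = 5 ∧
    (∀ n, τ n.castSucc = (π n).castSucc) ∧
    (∀ i, wt (some i) x < 1 / 10 ^ 8 →
      sp (some i) = ({k (some i), k (some i) + 1} : Finset (Fin 6)).map τ.toEmbedding) ∧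
    (wt none x < 1 / 10 ^ 8 → (k none : ℕ) ≤ 2 ∧
      sp none = ({k none, k none + 1, k none + 2} : Finset (Fin 6)).map τ.toEmbedding ∧
      ∀ n : Fin 5, 3 ≤ (n : ℕ) → 30 * ‖x 1‖ < |(θ * fp x n).re|)

def S_Data : Prop := ∃ C η, Data (fun x => Vh (pt x)) (fun S x => xi S (pt x)) C η

/-! ### Packages ProfK, ProfJ -/

def S_ProfK : Prop := ∀ l1 : ℝ, ∃ m ψ K, ∀ K', K ≤ K' → ProfK m ψ l1 K'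

def S_ProfJ : Prop := ∀ p1 : ℝ, ∃ M ps K, ∀ K', K ≤ K' → ProfJ M p1 ps K'

/-! ### Package Riem -/

def S_Rm : Prop :=
  ∀ (g : Met) (x : E), ContDiffAt ℝ 2 g x → (∀ᶠ y in 𝓝 x, ∀ a b, g y a b = g y b a) →
    (∀ a, a ≠ 0 → 0 < g x a a) →
    (∀ u v w, g x (chr g x u v) w = kos g x u v w) ∧
    ∀ u v w z, g x (riem g x u v w) z =
      fderiv ℝ (fun y => kos g y v w z) x u - fderiv ℝ (fun y => kos g y u w z) x v -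
        g x (chr g x v w) (chr g x u z) + g x (chr g x u w) (chr g x v z)

def S_Nat : Prop :=
  ∀ (g g' : Met) (φ : E → E) (x : E), ContDiffAt ℝ ∞ φ x → Function.Injective (fderiv ℝ φ x) →
    ContDiffAt ℝ ∞ g' (φ x) → (∀ᶠ y in 𝓝 (φ x), ∀ a b, g' y a b = g' y b a) →
    (∀ a, a ≠ 0 → 0 < g' (φ x) a a) →
    (∀ᶠ y in 𝓝 x, ∀ a b, g y a b = g' (φ y) (fderiv ℝ φ y a) (fderiv ℝ φ y b)) →
    ∀ u v, g x (riem g x u v v) u = g' (φ x)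
      (riem g' (φ x) (fderiv ℝ φ x u) (fderiv ℝ φ x v) (fderiv ℝ φ x v)) (fderiv ℝ φ x u)

/-! ### Package Lev -/

def S_GGnat : Prop :=
  ∀ (ι : Type) [Fintype ι] (v q v' q' : E → ℝ) (L L' : ι → E → ℝ) (μ : ι → ℝ → ℝ) (φ : E → E)
    (c : E → ℂ) (κ : ℝ) (x : E), ContDiffAt ℂ 2 φ x → ContDiffAt ℂ 2 c x → c x ≠ 0 →
    ContDiffAt ℝ 2 v' (φ x) → DifferentiableAt ℝ q' (φ x) →
    (∀ i, DifferentiableAt ℝ (L' i) (φ x) ∨ deriv (μ i) (L' i (φ x)) = 0) →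
    (∀ᶠ y in 𝓝 x, v y = v' (φ y) + κ * Real.log ‖c y‖) → (∀ᶠ y in 𝓝 x, q y = q' (φ y)) →
    (∀ i, ∀ᶠ y in 𝓝 x, L i y = L' i (φ y)) →
    ∀ a b, GG v q L μ x a b = GG v' q' L' μ (φ x) (fderiv ℝ φ x a) (fderiv ℝ φ x b)

def S_GGsm : Prop :=
  ∀ (ι : Type) [Fintype ι] (v q : E → ℝ) (L : ι → E → ℝ) (μ : ι → ℝ → ℝ) (x : E),
    ContDiffAt ℝ ∞ v x → ContDiffAt ℝ ∞ q x →
    (∀ i, (ContDiffAt ℝ ∞ (L i) x ∧ ContDiffAt ℝ ∞ (μ i) (L i x)) ∨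
      ∀ᶠ y in 𝓝 x, deriv (μ i) (L i y) = 0) →
    ContDiffAt ℝ ∞ (GG v q L μ) x ∧ ∀ᶠ y in 𝓝 x, ∀ a b, GG v q L μ y a b = GG v q L μ y b a

def S_Chart : Prop :=
  ∀ (Z : E → C4) (x0 : E), ContDiffAt ℂ ∞ Z x0 →
    (∀ (μ : ℂ) (a : E), μ • Z x0 + fderiv ℂ Z x0 a = 0 → μ = 0 ∧ a = 0) →
    ∃ (ψ : E → E) (c : E → ℂ), ContDiffAt ℂ ∞ ψ 0 ∧ ψ 0 = x0 ∧
      HasFDerivAt ψ (ContinuousLinearMap.id ℂ E) 0 ∧ ContDiffAt ℂ ∞ c 0 ∧ c 0 = 1 ∧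
      ∀ᶠ z in 𝓝 (0 : E), Z (ψ z) = c z • (Z x0 + fderiv ℂ Z x0 z)

/-! ### Package Mod -/

/-- first order identities in the affine model -/
def S_ModA : Prop :=
  ∀ (ι : Type) [Fintype ι] (Z0 : C4) (A : E →L[ℂ] C4) (ρ : ι → C4) (v q : E → ℝ) (L : ι → E → ℝ)
    (μ : ι → ℝ → ℝ) (x : E), LocD 1 (fun z => Z0 + A z) ρ v q L μ x →
    ∀ P, P = pw (fun z => Z0 + A z) ρ v q L μ x →
    (∀ a b, GG v q L μ x a b = (P.H a b).re) ∧ (∀ i a, fderiv ℝ (L i) x a = 2 * (P.eps i a).re) ∧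
    (∀ a, fderiv ℝ (fun z => q z - v z) x a = 2 * (P.ta a).re) ∧
    ∀ a, Real.exp (q x) * fderiv ℝ q x a = ∑ i, P.m1 i * (2 * (P.eps i a).re)

/-- the curvature in the affine model -/
def S_ModB : Prop :=
  ∀ (ι : Type) [Fintype ι] (Z0 : C4) (A : E →L[ℂ] C4) (ρ : ι → C4) (v q : E → ℝ) (L : ι → E → ℝ)
    (μ : ι → ℝ → ℝ) (x : E), LocD ∞ (fun z => Z0 + A z) ρ v q L μ x →
    ∀ P, P = pw (fun z => Z0 + A z) ρ v q L μ x → (∀ a, a ≠ 0 → 0 < (P.H a a).re) →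
    ∀ a b, GG v q L μ x (riem (GG v q L μ) x a b b) a = -P.S a b

def S_Loc : Prop :=
  ∀ (ι : Type) [Fintype ι] (Z : E → C4) (ρ : ι → C4) (v q : E → ℝ) (L : ι → E → ℝ)
    (μ : ι → ℝ → ℝ) (x : E), LocD ∞ Z ρ v q L μ x → ∀ P, P = pw Z ρ v q L μ x →
    (∀ a b, GG v q L μ x a b = (P.H a b).re) ∧ (∀ i a, fderiv ℝ (L i) x a = 2 * (P.eps i a).re) ∧
    (∀ a, Real.exp (q x) * fderiv ℝ q x a = ∑ i, P.m1 i * (2 * (P.eps i a).re)) ∧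
    ((∀ a, a ≠ 0 → 0 < (P.H a a).re) →
      ∀ a b, GG v q L μ x (riem (GG v q L μ) x a b b) a = -P.S a b)

/-! ### Package Ineq -/

/-- the standing pointwise hypotheses -/
structure Pw.Good {κ : Type} [Fintype κ] (P : Pw (Option κ)) (K : ℝ) : Prop where
  ok : P.Ok
  card : Fintype.card κ ≤ 3
  unit : ∀ i, P.eta (some i) = 1
  root : ∀ i, RootNum K (P.x (some i)) (P.m0 (some i)) (P.m1 (some i)) (P.m2 (some i))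
    (P.m3 (some i))
  cusp : CuspNum K (P.m0 none) (P.m1 none) (P.m2 none) (P.m3 none)
  iso : P.eta none = 0 ∨
    (P.eta none ≤ 0 ∧ P.m0 none = 0 ∧ P.m1 none = 0 ∧ P.m2 none = 0 ∧ P.m3 none = 0)

def S_IneqA : Prop :=
  ∀ (κ : Type) [Fintype κ] (P : Pw (Option κ)) (K : ℝ), P.Good K → ∀ a,
    (a ≠ 0 → 0 < (P.H a a).re) ∧ P.s * ‖P.eps none a‖ ^ 2 ≤ (P.H a a).re ∧
    (∀ i, ‖P.eps (some i) a‖ ^ 2 ≤ (P.H a a).re * (1 / P.D (some i) + 1 / P.s)) ∧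
    ((1 + P.m0 none - P.m1 none) - (P.m1 none - P.m2 none) - 3 / 1000) * ‖P.eps none a‖ ^ 2 ≤
      (P.N a a).re

def S_IneqB : Prop :=
  ∀ K : ℝ, ∃ a : ℝ, 0 < a ∧ ∀ (κ : Type) [Fintype κ] (P : Pw (Option κ)), P.Good K → ∀ u v,
    0 ≤ P.S u v ∧ P.S u v ≤ a * ((P.H u u).re * (P.H v v).re - (P.H u v).re ^ 2)

def S_Det : Prop :=
  ∀ (ι : Type) [Fintype ι] (P : Pw ι), P.Ok →
    √(Matrix.of fun p q => (P.H (eb p) (eb q)).re).det =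
      P.y ^ 4 * ‖P.W‖ ^ 2 * (∏ i, P.D i / P.x i) / P.s

/-! ### Packages Sol, Sm -/

def S_Sol : Prop :=
  ∀ V ξ C η m ψ M l1 p1 ps K, Data V ξ C η → ProfK m ψ l1 K → ProfJ M p1 ps K →
    ∃ q, Sol ξ m M ps q

def S_Col : Prop :=
  ∀ V ξ C η, Data V ξ C η → ∃ p1, ∀ ps, ∃ l1, ∀ m ψ M K q, ProfK m ψ l1 K → ProfJ M p1 ps K →
    Sol ξ m M ps q → ∃ c1 c2, Col V ξ η l1 p1 q c1 c2

def S_Sm : Prop :=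
  ∀ V ξ C η m ψ M l1 p1 ps K q c1 c2, All V ξ C η m ψ M l1 p1 ps K q c1 c2 →
    ∀ x ∈ FF, Sm V ξ l1 p1 q x

/-! ### Package Out -/

def S_Out : Prop :=
  ∀ V ξ C η m ψ M l1 p1 ps K q c1 c2, All V ξ C η m ψ M l1 p1 ps K q c1 c2 →
    ∃ a B : ℝ, 0 < a ∧ ∀ g, g = met V ξ m M q → ∀ x ∈ FF, (∀ u, u ≠ 0 → 0 < g x u u) ∧
      (∀ u v, -(a * area g x u v) ≤ g x (riem g x u v v) u ∧ g x (riem g x u v v) u ≤ 0) ∧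
      dens g x ≤ ENNReal.ofReal (B * maj x) ∧
      ∀ u, fderiv ℝ (psi ξ q ψ) x u ^ 2 ≤ B * g x u u

def S_Prop : Prop :=
  ∀ V ξ C η m ψ M l1 p1 ps K q c1 c2, All V ξ C η m ψ M l1 p1 ps K q c1 c2 →
    ∀ R : ℝ, ∃ T, IsCompact T ∧ T ⊆ X ∧ ∀ x ∈ FF, psi ξ q ψ x ≤ R → x ∈ T

/-! ### Packages Comp, Vol -/

def S_Comp : Prop :=
  ∀ (g : Met) (f : E → ℝ) (B : ℝ), ContinuousOn g X → (∀ x ∈ X, ∀ u, u ≠ 0 → 0 < g x u u) →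
    (∀ x ∈ X, DifferentiableAt ℝ f x ∧ ∀ u, fderiv ℝ f x u ^ 2 ≤ B * g x u u) →
    (∀ R : ℝ, ∃ T, IsCompact T ∧ T ⊆ X ∧ ∀ x ∈ X, f x ≤ R → x ∈ T) → Complete g

def S_VolT : Prop :=
  ∀ (g : Met) (φ : E → E) (s : Set E), MeasurableSet s → InjOn φ s →
    (∀ x ∈ s, DifferentiableAt ℝ φ x) →
    (∀ x ∈ s, ∀ u v, g (φ x) (fderiv ℝ φ x u) (fderiv ℝ φ x v) = g x u v) →
    ∫⁻ x in φ '' s, dens g x = ∫⁻ x in s, dens g x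

def S_VolI : Prop := ∫⁻ x in FF, ENNReal.ofReal (maj x) < ⊤

end Pool.Agent.P.MP_5d7cf0_gt
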