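import Mathlib

/-!
Definitions used in the statement for MP_5d7cf0_gt: the moduli space of six ordered points on the
projective line and Riemannian metrics on it.
-/

open Set Filter Topology MeasureTheory
open scoped ContDiff ENNReal

noncomputable section

namespace Pool.Agent.P.MP_5d7cf0_gt

/-- The real vector space `ℂ³ = ℝ⁶`. -/
abbrev E : Type := Fin 3 → ℂ

/-- The determinant of two vectors of `ℂ²`. -/
def br (u v : ℂ × ℂ) : ℂ := u.1 * v.2 - u.2 * v.1

/-- The six points `0, x₀, x₁, x₂, 1, ∞` of the projective line in homogeneous coordinates. -/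
def pt (x : E) : Fin 6 → ℂ × ℂ := ![(0, 1), (x 0, 1), (x 1, 1), (x 2, 1), (1, 1), (1, 0)]

/-- The moduli space `M_{0,6}`: the six points `0, x₀, x₁, x₂, 1, ∞` are distinct. -/
def X : Set E := {x | ∀ i j, i ≠ j → br (pt x i) (pt x j) ≠ 0}

/-- The unordered sets `{0, x₀, x₁, x₂, 1, ∞}` and `{0, y₀, y₁, y₂, 1, ∞}` are projectively
equivalent: a Moebius map carries the first set onto the second. Equivalently, the genus two
curves branched over these sets are isomorphic. -/
def Iso (x y : E) : Prop :=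
  ∃ (σ : Equiv.Perm (Fin 6)) (α β γ δ : ℂ) (c : Fin 6 → ℂ), α * δ - β * γ ≠ 0 ∧ ∀ i,
    pt y i = c i • (α * (pt x (σ i)).1 + β * (pt x (σ i)).2,
      γ * (pt x (σ i)).1 + δ * (pt x (σ i)).2)

/-- `g x u v` is the value at the point `x` on the tangent vectors `u`, `v`. -/
abbrev Form : Type := E → E → E → ℝ

/-- The derivative of a real function at `x` in the direction `u`. -/
def dd (f : E → ℝ) (x u : E) : ℝ := fderiv ℝ f x u

/-- The derivative of a map at `x` in the direction `u`. -/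
def dv (f : E → E) (x u : E) : E := fderiv ℝ f x u

/-- `g` is a smooth Riemannian metric on `X`. -/
structure IsMetric (g : Form) : Prop where
  smooth : ∀ u v, ContDiffOn ℝ ∞ (fun x => g x u v) X
  linear : ∀ x ∈ X, ∀ u, IsLinearMap ℝ (g x u)
  symm : ∀ x ∈ X, ∀ u v, g x u v = g x v u
  pos : ∀ x ∈ X, ∀ u, u ≠ 0 → 0 < g x u u

/-- `g` is preserved by every local `C¹` map that keeps the projective class of the six points. -/
def Invariant (g : Form) : Prop :=
  ∀ φ : E → E, ∀ x ∈ X, ContDiffAt ℝ 1 φ x → (∀ᶠ y in 𝓝 x, Iso y (φ y)) →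
    ∀ u v, g (φ x) (dv φ x u) (dv φ x v) = g x u v

/-- `Γ` gives the Christoffel symbols of the Levi-Civita connection of `g` on `X`:
`2 g(Γ(u,v), w) = ∂_u g(v,w) + ∂_v g(u,w) - ∂_w g(u,v)`. -/
def IsLC (g : Form) (Γ : E → E → E → E) : Prop :=
  ∀ x ∈ X, ∀ u v w, 2 * g x (Γ x u v) w =
    dd (fun y => g y v w) x u + dd (fun y => g y u w) x v - dd (fun y => g y u v) x w

/-- The curvature tensor `R(u,v)w = ∇_u ∇_v w - ∇_v ∇_u w` for constant vector fields. -/
def curv (Γ : E → E → E → E) (x u v w : E) : E :=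
  dv (fun y => Γ y v w) x u - dv (fun y => Γ y u w) x v + Γ x u (Γ x v w) - Γ x v (Γ x u w)

/-- The sectional curvature of the plane spanned by `u` and `v`. -/
def sect (g : Form) (Γ : E → E → E → E) (x u v : E) : ℝ :=
  g x (curv Γ x u v v) u / (g x u u * g x v v - g x u v ^ 2)

/-- The Riemannian distance: the infimum of the lengths of `C¹` paths in `X` from `x` to `y`. -/
def gdist (g : Form) (x y : E) : ℝ≥0∞ :=
  ⨅ (γ : ℝ → E) (_ : ContDiffOn ℝ 1 γ (Icc 0 1)) (_ : MapsTo γ (Icc 0 1) X) (_ : γ 0 = x)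
    (_ : γ 1 = y), ∫⁻ t in Icc (0 : ℝ) 1, ENNReal.ofReal √(g (γ t) (deriv γ t) (deriv γ t))

/-- Completeness: every Cauchy sequence for the Riemannian distance converges to a point of `X`. -/
def Cplt (g : Form) : Prop :=
  ∀ u : ℕ → E, (∀ n, u n ∈ X) →
    (∀ ε : ℝ≥0∞, 0 < ε → ∃ N, ∀ m ≥ N, ∀ n ≥ N, gdist g (u m) (u n) < ε) →
    ∃ x ∈ X, Tendsto u atTop (𝓝 x)

/-- The standard real basis of `ℂ³`. -/
def eb (p : Fin 3 × Fin 2) : E := Pi.single p.1 (![1, Complex.I] p.2)

/-- The Riemannian volume of `X`: the integral of `√(det g_ij)`. -/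
def gvol (g : Form) : ℝ≥0∞ :=
  ∫⁻ x in X, ENNReal.ofReal √(Matrix.of fun p q => g x (eb p) (eb q)).det

end Pool.Agent.P.MP_5d7cf0_gt
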