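import Pool.Agent.P.MP_5d7cf0_gt.StripA

/-!
Package Strip: the area integral is the Lorentzian norm of the periods.
-/

open Set Filter Topology MeasureTheory ComplexConjugate Complex

noncomputable section

namespace Pool.Agent.P.MP_5d7cf0_gt.StripP

theorem s3 : (√3 : ℝ) * √3 = 3 := Real.mul_self_sqrt (by norm_num)

theorem zeta_mul : ζ * conj ζ = 1 := by
  apply Complex.ext
  · simp [ζ]; linarith [s3]
  · simp [ζ]; ring

theorem zeta_sq : I * (1 - ζ ^ 2) = √3 * ζ := by
  apply Complex.ext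
  · simp [ζ, pow_two]; ring
  · simp [ζ, pow_two]; linarith [s3]

theorem H_eq (l : Fin 5 → ℂ) (m : ℕ) (z : ℂ) : H l m z.re = ∫ y : ℝ, G l m (z + y * I) := by
  unfold H
  rw [← integral_add_left_eq_self (fun y : ℝ => G l m (z.re + y * I)) z.im]
  congr 1
  ext y
  congr 1
  apply Complex.ext <;> simp

theorem jump {l : Fin 5 → ℂ} {m n : ℕ} {z : ℂ} (hU : ContinuousOn (Up l m) (Cs l m))
    (hU' : ContinuousOn (Up l n) (Cs l n)) (hz : z ∈ Cs l m) (hz' : z ∈ Cs l n)
    (hI : Integrable fun y : ℝ => fm l m (z + y * I))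
    (hI' : Integrable fun y : ℝ => fm l n (z + y * I))
    (hj : ∀ y : ℝ, fm l n (z + y * I) = (if 0 < y then conj ζ else ζ) * fm l m (z + y * I)) :
    H l m z.re - H l n z.re = √3 * ζ * (conj (Up l m z) * Dn l m z) := by
  have up : ∀ y : ℝ, 0 ≤ y → ∫ t in Ioi y, fm l n (z + t * I) =
      conj ζ * ∫ t in Ioi y, fm l m (z + t * I) := by
    intro y hy
    rw [← integral_const_mul]
    refine setIntegral_congr_fun measurableSet_Ioi fun t ht => ?_
    simp only [hj t, if_pos (hy.trans_lt ht)]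
  have u0 : Up l m z = ∫ t in Ioi (0 : ℝ), fm l m (z + t * I) := rfl
  have key : ∀ y : ℝ, G l m (z + y * I) - G l n (z + y * I) =
      (Iic (0 : ℝ)).indicator (fun y : ℝ => √3 * ζ * conj (Up l m z) * fm l m (z + y * I)) y := by
    intro y
    unfold G
    rw [up_eq l n, hj y]
    by_cases hy : 0 < y
    · rw [indicator_of_notMem (by simpa using hy), if_pos hy, up y hy.le, ← up_eq, map_mul,
        conj_conj]
      linear_combination (-(I * starRingEnd ℂ (Up l m (z + y * I)) * fm l m (z + y * I))) * zeta_mul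
    · have hy' := not_lt.1 hy
      have sp : ∀ {g : ℝ → ℂ}, Integrable g →
          ∫ t in Ioi y, g t = (∫ t in Ioc y 0, g t) + ∫ t in Ioi 0, g t := by
        intro g hg
        rw [← setIntegral_union (Ioc_disjoint_Ioi le_rfl) measurableSet_Ioi hg.integrableOn
          hg.integrableOn, Ioc_union_Ioi_eq_Ioi hy']
      have lo : ∫ t in Ioc y 0, fm l n (z + t * I) = ζ * ∫ t in Ioc y 0, fm l m (z + t * I) := by
        rw [← integral_const_mul]
        refine setIntegral_congr_fun measurableSet_Ioc fun t ht => ?_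
        simp only [hj t, if_neg (not_lt.2 ht.2)]
      rw [indicator_of_mem (by simpa using hy'), if_neg hy, sp hI', up 0 le_rfl, lo, up_eq l m,
        sp hI, ← u0, ← zeta_sq]
      simp only [map_add, map_mul, conj_conj]
      linear_combination (-(I * starRingEnd ℂ (∫ t in Ioc y 0, fm l m (z + t * I)) *
        fm l m (z + y * I))) * zeta_mul
  rw [H_eq, H_eq, ← integral_sub (int_G hU hz hI) (int_G hU' hz' hI')]
  simp only [key]
  rw [integral_indicator measurableSet_Iic, integral_const_mul, mul_assoc (√3 * ζ : ℂ)]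
  congr 2
  rw [← neg_zero, ← integral_comp_neg_Ioi]
  unfold Dn
  congr 1
  ext s
  congr 1
  push_cast
  ring

theorem alg {u d a b : ℂ} (hu : I * √3 * u = ζ * a - b) (hd : I * √3 * d = b - conj ζ * a) :
    √3 * (√3 * ζ * (conj u * d)).re =
      2 * (a.re * b.re + a.im * b.im) - (a.re ^ 2 + a.im ^ 2 + b.re ^ 2 + b.im ^ 2) / 2 := by
  have hu' := congrArg conj hu
  simp only [map_mul, map_sub, conj_I, conj_ofReal] at hu'
  have e : (√3 : ℝ) * (√3 * ζ * (conj u * d)) = ζ * ((conj ζ * conj a - conj b) * (b - conj ζ * a)) := by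
    rw [← hu', ← hd]
    linear_combination (ζ * √3 * √3 * starRingEnd ℂ u * d) * I_mul_I
  rw [← re_ofReal_mul, e]
  simp [ζ]
  linear_combination ((a.re * b.re + a.im * b.im) / 2 - (a.re ^ 2 + a.im ^ 2) / 8) * s3

theorem gen_vs {l : Fin 5 → ℂ} (hl : l ∈ O) : Gen (vs l) := by
  have h : ∀ i j : Fin 5, i ≠ j → l i - l j ≠ 0 := fun i j hij h =>
    hij (StrictMono.injective hl (by simp only [sub_eq_zero.1 h]))
  intro i j hij
  fin_cases i <;> fin_cases j <;> first
    | exact absurd rfl hij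
    | (simp only [br, vs]; simp; done)
    | (simp only [br, vs]; simpa using h _ _ (by decide))

theorem Vi_eq {l : Fin 5 → ℂ} {m : ℕ} (hn : ∀ z, ‖fm l m z‖ = ∏ k, ‖z - l k‖ ^ (-(1 / 3) : ℝ))
    (z : ℂ) : ‖fm l m z‖ ^ 2 = Vi (vs l) z := by
  have h : ∀ r : ℝ, 0 ≤ r → (r ^ (-(1 / 3) : ℝ)) ^ 2 = r ^ (-(2 / 3) : ℝ) := by
    intro r hr
    rw [← Real.rpow_natCast, ← Real.rpow_mul hr]
    norm_num
  rw [hn, ← Finset.prod_pow]
  simp only [h _ (norm_nonneg _)]
  simp [Vi, vs, br, Fin.prod_univ_succ]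

theorem fubini {f : ℂ → ℝ} (hf : Integrable f) :
    Integrable (fun x : ℝ => ∫ y : ℝ, f (x + y * I)) ∧
      ∫ z, f z = ∫ x : ℝ, ∫ y : ℝ, f (x + y * I) := by
  have hp := volume_preserving_equiv_real_prod.symm
  have he := measurableEquivRealProd.symm.measurableEmbedding
  have h1 : Integrable (fun p : ℝ × ℝ => f (measurableEquivRealProd.symm p))
      ((volume : Measure ℝ).prod volume) := (hp.integrable_comp_emb he).2 hf
  have h2 : ∀ x y : ℝ, measurableEquivRealProd.symm (x, y) = x + y * I := fun x y =>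
    Complex.ext (by simp) (by simp)
  constructor
  · simpa only [h2] using h1.integral_prod_left
  · rw [← hp.integral_comp he]
    exact (integral_prod _ h1).trans (by simp only [h2])

end StripP

open StripP in
theorem pStrip (hFm : S_Fm) (hStr : S_Str) (hSeg : S_Seg) (hVint : S_Vint) : S_Strip := by
  intro l hl
  obtain ⟨iW, eW⟩ := fubini (hVint _ (gen_vs hl)).1
  set W : ℝ → ℝ := fun x => ∫ y : ℝ, Vi (vs l) (x + y * I) with hW
  have iW' : Integrable fun x => 2 * (W x : ℂ) := iW.ofReal.const_mul 2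
  have cH : ∀ m : Fin 6, ContinuousOn (H l m) {x : ℝ | (x : ℂ) ∈ Cs l m} := by
    intro m
    obtain ⟨-, -, -, hc, -, φ, hφ, hb⟩ := hFm l hl m
    exact cont_H (hStr l hl m).1 (fun z hz => ((hStr l hl m).2.2.2.1 z hz).1) hc hφ hb
  have dH : ∀ (m : Fin 6) (x : ℝ), (x : ℂ) ∈ Os l m → HasDerivAt (H l m) (2 * (W x : ℂ)) x := by
    intro m x hx
    obtain ⟨hn, ho, hd, -, hC, -⟩ := hFm l hl m
    obtain ⟨C, hC⟩ := hC _ hx
    have := deriv_H (hStr l hl m).1 (fun z hz => ((hStr l hl m).2.2.2.1 z hz).1) ho hd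
      (fun z hz => ((hStr l hl m).2.2.1 z hz).1) hx hC
    simpa only [Vi_eq hn] using this
  have lH : ∀ (m : Fin 6) (p : Filter ℝ) [p.IsCountablyGenerated],
      (∀ᶠ x : ℝ in p, (x : ℂ) ∈ Cs l m) → Tendsto (fun x : ℝ => |x|) p atTop →
      Tendsto (H l m) p (𝓝 0) := by
    intro m p _ hp hp'
    obtain ⟨hn, -, -, -, -, φ, hφ, hb⟩ := hFm l hl m
    exact lim_H (hStr l hl m).1 (fun z hz => ((hStr l hl m).2.2.2.1 z hz).1) hn hφ hb hp hp'
  have mono : StrictMono fun k => (l k).re := hl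
  have cL : ∀ (k : Fin 5) (x : ℝ), x ≤ (l k).re → (∀ j, j < k → (l j).re ≤ x) →
      (x : ℂ) ∈ Cs l k.castSucc := by
    intro k x h1 h2 j
    split_ifs with h
    · exact h2 j h
    · exact h1.trans (mono.monotone (not_lt.1 h))
  have cR : ∀ (k : Fin 5) (x : ℝ), (l k).re ≤ x → (∀ j, k < j → x ≤ (l j).re) →
      (x : ℂ) ∈ Cs l k.succ := by
    intro k x h1 h2 j
    split_ifs with h
    · exact (mono.monotone (Nat.lt_succ_iff.1 h)).trans h1
    · exact h2 j (not_lt.1 h)
  have oL : ∀ (k : Fin 5) (x : ℝ), x < (l k).re → (∀ j, j < k → (l j).re < x) →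
      (x : ℂ) ∈ Os l k.castSucc := by
    intro k x h1 h2 j
    split_ifs with h
    · exact h2 j h
    · exact h1.trans_le (mono.monotone (not_lt.1 h))
  have oR : ∀ (k : Fin 5) (x : ℝ), (l k).re < x → (∀ j, k < j → x < (l j).re) →
      (x : ℂ) ∈ Os l k.succ := by
    intro k x h1 h2 j
    split_ifs with h
    · exact (mono.monotone (Nat.lt_succ_iff.1 h)).trans_lt h1
    · exact h2 j (not_lt.1 h)
  have mid : ∀ k : Fin 4, (∫ x in Iic (l k.succ).re, 2 * (W x : ℂ)) -
      ∫ x in Iic (l k.castSucc).re, 2 * (W x : ℂ) =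
      H l k.castSucc.succ (l k.succ).re - H l k.castSucc.succ (l k.castSucc).re := by
    intro k
    rw [intervalIntegral.integral_Iic_sub_Iic iW'.integrableOn iW'.integrableOn]
    refine intervalIntegral.integral_eq_sub_of_hasDerivAt_of_le
      (mono.monotone (Fin.castSucc_le_succ k)) ((cH _).mono fun x hx => cR _ x hx.1 fun j hj =>
        hx.2.trans (mono.monotone hj)) (fun x hx => dH _ x (oR _ x hx.1 fun j hj =>
        hx.2.trans_le (mono.monotone hj))) iW'.intervalIntegrable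
  have c0 : ∀ x ∈ Iic (l 0).re, (x : ℂ) ∈ Cs l (0 : Fin 5).castSucc := fun x hx =>
    cL 0 x hx fun j hj => absurd hj (Fin.not_lt_zero j)
  have c5 : ∀ x ∈ Ici (l 4).re, (x : ℂ) ∈ Cs l (4 : Fin 5).succ := fun x hx =>
    cR 4 x hx fun j hj => absurd hj (not_lt.2 (Fin.le_last j))
  have left := integral_Iic_of_hasDerivAt_of_tendsto (((cH _).mono c0) _ self_mem_Iic)
    (fun x hx => dH _ x (oL 0 x hx fun j hj => absurd hj (Fin.not_lt_zero j))) iW'.integrableOn
    (lH _ atBot (Filter.mem_of_superset (Iic_mem_atBot _) c0) tendsto_abs_atBot_atTop)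
  have right := integral_Ioi_of_hasDerivAt_of_tendsto (((cH _).mono c5) _ self_mem_Ici)
    (fun x hx => dH _ x (oR 4 x hx fun j hj => absurd hj (not_lt.2 (Fin.le_last j))))
    iW'.integrableOn
    (lH _ atTop (Filter.mem_of_superset (Ici_mem_atTop _) c5) tendsto_abs_atTop_atTop)
  have tot := intervalIntegral.integral_Iic_add_Ioi (b := (l 4).re) iW'.integrableOn
    iW'.integrableOn
  have jm : ∀ k : Fin 5, √3 * (H l k.castSucc (l k).re - H l k.succ (l k).re).re =
      2 * ((LL l k.castSucc).re * (LL l k.succ).re + (LL l k.castSucc).im * (LL l k.succ).im) -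
      ((LL l k.castSucc).re ^ 2 + (LL l k.castSucc).im ^ 2 + (LL l k.succ).re ^ 2 +
        (LL l k.succ).im ^ 2) / 2 := by
    intro k
    have h1 : l k ∈ Cs l k.castSucc := cL k _ le_rfl fun j hj => (mono hj).le
    have h2 : l k ∈ Cs l k.succ := cR k _ le_rfl fun j hj => (mono hj).le
    rw [jump (hStr l hl _).1 (hStr l hl _).1 h1 h2 ((hStr l hl _).2.2.2.1 _ h1).1
      ((hStr l hl _).2.2.2.1 _ h2).1 ((hSeg l hl).1 k)]
    exact alg ((hSeg l hl).2.1 k).1 ((hSeg l hl).2.1 k).2.1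
  have L0 : LL l 0 = 0 := (hStr l hl 0).2.2.2.2 (Or.inl rfl)
  have L5 : LL l 5 = 0 := (hStr l hl 5).2.2.2.2 (Or.inr rfl)
  have sum : ((2 * ∫ x, W x : ℝ) : ℂ) =
      ∑ k : Fin 5, (H l k.castSucc (l k).re - H l k.succ (l k).re) := by
    rw [ofReal_mul, ← integral_complex_ofReal, ofReal_ofNat, ← integral_const_mul, ← tot,
      Fin.sum_univ_five]
    have m0 := mid 0
    have m1 := mid 1
    have m2 := mid 2
    have m3 := mid 3
    simp only [Fin.reduceSucc, Fin.reduceCastSucc] at m0 m1 m2 m3 left right ⊢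
    linear_combination left + right + m0 + m1 + m2 + m3
  have sum' := congrArg (fun z : ℂ => √3 * z.re) sum
  simp only [ofReal_re, re_sum, Finset.mul_sum, jm] at sum'
  unfold Vh
  rw [eW, mul_comm (2 : ℝ), mul_assoc, sum', Fin.sum_univ_five]
  simp [hL, YY, L0, L5]
  ring

end Pool.Agent.P.MP_5d7cf0_gt
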