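import Pool.Agent.P.MP_5d7cf0_gt.St

/-!
Package Strip, part A: the function `H` on one strip.
-/

open Set Filter Topology MeasureTheory ComplexConjugate Complex

noncomputable section

namespace Pool.Agent.P.MP_5d7cf0_gt.StripP

theorem shift (g : ℝ → ℂ) (y : ℝ) : ∫ s in Ioi (0 : ℝ), g (y + s) = ∫ t in Ioi y, g t := by
  have h := (measurePreserving_add_left (volume : Measure ℝ) y).setIntegral_preimage_emb
    (measurableEmbedding_addLeft y) g (Ioi y)
  rw [← h]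
  congr 2
  ext s
  simp

theorem up_eq (l : Fin 5 → ℂ) (m : ℕ) (z : ℂ) (y : ℝ) :
    Up l m (z + y * I) = ∫ t in Ioi y, fm l m (z + t * I) := by
  rw [← shift (fun t => fm l m (z + t * I)) y]
  unfold Up
  congr 1
  ext s
  congr 1
  push_cast
  ring

theorem norm_up_le (l : Fin 5 → ℂ) (m : ℕ) (z : ℂ) (y : ℝ) (φ : ℝ → ℝ) (hφ : Integrable φ)
    (h : ∀ᵐ t : ℝ, ‖fm l m (z + t * I)‖ ≤ φ t) : ‖Up l m (z + y * I)‖ ≤ ∫ t, φ t := by
  rw [up_eq]
  refine (norm_integral_le_of_norm_le hφ.integrableOn (ae_restrict_of_ae h)).trans ?_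
  refine setIntegral_le_integral hφ ?_
  filter_upwards [h] with t ht using (norm_nonneg _).trans ht

theorem mem_Cs {l : Fin 5 → ℂ} {m : ℕ} {z : ℂ} (y : ℝ) (h : z ∈ Cs l m) : z + y * I ∈ Cs l m := by
  intro k
  simpa using h k

theorem mem_Os {l : Fin 5 → ℂ} {m : ℕ} {z : ℂ} (y : ℝ) (h : z ∈ Os l m) : z + y * I ∈ Os l m := by
  intro k
  simpa using h k

theorem Os_sub {l : Fin 5 → ℂ} {m : ℕ} {z : ℂ} (h : z ∈ Os l m) : z ∈ Cs l m := by
  intro k
  have := h k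
  split_ifs at this ⊢ <;> exact this.le

/-- the integrand -/
def G (l : Fin 5 → ℂ) (m : ℕ) (z : ℂ) : ℂ := I * conj (Up l m z) * fm l m z

def H (l : Fin 5 → ℂ) (m : ℕ) (x : ℝ) : ℂ := ∫ y : ℝ, G l m (x + y * I)

theorem norm_G (l : Fin 5 → ℂ) (m : ℕ) (z : ℂ) : ‖G l m z‖ = ‖Up l m z‖ * ‖fm l m z‖ := by
  simp [G]

theorem meas_G {l : Fin 5 → ℂ} {m : ℕ} (hU : ContinuousOn (Up l m) (Cs l m)) {z : ℂ}
    (hz : z ∈ Cs l m) (hI : Integrable fun y : ℝ => fm l m (z + y * I)) :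
    AEStronglyMeasurable (fun y : ℝ => G l m (z + y * I)) := by
  have h1 : Continuous fun y : ℝ => Up l m (z + y * I) :=
    hU.comp_continuous (by fun_prop) fun y => mem_Cs y hz
  have h2 : Continuous fun y : ℝ => I * conj (Up l m (z + y * I)) :=
    continuous_const.mul (continuous_conj.comp h1)
  exact h2.aestronglyMeasurable.mul hI.1

theorem bound_G {l : Fin 5 → ℂ} {m : ℕ} {z : ℂ} {φ : ℝ → ℝ} (hφ : Integrable φ)
    (h : ∀ᵐ t : ℝ, ‖fm l m (z + t * I)‖ ≤ φ t) (y : ℝ) :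
    ‖G l m (z + y * I)‖ ≤ (∫ t, φ t) * ‖fm l m (z + y * I)‖ := by
  rw [norm_G]
  exact mul_le_mul_of_nonneg_right (norm_up_le l m z y φ hφ h) (norm_nonneg _)

theorem int_G {l : Fin 5 → ℂ} {m : ℕ} (hU : ContinuousOn (Up l m) (Cs l m)) {z : ℂ}
    (hz : z ∈ Cs l m) (hI : Integrable fun y : ℝ => fm l m (z + y * I)) :
    Integrable fun y : ℝ => G l m (z + y * I) :=
  (hI.norm.const_mul _).mono' (meas_G hU hz hI)
    (Eventually.of_forall (bound_G hI.norm (Eventually.of_forall fun _ => le_rfl)))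

theorem line_deriv {l : Fin 5 → ℂ} {m : ℕ} {γ : ℝ → ℂ} {t : ℝ} {e q : ℂ} (hγ : HasDerivAt γ e t)
    (hU : HasDerivAt (Up l m) (I * fm l m (γ t)) (γ t)) (hf : HasDerivAt (fm l m) q (γ t)) :
    HasDerivAt (fun s => G l m (γ s))
      (conj e * (conj (fm l m (γ t)) * fm l m (γ t)) + e * (I * conj (Up l m (γ t)) * q)) t := by
  have h1 := (hU.comp t hγ).star
  have h2 := hf.comp t hγ
  have h3 := (h1.const_mul I).mul h2
  refine HasDerivAt.congr_deriv h3 ?_
  simp only [Function.comp, RCLike.star_def, map_mul, conj_I]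
  linear_combination (-(starRingEnd ℂ e * (starRingEnd ℂ (fm l m (γ t)) * fm l m (γ t)))) * I_mul_I

theorem cont_H {l : Fin 5 → ℂ} {m : ℕ} (hU : ContinuousOn (Up l m) (Cs l m))
    (hI : ∀ z ∈ Cs l m, Integrable fun y : ℝ => fm l m (z + y * I))
    (hc : ∀ z ∈ Cs l m, (∀ k, z ≠ l k) → ContinuousWithinAt (fm l m) (Cs l m) z)
    {φ : ℝ → ℝ} (hφ : Integrable φ)
    (hb : ∀ᵐ y : ℝ, ∀ x : ℝ, (x : ℂ) ∈ Cs l m → ‖fm l m (x + y * I)‖ ≤ φ y) :
    ContinuousOn (H l m) {x : ℝ | (x : ℂ) ∈ Cs l m} := by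
  refine continuousOn_of_dominated (bound := fun y => |∫ t, φ t| * φ y)
    (fun x hx => meas_G hU hx (hI _ hx)) (fun x hx => ?_) (hφ.const_mul _) ?_
  · filter_upwards [hb] with y hy
    refine (bound_G hφ (hb.mono fun t ht => ht x hx) y).trans ?_
    exact mul_le_mul (le_abs_self _) (hy x hx) (norm_nonneg _) (abs_nonneg _)
  · have hfin : (Set.range fun k => (l k).im).Countable := (Set.finite_range _).countable
    filter_upwards [hfin.ae_notMem volume] with y hy x hx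
    have hγ : ContinuousWithinAt (fun x : ℝ => (x : ℂ) + y * I) {x : ℝ | (x : ℂ) ∈ Cs l m} x := by
      fun_prop
    have hm : MapsTo (fun x : ℝ => (x : ℂ) + y * I) {x : ℝ | (x : ℂ) ∈ Cs l m} (Cs l m) :=
      fun x hx => mem_Cs y hx
    have h1 := ContinuousWithinAt.comp (f := fun x : ℝ => (x : ℂ) + y * I) (hU _ (hm hx)) hγ hm
    have h2 := ContinuousWithinAt.comp (f := fun x : ℝ => (x : ℂ) + y * I)
      (hc _ (hm hx) fun k hk => hy ⟨k, by simp [← hk]⟩) hγ hm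
    exact (continuousWithinAt_const.mul (continuous_conj.continuousAt.comp_continuousWithinAt h1)).mul h2

theorem lim_H {l : Fin 5 → ℂ} {m : ℕ} (hU : ContinuousOn (Up l m) (Cs l m))
    (hI : ∀ z ∈ Cs l m, Integrable fun y : ℝ => fm l m (z + y * I))
    (hn : ∀ z, ‖fm l m z‖ = ∏ k, ‖z - l k‖ ^ (-(1 / 3) : ℝ))
    {φ : ℝ → ℝ} (hφ : Integrable φ)
    (hb : ∀ᵐ y : ℝ, ∀ x : ℝ, (x : ℂ) ∈ Cs l m → ‖fm l m (x + y * I)‖ ≤ φ y)
    {p : Filter ℝ} [p.IsCountablyGenerated] (hp : ∀ᶠ x : ℝ in p, (x : ℂ) ∈ Cs l m)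
    (hp' : Tendsto (fun x : ℝ => |x|) p atTop) : Tendsto (H l m) p (𝓝 0) := by
  have h := tendsto_integral_filter_of_dominated_convergence (μ := (volume : Measure ℝ)) (l := p)
    (F := fun (x y : ℝ) => G l m (x + y * I)) (f := fun _ => 0) (fun y => |∫ t, φ t| * φ y)
    (hp.mono fun x hx => meas_G hU hx (hI _ hx)) (hp.mono fun x hx => ?_) (hφ.const_mul _)
    (Eventually.of_forall fun y => ?_)
  · rw [integral_zero] at h
    exact h
  · filter_upwards [hb] with y hy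
    refine (bound_G hφ (hb.mono fun t ht => ht x hx) y).trans ?_
    exact mul_le_mul (le_abs_self _) (hy x hx) (norm_nonneg _) (abs_nonneg _)
  · have h1 : Tendsto (fun x : ℝ => ‖fm l m (x + y * I)‖) p (𝓝 0) := by
      simp only [hn]
      have h2 : ∀ k, Tendsto (fun x : ℝ => ‖(x : ℂ) + y * I - l k‖ ^ (-(1 / 3) : ℝ)) p (𝓝 0) := by
        intro k
        refine (tendsto_rpow_neg_atTop (by norm_num)).comp ?_
        refine tendsto_atTop_mono (fun x => ?_) (tendsto_atTop_add_const_right p (-|(l k).re|) hp')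
        refine le_trans ?_ (abs_re_le_norm _)
        have := abs_sub_abs_le_abs_sub x (l k).re
        simpa [sub_eq_add_neg] using this
      simpa using tendsto_finsetProd Finset.univ fun k _ => h2 k
    refine squeeze_zero_norm' (a := fun x : ℝ => (∫ t, φ t) * ‖fm l m (x + y * I)‖)
      (hp.mono fun x hx => bound_G hφ (hb.mono fun t ht => ht x hx) y) ?_
    simpa using h1.const_mul (∫ t, φ t)

theorem deriv_H {l : Fin 5 → ℂ} {m : ℕ} (hU : ContinuousOn (Up l m) (Cs l m))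
    (hI : ∀ z ∈ Cs l m, Integrable fun y : ℝ => fm l m (z + y * I))
    (ho : IsOpen (Os l m))
    (hd : ∀ z ∈ Os l m, HasDerivAt (fm l m) (-(1 / 3) * fm l m z * ∑ k, (z - l k)⁻¹) z)
    (hdU : ∀ z ∈ Os l m, HasDerivAt (Up l m) (I * fm l m z) z)
    {x0 : ℝ} (hx : (x0 : ℂ) ∈ Os l m) {C : ℝ} (hC : ∀ᶠ z in 𝓝 (x0 : ℂ), ∀ y : ℝ,
      ‖fm l m (z + y * I)‖ ≤ C * (1 + |y|) ^ (-(5 / 3) : ℝ) ∧ ∀ k, ‖(z + y * I - l k)⁻¹‖ ≤ C) :
    HasDerivAt (H l m) (2 * ((∫ y : ℝ, ‖fm l m (x0 + y * I)‖ ^ 2 : ℝ) : ℂ)) x0 := by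
  set ψ : ℝ → ℝ := fun y => C * (1 + |y|) ^ (-(5 / 3) : ℝ) with hψ
  have iψ : Integrable ψ := by
    have := integrable_one_add_norm (E := ℝ) (μ := volume) (r := 5 / 3) (by simp; norm_num)
    exact this.const_mul C
  have hs : {x : ℝ | (x : ℂ) ∈ Os l m ∧ ∀ y : ℝ, ‖fm l m (x + y * I)‖ ≤ ψ y ∧
      ∀ k, ‖((x : ℂ) + y * I - l k)⁻¹‖ ≤ C} ∈ 𝓝 x0 :=
    continuous_ofReal.continuousAt.eventually ((ho.eventually_mem hx).and hC)
  have h0 := mem_of_mem_nhds hs
  have hC0 : 0 ≤ C := (norm_nonneg _).trans ((h0.2 0).2 0)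
  have hψC : ∀ y, ψ y ≤ C := fun y => mul_le_of_le_one_right hC0
    (Real.rpow_le_one_of_one_le_of_nonpos (by linarith [abs_nonneg y]) (by norm_num))
  set A : ℂ → ℂ := fun z => conj (fm l m z) * fm l m z with hA
  set B : ℂ → ℂ := fun z => I * conj (Up l m z) * (-(1 / 3) * fm l m z * ∑ k, (z - l k)⁻¹) with hB
  have nA : ∀ (x y : ℝ), ‖fm l m (x + y * I)‖ ≤ ψ y → ‖A (x + y * I)‖ ≤ C * ψ y := by
    intro x y h
    simp only [hA, norm_mul, RCLike.norm_conj]
    exact mul_le_mul (h.trans (hψC y)) h (norm_nonneg _) hC0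
  have nB : ∀ (x : ℝ), (∀ y : ℝ, ‖fm l m (x + y * I)‖ ≤ ψ y ∧
      ∀ k, ‖((x : ℂ) + y * I - l k)⁻¹‖ ≤ C) → ∀ y : ℝ,
      ‖B (x + y * I)‖ ≤ |∫ t, ψ t| * (5 * C) * ψ y := by
    intro x h y
    have h1 := (norm_up_le l m x y ψ iψ (Eventually.of_forall fun t => (h t).1)).trans
      (le_abs_self _)
    have h2 : ‖∑ k, ((x : ℂ) + y * I - l k)⁻¹‖ ≤ 5 * C := by
      refine (norm_sum_le _ _).trans ((Finset.sum_le_sum fun k _ => (h y).2 k).trans ?_)
      simp
    have h3 := (h y).1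
    have h4 := norm_nonneg (fm l m (x + y * I))
    have h5 := norm_nonneg (∑ k, ((x : ℂ) + y * I - l k)⁻¹)
    have h6 : ‖fm l m (x + y * I)‖ * ‖∑ k, ((x : ℂ) + y * I - l k)⁻¹‖ ≤ ψ y * (5 * C) :=
      mul_le_mul h3 h2 h5 (h4.trans h3)
    have h7 := mul_le_mul h1 h6 (mul_nonneg h4 h5) (abs_nonneg _)
    have h8 := mul_nonneg (norm_nonneg (Up l m (x + y * I))) (mul_nonneg h4 h5)
    simp only [hB, norm_mul, RCLike.norm_conj, norm_I, norm_neg, norm_div, norm_one, Complex.norm_ofNat]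
    nlinarith
  have cf : Continuous fun y : ℝ => fm l m (x0 + y * I) :=
    continuous_iff_continuousAt.2 fun y =>
      ContinuousAt.comp (f := fun y : ℝ => (x0 : ℂ) + y * I) (hd _ (mem_Os y hx)).continuousAt
        (by fun_prop)
  have cU : Continuous fun y : ℝ => Up l m (x0 + y * I) :=
    hU.comp_continuous (by fun_prop) fun y => mem_Cs y (Os_sub hx)
  have mA : AEStronglyMeasurable fun y : ℝ => A (x0 + y * I) :=
    ((continuous_conj.comp cf).mul cf).aestronglyMeasurable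
  have mB : AEStronglyMeasurable fun y : ℝ => B (x0 + y * I) := by
    refine (continuous_const.mul (continuous_conj.comp cU)).aestronglyMeasurable.mul
      ((continuous_const.mul cf).aestronglyMeasurable.mul (Measurable.aestronglyMeasurable ?_))
    fun_prop
  have iA : Integrable fun y : ℝ => A (x0 + y * I) :=
    (iψ.const_mul C).mono' mA (Eventually.of_forall fun y => nA x0 y (h0.2 y).1)
  have iB : Integrable fun y : ℝ => B (x0 + y * I) :=
    (iψ.const_mul _).mono' mB (Eventually.of_forall (nB x0 h0.2))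
  have key := (hasDerivAt_integral_of_dominated_loc_of_deriv_le (μ := (volume : Measure ℝ))
    (F := fun (x y : ℝ) => G l m (x + y * I)) (F' := fun (x y : ℝ) => A (x + y * I) + B (x + y * I))
    (bound := fun y => C * ψ y + |∫ t, ψ t| * (5 * C) * ψ y) hs
    (Filter.mem_of_superset hs fun x hx => meas_G hU (Os_sub hx.1) (hI _ (Os_sub hx.1)))
    (int_G hU (Os_sub hx) (hI _ (Os_sub hx))) (mA.add mB)
    (Eventually.of_forall fun y x hx => (norm_add_le _ _).trans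
      (add_le_add (nA x y (hx.2 y).1) (nB x hx.2 y)))
    ((iψ.const_mul _).add (iψ.const_mul _)) (Eventually.of_forall fun y x hx => ?_)).2
  · have z0 : ∫ y : ℝ, (conj I * A (x0 + y * I) + I * B (x0 + y * I)) = 0 := by
      refine integral_eq_zero_of_hasDerivAt_of_integrable (fun y => ?_)
        ((iA.const_mul _).add (iB.const_mul _)) (int_G hU (Os_sub hx) (hI _ (Os_sub hx)))
      have hγ : HasDerivAt (fun y : ℝ => (x0 : ℂ) + y * I) I y := by
        simpa using ((hasDerivAt_id y).ofReal_comp.mul_const I).const_add (x0 : ℂ)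
      exact line_deriv hγ (hdU _ (mem_Os y hx)) (hd _ (mem_Os y hx))
    rw [integral_add (iA.const_mul _) (iB.const_mul _), integral_const_mul, integral_const_mul,
      conj_I] at z0
    have eA : ∫ y : ℝ, A (x0 + y * I) = ((∫ y : ℝ, ‖fm l m (x0 + y * I)‖ ^ 2 : ℝ) : ℂ) := by
      rw [← integral_complex_ofReal]
      congr 1
      ext y
      simp only [hA]
      rw [conj_mul']
      simp
    refine HasDerivAt.congr_deriv key ?_
    rw [integral_add iA iB, ← eA]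
    linear_combination (-I) * z0 + ((∫ y : ℝ, B (x0 + y * I)) - ∫ y : ℝ, A (x0 + y * I)) * I_mul_I
  · have hγ : HasDerivAt (fun x : ℝ => (x : ℂ) + y * I) 1 x := by
      simpa using (hasDerivAt_id x).ofReal_comp.add_const ((y : ℂ) * I)
    refine (line_deriv hγ (hdU _ (mem_Os y hx.1)) (hd _ (mem_Os y hx.1))).congr_deriv ?_
    rw [map_one, one_mul, one_mul]

end Pool.Agent.P.MP_5d7cf0_gt.StripP
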